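import Pool.Agent.Helper49.DX.Dbl

/-!
Block DX-SW (finite combinatorics): switching inequalities.

Paper proof. `dbl` is applied to all products; `cnt` is monotone in nothing, but
(N) `cnt A ω S ≤ cnt A ω (S ∆ pr p q)` if `Cn A ω p q` (`path_of_cn`, `cnt_shift`, equality in fact), and
(O) `cnt A ω S = cnt A ω ∅` if some `γ ⊆ ω` has `gbd γ = S` (`cnt_shift`), `cnt A ω S = 0` otherwise.
* `switch_le`: the left side is the sum over pairs `(F₁, F₂)` with `gbd F₁ = S`, `p ~ q` in `F₁`,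
  `gbd F₂ = ∅`; as in the proof of `dbl` (same weights) it equals
  `∑_ω ∑_{D ⊆ ω, gbd D = S} ww x ω D * #{F₁ ⊆ ω | gbd F₁ = S, p ~ q in F₁}`, and the last number is
  `0` unless `p ~ q` in `ω` and then at most `cnt A ω S = cnt A ω (S ∆ pr p q)`. By `dbl` the right side
  is `∑_ω ∑_{D ⊆ ω, gbd D = S} ww x ω D * cnt A ω (S ∆ pr p q)` (`(S ∆ pr) ∆ pr = S`).
  (Use `dbl_gen` with `P F₁ = Cn A F₁ p q`, and `dbl` for the right side.)
* `mul_le`: `Z (pr a b) Z (pr b c) = ∑ ww * cnt ω (pr a b)`, `D ⊆ ω`, `gbd D = pr a c`; and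
  `cnt ω (pr a b) ≤ cnt ω ∅ = cnt ω (pr a c)` by (O) (with `γ = D`).
* `four_le`: if two of the four points coincide one term on the right equals the left side, the
  others are nonnegative. If they are distinct: `D ⊆ ω`, `gbd D = {a, b, p, q}`, by `comp_parity` `a` is
  connected in `D ⊆ ω` to `b`, `p` or `q`, say to `p`; then by (N) (with `pr a p` added to `S`)
  `cnt ω S = cnt ω (S ∆ pr a p) = cnt ω (pr b q) = cnt ω (pr a p)` (all feasible, (O)).
-/

open Finset

namespace Pool.Agent.Helper49.DX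

open Pool.Agent.Helper49.DL

section

variable {V ι : Type*} [Fintype V] [DecidableEq V] [Fintype ι] [DecidableEq ι]

omit [Fintype V] [Fintype ι] [DecidableEq ι] in
private theorem cn_mono1 (A : ι → Finset V) {F G : Finset ι} (h : F ⊆ G) {a b : V} (hc : Cn A F a b) :
    Cn A G a b := by
  refine Relation.ReflTransGen.mono ?_ a b hc
  rintro u v ⟨e, he, hAe⟩
  exact ⟨e, h he, hAe⟩

private theorem cnt_feas1 (A : ι → Finset V) {ω γ : Finset ι} (h : γ ⊆ ω) {S : Finset V}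
    (hS : gbd A γ = S) : cnt A ω S = cnt A ω ∅ := by
  have h1 := cnt_shift A h S
  rw [hS, symmDiff_self] at h1
  exact h1

omit [Fintype ι] [DecidableEq ι] in
private theorem cnt_nonneg1 (A : ι → Finset V) (ω : Finset ι) (S : Finset V) : 0 ≤ cnt A ω S :=
  Nat.cast_nonneg _

private theorem cnt_le1 (A : ι → Finset V) (ω : Finset ι) (S : Finset V) :
    cnt A ω S ≤ cnt A ω ∅ := by
  rcases (ω.powerset.filter (fun F => gbd A F = S)).eq_empty_or_nonempty with h | ⟨γ, hγ⟩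
  · have h1 : cnt A ω S = 0 := by
      unfold cnt
      rw [h, Finset.card_empty, Nat.cast_zero]
    rw [h1]
    exact cnt_nonneg1 A ω ∅
  · rw [Finset.mem_filter, Finset.mem_powerset] at hγ
    exact (cnt_feas1 A hγ.1 hγ.2).le

open scoped Classical in
theorem switch_le (A : ι → Finset V) (hA : ∀ e, (A e).card = 2) {x : ι → ℝ} (hx : ∀ e, 0 ≤ x e)
    (hx1 : ∀ e, x e ≤ 1) (S : Finset V) (p q : V) :
    (∑ F ∈ Finset.univ.filter (fun F : Finset ι => gbd A F = S ∧ Cn A F p q), ∏ e ∈ F, x e) *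
        ZG A x ∅ ≤
      ZG A x (symmDiff S (pr p q)) * ZG A x (pr p q) := by
  rw [dbl_gen A x S ∅ (fun F => Cn A F p q), dbl]
  have e1 : symmDiff (symmDiff S (pr p q)) (pr p q) = symmDiff S ∅ := by
    rw [symmDiff_assoc, symmDiff_self]
    rfl
  rw [e1]
  refine Finset.sum_le_sum fun ω _ => Finset.sum_le_sum fun D _ =>
    mul_le_mul_of_nonneg_left ?_ (ww_nonneg hx hx1 ω D)
  by_cases h : Cn A ω p q
  · obtain ⟨γ, hγ, hγ2⟩ := path_of_cn A hA h
    have h1 := cnt_shift A hγ S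
    rw [hγ2] at h1
    rw [← h1]
    unfold cnt
    refine Nat.cast_le.2 (Finset.card_le_card fun F hF => ?_)
    rw [Finset.mem_filter] at hF ⊢
    exact ⟨hF.1, hF.2.1⟩
  · have h0 : ω.powerset.filter (fun F => gbd A F = S ∧ Cn A F p q) = ∅ := by
      rw [Finset.filter_eq_empty_iff]
      rintro F hF ⟨_, h2⟩
      exact h (cn_mono1 A (Finset.mem_powerset.1 hF) h2)
    rw [h0, Finset.card_empty, Nat.cast_zero]
    exact cnt_nonneg1 A ω _

theorem mul_le (A : ι → Finset V) (hA : ∀ e, (A e).card = 2) {x : ι → ℝ} (hx : ∀ e, 0 ≤ x e)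
    (hx1 : ∀ e, x e ≤ 1) (a b c : V) :
    ZG A x (pr a b) * ZG A x (pr b c) ≤ ZG A x (pr a c) * ZG A x ∅ := by
  have e1 : symmDiff (pr a c) ∅ = pr a c := symmDiff_bot _
  rw [dbl, dbl, pr_trans, e1]
  refine Finset.sum_le_sum fun ω _ => Finset.sum_le_sum fun D hD =>
    mul_le_mul_of_nonneg_left ?_ (ww_nonneg hx hx1 ω D)
  rw [Finset.mem_filter, Finset.mem_powerset] at hD
  rw [cnt_feas1 A hD.1 hD.2]
  exact cnt_le1 A ω _

theorem four_le (A : ι → Finset V) (hA : ∀ e, (A e).card = 2) {x : ι → ℝ} (hx : ∀ e, 0 ≤ x e)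
    (hx1 : ∀ e, x e ≤ 1) (a b p q : V) :
    ZG A x (symmDiff (pr a b) (pr p q)) * ZG A x ∅ ≤
      ZG A x (pr a b) * ZG A x (pr p q) + ZG A x (pr a p) * ZG A x (pr b q) +
        ZG A x (pr a q) * ZG A x (pr b p) := by
  have e0 : symmDiff (symmDiff (pr a b) (pr p q)) ∅ = symmDiff (pr a b) (pr p q) := symmDiff_bot _
  have e1 : symmDiff (pr a p) (pr b q) = symmDiff (pr a b) (pr p q) := by
    unfold pr
    rw [symmDiff_assoc, symmDiff_assoc, symmDiff_left_comm ({p} : Finset V)]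
  have e2 : symmDiff (pr a q) (pr b p) = symmDiff (pr a b) (pr p q) := by
    unfold pr
    rw [symmDiff_assoc, symmDiff_assoc, symmDiff_left_comm ({q} : Finset V),
      symmDiff_comm ({q} : Finset V) {p}]
  rw [dbl, dbl, dbl, dbl, e0, e1, e2, ← Finset.sum_add_distrib, ← Finset.sum_add_distrib]
  refine Finset.sum_le_sum fun ω _ => ?_
  rw [← Finset.sum_add_distrib, ← Finset.sum_add_distrib]
  refine Finset.sum_le_sum fun D hD => ?_
  rw [← mul_add, ← mul_add]
  refine mul_le_mul_of_nonneg_left ?_ (ww_nonneg hx hx1 ω D)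
  rw [Finset.mem_filter, Finset.mem_powerset] at hD
  obtain ⟨hDω, hDS⟩ := hD
  rw [cnt_feas1 A hDω hDS]
  have n1 := cnt_nonneg1 A ω (pr a b)
  have n2 := cnt_nonneg1 A ω (pr a p)
  have n3 := cnt_nonneg1 A ω (pr a q)
  have key : (∃ γ ⊆ ω, gbd A γ = pr a b) ∨ (∃ γ ⊆ ω, gbd A γ = pr a p) ∨
      ∃ γ ⊆ ω, gbd A γ = pr a q := by
    by_cases h1 : a = b
    · exact Or.inl ⟨∅, Finset.empty_subset _, by rw [gbd_empty, h1, pr_self]⟩
    by_cases h2 : a = p
    · exact Or.inr (Or.inl ⟨∅, Finset.empty_subset _, by rw [gbd_empty, h2, pr_self]⟩)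
    by_cases h3 : a = q
    · exact Or.inr (Or.inr ⟨∅, Finset.empty_subset _, by rw [gbd_empty, h3, pr_self]⟩)
    have ha : a ∈ gbd A D := by
      rw [hDS, Finset.mem_symmDiff]
      left
      constructor
      · rw [pr_ne h1]
        exact Finset.mem_insert_self _ _
      · unfold pr
        rw [Finset.mem_symmDiff, Finset.mem_singleton, Finset.mem_singleton]
        tauto
    obtain ⟨b', hb', hne, hc⟩ := comp_parity A hA ha
    obtain ⟨γ, hγ, hγ2⟩ := path_of_cn A hA hc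
    have hb2 : b' = b ∨ b' = p ∨ b' = q := by
      rw [hDS] at hb'
      unfold pr at hb'
      simp only [Finset.mem_symmDiff, Finset.mem_singleton] at hb'
      tauto
    rcases hb2 with rfl | rfl | rfl
    · exact Or.inl ⟨γ, hγ.trans hDω, hγ2⟩
    · exact Or.inr (Or.inl ⟨γ, hγ.trans hDω, hγ2⟩)
    · exact Or.inr (Or.inr ⟨γ, hγ.trans hDω, hγ2⟩)
  rcases key with ⟨γ, hγ, h⟩ | ⟨γ, hγ, h⟩ | ⟨γ, hγ, h⟩
  · rw [cnt_feas1 A hγ h]
    linarith
  · rw [cnt_feas1 A hγ h]
    linarith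
  · rw [cnt_feas1 A hγ h]
    linarith

end

end Pool.Agent.Helper49.DX
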