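import Pool.Agent.Helper49.DX.Dob2
import Pool.Agent.Helper49.DX.Sw

/-!
Block DX-CT: probabilities of contacts of the interface with given plaquettes.

Paper proof. `Z = ZG dA (xe β (kap J))`. `Z ∅ > 0`, `Z (pr a b) > 0` (there is `F` with `gbd F = pr a b`, e.g. from
`gbd_dob` with `ω = eta 0`; all weights are positive).
* `contact_le`: by `interface_conn` the indicator is at most `if Cn dA (bk ω) p b then 1 else 0`; by `avg_dob`
  (and `avg_mono`) the average is at most `∑_{F, gbd F = pr a b, Cn F p b} w(F) / Z (pr a b)`; by `switch_le` (with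
  `S = pr a b`) this is at most `Z (pr a b ∆ pr p b) Z (pr p b) / (Z ∅ Z (pr a b))`,
  `pr a b ∆ pr p b = pr a p` (`pr_trans`, `pr_comm`).
* `pair_le`: both plaquettes are connected to `b`, hence `Cn dA (bk ω) p q` (`Cn` is symmetric); by `switch_le`
  the average is at most `Z (pr a b ∆ pr p q) Z (pr p q) / (Z ∅ Z (pr a b))` and by `four_le`
  `Z (pr a b ∆ pr p q) Z ∅ ≤ Z (pr a b) Z (pr p q) + Z (pr a p) Z (pr b q) + Z (pr a q) Z (pr b p)`.
-/

open Finset
open scoped Classical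

namespace Pool.Agent.Helper49.DX

open Pool.Agent.Helper49.DL

/-- The interface has a side of the plaquette `p`. -/
def On (N : ℤ) (ω : Cfg) (p : Site) : Prop := ∃ c, Side p c ∧ Interface N ω c

private lemma alg67 {z0 ab pq ap bq aq bp s : ℝ} (h0 : 0 < z0) (hab : 0 < ab) (hpq : 0 ≤ pq)
    (h : s * z0 ≤ ab * pq + ap * bq + aq * bp) :
    s * pq / (z0 * ab) ≤ (pq / z0) ^ 2 +
      (ap / z0 * (bq / z0) + aq / z0 * (bp / z0)) * (pq / z0) / (ab / z0) := by
  have e1 : (pq / z0) ^ 2 +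
      (ap / z0 * (bq / z0) + aq / z0 * (bp / z0)) * (pq / z0) / (ab / z0) =
      (ab * pq + ap * bq + aq * bp) * pq / (z0 * (z0 * ab)) := by
    field_simp
    ring
  have e2 : s * pq / (z0 * ab) = s * z0 * pq / (z0 * (z0 * ab)) := by
    field_simp
  rw [e1, e2]
  exact div_le_div_of_nonneg_right (mul_le_mul_of_nonneg_right h hpq) (by positivity)

private lemma alg67' {z0 ab ap pb : ℝ} (h0 : 0 < z0) (hab : 0 < ab) :
    ap * pb / (z0 * ab) = ap / z0 * (pb / z0) / (ab / z0) := by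
  field_simp

private lemma Z_pos67 {N M : ℤ} (hN : 0 ≤ N) (hM : 1 ≤ M) {β J : ℝ} {a b : PV (box N M)}
    (ha : a.1 = (-N - 1, 0)) (hb : b.1 = (N, 0)) :
    0 < ZG (dA (Λ := box N M)) (xe β (kap J)) (pr a b) := by
  unfold ZG
  apply Finset.sum_pos
  · intro F _
    exact Finset.prod_pos fun e _ => xe_pos (kap J) e
  · refine ⟨bk (box N M) (eta 0), ?_⟩
    rw [Finset.mem_filter]
    exact ⟨Finset.mem_univ _, gbd_dob hN hM ha hb (self_mem_confs _ _)⟩

private lemma cn_symm67 {N M : ℤ} {F : Finset (LB (box N M))} {p q : PV (box N M)}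
    (h : Cn dA F p q) : Cn dA F q p := by
  unfold Cn at h ⊢
  induction h with
  | refl => exact Relation.ReflTransGen.refl
  | tail _ hbc ih =>
    obtain ⟨e, he, h2⟩ := hbc
    exact Relation.ReflTransGen.head ⟨e, he, by rw [h2, Finset.pair_comm]⟩ ih

private lemma avg_cn67 {N M : ℤ} (hN : 0 ≤ N) (hM : 1 ≤ M) {β J : ℝ} (hβ : 0 ≤ β) (hJ : 0 ≤ J)
    {a b : PV (box N M)} (ha : a.1 = (-N - 1, 0)) (hb : b.1 = (N, 0)) (p q : PV (box N M))
    (P : Cfg → Prop) [DecidablePred P]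
    (hP : ∀ ω ∈ confs (box N M) (eta 0), P ω → Cn dA (bk (box N M) ω) p q) :
    avg β (kap J) (box N M) (eta 0) (fun ω => if P ω then 1 else 0) ≤
      ZG (dA (Λ := box N M)) (xe β (kap J)) (symmDiff (pr a b) (pr p q)) *
        ZG (dA (Λ := box N M)) (xe β (kap J)) (pr p q) /
        (ZG (dA (Λ := box N M)) (xe β (kap J)) ∅ * ZG (dA (Λ := box N M)) (xe β (kap J)) (pr a b)) := by
  have hZ0 : 0 < ZG (dA (Λ := box N M)) (xe β (kap J)) ∅ := ZG_pos fun e => (xe_pos (kap J) e).le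
  have hZ := Z_pos67 hN hM (β := β) (J := J) ha hb
  have h1 : avg β (kap J) (box N M) (eta 0) (fun ω => if P ω then 1 else 0) ≤
      avg β (kap J) (box N M) (eta 0)
        (fun ω => if Cn dA (bk (box N M) ω) p q then (1 : ℝ) else 0) := by
    apply avg_mono
    intro ω hω
    show (if P ω then (1 : ℝ) else 0) ≤ if Cn dA (bk (box N M) ω) p q then (1 : ℝ) else 0
    by_cases h : P ω
    · rw [if_pos h, if_pos (hP ω hω h)]
    · rw [if_neg h]
      split_ifs
      · exact zero_le_one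
      · exact le_rfl
  rw [avg_dob hN hM β (kap J) ha hb (fun F => if Cn dA F p q then (1 : ℝ) else 0)] at h1
  have e1 : ∑ F ∈ Finset.univ.filter (fun F : Finset (LB (box N M)) => gbd dA F = pr a b),
      (∏ e ∈ F, xe β (kap J) e) * (if Cn dA F p q then (1 : ℝ) else 0) =
      ∑ F ∈ Finset.univ.filter (fun F : Finset (LB (box N M)) => gbd dA F = pr a b ∧ Cn dA F p q),
        ∏ e ∈ F, xe β (kap J) e := by
    rw [← Finset.filter_filter, Finset.sum_filter (p := fun F : Finset (LB (box N M)) => Cn dA F p q)]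
    refine Finset.sum_congr rfl fun F _ => ?_
    split_ifs
    · rw [mul_one]
    · rw [mul_zero]
  have h2 := switch_le (dA (Λ := box N M)) WI2.dA_card (x := xe β (kap J))
    (fun e => (xe_pos (kap J) e).le) (fun e => xe_le_one hβ hJ e) (pr a b) p q
  refine h1.trans ?_
  show (∑ F ∈ Finset.univ.filter (fun F : Finset (LB (box N M)) => gbd dA F = pr a b),
      (∏ e ∈ F, xe β (kap J) e) * (if Cn dA F p q then (1 : ℝ) else 0)) / _ ≤ _
  rw [e1, div_le_div_iff₀ hZ (mul_pos hZ0 hZ), ← mul_assoc]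
  exact mul_le_mul_of_nonneg_right h2 hZ.le

theorem G2_pos {N M : ℤ} (hN : 0 ≤ N) (hM : 1 ≤ M) {β J : ℝ} {a b : PV (box N M)}
    (ha : a.1 = (-N - 1, 0)) (hb : b.1 = (N, 0)) : 0 < G2 β J N M a b := by
  unfold G2
  exact div_pos (Z_pos67 hN hM ha hb) (ZG_pos fun e => (xe_pos (kap J) e).le)

theorem contact_le {N M : ℤ} (hN : 0 ≤ N) (hM : 1 ≤ M) {β J : ℝ} (hβ : 0 ≤ β) (hJ : 0 ≤ J)
    {a b : PV (box N M)} (ha : a.1 = (-N - 1, 0)) (hb : b.1 = (N, 0)) (p : PV (box N M)) :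
    avg β (kap J) (box N M) (eta 0) (fun ω => if On N ω p.1 then 1 else 0) ≤
      G2 β J N M a p * G2 β J N M p b / G2 β J N M a b := by
  have h1 := avg_cn67 hN hM hβ hJ ha hb p b (fun ω => On N ω p.1) (fun ω hω h => by
    obtain ⟨c, hc1, hc2⟩ := h
    exact interface_conn hN hM hω hc2 hc1 hb)
  refine h1.trans (le_of_eq ?_)
  rw [pr_comm p b, pr_trans, pr_comm b p]
  have hZ0 : 0 < ZG (dA (Λ := box N M)) (xe β (kap J)) ∅ := ZG_pos fun e => (xe_pos (kap J) e).le
  have hZ := Z_pos67 hN hM (β := β) (J := J) ha hb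
  unfold G2
  exact alg67' hZ0 hZ

theorem pair_le {N M : ℤ} (hN : 0 ≤ N) (hM : 1 ≤ M) {β J : ℝ} (hβ : 0 ≤ β) (hJ : 0 ≤ J)
    {a b : PV (box N M)} (ha : a.1 = (-N - 1, 0)) (hb : b.1 = (N, 0)) (p q : PV (box N M)) :
    avg β (kap J) (box N M) (eta 0) (fun ω => if On N ω p.1 ∧ On N ω q.1 then 1 else 0) ≤
      G2 β J N M p q ^ 2 + (G2 β J N M a p * G2 β J N M b q + G2 β J N M a q * G2 β J N M b p) *
        G2 β J N M p q / G2 β J N M a b := by
  have h1 := avg_cn67 hN hM hβ hJ ha hb p q (fun ω => On N ω p.1 ∧ On N ω q.1) (fun ω hω h => by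
    obtain ⟨⟨c, hc1, hc2⟩, d, hd1, hd2⟩ := h
    exact Relation.ReflTransGen.trans (interface_conn hN hM hω hc2 hc1 hb)
      (cn_symm67 (interface_conn hN hM hω hd2 hd1 hb)))
  refine h1.trans ?_
  have hZ0 : 0 < ZG (dA (Λ := box N M)) (xe β (kap J)) ∅ := ZG_pos fun e => (xe_pos (kap J) e).le
  have hZ := Z_pos67 hN hM (β := β) (J := J) ha hb
  have hpq := ZG_nonneg (A := dA (Λ := box N M)) (x := xe β (kap J))
    (fun e => (xe_pos (kap J) e).le) (pr p q)
  have h2 := four_le (dA (Λ := box N M)) WI2.dA_card (x := xe β (kap J))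
    (fun e => (xe_pos (kap J) e).le) (fun e => xe_le_one hβ hJ e) a b p q
  unfold G2
  exact alg67 hZ0 hZ hpq h2

end Pool.Agent.Helper49.DX
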