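import Pool.Agent.Helper49.DX.Wl1

/-!
Block DX-BK2: lattice geometry of a block above the defect line.

The block is `tr (c, H - 1) (ubox l m)`, i.e. `|x - c| ≤ l`, `H ≤ y ≤ H - 1 + m`, `frame` are the sites of the box next to it (star
adjacent) that are not in the row `H - 1`.

Paper proof. Put `a = (c, H - 1)`, `ω' = glue (ubox l m) (shift (-a) ω) (eta 0)`. Note `shift (-a) ω j = ω (j + a)`.
* (row 0) for `|x| ≤ l + 1`: `Low l m ω' (x, 0)`: for `x = - l - 1` the site is outside `box l m`, of height `0`
  (`⟨_, _, le_rfl, ReflTransGen.refl⟩`), the same for `x = l + 1`; then induct on `x` with `low_step` (`ω' (x, 0) = eta 0 (x, 0) = false`,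
  `(x, 0) ∈ box l m` as `m ≥ 1`).
* induction along the path (`Low N M ω i` from `r ∉ box N M`): claim for every site `i` of the path: `i ∈ tr a (ubox l m) →
  Low l m ω' (i - a)`. `r` is not in the block (the block is contained in the box). Step `b → i`, `ω i = false`, `i` in the block: if `b` is in
  the block, `low_step` from `b - a` (`ω' (i - a) = ω i = false`, `i - a ∈ box l m`). If `b` is not in the block put `j = b - a`:
  `|j.1| ≤ l + 1`, `0 ≤ j.2 ≤ m + 1` (star-adjacent to `i - a ∈ ubox l m`). `b` is `Low`, so `ω b = false` (`low_false`). If `j.2 ≥ 1`, then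
  `b` is in `frame` if it is in the box (so `ω b = true`), and outside the box its height `b.2 = j.2 + H - 1 ≥ 1` and `ω b = eta 0 b = true`:
  contradiction. So `j.2 = 0`, `Low l m ω' j` by (row 0), `low_step`.
-/

open Finset
open scoped Classical

namespace Pool.Agent.Helper49.DX

open Pool.Agent.Helper49.DL

/-- The sites of `box N M` next to the block `|x - c| ≤ l`, `H ≤ y ≤ H - 1 + m`, on the left, on the right and above. -/
noncomputable def frame (N M c l H m : ℤ) : Finset Site :=
  (box N M).filter (fun i => (|i.1 - c| = l + 1 ∧ H ≤ i.2 ∧ i.2 ≤ H + m) ∨ (|i.1 - c| ≤ l + 1 ∧ i.2 = H + m))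

theorem enter {N M c l H m : ℤ} {ω : Cfg} (h : ω ∈ confs (box N M) (eta 0)) (hl : 0 ≤ l) (hm : 1 ≤ m)
    (hH : 1 ≤ H) (hHM : H - 1 + m ≤ M) (hc : |c| + l ≤ N)
    (hC : ∀ i ∈ frame N M c l H m, ω i = true) {i : Site} (hi : i ∈ tr (c, H - 1) (ubox l m))
    (hlow : Low N M ω i) :
    Low l m (glue (ubox l m) (shift (-(c, H - 1)) ω) (eta 0)) (i - (c, H - 1)) := by
  set ω' : Cfg := glue (ubox l m) (shift (-(c, H - 1)) ω) (eta 0) with hω'
  have hin : ∀ j : Site, j - (c, H - 1) ∈ ubox l m → ω' (j - (c, H - 1)) = ω j := by
    intro j hj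
    rw [hω', glue_in _ _ hj]
    change ω (j - (c, H - 1) - -(c, H - 1)) = ω j
    rw [sub_neg_eq_add, sub_add_cancel]
  have hout : ∀ x : ℤ, ω' (x, 0) = false := by
    intro x
    rw [hω']
    unfold glue
    rw [if_neg (by rw [mem_ubox]; simp)]
    simp [eta]
  have row : ∀ n : ℕ, (n : ℤ) ≤ 2 * l + 1 → Low l m ω' (-l - 1 + n, 0) := by
    intro n
    induction n with
    | zero =>
      intro _
      refine ⟨_, ?_, le_rfl, Relation.ReflTransGen.refl⟩
      rw [mem_box]
      push_cast
      omega
    | succ n ih =>
      intro hn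
      push_cast at hn ⊢
      refine low_step (ih (by omega)) ?_ (hout _) ?_
      · unfold StarAdj
        rw [abs_le, abs_le]
        simp only
        omega
      · rw [mem_box]
        simp only
        omega
  have row' : ∀ x : ℤ, -l - 1 ≤ x → x ≤ l + 1 → Low l m ω' (x, 0) := by
    intro x h1 h2
    rcases eq_or_lt_of_le h2 with h3 | h3
    · refine ⟨_, ?_, le_rfl, Relation.ReflTransGen.refl⟩
      rw [mem_box]
      simp only
      omega
    · have h4 := row (x + l + 1).toNat (by omega)
      have e : -l - 1 + ((x + l + 1).toNat : ℤ) = x := by omega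
      rwa [e] at h4
  have key : ∀ b : Site, Low N M ω b → b ∈ tr (c, H - 1) (ubox l m) → Low l m ω' (b - (c, H - 1)) := by
    rintro b ⟨r, hr, hr0, hp⟩
    have h0 : Low N M ω b ∧ (b ∈ tr (c, H - 1) (ubox l m) → Low l m ω' (b - (c, H - 1))) := by
      induction hp with
      | refl =>
        refine ⟨⟨r, hr, hr0, Relation.ReflTransGen.refl⟩, fun h1 => ?_⟩
        exfalso
        rw [mem_tr, mem_ubox] at h1
        simp only [Prod.fst_sub, Prod.snd_sub] at h1
        omega
      | @tail b j _ hbj ih =>
        refine ⟨low_step ih.1 hbj.1 hbj.2.1 hbj.2.2, fun hj => ?_⟩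
        have hj' := hj
        rw [mem_tr] at hj'
        have hadj : StarAdj (b - (c, H - 1)) (j - (c, H - 1)) := by
          have h1 := hbj.1
          unfold StarAdj at h1 ⊢
          simp only [Prod.fst_sub, Prod.snd_sub]
          rwa [sub_sub_sub_cancel_right, sub_sub_sub_cancel_right]
        have hωj : ω' (j - (c, H - 1)) = false := by rw [hin j hj', hbj.2.1]
        have hbox : j - (c, H - 1) ∈ box l m := by
          rw [mem_ubox] at hj'
          rw [mem_box]
          omega
        by_cases hb : b ∈ tr (c, H - 1) (ubox l m)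
        · exact low_step (ih.2 hb) hadj hωj hbox
        · have hωb := low_false h ih.1
          have h2 := hadj
          unfold StarAdj at h2
          rw [abs_le, abs_le] at h2
          rw [mem_ubox] at hj'
          rw [mem_tr, mem_ubox] at hb
          simp only [Prod.fst_sub, Prod.snd_sub] at h2 hj' hb
          have h3 : b.2 - (H - 1) = 0 := by
            by_contra h4
            have h5 : H ≤ b.2 := by omega
            have h6 : ω b = true := by
              by_cases h7 : b ∈ box N M
              · refine hC b (Finset.mem_filter.2 ⟨h7, ?_⟩)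
                rw [abs_eq (by omega), abs_le]
                omega
              · rw [mem_confs] at h
                rw [h b h7]
                simp only [eta, decide_eq_true_eq]
                omega
            rw [hωb] at h6
            exact absurd h6 (by simp)
          have h8 : b - (c, H - 1) = (b.1 - c, 0) := Prod.ext rfl h3
          rw [h8] at hadj
          exact low_step (row' _ (by omega) (by omega)) hadj hωj hbox
    exact h0.2
  exact key i hlow hi

end Pool.Agent.Helper49.DX
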