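import Pool.Agent.Helper49.DX.Wl3

/-!
Block DX-LAY: lower bounds for all increasing events and upper bounds for one-point events give upper
bounds for increasing events.

Paper proof. `T = 𝒲.biUnion id`. For `S ⊆ T` put `g S = S.card - (if ∃ W ∈ 𝒲, W ⊆ S then 1 else 0)` (an integer `≥ 0`, because `∅ ∉ 𝒲`; natural
subtraction is harmless) and for a configuration `S ω = T.filter (fun p => Above n p.1 p.2 ω)`, so `Hts n 𝒲 ω ↔ ∃ W ∈ 𝒲, W ⊆ S ω`.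
`g` is monotone: if `S ⊂ S'` then the card increases by at least `1` and the indicator by at most `1`.
For `k = 1, ..., T.card` let `𝒱 k = T.powerset.filter (fun W => k ≤ g W)`; then `Hts n (𝒱 k) ω ↔ k ≤ g (S ω)` (`⇒`: `W ⊆ S ω`, `W ∈ 𝒱 k`,
`k ≤ g W ≤ g (S ω)`; `⇐`: `W = S ω`). As `g ≤ T.card`: `g (S ω) = ∑ k ∈ Icc 1 T.card, 1 {k ≤ g (S ω)}`, so
`∑_{p ∈ T} 1 {Above n p.1 p.2 ω} - 1 {Hts n 𝒲 ω} = ∑_{k} 1 {Hts n (𝒱 k) ω}`.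
Average this identity with both measures (`n₁`, `n₂`), apply the hypothesis to every `𝒱 k` and sum:
`∑_p P₁(A_p) - P₁(Hts 𝒲) ≥ 1/2 (∑_p P₂(A_p) - P₂(Hts 𝒲)) - T.card * t`.
-/

open Finset
open scoped Classical

namespace Pool.Agent.Helper49.DX

open Pool.Agent.Helper49.DL

/-- cardinality minus the indicator of the up-set generated by `𝒲` -/
noncomputable def lg33 (𝒲 : Finset (Finset (ℤ × ℤ))) (S : Finset (ℤ × ℤ)) : ℕ :=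
  S.card - (if ∃ W ∈ 𝒲, W ⊆ S then 1 else 0)

theorem lg33_mono (𝒲 : Finset (Finset (ℤ × ℤ))) {S S' : Finset (ℤ × ℤ)} (h : S ⊆ S') :
    lg33 𝒲 S ≤ lg33 𝒲 S' := by
  unfold lg33
  by_cases hS : ∃ W ∈ 𝒲, W ⊆ S
  · have hS' : ∃ W ∈ 𝒲, W ⊆ S' := by
      obtain ⟨W, hW, h1⟩ := hS
      exact ⟨W, hW, h1.trans h⟩
    rw [if_pos hS, if_pos hS']
    exact Nat.sub_le_sub_right (card_le_card h) 1
  · rw [if_neg hS]
    rcases eq_or_ne S S' with rfl | hne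
    · rw [if_neg hS]
    · have h1 : S.card < S'.card := card_lt_card (h.ssubset_of_ne hne)
      split_ifs <;> omega

theorem hts33 (n : ℤ) (𝒱 : Finset (Finset (ℤ × ℤ))) (T : Finset (ℤ × ℤ))
    (hT : ∀ W ∈ 𝒱, W ⊆ T) (ω : Cfg) :
    Hts n 𝒱 ω ↔ ∃ W ∈ 𝒱, W ⊆ T.filter (fun p => Above n p.1 p.2 ω) := by
  unfold Hts
  constructor
  · rintro ⟨W, hW, h⟩
    exact ⟨W, hW, fun p hp => mem_filter.2 ⟨hT W hW hp, h p hp⟩⟩
  · rintro ⟨W, hW, h⟩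
    exact ⟨W, hW, fun p hp => (mem_filter.1 (h hp)).2⟩

theorem ident33 (n : ℤ) (𝒲 : Finset (Finset (ℤ × ℤ))) (h0 : ∅ ∉ 𝒲) (T : Finset (ℤ × ℤ))
    (hT : ∀ W ∈ 𝒲, W ⊆ T) (ω : Cfg) :
    ∑ p ∈ T, (if Above n p.1 p.2 ω then (1 : ℝ) else 0) - (if Hts n 𝒲 ω then 1 else 0) =
      ∑ k ∈ Icc 1 T.card,
        if Hts n (T.powerset.filter (fun W => k ≤ lg33 𝒲 W)) ω then (1 : ℝ) else 0 := by
  set S := T.filter (fun p => Above n p.1 p.2 ω) with hS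
  have hST : S ⊆ T := filter_subset _ _
  have e1 : ∑ p ∈ T, (if Above n p.1 p.2 ω then (1 : ℝ) else 0) = S.card := by
    rw [hS, card_filter]
    push_cast
    rfl
  have e2 : (Hts n 𝒲 ω ↔ ∃ W ∈ 𝒲, W ⊆ S) := hts33 n 𝒲 T hT ω
  have e3 : ∀ k, (Hts n (T.powerset.filter (fun W => k ≤ lg33 𝒲 W)) ω ↔ k ≤ lg33 𝒲 S) := by
    intro k
    rw [hts33 n _ T (fun W hW => mem_powerset.1 (mem_filter.1 hW).1) ω]
    constructor
    · rintro ⟨W, hW, h⟩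
      exact (mem_filter.1 hW).2.trans (lg33_mono 𝒲 h)
    · intro h
      exact ⟨S, mem_filter.2 ⟨mem_powerset.2 hST, h⟩, subset_rfl⟩
  have e4 : lg33 𝒲 S ≤ T.card := by
    unfold lg33
    exact (Nat.sub_le _ _).trans (card_le_card hST)
  have e5 : ∑ k ∈ Icc 1 T.card, (if k ≤ lg33 𝒲 S then (1 : ℝ) else 0) = lg33 𝒲 S := by
    rw [← Finset.sum_filter]
    have : (Icc 1 T.card).filter (fun k => k ≤ lg33 𝒲 S) = Icc 1 (lg33 𝒲 S) := by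
      ext k
      simp only [mem_filter, mem_Icc]
      omega
    rw [this]
    simp
  have e6 : ∑ k ∈ Icc 1 T.card,
        (if Hts n (T.powerset.filter (fun W => k ≤ lg33 𝒲 W)) ω then (1 : ℝ) else 0) =
      lg33 𝒲 S := by
    rw [← e5]
    refine sum_congr rfl fun k _ => ?_
    by_cases h : k ≤ lg33 𝒲 S
    · rw [if_pos h, if_pos ((e3 k).2 h)]
    · rw [if_neg h, if_neg (fun h' => h ((e3 k).1 h'))]
  rw [e1, e6]
  by_cases h : Hts n 𝒲 ω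
  · rw [if_pos h]
    have h' := e2.1 h
    unfold lg33
    rw [if_pos h']
    obtain ⟨W, hW, hWS⟩ := h'
    have h2 : 1 ≤ S.card := by
      rw [Nat.one_le_iff_ne_zero, Ne, card_eq_zero]
      intro h3
      rw [h3, subset_empty] at hWS
      rw [hWS] at hW
      exact h0 hW
    push_cast [Nat.cast_sub h2]
    ring
  · rw [if_neg h]
    unfold lg33
    rw [if_neg (fun h' => h (e2.2 h'))]
    simp

theorem avg_ident33 {β : ℝ} {κ : Site → ℝ} {Λ : Finset Site} {η : Cfg} (n : ℤ)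
    (𝒲 : Finset (Finset (ℤ × ℤ))) (h0 : ∅ ∉ 𝒲) (T : Finset (ℤ × ℤ))
    (hT : ∀ W ∈ 𝒲, W ⊆ T) :
    ∑ p ∈ T, avg β κ Λ η (fun ω => if Above n p.1 p.2 ω then (1 : ℝ) else 0) -
        avg β κ Λ η (fun ω => if Hts n 𝒲 ω then 1 else 0) =
      ∑ k ∈ Icc 1 T.card, avg β κ Λ η (fun ω =>
        if Hts n (T.powerset.filter (fun W => k ≤ lg33 𝒲 W)) ω then (1 : ℝ) else 0) := by
  rw [← avg_sum, ← avg_sum, ← avg_sub]
  exact avg_congr fun ω _ => ident33 n 𝒲 h0 T hT ω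

theorem layer {β : ℝ} {κ₁ κ₂ : Site → ℝ} {Λ₁ Λ₂ : Finset Site} {η₁ η₂ : Cfg} {n₁ n₂ : ℤ} {t : ℝ}
    (𝒲 : Finset (Finset (ℤ × ℤ))) (h0 : ∅ ∉ 𝒲)
    (h : ∀ 𝒱 : Finset (Finset (ℤ × ℤ)), (∀ W ∈ 𝒱, W ⊆ 𝒲.biUnion id) →
      1 / 2 * avg β κ₂ Λ₂ η₂ (fun ω => if Hts n₂ 𝒱 ω then 1 else 0) - t ≤
        avg β κ₁ Λ₁ η₁ (fun ω => if Hts n₁ 𝒱 ω then 1 else 0)) :
    avg β κ₁ Λ₁ η₁ (fun ω => if Hts n₁ 𝒲 ω then 1 else 0) ≤
      1 / 2 * avg β κ₂ Λ₂ η₂ (fun ω => if Hts n₂ 𝒲 ω then 1 else 0) +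
        ∑ p ∈ 𝒲.biUnion id, (avg β κ₁ Λ₁ η₁ (fun ω => if Above n₁ p.1 p.2 ω then 1 else 0) -
          1 / 2 * avg β κ₂ Λ₂ η₂ (fun ω => if Above n₂ p.1 p.2 ω then 1 else 0)) +
        (𝒲.biUnion id).card * t := by
  set T := 𝒲.biUnion id with hTdef
  have hT : ∀ W ∈ 𝒲, W ⊆ T := fun W hW => Finset.subset_biUnion_of_mem id hW
  have i1 := avg_ident33 (β := β) (κ := κ₁) (Λ := Λ₁) (η := η₁) n₁ 𝒲 h0 T hT
  have i2 := avg_ident33 (β := β) (κ := κ₂) (Λ := Λ₂) (η := η₂) n₂ 𝒲 h0 T hT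
  have h1 : ∑ k ∈ Icc 1 T.card, (1 / 2 * avg β κ₂ Λ₂ η₂ (fun ω =>
        if Hts n₂ (T.powerset.filter (fun W => k ≤ lg33 𝒲 W)) ω then (1 : ℝ) else 0) - t) ≤
      ∑ k ∈ Icc 1 T.card, avg β κ₁ Λ₁ η₁ (fun ω =>
        if Hts n₁ (T.powerset.filter (fun W => k ≤ lg33 𝒲 W)) ω then (1 : ℝ) else 0) :=
    Finset.sum_le_sum fun k _ => h _ fun W hW => mem_powerset.1 (mem_filter.1 hW).1
  rw [Finset.sum_sub_distrib, ← Finset.mul_sum, ← i1, ← i2] at h1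
  rw [Finset.sum_const, Nat.card_Icc, Nat.add_sub_cancel, nsmul_eq_mul] at h1
  rw [Finset.sum_sub_distrib, ← Finset.mul_sum]
  linarith

end Pool.Agent.Helper49.DX
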