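import Pool.Agent.Helper49.DL.Half

/-!
Block DX-TC: the interface along the wall: lower bound for the probability that it passes above a given
height in terms of the magnetisation. (The analogue of `above_compare`, DL/Half.lean, for the upper box.)

Paper proof. Repeat the proofs of `seg_sq`, `no_low` (with `cond_lower` in Explore.lean), `above_finite`, `above_compare` (Half.lean)
with `avg β (kap 1) (ubox N M) (eta 0)` in place of `avg β (kap J) (box N M) (eta 0)` (`J = 1`):
* `two_point` holds for every `Λ` and `η`, so `seg_sq` for `Λ = ubox N M` is the same (`tr v (box r r) ⊆ ubox N M` since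
  `v.2 ≥ r + 1`).
* exploration: `confs (ubox N M) (eta 0) ⊆ confs (box N M) (eta 0)`, the definitions `Low N M`, `Bs N M`, `Lam N M` are used
  unchanged. For `ω ∈ confs (ubox N M) (eta 0)` the sites of the box with height `≤ 0` are `false` and star-connected to
  the outside, hence `Low`, so they are in `Bs N M ω` and `Lam N M (Bs N M ω) ⊆ ubox N M`; `dlr` with `Λ = ubox N M`,
  `Λ' = Lam N M B` (for `B = Bs N M ω` for some such `ω`; for other `B` both sides vanish), `lam_bdry`, `Bs_congr`, `mag_le`.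
* `low_below` and `low_gg` hold as `ω ∈ confs (box N M) (eta 0)`.
-/

open Finset
open scoped Classical

namespace Pool.Agent.Helper49.DX

open Pool.Agent.Helper49.DL

section

variable {N M : ℤ} {β : ℝ}

private lemma ubox_box24 {i : Site} (h : i ∈ ubox N M) : i ∈ box N M := by
  rw [mem_ubox] at h
  rw [mem_box]
  omega

private lemma confs24 {ω : Cfg} (h : ω ∈ confs (ubox N M) (eta 0)) :
    ω ∈ confs (box N M) (eta 0) := by
  rw [mem_confs] at *
  exact fun i hi => h i (fun h' => hi (ubox_box24 h'))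

private lemma low_neg24 {ω : Cfg} (h : ω ∈ confs (ubox N M) (eta 0)) {i : Site}
    (hi : i ∈ box N M) (hi0 : i.2 ≤ 0) : Low N M ω i := by
  have key : ∀ n : ℕ, ∀ j : Site, j ∈ box N M → j.2 ≤ 0 → N - j.1 = n → Low N M ω j := by
    intro n
    induction n with
    | zero =>
      intro j hj hj0 hn
      have hb := mem_box.1 hj
      have h1 : Low N M ω (j + e1) := by
        refine ⟨j + e1, ?_, ?_, Relation.ReflTransGen.refl⟩
        · rw [mem_box]
          simp only [e1, Prod.fst_add, Prod.snd_add]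
          push_cast at hn
          omega
        · simp only [e1, Prod.snd_add]
          omega
      refine low_step h1 ?_ ?_ hj
      · unfold StarAdj e1
        simp
      · rw [mem_confs] at h
        rw [h j (fun h' => by rw [mem_ubox] at h'; omega)]
        simp only [eta, decide_eq_false_iff_not]
        omega
    | succ n ih =>
      intro j hj hj0 hn
      have hb := mem_box.1 hj
      push_cast at hn
      have h1 : Low N M ω (j + e1) := by
        refine ih (j + e1) ?_ ?_ ?_
        · rw [mem_box]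
          simp only [e1, Prod.fst_add, Prod.snd_add]
          omega
        · simp only [e1, Prod.snd_add]
          omega
        · simp only [e1, Prod.fst_add]
          omega
      refine low_step h1 ?_ ?_ hj
      · unfold StarAdj e1
        simp
      · rw [mem_confs] at h
        rw [h j (fun h' => by rw [mem_ubox] at h'; omega)]
        simp only [eta, decide_eq_false_iff_not]
        omega
  have hb := mem_box.1 hi
  exact key (N - i.1).toNat i hi hi0 (by omega)

private lemma lam_ubox24 {ω : Cfg} (h : ω ∈ confs (ubox N M) (eta 0)) :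
    Lam N M (Bs N M ω) ⊆ ubox N M := by
  intro i hi
  have h1 := Finset.mem_filter.1 hi
  have h2 := h1.2 i (star_refl i)
  have hb := mem_box.1 h1.1
  rw [mem_ubox]
  by_contra hno
  have h3 : i.2 ≤ 0 := by
    by_contra h4
    exact hno (by omega)
  exact h2.1 (Finset.mem_filter.2 ⟨h1.1, low_neg24 h h1.1 h3⟩)

private lemma cond_lower24 (hβ : 0 ≤ β) {v : Site} (hv : v ∈ ubox N M)
    {B : Finset Site} (hvB : v ∉ B) :
    mag β * Zg β (kap 1) (ubox N M) (eta 0) (fun ω => if Bs N M ω = B then 1 else 0) ≤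
      Zg β (kap 1) (ubox N M) (eta 0) (fun ω => (if Bs N M ω = B then 1 else 0) * sp (ω v)) := by
  have hmag1 : mag β ≤ 1 := by
    refine (mag_le hβ le_rfl (J := 1) (Λ := {v}) (Finset.mem_singleton_self v)).trans ?_
    refine (avg_mono (G := fun _ => 1) fun ω _ => sp_le_one _).trans (le_of_eq (avg_const 1))
  by_cases hex : ∃ ω0 ∈ confs (ubox N M) (eta 0), Bs N M ω0 = B
  swap
  · rw [← Zg_smul]
    refine Zg_mono fun ω hω => ?_
    have hB : Bs N M ω ≠ B := fun h => hex ⟨ω, hω, h⟩
    simp only [if_neg hB, mul_zero, zero_mul, le_refl]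
  have hsub : Lam N M B ⊆ ubox N M := by
    obtain ⟨ω0, h0, h1⟩ := hex
    rw [← h1]
    exact lam_ubox24 h0
  by_cases hL : v ∈ Lam N M B
  · rw [dlr (Λ' := Lam N M B) hsub _ _ (fun ω ξ h => by
      by_cases hB : Bs N M ω = B
      · rw [if_pos hB, if_pos ((Bs_congr h).2 hB)]
      · rw [if_neg hB, if_neg (fun h' => hB ((Bs_congr h).1 h'))]), ← Zg_smul]
    refine Zg_mono fun ω hω => ?_
    by_cases hB : Bs N M ω = B
    · rw [if_pos hB, mul_one, one_mul]
      have h1 := lam_bdry (confs24 hω)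
      rw [hB] at h1
      rw [avg_sameBdry h1 (F := fun ω => sp (ω v)) (fun ω ω' h => by
        have := h v hL
        simp only [this])]
      exact mag_le hβ le_rfl hL
    · rw [if_neg hB]; simp
  · rw [← Zg_smul]
    refine Zg_mono fun ω hω => ?_
    by_cases hB : Bs N M ω = B
    · rw [if_pos hB, mul_one, one_mul]
      have h2 : ω v = true := by
        by_contra hne
        have hf : ω v = false := by simpa using hne
        have h3 : ∃ j, StarAdj j v ∧ Low N M ω j := by
          by_contra hno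
          push Not at hno
          apply hL
          refine Finset.mem_filter.2 ⟨ubox_box24 hv, fun j hj => ?_⟩
          have h3 := hno j hj
          rw [low_iff, hB] at h3
          push Not at h3
          exact ⟨h3.1, fun h4 => absurd h4.2 (not_le.2 (h3.2 h4.1))⟩
        obtain ⟨j, hj, hlow⟩ := h3
        have h4 := low_step hlow hj hf (ubox_box24 hv)
        apply hvB
        rw [← hB]
        exact Finset.mem_filter.2 ⟨ubox_box24 hv, h4⟩
      rw [h2, sp_true]; exact hmag1
    · rw [if_neg hB]; simp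


private lemma seg_sq24 (hβ : 0 ≤ β) {r L : ℕ} (hr : 1 ≤ r) (hL : 1 ≤ L) {x K : ℤ}
    (hK : (r : ℤ) + 1 ≤ K) (hKM : K + L + r ≤ M) (hx : |x| + r ≤ N) :
    avg β (kap 1) (ubox N M) (eta 0) (fun ω => seg x K L ω ^ 2) ≤
      ar β r ^ 2 + (4 * r + 1) / L := by
  have hLpos : (0 : ℝ) < L := by exact_mod_cast hL
  have hx1 := abs_le.1 (le_refl |x|)
  have hball : ∀ k : ℕ, k < L → tr (x, K + k) (box (r : ℤ) r) ⊆ ubox N M := by
    intro k hk i hi
    rw [mem_ball] at hi
    rw [mem_ubox]
    simp only at hi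
    omega
  have hpair : ∀ k l : ℕ, k < L → l < L →
      avg β (kap 1) (ubox N M) (eta 0) (fun ω => sp (ω (x, K + k)) * sp (ω (x, K + l))) ≤
        ar β r ^ 2 + if (k ≤ l + 2 * r ∧ l ≤ k + 2 * r) then 1 else 0 := by
    intro k l hk hl
    by_cases h : k ≤ l + 2 * r ∧ l ≤ k + 2 * r
    · rw [if_pos h]
      have h1 : avg β (kap 1) (ubox N M) (eta 0) (fun ω => sp (ω (x, K + k)) * sp (ω (x, K + l))) ≤
          1 := by
        refine (avg_mono (G := fun _ => 1) fun ω _ => ?_).trans (le_of_eq (avg_const 1))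
        cases ω (x, K + k) <;> cases ω (x, K + l) <;> simp <;> norm_num
      have := sq_nonneg (ar β r)
      linarith
    · rw [if_neg h, add_zero]
      rw [not_and_or] at h
      rcases h with h | h
      · have h2 := two_point (J := 1) (Λ := ubox N M) hβ le_rfl (eta 0) (v := (x, K + l)) (w := (x, K + k)) hr
          (by simp only; omega) (by simp only; omega) (by simp only; omega) (hball l hl)
          (hball k hk)
        refine le_trans (le_of_eq ?_) h2
        congr 1; funext ω; ring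
      · exact two_point (J := 1) (Λ := ubox N M) hβ le_rfl (eta 0) (v := (x, K + k)) (w := (x, K + l)) hr
          (by simp only; omega) (by simp only; omega) (by simp only; omega) (hball k hk)
          (hball l hl)
  have e1' : (fun ω => seg x K L ω ^ 2) = fun ω => ((L : ℝ)⁻¹ ^ 2) *
      ∑ k ∈ Finset.range L, ∑ l ∈ Finset.range L, sp (ω (x, K + k)) * sp (ω (x, K + l)) := by
    funext ω
    unfold seg
    rw [mul_pow, sq (∑ k ∈ Finset.range L, _), Finset.sum_mul_sum]
  rw [e1', avg_smul, avg_sum]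
  have e2' : ∑ k ∈ Finset.range L, avg β (kap 1) (ubox N M) (eta 0)
      (fun ω => ∑ l ∈ Finset.range L, sp (ω (x, K + k)) * sp (ω (x, K + l))) ≤
      ∑ _k ∈ Finset.range L, ((L : ℝ) * ar β r ^ 2 + (4 * r + 1)) := by
    refine Finset.sum_le_sum fun k hk => ?_
    rw [Finset.mem_range] at hk
    rw [avg_sum]
    refine (Finset.sum_le_sum fun l hl => hpair k l hk (Finset.mem_range.1 hl)).trans ?_
    rw [Finset.sum_add_distrib, Finset.sum_const, Finset.card_range, nsmul_eq_mul]
    have hc : ∑ l ∈ Finset.range L, (if (k ≤ l + 2 * r ∧ l ≤ k + 2 * r) then (1 : ℝ) else 0) ≤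
        4 * r + 1 := by
      rw [Finset.sum_ite, Finset.sum_const_zero, add_zero, Finset.sum_const, nsmul_eq_mul, mul_one]
      have : ((Finset.range L).filter (fun l => k ≤ l + 2 * r ∧ l ≤ k + 2 * r)).card ≤ 4 * r + 1 := by
        have hsub : (Finset.range L).filter (fun l => k ≤ l + 2 * r ∧ l ≤ k + 2 * r) ⊆
            Finset.Icc (k - 2 * r) (k + 2 * r) := by
          intro l hl
          rw [Finset.mem_filter] at hl
          rw [Finset.mem_Icc]
          omega
        refine (Finset.card_le_card hsub).trans ?_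
        rw [Nat.card_Icc]
        omega
      exact_mod_cast this
    linarith
  refine (mul_le_mul_of_nonneg_left e2' (by positivity)).trans (le_of_eq ?_)
  rw [Finset.sum_const, Finset.card_range, nsmul_eq_mul]
  field_simp

private lemma no_low24 (hβ : 0 ≤ β) {x K : ℤ} {L : ℕ} (hL : 1 ≤ L)
    (hA : ∀ k : ℕ, k < L → ((x, K + k) : Site) ∈ ubox N M) :
    mag β * avg β (kap 1) (ubox N M) (eta 0)
        (fun ω => if ∀ k : ℕ, k < L → ¬ Low N M ω (x, K + k) then 1 else 0) ≤
      avg β (kap 1) (ubox N M) (eta 0)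
        (fun ω => (if ∀ k : ℕ, k < L → ¬ Low N M ω (x, K + k) then 1 else 0) * seg x K L ω) := by
  set Z := Zg β (kap 1) (ubox N M) (eta 0) with hZ
  have hLpos : (0 : ℝ) < L := by exact_mod_cast hL
  set U : Cfg → ℝ := fun ω => if ∀ k : ℕ, k < L → ¬ Low N M ω (x, K + k) then 1 else 0 with hU
  set 𝓑 := (box N M).powerset.filter (fun B => ∀ k : ℕ, k < L → ((x, K + k) : Site) ∉ B) with h𝓑
  have hsum : ∀ (G : Cfg → ℝ) (ω : Cfg), ∑ B ∈ 𝓑, (if Bs N M ω = B then (1 : ℝ) else 0) * G ω =
      U ω * G ω := by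
    intro G ω
    rw [← Finset.sum_mul, Finset.sum_ite_eq]
    congr 1
    have hiff : Bs N M ω ∈ 𝓑 ↔ ∀ k : ℕ, k < L → ¬ Low N M ω (x, K + k) := by
      rw [h𝓑, Finset.mem_filter]
      constructor
      · rintro ⟨_, h2⟩ k hk hl
        exact h2 k hk (Finset.mem_filter.2 ⟨ubox_box24 (hA k hk), hl⟩)
      · intro h
        exact ⟨Finset.mem_powerset.2 (Finset.filter_subset _ _),
          fun k hk h2 => h k hk (Finset.mem_filter.1 h2).2⟩
    simp only [hU, hiff]
  have hone : ∀ k : ℕ, k < L → mag β * Z U ≤ Z (fun ω => U ω * sp (ω (x, K + k))) := by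
    intro k hk
    have e1' : Z U = ∑ B ∈ 𝓑, Z (fun ω => if Bs N M ω = B then 1 else 0) := by
      rw [hZ, ← Zg_sum]
      refine Zg_congr fun ω _ => ?_
      have := hsum (fun _ => 1) ω
      simp only [mul_one] at this
      exact this.symm
    have e2' : Z (fun ω => U ω * sp (ω (x, K + k))) =
        ∑ B ∈ 𝓑, Z (fun ω => (if Bs N M ω = B then 1 else 0) * sp (ω (x, K + k))) := by
      rw [hZ, ← Zg_sum]
      refine Zg_congr fun ω _ => ?_
      exact (hsum (fun ω => sp (ω (x, K + k))) ω).symm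
    rw [e1', e2', Finset.mul_sum]
    refine Finset.sum_le_sum fun B hB => cond_lower24 hβ (hA k hk) ?_
    exact (Finset.mem_filter.1 hB).2 k hk
  have htot : (L : ℝ) * (mag β * Z U) ≤ (L : ℝ) * Z (fun ω => U ω * seg x K L ω) := by
    have e1' : (L : ℝ) * Z (fun ω => U ω * seg x K L ω) =
        ∑ k ∈ Finset.range L, Z (fun ω => U ω * sp (ω (x, K + k))) := by
      rw [hZ, ← Zg_smul, ← Zg_sum]
      refine Zg_congr fun ω _ => ?_
      unfold seg
      rw [← Finset.mul_sum]
      field_simp
    rw [e1']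
    have : (L : ℝ) * (mag β * Z U) = ∑ _k ∈ Finset.range L, mag β * Z U := by
      rw [Finset.sum_const, Finset.card_range, nsmul_eq_mul]
    rw [this]
    exact Finset.sum_le_sum fun k hk => hone k (Finset.mem_range.1 hk)
  have h := le_of_mul_le_mul_left htot hLpos
  have hz : 0 < Z (fun _ => 1) := Zg_one_pos
  change mag β * (Z U / Z (fun _ => 1)) ≤ Z (fun ω => U ω * seg x K L ω) / Z (fun _ => 1)
  rw [mul_div_assoc']
  exact div_le_div_of_nonneg_right h hz.le

private theorem above_finite24 (hβ : 0 ≤ β) (hm : 0 < mag β) {r L : ℕ} (hr : 1 ≤ r)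
    (hL : 1 ≤ L) {x K : ℤ} (hK : (r : ℤ) + 1 ≤ K) (hKM : K + L + r ≤ M) (hx : |x| + r ≤ N) :
    1 - (2 * mag β)⁻¹ * (ar β r + (4 * r + 1) / (2 * ar β r * L) +
        avg β (kap 1) (ubox N M) (eta 0) (seg x K L)) ≤
      avg β (kap 1) (ubox N M) (eta 0) (fun ω => if Above N x K ω then 1 else 0) := by
  have hx1 := abs_le.1 (le_refl |x|)
  have hLpos : (0 : ℝ) < L := by exact_mod_cast hL
  have har : 0 < ar β r := hm.trans_le (mag_le_ar β r)
  have hA : ∀ k : ℕ, k < L → ((x, K + k) : Site) ∈ ubox N M := by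
    intro k hk; rw [mem_ubox]; simp only; omega
  have hM1 : 1 ≤ M := by omega
  have hN0 : 0 ≤ N := by have := abs_nonneg x; omega
  set E := avg β (kap 1) (ubox N M) (eta 0) with hE
  set U : Cfg → ℝ := fun ω => if ∀ k : ℕ, k < L → ¬ Low N M ω (x, K + k) then 1 else 0 with hU
  have h1 := no_low24 hβ hL hA
  have h2 : E (fun ω => U ω * seg x K L ω) ≤
      E (fun ω => (2 : ℝ)⁻¹ * ((2 * ar β r)⁻¹ * (seg x K L ω ^ 2 + ar β r ^ 2) + seg x K L ω)) := by
    refine avg_mono fun ω _ => ?_
    have h3 := seg_abs_le har x K L ω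
    have h4 := le_abs_self (seg x K L ω)
    have h5 := neg_abs_le (seg x K L ω)
    simp only [hU]
    split_ifs
    · linarith
    · linarith
  have h3 : E (fun ω => (2 : ℝ)⁻¹ * ((2 * ar β r)⁻¹ * (seg x K L ω ^ 2 + ar β r ^ 2) +
      seg x K L ω)) = 2⁻¹ * ((2 * ar β r)⁻¹ * (E (fun ω => seg x K L ω ^ 2) + ar β r ^ 2) +
        E (seg x K L)) := by
    rw [hE, avg_smul, avg_add (fun ω => (2 * ar β r)⁻¹ * (seg x K L ω ^ 2 + ar β r ^ 2))
      (seg x K L), avg_smul, avg_add (fun ω => seg x K L ω ^ 2) (fun _ => ar β r ^ 2), avg_const]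
  have h4 := seg_sq24 hβ hr hL hK hKM hx
  have h5 : (2 * ar β r)⁻¹ * (E (fun ω => seg x K L ω ^ 2) + ar β r ^ 2) ≤
      ar β r + (4 * r + 1) / (2 * ar β r * L) := by
    have h6 : (2 * ar β r)⁻¹ * (E (fun ω => seg x K L ω ^ 2) + ar β r ^ 2) ≤
        (2 * ar β r)⁻¹ * (ar β r ^ 2 + (4 * r + 1) / L + ar β r ^ 2) :=
      mul_le_mul_of_nonneg_left (by linarith) (by positivity)
    refine h6.trans (le_of_eq ?_)
    field_simp
    ring
  have hPU : E U ≤ (2 * mag β)⁻¹ * (ar β r + (4 * r + 1) / (2 * ar β r * L) + E (seg x K L)) := by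
    have h6 : mag β * E U ≤ 2⁻¹ * (ar β r + (4 * r + 1) / (2 * ar β r * L) + E (seg x K L)) := by
      refine h1.trans (h2.trans ?_)
      rw [h3]
      linarith
    rw [mul_inv, mul_assoc, mul_comm (2 : ℝ)⁻¹, mul_assoc, ← div_eq_inv_mul, le_div_iff₀ hm]
    rw [mul_comm (E U)]
    linarith
  have h7 : 1 - E U ≤ E (fun ω => if Above N x K ω then 1 else 0) := by
    have h8 : 1 - E U = E (fun ω => 1 - U ω) := by
      have := avg_sub (β := β) (κ := kap 1) (Λ := ubox N M) (η := eta 0) (fun _ => 1) U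
      rw [avg_const] at this
      exact this.symm
    rw [h8]
    refine avg_mono fun ω hω => ?_
    simp only [hU]
    by_cases hu : ∀ k : ℕ, k < L → ¬ Low N M ω (x, K + k)
    · rw [if_pos hu]; split_ifs <;> norm_num
    · rw [if_neg hu]
      push Not at hu
      obtain ⟨k, hk, hl⟩ := hu
      obtain ⟨y, hy1, hy2⟩ := low_below (confs24 hω) hN0 hM1 hl
      have hAb : Above N x K ω := ⟨y, by simp only at hy1; omega, hy2⟩
      rw [if_pos hAb]; norm_num
  linarith

end

theorem wall_above {β : ℝ} (hβ : 0 ≤ β) (hm : 0 < mag β) {t : ℝ} (ht : 0 < t) :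
    ∃ r L₀ : ℕ, 1 ≤ r ∧ 1 ≤ L₀ ∧ ∀ L : ℕ, L₀ ≤ L → ∀ N M x K : ℤ,
      (r : ℤ) ≤ K → K + L + r ≤ M → |x| + r ≤ N →
      1 / 2 - (2 * mag β)⁻¹ * avg β (kap 1) (ubox N M) (eta 0) (seg x K L) - t ≤
        avg β (kap 1) (ubox N M) (eta 0) (fun ω => if Above N x K ω then 1 else 0) := by
  obtain ⟨r, hr, har⟩ := exists_ar (β := β) (δ := mag β * t) (by positivity)
  have harm := mag_le_ar β r
  obtain ⟨L₀, hL₀⟩ := exists_nat_gt ((4 * r + 1) / (2 * mag β * (mag β * t)))
  have hLpos₀ : (0 : ℝ) < L₀ := lt_of_le_of_lt (by positivity) hL₀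
  have hL1₀ : 1 ≤ L₀ := by exact_mod_cast hLpos₀
  refine ⟨r + 1, L₀, by omega, hL1₀, fun L hLL N M x K hK hKM hx => ?_⟩
  have hL1 : 1 ≤ L := hL1₀.trans hLL
  have hLpos : (0 : ℝ) < L := by exact_mod_cast hL1
  have hL : (4 * r + 1) / (2 * mag β * (mag β * t)) < (L : ℝ) := by
    refine hL₀.trans_le ?_
    exact_mod_cast hLL
  push_cast at hK hKM hx
  have h := above_finite24 hβ hm hr hL1 (x := x) (K := K) (N := N) (M := M)
    hK (by omega) (by omega)
  refine le_trans ?_ h
  have h1 : (4 * (r : ℝ) + 1) / (2 * ar β r * L) ≤ mag β * t := by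
    have hpos : 0 < 2 * ar β r * L := by
      have : 0 < ar β r := hm.trans_le harm
      positivity
    rw [div_le_iff₀ hpos]
    rw [div_lt_iff₀ (by positivity)] at hL
    have h2 : mag β * t * (2 * mag β * L) ≤ mag β * t * (2 * ar β r * L) := by
      gcongr
    nlinarith
  have h3 : (2 * mag β)⁻¹ * (ar β r + (4 * r + 1) / (2 * ar β r * L) +
      avg β (kap 1) (ubox N M) (eta 0) (seg x K L)) ≤
      (2 * mag β)⁻¹ * (mag β + mag β * t + mag β * t +
        avg β (kap 1) (ubox N M) (eta 0) (seg x K L)) := by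
    refine mul_le_mul_of_nonneg_left ?_ (by positivity)
    linarith
  have h4 : (2 * mag β)⁻¹ * (mag β + mag β * t + mag β * t +
        avg β (kap 1) (ubox N M) (eta 0) (seg x K L)) =
      1 / 2 + t + (2 * mag β)⁻¹ * avg β (kap 1) (ubox N M) (eta 0) (seg x K L) := by
    field_simp
    ring
  linarith

end Pool.Agent.Helper49.DX
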