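import Pool.Agent.Helper49.DX.Strip

/-!
Block DX-GN: Griffiths' first inequality for the strip.

Paper proof. `Xm t x L` preserves the cone `Cone (Fin n)` of DL/Cone.lean: `Wm` multiplies by the product
of the functions `1 + t sp (c j) sp (c (j + 1))` (`cone_prod`, `cone_add`, `cone_mul`, `cone_const`, `cone_sp`); for `Vm` expand
`∏ j, (1 + x j * (sp (c j) * sp (c' j))) = ∑ B, (∏ j ∈ B, x j) * (∏ j ∈ B, sp (c j)) * (∏ j ∈ B, sp (c' j))`
(`Finset.prod_one_add`), so `Vm x Φ = ∑ B, a_B ∏_{j ∈ B} sp (c j)` with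
`a_B = (∏ j ∈ B, x j) * ∑ c', (∏ j ∈ B, sp (c' j)) * Φ c' ≥ 0` by `cone_sum_nonneg`. Numerator and denominator of
`GS` are then nonnegative by `cone_sum_nonneg`.
-/

open Finset

namespace Pool.Agent.Helper49.DX

open Pool.Agent.Helper49.DL

variable {n : ℕ}

private lemma cone_wc88 {t : ℝ} (ht : 0 ≤ t) : (fun c : Col n => wc t c) ∈ Cone (Fin n) := by
  refine cone_prod Finset.univ
    (fun (j : Fin n) (c : Fin n → Bool) =>
      if h : (j : ℕ) + 1 < n then 1 + t * (sp (c j) * sp (c ⟨(j : ℕ) + 1, h⟩)) else 1) ?_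
  intro j _
  by_cases h : (j : ℕ) + 1 < n
  · have e : (fun (c : Fin n → Bool) =>
        if h : (j : ℕ) + 1 < n then 1 + t * (sp (c j) * sp (c ⟨(j : ℕ) + 1, h⟩)) else 1) =
        fun c => 1 + t * (sp (c j) * sp (c ⟨(j : ℕ) + 1, h⟩)) := by
      funext c
      rw [dif_pos h]
    rw [e]
    exact cone_add (cone_const zero_le_one)
      (cone_mul (cone_const ht) (cone_mul (cone_sp j) (cone_sp _)))
  · have e : (fun (c : Fin n → Bool) =>
        if h : (j : ℕ) + 1 < n then 1 + t * (sp (c j) * sp (c ⟨(j : ℕ) + 1, h⟩)) else 1) =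
        fun _ => (1 : ℝ) := by
      funext c
      rw [dif_neg h]
    rw [e]
    exact cone_const zero_le_one

private lemma cone_Wm88 {t : ℝ} (ht : 0 ≤ t) {Φ : Col n → ℝ} (h : Φ ∈ Cone (Fin n)) :
    Wm t Φ ∈ Cone (Fin n) :=
  cone_mul (cone_wc88 ht) h

private lemma cone_sum88 {ι : Type*} (s : Finset ι) (f : ι → (Fin n → Bool) → ℝ)
    (h : ∀ i ∈ s, f i ∈ Cone (Fin n)) : (fun σ => ∑ i ∈ s, f i σ) ∈ Cone (Fin n) := by
  have := (Cone (Fin n)).sum_mem h
  have e : (fun σ => ∑ i ∈ s, f i σ) = ∑ i ∈ s, f i := by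
    funext σ; simp
  rw [e]; exact this

private lemma Vm_eq88 (x : Fin n → ℝ) (Φ : Col n → ℝ) :
    Vm x Φ = fun c => ∑ B ∈ (Finset.univ : Finset (Fin n)).powerset,
      ((∏ j ∈ B, x j) * ∑ c' : Col n, chi B c' * Φ c') * chi B c := by
  funext c
  have e1 : ∀ c' : Col n, (∏ j, (1 + x j * (sp (c j) * sp (c' j)))) * Φ c' =
      ∑ B ∈ (Finset.univ : Finset (Fin n)).powerset,
        ((∏ j ∈ B, x j) * (chi B c' * Φ c')) * chi B c := by
    intro c'
    rw [Finset.prod_one_add, Finset.sum_mul]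
    refine Finset.sum_congr rfl fun B _ => ?_
    rw [Finset.prod_mul_distrib, Finset.prod_mul_distrib, chi, chi]
    ring
  show ∑ c' : Col n, (∏ j, (1 + x j * (sp (c j) * sp (c' j)))) * Φ c' = _
  rw [Finset.sum_congr rfl fun c' _ => e1 c', Finset.sum_comm]
  refine Finset.sum_congr rfl fun B _ => ?_
  rw [Finset.mul_sum, Finset.sum_mul]

private lemma cone_Vm88 {x : Fin n → ℝ} (hx : ∀ j, 0 ≤ x j) {Φ : Col n → ℝ}
    (h : Φ ∈ Cone (Fin n)) : Vm x Φ ∈ Cone (Fin n) := by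
  rw [Vm_eq88]
  refine cone_sum88 _ _ fun B _ => ?_
  refine cone_mul (cone_const (mul_nonneg (Finset.prod_nonneg fun j _ => hx j) ?_)) (cone_chi B)
  exact cone_sum_nonneg (cone_mul (cone_chi B) h)

private lemma cone_Xm88 {t : ℝ} (ht : 0 ≤ t) {x : Fin n → ℝ} (hx : ∀ j, 0 ≤ x j) (L : ℕ)
    {Φ : Col n → ℝ} (h : Φ ∈ Cone (Fin n)) : Xm t x L Φ ∈ Cone (Fin n) := by
  induction L with
  | zero => exact cone_Wm88 ht h
  | succ L ih => exact cone_Wm88 ht (cone_Vm88 hx ih)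

theorem GS_nonneg {t : ℝ} (ht : 0 ≤ t) {x : Fin n → ℝ} (hx : ∀ j, 0 ≤ x j) (L : ℕ) (u v : Fin n) :
    0 ≤ GS t x L u v := by
  refine div_nonneg ?_ ?_
  · exact cone_sum_nonneg (cone_mul (cone_sp v) (cone_Xm88 ht hx L (cone_sp u)))
  · exact cone_sum_nonneg (cone_mul (cone_const zero_le_one)
      (cone_Xm88 ht hx L (cone_const zero_le_one)))

end Pool.Agent.Helper49.DX
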