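import Pool.Agent.Helper49.DX.Cst

/-!
Block DX-HB: bounds for the multipliers `Hh t θ k`.

Paper proof. `λ = lam t = t (1 + t) / (1 - t) ∈ (0, 1)`, `A2 t = 1/λ + λ + 2`, `ch - sh = (1 - t)/(1 + t) =
t / λ`. Put `a = 1/λ + 2 (1 - cos θ)`.
* `hh_low`: induction: `Hh 1 = (ch - sh) + sh (1 - cos θ) ≥ t a` as `sh ≥ 2 t`; if `Hh k > 0`,
  `Hh (k + 1) ≥ a Hh k ≥ Hh k / λ` then `Hh (k + 2) = (A2 - 2 cos θ) Hh (k + 1) - Hh k ≥
  (1/λ + λ + 2 (1 - cos θ) - λ) Hh (k + 1) = a Hh (k + 1)`.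
* `hh_up`: with `C = max (1 / (1 - λ²)) (sh / (2 t))`, `c = 1/λ + C θ²`: `Hh 1 ≤ c t` as
  `1 - cos θ ≤ θ² / 2`; if `Hh (k + 1) ≤ c Hh k` then `Hh (k + 2) ≤ (1/λ + λ + θ² - 1/c) Hh (k + 1)` and
  `λ - 1/c = λ * (λ C θ² / (1 + λ C θ²)) ≤ λ² C θ²`, `1 + λ² C ≤ C`.
-/

open Finset

namespace Pool.Agent.Helper49.DX

open Pool.Agent.Helper49.DL

private lemma h94_Hh0 (t θ : ℝ) : Hh t θ 0 = t := rfl

private lemma h94_Hh1 (t θ : ℝ) : Hh t θ 1 = chh t - shh t * Real.cos θ := rfl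

private lemma h94_Hh2 (t θ : ℝ) (k : ℕ) :
    Hh t θ (k + 2) = (A2 t - 2 * Real.cos θ) * Hh t θ (k + 1) - Hh t θ k := rfl

theorem hh_low {t : ℝ} (ht : 0 < t) (hq : t ^ 2 + 2 * t < 1) (θ : ℝ) (k : ℕ) :
    0 < Hh t θ k ∧ (1 / lam t + 2 * (1 - Real.cos θ)) * Hh t θ k ≤ Hh t θ (k + 1) := by
  have ht1 := t_lt_one ht hq
  have hl := lam_pos ht ht1
  have hc : 0 ≤ 1 - Real.cos θ := by linarith [Real.cos_le_one θ]
  have ha : 1 ≤ lam t * (1 / lam t + 2 * (1 - Real.cos θ)) := by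
    have h1 : lam t * (1 / lam t + 2 * (1 - Real.cos θ)) = 1 + lam t * (2 * (1 - Real.cos θ)) := by
      field_simp
    rw [h1]
    have : 0 ≤ lam t * (2 * (1 - Real.cos θ)) := by positivity
    linarith
  have ha0 : 0 < 1 / lam t + 2 * (1 - Real.cos θ) := by positivity
  induction k with
  | zero =>
    rw [h94_Hh0, zero_add, h94_Hh1]
    refine ⟨ht, ?_⟩
    have h1 := ch_sub_sh' ht ht1
    have h2 := shh_ge ht ht1
    have h3 : (1 / lam t + 2 * (1 - Real.cos θ)) * t = t / lam t + 2 * t * (1 - Real.cos θ) := by ring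
    have h4 : 2 * t * (1 - Real.cos θ) ≤ shh t * (1 - Real.cos θ) := mul_le_mul_of_nonneg_right h2 hc
    rw [h3, ← h1]
    linarith
  | succ k ih =>
    obtain ⟨h1, h2⟩ := ih
    have h3 : 0 < Hh t θ (k + 1) := lt_of_lt_of_le (mul_pos ha0 h1) h2
    refine ⟨h3, ?_⟩
    rw [h94_Hh2, A2_eq ht ht1]
    have h4 : Hh t θ k ≤ lam t * Hh t θ (k + 1) := by
      calc Hh t θ k = 1 * Hh t θ k := (one_mul _).symm
        _ ≤ (lam t * (1 / lam t + 2 * (1 - Real.cos θ))) * Hh t θ k :=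
            mul_le_mul_of_nonneg_right ha h1.le
        _ = lam t * ((1 / lam t + 2 * (1 - Real.cos θ)) * Hh t θ k) := by ring
        _ ≤ lam t * Hh t θ (k + 1) := mul_le_mul_of_nonneg_left h2 hl.le
    nlinarith

theorem hh_low_pow {t : ℝ} (ht : 0 < t) (hq : t ^ 2 + 2 * t < 1) (θ : ℝ) (k : ℕ) :
    t * (1 / lam t + 2 * (1 - Real.cos θ)) ^ k ≤ Hh t θ k := by
  have ht1 := t_lt_one ht hq
  have hl := lam_pos ht ht1
  have hc : 0 ≤ 1 - Real.cos θ := by linarith [Real.cos_le_one θ]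
  have ha0 : 0 < 1 / lam t + 2 * (1 - Real.cos θ) := by positivity
  induction k with
  | zero =>
    rw [h94_Hh0, pow_zero, mul_one]
  | succ k ih =>
    calc t * (1 / lam t + 2 * (1 - Real.cos θ)) ^ (k + 1)
        = (1 / lam t + 2 * (1 - Real.cos θ)) * (t * (1 / lam t + 2 * (1 - Real.cos θ)) ^ k) := by ring
      _ ≤ (1 / lam t + 2 * (1 - Real.cos θ)) * Hh t θ k := mul_le_mul_of_nonneg_left ih ha0.le
      _ ≤ _ := (hh_low ht hq θ k).2

theorem hh_up {t : ℝ} (ht : 0 < t) (hq : t ^ 2 + 2 * t < 1) : ∃ C : ℝ, 0 < C ∧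
    ∀ (θ : ℝ) (k : ℕ), Hh t θ k ≤ t * (1 / lam t + C * θ ^ 2) ^ k := by
  have ht1 := t_lt_one ht hq
  have hl := lam_pos ht ht1
  have hl1 := lam_lt_one ht hq
  have hd : 0 < 1 - lam t ^ 2 := by nlinarith
  have hC0 : 0 < max (1 / (1 - lam t ^ 2)) (shh t / (2 * t)) := lt_max_of_lt_left (by positivity)
  have hC1 : 1 / (1 - lam t ^ 2) ≤ max (1 / (1 - lam t ^ 2)) (shh t / (2 * t)) := le_max_left _ _
  have hC2 : shh t / (2 * t) ≤ max (1 / (1 - lam t ^ 2)) (shh t / (2 * t)) := le_max_right _ _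
  generalize max (1 / (1 - lam t ^ 2)) (shh t / (2 * t)) = C at hC0 hC1 hC2
  refine ⟨C, hC0, fun θ => ?_⟩
  have hcos : 2 * (1 - Real.cos θ) ≤ θ ^ 2 := by
    have := Real.one_sub_sq_div_two_le_cos (x := θ)
    linarith
  have hC1' : 1 + lam t ^ 2 * C ≤ C := by
    rw [div_le_iff₀ hd] at hC1
    linarith
  have hC2' : shh t ≤ 2 * t * C := by
    rw [div_le_iff₀ (by positivity)] at hC2
    linarith
  have hc0 : 0 < 1 / lam t + C * θ ^ 2 := by positivity
  have key : ∀ k, Hh t θ (k + 1) ≤ (1 / lam t + C * θ ^ 2) * Hh t θ k := by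
    intro k
    induction k with
    | zero =>
      rw [h94_Hh0, zero_add, h94_Hh1]
      have h1 := ch_sub_sh' ht ht1
      have h2 := shh_pos ht ht1
      have h3 : shh t * (1 - Real.cos θ) ≤ shh t * (θ ^ 2 / 2) :=
        mul_le_mul_of_nonneg_left (by linarith) h2.le
      have h4 : shh t * (θ ^ 2 / 2) ≤ (2 * t * C) * (θ ^ 2 / 2) :=
        mul_le_mul_of_nonneg_right hC2' (by positivity)
      have h5 : (1 / lam t + C * θ ^ 2) * t = t / lam t + (2 * t * C) * (θ ^ 2 / 2) := by ring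
      rw [h5, ← h1]
      linarith
    | succ k ih =>
      have h0 := (hh_low ht hq θ k).1
      have h1 := (hh_low ht hq θ (k + 1)).1
      rw [h94_Hh2, A2_eq ht ht1]
      -- `λ (1 - u) H (k + 1) ≤ H k`, `u = λ C θ²`
      have hu : 0 ≤ lam t * C * θ ^ 2 := by positivity
      have h2 : lam t * (1 - lam t * C * θ ^ 2) * Hh t θ (k + 1) ≤ Hh t θ k := by
        rcases le_or_gt (lam t * C * θ ^ 2) 1 with h3 | h3
        · have h4 : 0 ≤ lam t * (1 - lam t * C * θ ^ 2) := mul_nonneg hl.le (by linarith)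
          calc lam t * (1 - lam t * C * θ ^ 2) * Hh t θ (k + 1)
              ≤ lam t * (1 - lam t * C * θ ^ 2) * ((1 / lam t + C * θ ^ 2) * Hh t θ k) :=
                mul_le_mul_of_nonneg_left ih h4
            _ = (1 - (lam t * C * θ ^ 2) ^ 2) * Hh t θ k := by
                field_simp
                ring
            _ ≤ 1 * Hh t θ k := mul_le_mul_of_nonneg_right (by nlinarith) h0.le
            _ = Hh t θ k := one_mul _
        · have h4 : lam t * (1 - lam t * C * θ ^ 2) ≤ 0 :=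
            mul_nonpos_of_nonneg_of_nonpos hl.le (by linarith)
          exact (mul_nonpos_of_nonpos_of_nonneg h4 h1.le).trans h0.le
      have h5 : (1 / lam t + lam t + 2 - 2 * Real.cos θ) * Hh t θ (k + 1) ≤
          (1 / lam t + lam t + θ ^ 2) * Hh t θ (k + 1) :=
        mul_le_mul_of_nonneg_right (by linarith) h1.le
      have h6 : (1 + lam t ^ 2 * C) * θ ^ 2 * Hh t θ (k + 1) ≤ C * θ ^ 2 * Hh t θ (k + 1) :=
        mul_le_mul_of_nonneg_right (mul_le_mul_of_nonneg_right hC1' (sq_nonneg θ)) h1.le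
      have h7 : (1 / lam t + lam t + θ ^ 2) * Hh t θ (k + 1) -
          lam t * (1 - lam t * C * θ ^ 2) * Hh t θ (k + 1) =
          1 / lam t * Hh t θ (k + 1) + (1 + lam t ^ 2 * C) * θ ^ 2 * Hh t θ (k + 1) := by ring
      have h8 : (1 / lam t + C * θ ^ 2) * Hh t θ (k + 1) =
          1 / lam t * Hh t θ (k + 1) + C * θ ^ 2 * Hh t θ (k + 1) := by ring
      linarith
  intro k
  induction k with
  | zero => rw [h94_Hh0, pow_zero, mul_one]
  | succ k ih =>
    calc Hh t θ (k + 1) ≤ (1 / lam t + C * θ ^ 2) * Hh t θ k := key k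
      _ ≤ (1 / lam t + C * θ ^ 2) * (t * (1 / lam t + C * θ ^ 2) ^ k) :=
          mul_le_mul_of_nonneg_left ih hc0.le
      _ = t * (1 / lam t + C * θ ^ 2) ^ (k + 1) := by ring

theorem hh_cont (t : ℝ) (k : ℕ) : Continuous fun θ => Hh t θ k := by
  have h : (Continuous fun θ => Hh t θ k) ∧ Continuous fun θ => Hh t θ (k + 1) := by
    induction k with
    | zero =>
      refine ⟨continuous_const, ?_⟩
      change Continuous fun θ => chh t - shh t * Real.cos θ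
      fun_prop
    | succ k ih =>
      refine ⟨ih.2, ?_⟩
      change Continuous fun θ => (A2 t - 2 * Real.cos θ) * Hh t θ (k + 1) - Hh t θ k
      exact ((continuous_const.sub (continuous_const.mul Real.continuous_cos)).mul ih.2).sub ih.1
  exact h.1

end Pool.Agent.Helper49.DX
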