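import Pool.Agent.Helper49.DX.Row
import Pool.Agent.Helper49.DX.Gn
import Pool.Agent.Helper49.DX.Hb

/-!
Block DX-LO: lower bounds in the homogeneous strip.

Paper proof.
* `gs_sin`: `le_gsum` with `td = t` (`μ = 0`, `ζ = θ = 1`), `κ = π / (2 m + 2)`, `E y = cos (κ y)`,
  `p k y = Hh t κ k / Hh t κ (L + 1) * cos (κ y)`, `g y = cos (κ y) / Hh t κ (L + 1)` (`Hh t κ 0 = t`).
  `cos (κ (y + 1)) + cos (κ (y - 1)) = 2 cos κ cos (κ y)`, so `bulk`, `one`, `zero`, `gbulk`, `gzero` are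
  equalities by the definition of `Hh`. In the last row `cos (κ (m + 1)) = 0`, so
  `A2 * p (k + 1) m = p (k + 2) m + p k m + p (k + 1) (m - 1)` and all the further terms in `top`
  (for `p`) are nonnegative; `gtop`: `ch * g m = sh/2 * g (m - 1) + p 1 m` and `(1 + ch)/2 ≤ ch`.
  Finally `sin (π (v + 1) / (2 m + 2)) = cos (κ (v - m))`, `xs t t m = fun _ => t`, `GS_symm`, `GS_rev`.
* `gs_low`: `L = 2 N + 1`, `m = Nat.sqrt N + 2`, `φ v = sin (π (v + 1) / (2 m + 2))`, `G = GS t (fun _ => t) L`,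
  `H = Hh t (π / (2 m + 2)) (L + 1)`. By `GS_rp` (`c = s δ_0 + φ`, all real `s`; discriminant)
  `(∑ v, G 0 v * φ v)² ≤ G 0 0 * ∑ u v, φ u φ v G u v`; `∑ u v φ u φ v G u v ≤ (2 m + 1) * max row sum ≤
  (2 m + 1) * λ ^ (L + 1) / t` (`gs_row`, `GS_nonneg`, `0 ≤ φ ≤ 1`); `∑ v, G 0 v φ v ≥ φ 0 / H`. So
  `G 0 0 ≥ (φ 0)² * t / (H² (2 m + 1) λ ^ (L + 1))`, `φ 0 = sin κ ≥ (2/π) κ = 1 / (m + 1)`,
  `H ≤ t λ ^ (-(L + 1)) (1 + λ C κ²) ^ (L + 1) ≤ C' λ ^ (-(L + 1))` since `κ² (L + 1) ≤ π² (2 N + 2) /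
  (4 (m + 1)²)` is bounded (`N < (Nat.sqrt N + 1)²`), and `(m + 1)² (2 m + 1) ≤ C'' (2 N + 1) ^ (3/2)`.
-/

open Finset

namespace Pool.Agent.Helper49.DX

open Pool.Agent.Helper49.DL

private theorem lo_disc26 {a b c : ℝ} (h : ∀ s : ℝ, 0 ≤ s ^ 2 * a + 2 * s * b + c) : b ^ 2 ≤ a * c := by
  have h1 : discrim a (2 * b) c ≤ 0 := by
    apply discrim_le_zero
    intro s
    have := h s
    nlinarith
  unfold discrim at h1
  nlinarith

private theorem lo_quad26 {n : ℕ} [NeZero n] (G : Fin n → Fin n → ℝ) (φ : Fin n → ℝ)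
    (hG : ∀ u v, G u v = G v u) (s : ℝ) :
    ∑ u, ∑ v, (s * (if u = 0 then 1 else 0) + φ u) * (s * (if v = 0 then 1 else 0) + φ v) * G u v =
      s ^ 2 * G 0 0 + 2 * s * (∑ v, G 0 v * φ v) + ∑ u, ∑ v, φ u * φ v * G u v := by
  have h1 : ∀ u v, (s * (if u = 0 then 1 else 0) + φ u) * (s * (if v = 0 then 1 else 0) + φ v) * G u v =
      (if u = 0 then (if v = 0 then s ^ 2 * G u v else 0) else 0) +
      (if u = 0 then s * (G u v * φ v) else 0) + (if v = 0 then s * (G v u * φ u) else 0) +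
      φ u * φ v * G u v := by
    intro u v
    rw [hG v u]
    split_ifs <;> ring
  simp only [h1, Finset.sum_add_distrib]
  have h2 : ∑ u : Fin n, ∑ v : Fin n, (if u = 0 then (if v = 0 then s ^ 2 * G u v else 0) else 0) =
      s ^ 2 * G 0 0 := by
    rw [Finset.sum_eq_single (0 : Fin n)]
    · simp
    · intro u _ hu
      simp [hu]
    · intro h
      exact absurd (Finset.mem_univ _) h
  have h3 : ∑ u : Fin n, ∑ v : Fin n, (if u = 0 then s * (G u v * φ v) else 0) =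
      s * ∑ v, G 0 v * φ v := by
    rw [Finset.sum_eq_single (0 : Fin n)]
    · simp [Finset.mul_sum]
    · intro u _ hu
      simp [hu]
    · intro h
      exact absurd (Finset.mem_univ _) h
  have h4 : ∑ u : Fin n, ∑ v : Fin n, (if v = 0 then s * (G v u * φ u) else 0) =
      s * ∑ v, G 0 v * φ v := by
    rw [Finset.mul_sum]
    refine Finset.sum_congr rfl fun u _ => ?_
    rw [Finset.sum_eq_single (0 : Fin n)]
    · simp
    · intro v _ hv
      simp [hv]
    · intro h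
      exact absurd (Finset.mem_univ _) h
  rw [h2, h3, h4]
  ring

private theorem lo_final26 {t l K H g B Q f x r : ℝ} {m N : ℕ} (ht : 0 < t) (hl : 0 < l) (hK : 0 < K)
    (hH : 0 < H) (hg : 0 ≤ g) (hCS : B ^ 2 ≤ g * Q) (hQ : Q ≤ (2 * m + 1) * (l ^ (2 * N + 2) / t))
    (hB : f / H ≤ B) (hf : 1 / ((m : ℝ) + 1) ≤ f) (hHle : H ≤ t * K / l ^ (2 * N + 2))
    (hx : x ^ (3 / 2 : ℝ) = r ^ 3) (hr : 1 ≤ r) (hbig : ((m : ℝ) + 1) ^ 2 * (2 * m + 1) ≤ 112 * r ^ 3) :
    l / (112 * t * K ^ 2) * l ^ (2 * N + 1) / x ^ (3 / 2 : ℝ) ≤ g := by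
  have hr0 : 0 < r := by linarith
  have hm : (0 : ℝ) < (m : ℝ) + 1 := by positivity
  set P : ℝ := l ^ (2 * N + 2) with hP
  have hP0 : 0 < P := by positivity
  have h1 : l / (112 * t * K ^ 2) * l ^ (2 * N + 1) = P / (112 * t * K ^ 2) := by
    rw [hP]
    ring
  rw [h1, hx]
  have hf0 : 0 < f := lt_of_lt_of_le (by positivity) hf
  have h2 : P / (t * K * ((m : ℝ) + 1)) ≤ B := by
    refine le_trans ?_ hB
    rw [div_le_div_iff₀ (by positivity) hH]
    rw [le_div_iff₀ hP0] at hHle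
    rw [div_le_iff₀ hm] at hf
    calc P * H = H * P := mul_comm _ _
      _ ≤ t * K := hHle
      _ = 1 * (t * K) := (one_mul _).symm
      _ ≤ (f * ((m : ℝ) + 1)) * (t * K) := mul_le_mul_of_nonneg_right hf (by positivity)
      _ = f * (t * K * ((m : ℝ) + 1)) := by ring
  have h3 : (P / (t * K * ((m : ℝ) + 1))) ^ 2 ≤ g * ((2 * m + 1) * (P / t)) :=
    (pow_le_pow_left₀ (by positivity) h2 2).trans (hCS.trans (mul_le_mul_of_nonneg_left hQ hg))
  have h4 : P / (t * K ^ 2 * (((m : ℝ) + 1) ^ 2 * (2 * m + 1))) ≤ g := by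
    rw [div_pow, div_le_iff₀ (by positivity)] at h3
    rw [div_le_iff₀ (by positivity)]
    have h5 : P * P ≤ P * (g * (t * K ^ 2 * (((m : ℝ) + 1) ^ 2 * (2 * m + 1)))) := by
      calc P * P = P ^ 2 := by ring
        _ ≤ g * ((2 * m + 1) * (P / t)) * (t * K * ((m : ℝ) + 1)) ^ 2 := h3
        _ = P * (g * (t * K ^ 2 * (((m : ℝ) + 1) ^ 2 * (2 * m + 1)))) := by
            field_simp
    exact le_of_mul_le_mul_left h5 hP0
  refine le_trans ?_ h4
  rw [div_div]
  apply div_le_div_of_nonneg_left hP0.le (by positivity)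
  calc t * K ^ 2 * (((m : ℝ) + 1) ^ 2 * (2 * m + 1)) ≤ t * K ^ 2 * (112 * r ^ 3) :=
        mul_le_mul_of_nonneg_left hbig (by positivity)
    _ = 112 * t * K ^ 2 * r ^ 3 := by ring

private theorem lo_one26 {t : ℝ} : the t t = 1 ∧ zet t t = t / t ∧ mu t t = 0 := by
  unfold the zet mu
  refine ⟨by ring, rfl, by ring⟩

private theorem lo_sin26 (m : ℕ) (v : Fin (2 * m + 1)) :
    Real.sin (Real.pi * ((v : ℕ) + 1) / (2 * m + 2)) =
      Real.cos (Real.pi / (2 * m + 2) * (ds m v : ℝ)) := by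
  have h1 : Real.pi * ((v : ℕ) + 1) / (2 * m + 2) =
      Real.pi / (2 * m + 2) * ((v : ℕ) - (m : ℝ)) + Real.pi / 2 := by
    have : (2 * (m : ℝ) + 2) ≠ 0 := by positivity
    field_simp
    ring
  rw [h1, Real.sin_add_pi_div_two]
  have h2 : (ds m v : ℝ) = |((v : ℕ) : ℝ) - (m : ℝ)| := by
    unfold ds
    rw [Nat.cast_natAbs]
    push_cast
    rfl
  rw [h2]
  rcases abs_choice (((v : ℕ) : ℝ) - (m : ℝ)) with h | h
  · rw [h]
  · rw [h, mul_neg, Real.cos_neg]

private theorem lo_src26 {t : ℝ} (ht : 0 < t) (hq : t ^ 2 + 2 * t < 1) {κ : ℝ} (L : ℕ) (y : ℕ) :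
    Hh t κ (L + 1) / Hh t κ (L + 1) * Real.cos (κ * y) ≤ Real.cos (κ * y) := by
  rw [div_self (hh_low ht hq κ (L + 1)).1.ne', one_mul]

private theorem lo_sup26 {t : ℝ} (ht : 0 < t) (hq : t ^ 2 + 2 * t < 1) {m : ℕ} (hm : 2 ≤ m) (L : ℕ) :
    Sup t t m L
      (fun y => -(Real.cos (Real.pi / (2 * m + 2) * y) / Hh t (Real.pi / (2 * m + 2)) (L + 1)))
      (fun k y => -(Hh t (Real.pi / (2 * m + 2)) k / Hh t (Real.pi / (2 * m + 2)) (L + 1) *
        Real.cos (Real.pi / (2 * m + 2) * y))) := by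
  set κ : ℝ := Real.pi / (2 * m + 2) with hκ
  have ht1 := t_lt_one ht hq
  have hH : 0 < Hh t κ (L + 1) := (hh_low ht hq κ (L + 1)).1
  have hk : ∀ k, 0 < Hh t κ k := fun k => (hh_low ht hq κ k).1
  set H := Hh t κ (L + 1) with hHdef
  have hH' : H ≠ 0 := hH.ne'
  obtain ⟨e1, e2, e3⟩ := lo_one26 (t := t)
  rw [div_self ht.ne'] at e2
  have hrec : ∀ k, Hh t κ (k + 2) = (A2 t - 2 * Real.cos κ) * Hh t κ (k + 1) - Hh t κ k := fun k => rfl
  have hadd : ∀ y : ℝ, Real.cos (κ * (y + 1)) + Real.cos (κ * (y - 1)) =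
      2 * Real.cos κ * Real.cos (κ * y) := by
    intro y
    rw [mul_add, mul_sub, mul_one, Real.cos_add, Real.cos_sub]
    ring
  have hend : Real.cos (κ * (m + 1)) = 0 := by
    have : κ * (m + 1) = Real.pi / 2 := by
      rw [hκ]
      have : (2 * (m : ℝ) + 2) ≠ 0 := by positivity
      field_simp
    rw [this, Real.cos_pi_div_two]
  have hcm : 0 ≤ Real.cos (κ * m) := by
    apply Real.cos_nonneg_of_mem_Icc
    have hκ0 : 0 ≤ κ := by rw [hκ]; have := Real.pi_pos; positivity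
    have h2 : κ * (m + 1) = Real.pi / 2 := by
      rw [hκ]
      have : (2 * (m : ℝ) + 2) ≠ 0 := by positivity
      field_simp
    constructor
    · have : 0 ≤ κ * m := by positivity
      have := Real.pi_pos
      linarith
    · linarith
  have hmm : Real.cos (κ * ((m - 1 : ℕ) : ℝ)) = 2 * Real.cos κ * Real.cos (κ * m) := by
    have h1 := hadd m
    rw [hend, zero_add] at h1
    rw [← h1, Nat.cast_sub (by omega), Nat.cast_one]
  constructor
  · intro y hy
    have h0 : Hh t κ 0 = t := rfl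
    simp only [ite_self, h0]
    ring
  · intro k y hkL hy hym
    have h1 := hadd y
    have h2 : ((y - 1 : ℕ) : ℝ) = (y : ℝ) - 1 := by
      rw [Nat.cast_sub (by omega), Nat.cast_one]
    simp only [hrec, h2]
    push_cast
    apply le_of_eq
    have h3 : Real.cos (κ * ((y : ℝ) - 1)) = 2 * Real.cos κ * Real.cos (κ * y) -
        Real.cos (κ * ((y : ℝ) + 1)) := by linarith
    rw [h3]
    field_simp
    ring
  · intro k hkL
    have h1 := hadd 1
    simp only [hrec, e1]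
    push_cast
    apply le_of_eq
    have h3 : Real.cos (κ * 2) = 2 * Real.cos κ * Real.cos (κ * 1) - 1 := by
      have e4 : Real.cos (κ * (1 - 1)) = 1 := by rw [sub_self, mul_zero, Real.cos_zero]
      have e5 : (1 : ℝ) + 1 = 2 := by norm_num
      rw [e4, e5] at h1
      linarith
    rw [h3, mul_zero, Real.cos_zero]
    field_simp
    ring
  · intro k hkL
    simp only [hrec, e2, e3]
    push_cast
    apply le_of_eq
    rw [mul_zero, Real.cos_zero, mul_one κ]
    field_simp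
    ring
  · intro k hkL
    have hsum : 0 ≤ ∑ i ∈ Finset.range k, t ^ (i + 1) * (Hh t κ (k - i) / H * Real.cos (κ * m)) := by
      refine Finset.sum_nonneg fun i _ => ?_
      have := hk (k - i)
      positivity
    have hch := ch_sub_one ht ht1
    have hsh := (shh_pos ht ht1).le
    have h3 : 0 ≤ t ^ (k + 1) * (chh t - 1) * (Real.cos (κ * m) / H) := by
      rw [hch]
      positivity
    have h4 : 0 ≤ t * (Hh t κ (k + 1) / H * Real.cos (κ * m)) := by
      have := hk (k + 1)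
      positivity
    have h5 : Hh t κ (k + 2) / H * Real.cos (κ * m) + Hh t κ k / H * Real.cos (κ * m) +
        Hh t κ (k + 1) / H * Real.cos (κ * ((m - 1 : ℕ) : ℝ)) =
        A2 t * (Hh t κ (k + 1) / H * Real.cos (κ * m)) := by
      rw [hmm, hrec]
      field_simp
      ring
    have h6 : ∑ i ∈ Finset.range k, t ^ (i + 1) * -(Hh t κ (k - i) / H * Real.cos (κ * m)) =
        -∑ i ∈ Finset.range k, t ^ (i + 1) * (Hh t κ (k - i) / H * Real.cos (κ * m)) := by
      rw [← Finset.sum_neg_distrib]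
      exact Finset.sum_congr rfl fun i _ => by ring
    show -(Hh t κ (k + 2) / H * Real.cos (κ * m)) + -(Hh t κ k / H * Real.cos (κ * m)) +
      -(Hh t κ (k + 1) / H * Real.cos (κ * ((m - 1 : ℕ) : ℝ))) +
      2 * t * (∑ i ∈ Finset.range k, t ^ (i + 1) * -(Hh t κ (k - i) / H * Real.cos (κ * m))) +
      t ^ (k + 1) * (chh t - 1) * -(Real.cos (κ * m) / H) ≤
      (A2 t - t) * -(Hh t κ (k + 1) / H * Real.cos (κ * m))
    rw [h6]
    have h7 := mul_nonneg (mul_nonneg (by norm_num : (0 : ℝ) ≤ 2) ht.le) hsum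
    linarith
  · intro y hy hym
    have h1 := hadd y
    have h2 : ((y - 1 : ℕ) : ℝ) = (y : ℝ) - 1 := by
      rw [Nat.cast_sub (by omega), Nat.cast_one]
    have h0 : Hh t κ 1 = chh t - shh t * Real.cos κ := rfl
    simp only [h0, h2]
    push_cast
    apply le_of_eq
    have h3 : Real.cos (κ * ((y : ℝ) - 1)) = 2 * Real.cos κ * Real.cos (κ * y) -
        Real.cos (κ * ((y : ℝ) + 1)) := by linarith
    rw [h3]
    field_simp
    ring
  · have h0 : Hh t κ 1 = chh t - shh t * Real.cos κ := rfl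
    simp only [h0]
    push_cast
    apply le_of_eq
    rw [mul_zero, Real.cos_zero, mul_one κ]
    field_simp
    ring
  · have h0 : Hh t κ 1 = chh t - shh t * Real.cos κ := rfl
    have hch := ch_sub_one ht ht1
    have hsh := (shh_pos ht ht1).le
    have h5 : shh t / 2 * (Real.cos (κ * ((m - 1 : ℕ) : ℝ)) / H) +
        (chh t - shh t * Real.cos κ) / H * Real.cos (κ * m) = chh t * (Real.cos (κ * m) / H) := by
      rw [hmm]
      field_simp
      ring
    have h6 : 0 ≤ (chh t - 1) * (Real.cos (κ * m) / H) := by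
      rw [hch]
      positivity
    show shh t / 2 * -(Real.cos (κ * ((m - 1 : ℕ) : ℝ)) / H) + -(Hh t κ 1 / H * Real.cos (κ * m)) ≤
      (1 + chh t) / 2 * -(Real.cos (κ * m) / H)
    rw [h0]
    linarith

theorem gs_sin {t : ℝ} (ht : 0 < t) (hq : t ^ 2 + 2 * t < 1) {m : ℕ} (hm : 2 ≤ m) (L : ℕ)
    (u : Fin (2 * m + 1)) :
    Real.sin (Real.pi * ((u : ℕ) + 1) / (2 * m + 2)) / Hh t (Real.pi / (2 * m + 2)) (L + 1) ≤
      ∑ v : Fin (2 * m + 1), GS t (fun _ => t) L u v *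
        Real.sin (Real.pi * ((v : ℕ) + 1) / (2 * m + 2)) := by
  have hL := le_gsum ht hq ht le_rfl hm (lo_sup26 ht hq hm L) (fun y _ => lo_src26 ht hq L y)
  set κ : ℝ := Real.pi / (2 * m + 2) with hκ
  have hs : ∀ v : Fin (2 * m + 1),
      Real.sin (Real.pi * ((v : ℕ) + 1) / (2 * m + 2)) = Real.cos (κ * (ds m v : ℝ)) := lo_sin26 m
  rcases le_or_gt m (u : ℕ) with hu | hu
  · obtain ⟨y, hy⟩ := Nat.exists_eq_add_of_le hu
    have hym : y ≤ m := by have := u.2; omega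
    have hlt : m + y < 2 * m + 1 := by omega
    have h1 := hL y hym
    unfold gsum at h1
    rw [dif_pos hlt] at h1
    have hu' : (⟨m + y, hlt⟩ : Fin (2 * m + 1)) = u := Fin.ext hy.symm
    have hds : (ds m u : ℝ) = y := by
      unfold ds
      rw [hy]
      have : ((m + y : ℕ) : ℤ) - (m : ℤ) = (y : ℤ) := by push_cast; ring
      rw [this, Int.natAbs_natCast]
    rw [hs u, hds]
    refine h1.trans (le_of_eq ?_)
    refine Finset.sum_congr rfl fun v _ => ?_
    rw [xs_self, hu', GS_symm, hs v, mul_comm]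
  · obtain ⟨y, hy⟩ : ∃ y, y = m - (u : ℕ) := ⟨_, rfl⟩
    have hym : y ≤ m := by omega
    have hlt : m + y < 2 * m + 1 := by omega
    have h1 := hL y hym
    unfold gsum at h1
    rw [dif_pos hlt] at h1
    have hu' : Fin.rev (⟨m + y, hlt⟩ : Fin (2 * m + 1)) = u := by
      apply Fin.ext
      rw [Fin.val_rev]
      show 2 * m + 1 - (m + y + 1) = (u : ℕ)
      omega
    have hds : (ds m u : ℝ) = y := by
      unfold ds
      have : ((u : ℕ) : ℤ) - (m : ℤ) = -(y : ℤ) := by omega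
      rw [this, Int.natAbs_neg, Int.natAbs_natCast]
    have hdr : ∀ v : Fin (2 * m + 1), ds m (Fin.rev v) = ds m v := by
      intro v
      unfold ds
      rw [Fin.val_rev]
      have := v.2
      omega
    rw [hs u, hds]
    refine h1.trans (le_of_eq ?_)
    rw [← Equiv.sum_comp Fin.revPerm]
    refine Finset.sum_congr rfl fun v _ => ?_
    have e : (Fin.revPerm v : Fin (2 * m + 1)) = Fin.rev v := rfl
    rw [e, xs_self, hdr, hs v, ← hu', GS_symm]
    have h2 := GS_rev (t := t) (x := fun _ : Fin (2 * m + 1) => t) (fun _ => rfl) L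
      (⟨m + y, hlt⟩ : Fin (2 * m + 1)) (Fin.rev v)
    rw [Fin.rev_rev] at h2
    rw [h2, mul_comm]

theorem gs_low {t : ℝ} (ht : 0 < t) (hq : t ^ 2 + 2 * t < 1) : ∃ c : ℝ, 0 < c ∧ ∀ N : ℕ,
    c * lam t ^ (2 * N + 1) / ((2 * N + 1 : ℕ) : ℝ) ^ (3 / 2 : ℝ) ≤
      GS t (fun _ : Fin (2 * (Nat.sqrt N + 2) + 1) => t) (2 * N + 1) 0 0 := by
  have ht1 := t_lt_one ht hq
  have hl := lam_pos ht ht1
  obtain ⟨C, hC, hup⟩ := hh_up ht hq
  set K : ℝ := Real.exp (lam t * C * Real.pi ^ 2 / 2) with hK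
  have hK0 : 0 < K := Real.exp_pos _
  refine ⟨lam t / (112 * t * K ^ 2), by positivity, fun N => ?_⟩
  set m : ℕ := Nat.sqrt N + 2 with hm
  have hm2 : 2 ≤ m := by omega
  set κ : ℝ := Real.pi / (2 * m + 2) with hκ
  have hpi := Real.pi_pos
  have hκ0 : 0 < κ := by rw [hκ]; positivity
  set G : Fin (2 * m + 1) → Fin (2 * m + 1) → ℝ := GS t (fun _ => t) (2 * N + 1) with hG
  set φ : Fin (2 * m + 1) → ℝ := fun v => Real.sin (Real.pi * ((v : ℕ) + 1) / (2 * m + 2)) with hφ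
  have hG0 : ∀ u v, 0 ≤ G u v := fun u v => GS_nonneg ht.le (fun _ => ht.le) _ u v
  have hφ0 : ∀ v, 0 ≤ φ v := by
    intro v
    apply Real.sin_nonneg_of_nonneg_of_le_pi
    · positivity
    · rw [div_le_iff₀ (by positivity)]
      have : ((v : ℕ) : ℝ) + 1 ≤ 2 * m + 2 := by
        have := v.2
        exact_mod_cast (by omega : (v : ℕ) + 1 ≤ 2 * m + 2)
      exact mul_le_mul_of_nonneg_left this hpi.le
  have hφ1 : ∀ v, φ v ≤ 1 := fun v => Real.sin_le_one _
  set B : ℝ := ∑ v, G 0 v * φ v with hB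
  set Q : ℝ := ∑ u, ∑ v, φ u * φ v * G u v with hQ
  -- Cauchy-Schwarz
  have hCS : B ^ 2 ≤ G 0 0 * Q := by
    refine lo_disc26 fun s => ?_
    have h1 := GS_rp ht ht1 (x := fun _ : Fin (2 * m + 1) => t) (fun _ => ht) (fun _ => ht1) N
      (fun v => s * (if v = 0 then 1 else 0) + φ v)
    refine h1.trans (le_of_eq ?_)
    exact lo_quad26 G φ (fun u v => GS_symm _ _ _ u v) s
  -- the quadratic form
  have hrow : ∀ u, ∑ v, G u v ≤ lam t ^ (2 * N + 2) / t := by
    intro u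
    have h1 := gs_row ht hq ht le_rfl hm2 (L := 2 * N + 1) u
    rw [xs_self, (lo_one26 (t := t)).1] at h1
    refine h1.trans (le_of_eq ?_)
    ring
  have hQle : Q ≤ (2 * m + 1) * (lam t ^ (2 * N + 2) / t) := by
    have h1 : ∀ u, ∑ v, φ u * φ v * G u v ≤ lam t ^ (2 * N + 2) / t := by
      intro u
      refine (Finset.sum_le_sum fun v _ => ?_).trans (hrow u)
      have h2 : φ u * φ v ≤ 1 := mul_le_one₀ (hφ1 u) (hφ0 v) (hφ1 v)
      exact (mul_le_mul_of_nonneg_right h2 (hG0 u v)).trans (one_mul _).le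
    calc Q ≤ ∑ _u : Fin (2 * m + 1), lam t ^ (2 * N + 2) / t := Finset.sum_le_sum fun u _ => h1 u
      _ = (2 * m + 1) * (lam t ^ (2 * N + 2) / t) := by
          rw [Finset.sum_const, Finset.card_univ, Fintype.card_fin, nsmul_eq_mul]
          push_cast
          ring
  -- the linear form
  set H : ℝ := Hh t κ (2 * N + 1 + 1) with hH
  have hH0 : 0 < H := (hh_low ht hq κ (2 * N + 1 + 1)).1
  have hBge : φ 0 / H ≤ B := gs_sin ht hq hm2 (2 * N + 1) 0
  have hφz : 1 / ((m : ℝ) + 1) ≤ φ 0 := by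
    have h1 : φ 0 = Real.sin κ := by
      show Real.sin (Real.pi * (((0 : Fin (2 * m + 1)) : ℕ) + 1) / (2 * m + 2)) = Real.sin κ
      rw [Fin.val_zero]
      congr 1
      rw [hκ]
      push_cast
      ring
    have h2 : κ ≤ Real.pi / 2 := by
      rw [hκ]
      apply div_le_div_of_nonneg_left hpi.le (by norm_num)
      have : (0 : ℝ) ≤ m := Nat.cast_nonneg m
      linarith
    have h3 := Real.mul_le_sin hκ0.le h2
    rw [h1]
    refine (le_of_eq ?_).trans h3
    rw [hκ]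
    field_simp
  have hHle : H ≤ t * K / lam t ^ (2 * N + 2) := by
    have h1 := hup κ (2 * N + 1 + 1)
    have h2 : (1 / lam t + C * κ ^ 2) ^ (2 * N + 1 + 1) =
        (1 + lam t * C * κ ^ 2) ^ (2 * N + 2) / lam t ^ (2 * N + 2) := by
      rw [← div_pow]
      congr 1
      field_simp
    have h3 : (1 + lam t * C * κ ^ 2) ^ (2 * N + 2) ≤ K := by
      have h4 : 1 + lam t * C * κ ^ 2 ≤ Real.exp (lam t * C * κ ^ 2) := by
        rw [add_comm]
        exact Real.add_one_le_exp _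
      refine (pow_le_pow_left₀ (by positivity) h4 _).trans ?_
      rw [← Real.exp_nat_mul, hK]
      apply Real.exp_le_exp.2
      have h5 : ((2 * N + 2 : ℕ) : ℝ) * κ ^ 2 ≤ Real.pi ^ 2 / 2 := by
        have h6 : ((N : ℝ) + 1) ≤ ((m : ℝ) + 1) ^ 2 := by
          have h7 : N < (Nat.sqrt N + 1) ^ 2 := Nat.lt_succ_sqrt' N
          have h8 : N + 1 ≤ (m + 1) ^ 2 := by
            rw [hm]
            nlinarith
          exact_mod_cast h8
        rw [hκ, div_pow, mul_div_assoc', div_le_div_iff₀ (by positivity) (by norm_num)]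
        push_cast
        nlinarith [sq_nonneg Real.pi, pow_pos hpi 2]
      have h9 : 0 ≤ lam t * C := by positivity
      nlinarith
    refine h1.trans ?_
    rw [h2, mul_div_assoc']
    exact div_le_div_of_nonneg_right (mul_le_mul_of_nonneg_left h3 ht.le) (by positivity)
  -- assembly
  set x : ℝ := ((2 * N + 1 : ℕ) : ℝ) with hx
  have hx1 : 1 ≤ x := by
    rw [hx]
    exact_mod_cast (by omega : 1 ≤ 2 * N + 1)
  set r : ℝ := Real.sqrt x with hr
  have hr1 : 1 ≤ r := by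
    rw [hr]
    exact Real.one_le_sqrt.2 hx1
  have hrr : r ^ 2 = x := Real.sq_sqrt (by linarith)
  have hx32 : x ^ (3 / 2 : ℝ) = r ^ 3 := by
    rw [hr, Real.sqrt_eq_rpow, ← Real.rpow_natCast, ← Real.rpow_mul (by linarith)]
    norm_num
  have hsq : (Nat.sqrt N : ℝ) ≤ r := by
    rw [hr]
    apply Real.le_sqrt_of_sq_le
    have h1 : Nat.sqrt N ^ 2 ≤ N := Nat.sqrt_le' N
    have h2 : (Nat.sqrt N) ^ 2 ≤ 2 * N + 1 := by omega
    rw [hx]
    exact_mod_cast h2
  have hmr : (m : ℝ) + 1 ≤ 4 * r := by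
    rw [hm]
    push_cast
    linarith
  have hmr2 : 2 * (m : ℝ) + 1 ≤ 7 * r := by
    rw [hm]
    push_cast
    linarith
  have hbig : ((m : ℝ) + 1) ^ 2 * (2 * m + 1) ≤ 112 * r ^ 3 := by
    have h1 : ((m : ℝ) + 1) ^ 2 ≤ (4 * r) ^ 2 := pow_le_pow_left₀ (by positivity) hmr 2
    calc ((m : ℝ) + 1) ^ 2 * (2 * m + 1) ≤ (4 * r) ^ 2 * (7 * r) :=
          mul_le_mul h1 hmr2 (by positivity) (by positivity)
      _ = 112 * r ^ 3 := by ring
  exact lo_final26 ht hl hK0 hH0 (hG0 0 0) hCS hQle hBge hφz hHle hx32 hr1 hbig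

end Pool.Agent.Helper49.DX
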