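import Pool.Agent.Helper49.DX.Tg2
import Pool.Agent.Helper49.DX.Lo

/-!
Block DX-AL: positive magnetisation below `β` implies `exp (-β) < √2 - 1`.

Paper proof. Suppose `t = exp (-β)` satisfies `t² + 2 t ≥ 1`. Let `c = (β - β₁) mag(β₁)² > 0`. `λ = lam t₀` is
continuous and increasing in `t₀` with `lam (√2 - 1) = 1`; choose `t₀ < √2 - 1 ≤ t` (so `t₀² + 2 t₀ < 1`) with
`lam t₀ ≥ exp (-c / 4)`, then `C` from `hh_up` for `t₀` and `m ≥ 2` with
`lam t₀ * C * (π / (2 m + 2))² ≤ c / 4`; put `κ = π / (2 m + 2)`. For every `L`: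
`Hh t₀ κ (L + 1) ≤ t₀ (1/λ + C κ²)^(L + 1) ≤ (1/λ)^(L + 1) exp (λ C κ² (L + 1)) ≤ exp (c (L + 1) / 2)`, so by `gs_sin`
with `u = m` (the middle row, `sin = 1`): `∑ v, GS t₀ (fun _ => t₀) L m v ≥ exp (-c (L + 1) / 2)` (`GS_nonneg`, `sin ≤ 1`).
On the other hand consider the box `box N M` with `N = L`, `M = 2 m + 2`, `J = 1`, the rectangle
`R = Rect N M 0 L 1 (2 m + 1)` (columns `0, ..., L`, rows `1, ..., 2 m + 1`). By `rect_GS` for `β₀ = -log t₀ > 0`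
(`exp (-β₀) = t₀`, `β₀ ≥ β`) and `J = 1`, `GS t₀ .. L u v = ZG (xr x₀ R) (pr a' b') / ZG (xr x₀ R) ∅`, and `ZG_mono`
(`xr dA x₀ R ≤ x = xe β (kap 1)`, since `t₀ ≤ t`, `x < 1`) bounds it by `G2 β 1 N M a' b' ≤ exp (-c L)`
(`G2_decay`, distance at least `L`). Hence `exp (-c (L + 1) / 2) ≤ (2 m + 1) exp (-c L)` for all `L`, which is
false for large `L`.
-/

open Finset
open scoped Classical

namespace Pool.Agent.Helper49.DX

open Pool.Agent.Helper49.DL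

/-- The box comparison. -/
private lemma gs_le4 {β₁ β : ℝ} (h0 : 0 ≤ β₁) (h : β₁ < β) {t₀ : ℝ} (ht : 0 < t₀)
    (ht1 : t₀ < 1) (htt : t₀ ≤ Real.exp (-β)) (m L : ℕ) (u v : Fin (2 * m + 1)) :
    GS t₀ (fun _ => t₀) L u v ≤ Real.exp (-((β - β₁) * mag β₁ ^ 2 * L)) := by
  obtain ⟨β₀, hβ₀⟩ : ∃ β₀ : ℝ, β₀ = -Real.log t₀ := ⟨_, rfl⟩
  have hβpos : 0 < β := lt_of_le_of_lt h0 h
  have hβ₀pos : 0 < β₀ := by
    rw [hβ₀]
    have := Real.log_neg ht ht1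
    linarith
  have hexp : Real.exp (-β₀) = t₀ := by
    rw [hβ₀, _root_.neg_neg, Real.exp_log ht]
  have hββ : β ≤ β₀ := by
    rw [← hexp, Real.exp_le_exp] at htt
    linarith
  have hN : (0 : ℤ) ≤ (L : ℤ) := by positivity
  have hM : (1 : ℤ) ≤ 2 * (m : ℤ) + 2 := by omega
  have hu := u.isLt
  have hv := v.isLt
  have ha : ((0 : ℤ), (1 : ℤ) + ((u : ℕ) : ℤ)) ∈ PL (box (L : ℤ) (2 * (m : ℤ) + 2)) := by
    rw [mem_PL_box hN hM]
    simp only
    omega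
  have hb : ((0 : ℤ) + (L : ℤ), (1 : ℤ) + ((v : ℕ) : ℤ)) ∈ PL (box (L : ℤ) (2 * (m : ℤ) + 2)) := by
    rw [mem_PL_box hN hM]
    simp only
    omega
  obtain ⟨a, haa⟩ : ∃ a : PV (box (L : ℤ) (2 * (m : ℤ) + 2)),
      a.1 = ((0 : ℤ), (1 : ℤ) + ((u : ℕ) : ℤ)) := ⟨⟨_, ha⟩, rfl⟩
  obtain ⟨b, hbb⟩ : ∃ b : PV (box (L : ℤ) (2 * (m : ℤ) + 2)),
      b.1 = ((0 : ℤ) + (L : ℤ), (1 : ℤ) + ((v : ℕ) : ℤ)) := ⟨⟨_, hb⟩, rfl⟩
  have h1 := rect_GS (N := (L : ℤ)) (M := 2 * (m : ℤ) + 2) hN hM (β := β₀) (J := 1) hβ₀pos one_pos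
    (c0 := 0) (r0 := 1) (L := L) (n := 2 * m + 1) (by omega) (by omega) (by omega)
    (by push_cast; omega) u v haa hbb
  have hrw : rw0 β₀ 1 1 (2 * m + 1) = fun _ => t₀ := by
    funext j
    unfold rw0
    rw [mul_one, hexp]
    split_ifs <;> rfl
  rw [hexp, hrw] at h1
  have hx0 : ∀ e : LB (box (L : ℤ) (2 * (m : ℤ) + 2)),
      0 ≤ xr dA (xe β₀ (kap 1)) (Rect (L : ℤ) (2 * (m : ℤ) + 2) 0 L 1 (2 * m + 1)) e := by
    intro e
    unfold xr
    split_ifs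
    · exact (xe_pos (kap 1) e).le
    · exact le_rfl
  have hxx : ∀ e : LB (box (L : ℤ) (2 * (m : ℤ) + 2)),
      xr dA (xe β₀ (kap 1)) (Rect (L : ℤ) (2 * (m : ℤ) + 2) 0 L 1 (2 * m + 1)) e ≤
        xe β (kap 1) e := by
    intro e
    unfold xr
    split_ifs
    · unfold xe
      rw [Real.exp_le_exp]
      have h3 : (0 : ℝ) ≤ lk (kap 1) e := lk_kap_nonneg zero_le_one e
      have h4 := mul_le_mul_of_nonneg_right hββ h3
      linarith
    · exact (xe_pos (kap 1) e).le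
  have hx1 : ∀ e : LB (box (L : ℤ) (2 * (m : ℤ) + 2)), xe β (kap 1) e < 1 := by
    intro e
    unfold xe
    rw [Real.exp_lt_one_iff]
    have h3 : (1 : ℝ) ≤ lk (kap 1) e := de2_one_le_lk le_rfl e
    have h4 : 0 < β * lk (kap 1) e := mul_pos hβpos (by linarith)
    linarith
  have h2 := ZG_mono (dA (Λ := box (L : ℤ) (2 * (m : ℤ) + 2))) hx0 hxx hx1 (pr a b)
  rw [h1] at h2
  have hp0 : 0 < ZG (dA (Λ := box (L : ℤ) (2 * (m : ℤ) + 2)))
      (xr dA (xe β₀ (kap 1)) (Rect (L : ℤ) (2 * (m : ℤ) + 2) 0 L 1 (2 * m + 1))) ∅ := ZG_pos hx0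
  have hp1 : 0 < ZG (dA (Λ := box (L : ℤ) (2 * (m : ℤ) + 2))) (xe β (kap 1)) ∅ :=
    ZG_pos fun e => (xe_pos (kap 1) e).le
  have h3 : GS t₀ (fun _ => t₀) L u v ≤ G2 β 1 (L : ℤ) (2 * (m : ℤ) + 2) a b := by
    unfold G2
    rw [le_div_iff₀ hp1]
    refine le_of_mul_le_mul_left ?_ hp0
    calc _ = _ := by ring
      _ ≤ _ := h2
      _ = _ := by ring
  refine h3.trans ((G2_decay h0 h.le le_rfl hN hM a b).trans ?_)
  rw [Real.exp_le_exp, neg_le_neg_iff]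
  have h4 : (L : ℝ) ≤ ((max |a.1.1 - b.1.1| |a.1.2 - b.1.2| : ℤ) : ℝ) := by
    have h5 : (L : ℤ) ≤ max |a.1.1 - b.1.1| |a.1.2 - b.1.2| := by
      refine le_max_of_le_left ?_
      rw [haa, hbb]
      simp only
      rw [zero_add, zero_sub, abs_neg]
      exact le_abs_self _
    exact_mod_cast h5
  have h6 : 0 ≤ (β - β₁) * mag β₁ ^ 2 := mul_nonneg (by linarith) (sq_nonneg _)
  exact mul_le_mul_of_nonneg_left h4 h6

/-- Choice of the smaller weight. -/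
private lemma choose4 {c : ℝ} (hc : 0 < c) : ∃ t₀ : ℝ, 0 < t₀ ∧ t₀ ^ 2 + 2 * t₀ < 1 ∧
    Real.exp (-(c / 4)) < lam t₀ := by
  have hs2 : Real.sqrt 2 ^ 2 = 2 := Real.sq_sqrt (by norm_num)
  have hs1 : 1 < Real.sqrt 2 := by
    rw [Real.lt_sqrt (by norm_num)]
    norm_num
  have hs3 : Real.sqrt 2 < 3 / 2 := by
    rw [Real.sqrt_lt' (by norm_num)]
    norm_num
  obtain ⟨s, hs⟩ : ∃ s : ℝ, s = Real.sqrt 2 - 1 := ⟨_, rfl⟩
  have hs0 : 0 < s := by linarith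
  have hs4 : s < 1 / 2 := by linarith
  have hsq : s ^ 2 + 2 * s = 1 := by
    rw [hs]
    linear_combination hs2
  have hlam : lam s = 1 := by
    unfold lam
    rw [div_eq_one_iff_eq (by linarith)]
    linear_combination hsq
  have hcont : ContinuousAt lam s := by
    have h1 : lam = fun t : ℝ => t * (1 + t) / (1 - t) := rfl
    rw [h1]
    exact ContinuousAt.div (by fun_prop) (by fun_prop) (by linarith)
  have hlt : Real.exp (-(c / 4)) < lam s := by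
    rw [hlam, Real.exp_lt_one_iff]
    linarith
  have hev : ∀ᶠ x in nhds s, Real.exp (-(c / 4)) < lam x := hcont.eventually (lt_mem_nhds hlt)
  have hev2 : ∀ᶠ x in nhds s, 0 < x := lt_mem_nhds hs0
  have hev3 : ∀ᶠ x in nhdsWithin s (Set.Iio s), (Real.exp (-(c / 4)) < lam x ∧ 0 < x) ∧ x < s :=
    (((hev.and hev2).filter_mono nhdsWithin_le_nhds)).and self_mem_nhdsWithin
  obtain ⟨x, ⟨hx1, hx2⟩, hx3⟩ := hev3.exists
  refine ⟨x, hx2, ?_, hx1⟩
  nlinarith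

/-- The lower bound in the strip. -/
private lemma low4 {c t₀ : ℝ} (hc : 0 < c) (ht : 0 < t₀) (hq : t₀ ^ 2 + 2 * t₀ < 1)
    (hl : Real.exp (-(c / 4)) < lam t₀) : ∃ (m : ℕ) (u : Fin (2 * m + 1)), ∀ L : ℕ,
      Real.exp (-(c / 2 * (L + 1))) ≤ ∑ v : Fin (2 * m + 1), GS t₀ (fun _ => t₀) L u v := by
  have ht1 := t_lt_one ht hq
  have hlp := lam_pos ht ht1
  obtain ⟨C, hC, hCu⟩ := hh_up ht hq
  obtain ⟨m₀, hm₀⟩ := exists_nat_gt (4 * (lam t₀ * C * Real.pi ^ 2) / c)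
  obtain ⟨m, hm⟩ : ∃ m : ℕ, m = max 2 m₀ := ⟨_, rfl⟩
  have hm2 : 2 ≤ m := by rw [hm]; exact le_max_left _ _
  have hmm : (m₀ : ℝ) ≤ m := by
    rw [hm]
    exact_mod_cast le_max_right _ _
  have hmr : (2 : ℝ) ≤ m := by exact_mod_cast hm2
  have hden : (0 : ℝ) < 2 * m + 2 := by linarith
  have hk : lam t₀ * (C * (Real.pi / (2 * m + 2)) ^ 2) ≤ c / 4 := by
    have h1 : 4 * (lam t₀ * C * Real.pi ^ 2) < m * c := by
      rw [div_lt_iff₀ hc] at hm₀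
      have h2 := mul_le_mul_of_nonneg_right hmm hc.le
      linarith
    have h2 : lam t₀ * (C * (Real.pi / (2 * m + 2)) ^ 2) =
        lam t₀ * C * Real.pi ^ 2 / (2 * m + 2) ^ 2 := by
      field_simp
    rw [h2, div_le_iff₀ (by positivity)]
    have h3 : (m : ℝ) ≤ (2 * m + 2) ^ 2 := by nlinarith
    have h4 := mul_le_mul_of_nonneg_left h3 hc.le
    linarith
  refine ⟨m, ⟨m, by omega⟩, fun L => ?_⟩
  have hsin := gs_sin ht hq hm2 L ⟨m, by omega⟩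
  have hone : Real.sin (Real.pi * (((⟨m, by omega⟩ : Fin (2 * m + 1)) : ℕ) + 1) / (2 * m + 2)) = 1 := by
    have h1 : Real.pi * (((⟨m, by omega⟩ : Fin (2 * m + 1)) : ℕ) + 1) / (2 * m + 2) = Real.pi / 2 := by
      simp only
      field_simp
    rw [h1, Real.sin_pi_div_two]
  rw [hone] at hsin
  obtain ⟨H, hH⟩ : ∃ H : ℝ, H = Hh t₀ (Real.pi / (2 * m + 2)) (L + 1) := ⟨_, rfl⟩
  have hHpos : 0 < H := by rw [hH]; exact (hh_low ht hq _ _).1
  have hHle : H ≤ Real.exp (c / 2 * (L + 1)) := by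
    rw [hH]
    refine (hCu _ _).trans ?_
    have h1 : 1 / lam t₀ ≤ Real.exp (c / 4) := by
      rw [div_le_iff₀ hlp]
      have h2 : Real.exp (c / 4) * Real.exp (-(c / 4)) = 1 := by
        rw [← Real.exp_add, add_neg_cancel, Real.exp_zero]
      have h3 := mul_le_mul_of_nonneg_left hl.le (Real.exp_pos (c / 4)).le
      linarith
    have h2 : 1 / lam t₀ + C * (Real.pi / (2 * m + 2)) ^ 2 ≤ Real.exp (c / 2) := by
      have h3 : 1 / lam t₀ + C * (Real.pi / (2 * m + 2)) ^ 2 =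
          1 / lam t₀ * (1 + lam t₀ * (C * (Real.pi / (2 * m + 2)) ^ 2)) := by
        field_simp
      have h4 : 1 + lam t₀ * (C * (Real.pi / (2 * m + 2)) ^ 2) ≤ Real.exp (c / 4) := by
        have := Real.add_one_le_exp (c / 4)
        linarith
      have h5 : 0 ≤ 1 + lam t₀ * (C * (Real.pi / (2 * m + 2)) ^ 2) := by positivity
      have h6 : Real.exp (c / 2) = Real.exp (c / 4) * Real.exp (c / 4) := by
        rw [← Real.exp_add]
        congr 1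
        ring
      rw [h3, h6]
      exact mul_le_mul h1 h4 h5 (Real.exp_pos _).le
    have h3 : (0 : ℝ) ≤ 1 / lam t₀ + C * (Real.pi / (2 * m + 2)) ^ 2 := by positivity
    have h4 : (1 / lam t₀ + C * (Real.pi / (2 * m + 2)) ^ 2) ^ (L + 1) ≤
        Real.exp (c / 2 * (L + 1)) := by
      refine (pow_le_pow_left₀ h3 h2 _).trans ?_
      rw [← Real.exp_nat_mul]
      apply le_of_eq
      congr 1
      push_cast
      ring
    have h5 := pow_nonneg h3 (L + 1)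
    nlinarith
  rw [← hH] at hsin
  have h7 : Real.exp (-(c / 2 * (L + 1))) ≤ 1 / H := by
    rw [Real.exp_neg, ← one_div]
    exact one_div_le_one_div_of_le hHpos hHle
  refine h7.trans (hsin.trans ?_)
  refine Finset.sum_le_sum fun v _ => ?_
  have h8 : 0 ≤ GS t₀ (fun _ => t₀) L (⟨m, by omega⟩ : Fin (2 * m + 1)) v :=
    GS_nonneg ht.le (fun _ => ht.le) L _ _
  have h9 := Real.sin_le_one (Real.pi * ((v : ℕ) + 1) / (2 * m + 2))
  calc _ ≤ _ := mul_le_mul_of_nonneg_left h9 h8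
    _ = _ := mul_one _

theorem t_small {β₁ β : ℝ} (h0 : 0 ≤ β₁) (h : β₁ < β) (hm : 0 < mag β₁) :
    Real.exp (-β) ^ 2 + 2 * Real.exp (-β) < 1 := by
  by_contra hcon
  rw [not_lt] at hcon
  have hc : 0 < (β - β₁) * mag β₁ ^ 2 := mul_pos (by linarith) (pow_pos hm 2)
  obtain ⟨t₀, ht, hq, hl⟩ := choose4 hc
  obtain ⟨m, u, hlow⟩ := low4 hc ht hq hl
  have ht1 := t_lt_one ht hq
  have htt : t₀ ≤ Real.exp (-β) := by
    by_contra hlt
    rw [not_le] at hlt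
    have h1 := Real.exp_pos (-β)
    nlinarith
  have hup : ∀ L : ℕ, ∑ v : Fin (2 * m + 1), GS t₀ (fun _ => t₀) L u v ≤
      (2 * m + 1) * Real.exp (-((β - β₁) * mag β₁ ^ 2 * L)) := by
    intro L
    refine (Finset.sum_le_sum fun v _ => gs_le4 h0 h ht ht1 htt m L u v).trans ?_
    rw [Finset.sum_const, Finset.card_univ, Fintype.card_fin, nsmul_eq_mul]
    push_cast
    exact le_rfl
  obtain ⟨c, hcd⟩ : ∃ c : ℝ, c = (β - β₁) * mag β₁ ^ 2 := ⟨_, rfl⟩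
  rw [← hcd] at hc hlow hup
  obtain ⟨L, hL⟩ := exists_nat_gt (1 + 4 * (m : ℝ) / c)
  have h1 := (hlow L).trans (hup L)
  have h2 : Real.exp (c * L) * Real.exp (-(c / 2 * (L + 1))) ≤ 2 * m + 1 := by
    have h3 := mul_le_mul_of_nonneg_left h1 (Real.exp_pos (c * L)).le
    have h4 : Real.exp (c * L) * ((2 * m + 1) * Real.exp (-(c * L))) = 2 * m + 1 := by
      have h5 : Real.exp (c * L) * Real.exp (-(c * L)) = 1 := by
        rw [← Real.exp_add, add_neg_cancel, Real.exp_zero]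
      calc _ = (2 * m + 1) * (Real.exp (c * L) * Real.exp (-(c * L))) := by ring
        _ = _ := by rw [h5, mul_one]
    rw [h4] at h3
    exact h3
  rw [← Real.exp_add] at h2
  have h3 := Real.add_one_le_exp (c * L + -(c / 2 * (L + 1)))
  have h4 : c * (1 + 4 * (m : ℝ) / c) < c * L := mul_lt_mul_of_pos_left hL hc
  have h5 : c * (1 + 4 * (m : ℝ) / c) = c + 4 * m := by
    field_simp
  rw [h5] at h4
  have h6 : c * L + -(c / 2 * (L + 1)) = (c * L - c) / 2 := by ring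
  rw [h6] at h3 h2
  linarith

end Pool.Agent.Helper49.DX
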