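import Pool.Agent.Helper49.DX.HT
import Pool.Agent.Helper49.DL.Cone

/-!
Block DX-GK: spin representation of the high temperature sums and the second Griffiths inequality.

Paper proof.
* `spin_rep`: expand `∏ e (1 + x e * chi (A e) σ) = ∑ F, ∏ e ∈ F, x e * chi (A e) σ`
  (`Finset.prod_one_add`); `∏ e ∈ F, chi (A e) σ = chi (gbd A F) σ` (each spin squared is `1`);
  `∑ σ, chi S σ * chi T σ = 2 ^ |V|` if `S = T`, else `0` (see `sum_chi65` and `ZE_dual` in
  DL/Dual3.lean, the same proof).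
* `ZG_mono`: with `K e = atanh (x e) = log ((1 + x) / (1 - x)) / 2 ≥ 0`,
  `exp (K e * chi) = cosh (K e) * (1 + x e * chi)` (`chi = ±1`), so
  `NN A K ∅ S = (2 ^ |V| * ∏ cosh (K e)) * ZG A x S` (see `ZE_dual`). `K` is monotone in `x`. Apply
  `compare` (DL/Cone.lean) with `J1 = K'`, `J2 = K`, `D = D' = 0`, `F = F' = ∅`, `B = S`:
  `NN K' ∅ * NN K S ≤ NN K ∅ * NN K' S`, which is the claim (the constants cancel).
-/

open Finset

namespace Pool.Agent.Helper49.DX

open Pool.Agent.Helper49.DL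

section

variable {V ι : Type*} [Fintype V] [DecidableEq V] [Fintype ι] [DecidableEq ι]

omit [Fintype ι] [DecidableEq ι] in
private lemma chi_eq_univ78 (A : Finset V) (σ : V → Bool) :
    chi A σ = ∏ v, (if v ∈ A then sp (σ v) else 1) := by
  unfold chi
  rw [Finset.prod_ite_mem, Finset.univ_inter]

omit [Fintype ι] [DecidableEq ι] in
private lemma sum_chi78 (A B : Finset V) :
    ∑ σ : V → Bool, chi A σ * chi B σ = if B = A then 2 ^ Fintype.card V else 0 := by
  have h1 : ∀ σ : V → Bool, chi A σ * chi B σ =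
      ∏ v, ((if v ∈ A then sp (σ v) else 1) * (if v ∈ B then sp (σ v) else 1)) := by
    intro σ
    rw [chi_eq_univ78, chi_eq_univ78, Finset.prod_mul_distrib]
  have h2 := Finset.prod_univ_sum (fun _ : V => (Finset.univ : Finset Bool))
    (fun v b => (if v ∈ A then sp b else 1) * (if v ∈ B then sp b else (1 : ℝ)))
  rw [Fintype.piFinset_univ] at h2
  rw [Finset.sum_congr rfl fun σ _ => h1 σ, ← h2]
  have h3 : ∀ v : V, ∑ b : Bool, (if v ∈ A then sp b else 1) * (if v ∈ B then sp b else (1 : ℝ)) =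
      if (v ∈ B ↔ v ∈ A) then 2 else 0 := by
    intro v
    rw [Fintype.sum_bool]
    by_cases hA : v ∈ A <;> by_cases hB : v ∈ B <;> simp [hA, hB] <;> norm_num
  rw [Finset.prod_congr rfl fun v _ => h3 v]
  by_cases hAB : B = A
  · rw [if_pos hAB]
    subst hAB
    simp
  · rw [if_neg hAB]
    have : ∃ v, ¬ (v ∈ B ↔ v ∈ A) := by
      by_contra hcon
      push Not at hcon
      exact hAB (Finset.ext hcon)
    obtain ⟨v, hv⟩ := this
    exact Finset.prod_eq_zero (Finset.mem_univ v) (if_neg hv)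

private lemma sp_pow78 (b : Bool) (n : ℕ) : sp b ^ n = if Odd n then sp b else 1 := by
  induction n with
  | zero => simp
  | succ n ih =>
    rw [pow_succ, ih]
    by_cases h : Odd n
    · rw [if_pos h, if_neg (by rw [Nat.not_odd_iff_even]; exact Odd.add_one h), sp_mul_self]
    · rw [if_neg h, if_pos (Even.add_one (Nat.not_odd_iff_even.1 h)), one_mul]

omit [Fintype ι] [DecidableEq ι] in
private lemma prod_chi78 (A : ι → Finset V) (F : Finset ι) (σ : V → Bool) :
    ∏ e ∈ F, chi (A e) σ = chi (gbd A F) σ := by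
  rw [chi_eq_univ78]
  simp only [chi_eq_univ78]
  rw [Finset.prod_comm]
  refine Finset.prod_congr rfl fun p _ => ?_
  rw [Finset.prod_ite, Finset.prod_const, Finset.prod_const_one, mul_one, sp_pow78]
  unfold gbd
  simp only [Finset.mem_filter, Finset.mem_univ, true_and]

theorem spin_rep (A : ι → Finset V) (x : ι → ℝ) (S : Finset V) :
    ∑ σ : V → Bool, chi S σ * ∏ e, (1 + x e * chi (A e) σ) =
      2 ^ Fintype.card V * ZG A x S := by
  have h1 : ∀ σ : V → Bool, ∏ e, (1 + x e * chi (A e) σ) =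
      ∑ F : Finset ι, (∏ e ∈ F, x e) * chi (gbd A F) σ := by
    intro σ
    rw [Finset.prod_one_add, Finset.powerset_univ]
    refine Finset.sum_congr rfl fun F _ => ?_
    rw [Finset.prod_mul_distrib, prod_chi78]
  rw [Finset.sum_congr rfl fun σ _ => by rw [h1 σ]]
  have h3 : ∑ σ : V → Bool, chi S σ * ∑ F : Finset ι, (∏ e ∈ F, x e) * chi (gbd A F) σ =
      ∑ F : Finset ι, (∏ e ∈ F, x e) * ∑ σ : V → Bool, chi S σ * chi (gbd A F) σ := by
    simp only [Finset.mul_sum]
    rw [Finset.sum_comm]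
    refine Finset.sum_congr rfl fun F _ => Finset.sum_congr rfl fun σ _ => ?_
    ring
  rw [h3]
  simp only [sum_chi78]
  unfold ZG
  rw [Finset.sum_filter, Finset.mul_sum]
  refine Finset.sum_congr rfl fun F _ => ?_
  by_cases hF : gbd A F = S
  · rw [if_pos hF, if_pos hF]
    ring
  · rw [if_neg hF, if_neg hF]
    ring

/-- The coupling constant with weight `x`. -/
private noncomputable def Kx78 (x : ℝ) : ℝ := Real.log ((1 + x) / (1 - x)) / 2

omit [Fintype V] [DecidableEq V] in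
private lemma exp_chi78 {x : ℝ} (h0 : 0 ≤ x) (h1 : x < 1) (A : Finset V) (σ : V → Bool) :
    Real.exp (Kx78 x * chi A σ) = Real.cosh (Kx78 x) * (1 + x * chi A σ) := by
  have hs : Real.sinh (Kx78 x) = x * Real.cosh (Kx78 x) := by
    have hy : 0 < (1 + x) / (1 - x) := div_pos (by linarith) (by linarith)
    have hE : Real.exp (Kx78 x) ^ 2 = (1 + x) / (1 - x) := by
      rw [← Real.exp_nat_mul]
      unfold Kx78
      push_cast
      rw [mul_div_cancel₀ _ (two_ne_zero), Real.exp_log hy]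
    have hE0 : 0 < Real.exp (Kx78 x) := Real.exp_pos _
    rw [Real.sinh_eq, Real.cosh_eq, Real.exp_neg]
    rw [eq_div_iff (by linarith)] at hE
    field_simp
    linear_combination hE
  rw [exp_chi, hs]
  ring

private lemma Kx_nonneg78 {x : ℝ} (h0 : 0 ≤ x) (h1 : x < 1) : 0 ≤ Kx78 x := by
  unfold Kx78
  have : 0 ≤ Real.log ((1 + x) / (1 - x)) := by
    apply Real.log_nonneg
    rw [le_div_iff₀ (by linarith)]
    linarith
  linarith

private lemma Kx_mono78 {x y : ℝ} (h0 : 0 ≤ x) (hxy : x ≤ y) (h1 : y < 1) : Kx78 x ≤ Kx78 y := by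
  unfold Kx78
  have : Real.log ((1 + x) / (1 - x)) ≤ Real.log ((1 + y) / (1 - y)) := by
    apply Real.log_le_log (div_pos (by linarith) (by linarith))
    rw [div_le_div_iff₀ (by linarith) (by linarith)]
    nlinarith
  linarith

private lemma NN_ZG78 (A : ι → Finset V) {x : ι → ℝ} (h0 : ∀ e, 0 ≤ x e) (h1 : ∀ e, x e < 1)
    (S : Finset V) : NN A (fun e => Kx78 (x e)) ∅ S =
      (2 ^ Fintype.card V * ∏ e : ι, Real.cosh (Kx78 (x e))) * ZG A x S := by
  have h2 : ∀ σ : V → Bool, chi S σ * (wt A (fun e => Kx78 (x e)) σ * frc ∅ σ) =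
      (∏ e : ι, Real.cosh (Kx78 (x e))) * (chi S σ * ∏ e, (1 + x e * chi (A e) σ)) := by
    intro σ
    have h3 : frc (∅ : Finset V) σ = 1 := by
      unfold frc
      simp
    rw [h3, mul_one, wt_eq_prod, Finset.prod_congr rfl fun e _ => exp_chi78 (h0 e) (h1 e) (A e) σ,
      Finset.prod_mul_distrib]
    ring
  unfold NN
  rw [Finset.sum_congr rfl fun σ _ => h2 σ, ← Finset.mul_sum, spin_rep]
  ring

theorem ZG_mono (A : ι → Finset V) {x x' : ι → ℝ} (hx : ∀ e, 0 ≤ x e) (hxx : ∀ e, x e ≤ x' e)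
    (hx1 : ∀ e, x' e < 1) (S : Finset V) :
    ZG A x S * ZG A x' ∅ ≤ ZG A x' S * ZG A x ∅ := by
  have key := compare (V := V) A (J1 := fun e => Kx78 (x' e)) (J2 := fun e => Kx78 (x e))
    (D := fun _ => 0) (D' := fun _ => 0)
    (fun e => by
      rw [abs_of_nonneg (Kx_nonneg78 (hx e) ((hxx e).trans_lt (hx1 e)))]
      exact Kx_mono78 (hx e) (hxx e) (hx1 e))
    (fun e => by simp) (Finset.Subset.refl ∅) S
  simp only [add_zero] at key
  have hx0 : ∀ e, 0 ≤ x' e := fun e => (hx e).trans (hxx e)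
  have hx2 : ∀ e, x e < 1 := fun e => (hxx e).trans_lt (hx1 e)
  rw [NN_ZG78 A hx0 hx1, NN_ZG78 A hx hx2, NN_ZG78 A hx hx2, NN_ZG78 A hx0 hx1] at key
  obtain ⟨c, hc⟩ : ∃ c : ℝ, c = 2 ^ Fintype.card V * ∏ e : ι, Real.cosh (Kx78 (x e)) := ⟨_, rfl⟩
  obtain ⟨c', hc'⟩ : ∃ c : ℝ, c = 2 ^ Fintype.card V * ∏ e : ι, Real.cosh (Kx78 (x' e)) := ⟨_, rfl⟩
  have h0 : 0 < c := by
    rw [hc]
    exact mul_pos (by positivity) (Finset.prod_pos fun e _ => Real.cosh_pos _)
  have h0' : 0 < c' := by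
    rw [hc']
    exact mul_pos (by positivity) (Finset.prod_pos fun e _ => Real.cosh_pos _)
  rw [← hc, ← hc'] at key
  have h3 : (c * c') * (ZG A x S * ZG A x' ∅) ≤ (c * c') * (ZG A x' S * ZG A x ∅) := by
    linarith
  exact le_of_mul_le_mul_left h3 (mul_pos h0 h0')

end

end Pool.Agent.Helper49.DX
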