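import Pool.Agent.Helper49.DX.Strip

/-!
Block DX-TG1: the sum over all configurations of a strip as an iterated transfer.

Paper proof. Induction on `L`, for all `g`; split off the last column
(`Fin.snocEquiv`/`Fin.consEquiv`, `Fin.prod_univ_castSucc`, `Fin.sum_univ_castSucc`): the sum over the last
column `c` of `g c * wc t c * K (c, c')` and `Xm t x (L + 1) f = Wm t (Vm x (Xm t x L f))`; the kernel is symmetric.
-/

open Finset

namespace Pool.Agent.Helper49.DX

open Pool.Agent.Helper49.DL

variable {n : ℕ}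

theorem chain_sum (t : ℝ) (x : Fin n → ℝ) (L : ℕ) (f g : Col n → ℝ) :
    ∑ s : Fin (L + 1) → Col n, f (s 0) * g (s (Fin.last L)) * (∏ k, wc t (s k)) *
        (∏ k : Fin L, ∏ j, (1 + x j * (sp (s k.castSucc j) * sp (s k.succ j)))) =
      ip g (Xm t x L f) := by
  induction L generalizing g with
  | zero =>
    unfold ip Xm Wm
    rw [← (Equiv.funUnique (Fin 1) (Col n)).symm.sum_comp]
    refine Finset.sum_congr rfl fun c _ => ?_
    simp [Equiv.funUnique]
    ring
  | succ L ih =>
    rw [← (Fin.snocEquiv (fun _ : Fin (L + 2) => Col n)).sum_comp, Fintype.sum_prod_type]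
    unfold ip
    refine Finset.sum_congr rfl fun c _ => ?_
    have h := ih (fun c' => ∏ j, (1 + x j * (sp (c' j) * sp (c j))))
    simp only [Xm, Wm, Vm]
    have h2 : ∑ c' : Col n, (∏ j, (1 + x j * (sp (c j) * sp (c' j)))) * Xm t x L f c' =
        ip (fun c' => ∏ j, (1 + x j * (sp (c' j) * sp (c j)))) (Xm t x L f) := by
      unfold ip
      refine Finset.sum_congr rfl fun c' _ => ?_
      congr 1
      refine Finset.prod_congr rfl fun j _ => ?_
      ring
    rw [h2, ← h, Finset.mul_sum, Finset.mul_sum]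
    refine Finset.sum_congr rfl fun s _ => ?_
    have e0 : (Fin.snoc s c : Fin (L + 2) → Col n) 0 = s 0 := by
      have := Fin.snoc_castSucc (α := fun _ : Fin (L + 2) => Col n) c s 0
      rwa [Fin.castSucc_zero] at this
    have e1 : ∀ k : Fin (L + 1), (Fin.snoc s c : Fin (L + 2) → Col n) k.castSucc = s k := fun k =>
      Fin.snoc_castSucc (α := fun _ : Fin (L + 2) => Col n) c s k
    have e2 : (Fin.snoc s c : Fin (L + 2) → Col n) (Fin.last (L + 1)) = c :=
      Fin.snoc_last (α := fun _ : Fin (L + 2) => Col n) c s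
    have e3 : ∀ k : Fin L, (Fin.snoc s c : Fin (L + 2) → Col n) k.castSucc.succ = s k.succ := fun k => by
      rw [Fin.succ_castSucc, e1]
    have e4 : (Fin.snoc s c : Fin (L + 2) → Col n) (Fin.last L).succ = c := by
      rw [Fin.succ_last, e2]
    have e5 : (Fin.snocEquiv (fun _ : Fin (L + 2) => Col n)) (c, s) = Fin.snoc s c := rfl
    have q1 : ∏ k : Fin (L + 2), wc t ((Fin.snoc s c : Fin (L + 2) → Col n) k) =
        (∏ k, wc t (s k)) * wc t c := by
      rw [Fin.prod_univ_castSucc]
      simp only [e1, e2]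
    have q2 : ∏ k : Fin (L + 1), ∏ j, (1 + x j * (sp ((Fin.snoc s c : Fin (L + 2) → Col n) k.castSucc j) *
          sp ((Fin.snoc s c : Fin (L + 2) → Col n) k.succ j))) =
        (∏ k : Fin L, ∏ j, (1 + x j * (sp (s k.castSucc j) * sp (s k.succ j)))) *
          ∏ j, (1 + x j * (sp (s (Fin.last L) j) * sp (c j))) := by
      rw [Fin.prod_univ_castSucc]
      simp only [e1, e3, e4]
    rw [e5, q1, q2, e0, e2]
    ring

end Pool.Agent.Helper49.DX
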