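import Pool.Agent.Helper49.DX.Br
import Pool.Agent.Helper49.DX.Tg1
import Pool.Agent.Helper49.DX.Gk

/-!
Block DX-TG2: the boundary correlations of a rectangle of the dual graph are those of the strip.

Paper proof. Use `spin_rep` for the weights `x' = xr dA (xe β (kap J)) (Rect ...)` and the sources `pr a b` and `∅`
(`chi (pr a b) σ = sp (σ a) * sp (σ b)`, also for `a = b`). The weight only depends on the spins in the
rectangle `S`. Split `σ : PV → Bool` into `s : Fin (L + 1) → Fin n → Bool`, `s k j = σ (c0 + k, r0 + j)`, and the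
spins off `S` (an equivalence `(PV → Bool) ≃ (Fin (L + 1) → Fin n → Bool) × ({p // p ∉ S} → Bool)`); the
sum over the spins off `S` gives the factor `2 ^ |Sᶜ|` for both choices of the sources. The edges inside
`S` (see `mem_dA_iff`, `mem_hb_box`, `mem_vb_box` in DL/Paths.lean, `mem_PL_box`): `Sum.inl (x, y)` joins `(x, y - 1)` and
`(x, y)` (vertical edge, weight `exp (-β)`), `Sum.inr (x, y)` joins `(x - 1, y)` and `(x, y)` (horizontal edge,
weight `exp (-(β * kap J (x, y)))`, `kap J (x, y) = J` iff `y = 0`). So the product of the edge weights is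
`(∏ k, wc (exp (-β)) (s k)) * ∏ k : Fin L, ∏ j, (1 + rw0 j * (sp (s k.castSucc j) * sp (s k.succ j)))`.
By `chain_sum` (with `f = sp (· u)`, `g = sp (· v)`, resp. `f = g = 1`) the ratio of the sums is `GS`
(`ip (fun _ => 1) (Xm ... 1) > 0`: all weights are positive).
It may be convenient to introduce the map `emb : Fin (L + 1) × Fin n → PV (box N M)` and to write both
products as products over the edges inside the rectangle by `Finset.prod_bij`.
-/

open Finset
open scoped Classical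

namespace Pool.Agent.Helper49.DX

open Pool.Agent.Helper49.DL

private lemma tg2_prod_rect (T : Finset (ℤ × ℤ)) (x0 y0 : ℤ) (A B : ℕ) (w : ℤ × ℤ → ℝ)
    (C : ℤ × ℤ → Prop)
    (hC : ∀ p ∈ T, C p ↔ (x0 ≤ p.1 ∧ p.1 < x0 + A ∧ y0 ≤ p.2 ∧ p.2 < y0 + B))
    (hT : ∀ p : ℤ × ℤ, (x0 ≤ p.1 ∧ p.1 < x0 + A ∧ y0 ≤ p.2 ∧ p.2 < y0 + B) → p ∈ T) :
    ∏ p ∈ T, (if C p then w p else 1) =
      ∏ k : Fin A, ∏ j : Fin B, w (x0 + (k : ℕ), y0 + (j : ℕ)) := by
  rw [← Finset.prod_filter]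
  have h1 : ∏ k : Fin A, ∏ j : Fin B, w (x0 + (k : ℕ), y0 + (j : ℕ)) =
      ∏ q ∈ Finset.range A ×ˢ Finset.range B, w (x0 + (q.1 : ℕ), y0 + (q.2 : ℕ)) := by
    rw [Finset.prod_product, Finset.prod_range]
    refine Finset.prod_congr rfl fun k _ => ?_
    rw [Finset.prod_range]
  rw [h1]
  refine Finset.prod_nbij' (fun p => ((p.1 - x0).toNat, (p.2 - y0).toNat))
    (fun q => (x0 + (q.1 : ℕ), y0 + (q.2 : ℕ))) ?_ ?_ ?_ ?_ ?_
  · intro p hp
    rw [Finset.mem_filter] at hp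
    have h2 := (hC p hp.1).1 hp.2
    rw [Finset.mem_product, Finset.mem_range, Finset.mem_range]
    constructor
    · change (p.1 - x0).toNat < A
      omega
    · change (p.2 - y0).toNat < B
      omega
  · intro q hq
    rw [Finset.mem_product, Finset.mem_range, Finset.mem_range] at hq
    have h3 : x0 ≤ x0 + (q.1 : ℤ) ∧ x0 + (q.1 : ℤ) < x0 + A ∧ y0 ≤ y0 + (q.2 : ℤ) ∧
        y0 + (q.2 : ℤ) < y0 + B := by omega
    have h2 : (x0 + (q.1 : ℕ), y0 + (q.2 : ℕ)) ∈ T := hT _ h3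
    rw [Finset.mem_filter]
    exact ⟨h2, (hC _ h2).2 h3⟩
  · rintro ⟨p1, p2⟩ hp
    rw [Finset.mem_filter] at hp
    have h2 := (hC _ hp.1).1 hp.2
    simp only at h2 ⊢
    refine Prod.ext ?_ ?_
    · change x0 + ((p1 - x0).toNat : ℤ) = p1
      omega
    · change y0 + ((p2 - y0).toNat : ℤ) = p2
      omega
  · rintro ⟨q1, q2⟩ _
    refine Prod.ext ?_ ?_
    · change (x0 + (q1 : ℤ) - x0).toNat = q1
      omega
    · change (y0 + (q2 : ℤ) - y0).toNat = q2
      omega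
  · rintro ⟨p1, p2⟩ hp
    rw [Finset.mem_filter] at hp
    have h2 := (hC _ hp.1).1 hp.2
    simp only at h2 ⊢
    have e1 : x0 + ((p1 - x0).toNat : ℤ) = p1 := by omega
    have e2 : y0 + ((p2 - y0).toNat : ℤ) = p2 := by omega
    rw [e1, e2]

private lemma tg2_fib {A B V : Type} [Fintype A] [Fintype B] [Fintype V] [DecidableEq A]
    [DecidableEq B] [DecidableEq V] (em : A → B → V)
    (hem : ∀ a b a' b', em a b = em a' b' → a = a' ∧ b = b') :
    ∃ C : ℝ, C ≠ 0 ∧ ∀ H : (A → B → Bool) → ℝ,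
      ∑ σ : V → Bool, H (fun a b => σ (em a b)) = C * ∑ s : A → B → Bool, H s := by
  let em' : A × B → V := fun p => em p.1 p.2
  let D := {v : V // v ∉ Set.range em'}
  have hb : Function.Bijective (Sum.elim em' Subtype.val : (A × B) ⊕ D → V) := by
    constructor
    · rintro (p | p) (q | q) h
      · have h1 := hem _ _ _ _ (h : em p.1 p.2 = em q.1 q.2)
        rw [Prod.ext h1.1 h1.2]
      · exact (q.2 ⟨p, h⟩).elim
      · exact (p.2 ⟨q, h.symm⟩).elim
      · rw [Subtype.ext (h : p.1 = q.1)]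
    · intro v
      by_cases h : v ∈ Set.range em'
      · obtain ⟨p, hp⟩ := h
        exact ⟨Sum.inl p, hp⟩
      · exact ⟨Sum.inr ⟨v, h⟩, rfl⟩
  let E : (A × B) ⊕ D ≃ V := Equiv.ofBijective _ hb
  let e : (V → Bool) ≃ (A → B → Bool) × (D → Bool) :=
    ((Equiv.arrowCongr E.symm (Equiv.refl Bool)).trans
      (Equiv.sumArrowEquivProdArrow (A × B) D Bool)).trans
      (Equiv.prodCongr (Equiv.curry A B Bool) (Equiv.refl _))
  refine ⟨Fintype.card (D → Bool), ?_, fun H => ?_⟩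
  · exact_mod_cast Fintype.card_ne_zero
  have h1 : ∑ σ : V → Bool, H (fun a b => σ (em a b)) =
      ∑ p : (A → B → Bool) × (D → Bool), H p.1 :=
    Fintype.sum_equiv e _ _ (fun σ => rfl)
  rw [h1, Fintype.sum_prod_type, Finset.mul_sum]
  refine Finset.sum_congr rfl fun s _ => ?_
  refine (Finset.sum_const (H s)).trans ?_
  rw [nsmul_eq_mul, Finset.card_univ]

private lemma tg2_wc {n : ℕ} (t : ℝ) (c : Col (n + 1)) :
    wc t c = ∏ j : Fin n, (1 + t * (sp (c j.castSucc) * sp (c j.succ))) := by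
  unfold wc
  rw [Fin.prod_univ_castSucc, dif_neg (by simp), mul_one]
  refine Finset.prod_congr rfl fun j _ => ?_
  rw [dif_pos (by simp)]
  rfl

section

variable {N M : ℤ}

/-- The spin at a plaquette, `1` off the box. -/
private noncomputable def tg2s (σ : PV (box N M) → Bool) (p : Site) : ℝ :=
  if h : p ∈ PL (box N M) then sp (σ ⟨p, h⟩) else 1

private def tg2C (c0 : ℤ) (L : ℕ) (r0 : ℤ) (n : ℕ) (p : Site) : Prop :=
  (c0 ≤ p.1 ∧ p.1 ≤ c0 + L) ∧ (r0 ≤ p.2 ∧ p.2 < r0 + n)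

private def tg2D (c0 : ℤ) (L : ℕ) (r0 : ℤ) (n : ℕ) (d p : Site) : Prop :=
  tg2C c0 L r0 n p ∧ tg2C c0 L r0 n (p - d)

private lemma tg2_factor (x : LB (box N M) → ℝ) (c0 : ℤ) (L : ℕ) (r0 : ℤ) (n : ℕ)
    (σ : PV (box N M) → Bool) (e : LB (box N M)) :
    1 + xr dA x (Rect N M c0 L r0 n) e * chi (dA e) σ =
      if tg2C c0 L r0 n (dp e) ∧ tg2C c0 L r0 n (dq e) then
        1 + x e * (tg2s σ (dp e) * tg2s σ (dq e)) else 1 := by
  have h1 : dA e ⊆ Rect N M c0 L r0 n ↔ (tg2C c0 L r0 n (dp e) ∧ tg2C c0 L r0 n (dq e)) := by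
    rw [WI2.dA_pair, Finset.insert_subset_iff, Finset.singleton_subset_iff]
    unfold Rect
    rw [Finset.mem_filter, Finset.mem_filter]
    simp only [Finset.mem_univ, true_and]
    exact Iff.rfl
  have h2 : chi (dA e) σ = tg2s σ (dp e) * tg2s σ (dq e) := by
    unfold chi tg2s
    rw [WI2.dA_pair, Finset.prod_pair, dif_pos (WI2.dp_mem_PL e), dif_pos (WI2.dq_mem_PL e)]
    intro h
    exact WI2.dp_ne_dq e (congrArg Subtype.val h)
  unfold xr
  by_cases h3 : dA e ⊆ Rect N M c0 L r0 n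
  · rw [if_pos h3, if_pos (h1.1 h3), h2]
  · rw [if_neg h3, if_neg (fun h => h3 (h1.2 h)), zero_mul, add_zero]

private lemma tg2_chi (a b : PV (box N M)) (σ : PV (box N M) → Bool) :
    chi (pr a b) σ = sp (σ a) * sp (σ b) := by
  by_cases h : a = b
  · subst h
    rw [pr_self, chi_empty, sp_mul_self]
  · rw [pr_ne h]
    unfold chi
    rw [Finset.prod_pair h]

private lemma tg2_weight (hN : 0 ≤ N) (hM : 1 ≤ M) (β J : ℝ) {c0 r0 : ℤ} {L n : ℕ}
    (h1 : -N - 1 ≤ c0) (h2 : c0 + L ≤ N) (h3 : -M ≤ r0) (h4 : r0 + (n + 1 : ℕ) ≤ M + 1)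
    (em : Fin (L + 1) → Fin (n + 1) → PV (box N M))
    (hem : ∀ k j, (em k j).1 = (c0 + (k : ℕ), r0 + (j : ℕ))) (σ : PV (box N M) → Bool) :
    ∏ e, (1 + xr dA (xe β (kap J)) (Rect N M c0 L r0 (n + 1)) e * chi (dA e) σ) =
      (∏ k, wc (Real.exp (-β)) (fun j => σ (em k j))) *
        ∏ k : Fin L, ∏ j : Fin (n + 1),
          (1 + rw0 β J r0 (n + 1) j * (sp (σ (em k.castSucc j)) * sp (σ (em k.succ j)))) := by
  have hs : ∀ (p : Site) (k : Fin (L + 1)) (j : Fin (n + 1)), p.1 = c0 + (k : ℕ) →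
      p.2 = r0 + (j : ℕ) → tg2s σ p = sp (σ (em k j)) := by
    intro p k j hp1 hp2
    have h5 : p = (em k j).1 := by rw [hem]; exact Prod.ext hp1 hp2
    subst h5
    unfold tg2s
    rw [dif_pos (em k j).2]
  rw [Fintype.prod_sum_type]
  congr 1
  · have h6 : ∀ i : {i // i ∈ hb (box N M)},
        1 + xr dA (xe β (kap J)) (Rect N M c0 L r0 (n + 1)) (Sum.inl i) * chi (dA (Sum.inl i)) σ =
        (fun p : Site => if tg2D c0 L r0 (n + 1) e2 p then
          (fun p : Site => 1 + Real.exp (-(β * 1)) * (tg2s σ p * tg2s σ (p - e2))) p else 1) i.1 := by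
      intro i
      rw [tg2_factor]
      by_cases h : tg2D c0 L r0 (n + 1) e2 i.1
      · exact (if_pos h).trans (if_pos h).symm
      · exact (if_neg h).trans (if_neg h).symm
    rw [Finset.prod_congr rfl fun i _ => h6 i]
    refine (Finset.prod_coe_sort (hb (box N M)) (fun p : Site =>
        if tg2D c0 L r0 (n + 1) e2 p then
          (fun p : Site => 1 + Real.exp (-(β * 1)) * (tg2s σ p * tg2s σ (p - e2))) p else 1)).trans ?_
    refine (tg2_prod_rect (hb (box N M)) c0 (r0 + 1) (L + 1) n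
      (fun p : Site => 1 + Real.exp (-(β * 1)) * (tg2s σ p * tg2s σ (p - e2)))
      (tg2D c0 L r0 (n + 1) e2) ?_ ?_).trans ?_
    rotate_left 2
    · refine Finset.prod_congr rfl fun k _ => ?_
      rw [tg2_wc]
      refine Finset.prod_congr rfl fun j _ => ?_
      have h7 : tg2s σ (c0 + (k : ℕ), r0 + 1 + (j : ℕ)) = sp (σ (em k j.succ)) :=
        hs _ _ _ rfl (by rw [Fin.val_succ]; push_cast; ring)
      have h8 : tg2s σ ((c0 + (k : ℕ), r0 + 1 + (j : ℕ)) - e2) = sp (σ (em k j.castSucc)) :=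
        hs _ _ _ (by simp [e2]) (by simp [e2]; ring)
      simp only [h7, h8, mul_one]
      ring
    · rintro ⟨p1, p2⟩ _
      simp only [tg2D, tg2C, e2, Prod.fst_sub, Prod.snd_sub]
      push_cast
      omega
    · rintro ⟨p1, p2⟩ hp
      simp only at hp
      push_cast at hp h4
      exact (mem_hb_box hN).2 (by omega)
  · have h6 : ∀ i : {i // i ∈ vb (box N M)},
        1 + xr dA (xe β (kap J)) (Rect N M c0 L r0 (n + 1)) (Sum.inr i) * chi (dA (Sum.inr i)) σ =
        (fun p : Site => if tg2D c0 L r0 (n + 1) e1 p then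
          (fun p : Site => 1 + Real.exp (-(β * kap J p)) * (tg2s σ p * tg2s σ (p - e1))) p else 1)
          i.1 := by
      intro i
      rw [tg2_factor]
      by_cases h : tg2D c0 L r0 (n + 1) e1 i.1
      · exact (if_pos h).trans (if_pos h).symm
      · exact (if_neg h).trans (if_neg h).symm
    rw [Finset.prod_congr rfl fun i _ => h6 i]
    refine (Finset.prod_coe_sort (vb (box N M)) (fun p : Site =>
        if tg2D c0 L r0 (n + 1) e1 p then
          (fun p : Site => 1 + Real.exp (-(β * kap J p)) * (tg2s σ p * tg2s σ (p - e1))) p else 1)).trans ?_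
    refine (tg2_prod_rect (vb (box N M)) (c0 + 1) r0 L (n + 1)
      (fun p : Site => 1 + Real.exp (-(β * kap J p)) * (tg2s σ p * tg2s σ (p - e1)))
      (tg2D c0 L r0 (n + 1) e1) ?_ ?_).trans ?_
    rotate_left 2
    · refine Finset.prod_congr rfl fun k _ => Finset.prod_congr rfl fun j _ => ?_
      have h7 : tg2s σ (c0 + 1 + (k : ℕ), r0 + (j : ℕ)) = sp (σ (em k.succ j)) :=
        hs _ _ _ (by rw [Fin.val_succ]; push_cast; ring) rfl
      have h8 : tg2s σ ((c0 + 1 + (k : ℕ), r0 + (j : ℕ)) - e1) = sp (σ (em k.castSucc j)) :=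
        hs _ _ _ (by simp [e1]; ring) (by simp [e1])
      have h9 : Real.exp (-(β * kap J (c0 + 1 + (k : ℕ), r0 + (j : ℕ)))) = rw0 β J r0 (n + 1) j := by
        unfold rw0 kap
        by_cases h10 : r0 + ((j : ℕ) : ℤ) = 0
        · rw [if_pos h10, if_pos h10]
        · rw [if_neg h10, if_neg h10, mul_one]
      simp only [h7, h8, h9]
      ring
    · rintro ⟨p1, p2⟩ _
      simp only [tg2D, tg2C, e1, Prod.fst_sub, Prod.snd_sub]
      push_cast
      omega
    · rintro ⟨p1, p2⟩ hp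
      simp only at hp
      push_cast at hp h4
      exact (mem_vb_box hM).2 (by omega)

end

theorem rect_GS {N M : ℤ} (hN : 0 ≤ N) (hM : 1 ≤ M) {β J : ℝ} (hβ : 0 < β) (hJ : 0 < J)
    {c0 r0 : ℤ} {L n : ℕ} (h1 : -N - 1 ≤ c0) (h2 : c0 + L ≤ N) (h3 : -M ≤ r0) (h4 : r0 + n ≤ M + 1)
    (u v : Fin n) {a b : PV (box N M)} (ha : a.1 = (c0, r0 + u)) (hb : b.1 = (c0 + L, r0 + v)) :
    ZG dA (xr dA (xe β (kap J)) (Rect N M c0 L r0 n)) (pr a b) =
      ZG dA (xr dA (xe β (kap J)) (Rect N M c0 L r0 n)) ∅ *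
        GS (Real.exp (-β)) (rw0 β J r0 n) L u v := by
  obtain ⟨n, rfl⟩ : ∃ n', n = n' + 1 := ⟨n - 1, by have := u.pos; omega⟩
  have hmem : ∀ (k : Fin (L + 1)) (j : Fin (n + 1)),
      ((c0 + (k : ℕ), r0 + (j : ℕ)) : Site) ∈ PL (box N M) := by
    intro k j
    rw [mem_PL_box hN hM]
    have := k.2
    have := j.2
    push_cast at h4
    simp only
    omega
  let em : Fin (L + 1) → Fin (n + 1) → PV (box N M) := fun k j => ⟨_, hmem k j⟩
  have hem : ∀ k j, (em k j).1 = (c0 + (k : ℕ), r0 + (j : ℕ)) := fun k j => rfl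
  obtain ⟨C, hC0, hC⟩ := tg2_fib em (by
    intro k j k' j' h
    have h5 : ((c0 + (k : ℕ), r0 + (j : ℕ)) : Site) = (c0 + (k' : ℕ), r0 + (j' : ℕ)) :=
      congrArg Subtype.val h
    rw [Prod.mk.injEq] at h5
    refine ⟨Fin.ext ?_, Fin.ext ?_⟩
    · have := h5.1
      omega
    · have := h5.2
      omega)
  have hw := tg2_weight hN hM β J h1 h2 h3 h4 em hem
  have hea : a = em 0 u := by
    apply Subtype.ext
    rw [ha, hem]
    simp
  have heb : b = em (Fin.last L) v := by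
    apply Subtype.ext
    rw [hb, hem]
    simp
  have hP := spin_rep (dA (Λ := box N M)) (xr dA (xe β (kap J)) (Rect N M c0 L r0 (n + 1))) (pr a b)
  have hQ := spin_rep (dA (Λ := box N M)) (xr dA (xe β (kap J)) (Rect N M c0 L r0 (n + 1))) ∅
  have hP2 : ∑ σ : PV (box N M) → Bool, chi (pr a b) σ *
      ∏ e, (1 + xr dA (xe β (kap J)) (Rect N M c0 L r0 (n + 1)) e * chi (dA e) σ) =
      C * ip (fun c => sp (c v)) (Xm (Real.exp (-β)) (rw0 β J r0 (n + 1)) L (fun c => sp (c u))) := by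
    rw [← chain_sum, ← hC (fun s => sp (s 0 u) * sp (s (Fin.last L) v) *
      (∏ k, wc (Real.exp (-β)) (s k)) *
      (∏ k : Fin L, ∏ j, (1 + rw0 β J r0 (n + 1) j * (sp (s k.castSucc j) * sp (s k.succ j)))))]
    refine Finset.sum_congr rfl fun σ _ => ?_
    rw [hw, tg2_chi, hea, heb]
    ring
  have hQ2 : ∑ σ : PV (box N M) → Bool, chi ∅ σ *
      ∏ e, (1 + xr dA (xe β (kap J)) (Rect N M c0 L r0 (n + 1)) e * chi (dA e) σ) =
      C * ip (fun _ => 1) (Xm (Real.exp (-β)) (rw0 β J r0 (n + 1)) L (fun _ => 1)) := by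
    rw [← chain_sum, ← hC (fun s => 1 * 1 *
      (∏ k, wc (Real.exp (-β)) (s k)) *
      (∏ k : Fin L, ∏ j, (1 + rw0 β J r0 (n + 1) j * (sp (s k.castSucc j) * sp (s k.succ j)))))]
    refine Finset.sum_congr rfl fun σ _ => ?_
    rw [hw, chi_empty]
    ring
  rw [hP2] at hP
  rw [hQ2] at hQ
  have hpos : 0 < ZG dA (xr dA (xe β (kap J)) (Rect N M c0 L r0 (n + 1))) ∅ := by
    apply ZG_pos
    intro e
    unfold xr
    split_ifs
    · exact (xe_pos _ e).le
    · exact le_rfl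
  obtain ⟨c, hc⟩ : ∃ c : ℝ, c = 2 ^ Fintype.card (PV (box N M)) := ⟨_, rfl⟩
  have hc0 : 0 < c := by rw [hc]; positivity
  rw [← hc] at hP hQ
  unfold GS
  obtain ⟨P, hPd⟩ : ∃ P : ℝ, P = ip (fun c => sp (c v))
    (Xm (Real.exp (-β)) (rw0 β J r0 (n + 1)) L (fun c => sp (c u))) := ⟨_, rfl⟩
  obtain ⟨Q, hQd⟩ : ∃ Q : ℝ, Q = ip (fun _ => 1)
    (Xm (Real.exp (-β)) (rw0 β J r0 (n + 1)) L (fun _ => 1)) := ⟨_, rfl⟩
  rw [← hPd] at hP ⊢
  rw [← hQd] at hQ ⊢
  have hQ0 : Q ≠ 0 := by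
    intro h
    rw [h, mul_zero] at hQ
    exact (mul_pos hc0 hpos).ne hQ
  rw [← mul_div_assoc, eq_div_iff hQ0]
  have h7 : c * C * (ZG dA (xr dA (xe β (kap J)) (Rect N M c0 L r0 (n + 1))) (pr a b) * Q) =
      c * C * (ZG dA (xr dA (xe β (kap J)) (Rect N M c0 L r0 (n + 1))) ∅ * P) := by
    calc _ = (c * ZG dA (xr dA (xe β (kap J)) (Rect N M c0 L r0 (n + 1))) (pr a b)) * (C * Q) := by
          ring
      _ = (C * P) * (c * ZG dA (xr dA (xe β (kap J)) (Rect N M c0 L r0 (n + 1))) ∅) := by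
          rw [← hP, hQ]
      _ = _ := by ring
  exact mul_left_cancel₀ (mul_ne_zero hc0.ne' hC0) h7

end Pool.Agent.Helper49.DX
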