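import Pool.Agent.Helper49.DX.Ct
import Pool.Agent.Helper49.DX.Tg2
import Pool.Agent.Helper49.DX.Lo

/-!
Block DX-GL: the lower bound for the two-point function between the ends.

Paper proof. Let `m = Nat.sqrt N.toNat + 2`, `n = 2 m + 1`, `N = N.toNat`, so `n ≤ M` (the rows `1, ..., n` are in the
box). `a' = (-N - 1, 1)`, `b' = (N, 1)`. `mul_le` (twice) for `Z = ZG dA (xe β (kap J))`:
`G2 a b ≥ G2 a a' * G2 a' b' * G2 b' b`. `G2 a a' ≥ exp (-β)`: `ZG_mono` with the weights `xr dA x {a, a'}`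
(only the edge `Sum.inl (-N - 1, 1)` between `a` and `a'` has a nonzero weight, `exp (-β)`): for these weights
`ZG (pr a a') = exp (-β)`, `ZG ∅ = 1`. `G2 a' b' ≥ GS t (fun _ => t) (2 N + 1) 0 0` for `t = exp (-β)`: `ZG_mono` with the
weights `xr dA x (Rect N M (-N - 1) (2 N + 1) 1 n)` and `rect_GS` (`rw0 β J 1 n = fun _ => t` as `1 + j ≠ 0`).
Then `gs_low`.
-/

open Finset
open scoped Classical

namespace Pool.Agent.Helper49.DX

open Pool.Agent.Helper49.DL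

private lemma G2_mul46 {β J : ℝ} (hβ : 0 ≤ β) (hJ : 0 ≤ J) {N M : ℤ} (a b c : PV (box N M)) :
    G2 β J N M a b * G2 β J N M b c ≤ G2 β J N M a c := by
  have h := mul_le (dA (Λ := box N M)) WI2.dA_card (x := xe β (kap J))
    (fun e => (xe_pos (kap J) e).le) (fun e => xe_le_one hβ hJ e) a b c
  have h0 : 0 < ZG (dA (Λ := box N M)) (xe β (kap J)) ∅ := ZG_pos fun e => (xe_pos (kap J) e).le
  unfold G2
  rw [div_mul_div_comm, div_le_div_iff₀ (mul_pos h0 h0) h0, ← mul_assoc]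
  exact mul_le_mul_of_nonneg_right h h0.le

private lemma xe_lt_one46 {β J : ℝ} (hβ : 0 < β) (hJ : 0 < J) {N M : ℤ} (e : LB (box N M)) :
    xe β (kap J) e < 1 := by
  unfold xe
  rw [Real.exp_lt_one_iff, neg_neg_iff_pos]
  refine mul_pos hβ ?_
  rcases e with i | i
  · exact one_pos
  · change 0 < kap J i.1
    unfold kap
    split_ifs
    · exact hJ
    · exact one_pos

private lemma G2_rect46 {N M : ℤ} (hN : 0 ≤ N) (hM : 1 ≤ M) {β J : ℝ} (hβ : 0 < β) (hJ : 0 < J)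
    {c0 r0 : ℤ} {L n : ℕ} (h1 : -N - 1 ≤ c0) (h2 : c0 + L ≤ N) (h3 : -M ≤ r0) (h4 : r0 + n ≤ M + 1)
    (u v : Fin n) {a b : PV (box N M)} (ha : a.1 = (c0, r0 + u)) (hb : b.1 = (c0 + L, r0 + v)) :
    GS (Real.exp (-β)) (rw0 β J r0 n) L u v ≤ G2 β J N M a b := by
  have hx0 : ∀ e : LB (box N M), 0 ≤ xr dA (xe β (kap J)) (Rect N M c0 L r0 n) e := by
    intro e
    unfold xr
    split_ifs
    · exact (xe_pos (kap J) e).le
    · exact le_rfl
  have key := ZG_mono (dA (Λ := box N M)) (x := xr dA (xe β (kap J)) (Rect N M c0 L r0 n))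
    (x' := xe β (kap J)) hx0
    (fun e => by
      unfold xr
      split_ifs
      · exact le_rfl
      · exact (xe_pos (kap J) e).le)
    (fun e => xe_lt_one46 hβ hJ e) (pr a b)
  rw [rect_GS hN hM hβ hJ h1 h2 h3 h4 u v ha hb] at key
  have h0 : 0 < ZG (dA (Λ := box N M)) (xe β (kap J)) ∅ := ZG_pos fun e => (xe_pos (kap J) e).le
  have h0' : 0 < ZG (dA (Λ := box N M)) (xr dA (xe β (kap J)) (Rect N M c0 L r0 n)) ∅ := ZG_pos hx0
  unfold G2
  rw [le_div_iff₀ h0]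
  refine le_of_mul_le_mul_left ?_ h0'
  calc _ = _ := (mul_assoc _ _ _).symm
    _ ≤ _ := key
    _ = _ := mul_comm _ _

private lemma GS_two46 (t : ℝ) (x : Fin 2 → ℝ) : GS t x 0 0 1 = t := by
  have hwc : ∀ c : Col 2, wc t c = 1 + t * (sp (c 0) * sp (c 1)) := by
    intro c
    unfold wc
    rw [Fin.prod_univ_two]
    simp
  have hs : ∀ f : Col 2 → ℝ, ∑ c, f c = ∑ p : Bool × Bool, f ![p.1, p.2] := by
    intro f
    refine Fintype.sum_equiv (piFinTwoEquiv fun _ => Bool) _ _ ?_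
    intro c
    congr 1
    funext i
    fin_cases i <;> rfl
  unfold GS ip Xm Wm
  rw [hs, hs]
  simp only [Fintype.sum_prod_type, Fintype.sum_bool, hwc]
  simp [sp]
  ring_nf

theorem g2_low {β J : ℝ} (hβ : 0 < β) (hJ : 0 < J)
    (hq : Real.exp (-β) ^ 2 + 2 * Real.exp (-β) < 1) : ∃ c : ℝ, 0 < c ∧
      ∀ N M : ℤ, 1 ≤ N → 2 * (Nat.sqrt N.toNat : ℤ) + 5 ≤ M →
        ∀ a b : PV (box N M), a.1 = (-N - 1, 0) → b.1 = (N, 0) →
          c * lam (Real.exp (-β)) ^ (2 * N + 1).toNat / (2 * (N : ℝ) + 1) ^ (3 / 2 : ℝ) ≤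
            G2 β J N M a b := by
  obtain ⟨c, hc, H⟩ := gs_low (Real.exp_pos (-β)) hq
  refine ⟨Real.exp (-β) ^ 2 * c, by positivity, ?_⟩
  intro N M hN hM a b ha hb
  obtain ⟨N', rfl⟩ : ∃ N' : ℕ, (N' : ℤ) = N := ⟨N.toNat, by omega⟩
  have hN0 : (0 : ℤ) ≤ (N' : ℤ) := by omega
  have hM1 : (1 : ℤ) ≤ M := by omega
  rw [Int.toNat_natCast] at hM
  have ha' : ((-(N' : ℤ) - 1, 1) : Site) ∈ PL (box N' M) := (mem_PL_box hN0 hM1).2
    ⟨by simp, by simp only; omega, by simp only; omega, by simp only; omega⟩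
  have hb' : (((N' : ℤ), 1) : Site) ∈ PL (box N' M) := (mem_PL_box hN0 hM1).2
    ⟨by simp only; omega, by simp, by simp only; omega, by simp only; omega⟩
  set a' : PV (box (N' : ℤ) M) := ⟨_, ha'⟩ with ha'd
  set b' : PV (box (N' : ℤ) M) := ⟨_, hb'⟩ with hb'd
  have g1 : Real.exp (-β) ≤ G2 β J N' M a a' := by
    have h := G2_rect46 (c0 := -(N' : ℤ) - 1) (r0 := 0) (L := 0) (n := 2) hN0 hM1 hβ hJ (le_refl _)
      (by push_cast; omega) (by omega) (by push_cast; omega) 0 1 (a := a) (b := a')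
      (by rw [ha]; simp) (by rw [ha'd]; simp)
    rwa [GS_two46] at h
  have g3 : Real.exp (-β) ≤ G2 β J N' M b' b := by
    rw [G2_comm]
    have h := G2_rect46 (c0 := (N' : ℤ)) (r0 := 0) (L := 0) (n := 2) hN0 hM1 hβ hJ (by omega)
      (by push_cast; omega) (by omega) (by push_cast; omega) 0 1 (a := b) (b := b')
      (by rw [hb]; simp) (by rw [hb'd]; simp)
    rwa [GS_two46] at h
  have g2 : c * lam (Real.exp (-β)) ^ (2 * N' + 1) / ((2 * N' + 1 : ℕ) : ℝ) ^ (3 / 2 : ℝ) ≤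
      G2 β J N' M a' b' := by
    have h := G2_rect46 (c0 := -(N' : ℤ) - 1) (r0 := 1) (L := 2 * N' + 1)
      (n := 2 * (Nat.sqrt N' + 2) + 1) hN0 hM1 hβ hJ (le_refl _)
      (by push_cast; omega) (by omega) (by push_cast; omega) 0 0 (a := a') (b := b')
      (by rw [ha'd]; simp) (by rw [hb'd]; simp; ring)
    have hr : rw0 β J 1 (2 * (Nat.sqrt N' + 2) + 1) = fun _ => Real.exp (-β) := by
      funext j
      unfold rw0
      rw [if_neg (by omega)]
    rw [hr] at h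
    exact (H N').trans h
  have e1 : (2 * (N' : ℤ) + 1).toNat = 2 * N' + 1 := by omega
  have e2 : (2 * (((N' : ℤ) : ℤ) : ℝ) + 1) = ((2 * N' + 1 : ℕ) : ℝ) := by push_cast; ring
  rw [e1, e2]
  have hE := Real.exp_pos (-β)
  calc Real.exp (-β) ^ 2 * c * lam (Real.exp (-β)) ^ (2 * N' + 1) /
        ((2 * N' + 1 : ℕ) : ℝ) ^ (3 / 2 : ℝ) =
        Real.exp (-β) * ((c * lam (Real.exp (-β)) ^ (2 * N' + 1) /
          ((2 * N' + 1 : ℕ) : ℝ) ^ (3 / 2 : ℝ)) * Real.exp (-β)) := by ring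
    _ ≤ Real.exp (-β) * (G2 β J N' M a' b' * Real.exp (-β)) :=
        mul_le_mul_of_nonneg_left (mul_le_mul_of_nonneg_right g2 hE.le) hE.le
    _ ≤ Real.exp (-β) * (G2 β J N' M a' b' * G2 β J N' M b' b) :=
        mul_le_mul_of_nonneg_left (mul_le_mul_of_nonneg_left g3 (G2_nonneg _ _)) hE.le
    _ ≤ Real.exp (-β) * G2 β J N' M a' b :=
        mul_le_mul_of_nonneg_left (G2_mul46 hβ.le hJ.le _ _ _) hE.le
    _ ≤ G2 β J N' M a a' * G2 β J N' M a' b := mul_le_mul_of_nonneg_right g1 (G2_nonneg _ _)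
    _ ≤ G2 β J N' M a b := G2_mul46 hβ.le hJ.le _ _ _

end Pool.Agent.Helper49.DX
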