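import Pool.Agent.Helper49.DX.Gu
import Pool.Agent.Helper49.DX.Gl
import Pool.Agent.Helper49.DX.Al

/-!
Block DX-WD: the interface is thin.

Paper proof. `hq` from `t_small`, `c₀ = (β - β₁) mag(β₁)² > 0`. If `Wide N ω K` with the bonds `b`, `b'`, then the plaquettes
`p = b.1`, `q = b'.1` are on the interface (`On`), in the same column, at distance at least `K ≥ 1`; they are in
`PL (box N N)`: a broken bond that does not meet the box is `((x, 0), false)` with `|x| > N`, if `b.1` is not in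
`PL` then (for instance) `|b.1.1| > N + 1` or `b.1.1 = N + 1`, and both bonds are `((x, 0), false)`, of height
difference `0 < K`. Union bound over `p`, `q` in the same column, `-N - 1 ≤ x ≤ N`, heights in `[-N, N]`,
`q.2 ≥ p.2 + K`: `pair_le`, `G2 p q ≤ exp (-c₀ K)` (`G2_decay`), `G2 p q ^ 2 ≤ exp (-c₀ K)`, `g2_row`:
`G2 a p * G2 b q ≤ C² λ^((x+N+1) + (N-x)) = C² λ^(2N+1)`, the same for `G2 a q * G2 b p`, `g2_low`. So every term is at most
`C' (2N+1)^(3/2) exp (-c₀ K)`, and there are at most `(2N+2)(2N+1)²` terms: the probability is at most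
`C'' N^(9/2) exp (-c₀ K)`. With `K ≥ C₀ log N`, `C₀ = 5 / c₀` this tends to `0`.
-/

open Finset
open scoped Classical

namespace Pool.Agent.Helper49.DX

open Pool.Agent.Helper49.DL

/-- Two edges of the interface in the same column at vertical distance at least `K`. -/
def Wide (N : ℤ) (ω : Cfg) (K : ℤ) : Prop :=
  ∃ b b' : Bond, Interface N ω b ∧ Interface N ω b' ∧ b.1.1 = b'.1.1 ∧ b.1.2 + K ≤ b'.1.2

private theorem broken_pos82 {N : ℤ} (hN : 1 ≤ N) {ω : Cfg}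
    (hω : ω ∈ confs (box N N) (eta 0)) {b : Bond} (hb : Broken ω b) :
    (-N - 1 ≤ b.1.1 ∧ b.1.1 ≤ N ∧ -N ≤ b.1.2 ∧ b.1.2 ≤ N) ∨ b.1.2 = 0 := by
  obtain ⟨⟨x, y⟩, d⟩ := b
  rw [mem_confs] at hω
  by_cases h1 : (x, y) ∈ box N N
  · rw [mem_box] at h1
    simp only at h1 ⊢
    left
    omega
  by_cases h2 : bend ((x, y), d) ∈ box N N
  · rw [mem_box] at h2
    left
    cases d
    · simp only [bend, e2, Bool.false_eq_true, if_false, Prod.mk_add_mk, add_zero] at h2 ⊢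
      omega
    · simp only [bend, e1, if_true, Prod.mk_add_mk, add_zero] at h2 ⊢
      omega
  right
  by_contra hy
  apply hb
  rw [hω _ h1, hω _ h2]
  simp only at hy
  cases d
  · simp only [bend, e2, Bool.false_eq_true, if_false, Prod.mk_add_mk, eta, decide_eq_decide]
    omega
  · simp only [bend, e1, if_true, Prod.mk_add_mk, add_zero, eta]

private theorem side_self82 (b : Bond) : Side b.1 b := by
  obtain ⟨p, d⟩ := b
  cases d
  · exact Or.inr (Or.inl rfl)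
  · exact Or.inl rfl

private theorem card_PV82 {N : ℤ} (hN : 1 ≤ N) :
    (Fintype.card (PV (box N N)) : ℝ) ≤ (2 * (N : ℝ) + 2) ^ 2 := by
  have h1 : PL (box N N) ⊆ Finset.Icc (-N - 1) N ×ˢ Finset.Icc (-N) N := by
    intro p hp
    have h2 := (mem_PL_box (by omega) hN).1 hp
    rw [Finset.mem_product, Finset.mem_Icc, Finset.mem_Icc]
    exact ⟨⟨h2.1, h2.2.1⟩, h2.2.2⟩
  have h2 := Finset.card_le_card h1
  rw [Finset.card_product, Int.card_Icc, Int.card_Icc] at h2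
  have h3 : ((N + 1 - (-N - 1)).toNat : ℤ) = 2 * N + 2 := by omega
  have h4 : ((N + 1 - (-N)).toNat : ℤ) = 2 * N + 1 := by omega
  have h5 : ((PL (box N N)).card : ℤ) ≤ (2 * N + 2) * (2 * N + 1) := by
    rw [← h3, ← h4]
    exact_mod_cast h2
  have h6 : ((PL (box N N)).card : ℝ) ≤ (2 * (N : ℝ) + 2) * (2 * N + 1) := by
    exact_mod_cast h5
  have h7 : Fintype.card (PV (box N N)) = (PL (box N N)).card := Fintype.card_coe _
  rw [h7]
  have hN' : (1 : ℝ) ≤ N := by exact_mod_cast hN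
  nlinarith

private theorem union82 {N : ℤ} (hN : 1 ≤ N) {β J : ℝ} {K : ℤ} (hK : 1 ≤ K) {X : ℝ} (hX0 : 0 ≤ X)
    (hX : ∀ p q : PV (box N N), p.1.1 = q.1.1 → p.1.2 + K ≤ q.1.2 →
      avg β (kap J) (box N N) (eta 0) (fun ω => if On N ω p.1 ∧ On N ω q.1 then 1 else 0) ≤ X) :
    avg β (kap J) (box N N) (eta 0) (fun ω => if Wide N ω K then 1 else 0) ≤
      (2 * (N : ℝ) + 2) ^ 4 * X := by
  set S : Finset (PV (box N N) × PV (box N N)) :=
    Finset.univ.filter (fun z => z.1.1.1 = z.2.1.1 ∧ z.1.1.2 + K ≤ z.2.1.2) with hS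
  have h1 : ∀ ω ∈ confs (box N N) (eta 0), (if Wide N ω K then (1 : ℝ) else 0) ≤
      ∑ z ∈ S, if On N ω z.1.1 ∧ On N ω z.2.1 then 1 else 0 := by
    intro ω hω
    have hnn : ∀ z ∈ S, (0 : ℝ) ≤ if On N ω z.1.1 ∧ On N ω z.2.1 then 1 else 0 := by
      intro z _
      split_ifs
      · exact zero_le_one
      · exact le_rfl
    split_ifs with hW
    · obtain ⟨b, b', hb, hb', hx, hy⟩ := hW
      have g1 := broken_pos82 hN hω hb.1
      have g2 := broken_pos82 hN hω hb'.1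
      have m1 : b.1 ∈ PL (box N N) := by
        rw [mem_PL_box (by omega) hN]
        omega
      have m2 : b'.1 ∈ PL (box N N) := by
        rw [mem_PL_box (by omega) hN]
        omega
      have hmem : ((⟨b.1, m1⟩, ⟨b'.1, m2⟩) : PV (box N N) × PV (box N N)) ∈ S := by
        rw [hS, Finset.mem_filter]
        exact ⟨Finset.mem_univ _, hx, hy⟩
      refine le_trans (le_of_eq ?_) (Finset.single_le_sum
        (f := fun z : PV (box N N) × PV (box N N) =>
          if On N ω z.1.1 ∧ On N ω z.2.1 then (1 : ℝ) else 0) hnn hmem)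
      simp only
      rw [if_pos]
      exact ⟨⟨b, side_self82 b, hb⟩, ⟨b', side_self82 b', hb'⟩⟩
    · exact Finset.sum_nonneg hnn
  refine (avg_mono h1).trans ?_
  rw [avg_sum]
  have h2 : ∀ z ∈ S, avg β (kap J) (box N N) (eta 0)
      (fun ω => if On N ω z.1.1 ∧ On N ω z.2.1 then 1 else 0) ≤ X := by
    intro z hz
    rw [hS, Finset.mem_filter] at hz
    exact hX z.1 z.2 hz.2.1 hz.2.2
  refine (Finset.sum_le_sum h2).trans ?_
  rw [Finset.sum_const, nsmul_eq_mul]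
  refine mul_le_mul_of_nonneg_right ?_ hX0
  have h3 : S.card ≤ Fintype.card (PV (box N N)) * Fintype.card (PV (box N N)) := by
    rw [← Fintype.card_prod]
    exact Finset.card_le_univ S
  have h4 : (S.card : ℝ) ≤ (Fintype.card (PV (box N N)) : ℝ) * Fintype.card (PV (box N N)) := by
    exact_mod_cast h3
  have h5 := card_PV82 hN
  have h6 : (0 : ℝ) ≤ Fintype.card (PV (box N N)) := Nat.cast_nonneg _
  calc (S.card : ℝ) ≤ (Fintype.card (PV (box N N)) : ℝ) * Fintype.card (PV (box N N)) := h4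
    _ ≤ (2 * (N : ℝ) + 2) ^ 2 * (2 * (N : ℝ) + 2) ^ 2 := mul_le_mul h5 h5 h6 (by positivity)
    _ = (2 * (N : ℝ) + 2) ^ 4 := by ring

/-- The bound for a single pair. -/
private theorem term82 {g E u v w z G Cr cl Λ P x1 x2 y1 y2 : ℝ} (hE0 : 0 < E) (hE1 : E ≤ 1)
    (hg0 : 0 ≤ g) (hg : g ≤ E) (hCr : 0 < Cr) (hcl : 0 < cl) (hΛ : 0 < Λ) (hP : 1 ≤ P)
    (hx1 : x1 * x2 = Λ) (hy1 : y1 * y2 = Λ) (hu0 : 0 ≤ u) (hv0 : 0 ≤ v) (hw0 : 0 ≤ w) (hz0 : 0 ≤ z)
    (hu : u ≤ Cr * x1) (hv : v ≤ Cr * x2) (hw : w ≤ Cr * y1) (hz : z ≤ Cr * y2)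
    (hx10 : 0 < x1) (hx20 : 0 < x2) (hy10 : 0 < y1) (hy20 : 0 < y2) (hG : cl * Λ / P ≤ G) :
    g ^ 2 + (u * v + w * z) * g / G ≤ (1 + 2 * Cr ^ 2 / cl) * P * E := by
  have hP0 : 0 < P := by linarith
  have h1 : u * v ≤ Cr ^ 2 * Λ := by
    have := mul_le_mul hu hv hv0 (by positivity)
    calc u * v ≤ Cr * x1 * (Cr * x2) := this
      _ = Cr ^ 2 * (x1 * x2) := by ring
      _ = Cr ^ 2 * Λ := by rw [hx1]
  have h2 : w * z ≤ Cr ^ 2 * Λ := by
    have := mul_le_mul hw hz hz0 (by positivity)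
    calc w * z ≤ Cr * y1 * (Cr * y2) := this
      _ = Cr ^ 2 * (y1 * y2) := by ring
      _ = Cr ^ 2 * Λ := by rw [hy1]
  have hG0 : 0 < cl * Λ / P := by positivity
  have hGp : 0 < G := lt_of_lt_of_le hG0 hG
  have h3 : (u * v + w * z) * g / G ≤ 2 * Cr ^ 2 * Λ * E / (cl * Λ / P) := by
    refine div_le_div₀ (by positivity) ?_ hG0 hG
    exact mul_le_mul (by linarith) hg hg0 (by positivity)
  have h4 : 2 * Cr ^ 2 * Λ * E / (cl * Λ / P) = 2 * Cr ^ 2 / cl * P * E := by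
    field_simp
  have h5 : g ^ 2 ≤ P * E := by
    have e1 : g * g ≤ E * 1 := mul_le_mul hg (hg.trans hE1) hg0 hE0.le
    have e2 : E * 1 ≤ E * P := mul_le_mul_of_nonneg_left hP hE0.le
    nlinarith
  calc g ^ 2 + (u * v + w * z) * g / G ≤ P * E + 2 * Cr ^ 2 / cl * P * E := by
        rw [← h4]
        exact add_le_add h5 h3
    _ = (1 + 2 * Cr ^ 2 / cl) * P * E := by ring

theorem width {β₁ β J : ℝ} (h0 : 0 ≤ β₁) (h : β₁ < β) (hm : 0 < mag β₁) (hJ : 1 ≤ J) :
    ∃ C : ℝ, 0 < C ∧ ∀ t : ℝ, 0 < t → ∃ n : ℤ, ∀ N : ℤ, n ≤ N → ∀ K : ℤ, C * Real.log N ≤ K →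
      1 ≤ K →
      avg β (kap J) (box N N) (eta 0) (fun ω => if Wide N ω K then 1 else 0) ≤ t := by
  have hq := t_small h0 h hm
  have hβ : 0 < β := lt_of_le_of_lt h0 h
  set c₀ : ℝ := (β - β₁) * mag β₁ ^ 2 with hc₀
  have hc0 : 0 < c₀ := mul_pos (by linarith) (pow_pos hm 2)
  obtain ⟨Cr, hCr, hrow⟩ := g2_row hβ hJ hq
  obtain ⟨cl, hcl, hlow⟩ := g2_low hβ (by linarith : 0 < J) hq
  set l : ℝ := lam (Real.exp (-β)) with hl
  have hl0 : 0 < l := lam_pos (Real.exp_pos _) (t_lt_one (Real.exp_pos _) hq)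
  set C' : ℝ := 1 + 2 * Cr ^ 2 / cl with hC'
  have hC'0 : 0 < C' := by positivity
  refine ⟨7 / c₀, by positivity, fun t ht => ⟨max 100 ⌈729 * C' / t⌉, fun N hN K hKN hK => ?_⟩⟩
  have hN100 : 100 ≤ N := (le_max_left _ _).trans hN
  have hNt : 729 * C' / t ≤ N := by
    have h1 : ⌈729 * C' / t⌉ ≤ N := (le_max_right _ _).trans hN
    exact (Int.le_ceil _).trans (by exact_mod_cast h1)
  have hNr : (100 : ℝ) ≤ N := by exact_mod_cast hN100
  have hN0 : (0 : ℝ) < N := by linarith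
  have hN1 : 1 ≤ N := by omega
  -- the exponential factor
  set E : ℝ := Real.exp (-(c₀ * K)) with hE
  have hE0 : 0 < E := Real.exp_pos _
  have hK0 : (1 : ℝ) ≤ K := by exact_mod_cast hK
  have hE1 : E ≤ 1 := by
    rw [hE, Real.exp_le_one_iff, neg_nonpos]
    positivity
  have hEN : E ≤ 1 / (N : ℝ) ^ 7 := by
    have h1 : 7 * Real.log N ≤ c₀ * K := by
      have h2 := mul_le_mul_of_nonneg_left hKN hc0.le
      have h3 : c₀ * (7 / c₀ * Real.log N) = 7 * Real.log N := by field_simp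
      linarith
    calc E ≤ Real.exp (-(7 * Real.log N)) := Real.exp_le_exp.2 (by linarith)
      _ = 1 / (N : ℝ) ^ 7 := by
        rw [Real.exp_neg, one_div]
        congr 1
        have h3 : 7 * Real.log N = ((7 : ℕ) : ℝ) * Real.log N := by norm_num
        rw [h3, Real.exp_nat_mul, Real.exp_log hN0]
  set P : ℝ := (2 * (N : ℝ) + 1) ^ (3 / 2 : ℝ) with hP
  have hP1 : 1 ≤ P := Real.one_le_rpow (by linarith) (by norm_num)
  have hP2 : P ≤ (2 * (N : ℝ) + 2) ^ 2 := by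
    calc P ≤ (2 * (N : ℝ) + 1) ^ (2 : ℝ) :=
          Real.rpow_le_rpow_of_exponent_le (by linarith) (by norm_num)
      _ = (2 * (N : ℝ) + 1) ^ 2 := by
        rw [← Real.rpow_natCast]
        norm_num
      _ ≤ (2 * (N : ℝ) + 2) ^ 2 := by nlinarith
  have hma : ((-N - 1, 0) : Site) ∈ PL (box N N) := by
    rw [mem_PL_box (by omega) hN1]
    simp only
    omega
  have hmb : ((N, 0) : Site) ∈ PL (box N N) := by
    rw [mem_PL_box (by omega) hN1]
    simp only
    omega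
  have hterm : ∀ p q : PV (box N N), p.1.1 = q.1.1 → p.1.2 + K ≤ q.1.2 →
      avg β (kap J) (box N N) (eta 0) (fun ω => if On N ω p.1 ∧ On N ω q.1 then 1 else 0) ≤
        C' * P * E := by
    intro p q hpq1 hpq2
    have hp := (mem_PL_box (by omega) hN1).1 p.2
    have hq' := (mem_PL_box (by omega) hN1).1 q.2
    set a : PV (box N N) := ⟨(-N - 1, 0), hma⟩ with ha
    set b : PV (box N N) := ⟨(N, 0), hmb⟩ with hb
    refine (pair_le (by omega) hN1 hβ.le (by linarith) (a := a) (b := b) rfl rfl p q).trans ?_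
    have hdec : G2 β J N N p q ≤ E := by
      refine (G2_decay h0 h.le hJ (by omega) hN1 p q).trans ?_
      rw [hE]
      apply Real.exp_le_exp.2
      rw [neg_le_neg_iff, ← hc₀]
      refine mul_le_mul_of_nonneg_left ?_ hc0.le
      have h1 : K ≤ max |p.1.1 - q.1.1| |p.1.2 - q.1.2| := by
        refine le_trans ?_ (le_max_right _ _)
        rw [abs_sub_comm]
        exact le_trans (by omega) (le_abs_self _)
      exact_mod_cast h1
    have hlw : cl * l ^ (2 * N + 1).toNat / P ≤ G2 β J N N a b := by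
      refine hlow N N hN1 ?_ a b rfl rfl
      have h1 : Nat.sqrt N.toNat * Nat.sqrt N.toNat ≤ N.toNat := Nat.sqrt_le _
      have h2 : 10 ≤ Nat.sqrt N.toNat := by
        rw [Nat.le_sqrt]
        omega
      have h3 : ((Nat.sqrt N.toNat : ℕ) : ℤ) * (Nat.sqrt N.toNat : ℕ) ≤ N := by
        have : ((Nat.sqrt N.toNat * Nat.sqrt N.toNat : ℕ) : ℤ) ≤ (N.toNat : ℤ) := by
          exact_mod_cast h1
        rw [Int.toNat_of_nonneg (by omega)] at this
        push_cast at this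
        exact this
      have h4 : (10 : ℤ) ≤ (Nat.sqrt N.toNat : ℕ) := by exact_mod_cast h2
      nlinarith
    have hrw : ∀ p : PV (box N N), G2 β J N N a p ≤ Cr * l ^ (p.1.1 + N + 1).toNat ∧
        G2 β J N N b p ≤ Cr * l ^ (N - p.1.1).toNat := by
      obtain ⟨m, rfl⟩ : ∃ m : ℕ, N = m := ⟨N.toNat, by omega⟩
      intro p
      exact hrow (m : ℤ) m hN1 (by omega) a b p rfl rfl
    refine term82 hE0 hE1 (G2_nonneg _ _) hdec hCr hcl
      (pow_pos hl0 (2 * N + 1).toNat) hP1 ?_ ?_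
      (G2_nonneg _ _) (G2_nonneg _ _) (G2_nonneg _ _) (G2_nonneg _ _)
      (hrw p).1 (hrw q).2 (hrw q).1 (hrw p).2
      (pow_pos hl0 _) (pow_pos hl0 _) (pow_pos hl0 _) (pow_pos hl0 _) hlw
    · rw [← pow_add]
      congr 1
      omega
    · rw [← pow_add]
      congr 1
      omega
  refine (union82 hN1 hK (by positivity) hterm).trans ?_
  have h2N : 2 * (N : ℝ) + 2 ≤ 3 * N := by linarith
  have h6 : (2 * (N : ℝ) + 2) ^ 6 ≤ (3 * (N : ℝ)) ^ 6 := pow_le_pow_left₀ (by positivity) h2N 6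
  calc (2 * (N : ℝ) + 2) ^ 4 * (C' * P * E)
      ≤ (2 * (N : ℝ) + 2) ^ 4 * (C' * (2 * (N : ℝ) + 2) ^ 2 * (1 / (N : ℝ) ^ 7)) := by
        refine mul_le_mul_of_nonneg_left ?_ (by positivity)
        exact mul_le_mul (mul_le_mul_of_nonneg_left hP2 hC'0.le) hEN hE0.le (by positivity)
    _ = C' * (1 / (N : ℝ) ^ 7) * (2 * (N : ℝ) + 2) ^ 6 := by ring
    _ ≤ C' * (1 / (N : ℝ) ^ 7) * (3 * (N : ℝ)) ^ 6 :=
        mul_le_mul_of_nonneg_left h6 (by positivity)
    _ = 729 * C' / N := by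
        field_simp
        ring
    _ ≤ t := by
        rw [div_le_iff₀ ht] at hNt
        rw [div_le_iff₀ hN0]
        linarith

end Pool.Agent.Helper49.DX
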