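import Pool.Agent.Helper49.DX.Tb
import Pool.Agent.Helper49.DX.Tc
import Pool.Agent.Helper49.DX.Wd
import Pool.Agent.Helper49.DL.Comp

/-!
Block DX-TD: upper bound for the height of the interface, `J ≥ 1`.

Paper proof. `hm'`: `mag β > 0` since `mag` is monotone (`mag_mono`, DL/Decay.lean, or directly the version there). Let
`r, L₀` be from `wall_above` for `t / 4`; enlarge `r` so that also `ar β r ≤ mag β + mag β * t / 8`-type bound holds (`exists_ar`;
`seg_upper` needs its own `r₁`, take it from `exists_ar` and use `|x| + max r r₁ ≤ N` etc.), then `L ≥ L₀` with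
`(4 r₁ + 1) / (2 ar β r₁ L) ≤ mag β * t / 8`-type bound.
* `seg_upper` for the segment `x, K + 1, L`: `E (seg x (K+1) L) ≤ ar + err - 2 mag β * P (SegBelow N M x (K+1) L)`.
* `mag_wall` for the sites `(x, K + 1 + k)`, `k < L`, and `seg_avg`:
  `E (seg x (K+1) L) ≥ (mag β + avg wall (seg x K L)) / 2`, wall = `avg β (kap 1) (ubox N (M - 1)) (eta 0)`.
* `wall_above`: `avg wall (seg x K L) ≥ 2 mag β (1/2 - t/4 - P_wall (Above N x K))`.
So `2 mag β P (SegBelow) ≤ mag β + err - mag β / 2 - mag β (1/2 - t/4 - P_wall) = mag β P_wall + mag β t / 4 + err`: `seg_wall`.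
* `upper_final`: `C` from `width`. Put `K' = K + L'`, `L' ≥ C' log N`, `C' = C + 1`, so for large `N` `L' ≥ C log N + L + 2`.
  If `Above N x K' ω`, `¬ Wide N ω (⌈C log N⌉)` then all edges `((x, y), false)` of the interface have
  `y > K' - C log N - 1 ≥ K + L + 1`, so for `k < L` `gg N M ω (x, K + 1 + k) = ∑_{y ≥ K + 1 + k} ig = ∑_{all y} ig = 1` by `col_odd`
  (DL/Refl.lean), i.e. `SegBelow N M x (K + 1) L ω`. Hence `P (Above N x K') ≤ P (SegBelow) + P (Wide) ≤ P_wall / 2 + t`.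
-/

open Finset
open scoped Classical

namespace Pool.Agent.Helper49.DX

open Pool.Agent.Helper49.DL

private theorem alg56 {m t a e P W S E : ℝ} (hm : 0 < m) (ht : 0 < t)
    (h1 : 1 / 2 - (2 * m)⁻¹ * S - t / 4 ≤ W) (h2 : E ≤ a + e - 2 * m * P)
    (h3 : (m + S) / 2 ≤ E) (ha : a ≤ m + m * t / 8) (he : e ≤ m * t / 8) :
    P ≤ 1 / 2 * W + t := by
  have e1 : 2 * m * (1 / 2 - (2 * m)⁻¹ * S - t / 4) = m - S - m * t / 2 := by
    field_simp
    ring
  have h4 := mul_le_mul_of_nonneg_left h1 (by linarith : 0 ≤ 2 * m)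
  rw [e1] at h4
  have h5 : m * (2 * P) ≤ m * (t / 2 + W) := by
    have e2 : m * (t / 2 + W) = m * t / 2 + m * W := by ring
    rw [e2]
    linarith
  have h6 := le_of_mul_le_mul_left h5 hm
  linarith

theorem seg_wall {β : ℝ} (hβ : 0 ≤ β) (hm : 0 < mag β) {t : ℝ} (ht : 0 < t) :
    ∃ r L : ℕ, 1 ≤ r ∧ 1 ≤ L ∧ ∀ J : ℝ, 1 ≤ J → ∀ N M x K : ℤ,
      (r : ℤ) ≤ K → K + L + r ≤ M → |x| + r ≤ N →
      avg β (kap J) (box N M) (eta 0) (fun ω => if SegBelow N M x (K + 1) L ω then 1 else 0) ≤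
        1 / 2 * avg β (kap 1) (ubox N (M - 1)) (eta 0) (fun ω => if Above N x K ω then 1 else 0) +
          t := by
  obtain ⟨r₀, L₀, hr₀, hL₀, hw⟩ := wall_above hβ hm (t := t / 4) (by linarith)
  obtain ⟨r₁, hr₁, har⟩ := exists_ar (β := β) (δ := mag β * t / 8) (by positivity)
  have harm := mag_le_ar β r₁
  obtain ⟨L₁, hL₁⟩ := exists_nat_gt ((4 * (r₁ : ℝ) + 1) / (2 * mag β * (mag β * t / 8)))
  obtain ⟨L, hL0, hL⟩ : ∃ L : ℕ, L₀ ≤ L ∧
      (4 * (r₁ : ℝ) + 1) / (2 * mag β * (mag β * t / 8)) < L :=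
    ⟨max L₀ L₁, le_max_left _ _, lt_of_lt_of_le hL₁ (by exact_mod_cast le_max_right _ _)⟩
  obtain ⟨r, hrr0, hrr1⟩ : ∃ r : ℕ, r₀ + 1 ≤ r ∧ r₁ + 1 ≤ r :=
    ⟨max r₀ r₁ + 1, Nat.add_le_add_right (le_max_left _ _) 1,
      Nat.add_le_add_right (le_max_right _ _) 1⟩
  have hL1 : 1 ≤ L := hL₀.trans hL0
  have hLpos : (0 : ℝ) < L := by exact_mod_cast hL1
  refine ⟨r, L, by omega, hL1, fun J hJ N M x K hK hKM hx => ?_⟩
  have h1 := hw L hL0 N (M - 1) x K (by omega) (by omega) (by omega)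
  have h2 := seg_upper (J := J) hβ hm hJ hr₁ hL1 (x := x) (K := K + 1) (N := N) (M := M)
    (by omega) (by omega) (by omega)
  have h3 : (mag β + avg β (kap 1) (ubox N (M - 1)) (eta 0) (seg x K L)) / 2 ≤
      avg β (kap J) (box N M) (eta 0) (seg x (K + 1) L) := by
    rw [seg_avg, seg_avg]
    have h4 : ∑ k ∈ Finset.range L, (mag β + avg β (kap 1) (ubox N (M - 1)) (eta 0)
        (fun ω => sp (ω (x, K + k)))) / 2 ≤
        ∑ k ∈ Finset.range L, avg β (kap J) (box N M) (eta 0)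
          (fun ω => sp (ω (x, K + 1 + k))) := by
      refine Finset.sum_le_sum fun k hk => ?_
      rw [Finset.mem_range] at hk
      have h5 := mag_wall (J := J) hβ (N := N) (M := M) (x := x) (y := K + 1 + k) (by omega)
        (by omega) (by omega)
      have e : K + 1 + (k : ℤ) - 1 = K + k := by ring
      rw [e] at h5
      exact h5
    rw [← Finset.sum_div, Finset.sum_add_distrib, Finset.sum_const, Finset.card_range,
      nsmul_eq_mul] at h4
    have h5 := mul_le_mul_of_nonneg_left h4 (inv_nonneg.2 hLpos.le)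
    refine le_trans (le_of_eq ?_) h5
    field_simp
  have h5 : (4 * (r₁ : ℝ) + 1) / (2 * ar β r₁ * L) ≤ mag β * t / 8 := by
    have har0 : 0 < ar β r₁ := hm.trans_le harm
    have hpos : 0 < 2 * ar β r₁ * L := by positivity
    rw [div_le_iff₀ hpos]
    rw [div_lt_iff₀ (by positivity)] at hL
    have h6 : mag β * t / 8 * (2 * mag β * L) ≤ mag β * t / 8 * (2 * ar β r₁ * L) := by
      gcongr
    nlinarith
  exact alg56 hm ht h1 h2 h3 har h5

private theorem below56 {N : ℤ} {ω : Cfg} (hω : ω ∈ confs (box N N) (eta 0)) (hN : 1 ≤ N)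
    {x K L' W : ℤ} {L : ℕ} (hK : 0 ≤ K) (hL' : W + L ≤ L')
    (hA : Above N x (K + L') ω) (hW : ¬ Wide N ω W) : SegBelow N N x (K + 1) L ω := by
  obtain ⟨y₀, hy₀, hI₀⟩ := hA
  have hlow : ∀ y : ℤ, y ≤ K + L → ig N ω ((x, y), false) = 0 := by
    intro y hy
    unfold ig
    rw [if_neg]
    intro hI
    refine hW ⟨((x, y), false), ((x, y₀), false), hI, hI₀, rfl, ?_⟩
    show y + W ≤ y₀
    omega
  intro k hk
  have hc := col_odd hω (by omega) hN x
  rw [← hc]
  unfold gg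
  refine Finset.sum_subset ?_ ?_
  · intro y hy
    rw [Finset.mem_Icc] at hy ⊢
    simp only at hy
    omega
  · intro y hy hy'
    rw [Finset.mem_Icc] at hy hy'
    simp only at hy'
    exact hlow y (by omega)

theorem upper_final {β₁ β J : ℝ} (h0 : 0 ≤ β₁) (h : β₁ < β) (hm : 0 < mag β₁) (hJ : 1 ≤ J) :
    ∃ C : ℝ, 0 < C ∧ ∀ t : ℝ, 0 < t → ∃ R n : ℤ, 0 ≤ R ∧ ∀ N x K L' : ℤ, n ≤ N →
      |x| + R ≤ N → R ≤ K → K + L' + R ≤ N → C * Real.log N ≤ L' →
      avg β (kap J) (box N N) (eta 0) (fun ω => if Above N x (K + L') ω then 1 else 0) ≤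
        1 / 2 * avg β (kap 1) (ubox N (N - 1)) (eta 0) (fun ω => if Above N x K ω then 1 else 0) +
          t := by
  have hβ : 0 ≤ β := h0.trans h.le
  have hmβ : 0 < mag β := hm.trans_le (mag_mono h0 h.le)
  obtain ⟨C₀, hC₀, hwid⟩ := width h0 h hm hJ
  refine ⟨C₀ + 1, by linarith, fun t ht => ?_⟩
  obtain ⟨r, L, hr, hL, hseg⟩ := seg_wall hβ hmβ (t := t / 2) (by linarith)
  obtain ⟨n₀, hn₀⟩ := hwid (t / 2) (by linarith)
  refine ⟨r, max (max n₀ 1) ⌈Real.exp ((L : ℝ) + 3)⌉, by positivity,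
    fun N x K L' hN hx hK hKN hL' => ?_⟩
  have hN0 : n₀ ≤ N := (le_max_left _ _).trans ((le_max_left _ _).trans hN)
  have hN1 : 1 ≤ N := (le_max_right _ _).trans ((le_max_left _ _).trans hN)
  have hNe : Real.exp ((L : ℝ) + 3) ≤ N := by
    have h1 : ⌈Real.exp ((L : ℝ) + 3)⌉ ≤ N := (le_max_right _ _).trans hN
    exact (Int.le_ceil _).trans (by exact_mod_cast h1)
  have hNR : (0 : ℝ) < N := lt_of_lt_of_le (Real.exp_pos _) hNe
  have hlog : (L : ℝ) + 3 ≤ Real.log N := by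
    rw [Real.le_log_iff_exp_le hNR]
    exact hNe
  have hlog0 : 0 ≤ Real.log N := by
    have : (0 : ℝ) ≤ L := Nat.cast_nonneg L
    linarith
  obtain ⟨W, hWd⟩ : ∃ W : ℤ, W = max 1 ⌈C₀ * Real.log N⌉ := ⟨_, rfl⟩
  have hW1 : 1 ≤ W := by
    rw [hWd]
    exact le_max_left _ _
  have hWC : C₀ * Real.log N ≤ W := by
    have h1 : ⌈C₀ * Real.log N⌉ ≤ W := by
      rw [hWd]
      exact le_max_right _ _
    exact (Int.le_ceil _).trans (by exact_mod_cast h1)
  have hWle : (W : ℝ) ≤ C₀ * Real.log N + 1 := by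
    rw [hWd]
    push_cast
    refine max_le ?_ (Int.ceil_lt_add_one _).le
    have := mul_nonneg hC₀.le hlog0
    linarith
  have hWL : W + L ≤ L' := by
    have h1 : (W : ℝ) + L ≤ L' := by
      have h2 : (C₀ + 1) * Real.log N = C₀ * Real.log N + Real.log N := by ring
      rw [h2] at hL'
      linarith
    exact_mod_cast h1
  have h1 := hn₀ N hN0 W hWC hW1
  have h2 := hseg J hJ N N x K hK (by omega) hx
  have h3 : avg β (kap J) (box N N) (eta 0) (fun ω => if Above N x (K + L') ω then 1 else 0) ≤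
      avg β (kap J) (box N N) (eta 0) (fun ω => (if SegBelow N N x (K + 1) L ω then 1 else 0) +
        (if Wide N ω W then 1 else 0)) := by
    refine avg_mono fun ω hω => ?_
    by_cases hA : Above N x (K + L') ω
    · by_cases hW : Wide N ω W
      · rw [if_pos hA, if_pos hW]
        split_ifs <;> norm_num
      · rw [if_pos hA, if_neg hW, if_pos (below56 hω hN1 (by omega) hWL hA hW)]
        norm_num
    · rw [if_neg hA]
      split_ifs <;> norm_num
  rw [avg_add (fun ω => if SegBelow N N x (K + 1) L ω then (1 : ℝ) else 0)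
    (fun ω => if Wide N ω W then (1 : ℝ) else 0)] at h3
  linarith

end Pool.Agent.Helper49.DX
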