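import Pool.Agent.Helper49.DX.Wl4
import Pool.Agent.Helper49.DX.Td
import Pool.Agent.Helper49.DX.Bk3
import Pool.Agent.Helper49.DX.Lay
import Pool.Agent.Helper49.DL.Refl

/-!
Assembly: the interface for `J > 1` and the interface along a wall.
-/

open Finset
open scoped Classical

namespace Pool.Agent.Helper49.DX

open Pool.Agent.Helper49.DL

/-- Probability of `E` for the Ising model in `Λ_n` with defect coupling `J` and Dobrushin boundary condition. -/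
noncomputable def PJ (β J : ℝ) (n : ℤ) (E : Cfg → Prop) : ℝ :=
  avg β (kap J) (box n n) (eta 0) (fun ω => if E ω then 1 else 0)

/-- Probability of `E` for the homogeneous Ising model in the upper box `{-n,...,n} × {1,...,n}`, colour 2
below the box, colour 1 on the other sides. -/
noncomputable def PW (β : ℝ) (n : ℤ) (E : Cfg → Prop) : ℝ :=
  avg β (kap 1) (ubox n n) (eta 0) (fun ω => if E ω then 1 else 0)

theorem hts_single (n x K : ℤ) (ω : Cfg) : Hts n {{(x, K)}} ω ↔ Above n x K ω := by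
  unfold Hts
  simp

theorem reflect {n : ℤ} (hn : 1 ≤ n) (β J : ℝ) (𝒲 : Finset (Finset (ℤ × ℤ))) :
    PJ β J n (fun ω => ∃ W ∈ 𝒲, ∀ p ∈ W, Beneath n p.1 p.2 ω) = PJ β J n (Hts n 𝒲) := by
  unfold PJ
  rw [← avg_rf hn β J (fun ω => if Hts n 𝒲 ω then 1 else 0)]
  refine avg_congr fun ω _ => ?_
  have key : ∀ x K : ℤ, Beneath n x K ω ↔ Above n x K (rf ω) := by
    intro x K
    constructor
    · rintro ⟨y, hy, h⟩
      exact ⟨-y, by omega, by simpa [rfb] using interface_rf.2 h⟩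
    · rintro ⟨y, hy, h⟩
      refine ⟨-y, by omega, ?_⟩
      have h1 := interface_rf.2 h
      rw [rf_rf] at h1
      simpa [rfb] using h1
  have key2 : (∃ W ∈ 𝒲, ∀ p ∈ W, Beneath n p.1 p.2 ω) ↔ Hts n 𝒲 (rf ω) := by
    unfold Hts
    simp only [key]
  by_cases h : ∃ W ∈ 𝒲, ∀ p ∈ W, Beneath n p.1 p.2 ω
  · rw [if_pos h, if_pos (key2.1 h)]
  · rw [if_neg h, if_neg (fun h' => h (key2.2 h'))]

theorem excursion {β₁ β J : ℝ} (h0 : 0 ≤ β₁) (h : β₁ < β) (hm : 0 < mag β₁) (hJ : 1 < J) :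
    ∃ C : ℝ, 0 < C ∧ ∀ t : ℝ, 0 < t → ∃ R n₀ : ℤ, 0 ≤ R ∧ R < n₀ ∧ ∀ n : ℤ, n₀ ≤ n →
      (∀ 𝒲 : Finset (Finset (ℤ × ℤ)), (∀ W ∈ 𝒲, ∀ p ∈ W, |p.1| ≤ n - R ∧ 1 ≤ p.2) →
        1 / 2 * PW β (n - R) (Hts (n - R) 𝒲) - t ≤ PJ β J n (Hts n 𝒲)) ∧
      (∀ (𝒲 : Finset (Finset (ℤ × ℤ))) (L : ℤ), ∅ ∉ 𝒲 → C * Real.log n ≤ L →
        (∀ W ∈ 𝒲, ∀ p ∈ W, |p.1| ≤ n - R ∧ R + L ≤ p.2 ∧ p.2 ≤ n - R) →
        PJ β J n (Hts n 𝒲) ≤ 1 / 2 * PW β (n - R) (Hts (n - R) 𝒲) +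
          ∑ p ∈ 𝒲.biUnion id, (1 / 2 * PW β n (Above n p.1 (p.2 - L)) -
            1 / 2 * PW β (n - R) (Above (n - R) p.1 p.2) + t)) ∧
      PJ β J n (fun ω => ∃ x : ℤ, |x| ≤ n - R ∧ On n ω (x, 0)) ≤ t ∧
      (∀ K : ℤ, 1 ≤ K → C * Real.log n ≤ K → PJ β J n (fun ω => Wide n ω K) ≤ t) := by
  obtain ⟨C1, hC1, hu⟩ := upper_final h0 h hm hJ.le
  obtain ⟨C2, hC2, hw⟩ := width h0 h hm hJ.le
  refine ⟨max C1 C2, lt_max_of_lt_left hC1, fun t ht => ?_⟩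
  obtain ⟨R1, hR1, hl⟩ := lower_final h0 h hm hJ (half_pos ht)
  obtain ⟨R2, n2, hR2, hu⟩ := hu (t / 2) (half_pos ht)
  obtain ⟨R3, n3, hR3, hc⟩ := no_contact h0 h hm hJ ht
  obtain ⟨n4, hw⟩ := hw t ht
  obtain ⟨R, hRR1, hRR2, hRR3, hR1'⟩ : ∃ R, R1 ≤ R ∧ R2 ≤ R ∧ R3 ≤ R ∧ 1 ≤ R :=
    ⟨max (max R1 R2) (max R3 1), (le_max_left _ _).trans (le_max_left _ _),
      (le_max_right _ _).trans (le_max_left _ _), (le_max_left _ _).trans (le_max_right _ _),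
      (le_max_right _ _).trans (le_max_right _ _)⟩
  obtain ⟨n1, hn1, hl⟩ := hl R hRR1
  have hR0 : 0 ≤ R := by omega
  have hβ : 0 ≤ β := h0.trans h.le
  refine ⟨R, max (max n1 n2) (max (max n3 n4) (R + 1)), hR0, ?_, fun n hn => ?_⟩
  · exact lt_of_lt_of_le (by omega) ((le_max_right _ _).trans (le_max_right _ _))
  have hnn1 : n1 ≤ n := ((le_max_left _ _).trans (le_max_left _ _)).trans hn
  have hnn2 : n2 ≤ n := ((le_max_right _ _).trans (le_max_left _ _)).trans hn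
  have hnn3 : n3 ≤ n := (((le_max_left _ _).trans (le_max_left _ _)).trans (le_max_right _ _)).trans hn
  have hnn4 : n4 ≤ n := (((le_max_right _ _).trans (le_max_left _ _)).trans (le_max_right _ _)).trans hn
  have hnR : R + 1 ≤ n := ((le_max_right _ _).trans (le_max_right _ _)).trans hn
  have low : ∀ 𝒲 : Finset (Finset (ℤ × ℤ)), (∀ W ∈ 𝒲, ∀ p ∈ W, |p.1| ≤ n - R ∧ 1 ≤ p.2) →
      1 / 2 * PW β (n - R) (Hts (n - R) 𝒲) - t / 2 ≤ PJ β J n (Hts n 𝒲) := by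
    intro 𝒲 h𝒲
    have h1 := hl n n hnn1 le_rfl 𝒲 h𝒲
    have h2 := wall_mono hβ (n := n - R) (M := n - R) (M' := n) (by omega) (by omega) (by omega) 𝒲
    unfold PW PJ
    linarith
  refine ⟨fun 𝒲 h𝒲 => ?_, ?_, ?_, ?_⟩
  · have := low 𝒲 h𝒲
    linarith
  · intro 𝒲 L h0' hL h𝒲
    have hlog : 0 ≤ Real.log n := Real.log_nonneg (by exact_mod_cast (by omega : (1 : ℤ) ≤ n))
    have hCL : C1 * Real.log n ≤ L := (mul_le_mul_of_nonneg_right (le_max_left _ _) hlog).trans hL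
    have hL0 : 0 ≤ L := by
      have : (0 : ℝ) ≤ L := (mul_nonneg hC1.le hlog).trans hCL
      exact_mod_cast this
    have hLR : ∀ W ∈ 𝒲, ∀ p ∈ W, |p.1| ≤ n - R ∧ 1 ≤ p.2 := by
      intro W hW p hp
      obtain ⟨h1, h2, h3⟩ := h𝒲 W hW p hp
      exact ⟨h1, by omega⟩
    have hlay := layer (β := β) (κ₁ := kap J) (κ₂ := kap 1) (Λ₁ := box n n) (Λ₂ := ubox (n - R) (n - R))
      (η₁ := eta 0) (η₂ := eta 0) (n₁ := n) (n₂ := n - R) (t := t / 2) 𝒲 h0' (fun 𝒱 h𝒱 => by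
        refine low 𝒱 fun W hW p hp => ?_
        obtain ⟨W', hW', hp'⟩ := Finset.mem_biUnion.1 (h𝒱 W hW hp)
        exact hLR W' hW' p hp')
    refine hlay.trans ?_
    unfold PW
    rw [add_assoc, ← nsmul_eq_mul, ← Finset.sum_const, ← Finset.sum_add_distrib]
    refine add_le_add_right (Finset.sum_le_sum fun p hp => ?_) _
    obtain ⟨W, hW, hpW⟩ := Finset.mem_biUnion.1 hp
    obtain ⟨h1, h2, h3⟩ := h𝒲 W hW p hpW
    have h4 := hu n p.1 (p.2 - L) L hnn2 (by omega) (by omega) (by omega) hCL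
    have h5 := wall_mono hβ (n := n) (M := n - 1) (M' := n) (by omega) (by omega) (by omega)
      {{(p.1, p.2 - L)}}
    simp only [hts_single] at h5
    rw [sub_add_cancel] at h4
    linarith
  · unfold PJ
    refine le_trans (avg_mono fun ω _ => ?_) (hc n n hnn3 le_rfl)
    by_cases h2 : ∃ x : ℤ, |x| ≤ n - R ∧ On n ω (x, 0)
    · obtain ⟨x, hx, hx2⟩ := h2
      have h3 : ∃ x : ℤ, |x| ≤ n - R3 ∧ On n ω (x, 0) := ⟨x, hx.trans (by omega), hx2⟩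
      rw [if_pos ⟨x, hx, hx2⟩, if_pos h3]
    · rw [if_neg h2]
      split_ifs
      · exact zero_le_one
      · exact le_rfl
  · intro K hK hCK
    have hlog : 0 ≤ Real.log n := Real.log_nonneg (by exact_mod_cast (by omega : (1 : ℤ) ≤ n))
    have hCL : C2 * Real.log n ≤ K := (mul_le_mul_of_nonneg_right (le_max_right _ _) hlog).trans hCK
    exact hw n hnn4 K hCL hK

end Pool.Agent.Helper49.DX
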