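import Pool.Agent.Helper49.DX.Mn

/-!
Block DX-BK1: the event that the sites of a set `C` are not star-connected to the lower boundary is
compared with the event that they are all `true`.

Paper proof. `κ = kap J`, `E = avg β κ (box N M) (eta 0)`, `f ω = 1 {ω = true on C}` (monotone). For `B ⊆ box N M` disjoint from
`C` with `P B` put `G ω = 1 {Bs N M ω = B}`, `Λ' = Lam N M B`. By `dlr` and `Bs_congr`
`Zg (G f) = Zg (G * avg β κ Λ' ω f)`. If `Bs N M ω = B` (`ω ∈ confs (box N M) (eta 0)`):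
a site `i ∈ C` that is not in `Λ'` is `true` in `ω` (see the second case in the proof of `cond_lower`, DL/Explore.lean: otherwise it
would be star-adjacent to a `Low` site and `false`, so `Low`, in `B`); so on `confs Λ' ω` and on `confs Λ' tt`
`f` is equal to the function `f' ξ = 1 {ξ = true on C ∩ Λ'}`, which is `Loc Λ'`, hence by `lam_bdry`, `avg_sameBdry`
`avg Λ' ω f = avg Λ' ω f' = avg Λ' tt f' = avg Λ' tt f ≥ avg (box N M) tt f ≥ E f`
(`avg_fixed_tt` for `Λ' ⊆ box N M`, `η = tt`; then `avg_bdry`, `f` is `Loc (box N M)` as `C ⊆ box N M`).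
So `Zg (G f) ≥ (E f) * Zg G`. Sum over all such `B` (`Bs N M ω ⊆ box N M`; `∀ i ∈ C, ¬ Low N M ω i` iff `Bs N M ω` is disjoint from `C`; if
`f ω = 1` then no site of `C` is `Low` by `low_false`) and divide by `Zg 1`. Pattern: `low_prob`, DL/Explore.lean.
-/

open Finset
open scoped Classical

namespace Pool.Agent.Helper49.DX

open Pool.Agent.Helper49.DL

private lemma mono75 (C : Finset Site) :
    Monotone (fun ω : Cfg => if ∀ i ∈ C, ω i = true then (1 : ℝ) else 0) := by
  intro ω ω' hle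
  by_cases h : ∀ i ∈ C, ω i = true
  · have h' : ∀ i ∈ C, ω' i = true := by
      intro i hi
      have h1 := hle i
      rw [h i hi] at h1
      cases hb : ω' i
      · rw [hb] at h1
        have h2 : true ≤ false := h1
        exact absurd h2 (by decide)
      · rfl
    simp only [if_pos h, if_pos h', le_refl]
  · simp only [if_neg h]
    split_ifs <;> norm_num

/-- The conditional lower bound. -/
private lemma cond75 {β J : ℝ} (hβ : 0 ≤ β) (hJ : 0 ≤ J) {N M : ℤ} {C : Finset Site}
    (hC : C ⊆ box N M) {B : Finset Site} (hCB : ∀ i ∈ C, i ∉ B) :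
    avg β (kap J) (box N M) (eta 0) (fun ω => if ∀ i ∈ C, ω i = true then 1 else 0) *
      Zg β (kap J) (box N M) (eta 0) (fun ω => if Bs N M ω = B then 1 else 0) ≤
    Zg β (kap J) (box N M) (eta 0) (fun ω => (if Bs N M ω = B then 1 else 0) *
      (if ∀ i ∈ C, ω i = true then 1 else 0)) := by
  rw [dlr (Λ' := Lam N M B) (Finset.filter_subset _ _) _ _ (fun ω ξ h => by
      by_cases hB : Bs N M ω = B
      · rw [if_pos hB, if_pos ((Bs_congr h).2 hB)]
      · rw [if_neg hB, if_neg (fun h' => hB ((Bs_congr h).1 h'))]), ← Zg_smul]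
  refine Zg_mono fun ω hω => ?_
  by_cases hB : Bs N M ω = B
  · rw [if_pos hB, mul_one, one_mul]
    have h1 := lam_bdry hω
    rw [hB] at h1
    -- the sites of `C` outside of the unexplored region are `true`
    have hout : ∀ i ∈ C, i ∉ Lam N M B → ω i = true := by
      intro v hvC hL
      have hv := hC hvC
      by_contra hne
      have hf : ω v = false := by simpa using hne
      have h3 : ∃ j, StarAdj j v ∧ Low N M ω j := by
        by_contra hno
        push Not at hno
        apply hL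
        refine Finset.mem_filter.2 ⟨hv, fun j hj => ?_⟩
        have h3 := hno j hj
        rw [low_iff, hB] at h3
        push Not at h3
        exact ⟨h3.1, fun h4 => absurd h4.2 (not_le.2 (h3.2 h4.1))⟩
      obtain ⟨j, hj, hlow⟩ := h3
      have h4 := low_step hlow hj hf hv
      apply hCB v hvC
      rw [← hB]
      exact Finset.mem_filter.2 ⟨hv, h4⟩
    have e1 : ∀ η' : Cfg, (∀ i ∈ C, i ∉ Lam N M B → η' i = true) →
        avg β (kap J) (Lam N M B) η' (fun ω => if ∀ i ∈ C, ω i = true then 1 else 0) =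
        avg β (kap J) (Lam N M B) η'
          (fun ω => if ∀ i ∈ C, i ∈ Lam N M B → ω i = true then 1 else 0) := by
      intro η' hη'
      refine avg_congr fun ξ hξ => ?_
      rw [mem_confs] at hξ
      refine if_congr ⟨fun h i hi _ => h i hi, fun h i hi => ?_⟩ rfl rfl
      by_cases hL : i ∈ Lam N M B
      · exact h i hi hL
      · rw [hξ i hL]
        exact hη' i hi hL
    have e2 : avg β (kap J) (Lam N M B) ω (fun ω => if ∀ i ∈ C, ω i = true then 1 else 0) =
        avg β (kap J) (Lam N M B) tt (fun ω => if ∀ i ∈ C, ω i = true then 1 else 0) := by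
      rw [e1 ω hout, e1 tt (fun _ _ _ => rfl)]
      refine avg_sameBdry h1 fun ω₁ ω₂ h => ?_
      refine if_congr ⟨fun h' i hi hL => ?_, fun h' i hi hL => ?_⟩ rfl rfl
      · rw [← h i hL]
        exact h' i hi hL
      · rw [h i hL]
        exact h' i hi hL
    rw [e2]
    have e3 := avg_fixed_tt (β := β) (κ := kap J) (Λ := box N M) (Λ' := Lam N M B) (η := tt) hβ
      (kap_nonneg hJ) (Finset.filter_subset _ _) (fun _ _ _ => rfl) (mono75 C)
    refine le_trans ?_ e3
    refine avg_bdry hβ (kap_nonneg hJ) (fun i _ _ => ?_) (mono75 C) fun ω₁ ω₂ h => ?_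
    · exact Bool.le_true _
    · refine if_congr ⟨fun h' i hi => ?_, fun h' i hi => ?_⟩ rfl rfl
      · rw [← h i (hC hi)]
        exact h' i hi
      · rw [h i (hC hi)]
        exact h' i hi
  · rw [if_neg hB]
    simp

theorem expl {β J : ℝ} (hβ : 0 ≤ β) (hJ : 0 ≤ J) {N M : ℤ} {C : Finset Site} (hC : C ⊆ box N M)
    (P : Finset Site → Prop) :
    avg β (kap J) (box N M) (eta 0)
        (fun ω => if (∀ i ∈ C, ¬ Low N M ω i) ∧ P (Bs N M ω) then 1 else 0) *
      avg β (kap J) (box N M) (eta 0) (fun ω => if ∀ i ∈ C, ω i = true then 1 else 0) ≤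
    avg β (kap J) (box N M) (eta 0)
        (fun ω => if (∀ i ∈ C, ω i = true) ∧ P (Bs N M ω) then 1 else 0) := by
  set Z := Zg β (kap J) (box N M) (eta 0) with hZ
  set E : ℝ := avg β (kap J) (box N M) (eta 0) (fun ω => if ∀ i ∈ C, ω i = true then 1 else 0) with hE
  set 𝓑 := (box N M).powerset.filter (fun B => (∀ i ∈ C, i ∉ B) ∧ P B) with h𝓑
  have hiff : ∀ ω : Cfg, Bs N M ω ∈ 𝓑 ↔ (∀ i ∈ C, ¬ Low N M ω i) ∧ P (Bs N M ω) := by
    intro ω
    rw [h𝓑, Finset.mem_filter]
    constructor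
    · rintro ⟨_, h2, h3⟩
      exact ⟨fun i hi hl => h2 i hi (Finset.mem_filter.2 ⟨hC hi, hl⟩), h3⟩
    · rintro ⟨h1, h2⟩
      exact ⟨Finset.mem_powerset.2 (Finset.filter_subset _ _),
        fun i hi h3 => h1 i hi (Finset.mem_filter.1 h3).2, h2⟩
  have hsum : ∀ (G : Cfg → ℝ) (ω : Cfg), ∑ B ∈ 𝓑, (if Bs N M ω = B then (1 : ℝ) else 0) * G ω =
      (if (∀ i ∈ C, ¬ Low N M ω i) ∧ P (Bs N M ω) then 1 else 0) * G ω := by
    intro G ω
    rw [← Finset.sum_mul, Finset.sum_ite_eq]
    congr 1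
    exact if_congr (hiff ω) rfl rfl
  have h1 : E * Z (fun ω => if (∀ i ∈ C, ¬ Low N M ω i) ∧ P (Bs N M ω) then 1 else 0) ≤
      Z (fun ω => if (∀ i ∈ C, ω i = true) ∧ P (Bs N M ω) then 1 else 0) := by
    have e1' : Z (fun ω => if (∀ i ∈ C, ¬ Low N M ω i) ∧ P (Bs N M ω) then 1 else 0) =
        ∑ B ∈ 𝓑, Z (fun ω => if Bs N M ω = B then 1 else 0) := by
      rw [hZ, ← Zg_sum]
      refine Zg_congr fun ω _ => ?_
      have := hsum (fun _ => 1) ω
      simp only [mul_one] at this
      exact this.symm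
    have e2' : Z (fun ω => if (∀ i ∈ C, ω i = true) ∧ P (Bs N M ω) then 1 else 0) =
        ∑ B ∈ 𝓑, Z (fun ω => (if Bs N M ω = B then 1 else 0) *
          (if ∀ i ∈ C, ω i = true then 1 else 0)) := by
      rw [hZ, ← Zg_sum]
      refine Zg_congr fun ω hω => ?_
      rw [hsum (fun ω => if ∀ i ∈ C, ω i = true then 1 else 0) ω]
      by_cases ht : ∀ i ∈ C, ω i = true
      · have hl : ∀ i ∈ C, ¬ Low N M ω i := by
          intro i hi hlow
          have h2 := low_false hω hlow
          rw [ht i hi] at h2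
          exact absurd h2 (by decide)
        rw [if_pos ht, mul_one]
        exact if_congr ⟨fun h => ⟨hl, h.2⟩, fun h => ⟨ht, h.2⟩⟩ rfl rfl
      · rw [if_neg ht, if_neg (fun h => ht h.1), mul_zero]
    rw [e1', e2', Finset.mul_sum]
    refine Finset.sum_le_sum fun B hB => cond75 hβ hJ hC ?_
    exact (Finset.mem_filter.1 hB).2.1
  have hz : 0 < Z (fun _ => 1) := Zg_one_pos
  change Z (fun ω => if (∀ i ∈ C, ¬ Low N M ω i) ∧ P (Bs N M ω) then 1 else 0) / Z (fun _ => 1) * E ≤
    Z (fun ω => if (∀ i ∈ C, ω i = true) ∧ P (Bs N M ω) then 1 else 0) / Z (fun _ => 1)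
  rw [div_mul_eq_mul_div]
  refine div_le_div_of_nonneg_right ?_ hz.le
  rw [mul_comm]
  exact h1

end Pool.Agent.Helper49.DX
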