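import Pool.Agent.Helper49.DX.Hs

/-!
Block DX-BK4: `expl` and the block inequality for the interface along the wall and all increasing events.

Paper proofs.
* `expl_wall`: repeat the proof of `expl` (Bk1.lean) with `avg β (kap 1) (ubox N M) (eta 0)`. `confs (ubox N M) (eta 0) ⊆ confs (box N M) (eta 0)`, so
  `Bs_congr`, `lam_bdry`, `low_false`.. apply. For `ω ∈ confs (ubox N M) (eta 0)` all sites of the box with height `≤ 0` are `Low` (they are `false`,
  join them vertically to a site below the box), so `Lam N M (Bs N M ω) ⊆ ubox N M` and `dlr` can be used with `Λ = ubox N M`, `Λ' = Lam N M B`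
  (only the `B = Bs N M ω` for such `ω` matter; for other `B` both sides are `0`). Comparison:
  `avg Λ' tt f ≥ avg (ubox N M) tt f ≥ avg (ubox N M) (eta 0) f` by `avg_fixed_tt` (`Λ' ⊆ ubox N M`) and `avg_bdry` (`C ⊆ ubox N M`).
  (Compare the proof of `wall_above`, Tc.lean.)
* `block_wall`: repeat the proof of `block_le` (Bk3.lean) with `c = 0`, `M = N`, `m = N - H + 1`, the measure `avg β (kap 1) (ubox N N) (eta 0)` and the events
  `P B = ∃ W ∈ 𝒲, ∀ p ∈ W, ∃ y, p.2 + (H - 1) ≤ y ∧ (p.1, y) ∈ Δ ∧ (p.1, y) ∈ B`, `g ω = 1 {Hts l 𝒲 (glue (ubox l m) (shift (-a) ω) (eta 0))}`, `a = (0, H - 1)`,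
  `Δ = tr a (ubox l m) ⊆ ubox N N`. Here the roof of `frame N N 0 l H m` is outside the box (`H + m = N + 1`), so `frame` consists of the
  sites `|x| = l + 1`, `H ≤ y ≤ N` only, and no hypothesis about the roof is needed; a `Low` site `(x, y)`, `|x| ≤ l`, `y ≥ H ≥ 1`, is in the box
  (`low_iff`) and hence in `Δ`. `kap 1` is constant, so `avg_kap_congr` is not needed.
-/

open Finset
open scoped Classical

namespace Pool.Agent.Helper49.DX

open Pool.Agent.Helper49.DL

section

variable {N M : ℤ}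

private lemma ubox_box41 {i : Site} (h : i ∈ ubox N M) : i ∈ box N M := by
  rw [mem_ubox] at h
  rw [mem_box]
  omega

private lemma confs41 {ω : Cfg} (h : ω ∈ confs (ubox N M) (eta 0)) :
    ω ∈ confs (box N M) (eta 0) := by
  rw [mem_confs] at *
  exact fun i hi => h i (fun h' => hi (ubox_box41 h'))

private lemma low_neg41 {ω : Cfg} (h : ω ∈ confs (ubox N M) (eta 0)) {i : Site}
    (hi : i ∈ box N M) (hi0 : i.2 ≤ 0) : Low N M ω i := by
  have key : ∀ n : ℕ, ∀ j : Site, j ∈ box N M → j.2 ≤ 0 → N - j.1 = n → Low N M ω j := by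
    intro n
    induction n with
    | zero =>
      intro j hj hj0 hn
      have hb := mem_box.1 hj
      have h1 : Low N M ω (j + e1) := by
        refine ⟨j + e1, ?_, ?_, Relation.ReflTransGen.refl⟩
        · rw [mem_box]
          simp only [e1, Prod.fst_add, Prod.snd_add]
          push_cast at hn
          omega
        · simp only [e1, Prod.snd_add]
          omega
      refine low_step h1 ?_ ?_ hj
      · unfold StarAdj e1
        simp
      · rw [mem_confs] at h
        rw [h j (fun h' => by rw [mem_ubox] at h'; omega)]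
        simp only [eta, decide_eq_false_iff_not]
        omega
    | succ n ih =>
      intro j hj hj0 hn
      have hb := mem_box.1 hj
      push_cast at hn
      have h1 : Low N M ω (j + e1) := by
        refine ih (j + e1) ?_ ?_ ?_
        · rw [mem_box]
          simp only [e1, Prod.fst_add, Prod.snd_add]
          omega
        · simp only [e1, Prod.snd_add]
          omega
        · simp only [e1, Prod.fst_add]
          omega
      refine low_step h1 ?_ ?_ hj
      · unfold StarAdj e1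
        simp
      · rw [mem_confs] at h
        rw [h j (fun h' => by rw [mem_ubox] at h'; omega)]
        simp only [eta, decide_eq_false_iff_not]
        omega
  have hb := mem_box.1 hi
  exact key (N - i.1).toNat i hi hi0 (by omega)

private lemma lam_ubox41 {ω : Cfg} (h : ω ∈ confs (ubox N M) (eta 0)) :
    Lam N M (Bs N M ω) ⊆ ubox N M := by
  intro i hi
  have h1 := Finset.mem_filter.1 hi
  have h2 := h1.2 i (star_refl i)
  have hb := mem_box.1 h1.1
  rw [mem_ubox]
  by_contra hno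
  have h3 : i.2 ≤ 0 := by
    by_contra h4
    exact hno (by omega)
  exact h2.1 (Finset.mem_filter.2 ⟨h1.1, low_neg41 h h1.1 h3⟩)

private lemma mono41 (C : Finset Site) :
    Monotone (fun ω : Cfg => if ∀ i ∈ C, ω i = true then (1 : ℝ) else 0) := by
  intro ω ω' hle
  by_cases h : ∀ i ∈ C, ω i = true
  · have h' : ∀ i ∈ C, ω' i = true := by
      intro i hi
      have h1 := hle i
      rw [h i hi] at h1
      cases hb : ω' i
      · rw [hb] at h1
        have h2 : true ≤ false := h1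
        exact absurd h2 (by decide)
      · rfl
    simp only [if_pos h, if_pos h', le_refl]
  · simp only [if_neg h]
    split_ifs <;> norm_num

/-- The conditional lower bound. -/
private lemma cond41 {β : ℝ} (hβ : 0 ≤ β) {C : Finset Site}
    (hC : C ⊆ ubox N M) {B : Finset Site} (hCB : ∀ i ∈ C, i ∉ B) :
    avg β (kap 1) (ubox N M) (eta 0) (fun ω => if ∀ i ∈ C, ω i = true then 1 else 0) *
      Zg β (kap 1) (ubox N M) (eta 0) (fun ω => if Bs N M ω = B then 1 else 0) ≤
    Zg β (kap 1) (ubox N M) (eta 0) (fun ω => (if Bs N M ω = B then 1 else 0) *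
      (if ∀ i ∈ C, ω i = true then 1 else 0)) := by
  by_cases hex : ∃ ω0 ∈ confs (ubox N M) (eta 0), Bs N M ω0 = B
  swap
  · rw [← Zg_smul]
    refine Zg_mono fun ω hω => ?_
    have hB : Bs N M ω ≠ B := fun h => hex ⟨ω, hω, h⟩
    simp only [if_neg hB, mul_zero, zero_mul, le_refl]
  obtain ⟨ω0, hω0, hB0⟩ := hex
  have hLam : Lam N M B ⊆ ubox N M := hB0 ▸ lam_ubox41 hω0
  rw [dlr (Λ' := Lam N M B) hLam _ _ (fun ω ξ h => by
      by_cases hB : Bs N M ω = B
      · rw [if_pos hB, if_pos ((Bs_congr h).2 hB)]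
      · rw [if_neg hB, if_neg (fun h' => hB ((Bs_congr h).1 h'))]), ← Zg_smul]
  refine Zg_mono fun ω hω' => ?_
  have hω := confs41 hω'
  by_cases hB : Bs N M ω = B
  · rw [if_pos hB, mul_one, one_mul]
    have h1 := lam_bdry hω
    rw [hB] at h1
    -- the sites of `C` outside of the unexplored region are `true`
    have hout : ∀ i ∈ C, i ∉ Lam N M B → ω i = true := by
      intro v hvC hL
      have hv := ubox_box41 (hC hvC)
      by_contra hne
      have hf : ω v = false := by simpa using hne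
      have h3 : ∃ j, StarAdj j v ∧ Low N M ω j := by
        by_contra hno
        push Not at hno
        apply hL
        refine Finset.mem_filter.2 ⟨hv, fun j hj => ?_⟩
        have h3 := hno j hj
        rw [low_iff, hB] at h3
        push Not at h3
        exact ⟨h3.1, fun h4 => absurd h4.2 (not_le.2 (h3.2 h4.1))⟩
      obtain ⟨j, hj, hlow⟩ := h3
      have h4 := low_step hlow hj hf hv
      apply hCB v hvC
      rw [← hB]
      exact Finset.mem_filter.2 ⟨hv, h4⟩
    have e1 : ∀ η' : Cfg, (∀ i ∈ C, i ∉ Lam N M B → η' i = true) →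
        avg β (kap 1) (Lam N M B) η' (fun ω => if ∀ i ∈ C, ω i = true then 1 else 0) =
        avg β (kap 1) (Lam N M B) η'
          (fun ω => if ∀ i ∈ C, i ∈ Lam N M B → ω i = true then 1 else 0) := by
      intro η' hη'
      refine avg_congr fun ξ hξ => ?_
      rw [mem_confs] at hξ
      refine if_congr ⟨fun h i hi _ => h i hi, fun h i hi => ?_⟩ rfl rfl
      by_cases hL : i ∈ Lam N M B
      · exact h i hi hL
      · rw [hξ i hL]
        exact hη' i hi hL
    have e2 : avg β (kap 1) (Lam N M B) ω (fun ω => if ∀ i ∈ C, ω i = true then 1 else 0) =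
        avg β (kap 1) (Lam N M B) tt (fun ω => if ∀ i ∈ C, ω i = true then 1 else 0) := by
      rw [e1 ω hout, e1 tt (fun _ _ _ => rfl)]
      refine avg_sameBdry h1 fun ω₁ ω₂ h => ?_
      refine if_congr ⟨fun h' i hi hL => ?_, fun h' i hi hL => ?_⟩ rfl rfl
      · rw [← h i hL]
        exact h' i hi hL
      · rw [h i hL]
        exact h' i hi hL
    rw [e2]
    have e3 := avg_fixed_tt (β := β) (κ := kap 1) (Λ := ubox N M) (Λ' := Lam N M B) (η := tt) hβ
      (kap_nonneg zero_le_one) hLam (fun _ _ _ => rfl) (mono41 C)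
    refine le_trans ?_ e3
    refine avg_bdry hβ (kap_nonneg zero_le_one) (fun i _ _ => ?_) (mono41 C) fun ω₁ ω₂ h => ?_
    · exact Bool.le_true _
    · refine if_congr ⟨fun h' i hi => ?_, fun h' i hi => ?_⟩ rfl rfl
      · rw [← h i (hC hi)]
        exact h' i hi
      · rw [h i (hC hi)]
        exact h' i hi
  · rw [if_neg hB]
    simp

end

theorem expl_wall {β : ℝ} (hβ : 0 ≤ β) {N M : ℤ} {C : Finset Site} (hC : C ⊆ ubox N M)
    (P : Finset Site → Prop) :
    avg β (kap 1) (ubox N M) (eta 0)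
        (fun ω => if (∀ i ∈ C, ¬ Low N M ω i) ∧ P (Bs N M ω) then 1 else 0) *
      avg β (kap 1) (ubox N M) (eta 0) (fun ω => if ∀ i ∈ C, ω i = true then 1 else 0) ≤
    avg β (kap 1) (ubox N M) (eta 0)
        (fun ω => if (∀ i ∈ C, ω i = true) ∧ P (Bs N M ω) then 1 else 0) := by
  set Z := Zg β (kap 1) (ubox N M) (eta 0) with hZ
  set E : ℝ := avg β (kap 1) (ubox N M) (eta 0) (fun ω => if ∀ i ∈ C, ω i = true then 1 else 0) with hE
  set 𝓑 := (box N M).powerset.filter (fun B => (∀ i ∈ C, i ∉ B) ∧ P B) with h𝓑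
  have hiff : ∀ ω : Cfg, Bs N M ω ∈ 𝓑 ↔ (∀ i ∈ C, ¬ Low N M ω i) ∧ P (Bs N M ω) := by
    intro ω
    rw [h𝓑, Finset.mem_filter]
    constructor
    · rintro ⟨_, h2, h3⟩
      exact ⟨fun i hi hl => h2 i hi (Finset.mem_filter.2 ⟨ubox_box41 (hC hi), hl⟩), h3⟩
    · rintro ⟨h1, h2⟩
      exact ⟨Finset.mem_powerset.2 (Finset.filter_subset _ _),
        fun i hi h3 => h1 i hi (Finset.mem_filter.1 h3).2, h2⟩
  have hsum : ∀ (G : Cfg → ℝ) (ω : Cfg), ∑ B ∈ 𝓑, (if Bs N M ω = B then (1 : ℝ) else 0) * G ω =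
      (if (∀ i ∈ C, ¬ Low N M ω i) ∧ P (Bs N M ω) then 1 else 0) * G ω := by
    intro G ω
    rw [← Finset.sum_mul, Finset.sum_ite_eq]
    congr 1
    exact if_congr (hiff ω) rfl rfl
  have h1 : E * Z (fun ω => if (∀ i ∈ C, ¬ Low N M ω i) ∧ P (Bs N M ω) then 1 else 0) ≤
      Z (fun ω => if (∀ i ∈ C, ω i = true) ∧ P (Bs N M ω) then 1 else 0) := by
    have e1' : Z (fun ω => if (∀ i ∈ C, ¬ Low N M ω i) ∧ P (Bs N M ω) then 1 else 0) =
        ∑ B ∈ 𝓑, Z (fun ω => if Bs N M ω = B then 1 else 0) := by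
      rw [hZ, ← Zg_sum]
      refine Zg_congr fun ω _ => ?_
      have := hsum (fun _ => 1) ω
      simp only [mul_one] at this
      exact this.symm
    have e2' : Z (fun ω => if (∀ i ∈ C, ω i = true) ∧ P (Bs N M ω) then 1 else 0) =
        ∑ B ∈ 𝓑, Z (fun ω => (if Bs N M ω = B then 1 else 0) *
          (if ∀ i ∈ C, ω i = true then 1 else 0)) := by
      rw [hZ, ← Zg_sum]
      refine Zg_congr fun ω hω => ?_
      rw [hsum (fun ω => if ∀ i ∈ C, ω i = true then 1 else 0) ω]
      by_cases ht : ∀ i ∈ C, ω i = true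
      · have hl : ∀ i ∈ C, ¬ Low N M ω i := by
          intro i hi hlow
          have h2 := low_false (confs41 hω) hlow
          rw [ht i hi] at h2
          exact absurd h2 (by decide)
        rw [if_pos ht, mul_one]
        exact if_congr ⟨fun h => ⟨hl, h.2⟩, fun h => ⟨ht, h.2⟩⟩ rfl rfl
      · rw [if_neg ht, if_neg (fun h => ht h.1), mul_zero]
    rw [e1', e2', Finset.mul_sum]
    refine Finset.sum_le_sum fun B hB => cond41 hβ hC ?_
    exact (Finset.mem_filter.1 hB).2.1
  have hz : 0 < Z (fun _ => 1) := Zg_one_pos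
  change Z (fun ω => if (∀ i ∈ C, ¬ Low N M ω i) ∧ P (Bs N M ω) then 1 else 0) / Z (fun _ => 1) * E ≤
    Z (fun ω => if (∀ i ∈ C, ω i = true) ∧ P (Bs N M ω) then 1 else 0) / Z (fun _ => 1)
  rw [div_mul_eq_mul_div]
  refine div_le_div_of_nonneg_right ?_ hz.le
  rw [mul_comm]
  exact h1

private theorem mem_blk41 {c l H m : ℤ} {i : Site} : i ∈ tr (c, H - 1) (ubox l m) ↔
    (c - l ≤ i.1 ∧ i.1 ≤ c + l) ∧ (H ≤ i.2 ∧ i.2 ≤ H - 1 + m) := by
  rw [mem_tr, mem_ubox]
  simp only [Prod.fst_sub, Prod.snd_sub]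
  omega

/-- the event that the interface of the block is high -/
private def Ev41 (l m : ℤ) (𝒲 : Finset (Finset (ℤ × ℤ))) (a : Site) (ω : Cfg) : Prop :=
  Hts l 𝒲 (glue (ubox l m) (shift (-a) ω) (eta 0))

private theorem ev_anti41 {l m : ℤ} {𝒲 : Finset (Finset (ℤ × ℤ))} (hl : 0 ≤ l) (hm : 1 ≤ m)
    {a : Site} {ω ω' : Cfg} (h : ω ≤ ω') (h1 : Ev41 l m 𝒲 a ω') : Ev41 l m 𝒲 a ω := by
  obtain ⟨W, hW, h2⟩ := h1
  refine ⟨W, hW, fun p hp => ?_⟩
  have h3 := h2 p hp
  rw [above_iff (confs41 (glue_mem _ _ _)) hl hm] at h3 ⊢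
  obtain ⟨y, hy, h4⟩ := h3
  refine ⟨y, hy, low_anti ?_ h4⟩
  intro i
  by_cases hi : i ∈ ubox l m
  · rw [glue_in _ _ hi, glue_in _ _ hi]
    exact h _
  · rw [glue_out _ _ hi, glue_out _ _ hi]

private theorem ev_loc41 {l m : ℤ} {𝒲 : Finset (Finset (ℤ × ℤ))} {a : Site} {ω ω' : Cfg}
    (h : ∀ i ∈ tr a (ubox l m), ω i = ω' i) : Ev41 l m 𝒲 a ω ↔ Ev41 l m 𝒲 a ω' := by
  have e : glue (ubox l m) (shift (-a) ω) (eta 0) = glue (ubox l m) (shift (-a) ω') (eta 0) := by
    funext i
    by_cases hi : i ∈ ubox l m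
    · rw [glue_in _ _ hi, glue_in _ _ hi]
      refine h _ ?_
      rw [mem_tr]
      have : i - -a - a = i := by abel
      rw [this]
      exact hi
    · rw [glue_out _ _ hi, glue_out _ _ hi]
  unfold Ev41
  rw [e]

/-- the frame -/
private theorem mem_frame41 {N M c l H m : ℤ} {i : Site} : i ∈ frame N M c l H m ↔ i ∈ box N M ∧
    ((|i.1 - c| = l + 1 ∧ H ≤ i.2 ∧ i.2 ≤ H + m) ∨ (|i.1 - c| ≤ l + 1 ∧ i.2 = H + m)) :=
  Finset.mem_filter

/-- The conditional probability. -/
private theorem condb41 {β : ℝ} (hβ : 0 ≤ β) {N M c l H m : ℤ} {𝒲 : Finset (Finset (ℤ × ℤ))}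
    (hl : 0 ≤ l) (hm : 1 ≤ m) (hH : 1 ≤ H) {ω : Cfg} (hω : ω ∈ confs (box N M) (eta 0))
    (hC : ∀ i ∈ frame N M c l H m, ω i = true) :
    avg β (kap 1) (tr (c, H - 1) (ubox l m)) ω (fun ξ => if Ev41 l m 𝒲 (c, H - 1) ξ then 1 else 0) ≤
      avg β (kap 1) (ubox l m) (eta 0) (fun ω => if Hts l 𝒲 ω then 1 else 0) := by
  set a : Site := (c, H - 1) with ha
  set g : Cfg → ℝ := fun ξ => if Ev41 l m 𝒲 a ξ then 1 else 0 with hg
  have hmono : Monotone fun ξ => 1 - g ξ := by
    intro ξ ξ' h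
    show 1 - g ξ ≤ 1 - g ξ'
    have h1 : Ev41 l m 𝒲 a ξ' → Ev41 l m 𝒲 a ξ := ev_anti41 hl hm h
    simp only [hg]
    by_cases h2 : Ev41 l m 𝒲 a ξ'
    · rw [if_pos h2, if_pos (h1 h2)]
    · rw [if_neg h2]
      split_ifs <;> norm_num
  have hloc : Loc (tr a (ubox l m)) fun ξ => 1 - g ξ := by
    intro ξ ξ' h
    have h1 := ev_loc41 (𝒲 := 𝒲) h
    simp only [hg, h1]
  have s2 : avg β (kap 1) (tr a (ubox l m)) (shift a (eta 0)) (fun ξ => 1 - g ξ) ≤
      avg β (kap 1) (tr a (ubox l m)) ω (fun ξ => 1 - g ξ) := by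
    refine avg_bdry hβ (kap_nonneg zero_le_one) (fun i hi hadj => ?_) hmono hloc
    by_cases h2 : i.2 ≤ H - 1
    · have h3 : shift a (eta 0) i = false := by
        simp only [shift, eta, decide_eq_false_iff_not, ha, Prod.snd_sub]
        omega
      rw [h3]
      exact Bool.false_le _
    · have h3 : ω i = true := by
        by_cases hb : i ∈ box N M
        · refine hC i (mem_frame41.2 ⟨hb, ?_⟩)
          rw [mem_blk41] at hi
          rcases hadj with h | h | h | h <;> rw [mem_blk41] at h <;>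
            simp only [e1, e2, Prod.fst_add, Prod.snd_add, Prod.fst_sub, Prod.snd_sub] at h
          · left
            refine ⟨?_, by omega, by omega⟩
            rw [abs_of_nonpos (by omega)]
            omega
          · left
            refine ⟨?_, by omega, by omega⟩
            rw [abs_of_nonneg (by omega)]
            omega
          · exfalso
            omega
          · right
            refine ⟨?_, by omega⟩
            rw [abs_le]
            omega
        · rw [mem_confs] at hω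
          rw [hω i hb]
          unfold eta
          rw [decide_eq_true_eq]
          omega
      rw [h3]
      exact Bool.le_true _
  have s3 : avg β (kap 1) (tr a (ubox l m)) (shift a (eta 0)) g =
      avg β (kap 1) (ubox l m) (eta 0) (fun ω => if Hts l 𝒲 ω then 1 else 0) := by
    rw [avg_tr, kap_one_shift]
    refine avg_congr fun ξ hξ => ?_
    have e : glue (ubox l m) (shift (-a) (shift a ξ)) (eta 0) = ξ := by
      rw [shift_shift']
      rw [mem_confs] at hξ
      funext i
      by_cases hi : i ∈ ubox l m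
      · rw [glue_in _ _ hi]
      · rw [glue_out _ _ hi, hξ i hi]
    have e2 : Ev41 l m 𝒲 a (shift a ξ) ↔ Hts l 𝒲 ξ := by
      unfold Ev41
      rw [e]
    simp only [hg]
    by_cases h : Hts l 𝒲 ξ
    · rw [if_pos h, if_pos (e2.2 h)]
    · rw [if_neg h, if_neg fun h3 => h (e2.1 h3)]
  have s4 : ∀ η : Cfg, avg β (kap 1) (tr a (ubox l m)) η (fun ξ => 1 - g ξ) =
      1 - avg β (kap 1) (tr a (ubox l m)) η g := by
    intro η
    have := avg_sub (β := β) (κ := kap 1) (Λ := tr a (ubox l m)) (η := η) (fun _ => 1) g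
    rw [avg_const] at this
    exact this
  rw [s4, s4] at s2
  rw [← s3]
  linarith

/-- the explored set enters the block -/
private def Pv41 (𝒲 : Finset (Finset (ℤ × ℤ))) (l m H : ℤ) (B : Finset Site) : Prop :=
  ∃ W ∈ 𝒲, ∀ p ∈ W, ∃ y : ℤ, p.2 + (H - 1) ≤ y ∧
    ((p.1, y) : Site) ∈ tr (0, H - 1) (ubox l m) ∧ ((p.1, y) : Site) ∈ B

theorem block_wall {β : ℝ} (hβ : 0 ≤ β) {N l H : ℤ} (hl : 0 ≤ l) (hlN : l ≤ N) (hH : 1 ≤ H)
    (hHN : H ≤ N) (𝒲 : Finset (Finset (ℤ × ℤ))) (h𝒲 : ∀ W ∈ 𝒲, ∀ p ∈ W, |p.1| ≤ l ∧ 1 ≤ p.2) :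
    PW β N (fun ω => ¬ Above N (-l - 1) H ω ∧ ¬ Above N (l + 1) H ω ∧ Hs N (H - 1) 𝒲 ω) ≤
      avg β (kap 1) (ubox l (N - H + 1)) (eta 0) (fun ω => if Hts l 𝒲 ω then 1 else 0) := by
  have hN : 0 ≤ N := by omega
  have hM : 1 ≤ N := by omega
  obtain ⟨m, hmdef⟩ : ∃ m : ℤ, m = N - H + 1 := ⟨_, rfl⟩
  rw [← hmdef]
  have hm : 1 ≤ m := by omega
  have hHM : H - 1 + m ≤ N := by omega
  have hc : |(0 : ℤ)| + l ≤ N := by rw [abs_zero]; omega
  set a : Site := (0, H - 1) with ha
  set C := frame N N 0 l H m with hCdef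
  have hCb : C ⊆ ubox N N := by
    intro i hi
    rw [hCdef, mem_frame41] at hi
    obtain ⟨h1, h2⟩ := hi
    rw [mem_box] at h1
    rw [mem_ubox]
    rcases h2 with h2 | h2
    · omega
    · omega
  set f : Cfg → ℝ := fun ω => if ∀ i ∈ C, ω i = true then 1 else 0 with hf
  set g : Cfg → ℝ := fun ξ => if Ev41 l m 𝒲 a ξ then 1 else 0 with hg
  set R : ℝ := avg β (kap 1) (ubox l m) (eta 0) (fun ω => if Hts l 𝒲 ω then 1 else 0) with hR
  have hf0 : ∀ ω, 0 ≤ f ω := fun ω => by
    simp only [hf]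
    split_ifs <;> norm_num
  -- the event is contained in the event of `expl_wall`
  have s1 : PW β N (fun ω => ¬ Above N (-l - 1) H ω ∧ ¬ Above N (l + 1) H ω ∧ Hs N (H - 1) 𝒲 ω) ≤
      avg β (kap 1) (ubox N N) (eta 0)
        (fun ω => if (∀ i ∈ C, ¬ Low N N ω i) ∧ Pv41 𝒲 l m H (Bs N N ω) then 1 else 0) := by
    unfold PW
    refine avg_mono fun ω hω' => ?_
    beta_reduce
    have hω := confs41 hω'
    by_cases h : ¬ Above N (-l - 1) H ω ∧ ¬ Above N (l + 1) H ω ∧ Hs N (H - 1) 𝒲 ω
    · obtain ⟨h1, h2, W, hW, h4⟩ := id h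
      rw [above_iff hω hN hM] at h1 h2
      push Not at h1 h2
      have k1 : ∀ i ∈ C, ¬ Low N N ω i := by
        rintro ⟨u, v⟩ hi
        rw [hCdef, mem_frame41] at hi
        simp only at hi
        obtain ⟨hb, hi⟩ := hi
        rw [mem_box] at hb
        simp only at hb
        have hu1 : |u - 0| = l + 1 := by omega
        have hv : H ≤ v := by omega
        rcases abs_cases (u - 0) with ⟨h5, _⟩ | ⟨h5, _⟩
        · have hu2 : u = l + 1 := by omega
          rw [hu2]
          exact h2 v hv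
        · have hu2 : u = -l - 1 := by omega
          rw [hu2]
          exact h1 v hv
      have k2 : Pv41 𝒲 l m H (Bs N N ω) := by
        refine ⟨W, hW, fun p hp => ?_⟩
        have h5 := h4 p hp
        rw [above_iff hω hN hM] at h5
        obtain ⟨y, hy, hL⟩ := h5
        obtain ⟨hp1, hp2⟩ := h𝒲 W hW p hp
        have hpp := abs_le.1 hp1
        rcases low_iff.1 hL with h6 | h6
        · refine ⟨y, hy, ?_, h6⟩
          have h7 := mem_box.1 (Finset.mem_filter.1 h6).1
          simp only at h7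
          rw [mem_blk41]
          simp only
          omega
        · simp only at h6
          omega
      rw [if_pos h, if_pos ⟨k1, k2⟩]
    · rw [if_neg h]
      split_ifs <;> norm_num
  have s2 := expl_wall hβ hCb (Pv41 𝒲 l m H)
  have s3 : avg β (kap 1) (ubox N N) (eta 0)
        (fun ω => if (∀ i ∈ C, ω i = true) ∧ Pv41 𝒲 l m H (Bs N N ω) then 1 else 0) ≤
      avg β (kap 1) (ubox N N) (eta 0) (fun ω => f ω * g ω) := by
    refine avg_mono fun ω hω' => ?_
    have hω := confs41 hω'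
    by_cases h : (∀ i ∈ C, ω i = true) ∧ Pv41 𝒲 l m H (Bs N N ω)
    · obtain ⟨h1, W, hW, h2⟩ := id h
      have h5 : Ev41 l m 𝒲 a ω := by
        refine ⟨W, hW, fun p hp => ?_⟩
        obtain ⟨y, hy, h3, h4⟩ := h2 p hp
        have hL : Low N N ω (p.1, y) := (Finset.mem_filter.1 h4).2
        have h6 := enter hω hl hm hH hHM hc h1 h3 hL
        rw [above_iff (confs41 (glue_mem _ _ _)) hl hm]
        refine ⟨y - (H - 1), by omega, ?_⟩
        have e : ((p.1, y) : Site) - (0, H - 1) = (p.1, y - (H - 1)) := by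
          ext <;> simp
        rw [e] at h6
        exact h6
      simp only [hf, hg]
      rw [if_pos h, if_pos h1, if_pos h5, one_mul]
    · rw [if_neg h]
      refine mul_nonneg (hf0 ω) ?_
      simp only [hg]
      split_ifs <;> norm_num
  have hsub : tr a (ubox l m) ⊆ ubox N N := by
    intro i hi
    rw [ha, mem_blk41] at hi
    rw [mem_ubox]
    omega
  have hfc : ∀ ω ξ : Cfg, ξ ∈ confs (tr a (ubox l m)) ω → f ξ = f ω := by
    intro ω ξ hξ
    rw [mem_confs] at hξ
    have h1 : (∀ i ∈ C, ξ i = true) ↔ ∀ i ∈ C, ω i = true := by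
      refine forall_congr' fun i => forall_congr' fun hi => ?_
      rw [hξ i]
      intro h2
      rw [ha, mem_blk41] at h2
      rw [hCdef, mem_frame41] at hi
      rcases hi with ⟨-, h3 | h3⟩
      · have h4 : |i.1 - 0| ≤ l := by
          rw [abs_le]
          omega
        omega
      · omega
    simp only [hf, h1]
  have s4 : Zg β (kap 1) (ubox N N) (eta 0) (fun ω => f ω * g ω) ≤
      R * Zg β (kap 1) (ubox N N) (eta 0) f := by
    refine Zg_cond_le hsub f g hfc hf0 R fun ω hω h1 => ?_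
    refine condb41 hβ hl hm hH (confs41 hω) ?_
    by_contra hcon
    exact h1 (if_neg hcon)
  have hpos : 0 < Zg β (kap 1) (ubox N N) (eta 0) (fun _ => 1) := Zg_one_pos
  have s5 : avg β (kap 1) (ubox N N) (eta 0) (fun ω => f ω * g ω) ≤
      R * avg β (kap 1) (ubox N N) (eta 0) f := by
    unfold avg
    rw [mul_div_assoc']
    exact div_le_div_of_nonneg_right s4 hpos.le
  have s6 : 0 < avg β (kap 1) (ubox N N) (eta 0) f := by
    refine div_pos ?_ hpos
    have h1 : glue (ubox N N) tt (eta 0) ∈ confs (ubox N N) (eta 0) := glue_mem _ _ _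
    have h2 : f (glue (ubox N N) tt (eta 0)) = 1 := by
      simp only [hf]
      refine if_pos fun i hi => ?_
      rw [glue_in _ _ (hCb hi)]
      rfl
    have h3 := Finset.single_le_sum
      (f := fun ω => wg β (kap 1) (ubox N N) ω * f ω)
      (fun ω _ => mul_nonneg (wg_pos β (kap 1) (ubox N N) ω).le (hf0 ω)) h1
    have h4 : 0 < wg β (kap 1) (ubox N N) (glue (ubox N N) tt (eta 0)) := wg_pos _ _ _ _
    rw [h2, mul_one] at h3
    exact h4.trans_le h3
  have s7 := mul_le_mul_of_nonneg_right s1 s6.le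
  exact le_of_mul_le_mul_right (s7.trans (s2.trans (s3.trans s5))) s6

end Pool.Agent.Helper49.DX
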