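import Pool.Agent.Helper49.DX.Sys

/-!
Relations between the constants.
-/

open Finset

namespace Pool.Agent.Helper49.DX

open Pool.Agent.Helper49.DL

section

variable {t : ℝ}

lemma t_lt_one (ht : 0 < t) (hq : t ^ 2 + 2 * t < 1) : t < 1 := by nlinarith

lemma t_lt_half (ht : 0 < t) (hq : t ^ 2 + 2 * t < 1) : t < 1 / 2 := by nlinarith

lemma lam_pos (ht : 0 < t) (ht1 : t < 1) : 0 < lam t := by
  unfold lam
  have : 0 < 1 - t := by linarith
  positivity

lemma lam_lt_one (ht : 0 < t) (hq : t ^ 2 + 2 * t < 1) : lam t < 1 := by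
  have h1 := t_lt_one ht hq
  unfold lam
  rw [div_lt_one (by linarith)]
  nlinarith

/-- `λ = t + 2 t² / (1 - t)`. -/
lemma lam_eq (ht1 : t < 1) : lam t = t + 2 * t ^ 2 / (1 - t) := by
  unfold lam
  have : 1 - t ≠ 0 := by linarith
  field_simp
  ring

lemma A2_eq (ht : 0 < t) (ht1 : t < 1) : A2 t = 1 / lam t + lam t + 2 := by
  unfold A2 lam
  have h1 : 1 - t ≠ 0 := by linarith
  have h2 : 1 + t ≠ 0 := by linarith
  have h3 : 1 - t ^ 2 ≠ 0 := by nlinarith
  have h4 : t ≠ 0 := ht.ne'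
  have h5 : 1 - t ^ 2 = (1 - t) * (1 + t) := by ring
  rw [h5]
  field_simp
  ring

lemma A2_gt (ht : 0 < t) (hq : t ^ 2 + 2 * t < 1) : 4 < A2 t := by
  have h1 := lam_pos ht (t_lt_one ht hq)
  have h2 := lam_lt_one ht hq
  rw [A2_eq ht (t_lt_one ht hq)]
  have h3 : 1 / lam t + lam t - 2 = (1 - lam t) ^ 2 / lam t := by field_simp; ring
  have h4 : 0 < (1 - lam t) ^ 2 / lam t := by
    apply div_pos _ h1
    have : 0 < 1 - lam t := by linarith
    positivity
  linarith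

lemma chh_pos (ht : 0 < t) (ht1 : t < 1) : 0 < chh t := by
  unfold chh
  have : 0 < 1 - t ^ 2 := by nlinarith
  positivity

lemma shh_pos (ht : 0 < t) (ht1 : t < 1) : 0 < shh t := by
  unfold shh
  have : 0 < 1 - t ^ 2 := by nlinarith
  positivity

/-- `ch - sh = (1 - t) / (1 + t)`. -/
lemma ch_sub_sh (ht : 0 < t) (ht1 : t < 1) : chh t - shh t = (1 - t) / (1 + t) := by
  unfold chh shh
  have h1 : 1 - t ≠ 0 := by linarith
  have h2 : 1 + t ≠ 0 := by linarith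
  have h5 : 1 - t ^ 2 = (1 - t) * (1 + t) := by ring
  rw [h5]
  field_simp
  ring

/-- `ch - sh = t / λ`. -/
lemma ch_sub_sh' (ht : 0 < t) (ht1 : t < 1) : chh t - shh t = t / lam t := by
  rw [ch_sub_sh ht ht1]
  unfold lam
  have h1 : 1 - t ≠ 0 := by linarith
  have h2 : 1 + t ≠ 0 := by linarith
  have h4 : t ≠ 0 := ht.ne'
  field_simp

/-- `ch > sh + t`. -/
lemma ch_gt (ht : 0 < t) (hq : t ^ 2 + 2 * t < 1) : shh t + t < chh t := by
  have h1 := t_lt_one ht hq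
  have h2 := ch_sub_sh ht h1
  have h3 : t < (1 - t) / (1 + t) := by
    rw [lt_div_iff₀ (by linarith)]
    nlinarith
  linarith

/-- `ch - 1 = t sh`. -/
lemma ch_sub_one (ht : 0 < t) (ht1 : t < 1) : chh t - 1 = t * shh t := by
  unfold chh shh
  have h3 : 1 - t ^ 2 ≠ 0 := by nlinarith
  field_simp
  ring

/-- `ch - 1 ≤ 2 t² / (1 - t)`. -/
lemma ch_sub_one_le (ht : 0 < t) (ht1 : t < 1) : chh t - 1 ≤ 2 * t ^ 2 / (1 - t) := by
  unfold chh
  have h1 : 0 < 1 - t := by linarith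
  have h3 : 0 < 1 - t ^ 2 := by nlinarith
  have h4 : (1 + t ^ 2) / (1 - t ^ 2) - 1 = 2 * t ^ 2 / (1 - t ^ 2) := by
    field_simp
    ring
  rw [h4]
  apply div_le_div_of_nonneg_left (by positivity) h1
  nlinarith

/-- `ch t > sh² / 2`. -/
lemma ch_t_gt (ht : 0 < t) (hq : t ^ 2 + 2 * t < 1) : shh t ^ 2 / 2 < chh t * t := by
  have h1 := t_lt_one ht hq
  have h2 := t_lt_half ht hq
  have h3 : 0 < 1 - t ^ 2 := by nlinarith
  have h4 : chh t * t - shh t ^ 2 / 2 = t * (1 - 2 * t - t ^ 4) / (1 - t ^ 2) ^ 2 := by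
    unfold chh shh
    field_simp
    ring
  have h5 : 0 < 1 - 2 * t - t ^ 4 := by
    have h7 : t ^ 2 < 1 := by linarith
    have h8 := mul_lt_mul_of_pos_left h7 (pow_pos ht 2)
    have h9 : t ^ 2 * t ^ 2 = t ^ 4 := by ring
    linarith
  have h6 : 0 < t * (1 - 2 * t - t ^ 4) / (1 - t ^ 2) ^ 2 := by positivity
  linarith

/-- `ch ≥ sh cosh τ + t`, `e^{-τ} = λ`. -/
lemma ch_ge_cosh (ht : 0 < t) (hq : t ^ 2 + 2 * t < 1) :
    shh t * ((lam t + 1 / lam t) / 2) + t ≤ chh t := by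
  have h1 := t_lt_one ht hq
  have h3 : 0 < 1 - t ^ 2 := by nlinarith
  have h4 : chh t - (shh t * ((lam t + 1 / lam t) / 2) + t) =
      t * (1 + t ^ 2) * (1 - 2 * t - t ^ 2) / (1 - t ^ 2) ^ 2 := by
    unfold chh shh lam
    have h1' : 1 - t ≠ 0 := by linarith
    have h2' : 1 + t ≠ 0 := by linarith
    have h5 : 1 - t ^ 2 = (1 - t) * (1 + t) := by ring
    rw [h5]
    have h6 : t ≠ 0 := ht.ne'
    field_simp
    ring
  have h5 : 0 < 1 - 2 * t - t ^ 2 := by linarith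
  have h6 : 0 < t * (1 + t ^ 2) * (1 - 2 * t - t ^ 2) / (1 - t ^ 2) ^ 2 := by positivity
  linarith

lemma shh_ge (ht : 0 < t) (ht1 : t < 1) : 2 * t ≤ shh t := by
  unfold shh
  have h3 : 0 < 1 - t ^ 2 := by nlinarith
  rw [le_div_iff₀ h3]
  nlinarith [pow_pos ht 3]

variable {td : ℝ}

lemma mu_nonneg (htd : 0 < td) (htt : td ≤ t) : 0 ≤ mu t td := by
  unfold mu
  have := one_div_le_one_div_of_le htd htt
  linarith

lemma zet_eq (ht : 0 < t) : zet t td = 1 + t * mu t td := by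
  unfold zet mu
  field_simp
  ring

lemma zet_ge_one (ht : 0 < t) (htd : 0 < td) (htt : td ≤ t) : 1 ≤ zet t td := by
  unfold zet
  rw [le_div_iff₀ htd]
  linarith

lemma the_ge_one (ht : 0 < t) (ht1 : t < 1) (htd : 0 < td) (htt : td ≤ t) : 1 ≤ the t td := by
  unfold the
  have h1 := mu_nonneg htd htt
  have h2 := (shh_pos ht ht1).le
  have : 0 ≤ mu t td * shh t / 2 := by positivity
  linarith

/-- `ζ ≤ θ`. -/
lemma zet_le_the (ht : 0 < t) (ht1 : t < 1) (htd : 0 < td) (htt : td ≤ t) :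
    zet t td ≤ the t td := by
  rw [zet_eq ht]
  unfold the
  have h1 := mu_nonneg htd htt
  have h2 := shh_ge ht ht1
  nlinarith

lemma xs_self (t : ℝ) (m : ℕ) : xs t t m = fun _ => t := by
  funext j
  unfold xs
  split_ifs <;> rfl

end

end Pool.Agent.Helper49.DX
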