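import Pool.Agent.Helper49.DX.HT
import Pool.Agent.Helper49.DX.Cst
import Pool.Agent.Helper49.DL.Win2

/-!
The dual graph of a box: two-point functions, rectangles. Definitions and the first lemmas.
-/

open Finset
open scoped Classical

namespace Pool.Agent.Helper49.DX

open Pool.Agent.Helper49.DL

/-- Two-point function of the dual model in the box. -/
noncomputable def G2 (β J : ℝ) (N M : ℤ) (a b : PV (box N M)) : ℝ :=
  ZG (dA (Λ := box N M)) (xe β (kap J)) (pr a b) / ZG (dA (Λ := box N M)) (xe β (kap J)) ∅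

/-- The plaquettes of the columns `c0, ..., c0 + L` and of the rows `r0, ..., r0 + n - 1`. -/
noncomputable def Rect (N M c0 : ℤ) (L : ℕ) (r0 : ℤ) (n : ℕ) : Finset (PV (box N M)) :=
  Finset.univ.filter (fun p => (c0 ≤ p.1.1 ∧ p.1.1 ≤ c0 + L) ∧ (r0 ≤ p.1.2 ∧ p.1.2 < r0 + n))

/-- Weights of the horizontal edges of the rows `r0, ..., r0 + n - 1`. -/
noncomputable def rw0 (β J : ℝ) (r0 : ℤ) (n : ℕ) : Fin n → ℝ :=
  fun j => if r0 + (j : ℤ) = 0 then Real.exp (-(β * J)) else Real.exp (-β)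

section

variable {N M : ℤ} {β J : ℝ}

/-- The plaquettes of the box. -/
lemma mem_PL_box (hN : 0 ≤ N) (hM : 1 ≤ M) {p : Site} :
    p ∈ PL (box N M) ↔ -N - 1 ≤ p.1 ∧ p.1 ≤ N ∧ -M ≤ p.2 ∧ p.2 ≤ M := by
  refine ⟨PL_box hN hM, fun h => ?_⟩
  obtain ⟨x, y⟩ := p
  simp only at h
  by_cases hy : y = -M
  · have h1 : (x, y + 1) ∈ hb (box N M) := (mem_hb_box hN).2 (by omega)
    have h2 := WI2.dq_mem_PL (Λ := box N M) (Sum.inl ⟨(x, y + 1), h1⟩)
    have h3 : dq (Sum.inl ⟨(x, y + 1), h1⟩ : LB (box N M)) = (x, y) := by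
      simp [dq, e2]
    rwa [h3] at h2
  · have h1 : (x, y) ∈ hb (box N M) := (mem_hb_box hN).2 (by omega)
    exact WI2.dp_mem_PL (Λ := box N M) (Sum.inl ⟨(x, y), h1⟩)

lemma xe_pos (κ : Site → ℝ) (e : LB (box N M)) : 0 < xe β κ e := Real.exp_pos _

lemma lk_kap_nonneg (hJ : 0 ≤ J) (e : LB (box N M)) : 0 ≤ lk (kap J) e :=
  lk_nonneg (fun i => kap_nonneg hJ i) e

lemma xe_le_one (hβ : 0 ≤ β) (hJ : 0 ≤ J) (e : LB (box N M)) : xe β (kap J) e ≤ 1 := by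
  unfold xe
  rw [Real.exp_le_one_iff, neg_nonpos]
  exact mul_nonneg hβ (lk_kap_nonneg hJ e)

lemma ZE_eq_ZG (κ : Site → ℝ) (A : Finset (PV (box N M))) : ZE β κ A = ZG dA (xe β κ) A := by
  unfold ZE ZG
  refine Finset.sum_congr ?_ fun _ _ => rfl
  ext F
  rw [Finset.mem_filter, Finset.mem_filter]
  exact Iff.rfl

lemma G2_self (a : PV (box N M)) : G2 β J N M a a = 1 := by
  unfold G2
  rw [pr_self, div_self (ZG_pos fun e => (xe_pos (kap J) e).le).ne']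

lemma G2_comm (a b : PV (box N M)) : G2 β J N M a b = G2 β J N M b a := by
  unfold G2; rw [pr_comm]

lemma G2_nonneg (a b : PV (box N M)) : 0 ≤ G2 β J N M a b :=
  div_nonneg (ZG_nonneg (fun e => (xe_pos (kap J) e).le) _)
    (ZG_nonneg (fun e => (xe_pos (kap J) e).le) _)

lemma G2_eq_D2 {a b : PV (box N M)} (h : a ≠ b) : G2 β J N M a b = D2 β J N M a b := by
  unfold G2 D2
  rw [pr_ne h, ZE_eq_ZG, ZE_eq_ZG]

/-- Exponential decay. -/
lemma G2_decay {β₁ : ℝ} (h0 : 0 ≤ β₁) (h : β₁ ≤ β) (hJ : 1 ≤ J) (hN : 0 ≤ N) (hM : 1 ≤ M)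
    (a b : PV (box N M)) : G2 β J N M a b ≤
      Real.exp (-((β - β₁) * mag β₁ ^ 2 * (max |a.1.1 - b.1.1| |a.1.2 - b.1.2| : ℤ))) := by
  by_cases hab : a = b
  · subst hab
    rw [G2_self]
    simp
  · rw [G2_eq_D2 hab]
    exact two_decay h0 h hJ hN hM hab

lemma G2_le_one (hβ : 0 ≤ β) (hJ : 1 ≤ J) (hN : 0 ≤ N) (hM : 1 ≤ M) (a b : PV (box N M)) :
    G2 β J N M a b ≤ 1 := by
  refine (G2_decay hβ le_rfl hJ hN hM a b).trans ?_
  rw [sub_self, zero_mul, zero_mul, neg_zero, Real.exp_zero]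

/-- In the strip of all rows the weights are those of `xs`. -/
lemma rw0_eq (m : ℕ) : rw0 β J (-(m : ℤ)) (2 * m + 1) =
    xs (Real.exp (-β)) (Real.exp (-(β * J))) m := by
  funext j
  unfold rw0 xs
  by_cases h : (j : ℕ) = m
  · rw [if_pos h, if_pos (by omega)]
  · rw [if_neg h, if_neg (by omega)]

end

end Pool.Agent.Helper49.DX
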