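import Pool.Agent.Helper49.DX.Strip

/-!
Block DX-CL1: commutation of the fermion operators with the column weight.

Paper proof. For a bond `(j, j + 1)` of the column put `b = 1 + t s_j s_{j+1}` (multiplication operator).
`wc t = ∏ b`. It suffices to commute `xi_i`, `ze_i` with the product `w = wc t`:
* `xi_i (w Φ) (c) = s_i w (flt i c) Φ (flt i c)`, and `w (flt i c)` differs from `w c` only in the bond
  `(i - 1, i)` (if `0 < i`): there the factor is `1 - t s_{i-1} s_i` instead of `1 + t s_{i-1} s_i`; since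
  `(1 - t s s') = (1 + t s s') * (ch - sh s s')`, `ch = (1 + t²)/(1 - t²)`, `sh = 2 t/(1 - t²)`
  (`s s' = ±1`), `xi_i (w Φ) = w * (ch * xi_i Φ - sh * s_{i-1} s_i xi_i Φ)`, and
  `s_{i-1} s_i (xi_i Φ) (c) = s_{i-1} Φ (flt i c) = (ze_{i-1} Φ) (c)` (`flt i = fle (i - 1)`). So
  `xi_i W = W (ch xi_i - sh ze_{i-1})` for `0 < i`, `xi_0 W = W xi_0`.
* in the same way `ze_i (w Φ)`: `w (fle i c)` differs from `w c` in the bond `(i, i + 1)`:
  `ze_i W = W (ch ze_i - sh xi_{i+1})` for `i + 1 < n` (`s_i s_{i+1} (ze_i Φ)(c) = s_{i+1} Φ (fle i c) =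
  (xi_{i+1} Φ)(c)`), `ze_{n-1} W = W ze_{n-1}`.
Now `cr = (xi + ze)/2`, `an = (xi - ze)/2`, `xi = cr + an`, `ze = cr - an`; collect coefficients (this gives
`wp`, `wq`; the formulas have been checked numerically).
-/

open Finset

namespace Pool.Agent.Helper49.DX

open Pool.Agent.Helper49.DL

variable {n : ℕ}

private lemma cl1_sp_sq (b : Bool) : sp b * sp b = 1 := sp_mul_self b

/-- The change of one bond weight. -/
private lemma cl1_bond {t : ℝ} (ht : 0 < t) (ht1 : t < 1) (a b : Bool) :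
    1 + t * (-sp a * sp b) = (1 + t * (sp a * sp b)) * (chh t - shh t * (sp a * sp b)) := by
  have h1 : (1 - t ^ 2 : ℝ) ≠ 0 := by nlinarith
  unfold chh shh
  cases a <;> cases b <;> simp only [sp_true, sp_false] <;> field_simp <;> ring

/-- Effect of the flip below `i` on the column weight. -/
private lemma cl1_wc_flt {t : ℝ} (ht : 0 < t) (ht1 : t < 1) (i : Fin n) (hi : 0 < (i : ℕ))
    (c : Col n) :
    wc t (flt i c) = wc t c *
      (chh t - shh t * (sp (c ⟨(i : ℕ) - 1, by omega⟩) * sp (c i))) := by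
  classical
  have hj0 : (⟨(i : ℕ) - 1, by omega⟩ : Fin n) ∈ (Finset.univ : Finset (Fin n)) := mem_univ _
  have key : ∀ j : Fin n,
      (if h : (j : ℕ) + 1 < n then
        1 + t * (sp (flt i c j) * sp (flt i c ⟨(j : ℕ) + 1, h⟩)) else 1)
      = (if h : (j : ℕ) + 1 < n then 1 + t * (sp (c j) * sp (c ⟨(j : ℕ) + 1, h⟩)) else 1) *
        (if j = (⟨(i : ℕ) - 1, by omega⟩ : Fin n) then
          (chh t - shh t * (sp (c ⟨(i : ℕ) - 1, by omega⟩) * sp (c i))) else 1) := by
    intro j
    by_cases h : (j : ℕ) + 1 < n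
    · rw [dif_pos h, dif_pos h]
      by_cases hj : j = (⟨(i : ℕ) - 1, by omega⟩ : Fin n)
      · have hjv : (j : ℕ) = (i : ℕ) - 1 := by
          rw [hj]
        rw [if_pos hj]
        have e : (⟨(j : ℕ) + 1, h⟩ : Fin n) = i := by
          apply Fin.ext; simp; omega
        have e1 : flt i c j = !(c j) := by
          unfold flt
          rw [if_pos]
          rw [Fin.lt_def]; omega
        have e2 : flt i c i = c i := by
          unfold flt
          rw [if_neg (lt_irrefl _)]
        rw [e, e1, e2, sp_not, ← hj]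
        exact cl1_bond ht ht1 _ _
      · rw [if_neg hj, mul_one]
        have hne : (j : ℕ) ≠ (i : ℕ) - 1 := by
          intro h'; exact hj (Fin.ext h')
        rcases lt_or_ge ((j : ℕ) + 1) (i : ℕ) with hlt | hge
        · have e1 : flt i c j = !(c j) := by
            unfold flt
            rw [if_pos]
            rw [Fin.lt_def]; omega
          have e2 : flt i c ⟨(j : ℕ) + 1, h⟩ = !(c ⟨(j : ℕ) + 1, h⟩) := by
            unfold flt
            rw [if_pos]
            rw [Fin.lt_def]; exact hlt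
          rw [e1, e2, sp_not, sp_not]
          ring
        · have e1 : flt i c j = c j := by
            unfold flt
            rw [if_neg]
            rw [Fin.lt_def]; omega
          have e2 : flt i c ⟨(j : ℕ) + 1, h⟩ = c ⟨(j : ℕ) + 1, h⟩ := by
            unfold flt
            rw [if_neg]
            rw [Fin.lt_def]; simp; omega
          rw [e1, e2]
    · rw [dif_neg h, dif_neg h, one_mul, if_neg]
      intro h'
      apply h
      rw [h']
      simp; omega
  unfold wc
  rw [Finset.prod_congr rfl (fun j _ => key j), Finset.prod_mul_distrib, Finset.prod_ite_eq',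
    if_pos hj0]

private lemma cl1_flt_zero (i : Fin n) (hi : ¬ 0 < (i : ℕ)) (c : Col n) : flt i c = c := by
  funext j
  unfold flt
  rw [if_neg]
  rw [Fin.lt_def]; omega

private lemma cl1_fle_eq (i : Fin n) (hi : (i : ℕ) + 1 < n) (c : Col n) :
    fle i c = flt ⟨(i : ℕ) + 1, hi⟩ c := by
  funext j
  unfold flt fle
  by_cases h : j ≤ i
  · rw [if_pos h, if_pos]
    rw [Fin.lt_def]; rw [Fin.le_def] at h; simp; omega
  · rw [if_neg h, if_neg]
    rw [Fin.lt_def]; rw [Fin.le_def] at h; simp; omega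

private lemma cl1_flt_eq (i : Fin n) (hi : 0 < (i : ℕ)) (c : Col n) :
    flt i c = fle ⟨(i : ℕ) - 1, by omega⟩ c := by
  rw [cl1_fle_eq _ (by simp; omega)]
  congr 1
  apply Fin.ext; simp; omega

private lemma cl1_wc_last {t : ℝ} (i : Fin n) (hi : ¬ (i : ℕ) + 1 < n) (c : Col n) :
    wc t (fle i c) = wc t c := by
  have hall : ∀ j : Fin n, fle i c j = !(c j) := by
    intro j
    unfold fle
    rw [if_pos]
    rw [Fin.le_def]; omega
  unfold wc
  apply Finset.prod_congr rfl
  intro j _
  by_cases h : (j : ℕ) + 1 < n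
  · rw [dif_pos h, dif_pos h, hall, hall, sp_not, sp_not]
    ring
  · rw [dif_neg h, dif_neg h]

private lemma cl1_xi {t : ℝ} (ht : 0 < t) (ht1 : t < 1) (i : Fin n) (Φ : Col n → ℝ) (s : Col n) :
    xi i (Wm t Φ) s = wc t s * ((1 + lo i * (chh t - 1)) * xi i Φ s -
      shh t * pv (fun j => ze j Φ s) i) := by
  by_cases hi : 0 < (i : ℕ)
  · unfold xi Wm lo pv
    simp only [if_pos hi]
    rw [cl1_wc_flt ht ht1 i hi]
    unfold ze
    rw [← cl1_flt_eq i hi]
    have h1 := cl1_sp_sq (s i)
    linear_combination (-(wc t s) * shh t * sp (s ⟨(i : ℕ) - 1, by omega⟩) * Φ (flt i s)) * h1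
  · unfold xi Wm lo pv
    simp only [if_neg hi]
    rw [cl1_flt_zero i hi]
    ring

private lemma cl1_ze {t : ℝ} (ht : 0 < t) (ht1 : t < 1) (i : Fin n) (Φ : Col n → ℝ) (s : Col n) :
    ze i (Wm t Φ) s = wc t s * ((1 + up i * (chh t - 1)) * ze i Φ s -
      shh t * nx (fun j => xi j Φ s) i) := by
  by_cases hi : (i : ℕ) + 1 < n
  · unfold ze Wm up nx
    simp only [if_pos hi, dif_pos hi]
    rw [cl1_fle_eq i hi, cl1_wc_flt ht ht1 ⟨(i : ℕ) + 1, hi⟩ (by simp)]
    unfold xi
    have e : (⟨((⟨(i : ℕ) + 1, hi⟩ : Fin n) : ℕ) - 1, by simp⟩ : Fin n) = i := by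
      apply Fin.ext; simp
    rw [e]
    have h1 := cl1_sp_sq (s i)
    linear_combination
      (-(wc t s) * shh t * sp (s ⟨(i : ℕ) + 1, hi⟩) * Φ (flt ⟨(i : ℕ) + 1, hi⟩ s)) * h1
  · unfold ze Wm up nx
    simp only [if_neg hi, dif_neg hi]
    rw [cl1_wc_last i hi]
    ring

/-- `pv` and `nx` are adjoint. -/
private lemma cl1_adj (a z : Fin n → ℝ) : ∑ j, a j * pv z j = ∑ j, nx a j * z j := by
  cases n with
  | zero => simp
  | succ m =>
    rw [Fin.sum_univ_succ, Fin.sum_univ_castSucc]
    have h0 : pv z 0 = 0 := by simp [pv]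
    have h1 : nx a (Fin.last m) = 0 := by simp [nx]
    rw [h0, h1, mul_zero, zero_mul, zero_add, add_zero]
    apply Finset.sum_congr rfl
    intro j _
    have e1 : pv z j.succ = z j.castSucc := by
      unfold pv
      rw [if_pos (by simp)]
      congr 1
    have e2 : nx a j.castSucc = a j.succ := by
      unfold nx
      rw [dif_pos (by simp)]
      congr 1
    rw [e1, e2]

theorem opp_Wm {t : ℝ} (ht : 0 < t) (ht1 : t < 1) (c d : Fin n → ℝ) (Φ : Col n → ℝ) :
    opp c d (Wm t Φ) = Wm t (opp (wp t c d) (wq t c d) Φ) := by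
  funext s
  have hL : opp c d (Wm t Φ) s = wc t s *
      (∑ j, (c j + d j) / 2 * (1 + lo j * (chh t - 1)) * xi j Φ s
        - shh t * ∑ j, (c j + d j) / 2 * pv (fun j => ze j Φ s) j
        + ∑ j, (c j - d j) / 2 * (1 + up j * (chh t - 1)) * ze j Φ s
        - shh t * ∑ j, nx (fun j => xi j Φ s) j * ((c j - d j) / 2)) := by
    unfold opp cr an
    simp only [cl1_xi ht ht1, cl1_ze ht ht1]
    rw [Finset.mul_sum, Finset.mul_sum, ← Finset.sum_sub_distrib, ← Finset.sum_add_distrib,
      ← Finset.sum_sub_distrib, Finset.mul_sum]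
    apply Finset.sum_congr rfl
    intro j _
    ring
  rw [hL, cl1_adj (fun j => (c j + d j) / 2) (fun j => ze j Φ s),
    ← cl1_adj (fun j => xi j Φ s) (fun j => (c j - d j) / 2)]
  unfold Wm opp cr an wp wq
  congr 1
  rw [Finset.mul_sum, Finset.mul_sum, ← Finset.sum_sub_distrib, ← Finset.sum_add_distrib,
      ← Finset.sum_sub_distrib]
  apply Finset.sum_congr rfl
  intro j _
  have hn : nx (fun j => (c j + d j) / 2) j = (nx c j + nx d j) / 2 := by
    unfold nx
    by_cases h : (j : ℕ) + 1 < n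
    · simp only [dif_pos h]
    · simp only [dif_neg h]; ring
  have hp : pv (fun j => (c j - d j) / 2) j = (pv c j - pv d j) / 2 := by
    unfold pv
    by_cases h : 0 < (j : ℕ)
    · simp only [if_pos h]
    · simp only [if_neg h]; ring
  rw [hn, hp]
  ring

end Pool.Agent.Helper49.DX
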