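import Pool.Agent.Helper49.DX.Strip

/-!
Block DX-CL2: commutation of the fermion operators with the transfer `Vm x`.

Paper proof. Let `f_i` be the flip of row `i`, `(f_i Φ) c = Φ (c with row i flipped)`. `Vm x` commutes with
all flips (the kernel is invariant under flipping row `i` of both arguments), and
`Vm x (s_i Φ)`: the kernel is `∏ (1 + x_j s_j s'_j)`; from `(1 + x s s') s' = x s + s' = s (x + s s')` and
`ze_i = xi_i f_i`, with the row `i` part of the kernel `k(s, s') = 1 + x s s'`:
`cr_i = xi_i (1 + f_i)/2`, `an_i = xi_i (1 - f_i)/2`; `(1 ± f_i)/2` is the projection on functions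
even/odd in row `i`, on which the row `i` part of `Vm` acts as multiplication by `2` resp. `2 x_i`
(`∑_{s'} (1 + x s s') = 2`, `∑_{s'} (1 + x s s') s' = 2 x s`). `cr_i` maps even functions of row `i` to odd
ones, so `Vm (cr_i Φ) = x_i cr_i (Vm Φ)`, and `an_i` maps odd to even: `x_i Vm (an_i Φ) = an_i (Vm Φ)`.
Direct verification: write both sides at `c` as sums over `c'`, substitute `c' → flt i c'`
in the string part (rows `< i`, the kernel is invariant), so the claim reduces to an identity for the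
two values of row `i` of `c'` (flip row `i` of `c'` pairs the terms).
-/

open Finset

namespace Pool.Agent.Helper49.DX

open Pool.Agent.Helper49.DL

variable {n : ℕ}

private def K24 (x : Fin n → ℝ) (c c' : Col n) : ℝ := ∏ j, (1 + x j * (sp (c j) * sp (c' j)))

private def R24 (x : Fin n → ℝ) (i : Fin n) (c c' : Col n) : ℝ :=
  ∏ j ∈ univ.erase i, (1 + x j * (sp (c j) * sp (c' j)))

private def fl24 (i : Fin n) (c : Col n) : Col n := Function.update c i (!(c i))

private lemma Vm24 (x : Fin n → ℝ) (Φ : Col n → ℝ) (c : Col n) :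
    Vm x Φ c = ∑ c', K24 x c c' * Φ c' := rfl

private lemma flt_inv24 (i : Fin n) : Function.Involutive (flt i : Col n → Col n) := by
  intro c
  funext j
  unfold flt
  by_cases h : j < i <;> simp [h]

private lemma fl_inv24 (i : Fin n) : Function.Involutive (fl24 i : Col n → Col n) := by
  intro c
  funext j
  unfold fl24
  by_cases h : j = i
  · subst h
    simp
  · simp [h]

private lemma fle24 (i : Fin n) (c : Col n) : fle i c = flt i (fl24 i c) := by
  funext j
  unfold fle flt fl24
  by_cases h : j = i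
  · subst h
    simp
  · by_cases h2 : j < i
    · simp [h, h2, h2.le]
    · have h3 : ¬ j ≤ i := fun h3 => h2 (lt_of_le_of_ne h3 h)
      simp [h, h2, h3]

private lemma K_flt24 (x : Fin n → ℝ) (i : Fin n) (c c' : Col n) :
    K24 x (flt i c) (flt i c') = K24 x c c' := by
  unfold K24
  refine Finset.prod_congr rfl fun j _ => ?_
  unfold flt
  by_cases h : j < i
  · simp only [h, if_true, sp_not]
    ring
  · simp only [h, if_false]

private lemma K_split24 (x : Fin n → ℝ) (i : Fin n) (c c' : Col n) :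
    K24 x c c' = R24 x i c c' * (1 + x i * (sp (c i) * sp (c' i))) := by
  unfold K24 R24
  rw [Finset.prod_erase_mul _ _ (Finset.mem_univ i)]

private lemma R_left24 (x : Fin n → ℝ) (i : Fin n) (c c' : Col n) :
    R24 x i (fl24 i c) c' = R24 x i c c' := by
  unfold R24
  refine Finset.prod_congr rfl fun j hj => ?_
  have h : j ≠ i := Finset.ne_of_mem_erase hj
  unfold fl24
  rw [Function.update_of_ne h]

private lemma R_right24 (x : Fin n → ℝ) (i : Fin n) (c c' : Col n) :
    R24 x i c (fl24 i c') = R24 x i c c' := by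
  unfold R24
  refine Finset.prod_congr rfl fun j hj => ?_
  have h : j ≠ i := Finset.ne_of_mem_erase hj
  unfold fl24
  rw [Function.update_of_ne h]

private lemma sp_fl24 (i : Fin n) (c : Col n) : sp (fl24 i c i) = - sp (c i) := by
  unfold fl24
  rw [Function.update_self, sp_not]

private lemma K_left24 (x : Fin n → ℝ) (i : Fin n) (c c' : Col n) :
    K24 x (fl24 i c) c' = R24 x i c c' * (1 - x i * (sp (c i) * sp (c' i))) := by
  rw [K_split24 x i, R_left24, sp_fl24]
  ring

private lemma K_right24 (x : Fin n → ℝ) (i : Fin n) (c c' : Col n) :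
    K24 x c (fl24 i c') = R24 x i c c' * (1 - x i * (sp (c i) * sp (c' i))) := by
  rw [K_split24 x i, R_right24, sp_fl24]
  ring

private lemma Vm_flt24 (x : Fin n → ℝ) (i : Fin n) (Φ : Col n → ℝ) (c : Col n) :
    Vm x Φ (flt i c) = ∑ c', K24 x c c' * Φ (flt i c') := by
  rw [Vm24, ← Equiv.sum_comp (flt_inv24 i).toPerm]
  refine Finset.sum_congr rfl fun c' _ => ?_
  change K24 x (flt i c) (flt i c') * Φ (flt i c') = _
  rw [K_flt24]

private lemma Vm_fle24 (x : Fin n → ℝ) (i : Fin n) (Φ : Col n → ℝ) (c : Col n) :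
    Vm x Φ (fle i c) = ∑ c', K24 x (fl24 i c) c' * Φ (flt i c') := by
  rw [fle24, Vm_flt24]

private lemma shift24 (x : Fin n → ℝ) (i : Fin n) (Φ : Col n → ℝ) (c : Col n) :
    ∑ c', K24 x c c' * (sp (c' i) * Φ (fle i c')) =
      ∑ c', K24 x c (fl24 i c') * (- sp (c' i) * Φ (flt i c')) := by
  rw [← Equiv.sum_comp (fl_inv24 i).toPerm]
  refine Finset.sum_congr rfl fun c' _ => ?_
  change K24 x c (fl24 i c') * (sp (fl24 i c' i) * Φ (fle i (fl24 i c'))) = _
  rw [sp_fl24, fle24, fl_inv24 i c']

private lemma cr24 (x : Fin n → ℝ) (i : Fin n) (Φ : Col n → ℝ) (c : Col n) :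
    Vm x (cr i Φ) c = x i * cr i (Vm x Φ) c := by
  have h1 : Vm x (cr i Φ) c = (∑ c', K24 x c c' * (sp (c' i) * Φ (flt i c')) +
      ∑ c', K24 x c c' * (sp (c' i) * Φ (fle i c'))) / 2 := by
    rw [Vm24, ← Finset.sum_add_distrib, Finset.sum_div]
    refine Finset.sum_congr rfl fun c' _ => ?_
    unfold cr xi ze
    ring
  have h2 : cr i (Vm x Φ) c = sp (c i) * (∑ c', K24 x c c' * Φ (flt i c') +
      ∑ c', K24 x (fl24 i c) c' * Φ (flt i c')) / 2 := by
    unfold cr xi ze
    rw [Vm_flt24, Vm_fle24]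
    ring
  rw [h1, h2, shift24, ← Finset.sum_add_distrib, ← Finset.sum_add_distrib, Finset.mul_sum,
    Finset.sum_div, Finset.sum_div, Finset.mul_sum]
  refine Finset.sum_congr rfl fun c' _ => ?_
  rw [K_left24, K_right24, K_split24 x i]
  have h := sp_mul_self (c' i)
  linear_combination (x i * sp (c i) * R24 x i c c' * Φ (flt i c')) * h

private lemma an24 (x : Fin n → ℝ) (i : Fin n) (Φ : Col n → ℝ) (c : Col n) :
    x i * Vm x (an i Φ) c = an i (Vm x Φ) c := by
  have h1 : Vm x (an i Φ) c = (∑ c', K24 x c c' * (sp (c' i) * Φ (flt i c')) -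
      ∑ c', K24 x c c' * (sp (c' i) * Φ (fle i c'))) / 2 := by
    rw [Vm24, ← Finset.sum_sub_distrib, Finset.sum_div]
    refine Finset.sum_congr rfl fun c' _ => ?_
    unfold an xi ze
    ring
  have h2 : an i (Vm x Φ) c = sp (c i) * (∑ c', K24 x c c' * Φ (flt i c') -
      ∑ c', K24 x (fl24 i c) c' * Φ (flt i c')) / 2 := by
    unfold an xi ze
    rw [Vm_flt24, Vm_fle24]
    ring
  rw [h1, h2, shift24, ← Finset.sum_sub_distrib, ← Finset.sum_sub_distrib, Finset.mul_sum,
    Finset.sum_div, Finset.sum_div, Finset.mul_sum]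
  refine Finset.sum_congr rfl fun c' _ => ?_
  rw [K_left24, K_right24, K_split24 x i]
  have h := sp_mul_self (c i)
  linear_combination (-(x i * sp (c' i) * R24 x i c c' * Φ (flt i c'))) * h

private lemma Vm_lin24 (x : Fin n → ℝ) (c d : Fin n → ℝ) (Φ : Col n → ℝ) (e : Col n) :
    Vm x (opp c d Φ) e = ∑ j, (c j * Vm x (cr j Φ) e + d j * Vm x (an j Φ) e) := by
  have h1 : ∀ j, c j * Vm x (cr j Φ) e + d j * Vm x (an j Φ) e =
      ∑ c', K24 x e c' * (c j * cr j Φ c' + d j * an j Φ c') := by
    intro j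
    rw [Vm24, Vm24, Finset.mul_sum, Finset.mul_sum, ← Finset.sum_add_distrib]
    refine Finset.sum_congr rfl fun c' _ => ?_
    ring
  simp_rw [h1]
  rw [Finset.sum_comm, Vm24]
  refine Finset.sum_congr rfl fun c' _ => ?_
  unfold opp
  rw [Finset.mul_sum]


theorem opp_Vm {x : Fin n → ℝ} (hx : ∀ j, x j ≠ 0) (c d : Fin n → ℝ) (Φ : Col n → ℝ) :
    opp c d (Vm x Φ) = Vm x (opp (fun j => c j / x j) (fun j => x j * d j) Φ) := by
  funext e
  rw [Vm_lin24]
  unfold opp
  refine Finset.sum_congr rfl fun j _ => ?_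
  rw [cr24, ← an24]
  have h := hx j
  field_simp

end Pool.Agent.Helper49.DX
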