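import Pool.Agent.Helper49.DX.HT

/-!
Block DX-DBL (finite combinatorics): the double high temperature expansion and the switching of
sources.

Paper proof.
* `dbl_gen`: expand the product as a sum over pairs `(F₁, F₂)` with `gbd F₁ = S`, `P F₁`, `gbd F₂ = T`, and put
  `D = F₁ ∆ F₂` (so `gbd D = S ∆ T`, additivity of `gbd` under symmetric differences). Edge by edge
  (`x² + (1 - x²) = 1`): `∏_{F₁} x ∏_{F₂} x = ∑_{ω ⊇ F₁ ∪ F₂} ww x ω (F₁ ∆ F₂)`
  (`Finset.prod_add`/`prod_one_add` over the edges not in `F₁ ∪ F₂`, each gives `x² + (1 - x²) = 1`;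
  edges of `F₁ ∩ F₂` are in `ω \ D` and give `x²`; edges of `D` give `x`). For fixed `ω`, `D ⊆ ω` the
  pairs are parametrised by `F₁ ⊆ ω` with `gbd F₁ = S` (`F₂ = F₁ ∆ D`).
* `cnt_shift`: `F ↦ F ∆ γ` is a bijection (`gbd (F ∆ γ) = gbd F ∆ gbd γ`).
* `path_of_cn`: induction along the connection, symmetric differences of single edges
  (`gbd {e} = A e`).
* `comp_parity`: let `C` be the set of vertices connected to `a` by `D`. Every edge of `D` has both or
  no endpoint in `C`, so the number of incidences between `C` and `D` is even, hence the number of odd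
  vertices in `C` is even; `a` is one of them, so there is another one.
-/

open Finset

namespace Pool.Agent.Helper49.DX

open Pool.Agent.Helper49.DL

section

variable {V ι : Type*} [Fintype V] [DecidableEq V] [Fintype ι] [DecidableEq ι]

/-- Weight of `ω` with the parity set `D`. -/
noncomputable def ww (x : ι → ℝ) (ω D : Finset ι) : ℝ :=
  (∏ e ∈ ωᶜ, (1 - x e ^ 2)) * (∏ e ∈ ω \ D, x e ^ 2) * ∏ e ∈ D, x e

/-- Number of subsets of `ω` with the sources `S`. -/
noncomputable def cnt (A : ι → Finset V) (ω : Finset ι) (S : Finset V) : ℝ :=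
  ((ω.powerset.filter (fun F => gbd A F = S)).card : ℝ)

omit [Fintype V] [DecidableEq V] in
lemma ww_nonneg {x : ι → ℝ} (hx : ∀ e, 0 ≤ x e) (hx1 : ∀ e, x e ≤ 1) (ω D : Finset ι) :
    0 ≤ ww x ω D := by
  unfold ww
  refine mul_nonneg (mul_nonneg (Finset.prod_nonneg fun e _ => ?_)
    (Finset.prod_nonneg fun e _ => sq_nonneg _)) (Finset.prod_nonneg fun e _ => hx e)
  nlinarith [hx e, hx1 e]

omit [Fintype ι] [DecidableEq ι] in
private theorem h99_mem_gbd (A : ι → Finset V) (F : Finset ι) (v : V) :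
    v ∈ gbd A F ↔ Odd (F.filter (fun e => v ∈ A e)).card := by
  unfold gbd
  rw [Finset.mem_filter]
  exact ⟨fun h => h.2, fun h => ⟨Finset.mem_univ _, h⟩⟩

private theorem h99_odd_symm {α : Type*} [DecidableEq α] (s t : Finset α) :
    Odd (symmDiff s t).card ↔ ¬ (Odd s.card ↔ Odd t.card) := by
  have h1 : (symmDiff s t).card + 2 * (s ∩ t).card = s.card + t.card := by
    have e1 : (symmDiff s t).card = (s \ t).card + (t \ s).card := by
      rw [symmDiff_def, Finset.sup_eq_union, Finset.card_union_of_disjoint]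
      exact Finset.disjoint_left.2 fun a ha hb => (Finset.mem_sdiff.1 ha).2 (Finset.mem_sdiff.1 hb).1
    have e2 := Finset.card_sdiff_add_card_inter s t
    have e3 := Finset.card_sdiff_add_card_inter t s
    rw [Finset.inter_comm t s] at e3
    omega
  rw [Nat.odd_iff, Nat.odd_iff, Nat.odd_iff]
  omega

omit [Fintype ι] in
private theorem h99_gbd_symm (A : ι → Finset V) (F F' : Finset ι) :
    gbd A (symmDiff F F') = symmDiff (gbd A F) (gbd A F') := by
  ext v
  have h1 : (symmDiff F F').filter (fun e => v ∈ A e) =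
      symmDiff (F.filter (fun e => v ∈ A e)) (F'.filter (fun e => v ∈ A e)) := by
    ext e
    simp only [Finset.mem_filter, Finset.mem_symmDiff]
    tauto
  rw [h99_mem_gbd, h1, h99_odd_symm, Finset.mem_symmDiff, h99_mem_gbd, h99_mem_gbd]
  tauto

theorem gbd_symmDiff (A : ι → Finset V) (F G : Finset ι) :
    gbd A (symmDiff F G) = symmDiff (gbd A F) (gbd A G) := h99_gbd_symm A F G

omit [Fintype V] [DecidableEq V] in
private theorem h99_edge (x : ι → ℝ) (F D : Finset ι) :
    ∑ ω : Finset ι, (if D ⊆ ω ∧ F ⊆ ω then ww x ω D else 0) =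
      (∏ e ∈ F, x e) * ∏ e ∈ symmDiff F D, x e := by
  have h1 : ∏ e : ι, ((if e ∈ D then x e else x e ^ 2) + (if e ∈ D ∨ e ∈ F then 0 else 1 - x e ^ 2)) =
      ∑ ω : Finset ι, (if D ⊆ ω ∧ F ⊆ ω then ww x ω D else 0) := by
    rw [Finset.prod_add, Finset.powerset_univ]
    refine Finset.sum_congr rfl fun ω _ => ?_
    by_cases h : D ⊆ ω ∧ F ⊆ ω
    · rw [if_pos h, ww]
      have e1 : ∏ e ∈ ω, (if e ∈ D then x e else x e ^ 2) =
          (∏ e ∈ ω \ D, x e ^ 2) * ∏ e ∈ D, x e := by
        rw [← Finset.prod_sdiff h.1]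
        congr 1
        · exact Finset.prod_congr rfl fun e he => if_neg (Finset.mem_sdiff.1 he).2
        · exact Finset.prod_congr rfl fun e he => if_pos he
      have e2 : ∏ e ∈ Finset.univ \ ω, (if e ∈ D ∨ e ∈ F then 0 else 1 - x e ^ 2) =
          ∏ e ∈ ωᶜ, (1 - x e ^ 2) := by
        rw [← Finset.compl_eq_univ_sdiff]
        refine Finset.prod_congr rfl fun e he => if_neg ?_
        rintro (h2 | h2)
        · exact (Finset.mem_compl.1 he) (h.1 h2)
        · exact (Finset.mem_compl.1 he) (h.2 h2)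
      rw [e1, e2]
      ring
    · rw [if_neg h]
      have h2 : ∃ e, e ∉ ω ∧ (e ∈ D ∨ e ∈ F) := by
        by_contra hcon
        push Not at hcon
        exact h ⟨fun e he => by_contra fun h3 => (hcon e h3).1 he,
          fun e he => by_contra fun h3 => (hcon e h3).2 he⟩
      obtain ⟨e, he, hDF⟩ := h2
      have h0 : ∏ e ∈ Finset.univ \ ω, (if e ∈ D ∨ e ∈ F then (0 : ℝ) else 1 - x e ^ 2) = 0 :=
        Finset.prod_eq_zero (Finset.mem_sdiff.2 ⟨Finset.mem_univ e, he⟩) (if_pos hDF)
      rw [h0, mul_zero]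
  have h2 : ∀ G : Finset ι, ∏ e ∈ G, x e = ∏ e : ι, (if e ∈ G then x e else 1) := by
    intro G
    rw [Finset.prod_ite_mem, Finset.univ_inter]
  rw [← h1, h2 F, h2 (symmDiff F D), ← Finset.prod_mul_distrib]
  refine Finset.prod_congr rfl fun e _ => ?_
  by_cases hD : e ∈ D <;> by_cases hF : e ∈ F
  · simp [Finset.mem_symmDiff, hD, hF]
  · simp [Finset.mem_symmDiff, hD, hF]
  · simp [Finset.mem_symmDiff, hD, hF, sq]
  · simp [Finset.mem_symmDiff, hD, hF]

theorem dbl_gen (A : ι → Finset V) (x : ι → ℝ) (S T : Finset V) (P : Finset ι → Prop)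
    [DecidablePred P] :
    (∑ F ∈ Finset.univ.filter (fun F : Finset ι => gbd A F = S ∧ P F), ∏ e ∈ F, x e) * ZG A x T =
      ∑ ω : Finset ι, ∑ D ∈ ω.powerset.filter (fun D => gbd A D = symmDiff S T),
        ww x ω D * ((ω.powerset.filter (fun F => gbd A F = S ∧ P F)).card : ℝ) := by
  have hL : ∀ F ∈ Finset.univ.filter (fun F : Finset ι => gbd A F = S ∧ P F),
      ∑ G ∈ Finset.univ.filter (fun G : Finset ι => gbd A G = T), (∏ e ∈ F, x e) * ∏ e ∈ G, x e =
      ∑ D ∈ Finset.univ.filter (fun D : Finset ι => gbd A D = symmDiff S T),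
        (∏ e ∈ F, x e) * ∏ e ∈ symmDiff F D, x e := by
    intro F hF
    have hFS : gbd A F = S := (Finset.mem_filter.1 hF).2.1
    refine Finset.sum_bij' (fun G _ => symmDiff F G) (fun D _ => symmDiff F D) ?_ ?_ ?_ ?_ ?_
    · intro G hG
      have hGT : gbd A G = T := (Finset.mem_filter.1 hG).2
      refine Finset.mem_filter.2 ⟨Finset.mem_univ _, ?_⟩
      rw [gbd_symmDiff, hFS, hGT]
    · intro D hD
      have hDT : gbd A D = symmDiff S T := (Finset.mem_filter.1 hD).2
      refine Finset.mem_filter.2 ⟨Finset.mem_univ _, ?_⟩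
      rw [gbd_symmDiff, hFS, hDT, symmDiff_symmDiff_cancel_left]
    · intro G _
      exact symmDiff_symmDiff_cancel_left F G
    · intro D _
      exact symmDiff_symmDiff_cancel_left F D
    · intro G _
      rw [symmDiff_symmDiff_cancel_left]
  have hsub : ∀ (ω : Finset ι) (Q : Finset ι → Prop) [DecidablePred Q] (g : Finset ι → ℝ),
      ∑ D ∈ ω.powerset.filter Q, g D =
        ∑ D ∈ Finset.univ.filter Q, (if D ⊆ ω then g D else 0) := by
    intro ω Q _ g
    rw [← Finset.sum_filter, Finset.filter_filter]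
    refine Finset.sum_congr ?_ fun _ _ => rfl
    ext D
    simp only [Finset.mem_filter, Finset.mem_powerset, Finset.mem_univ, true_and]
    tauto
  unfold ZG
  rw [Finset.sum_mul_sum, Finset.sum_congr rfl hL]
  have hR : ∀ ω : Finset ι,
      ∑ D ∈ ω.powerset.filter (fun D => gbd A D = symmDiff S T),
        ww x ω D * ((ω.powerset.filter (fun F => gbd A F = S ∧ P F)).card : ℝ) =
      ∑ F ∈ Finset.univ.filter (fun F : Finset ι => gbd A F = S ∧ P F),
        ∑ D ∈ Finset.univ.filter (fun D : Finset ι => gbd A D = symmDiff S T),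
          (if D ⊆ ω ∧ F ⊆ ω then ww x ω D else 0) := by
    intro ω
    have hc : ((ω.powerset.filter (fun F => gbd A F = S ∧ P F)).card : ℝ) =
        ∑ F ∈ Finset.univ.filter (fun F : Finset ι => gbd A F = S ∧ P F), (if F ⊆ ω then (1 : ℝ) else 0) := by
      rw [← hsub ω (fun F => gbd A F = S ∧ P F) (fun _ => 1)]
      simp
    rw [hsub ω (fun D => gbd A D = symmDiff S T), hc, Finset.sum_comm]
    refine Finset.sum_congr rfl fun D _ => ?_
    by_cases hD : D ⊆ ω
    · rw [if_pos hD, Finset.mul_sum]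
      refine Finset.sum_congr rfl fun F _ => ?_
      by_cases hF : F ⊆ ω
      · rw [if_pos hF, if_pos ⟨hD, hF⟩, mul_one]
      · rw [if_neg hF, if_neg fun h => hF h.2, mul_zero]
    · rw [if_neg hD]
      refine (Finset.sum_eq_zero fun F _ => ?_).symm
      rw [if_neg fun h => hD h.1]
  have hRR : ∑ ω : Finset ι, ∑ F ∈ Finset.univ.filter (fun F : Finset ι => gbd A F = S ∧ P F),
        ∑ D ∈ Finset.univ.filter (fun D : Finset ι => gbd A D = symmDiff S T),
          (if D ⊆ ω ∧ F ⊆ ω then ww x ω D else 0) =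
      ∑ F ∈ Finset.univ.filter (fun F : Finset ι => gbd A F = S ∧ P F),
        ∑ D ∈ Finset.univ.filter (fun D : Finset ι => gbd A D = symmDiff S T),
          ∑ ω : Finset ι, (if D ⊆ ω ∧ F ⊆ ω then ww x ω D else 0) := by
    rw [Finset.sum_comm]
    refine Finset.sum_congr rfl fun F _ => ?_
    rw [Finset.sum_comm]
  rw [Finset.sum_congr rfl fun ω _ => hR ω, hRR]
  refine Finset.sum_congr rfl fun F _ => Finset.sum_congr rfl fun D _ => ?_
  rw [h99_edge]

theorem dbl (A : ι → Finset V) (x : ι → ℝ) (S T : Finset V) :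
    ZG A x S * ZG A x T =
      ∑ ω : Finset ι, ∑ D ∈ ω.powerset.filter (fun D => gbd A D = symmDiff S T),
        ww x ω D * cnt A ω S := by
  have h := dbl_gen A x S T (fun _ => True)
  simp only [and_true] at h
  exact h

theorem cnt_shift (A : ι → Finset V) {ω γ : Finset ι} (h : γ ⊆ ω) (S : Finset V) :
    cnt A ω S = cnt A ω (symmDiff S (gbd A γ)) := by
  have hs : ∀ F : Finset ι, F ⊆ ω → symmDiff F γ ⊆ ω := by
    intro F hF i hi
    rcases Finset.mem_symmDiff.1 hi with ⟨h1, _⟩ | ⟨h1, _⟩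
    · exact hF h1
    · exact h h1
  unfold cnt
  congr 1
  refine Finset.card_bij' (fun F _ => symmDiff F γ) (fun F _ => symmDiff F γ) ?_ ?_ ?_ ?_
  · intro F hF
    obtain ⟨h1, h2⟩ := Finset.mem_filter.1 hF
    refine Finset.mem_filter.2 ⟨Finset.mem_powerset.2 (hs F (Finset.mem_powerset.1 h1)), ?_⟩
    rw [gbd_symmDiff, h2]
  · intro F hF
    obtain ⟨h1, h2⟩ := Finset.mem_filter.1 hF
    refine Finset.mem_filter.2 ⟨Finset.mem_powerset.2 (hs F (Finset.mem_powerset.1 h1)), ?_⟩
    rw [gbd_symmDiff, h2, symmDiff_symmDiff_cancel_right]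
  · intro F _
    exact symmDiff_symmDiff_cancel_right γ F
  · intro F _
    exact symmDiff_symmDiff_cancel_right γ F

omit [Fintype ι] [DecidableEq ι] in
private theorem h99_gbd_single (A : ι → Finset V) (e : ι) : gbd A {e} = A e := by
  ext v
  rw [h99_mem_gbd]
  by_cases h : v ∈ A e
  · have h1 : ({e} : Finset ι).filter (fun e => v ∈ A e) = {e} := by
      rw [Finset.filter_singleton, if_pos h]
    rw [h1, Finset.card_singleton]
    exact ⟨fun _ => h, fun _ => odd_one⟩
  · have h1 : ({e} : Finset ι).filter (fun e => v ∈ A e) = ∅ := by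
      rw [Finset.filter_singleton, if_neg h]
    rw [h1, Finset.card_empty]
    exact ⟨fun h2 => absurd h2 (by decide), fun h2 => absurd h2 h⟩

theorem path_of_cn (A : ι → Finset V) (hA : ∀ e, (A e).card = 2) {ω : Finset ι} {p q : V}
    (h : Cn A ω p q) : ∃ γ ⊆ ω, gbd A γ = pr p q := by
  unfold Cn at h
  induction h with
  | refl => exact ⟨∅, Finset.empty_subset _, by rw [gbd_empty, pr_self]⟩
  | @tail c d _ hcd ih =>
    obtain ⟨F, hF, hF2⟩ := ih
    obtain ⟨e, he, hAe⟩ := hcd
    have hne : c ≠ d := by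
      intro hcd
      have h1 := hA e
      rw [hAe, hcd, Finset.pair_eq_singleton, Finset.card_singleton] at h1
      omega
    refine ⟨symmDiff F {e}, ?_, ?_⟩
    · intro i hi
      rcases Finset.mem_symmDiff.1 hi with ⟨h1, _⟩ | ⟨h1, _⟩
      · exact hF h1
      · rw [Finset.mem_singleton.1 h1]
        exact he
    · rw [gbd_symmDiff, hF2, h99_gbd_single, hAe, ← pr_ne hne, pr_trans]

theorem comp_parity (A : ι → Finset V) (hA : ∀ e, (A e).card = 2) {D : Finset ι} {a : V}
    (h : a ∈ gbd A D) : ∃ b ∈ gbd A D, b ≠ a ∧ Cn A D a b := by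
  classical
  by_contra hcon
  push Not at hcon
  let C : Finset V := Finset.univ.filter fun v => Cn A D a v
  have hC : ∀ v, v ∈ C ↔ Cn A D a v := fun v => by simp [C]
  have haC : a ∈ C := (hC a).2 Relation.ReflTransGen.refl
  have hdc : ∑ v ∈ C, (D.filter (fun e => v ∈ A e)).card = ∑ e ∈ D, (C.filter (fun v => v ∈ A e)).card :=
    Finset.sum_card_bipartiteAbove_eq_sum_card_bipartiteBelow (fun v e => v ∈ A e)
  have hev : ∀ e ∈ D, Even (C.filter (fun v => v ∈ A e)).card := by
    intro e he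
    obtain ⟨u, v, huv, hAe⟩ := Finset.card_eq_two.1 (hA e)
    have hcl : u ∈ C ↔ v ∈ C := by
      rw [hC, hC]
      constructor
      · intro h1
        exact Relation.ReflTransGen.tail h1 ⟨e, he, hAe⟩
      · intro h1
        exact Relation.ReflTransGen.tail h1 ⟨e, he, by rw [hAe, Finset.pair_comm]⟩
    by_cases hu : u ∈ C
    · have h2 : C.filter (fun v => v ∈ A e) = A e := by
        ext w
        rw [Finset.mem_filter]
        refine ⟨fun h => h.2, fun h => ⟨?_, h⟩⟩
        rw [hAe, Finset.mem_insert, Finset.mem_singleton] at h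
        rcases h with rfl | rfl
        · exact hu
        · exact hcl.1 hu
      rw [h2, hA e]
      exact even_two
    · have h2 : C.filter (fun v => v ∈ A e) = ∅ := by
        rw [Finset.filter_eq_empty_iff]
        intro w hw h
        rw [hAe, Finset.mem_insert, Finset.mem_singleton] at h
        rcases h with rfl | rfl
        · exact hu hw
        · exact hu (hcl.2 hw)
      rw [h2, Finset.card_empty]
      exact Even.zero
  have h1 : Even (∑ v ∈ C, (D.filter (fun e => v ∈ A e)).card) := by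
    rw [hdc]
    exact Finset.even_sum _ hev
  rw [← Finset.add_sum_erase C _ haC] at h1
  have h2 : Even (∑ v ∈ C.erase a, (D.filter (fun e => v ∈ A e)).card) := by
    refine Finset.even_sum _ fun v hv => ?_
    obtain ⟨hva, hvC⟩ := Finset.mem_erase.1 hv
    by_contra hno
    exact hcon v ((h99_mem_gbd A D v).2 (Nat.not_even_iff_odd.1 hno)) hva ((hC v).1 hvC)
  have h3 := (h99_mem_gbd A D a).1 h
  exact (Nat.not_even_iff_odd.2 (h3.add_even h2)) h1

end

end Pool.Agent.Helper49.DX
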