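import Pool.Agent.Helper49.DX.Br

/-!
Block DX-DOB1: the Dobrushin measure in terms of sets of bonds with two odd plaquettes.

Paper proof. Let `φ ω i = if 1 ≤ i.2 then ω i else !(ω i)`; `φ` is a bijection from `confs (box N M) (eta 0)` to
`confs (box N M) tt` (`eta 0 i = decide (0 + 1 ≤ i.2)`). A bond is broken by exactly one of `ω`, `φ ω` iff it
is vertical with lower endpoint in the row `0`: `bk ω = bk (φ ω) ∆ γ`, `γ` the set of the bonds
`Sum.inr (x, 0)`, `-N ≤ x ≤ N`. `gbd dA γ = pr a b` (the bond `Sum.inr (x, 0)` has the plaquettes `(x, 0)`, `(x - 1, 0)`;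
see also `odp_LG` in DL/Paths.lean with `LG`). So by `sum_even` (DL/Dual1.lean) and the substitution
`F = F' ∆ γ` (`gbd (F' ∆ γ) = gbd F' ∆ gbd γ`)
`∑_{ω ∈ confs (eta 0)} H (bk ω) = ∑_{F, gbd F = pr a b} H F`; and `wg β κ Λ ω = c * ∏ e ∈ bk ω, xe β κ e` with
`c = exp (∑ e, β * lk κ e)` (see `wg_bk50` in DL/Dual2.lean, private: copy the proof; the formula holds for
every configuration). Divide.
-/

open Finset
open scoped Classical

namespace Pool.Agent.Helper49.DX

open Pool.Agent.Helper49.DL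

section gen26

variable {V ι : Type*} [Fintype V] [DecidableEq V] [Fintype ι] [DecidableEq ι]

omit [Fintype ι] [DecidableEq ι] in
private theorem mem_gbd26 (A : ι → Finset V) (F : Finset ι) (v : V) :
    v ∈ gbd A F ↔ Odd (F.filter (fun e => v ∈ A e)).card := by
  unfold gbd
  rw [Finset.mem_filter]
  exact ⟨fun h => h.2, fun h => ⟨Finset.mem_univ _, h⟩⟩

private theorem odd_symm26 {α : Type*} [DecidableEq α] (s t : Finset α) :
    Odd (symmDiff s t).card ↔ ¬ (Odd s.card ↔ Odd t.card) := by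
  have h1 : (symmDiff s t).card + 2 * (s ∩ t).card = s.card + t.card := by
    have e1 : (symmDiff s t).card = (s \ t).card + (t \ s).card := by
      rw [symmDiff_def, Finset.sup_eq_union, Finset.card_union_of_disjoint]
      exact Finset.disjoint_left.2 fun a ha hb => (Finset.mem_sdiff.1 ha).2 (Finset.mem_sdiff.1 hb).1
    have e2 := Finset.card_sdiff_add_card_inter s t
    have e3 := Finset.card_sdiff_add_card_inter t s
    rw [Finset.inter_comm t s] at e3
    omega
  rw [Nat.odd_iff, Nat.odd_iff, Nat.odd_iff]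
  omega

omit [Fintype ι] in
private theorem gbd_gen26 (A : ι → Finset V) (F F' : Finset ι) :
    gbd A (symmDiff F F') = symmDiff (gbd A F) (gbd A F') := by
  ext v
  have h1 : (symmDiff F F').filter (fun e => v ∈ A e) =
      symmDiff (F.filter (fun e => v ∈ A e)) (F'.filter (fun e => v ∈ A e)) := by
    ext e
    simp only [Finset.mem_filter, Finset.mem_symmDiff]
    tauto
  rw [mem_gbd26, h1, odd_symm26, Finset.mem_symmDiff, mem_gbd26, mem_gbd26]
  tauto

end gen26

section dob26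

variable {N M : ℤ}

/-- Flip the rows up to `0`. -/
private def fl26 (ω : Cfg) : Cfg := fun i => if 1 ≤ i.2 then ω i else !(ω i)

private theorem fl_fl26 (ω : Cfg) : fl26 (fl26 ω) = ω := by
  funext i
  unfold fl26
  by_cases h : 1 ≤ i.2
  · simp [h]
  · simp [h]

private theorem fl_mem26 {ω : Cfg} (h : ω ∈ confs (box N M) (eta 0)) : fl26 ω ∈ confs (box N M) tt := by
  rw [mem_confs] at h ⊢
  intro i hi
  have h1 := h i hi
  unfold fl26
  by_cases h2 : 1 ≤ i.2
  · rw [if_pos h2, h1]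
    simp [eta, tt, h2]
  · rw [if_neg h2, h1]
    simp [eta, tt, h2]

private theorem fl_mem26' {ω : Cfg} (h : ω ∈ confs (box N M) tt) : fl26 ω ∈ confs (box N M) (eta 0) := by
  rw [mem_confs] at h ⊢
  intro i hi
  have h1 := h i hi
  unfold fl26
  by_cases h2 : 1 ≤ i.2
  · rw [if_pos h2, h1]
    simp [eta, tt, h2]
  · rw [if_neg h2, h1]
    simp [eta, tt, h2]

/-- The vertical bonds with lower endpoint in the row `0`. -/
private noncomputable def dobG26 (a b : PV (box N M)) : Finset (LB (box N M)) :=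
  Finset.univ.filter (fun e : LB (box N M) => bkey e ∈
    LG a.1.1 a.1.2 b.1.1 (min a.1.2 b.1.2) (max a.1.2 b.1.2))

private theorem gbd_dobG26 (hN : 0 ≤ N) (hM : 1 ≤ M) {a b : PV (box N M)}
    (ha : a.1 = (-N - 1, 0)) (hb : b.1 = (N, 0)) : gbd dA (dobG26 a b) = pr a b := by
  have hab : a ≠ b := by
    rintro rfl
    rw [ha] at hb
    have := congrArg Prod.fst hb
    simp only at this
    omega
  have hle : a.1.1 ≤ b.1.1 := by
    rw [ha, hb]
    show -N - 1 ≤ N
    omega
  rw [pr_ne hab]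
  exact odp_LG hN hM hle hab

private theorem gbd_symm26 (F G : Finset (LB (box N M))) :
    gbd dA (symmDiff F G) = symmDiff (gbd dA F) (gbd dA G) := gbd_gen26 _ F G

private theorem bk_fl26 (hM : 1 ≤ M) {a b : PV (box N M)} (ha : a.1 = (-N - 1, 0)) (hb : b.1 = (N, 0))
    (ω : Cfg) : bk (box N M) (fl26 ω) = symmDiff (bk (box N M) ω) (dobG26 a b) := by
  ext e
  rw [Finset.mem_symmDiff]
  unfold bk dobG26
  simp only [Finset.mem_filter, Finset.mem_univ, true_and]
  rw [ha, hb]
  rcases e with ⟨⟨x, y⟩, hi⟩ | ⟨⟨x, y⟩, hi⟩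
  · have h1 : bkey (Sum.inl ⟨(x, y), hi⟩ : LB (box N M)) = (false, x, y) := rfl
    rw [h1, mem_LG_false]
    have h2 : ¬ (x = N ∧ min (0 : ℤ) 0 < y ∧ y ≤ max (0 : ℤ) 0) := by
      rw [min_self, max_self]
      omega
    simp only [h2, not_false_eq_true, and_true, false_and, or_false]
    show fl26 ω (x, y) ≠ fl26 ω ((x, y) + e1) ↔ ω (x, y) ≠ ω ((x, y) + e1)
    have h3 : ((x, y) + e1 : Site).2 = y := by simp [e1]
    unfold fl26
    rw [h3]
    by_cases hy : 1 ≤ y
    · simp [hy]
    · simp [hy]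
  · have h1 : bkey (Sum.inr ⟨(x, y), hi⟩ : LB (box N M)) = (true, x, y) := rfl
    rw [h1, mem_LG_true]
    have h4 := (mem_vb_box hM).1 hi
    have h2 : (y = 0 ∧ -N - 1 < x ∧ x ≤ N) ↔ y = 0 := by
      constructor
      · exact fun h => h.1
      · intro h
        exact ⟨h, by omega, by omega⟩
    simp only [h2]
    show fl26 ω (x, y) ≠ fl26 ω ((x, y) + e2) ↔
      (ω (x, y) ≠ ω ((x, y) + e2) ∧ ¬ y = 0) ∨ (y = 0 ∧ ¬ ω (x, y) ≠ ω ((x, y) + e2))
    have h3 : ((x, y) + e2 : Site).2 = y + 1 := by simp [e2]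
    unfold fl26
    rw [h3]
    by_cases hy : 1 ≤ y
    · have h5 : 1 ≤ y + 1 := by omega
      have h6 : y ≠ 0 := by omega
      simp [hy, h5, h6]
    · by_cases h6 : y = 0
      · subst h6
        cases ω (x, 0) <;> cases ω ((x, 0) + e2) <;> simp
      · have h5 : ¬ 1 ≤ y + 1 := by omega
        simp [hy, h5, h6]

private theorem en_sum26 (κ : Site → ℝ) (ω : Cfg) :
    en κ (box N M) ω = ∑ e : LB (box N M), lk κ e * agr (ω (DL.lp e)) (ω (lq e)) := by
  unfold en
  rw [Fintype.sum_sum_type]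
  simp only [lk, DL.lp, lq, one_mul]
  rw [Finset.sum_coe_sort (hb (box N M)) (fun i : Site => agr (ω i) (ω (i + e1))),
    Finset.sum_coe_sort (vb (box N M)) (fun i : Site => κ i * agr (ω i) (ω (i + e2)))]

private theorem wg_bk26 (β : ℝ) (κ : Site → ℝ) (ω : Cfg) :
    wg β κ (box N M) ω = Real.exp (∑ e : LB (box N M), β * lk κ e) * ∏ e ∈ bk (box N M) ω, xe β κ e := by
  unfold wg xe bk
  rw [← Real.exp_sum, ← Real.exp_add, en_sum26, Finset.mul_sum, Finset.sum_filter,
    ← Finset.sum_add_distrib]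
  congr 1
  refine Finset.sum_congr rfl fun e _ => ?_
  by_cases h : ω (DL.lp e) = ω (lq e)
  · rw [if_neg (not_not.2 h), h]
    cases ω (lq e) <;> simp [agr]
  · rw [if_pos h]
    have : agr (ω (DL.lp e)) (ω (lq e)) = 0 := by
      revert h
      cases ω (DL.lp e) <;> cases ω (lq e) <;> simp [agr]
    rw [this]
    ring

end dob26

theorem avg_dob {N M : ℤ} (hN : 0 ≤ N) (hM : 1 ≤ M) (β : ℝ) (κ : Site → ℝ) {a b : PV (box N M)}
    (ha : a.1 = (-N - 1, 0)) (hb : b.1 = (N, 0)) (G : Finset (LB (box N M)) → ℝ) :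
    avg β κ (box N M) (eta 0) (fun ω => G (bk (box N M) ω)) =
      (∑ F ∈ Finset.univ.filter (fun F : Finset (LB (box N M)) => gbd dA F = pr a b),
        (∏ e ∈ F, xe β κ e) * G F) / ZG dA (xe β κ) (pr a b) := by
  have hΓ : gbd dA (dobG26 a b) = pr a b := gbd_dobG26 hN hM ha hb
  have key (H : Finset (LB (box N M)) → ℝ) :
      Zg β κ (box N M) (eta 0) (fun ω => H (bk (box N M) ω)) =
        Real.exp (∑ e : LB (box N M), β * lk κ e) *
          ∑ F ∈ Finset.univ.filter (fun F : Finset (LB (box N M)) => gbd dA F = pr a b),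
            (∏ e ∈ F, xe β κ e) * H F := by
    have h1 : ∑ ω ∈ confs (box N M) (eta 0), (∏ e ∈ bk (box N M) ω, xe β κ e) * H (bk (box N M) ω) =
        ∑ ω ∈ confs (box N M) tt, (∏ e ∈ symmDiff (bk (box N M) ω) (dobG26 a b), xe β κ e) *
          H (symmDiff (bk (box N M) ω) (dobG26 a b)) := by
      refine Finset.sum_bij' (fun ω _ => fl26 ω) (fun ω _ => fl26 ω) ?_ ?_ ?_ ?_ ?_
      · intro ω hω
        exact fl_mem26 hω
      · intro ω hω
        exact fl_mem26' hω
      · intro ω _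
        exact fl_fl26 ω
      · intro ω _
        exact fl_fl26 ω
      · intro ω _
        rw [← bk_fl26 hM ha hb, fl_fl26]
    have h2 := sum_even (N := N) (M := M) (fun F => (∏ e ∈ symmDiff F (dobG26 a b), xe β κ e) *
      H (symmDiff F (dobG26 a b)))
    have h3 : ∑ F ∈ Finset.univ.filter (fun F : Finset (LB (box N M)) => odp F = ∅),
        (∏ e ∈ symmDiff F (dobG26 a b), xe β κ e) * H (symmDiff F (dobG26 a b)) =
        ∑ F ∈ Finset.univ.filter (fun F : Finset (LB (box N M)) => gbd dA F = pr a b),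
            (∏ e ∈ F, xe β κ e) * H F := by
      refine Finset.sum_bij' (fun F _ => symmDiff F (dobG26 a b)) (fun F _ => symmDiff F (dobG26 a b))
        ?_ ?_ ?_ ?_ ?_
      · intro F hF
        rw [Finset.mem_filter] at hF ⊢
        refine ⟨Finset.mem_univ _, ?_⟩
        have hF2 : gbd dA F = ∅ := hF.2
        rw [gbd_symm26, hF2, hΓ]
        exact bot_symmDiff _
      · intro F hF
        rw [Finset.mem_filter] at hF ⊢
        refine ⟨Finset.mem_univ _, ?_⟩
        show gbd dA (symmDiff F (dobG26 a b)) = ∅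
        rw [gbd_symm26, hF.2, hΓ]
        exact symmDiff_self _
      · intro F _
        exact symmDiff_symmDiff_cancel_right _ F
      · intro F _
        exact symmDiff_symmDiff_cancel_right _ F
      · intro F _
        rfl
    rw [← h3, ← h2, ← h1, Finset.mul_sum]
    unfold Zg
    refine Finset.sum_congr rfl fun ω _ => ?_
    rw [wg_bk26, mul_assoc]
  unfold avg
  rw [key G, key (fun _ => 1), mul_div_mul_left _ _ (Real.exp_pos _).ne']
  congr 1
  unfold ZG
  exact Finset.sum_congr rfl fun F _ => mul_one _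

/-- The odd plaquettes under the Dobrushin condition. -/
theorem gbd_dob {N M : ℤ} (hN : 0 ≤ N) (hM : 1 ≤ M) {a b : PV (box N M)}
    (ha : a.1 = (-N - 1, 0)) (hb : b.1 = (N, 0)) {ω : Cfg} (hω : ω ∈ confs (box N M) (eta 0)) :
    gbd dA (bk (box N M) ω) = pr a b := by
  rw [← fl_fl26 ω, bk_fl26 hM ha hb, gbd_symm26, gbd_dobG26 hN hM ha hb]
  have h1 : gbd dA (bk (box N M) (fl26 ω)) = ∅ := bk_even (fl_mem26 hω)
  rw [h1]
  exact bot_symmDiff _

end Pool.Agent.Helper49.DX
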