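import Pool.Agent.Helper49.DX.Dob1
import Pool.Agent.Helper49.DX.Dbl

/-!
Block DX-DOB2: the plaquettes of the interface are connected to the end of the interface.

Paper proof. `F = bk (box N M) ω`, `a = (-N - 1, 0)`, `b = (N, 0)`. Outside the box `ω = eta 0`, so a broken bond which
does not meet the box is `((x, 0), false)` with `x < -N` or `x > N`. By `gbd_dob` and `comp_parity`
(`a ∈ gbd dA F = pr a b = {a, b}`) `Cn dA F a b`.
Claim: for every `c` with `Interface N ω c` (use `Relation.ReflTransGen.head_induction_on` for the chain from `c` to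
`((N + 1, 0), false)`): every plaquette `p ∈ PV` with `Side p.1 c` satisfies `Cn dA F p b`.
* the end of the chain `((N + 1, 0), false)`: its sides-plaquettes are `(N + 1, 0)` (not in `PV`) and `(N, 0) = b`.
* step: `c` touches `c'` at the plaquette `q`, both broken. If `q ∈ PV`: `Cn dA F q b` by induction; if `c`
  meets the box then `c ∈ F` and the plaquettes of `c` are `q` and one other, joined by `c` (see
  `cn_side` in DL/Win2.lean, whose proof does not need the plus condition except for `exists_lb`); if `c` does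
  not meet the box, `c = ((x, 0), false)` with `x = -N - 1` or `x = N + 1` or further away; its plaquettes in `PV` are
  only `a` resp. `b`, and `Cn dA F a b`. If `q ∉ PV`: then `c` and `c'` do not meet the box (all four sides of
  `q` do not meet the box), and again the plaquettes of `c` in `PV` are only `a` or `b`.
`Cn` is symmetric (`Finset.pair_comm`).
-/

open Finset
open scoped Classical

namespace Pool.Agent.Helper49.DX

open Pool.Agent.Helper49.DL

/-- A broken bond meets the box or is one of the bonds of the boundary line. -/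
private lemma broken_cases71 {N M : ℤ} (hM : 1 ≤ M) {ω : Cfg}
    (hω : ω ∈ confs (box N M) (eta 0)) {c : Bond} (hc : Broken ω c) :
    (∃ e : LB (box N M), e ∈ bk (box N M) ω ∧ dp e = c.1 ∧ dq e = c.1 - (if c.2 then e2 else e1)) ∨
      (c.2 = false ∧ c.1.2 = 0 ∧ (c.1.1 < -N ∨ N < c.1.1)) := by
  rw [mem_confs] at hω
  unfold Broken at hc
  obtain ⟨i, d⟩ := c
  simp only at hc ⊢
  cases d with
  | true =>
    have h2 : bend (i, true) = i + e1 := by simp [bend]
    rw [h2] at hc
    left
    have hi : i ∈ hb (box N M) := by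
      rw [mem_hb]
      by_contra h
      push Not at h
      rw [hω _ h.1, hω _ h.2] at hc
      apply hc
      simp [eta, e1]
    refine ⟨Sum.inl ⟨i, hi⟩, ?_, rfl, ?_⟩
    · unfold bk
      rw [Finset.mem_filter]
      exact ⟨Finset.mem_univ _, hc⟩
    · simp [dq]
  | false =>
    have h2 : bend (i, false) = i + e2 := by simp [bend]
    rw [h2] at hc
    by_cases hi : i ∈ vb (box N M)
    · left
      refine ⟨Sum.inr ⟨i, hi⟩, ?_, rfl, ?_⟩
      · unfold bk
        rw [Finset.mem_filter]
        exact ⟨Finset.mem_univ _, hc⟩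
      · simp [dq]
    · right
      rw [mem_vb] at hi
      push Not at hi
      rw [hω _ hi.1, hω _ hi.2] at hc
      have h3 : i.2 = 0 := by
        by_contra h4
        apply hc
        have h6 : (i + e2).2 = i.2 + 1 := rfl
        unfold eta
        rw [decide_eq_decide, h6]
        omega
      refine ⟨rfl, h3, ?_⟩
      have h5 := hi.1
      rw [mem_box] at h5
      omega

/-- Plaquettes of a bond of the boundary line. -/
private lemma line_plaq71 {N M : ℤ} (hN : 0 ≤ N) (hM : 1 ≤ M) {c : Bond}
    (hc : c.2 = false ∧ c.1.2 = 0 ∧ (c.1.1 < -N ∨ N < c.1.1)) {p : PV (box N M)}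
    (hp : Side p.1 c) : p.1 = (-N - 1, 0) ∨ p.1 = (N, 0) := by
  obtain ⟨h1, h2, h3⟩ := hc
  have hP := (mem_PL_box hN hM).1 p.2
  obtain ⟨⟨x, y⟩, d⟩ := c
  simp only at h1 h2 h3
  subst h1 h2
  have h4 := WI2.side_cases hp
  have h5 : p.1 = (x, 0) ∨ p.1 = (x - 1, 0) := by
    rcases h4 with h | h
    · exact Or.inl h
    · right
      rw [h]
      simp [e1]
  rcases h5 with h | h
  · rw [h] at hP
    simp only at hP
    left
    rw [h]
    have : x = -N - 1 := by omega
    rw [this]
  · rw [h] at hP
    simp only at hP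
    right
    rw [h]
    have : x - 1 = N := by omega
    rw [this]

/-- Two plaquettes of a broken bond which meets the box are connected. -/
private lemma cn_edge71 {Λ : Finset Site} {F : Finset (LB Λ)} {e : LB Λ} (he : e ∈ F) {p q : PV Λ}
    (hp : p.1 = dp e ∨ p.1 = dq e) (hq : q.1 = dp e ∨ q.1 = dq e) : Cn dA F p q := by
  have hA := WI2.dA_pair e
  have h1 : ∀ r : PV Λ, r.1 = dp e → r = ⟨dp e, WI2.dp_mem_PL e⟩ := fun r hr => Subtype.ext hr
  have h2 : ∀ r : PV Λ, r.1 = dq e → r = ⟨dq e, WI2.dq_mem_PL e⟩ := fun r hr => Subtype.ext hr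
  rcases hp with hp | hp <;> rcases hq with hq | hq
  · rw [h1 p hp, h1 q hq]
    exact Relation.ReflTransGen.refl
  · rw [h1 p hp, h2 q hq]
    exact Relation.ReflTransGen.single ⟨e, he, hA⟩
  · rw [h2 p hp, h1 q hq]
    exact Relation.ReflTransGen.single ⟨e, he, by rw [hA, Finset.pair_comm]⟩
  · rw [h2 p hp, h2 q hq]
    exact Relation.ReflTransGen.refl

/-- The two ends of the interface are connected. -/
private lemma ends_cn71 {N M : ℤ} (hN : 0 ≤ N) (hM : 1 ≤ M) {a b : PV (box N M)}
    (ha : a.1 = (-N - 1, 0)) (hb : b.1 = (N, 0)) {ω : Cfg} (hω : ω ∈ confs (box N M) (eta 0)) :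
    Cn dA (bk (box N M) ω) a b := by
  have hab : a ≠ b := by
    intro h
    rw [h, hb] at ha
    have := congrArg Prod.fst ha
    simp only at this
    omega
  have h1 := gbd_dob hN hM ha hb hω
  rw [pr_ne hab] at h1
  have h2 : a ∈ gbd dA (bk (box N M) ω) := by
    rw [h1]
    exact Finset.mem_insert_self _ _
  obtain ⟨b', hb', hne, hcn⟩ := comp_parity dA WI2.dA_card h2
  rw [h1, Finset.mem_insert, Finset.mem_singleton] at hb'
  rcases hb' with h | h
  · exact absurd h hne
  · rw [h] at hcn
    exact hcn

theorem interface_conn {N M : ℤ} (hN : 0 ≤ N) (hM : 1 ≤ M) {ω : Cfg}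
    (hω : ω ∈ confs (box N M) (eta 0)) {c : Bond} (hc : Interface N ω c) {p b : PV (box N M)}
    (hp : Side p.1 c) (hb : b.1 = (N, 0)) : Cn dA (bk (box N M) ω) p b := by
  set F := bk (box N M) ω with hF
  -- bonds of the boundary line
  have hline : ∀ c : Bond, (c.2 = false ∧ c.1.2 = 0 ∧ (c.1.1 < -N ∨ N < c.1.1)) →
      ∀ p : PV (box N M), Side p.1 c → Cn dA F p b := by
    intro c hc p hp
    rcases line_plaq71 hN hM hc hp with h | h
    · exact ends_cn71 hN hM h hb hω
    · have : p = b := Subtype.ext (h.trans hb.symm)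
      rw [this]
      exact Relation.ReflTransGen.refl
  have key : ∀ c : Bond, Relation.ReflTransGen (fun a b => Broken ω a ∧ Broken ω b ∧ Touch a b) c
      ((N + 1, 0), false) → ∀ p : PV (box N M), Side p.1 c → Cn dA F p b := by
    intro c hc
    induction hc using Relation.ReflTransGen.head_induction_on with
    | refl =>
      exact hline _ ⟨rfl, rfl, Or.inr (by simp)⟩
    | @head c c' h1 _ ih =>
      intro p hp
      obtain ⟨hbc, hbc', q, hq, hq'⟩ := h1
      rcases broken_cases71 hM hω hbc with ⟨e, he, hdp, hdq⟩ | hc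
      · have hq2 : q = dp e ∨ q = dq e := by
          rw [hdp, hdq]
          exact WI2.side_cases hq
        have hp2 : p.1 = dp e ∨ p.1 = dq e := by
          rw [hdp, hdq]
          exact WI2.side_cases hp
        have hqP : q ∈ PL (box N M) := by
          rcases hq2 with h | h
          · rw [h]; exact WI2.dp_mem_PL e
          · rw [h]; exact WI2.dq_mem_PL e
        have h3 : Cn dA F p ⟨q, hqP⟩ := cn_edge71 he hp2 hq2
        exact h3.trans (ih ⟨q, hqP⟩ hq')
      · exact hline c hc p hp
  exact key c hc.2 p hp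

end Pool.Agent.Helper49.DX
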