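import Pool.Agent.Helper49.DX.Hs

/-!
Block DX-END: near the ends the interface is low.

Paper proof. As `width` (Wd.lean). `hq` from `t_small`, `c₀ = (β - β₁) mag(β₁)² > 0`, constants `C` of `g2_row` and `c` of `g2_low` (`M = N`),
`λ = lam (exp (-β)) ∈ (0, 1)`. If `Above N x K ω` with the bond `((x, y), false)`, `y ≥ K`, then `On N ω (x, y)` (`Side p ((x, y), false)` for
`p = (x, y)`), and `-N ≤ y ≤ N`, `(x, y) ∈ PL (box N N)` (`mem_PL_box`; see `broken_pos82` in Wd.lean; `0 ≤ r` gives `|x| ≤ N`). Union bound over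
`K ≤ y ≤ N`: with `p = (x, y)` `contact_le`: `P (On p) ≤ G2 a p * G2 p b / G2 a b`.
* `x = N - r`: `G2 a p ≤ C λ^(x + N + 1) = C λ^(2N + 1 - r)` (`g2_row`), `G2 p b ≤ exp (-c₀ y)` (`G2_decay`; `max |..| |y - 0| ≥ y`), `G2 a b ≥
  c λ^(2N+1) / (2N+1)^(3/2)` (`g2_low`). So `P (On p) ≤ (C / c) λ^(-r) (2N+1)^(3/2) exp (-c₀ K)`.
* `x = -(N - r)`: the same with `G2 p b = G2 b p ≤ C λ^(N - x) = C λ^(2N - r)` and `G2 a p ≤ exp (-c₀ y)` (`G2_symm`-like lemma; G2 is symmetric by `pr_comm`).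
There are at most `N + 1` values of `y`; with `K ≥ C₀ log N`, `C₀ = 3 / c₀`, `exp (-c₀ K) ≤ N^(-3)`, so the probability is at most
`C(r) N^(5/2) N^(-3) → 0`. (If `K > N` the probability is `0`; if `log N`.. `N ≥ 2` makes `K ≥ 1`.)
-/

open Finset
open scoped Classical

namespace Pool.Agent.Helper49.DX

open Pool.Agent.Helper49.DL

private theorem broken_pos65 {N : ℤ} {ω : Cfg}
    (hω : ω ∈ confs (box N N) (eta 0)) {b : Bond} (hb : Broken ω b) :
    (-N - 1 ≤ b.1.1 ∧ b.1.1 ≤ N ∧ -N ≤ b.1.2 ∧ b.1.2 ≤ N) ∨ b.1.2 = 0 := by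
  obtain ⟨⟨x, y⟩, d⟩ := b
  rw [mem_confs] at hω
  by_cases h1 : (x, y) ∈ box N N
  · rw [mem_box] at h1
    simp only at h1 ⊢
    left
    omega
  by_cases h2 : bend ((x, y), d) ∈ box N N
  · rw [mem_box] at h2
    left
    cases d
    · simp only [bend, e2, Bool.false_eq_true, if_false, Prod.mk_add_mk, add_zero] at h2 ⊢
      omega
    · simp only [bend, e1, if_true, Prod.mk_add_mk, add_zero] at h2 ⊢
      omega
  right
  by_contra hy
  apply hb
  rw [hω _ h1, hω _ h2]
  simp only at hy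
  cases d
  · simp only [bend, e2, Bool.false_eq_true, if_false, Prod.mk_add_mk, eta, decide_eq_decide]
    omega
  · simp only [bend, e1, if_true, Prod.mk_add_mk, add_zero, eta]

private theorem G2_comm65 {β J : ℝ} {N M : ℤ} (a b : PV (box N M)) :
    G2 β J N M a b = G2 β J N M b a := by
  unfold G2
  rw [pr_comm]

/-- union bound -/
private theorem union65 {N : ℤ} (hN : 1 ≤ N) {β J : ℝ} {x K : ℤ} (hK : 1 ≤ K) {X : ℝ} (hX0 : 0 ≤ X)
    (hX : ∀ p : PV (box N N), p.1.1 = x → K ≤ p.1.2 →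
      avg β (kap J) (box N N) (eta 0) (fun ω => if On N ω p.1 then 1 else 0) ≤ X) :
    PJ β J N (Above N x K) ≤ N * X := by
  set S : Finset (PV (box N N)) :=
    Finset.univ.filter (fun p => p.1.1 = x ∧ K ≤ p.1.2) with hS
  have h1 : ∀ ω ∈ confs (box N N) (eta 0), (if Above N x K ω then (1 : ℝ) else 0) ≤
      ∑ p ∈ S, if On N ω p.1 then 1 else 0 := by
    intro ω hω
    have hnn : ∀ p ∈ S, (0 : ℝ) ≤ if On N ω p.1 then 1 else 0 := by
      intro z _
      split_ifs
      · exact zero_le_one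
      · exact le_rfl
    split_ifs with hW
    · obtain ⟨y, hy, hi⟩ := hW
      have g1 := broken_pos65 hω hi.1
      simp only at g1
      have m1 : ((x, y) : Site) ∈ PL (box N N) := by
        rw [mem_PL_box (by omega) hN]
        simp only
        omega
      have hmem : (⟨(x, y), m1⟩ : PV (box N N)) ∈ S := by
        rw [hS, Finset.mem_filter]
        exact ⟨Finset.mem_univ _, rfl, hy⟩
      refine le_trans (le_of_eq ?_) (Finset.single_le_sum
        (f := fun p : PV (box N N) => if On N ω p.1 then (1 : ℝ) else 0) hnn hmem)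
      simp only
      rw [if_pos]
      exact ⟨_, Or.inr (Or.inl rfl), hi⟩
    · exact Finset.sum_nonneg hnn
  unfold PJ
  refine (avg_mono h1).trans ?_
  rw [avg_sum]
  have h2 : ∀ p ∈ S, avg β (kap J) (box N N) (eta 0)
      (fun ω => if On N ω p.1 then 1 else 0) ≤ X := by
    intro p hp
    rw [hS, Finset.mem_filter] at hp
    exact hX p hp.2.1 hp.2.2
  refine (Finset.sum_le_sum h2).trans ?_
  rw [Finset.sum_const, nsmul_eq_mul]
  refine mul_le_mul_of_nonneg_right ?_ hX0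
  have h3 : S.card ≤ (Finset.Icc (1 : ℤ) N).card := by
    apply Finset.card_le_card_of_injOn (fun p => p.1.2)
    · intro p hp
      have hp' : p ∈ S := hp
      rw [hS, Finset.mem_filter] at hp'
      have h4 := (mem_PL_box (by omega) hN).1 p.2
      rw [Finset.mem_coe, Finset.mem_Icc]
      show 1 ≤ p.1.2 ∧ p.1.2 ≤ N
      omega
    · intro p hp q hq hpq
      have hp' : p ∈ S := hp
      have hq' : q ∈ S := hq
      rw [hS, Finset.mem_filter] at hp' hq'
      exact Subtype.ext (Prod.ext (hp'.2.1.trans hq'.2.1.symm) hpq)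
  rw [Int.card_Icc] at h3
  have h4 : (S.card : ℤ) ≤ N := by omega
  exact_mod_cast h4

theorem end_tight {β₁ β J : ℝ} (h0 : 0 ≤ β₁) (h : β₁ < β) (hm : 0 < mag β₁) (hJ : 1 ≤ J) :
    ∃ C : ℝ, 0 < C ∧ ∀ (r : ℤ) (t : ℝ), 0 ≤ r → 0 < t → ∃ n₀ : ℤ, ∀ N : ℤ, n₀ ≤ N → ∀ x K : ℤ,
      |x| = N - r → C * Real.log N ≤ K → PJ β J N (Above N x K) ≤ t := by
  have hq := t_small h0 h hm
  have hβ : 0 < β := lt_of_le_of_lt h0 h
  set c₀ : ℝ := (β - β₁) * mag β₁ ^ 2 with hc₀
  have hc0 : 0 < c₀ := mul_pos (by linarith) (pow_pos hm 2)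
  obtain ⟨Cr, hCr, hrow⟩ := g2_row hβ hJ hq
  obtain ⟨cl, hcl, hlow⟩ := g2_low hβ (by linarith : 0 < J) hq
  set l : ℝ := lam (Real.exp (-β)) with hl
  have hl0 : 0 < l := lam_pos (Real.exp_pos _) (t_lt_one (Real.exp_pos _) hq)
  refine ⟨4 / c₀, by positivity, fun r t hr ht => ?_⟩
  obtain ⟨r', rfl⟩ : ∃ r' : ℕ, r = r' := ⟨r.toNat, by omega⟩
  obtain ⟨Lr, hLr⟩ : ∃ Lr : ℝ, Lr = (l ^ r')⁻¹ + (l ^ (r' + 1))⁻¹ := ⟨_, rfl⟩
  have hLr0 : 0 < Lr := by
    rw [hLr]
    positivity
  set C' : ℝ := Cr * Lr / cl with hC'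
  have hC'0 : 0 < C' := by positivity
  refine ⟨max 100 (max (r' + 1) ⌈9 * C' / t⌉), fun N hN x K hx hKN => ?_⟩
  have hN100 : 100 ≤ N := (le_max_left _ _).trans hN
  have hNr' : (r' : ℤ) + 1 ≤ N := (le_max_left _ _).trans ((le_max_right _ _).trans hN)
  have hNt : 9 * C' / t ≤ N := by
    have h1 : ⌈9 * C' / t⌉ ≤ N := (le_max_right _ _).trans ((le_max_right _ _).trans hN)
    exact (Int.le_ceil _).trans (by exact_mod_cast h1)
  have hNr : (100 : ℝ) ≤ N := by exact_mod_cast hN100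
  have hN0 : (0 : ℝ) < N := by linarith
  have hN1 : 1 ≤ N := by omega
  have hK : 1 ≤ K := by
    have h1 : 0 < 4 / c₀ * Real.log N := mul_pos (by positivity) (Real.log_pos (by linarith))
    have h2 : (0 : ℝ) < K := lt_of_lt_of_le h1 hKN
    have h3 : (0 : ℤ) < K := by exact_mod_cast h2
    omega
  -- the exponential factor
  set E : ℝ := Real.exp (-(c₀ * K)) with hE
  have hE0 : 0 < E := Real.exp_pos _
  have hK0 : (1 : ℝ) ≤ K := by exact_mod_cast hK
  have hEN : E ≤ 1 / (N : ℝ) ^ 4 := by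
    have h1 : 4 * Real.log N ≤ c₀ * K := by
      have h2 := mul_le_mul_of_nonneg_left hKN hc0.le
      have h3 : c₀ * (4 / c₀ * Real.log N) = 4 * Real.log N := by field_simp
      linarith
    calc E ≤ Real.exp (-(4 * Real.log N)) := Real.exp_le_exp.2 (by linarith)
      _ = 1 / (N : ℝ) ^ 4 := by
        rw [Real.exp_neg, one_div]
        congr 1
        have h3 : 4 * Real.log N = ((4 : ℕ) : ℝ) * Real.log N := by norm_num
        rw [h3, Real.exp_nat_mul, Real.exp_log hN0]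
  set P : ℝ := (2 * (N : ℝ) + 1) ^ (3 / 2 : ℝ) with hP
  have hP1 : 1 ≤ P := Real.one_le_rpow (by linarith) (by norm_num)
  have hP2 : P ≤ (3 * (N : ℝ)) ^ 2 := by
    calc P ≤ (2 * (N : ℝ) + 1) ^ (2 : ℝ) :=
          Real.rpow_le_rpow_of_exponent_le (by linarith) (by norm_num)
      _ = (2 * (N : ℝ) + 1) ^ 2 := by
        rw [← Real.rpow_natCast]
        norm_num
      _ ≤ (3 * (N : ℝ)) ^ 2 := pow_le_pow_left₀ (by linarith) (by linarith) 2
  have hma : ((-N - 1, 0) : Site) ∈ PL (box N N) := by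
    rw [mem_PL_box (by omega) hN1]
    simp only
    omega
  have hmb : ((N, 0) : Site) ∈ PL (box N N) := by
    rw [mem_PL_box (by omega) hN1]
    simp only
    omega
  have hterm : ∀ p : PV (box N N), p.1.1 = x → K ≤ p.1.2 →
      avg β (kap J) (box N N) (eta 0) (fun ω => if On N ω p.1 then 1 else 0) ≤ C' * P * E := by
    intro p hpx hpK
    have hp := (mem_PL_box (by omega) hN1).1 p.2
    set a : PV (box N N) := ⟨(-N - 1, 0), hma⟩ with ha
    set b : PV (box N N) := ⟨(N, 0), hmb⟩ with hb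
    refine (contact_le (by omega) hN1 hβ.le (by linarith) (a := a) (b := b) rfl rfl p).trans ?_
    have hdec : ∀ q : PV (box N N), q.1.2 = 0 → G2 β J N N p q ≤ E := by
      intro q hq0
      refine (G2_decay h0 h.le hJ (by omega) hN1 p q).trans ?_
      rw [hE]
      apply Real.exp_le_exp.2
      rw [neg_le_neg_iff, ← hc₀]
      refine mul_le_mul_of_nonneg_left ?_ hc0.le
      have h1 : K ≤ max |p.1.1 - q.1.1| |p.1.2 - q.1.2| := by
        refine le_trans ?_ (le_max_right _ _)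
        rw [hq0, sub_zero]
        exact hpK.trans (le_abs_self _)
      exact_mod_cast h1
    have hlw : cl * l ^ (2 * N + 1).toNat / P ≤ G2 β J N N a b := by
      refine hlow N N hN1 ?_ a b rfl rfl
      have h1 : Nat.sqrt N.toNat * Nat.sqrt N.toNat ≤ N.toNat := Nat.sqrt_le _
      have h2 : 10 ≤ Nat.sqrt N.toNat := by
        rw [Nat.le_sqrt]
        omega
      have h3 : ((Nat.sqrt N.toNat : ℕ) : ℤ) * (Nat.sqrt N.toNat : ℕ) ≤ N := by
        have : ((Nat.sqrt N.toNat * Nat.sqrt N.toNat : ℕ) : ℤ) ≤ (N.toNat : ℤ) := by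
          exact_mod_cast h1
        rw [Int.toNat_of_nonneg (by omega)] at this
        push_cast at this
        exact this
      have h4 : (10 : ℤ) ≤ (Nat.sqrt N.toNat : ℕ) := by exact_mod_cast h2
      nlinarith
    have hrw : ∀ p : PV (box N N), G2 β J N N a p ≤ Cr * l ^ (p.1.1 + N + 1).toNat ∧
        G2 β J N N b p ≤ Cr * l ^ (N - p.1.1).toNat := by
      obtain ⟨m, rfl⟩ : ∃ m : ℕ, N = m := ⟨N.toNat, by omega⟩
      intro p
      exact hrow (m : ℤ) m hN1 (by omega) a b p rfl rfl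
    -- the product of the two factors
    have hprod : G2 β J N N a p * G2 β J N N p b ≤ Cr * (Lr * l ^ (2 * N + 1).toNat) * E := by
      rcases abs_eq (by omega : (0 : ℤ) ≤ N - r') |>.1 hx with hx1 | hx1
      · have h1 := (hrw p).1
        rw [hpx, hx1] at h1
        have h2 : l ^ (N - (r' : ℤ) + N + 1).toNat ≤ Lr * l ^ (2 * N + 1).toNat := by
          have e1 : (2 * N + 1).toNat = (N - (r' : ℤ) + N + 1).toNat + r' := by omega
          rw [e1, hLr, pow_add l ((N - (r' : ℤ) + N + 1).toNat) r']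
          have e2 : ((l ^ r')⁻¹ + (l ^ (r' + 1))⁻¹) * (l ^ (N - (r' : ℤ) + N + 1).toNat * l ^ r') =
              l ^ (N - (r' : ℤ) + N + 1).toNat + (l ^ (r' + 1))⁻¹ *
                (l ^ (N - (r' : ℤ) + N + 1).toNat * l ^ r') := by
            field_simp
          rw [e2]
          have e3 : 0 ≤ (l ^ (r' + 1))⁻¹ * (l ^ (N - (r' : ℤ) + N + 1).toNat * l ^ r') := by
            positivity
          linarith
        exact mul_le_mul (h1.trans (mul_le_mul_of_nonneg_left h2 hCr.le)) (hdec b rfl)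
          (G2_nonneg _ _) (by positivity)
      · have h1 := (hrw p).2
        rw [hpx, hx1] at h1
        have h2 : l ^ (N - -(N - (r' : ℤ))).toNat ≤ Lr * l ^ (2 * N + 1).toNat := by
          have e1 : (2 * N + 1).toNat = (N - -(N - (r' : ℤ))).toNat + (r' + 1) := by omega
          rw [e1, hLr, pow_add _ _ (r' + 1)]
          have e2 : ((l ^ r')⁻¹ + (l ^ (r' + 1))⁻¹) * (l ^ (N - -(N - (r' : ℤ))).toNat *
              l ^ (r' + 1)) = l ^ (N - -(N - (r' : ℤ))).toNat + (l ^ r')⁻¹ *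
                (l ^ (N - -(N - (r' : ℤ))).toNat * l ^ (r' + 1)) := by
            field_simp
            ring
          rw [e2]
          have e3 : 0 ≤ (l ^ r')⁻¹ * (l ^ (N - -(N - (r' : ℤ))).toNat * l ^ (r' + 1)) := by
            positivity
          linarith
        rw [G2_comm65 a p, G2_comm65 p b, mul_comm]
        exact mul_le_mul (h1.trans (mul_le_mul_of_nonneg_left h2 hCr.le)) (hdec a rfl)
          (G2_nonneg _ _) (by positivity)
    have hΛ : 0 < l ^ (2 * N + 1).toNat := pow_pos hl0 _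
    have hP0 : 0 < P := by linarith
    have hG0 : 0 < cl * l ^ (2 * N + 1).toNat / P := by positivity
    refine (div_le_div₀ (by positivity) hprod hG0 hlw).trans (le_of_eq ?_)
    rw [hC']
    field_simp
  refine (union65 hN1 hK (by positivity) hterm).trans ?_
  calc (N : ℝ) * (C' * P * E) ≤ N * (C' * (3 * (N : ℝ)) ^ 2 * (1 / (N : ℝ) ^ 4)) := by
        refine mul_le_mul_of_nonneg_left ?_ hN0.le
        exact mul_le_mul (mul_le_mul_of_nonneg_left hP2 hC'0.le) hEN hE0.le (by positivity)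
    _ = 9 * C' / N := by
        field_simp
        ring
    _ ≤ t := by
        rw [div_le_iff₀ ht] at hNt
        rw [div_le_iff₀ hN0]
        linarith

end Pool.Agent.Helper49.DX
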