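import Pool.Agent.Helper49.DL.Trans
import Pool.Agent.Helper49.DL.Odd
import Pool.Agent.Helper49.DL.Explore

/-!
Block DX-FKG1: the FKG inequality for the Gibbs averages.

`Cfg = Site → Bool` carries the pointwise order (`false ≤ true`); `Monotone f`, `Antitone f` refer to it.

Paper proofs.
* `avg_fkg`: by `Zg_ex` (DL/Plus.lean) `Zg β κ Λ η G = lK * ∑ c, wt lA (lJ β κ η) c * G (ex η c)`. The weight is
  log-supermodular although the one-body terms may be negative: `wt lA (lJ β κ η) = wt lA J2 * wt lA J1` with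
  `J2` the two-body part (`(lA e).card = 2`, there `osp = 1` so `lJ ≥ 0`) and one-body or constant terms, for which
  `sp (c v) + sp (c' v) = sp ((c ⊓ c') v) + sp ((c ⊔ c') v)`; `wt_super` (DL/Odd.lean) for the two-body part. Then
  `fkg` (Mathlib) with `μ c = wt lA (lJ β κ η) c`, applied to `f + C`, `g + C` (`C` large, so that both are nonnegative
  on the finite set), `c ↦ f (ex η c)` is monotone.
-/

open Finset
open scoped Classical

namespace Pool.Agent.Helper49.DX

open Pool.Agent.Helper49.DL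

section

variable {β : ℝ} {κ : Site → ℝ} {Λ Λ' : Finset Site} {η η' : Cfg}


lemma chi_one_33 {V : Type*} {A : Finset V} (hA : A.card ≤ 1) (c c' : V → Bool) :
    chi A c + chi A c' = chi A (c ⊓ c') + chi A (c ⊔ c') := by
  interval_cases h : A.card
  · rw [Finset.card_eq_zero] at h
    subst h
    simp [chi_empty]
  · rw [Finset.card_eq_one] at h
    obtain ⟨v, rfl⟩ := h
    simp only [chi_singleton, Pi.inf_apply, Pi.sup_apply]
    exact sp_inf_sup_one _ _

lemma card_lA_33 (e : LB Λ) : (lA e).card ≤ 2 := by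
  have h : (lA e).image (fun v => v.1) ⊆ {lp e, lq e} := by
    intro x hx
    obtain ⟨v, hv, rfl⟩ := Finset.mem_image.1 hx
    simp only [lA, Finset.mem_filter, Finset.mem_univ, true_and] at hv
    simpa using hv
  have h1 := Finset.card_le_card h
  rw [Finset.card_image_of_injective _ Subtype.val_injective] at h1
  exact h1.trans Finset.card_le_two

lemma card_lA_33' (e : LB Λ) (he : ¬ (lp e ∈ Λ ∧ lq e ∈ Λ)) : (lA e).card ≤ 1 := by
  rw [Finset.card_le_one]
  intro v hv w hw
  simp only [lA, Finset.mem_filter, Finset.mem_univ, true_and] at hv hw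
  apply Subtype.ext
  rcases hv with hv | hv <;> rcases hw with hw | hw
  · rw [hv, hw]
  · exact absurd ⟨hv ▸ v.2, hw ▸ w.2⟩ he
  · exact absurd ⟨hw ▸ w.2, hv ▸ v.2⟩ he
  · rw [hv, hw]

lemma wt_super_33 (hβ : 0 ≤ β) (hκ : ∀ i, 0 ≤ κ i) (c c' : LV Λ → Bool) :
    wt lA (lJ β κ η) c * wt lA (lJ β κ η) c' ≤
      wt lA (lJ β κ η) (c ⊓ c') * wt lA (lJ β κ η) (c ⊔ c') := by
  unfold wt
  rw [← Real.exp_add, ← Real.exp_add]
  apply Real.exp_le_exp.2
  rw [← Finset.sum_add_distrib, ← Finset.sum_add_distrib]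
  refine Finset.sum_le_sum fun e _ => ?_
  rw [← mul_add, ← mul_add]
  by_cases he : lp e ∈ Λ ∧ lq e ∈ Λ
  · refine mul_le_mul_of_nonneg_left (chi_super (card_lA_33 e) c c') ?_
    unfold lJ osp
    rw [if_pos he.1, if_pos he.2]
    have := lk_nonneg hκ e
    positivity
  · rw [chi_one_33 (card_lA_33' e he) c c']

theorem avg_fkg (hβ : 0 ≤ β) (hκ : ∀ i, 0 ≤ κ i) {f g : Cfg → ℝ} (hf : Monotone f)
    (hg : Monotone g) : avg β κ Λ η f * avg β κ Λ η g ≤ avg β κ Λ η (fun ω => f ω * g ω) := by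
  have hex : ∀ c c' : LV Λ → Bool, c ≤ c' → ex η c ≤ ex η c' := by
    intro c c' h i
    unfold ex
    split_ifs with hi
    · exact h _
    · exact le_rfl
  set μ : (LV Λ → Bool) → ℝ := fun c => wt lA (lJ β κ η) c with hμ
  have hμ0 : ∀ c, 0 < μ c := fun c => wt_pos _ _ _
  set F : (LV Λ → Bool) → ℝ := fun c => f (ex η c) with hF
  set G : (LV Λ → Bool) → ℝ := fun c => g (ex η c) with hG
  set C : ℝ := ∑ c, |F c| with hC
  set D : ℝ := ∑ c, |G c| with hD
  have hFC : ∀ c, 0 ≤ F c + C := by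
    intro c
    have := Finset.single_le_sum (f := fun c => |F c|) (fun c _ => abs_nonneg _) (Finset.mem_univ c)
    have h2 := neg_abs_le (F c)
    linarith
  have hGD : ∀ c, 0 ≤ G c + D := by
    intro c
    have := Finset.single_le_sum (f := fun c => |G c|) (fun c _ => abs_nonneg _) (Finset.mem_univ c)
    have h2 := neg_abs_le (G c)
    linarith
  have key := fkg (μ := μ) (f := fun c => F c + C) (g := fun c => G c + D) (fun c => (hμ0 c).le)
    hFC hGD (fun c c' h => by simpa using hf (hex c c' h))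
    (fun c c' h => by simpa using hg (hex c c' h)) (fun c c' => wt_super_33 hβ hκ c c')
  set S := ∑ c, μ c with hS
  have hSpos : 0 < S := Finset.sum_pos (fun c _ => hμ0 c) Finset.univ_nonempty
  have e1 : ∑ c, μ c * (F c + C) = ∑ c, μ c * F c + S * C := by
    rw [hS, Finset.sum_mul, ← Finset.sum_add_distrib]
    exact Finset.sum_congr rfl fun c _ => by ring
  have e2 : ∑ c, μ c * (G c + D) = ∑ c, μ c * G c + S * D := by
    rw [hS, Finset.sum_mul, ← Finset.sum_add_distrib]
    exact Finset.sum_congr rfl fun c _ => by ring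
  have e3 : ∑ c, μ c * ((F c + C) * (G c + D)) =
      ∑ c, μ c * (F c * G c) + (∑ c, μ c * F c) * D + (∑ c, μ c * G c) * C + S * C * D := by
    rw [hS, Finset.sum_mul, Finset.sum_mul, Finset.sum_mul, Finset.sum_mul,
      ← Finset.sum_add_distrib, ← Finset.sum_add_distrib, ← Finset.sum_add_distrib]
    exact Finset.sum_congr rfl fun c _ => by ring
  rw [e1, e2, e3] at key
  have key2 : (∑ c, μ c * F c) * ∑ c, μ c * G c ≤ S * ∑ c, μ c * (F c * G c) := by
    nlinarith [key]
  have hK := lK_pos (Λ := Λ) β κ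
  have h1 : Zg β κ Λ η (fun _ => 1) = lK Λ β κ * S := by
    rw [Zg_ex]
    simp [hS, hμ]
  have h2 : ∀ H : Cfg → ℝ, avg β κ Λ η H = (∑ c, μ c * H (ex η c)) / S := by
    intro H
    unfold avg
    rw [h1, Zg_ex, mul_div_mul_left _ _ hK.ne']
  rw [h2, h2, h2, div_mul_div_comm, div_le_div_iff₀ (by positivity) hSpos]
  have key3 := mul_le_mul_of_nonneg_right key2 hSpos.le
  calc _ ≤ (S * ∑ c, μ c * (F c * G c)) * S := key3
    _ = _ := by ring

end

end Pool.Agent.Helper49.DX
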