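import Pool.Agent.Helper49.DX.Fkg

/-!
Block DX-FKG2: consequences of the FKG inequality: monotonicity in the boundary condition and in the
domain.

Paper proofs.
* `avg_bdry`: choose `η₁ i = if i ∈ Λ ∨ i is adjacent to Λ then η i else false`, `η₂ = η₁ ⊔ η'`-like: it suffices to treat
  `η ≤ η'` pointwise by `avg_sameBdry` (replace `η` by `fun i => if i is adjacent to Λ then η i else η' i`; `f` is `Loc Λ`). For
  `η ≤ η'`: the density of the `η'` measure with respect to the `η` measure in terms of `c : LV Λ → Bool` is proportional to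
  `exp (∑ e, (lJ β κ η' e - lJ β κ η e) * chi (lA e) c)`, only one-body terms with nonnegative coefficients (if `(lA e).card = 1`,
  `lJ η e = β lk e / 2 * sp (η (outer endpoint))`) and constants: an increasing function `h` of `c`. So
  `avg η' f = avg η (f h) / avg η h ≥ avg η f` by `avg_fkg`-type inequality for functions of `c`.
* `avg_fixed`: `Λ' ⊆ Λ`, `η = false` on `Λ \ Λ'`: let `D = 1 {ω = false on Λ \ Λ'}` (antitone). By `dlr`-free direct
  computation (`Zg Λ η (D F) = const * Zg Λ' η F`, use `wg_swap`, `confs Λ' η ⊆ confs Λ η`), `avg Λ' η f = avg Λ η (D f) / avg Λ η D`,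
  and `avg_fkg` for `f` and `1 - D` gives `avg (D f) ≤ avg D * avg f`.
-/

open Finset
open scoped Classical

namespace Pool.Agent.Helper49.DX

open Pool.Agent.Helper49.DL

section

variable {β : ℝ} {κ : Site → ℝ} {Λ Λ' : Finset Site} {η η' : Cfg}

/-- The density of the `η'` weight with respect to the `η` weight. -/
private noncomputable def dens88 (β : ℝ) (κ : Site → ℝ) (Λ : Finset Site) (η η' : Cfg) (ω : Cfg) : ℝ :=
  Real.exp (∑ e : LB Λ, (lJ β κ η' e - lJ β κ η e) * chi (lA e) (fun v : LV Λ => ω v.1))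

private lemma adj88 (e : LB Λ) {w : Site} (hw : w ∉ Λ)
    (h : (w = lp e ∧ lq e ∈ Λ) ∨ (w = lq e ∧ lp e ∈ Λ)) :
    w + e1 ∈ Λ ∨ w - e1 ∈ Λ ∨ w + e2 ∈ Λ ∨ w - e2 ∈ Λ := by
  rcases h with ⟨rfl, h⟩ | ⟨rfl, h⟩
  · cases e with
    | inl i => left; exact h
    | inr i => right; right; left; exact h
  · cases e with
    | inl i => right; left; simpa [lq, DL.lp] using h
    | inr i => right; right; right; simpa [lq, DL.lp] using h

private lemma term_mono88 (hβ : 0 ≤ β) (hκ : ∀ i, 0 ≤ κ i)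
    (h : ∀ i, i ∉ Λ → (i + e1 ∈ Λ ∨ i - e1 ∈ Λ ∨ i + e2 ∈ Λ ∨ i - e2 ∈ Λ) → η i ≤ η' i)
    (e : LB Λ) {ω ω' : Cfg} (hω : ω ≤ ω') :
    (lJ β κ η' e - lJ β κ η e) * chi (lA e) (fun v : LV Λ => ω v.1) ≤
      (lJ β κ η' e - lJ β κ η e) * chi (lA e) (fun v : LV Λ => ω' v.1) := by
  have hk := lk_nonneg hκ e
  by_cases hp : lp e ∈ Λ
  · by_cases hq : lq e ∈ Λ
    · have e0 : lJ β κ η' e - lJ β κ η e = 0 := by
        unfold lJ osp
        rw [if_pos hp, if_pos hq, if_pos hp, if_pos hq]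
        ring
      rw [e0, zero_mul, zero_mul]
    · have hA : lA e = {(⟨lp e, hp⟩ : LV Λ)} := by
        ext v
        simp only [lA, Finset.mem_filter, Finset.mem_univ, true_and, Finset.mem_singleton]
        constructor
        · rintro (hv | hv)
          · exact Subtype.ext hv
          · exact absurd (hv ▸ v.2) hq
        · rintro rfl; left; rfl
      have hle := h (lq e) hq (adj88 e hq (Or.inr ⟨rfl, hp⟩))
      have h0 : 0 ≤ lJ β κ η' e - lJ β κ η e := by
        unfold lJ osp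
        rw [if_pos hp, if_neg hq, if_pos hp, if_neg hq]
        have := sp_mono hle
        have h3 : 0 ≤ β * lk κ e / 2 := by positivity
        nlinarith [mul_nonneg h3 (sub_nonneg.2 this)]
      rw [hA, chi_singleton, chi_singleton]
      exact mul_le_mul_of_nonneg_left (sp_mono (hω _)) h0
  · by_cases hq : lq e ∈ Λ
    · have hA : lA e = {(⟨lq e, hq⟩ : LV Λ)} := by
        ext v
        simp only [lA, Finset.mem_filter, Finset.mem_univ, true_and, Finset.mem_singleton]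
        constructor
        · rintro (hv | hv)
          · exact absurd (hv ▸ v.2) hp
          · exact Subtype.ext hv
        · rintro rfl; right; rfl
      have hle := h (lp e) hp (adj88 e hp (Or.inl ⟨rfl, hq⟩))
      have h0 : 0 ≤ lJ β κ η' e - lJ β κ η e := by
        unfold lJ osp
        rw [if_neg hp, if_pos hq, if_neg hp, if_pos hq]
        have := sp_mono hle
        have h3 : 0 ≤ β * lk κ e / 2 := by positivity
        nlinarith [mul_nonneg h3 (sub_nonneg.2 this)]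
      rw [hA, chi_singleton, chi_singleton]
      exact mul_le_mul_of_nonneg_left (sp_mono (hω _)) h0
    · have hA : lA e = ∅ := by
        ext v
        simp only [lA, Finset.mem_filter, Finset.mem_univ, true_and, Finset.notMem_empty, iff_false]
        rintro (hv | hv)
        · exact absurd (hv ▸ v.2) hp
        · exact absurd (hv ▸ v.2) hq
      rw [hA, chi_empty, chi_empty]

private lemma dens_mono88 (hβ : 0 ≤ β) (hκ : ∀ i, 0 ≤ κ i)
    (h : ∀ i, i ∉ Λ → (i + e1 ∈ Λ ∨ i - e1 ∈ Λ ∨ i + e2 ∈ Λ ∨ i - e2 ∈ Λ) → η i ≤ η' i) :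
    Monotone (dens88 β κ Λ η η') := by
  intro ω ω' hω
  unfold dens88
  exact Real.exp_le_exp.2 (Finset.sum_le_sum fun e _ => term_mono88 hβ hκ h e hω)

private lemma wt_dens88 (c : LV Λ → Bool) :
    wt lA (lJ β κ η') c = wt lA (lJ β κ η) c * dens88 β κ Λ η η' (ex η c) := by
  unfold wt dens88
  rw [← Real.exp_add, ← Finset.sum_add_distrib]
  congr 1
  refine Finset.sum_congr rfl fun e _ => ?_
  have hc : (fun v : LV Λ => ex η c v.1) = c := by
    funext v; exact ex_in η c v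
  rw [hc]
  ring

private lemma Zg_dens88 {F : Cfg → ℝ} (hF : Loc Λ F) :
    Zg β κ Λ η' F = Zg β κ Λ η (fun ω => F ω * dens88 β κ Λ η η' ω) := by
  rw [Zg_ex, Zg_ex]
  congr 1
  refine Finset.sum_congr rfl fun c _ => ?_
  have h1 : F (ex η' c) = F (ex η c) := by
    apply hF
    intro i hi
    rw [ex_in η' c ⟨i, hi⟩, ex_in η c ⟨i, hi⟩]
  rw [wt_dens88 (η := η) (η' := η'), h1]
  ring

theorem avg_bdry (hβ : 0 ≤ β) (hκ : ∀ i, 0 ≤ κ i)
    (h : ∀ i, i ∉ Λ → (i + e1 ∈ Λ ∨ i - e1 ∈ Λ ∨ i + e2 ∈ Λ ∨ i - e2 ∈ Λ) → η i ≤ η' i)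
    {f : Cfg → ℝ} (hf : Monotone f) (hloc : Loc Λ f) : avg β κ Λ η f ≤ avg β κ Λ η' f := by
  have key := avg_fkg (Λ := Λ) (η := η) hβ hκ hf (dens_mono88 hβ hκ h)
  have hpos : 0 < Zg β κ Λ η (fun _ => 1) := Zg_one_pos
  have hpos' : 0 < Zg β κ Λ η' (fun _ => 1) := Zg_one_pos
  have h1 : Zg β κ Λ η' (fun _ => 1) = Zg β κ Λ η (dens88 β κ Λ η η') := by
    rw [Zg_dens88 (η := η) (loc_const 1)]
    congr 1
    funext ω
    rw [one_mul]
  have h2 : avg β κ Λ η (fun ω => f ω * dens88 β κ Λ η η' ω) =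
      avg β κ Λ η' f * avg β κ Λ η (dens88 β κ Λ η η') := by
    unfold avg
    rw [← h1, Zg_dens88 (η := η) hloc]
    field_simp
  have h3 : 0 < avg β κ Λ η (dens88 β κ Λ η η') := by
    unfold avg
    rw [← h1]
    exact div_pos hpos' hpos
  rw [h2] at key
  exact le_of_mul_le_mul_right key h3

private noncomputable def ind88 (Λ Λ' : Finset Site) (ω : Cfg) : ℝ :=
  if ∀ i ∈ Λ, i ∉ Λ' → ω i = false then 1 else 0

private lemma ind_anti88 : Monotone (fun ω => 1 - ind88 Λ Λ' ω) := by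
  intro ω ω' h
  show 1 - ind88 Λ Λ' ω ≤ 1 - ind88 Λ Λ' ω'
  unfold ind88
  by_cases h1 : ∀ i ∈ Λ, i ∉ Λ' → ω' i = false
  · have h2 : ∀ i ∈ Λ, i ∉ Λ' → ω i = false := by
      intro i hi hi'
      have h3 : ω i ≤ ω' i := h i
      rw [h1 i hi hi'] at h3
      exact Bool.eq_false_of_le_false h3
    rw [if_pos h1, if_pos h2]
  · rw [if_neg h1]
    split_ifs <;> norm_num

private lemma Zg_ind88 (hΛ : Λ' ⊆ Λ) (h : ∀ i ∈ Λ, i ∉ Λ' → η i = false) (F : Cfg → ℝ) :
    Zg β κ Λ η (fun ω => F ω * ind88 Λ Λ' ω) =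
      wg β κ Λ η / wg β κ Λ' η * Zg β κ Λ' η F := by
  have hsub : confs Λ' η ⊆ confs Λ η := by
    intro ω hω
    rw [mem_confs] at *
    exact fun i hi => hω i (fun hh => hi (hΛ hh))
  have h1 : Zg β κ Λ η (fun ω => F ω * ind88 Λ Λ' ω) = ∑ ω ∈ confs Λ' η, wg β κ Λ ω * F ω := by
    unfold Zg
    symm
    have h2 : ∀ ω ∈ confs Λ' η, wg β κ Λ ω * F ω = wg β κ Λ ω * (F ω * ind88 Λ Λ' ω) := by
      intro ω hω
      rw [mem_confs] at hω
      unfold ind88
      rw [if_pos, mul_one]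
      intro i hi hi'
      rw [hω i hi', h i hi hi']
    rw [Finset.sum_congr rfl h2]
    refine Finset.sum_subset hsub ?_
    intro ω hω hω'
    unfold ind88
    rw [if_neg, mul_zero, mul_zero]
    intro hall
    apply hω'
    rw [mem_confs] at *
    intro i hi
    by_cases hiΛ : i ∈ Λ
    · rw [hall i hiΛ hi, h i hiΛ hi]
    · exact hω i hiΛ
  rw [h1]
  unfold Zg
  rw [Finset.mul_sum]
  refine Finset.sum_congr rfl fun ξ hξ => ?_
  have h3 := wg_swap (β := β) (κ := κ) hΛ hξ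
  have h4 := wg_pos β κ Λ' η
  rw [div_mul_eq_mul_div, eq_div_iff h4.ne']
  linear_combination (-F ξ) * h3

theorem avg_fixed (hβ : 0 ≤ β) (hκ : ∀ i, 0 ≤ κ i) (hΛ : Λ' ⊆ Λ)
    (h : ∀ i ∈ Λ, i ∉ Λ' → η i = false) {f : Cfg → ℝ} (hf : Monotone f) :
    avg β κ Λ' η f ≤ avg β κ Λ η f := by
  have key := avg_fkg (Λ := Λ) (η := η) hβ hκ hf (ind_anti88 (Λ := Λ) (Λ' := Λ'))
  have hpos : 0 < Zg β κ Λ η (fun _ => 1) := Zg_one_pos
  have hpos' : 0 < Zg β κ Λ' η (fun _ => 1) := Zg_one_pos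
  set q : ℝ := wg β κ Λ η / wg β κ Λ' η with hq
  have hqpos : 0 < q := div_pos (wg_pos _ _ _ _) (wg_pos _ _ _ _)
  have hD : avg β κ Λ η (ind88 Λ Λ') = q * Zg β κ Λ' η (fun _ => 1) / Zg β κ Λ η (fun _ => 1) := by
    have := Zg_ind88 (β := β) (κ := κ) hΛ h (fun _ => 1)
    simp only [one_mul] at this
    unfold avg
    rw [show (Zg β κ Λ η (ind88 Λ Λ')) = Zg β κ Λ η (fun ω => ind88 Λ Λ' ω) from rfl, this]
  have hfD : avg β κ Λ η (fun ω => f ω * ind88 Λ Λ' ω) =
      q * Zg β κ Λ' η f / Zg β κ Λ η (fun _ => 1) := by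
    unfold avg
    rw [Zg_ind88 hΛ h f]
  have hDpos : 0 < avg β κ Λ η (ind88 Λ Λ') := by
    rw [hD]; positivity
  have h1 : avg β κ Λ η (fun ω => 1 - ind88 Λ Λ' ω) = 1 - avg β κ Λ η (ind88 Λ Λ') := by
    rw [avg_sub, avg_const]
  have h2 : avg β κ Λ η (fun ω => f ω * (1 - ind88 Λ Λ' ω)) =
      avg β κ Λ η f - avg β κ Λ η (fun ω => f ω * ind88 Λ Λ' ω) := by
    rw [← avg_sub]
    congr 1
    funext ω
    ring
  rw [h1, h2] at key
  have h3 : avg β κ Λ η (fun ω => f ω * ind88 Λ Λ' ω) ≤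
      avg β κ Λ η f * avg β κ Λ η (ind88 Λ Λ') := by linarith
  have h4 : avg β κ Λ η (fun ω => f ω * ind88 Λ Λ' ω) =
      avg β κ Λ' η f * avg β κ Λ η (ind88 Λ Λ') := by
    rw [hfD, hD]
    unfold avg
    field_simp
  rw [h4] at h3
  exact le_of_mul_le_mul_right h3 hDpos

end

end Pool.Agent.Helper49.DX
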