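import Pool.Agent.Helper49.DX.Cst

/-!
Block DX-MINP: the minimum principle and its application to super solutions.

Paper proof.
* `minp`: suppose `D i₀ < 0`, `r = - D i₀ / h i₀ > 0`. The set `{i | D i ≤ -(r * h i)}` is contained in
  `{i | D i < -((r / 2) * h i)}`, so it is finite, and it contains `i₀`; let `i` maximise `- D i / h i` on it
  and put `m = - D i / h i ≥ r`. Then `D i = -(m * h i)` and `-(m * h j) ≤ D j` for all `j` (for `j` in the set
  by maximality, for the others `D j > -(r * h j) ≥ -(m * h j)`). This contradicts `hstep`.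
* `sup_nonneg`: apply `minp` with `I = {(k, y) | k ≤ L + 1, y ≤ m}` (for instance
  `Fin (L + 2) × Fin (m + 1)`), `D (k, y) = p k y`, `h (k, y) = 1` if `y ≠ 0`, `h (k, 0) = 1 / θ`,
  `θ = the t td ≥ 1`. (`g y = p 0 y / t`, `g 0 = p 0 0 / td`.) `hstep` at a minimal point `(k, y)`, with
  `D = -(M * h)` there:
  - `k = L + 1`: `p (L + 1) y ≥ 0`, contradiction.
  - `1 ≤ k ≤ L`, `2 ≤ y < m`: `A2 * (-M) = A2 * p k y ≥ sum of four terms ≥ -4 M`, but `A2 > 4`.
    (`A2 t - 4 = (1 - 2 t - t²)² / (t (1 - t²))`-like: with `λ = lam t ∈ (0, 1)`, `A2 t = 1/λ + λ + 2`.)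
  - `y = 1`: the term `θ * p k 0 ≥ θ * (-M / θ) = -M`, the same.
  - `y = 0`: `(A2 + μ ch) * (-M / θ) ≥ -M / θ - ζ M / θ - 2 M`, i.e. `A2 + μ ch ≤ 1 + ζ + 2 θ =
    4 + t μ + μ sh`; but `A2 > 4` and `ch ≥ sh + t` (`ch - sh = (1 - t) / (1 + t)`).
  - `y = m`, `1 ≤ k ≤ L`: `(A2 - t) ≤ 3 + 2 t ∑_{i < k - 1} t ^ (i + 1) + t ^ (k - 1) * (ch - 1)`
    (`g m = p 0 m / t ≥ -M / t`); but the right side is at most `3 + 2 t² / (1 - t)`
    (`ch - 1 = 2 t² / (1 - t²) ≤ 2 t² / (1 - t)`), and `t + 2 t² / (1 - t) = λ < 1`, `A2 > 4`.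
  - `k = 0`, `1 ≤ y < m`: multiply `gbulk` by `t`: `ch * (-M) ≥ -(sh + t) M` (for `y = 1` note
    `g 0 = p 0 0 / td ≥ -M / (θ td) = -(ζ / θ) (M / t)` and `ζ ≤ θ`), but `ch > sh + t`.
  - `k = 0`, `y = 0`: `ch * (-(ζ / θ) (M / t)) ≥ -sh * M / t - M / θ`, i.e. `ch ζ ≤ sh θ + t`,
    i.e. `ch + ch t μ ≤ sh + t + μ sh² / 2`; but `ch > sh + t`, `ch t ≥ sh² / 2`.
  - `k = 0`, `y = m`: `(1 + ch) / 2 ≤ sh / 2 + t`; but `1 + ch > 2 (sh + t)`: `ch > sh + t` and
    `1 ≥ sh + t`, (`sh + t < ch`... `1 - sh - t = (1 - 3 t - t² + t³) / (1 - t²)`: if this fails use directly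
    `(1 + ch) / 2 - sh / 2 - t = (1 - t - t (1 - t²)) / (1 - t²) = (1 - 2 t + t³) / (1 - t²) > 0`.)
-/

open Finset

namespace Pool.Agent.Helper49.DX

open Pool.Agent.Helper49.DL

theorem minp {I : Type*} (D h : I → ℝ) (hh : ∀ i, 0 < h i)
    (hfin : ∀ m : ℝ, 0 < m → {i | D i < -(m * h i)}.Finite)
    (hstep : ∀ m : ℝ, 0 < m → ∀ i, D i = -(m * h i) → (∀ j, -(m * h j) ≤ D j) → False) :
    ∀ i, 0 ≤ D i := by
  by_contra hcon
  push Not at hcon
  obtain ⟨i₀, hi₀⟩ := hcon
  set r : ℝ := -D i₀ / h i₀ with hr
  have hr0 : 0 < r := div_pos (by linarith) (hh i₀)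
  have hri : D i₀ = -(r * h i₀) := by
    rw [hr, div_mul_cancel₀ _ (hh i₀).ne']
    ring
  have hmem : i₀ ∈ {i | D i < -((r / 2) * h i)} := by
    rw [Set.mem_ofPred_eq, hri]
    have := mul_pos hr0 (hh i₀)
    linarith
  obtain ⟨i, hi, hmax⟩ := Set.exists_max_image _ (fun i => -D i / h i) (hfin (r / 2) (by linarith))
    ⟨i₀, hmem⟩
  have hmr : r ≤ -D i / h i := hmax i₀ hmem
  refine hstep (-D i / h i) (lt_of_lt_of_le hr0 hmr) i ?_ ?_
  · rw [div_mul_cancel₀ _ (hh i).ne']
    ring
  · intro j
    by_cases hj : j ∈ {i | D i < -((r / 2) * h i)}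
    · have h1 : -D j / h j ≤ -D i / h i := hmax j hj
      rw [div_le_iff₀ (hh j)] at h1
      linarith
    · rw [Set.mem_ofPred_eq, not_lt] at hj
      have h1 : r / 2 * h j ≤ (-D i / h i) * h j :=
        mul_le_mul_of_nonneg_right (by linarith) (hh j).le
      linarith

private theorem geo52 {t c : ℝ} (ht : 0 < t) (ht1 : t < 1) (hc : c ≤ 2 * t ^ 2 / (1 - t)) (k : ℕ) :
    2 * t * (∑ i ∈ Finset.range k, t ^ (i + 1)) + t ^ k * c ≤ 2 * t ^ 2 / (1 - t) := by
  have h1 : (1 - t) ≠ 0 := by linarith
  have h2 : 2 * t * (∑ i ∈ Finset.range k, t ^ (i + 1)) = 2 * t ^ 2 / (1 - t) * (1 - t ^ k) := by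
    induction k with
    | zero => simp
    | succ k ih =>
      rw [Finset.sum_range_succ, mul_add, ih]
      field_simp
      ring
  rw [h2]
  have h3 := mul_le_mul_of_nonneg_left hc (pow_pos ht k).le
  have h4 : 2 * t ^ 2 / (1 - t) * (1 - t ^ k) + t ^ k * (2 * t ^ 2 / (1 - t)) =
    2 * t ^ 2 / (1 - t) := by ring
  linarith

private theorem sup_all52 {t td : ℝ} (ht : 0 < t) (hq : t ^ 2 + 2 * t < 1) (htd : 0 < td)
    (htt : td ≤ t) {m L : ℕ} (hm : 2 ≤ m) {g : ℕ → ℝ} {p : ℕ → ℕ → ℝ} (h : Sup t td m L g p)
    (h0 : ∀ y ≤ m, 0 ≤ p (L + 1) y) {M : ℝ} (hM : 0 < M) {k y : ℕ} (hk : k ≤ L + 1) (hy : y ≤ m)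
    (hky : p k y = -(M * (if y = 0 then 1 / the t td else 1)))
    (hB : ∀ k ≤ L + 1, ∀ y ≤ m, -(M * (if y = 0 then 1 / the t td else 1)) ≤ p k y) : False := by
  have ht1 := t_lt_one ht hq
  have hth1 := the_ge_one (t := t) (td := td) ht ht1 htd htt
  have hth0 : 0 < the t td := by linarith
  have hB1 : ∀ k ≤ L + 1, ∀ y ≤ m, y ≠ 0 → -M ≤ p k y := by
    intro k hk y hy hy0
    have := hB k hk y hy
    rwa [if_neg hy0, mul_one] at this
  have hB0 : ∀ k ≤ L + 1, -(M / the t td) ≤ p k 0 := by
    intro k hk
    have := hB k hk 0 (Nat.zero_le _)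
    rwa [if_pos rfl, mul_one_div] at this
  have hB0' : ∀ k ≤ L + 1, -M ≤ the t td * p k 0 := by
    intro k hk
    have h1 := mul_le_mul_of_nonneg_left (hB0 k hk) hth0.le
    have h2 : the t td * -(M / the t td) = -M := by
      field_simp
    linarith
  have hg1 : ∀ y ≤ m, y ≠ 0 → -M ≤ t * g y := by
    intro y hy hy0
    have h1 := hB1 0 (Nat.zero_le _) y hy hy0
    rwa [h.lev y hy, if_neg hy0] at h1
  have hg0 : -(M / the t td) ≤ td * g 0 := by
    have h1 := hB0 0 (Nat.zero_le _)
    rwa [h.lev 0 (Nat.zero_le _), if_pos rfl] at h1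
  have hzt := zet_le_the (t := t) (td := td) ht ht1 htd htt
  have hze := zet_ge_one (t := t) (td := td) ht htd htt
  have hgall : ∀ y ≤ m, -M ≤ t * g y := by
    intro y hy
    by_cases hy0 : y = 0
    · subst hy0
      have h1 : zet t td * td = t := by
        unfold zet
        field_simp
      have h2 := mul_le_mul_of_nonneg_left hg0 (by linarith : (0 : ℝ) ≤ zet t td)
      have h3 : zet t td * (td * g 0) = t * g 0 := by rw [← mul_assoc, h1]
      have h4 : zet t td * (M / the t td) ≤ M := by
        rw [← mul_div_assoc, div_le_iff₀ hth0]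
        nlinarith
      linarith
    · exact hg1 y hy hy0
  have hA := A2_gt ht hq
  have hch := ch_gt ht hq
  have hmu := mu_nonneg (t := t) (td := td) htd htt
  have hshp := shh_pos ht ht1
  have hchp := chh_pos ht ht1
  rcases Nat.eq_zero_or_pos k with hk0 | hk0
  · -- level zero
    subst hk0
    rcases Nat.eq_zero_or_pos y with hy0 | hy0
    · subst hy0
      rw [if_pos rfl, mul_one_div, h.lev 0 (Nat.zero_le _), if_pos rfl] at hky
      have h1 := h.gzero
      have h2 := hg1 1 (by omega) one_ne_zero
      have h3 := hB0' 1 (by omega)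
      -- multiply by θ t
      have e1 : the t td * (td * g 0) = -M := by
        rw [hky]
        field_simp
      have hz : zet t td * td = t := by
        unfold zet
        field_simp
      have e2 : the t td * (t * g 0) = -(M * zet t td) := by
        calc the t td * (t * g 0) = the t td * (zet t td * td * g 0) := by rw [hz]
          _ = zet t td * (the t td * (td * g 0)) := by ring
          _ = -(M * zet t td) := by rw [e1]; ring
      have h4 := mul_le_mul_of_nonneg_left h1 (mul_pos hth0 ht).le
      have h5 : the t td * t * (chh t * g 0) = -(M * (chh t * zet t td)) := by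
        calc the t td * t * (chh t * g 0) = chh t * (the t td * (t * g 0)) := by ring
          _ = -(M * (chh t * zet t td)) := by rw [e2]; ring
      have h6 : -(M * (the t td * shh t)) ≤ the t td * t * (shh t * g 1) := by
        have := mul_le_mul_of_nonneg_left h2 (mul_pos hth0 hshp).le
        calc -(M * (the t td * shh t)) = the t td * shh t * -M := by ring
          _ ≤ _ := this
          _ = _ := by ring
      have h7 : -(M * t) ≤ the t td * t * p 1 0 := by
        have := mul_le_mul_of_nonneg_left h3 ht.le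
        calc -(M * t) = t * -M := by ring
          _ ≤ _ := this
          _ = _ := by ring
      have h8 : M * (chh t * zet t td) ≤ M * (the t td * shh t + t) := by
        rw [mul_add] at h4
        rw [h5] at h4
        linarith
      have h9 := le_of_mul_le_mul_left h8 hM
      have hze2 := zet_eq (t := t) (td := td) ht
      have h10 := ch_t_gt ht hq
      rw [hze2] at h9
      unfold the at h9
      have h11 := mul_le_mul_of_nonneg_left h10.le hmu
      have h12 : chh t * (1 + t * mu t td) = chh t + mu t td * (chh t * t) := by ring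
      have h13 : (1 + mu t td * shh t / 2) * shh t + t =
        shh t + t + mu t td * (shh t ^ 2 / 2) := by ring
      rw [h12, h13] at h9
      linarith
    · rw [if_neg hy0.ne', mul_one, h.lev y hy, if_neg hy0.ne'] at hky
      rcases Nat.lt_or_ge y m with hym | hym
      · have h1 := h.gbulk y hy0 hym
        have h2 := hgall (y + 1) (by omega)
        have h3 := hgall (y - 1) (by omega)
        have h4 := hB1 1 (by omega) y hy hy0.ne'
        have h5 := mul_le_mul_of_nonneg_left h1 ht.le
        have h6 := mul_le_mul_of_nonneg_left h2 (by linarith : (0 : ℝ) ≤ shh t / 2)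
        have h7 := mul_le_mul_of_nonneg_left h3 (by linarith : (0 : ℝ) ≤ shh t / 2)
        have h8 := mul_le_mul_of_nonneg_left h4 ht.le
        have h9 : t * (chh t * g y) = -(M * chh t) := by
          calc t * (chh t * g y) = chh t * (t * g y) := by ring
            _ = _ := by rw [hky]; ring
        rw [h9] at h5
        have h10 : M * chh t ≤ M * (shh t + t) := by
          have e : t * (shh t / 2 * (g (y + 1) + g (y - 1)) + p 1 y) =
            shh t / 2 * (t * g (y + 1)) + shh t / 2 * (t * g (y - 1)) + t * p 1 y := by ring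
          rw [e] at h5
          linarith
        have h11 := le_of_mul_le_mul_left h10 hM
        linarith
      · have hym' : y = m := le_antisymm hy hym
        subst hym'
        have h1 := h.gtop
        have h3 := hgall (y - 1) (by omega)
        have h4 := hB1 1 (by omega) y hy hy0.ne'
        have h5 := mul_le_mul_of_nonneg_left h1 ht.le
        have h7 := mul_le_mul_of_nonneg_left h3 (by linarith : (0 : ℝ) ≤ shh t / 2)
        have h8 := mul_le_mul_of_nonneg_left h4 ht.le
        have h9 : t * ((1 + chh t) / 2 * g y) = -(M * ((1 + chh t) / 2)) := by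
          calc t * ((1 + chh t) / 2 * g y) = (1 + chh t) / 2 * (t * g y) := by ring
            _ = _ := by rw [hky]; ring
        rw [h9] at h5
        have h10 : M * ((1 + chh t) / 2) ≤ M * (shh t / 2 + t) := by
          have e : t * (shh t / 2 * g (y - 1) + p 1 y) =
            shh t / 2 * (t * g (y - 1)) + t * p 1 y := by ring
          rw [e] at h5
          linarith
        have h11 := le_of_mul_le_mul_left h10 hM
        have h12 := ch_sub_sh ht ht1
        have h13 : 2 * t - 1 < (1 - t) / (1 + t) := by
          rw [lt_div_iff₀ (by linarith)]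
          nlinarith
        linarith
  · rcases Nat.lt_or_ge L k with hkL | hkL
    · have hkL' : k = L + 1 := le_antisymm hk hkL
      subst hkL'
      have h1 := h0 y hy
      rw [hky] at h1
      have h2 : 0 < (if y = 0 then 1 / the t td else (1 : ℝ)) := by
        split_ifs
        · positivity
        · exact one_pos
      have h3 := mul_pos hM h2
      linarith
    · obtain ⟨k, rfl⟩ : ∃ k', k = k' + 1 := ⟨k - 1, by omega⟩
      have hkl : k < L := hkL
      rcases Nat.eq_zero_or_pos y with hy0 | hy0
      · subst hy0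
        rw [if_pos rfl, mul_one_div] at hky
        have h1 := h.zero k hkl
        have h2 := hB0' (k + 2) (by omega)
        have h3 := hB0' k (by omega)
        have h4 := hB1 (k + 1) (by omega) 1 (by omega) one_ne_zero
        have e1 : the t td * p (k + 1) 0 = -M := by
          rw [hky]
          field_simp
        have h5 := mul_le_mul_of_nonneg_left h1 hth0.le
        have h6 := mul_le_mul_of_nonneg_left h3 (by linarith : (0 : ℝ) ≤ zet t td)
        have h7 := mul_le_mul_of_nonneg_left h4 hth0.le
        have h8 : the t td * ((A2 t + mu t td * chh t) * p (k + 1) 0) =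
            -(M * (A2 t + mu t td * chh t)) := by
          calc the t td * ((A2 t + mu t td * chh t) * p (k + 1) 0) =
              (A2 t + mu t td * chh t) * (the t td * p (k + 1) 0) := by ring
            _ = _ := by rw [e1]; ring
        rw [h8] at h5
        have h9 : M * (A2 t + mu t td * chh t) ≤ M * (1 + zet t td + 2 * the t td) := by
          have e : the t td * (p (k + 2) 0 + zet t td * p k 0 + 2 * p (k + 1) 1) =
            the t td * p (k + 2) 0 + zet t td * (the t td * p k 0) + 2 * (the t td * p (k + 1) 1) := by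
            ring
          rw [e] at h5
          linarith
        have h10 := le_of_mul_le_mul_left h9 hM
        have hze2 := zet_eq (t := t) (td := td) ht
        rw [hze2] at h10
        unfold the at h10
        have h11 := mul_le_mul_of_nonneg_left hch.le hmu
        have h12 : 1 + (1 + t * mu t td) + 2 * (1 + mu t td * shh t / 2) =
          4 + mu t td * (shh t + t) := by ring
        rw [h12] at h10
        linarith
      · rw [if_neg hy0.ne', mul_one] at hky
        rcases Nat.lt_or_ge y m with hym | hym
        · have h2 := hB1 (k + 2) (by omega) y hy hy0.ne'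
          have h3 := hB1 k (by omega) y hy hy0.ne'
          have h4 := hB1 (k + 1) (by omega) (y + 1) (by omega) (by omega)
          have key : M * A2 t ≤ M * 4 := by
            rcases Nat.lt_or_ge y 2 with hy2 | hy2
            · have hy1 : y = 1 := by omega
              subst hy1
              have h1 := h.one k hkl
              have h5 := hB0' (k + 1) (by omega)
              rw [hky] at h1
              have h6 : p (k + 1) (1 + 1) = p (k + 1) 2 := rfl
              rw [h6] at h4
              linarith
            · have h1 := h.bulk k y hkl hy2 hym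
              have h5 := hB1 (k + 1) (by omega) (y - 1) (by omega) (by omega)
              rw [hky] at h1
              linarith
          have h11 := le_of_mul_le_mul_left key hM
          linarith
        · have hym' : y = m := le_antisymm hy hym
          subst hym'
          have h1 := h.top k hkl
          have h2 := hB1 (k + 2) (by omega) y hy hy0.ne'
          have h3 := hB1 k (by omega) y hy hy0.ne'
          have h4 := hB1 (k + 1) (by omega) (y - 1) (by omega) (by omega)
          have h5 : -(M * ∑ i ∈ Finset.range k, t ^ (i + 1)) ≤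
              ∑ i ∈ Finset.range k, t ^ (i + 1) * p (k - i) y := by
            rw [Finset.mul_sum, ← Finset.sum_neg_distrib]
            refine Finset.sum_le_sum fun i _ => ?_
            have h6 := hB1 (k - i) (by omega) y hy hy0.ne'
            have h7 := mul_le_mul_of_nonneg_left h6 (pow_pos ht (i + 1)).le
            linarith
          have hc1 : 0 ≤ chh t - 1 := by
            rw [ch_sub_one ht ht1]
            positivity
          have h6 : -(M * (t ^ k * (chh t - 1))) ≤ t ^ (k + 1) * (chh t - 1) * g y := by
            have h7 := mul_le_mul_of_nonneg_left (hgall y hy) (mul_nonneg (pow_pos ht k).le hc1)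
            calc -(M * (t ^ k * (chh t - 1))) = t ^ k * (chh t - 1) * -M := by ring
              _ ≤ _ := h7
              _ = _ := by rw [pow_succ]; ring
          have h7 := geo52 ht ht1 (ch_sub_one_le ht ht1) k
          have h8 := lam_eq (t := t) ht1
          have h9 := lam_lt_one ht hq
          have h10 : M * (A2 t - t) ≤ M * (3 + 2 * t * (∑ i ∈ Finset.range k, t ^ (i + 1)) +
              t ^ k * (chh t - 1)) := by
            rw [hky] at h1
            have h11 := mul_le_mul_of_nonneg_left h5 (by linarith : (0 : ℝ) ≤ 2 * t)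
            linarith
          have h11 := le_of_mul_le_mul_left h10 hM
          linarith

theorem sup_nonneg {t td : ℝ} (ht : 0 < t) (hq : t ^ 2 + 2 * t < 1) (htd : 0 < td) (htt : td ≤ t)
    {m L : ℕ} (hm : 2 ≤ m) {g : ℕ → ℝ} {p : ℕ → ℕ → ℝ} (h : Sup t td m L g p)
    (h0 : ∀ y ≤ m, 0 ≤ p (L + 1) y) : ∀ y ≤ m, 0 ≤ g y := by
  have ht1 := t_lt_one ht hq
  have hth1 := the_ge_one (t := t) (td := td) ht ht1 htd htt
  have hth0 : 0 < the t td := by linarith
  have key := minp (I := Fin (L + 2) × Fin (m + 1)) (fun i => p i.1 i.2)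
    (fun i => if (i.2 : ℕ) = 0 then 1 / the t td else 1)
    (fun i => by
      show (0 : ℝ) < (if (i.2 : ℕ) = 0 then 1 / the t td else 1)
      split_ifs
      · positivity
      · exact one_pos)
    (fun _ _ => Set.toFinite _)
    (fun M hM i hi hj => sup_all52 ht hq htd htt hm h h0 hM (k := i.1) (y := i.2)
      (by have := i.1.isLt; omega) (by have := i.2.isLt; omega) hi
      (fun k hk y hy => hj (⟨k, by omega⟩, ⟨y, by omega⟩)))
  intro y hy
  have h1 : 0 ≤ p 0 y := key (⟨0, by omega⟩, ⟨y, by omega⟩)
  rw [h.lev y hy] at h1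
  have h2 : 0 < (if y = 0 then td else t) := by
    split_ifs
    · exact htd
    · exact ht
  exact nonneg_of_mul_nonneg_right h1 h2

end Pool.Agent.Helper49.DX
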