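import Pool.Agent.Helper49.DX.FouDef
import Pool.Agent.Helper49.DX.Minp

/-!
Block DX-FMP: monotonicity properties of the solution on the half line.

Paper proof. All by `minp` with `h = 1` on `I = {(k, j) | k ≤ L + 1 (or L), 1 ≤ j}` (`Fin (L + 2) × ℕ`);
`hfin` follows from `dec`. `A2 t > 4`, `ch > sh + t`, `ch > sh` (`λ = lam t < 1`, `A2 t = 1/λ + λ + 2`).
* `f_nonneg`: `D = F`: `bulk`: `-A2 M ≥ -4 M` impossible; `bot`: `-ch M ≥ -(sh + t) M` impossible; the level
  `L + 1` is nonnegative.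
* `f_ratio`: `R k j = F k j / j`, `K k j = R k j - R k (j + 1)` (`j ≥ 1`) satisfies
  `(A2 + 1/(j (j+1))) K_k(j) = K_{k+1}(j) + K_{k-1}(j) + ((j+2)/(j+1)) K_k(j+1) + ((j-1)/j) K_k(j-1)` for
  `1 ≤ k ≤ L`, and `ch K_0(j) + (sh/2) K_0(j)/(j (j+1)) = (sh/2) [((j+2)/(j+1)) K_0(j+1) + ((j-1)/j) K_0(j-1)] + t K_1(j)`;
  the sum of the coefficients on the right is `4 - 1/(j(j+1))` resp. `sh (1 - 1/(2 j (j+1))) + t`. On the level
  `L + 1`: `R = e^{-ε j}` is decreasing.
* `f_le_src`: `D k j = j e^{-ε j} - F k j`: `s j = j e^{-ε j}` satisfies `s (j + 1) + s (j - 1) =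
  2 cosh ε s j - 2 sinh ε e^{-ε j} ≤ 2 cosh ε s j`, and `2 + 2 cosh ε ≤ A2` since `e^{-ε} ≥ λ`; level `0`:
  `ch ≥ sh cosh ε + t`, because `ch - sh cosh τ - t = t (1 + t²) (1 - 2 t - t²) / (1 - t²)² ≥ 0` (`e^{-τ} = λ`).
* `f_mono`: `D k j = F (k + 1) j - F k j` for `k ≤ L`. `k = L`: `f_le_src`. `1 ≤ k < L`: difference of `bulk` on
  two levels. `k = 0`: from `bot` and `bulk` (with `k = 0`)
  `(ch + sh/2) D_0(j) = (sh/2) (D_0(j+1) + D_0(j-1) + D_1(j)) + c F 1 j`,
  `c = ch + sh - t - sh A2/2 = t (1 + t²) (1 - 2 t - t²) / (1 - t²)² ≥ 0` (if `L = 0`, there is nothing but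
  `f_le_src`).
* `f_step`: `D k j = F k (j + 1) - e^{-ε} F k j` for `j ≥ 0`; `D k 0 = F k 1 ≥ 0`, level `L + 1`:
  `e^{-ε (j + 1)} ≥ 0`; for `j ≥ 1` the same linear equations as for `F`.
-/

open Finset

namespace Pool.Agent.Helper49.DX

open Pool.Agent.Helper49.DL

section

variable {t ε : ℝ} {L : ℕ} {F : ℕ → ℕ → ℝ}

private theorem mp_fmp1 {L : ℕ} (D : ℕ → ℕ → ℝ)
    (hdec : ∀ k ≤ L + 1, Filter.Tendsto (D k) Filter.atTop (nhds 0))
    (hstep : ∀ m : ℝ, 0 < m → ∀ k ≤ L + 1, ∀ n, D k n = -m → (∀ k' ≤ L + 1, ∀ n', -m ≤ D k' n') → False) :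
    ∀ k ≤ L + 1, ∀ n, 0 ≤ D k n := by
  have h := minp (I := Fin (L + 2) × ℕ) (fun i => D i.1 i.2) (fun _ => 1) (fun _ => one_pos) ?_ ?_
  · intro k hk n
    exact h (⟨k, by omega⟩, n)
  · intro m hm
    have h1 : ∀ k : Fin (L + 2), ∃ N : ℕ, ∀ n ≥ N, -m < D k n := by
      intro k
      have h2 := (hdec k (by omega)).eventually (lt_mem_nhds (a := -m) (by linarith))
      exact Filter.eventually_atTop.1 h2
    choose N hN using h1
    refine (Set.finite_univ.prod (Set.finite_Iio (Finset.univ.sup N))).subset ?_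
    rintro ⟨k, n⟩ hkn
    refine ⟨trivial, ?_⟩
    by_contra h3
    have h4 : Finset.univ.sup N ≤ n := not_lt.1 h3
    have h5 := hN k n ((Finset.le_sup (Finset.mem_univ k)).trans h4)
    have h6 : D k n < -(m * 1) := hkn
    linarith
  · intro m hm i hi hall
    refine hstep m hm i.1 (by omega) i.2 (by simpa using hi) fun k' hk' n' => ?_
    have h1 : -(m * 1) ≤ D k' n' := hall (⟨k', by omega⟩, n')
    linarith

private theorem key_fmp1 {x a b b2 z m : ℝ} (hx : 1 ≤ x) (hm : 0 < m) (hK : a / x - b / (x + 1) = -m)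
    (h1 : -m ≤ b / (x + 1) - b2 / (x + 2)) (h2 : -((x - 1) / x * m) ≤ z / x - (x - 1) / x * (a / x)) :
    -(2 * m) ≤ b / x - b2 / (x + 1) + (z / x - a / (x + 1)) := by
  have hx0 : 0 < x := by linarith
  have key : b / x - b2 / (x + 1) + (z / x - a / (x + 1)) = (x + 2) / (x + 1) * (b / (x + 1) - b2 / (x + 2)) +
      (z / x - (x - 1) / x * (a / x)) - 1 / (x * (x + 1)) * (a / x - b / (x + 1)) := by
    field_simp
    ring
  rw [key, hK]
  have h3 : (x + 2) / (x + 1) * (-m) ≤ (x + 2) / (x + 1) * (b / (x + 1) - b2 / (x + 2)) :=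
    mul_le_mul_of_nonneg_left h1 (by positivity)
  have h4 : (x + 2) / (x + 1) * (-m) + -((x - 1) / x * m) - 1 / (x * (x + 1)) * (-m) =
      -(2 * m) + 2 * (1 / (x * (x + 1))) * m := by
    field_simp
    ring
  have h5 : 0 < 2 * (1 / (x * (x + 1))) * m := by positivity
  linarith

theorem f_nonneg (ht : 0 < t) (hq : t ^ 2 + 2 * t < 1) (hε : 0 < ε) (h : FSys t ε L F) :
    ∀ k ≤ L + 1, ∀ j, 0 ≤ F k j := by
  refine mp_fmp1 F h.dec fun m hm k hk n hn hall => ?_
  have hA := A2_gt ht hq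
  have hch := ch_gt ht hq
  have hsh := (shh_pos ht (t_lt_one ht hq)).le
  have hn1 : 1 ≤ n := by
    rcases Nat.eq_zero_or_pos n with rfl | h1
    · rw [h.zero k hk] at hn
      linarith
    · exact h1
  rcases Nat.lt_or_ge L k with h1 | h1
  · have h2 : k = L + 1 := by omega
    rw [h2, h.src] at hn
    have h3 : 0 ≤ (n : ℝ) * Real.exp (-(ε * n)) := by positivity
    linarith
  · rcases Nat.eq_zero_or_pos k with rfl | h2
    · have h3 := h.bot n hn1
      rw [hn] at h3
      have h4 := hall 0 (by omega) (n + 1)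
      have h5 := hall 0 (by omega) (n - 1)
      have h6 := hall 1 (by omega) n
      have h7 : shh t / 2 * (-m + -m) ≤ shh t / 2 * (F 0 (n + 1) + F 0 (n - 1)) :=
        mul_le_mul_of_nonneg_left (by linarith) (by positivity)
      have h8 : t * (-m) ≤ t * F 1 n := mul_le_mul_of_nonneg_left h6 ht.le
      nlinarith
    · obtain ⟨k', rfl⟩ : ∃ k', k = k' + 1 := ⟨k - 1, by omega⟩
      have h3 := h.bulk k' n (by omega) hn1
      rw [hn] at h3
      have h4 := hall (k' + 2) (by omega) n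
      have h5 := hall k' (by omega) n
      have h6 := hall (k' + 1) (by omega) (n + 1)
      have h7 := hall (k' + 1) (by omega) (n - 1)
      nlinarith

theorem f_ratio (ht : 0 < t) (hq : t ^ 2 + 2 * t < 1) (hε : 0 < ε) (h : FSys t ε L F) :
    ∀ k ≤ L + 1, ∀ j : ℕ, 1 ≤ j → (j : ℝ) * F k (j + 1) ≤ ((j : ℝ) + 1) * F k j := by
  have hA := A2_gt ht hq
  have hch := ch_gt ht hq
  have hsh := (shh_pos ht (t_lt_one ht hq)).le
  have key := mp_fmp1 (L := L) (fun k n => F k (n + 1) / ((n : ℝ) + 1) - F k (n + 2) / ((n : ℝ) + 2)) ?_ ?_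
  · intro k hk j hj
    obtain ⟨n, rfl⟩ : ∃ n, j = n + 1 := ⟨j - 1, by omega⟩
    have h1 := key k hk n
    have h2 : F k (n + 2) / ((n : ℝ) + 2) ≤ F k (n + 1) / ((n : ℝ) + 1) := by linarith
    rw [div_le_div_iff₀ (by positivity) (by positivity)] at h2
    push_cast
    linarith
  · intro k hk
    have h1 : Filter.Tendsto (fun n : ℕ => F k (n + 1) / ((n : ℝ) + 1)) Filter.atTop (nhds 0) := by
      refine ((Filter.tendsto_add_atTop_iff_nat 1).2 (h.dec k hk)).div_atTop ?_
      exact Filter.tendsto_atTop_add_const_right _ _ tendsto_natCast_atTop_atTop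
    have h2 : Filter.Tendsto (fun n : ℕ => F k (n + 2) / ((n : ℝ) + 2)) Filter.atTop (nhds 0) := by
      refine ((Filter.tendsto_add_atTop_iff_nat 2).2 (h.dec k hk)).div_atTop ?_
      exact Filter.tendsto_atTop_add_const_right _ _ tendsto_natCast_atTop_atTop
    simpa using h1.sub h2
  · intro m hm k hk n hn hall
    have hx1 : (1 : ℝ) ≤ (n : ℝ) + 1 := by
      have := Nat.cast_nonneg (α := ℝ) n
      linarith
    have hx0 : (0 : ℝ) < (n : ℝ) + 1 := by linarith
    have e1 : (n : ℝ) + 1 + 1 = (n : ℝ) + 2 := by ring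
    have hz : -(((n : ℝ) + 1 - 1) / ((n : ℝ) + 1) * m) ≤
        F k n / ((n : ℝ) + 1) - ((n : ℝ) + 1 - 1) / ((n : ℝ) + 1) * (F k (n + 1) / ((n : ℝ) + 1)) := by
      rw [add_sub_cancel_right]
      rcases Nat.eq_zero_or_pos n with rfl | h0
      · rw [h.zero k hk]
        simp
      · obtain ⟨n', rfl⟩ : ∃ n', n = n' + 1 := ⟨n - 1, by omega⟩
        have h1 : -m ≤ F k (n' + 1) / ((n' : ℝ) + 1) - F k (n' + 2) / ((n' : ℝ) + 2) := hall k hk n'
        push_cast
        have e2 : (n' : ℝ) + 1 + 1 = (n' : ℝ) + 2 := by ring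
        rw [e2]
        have h2 : ((n' : ℝ) + 1) / ((n' : ℝ) + 2) * (-m) ≤ ((n' : ℝ) + 1) / ((n' : ℝ) + 2) *
            (F k (n' + 1) / ((n' : ℝ) + 1) - F k (n' + 2) / ((n' : ℝ) + 2)) :=
          mul_le_mul_of_nonneg_left h1 (by positivity)
        have h3 : ((n' : ℝ) + 1) / ((n' : ℝ) + 2) * (F k (n' + 1) / ((n' : ℝ) + 1)) =
            F k (n' + 1) / ((n' : ℝ) + 2) := by
          field_simp
        have h4 : n' + 1 + 1 = n' + 2 := rfl
        rw [h4]
        rw [mul_sub, h3] at h2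
        linarith
    have hs := key_fmp1 (x := (n : ℝ) + 1) (a := F k (n + 1)) (b := F k (n + 2)) (b2 := F k (n + 3)) (z := F k n)
      hx1 hm (by rw [e1]; exact hn) (by
        have h1 := hall k hk (n + 1)
        push_cast at h1
        have e3 : (n : ℝ) + 1 + 2 = (n : ℝ) + 1 + 2 := rfl
        exact h1) hz
    rw [e1] at hs
    rcases Nat.lt_or_ge L k with h1 | h1
    · have h2 : k = L + 1 := by omega
      subst h2
      simp only [h.src] at hn
      have h3 : ((n + 1 : ℕ) : ℝ) * Real.exp (-(ε * (n + 1 : ℕ))) / ((n : ℝ) + 1) =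
          Real.exp (-(ε * (n + 1 : ℕ))) := by
        push_cast
        field_simp
      have h4 : ((n + 2 : ℕ) : ℝ) * Real.exp (-(ε * (n + 2 : ℕ))) / ((n : ℝ) + 2) =
          Real.exp (-(ε * (n + 2 : ℕ))) := by
        push_cast
        field_simp
      rw [h3, h4] at hn
      have h5 : Real.exp (-(ε * (n + 2 : ℕ))) ≤ Real.exp (-(ε * (n + 1 : ℕ))) := by
        apply Real.exp_le_exp.2
        push_cast
        nlinarith
      linarith
    · rcases Nat.eq_zero_or_pos k with rfl | h2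
      · have b1 := h.bot (n + 1) (by omega)
        have b2 := h.bot (n + 2) (by omega)
        rw [show n + 1 - 1 = n by omega, show n + 1 + 1 = n + 2 by omega] at b1
        rw [show n + 2 - 1 = n + 1 by omega, show n + 2 + 1 = n + 3 by omega] at b2
        have h3 : -m ≤ F 1 (n + 1) / ((n : ℝ) + 1) - F 1 (n + 2) / ((n : ℝ) + 2) := hall 1 (by omega) n
        have h4 : chh t * (F 0 (n + 1) / ((n : ℝ) + 1) - F 0 (n + 2) / ((n : ℝ) + 2)) =
            shh t / 2 * (F 0 (n + 2) / ((n : ℝ) + 1) - F 0 (n + 3) / ((n : ℝ) + 2) +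
              (F 0 n / ((n : ℝ) + 1) - F 0 (n + 1) / ((n : ℝ) + 2))) +
            t * (F 1 (n + 1) / ((n : ℝ) + 1) - F 1 (n + 2) / ((n : ℝ) + 2)) := by
          calc _ = (chh t * F 0 (n + 1)) / ((n : ℝ) + 1) - (chh t * F 0 (n + 2)) / ((n : ℝ) + 2) := by ring
            _ = _ := by
              rw [b1, b2]
              ring
        rw [hn] at h4
        have h5 : shh t / 2 * (-(2 * m)) ≤ shh t / 2 * (F 0 (n + 2) / ((n : ℝ) + 1) - F 0 (n + 3) / ((n : ℝ) + 2) +
              (F 0 n / ((n : ℝ) + 1) - F 0 (n + 1) / ((n : ℝ) + 2))) :=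
          mul_le_mul_of_nonneg_left hs (by positivity)
        have h6 := mul_le_mul_of_nonneg_left h3 ht.le
        nlinarith
      · obtain ⟨k', rfl⟩ : ∃ k', k = k' + 1 := ⟨k - 1, by omega⟩
        have b1 := h.bulk k' (n + 1) (by omega) (by omega)
        have b2 := h.bulk k' (n + 2) (by omega) (by omega)
        rw [show n + 1 - 1 = n by omega, show n + 1 + 1 = n + 2 by omega] at b1
        rw [show n + 2 - 1 = n + 1 by omega, show n + 2 + 1 = n + 3 by omega] at b2
        have h3 : -m ≤ F (k' + 2) (n + 1) / ((n : ℝ) + 1) - F (k' + 2) (n + 2) / ((n : ℝ) + 2) :=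
          hall (k' + 2) (by omega) n
        have h3' : -m ≤ F k' (n + 1) / ((n : ℝ) + 1) - F k' (n + 2) / ((n : ℝ) + 2) := hall k' (by omega) n
        have h4 : A2 t * (F (k' + 1) (n + 1) / ((n : ℝ) + 1) - F (k' + 1) (n + 2) / ((n : ℝ) + 2)) =
            (F (k' + 2) (n + 1) / ((n : ℝ) + 1) - F (k' + 2) (n + 2) / ((n : ℝ) + 2)) +
            (F k' (n + 1) / ((n : ℝ) + 1) - F k' (n + 2) / ((n : ℝ) + 2)) +
            (F (k' + 1) (n + 2) / ((n : ℝ) + 1) - F (k' + 1) (n + 3) / ((n : ℝ) + 2) +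
              (F (k' + 1) n / ((n : ℝ) + 1) - F (k' + 1) (n + 1) / ((n : ℝ) + 2))) := by
          calc _ = (A2 t * F (k' + 1) (n + 1)) / ((n : ℝ) + 1) - (A2 t * F (k' + 1) (n + 2)) / ((n : ℝ) + 2) := by
                ring
            _ = _ := by
              rw [b1, b2]
              ring
        rw [hn] at h4
        nlinarith

private lemma minp_lev {K : ℕ} {D : ℕ → ℕ → ℝ}
    (hdec : ∀ k ≤ K, Filter.Tendsto (D k) Filter.atTop (nhds 0))
    (hstep : ∀ M : ℝ, 0 < M → ∀ k ≤ K, ∀ j, D k j = -M → (∀ k' ≤ K, ∀ j', -M ≤ D k' j') → False) :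
    ∀ k ≤ K, ∀ j, 0 ≤ D k j := by
  intro k hk j
  have := minp (I := Fin (K + 1) × ℕ) (fun i => D i.1 i.2) (fun _ => 1) (fun _ => one_pos) ?_ ?_
    (⟨k, by omega⟩, j)
  · exact this
  · intro m hm
    have h1 : ∀ k : Fin (K + 1), {j | D k j < -(m * 1)}.Finite := by
      intro k
      have h2 := (hdec k (by omega)).eventually (lt_mem_nhds (show -(m * 1) < 0 by linarith))
      rw [Filter.eventually_atTop] at h2
      obtain ⟨N, hN⟩ := h2
      refine (Set.finite_lt_nat N).subset ?_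
      intro j hj
      by_contra hc
      exact absurd hj (not_lt.2 (hN j (not_lt.1 hc)).le)
    have h3 : {i : Fin (K + 1) × ℕ | D i.1 i.2 < -(m * 1)} ⊆
        ⋃ k : Fin (K + 1), (fun j => (k, j)) '' {j | D k j < -(m * 1)} := by
      rintro ⟨k, j⟩ h
      exact Set.mem_iUnion.2 ⟨k, j, h, rfl⟩
    exact (Set.finite_iUnion fun k => (h1 k).image _).subset h3
  · intro m hm i hi hj
    refine hstep m hm i.1 (by omega) i.2 (by simpa using hi) ?_
    intro k' hk' j'
    simpa using hj (⟨k', by omega⟩, j')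

private lemma cosh_le_lam (ht : 0 < t) (hq : t ^ 2 + 2 * t < 1) (hε : 0 < ε)
    (hl : lam t ≤ Real.exp (-ε)) : Real.exp ε + Real.exp (-ε) ≤ lam t + 1 / lam t := by
  have hl0 := lam_pos ht (t_lt_one ht hq)
  have hx1 : Real.exp (-ε) < 1 := Real.exp_lt_one_iff.2 (by linarith)
  have hx0 : 0 < Real.exp (-ε) := Real.exp_pos _
  have hxe : Real.exp ε = 1 / Real.exp (-ε) := by
    rw [Real.exp_neg, one_div, inv_inv]
  rw [hxe]
  have hl1 := lam_lt_one ht hq
  have key : lam t + 1 / lam t - (1 / Real.exp (-ε) + Real.exp (-ε)) =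
      (Real.exp (-ε) - lam t) * (1 - Real.exp (-ε) * lam t) / (Real.exp (-ε) * lam t) := by
    field_simp
    ring
  have h2 : 0 ≤ (Real.exp (-ε) - lam t) * (1 - Real.exp (-ε) * lam t) / (Real.exp (-ε) * lam t) := by
    apply div_nonneg (mul_nonneg (by linarith) _) (by positivity)
    nlinarith
  linarith

private lemma src_conv (hε : 0 < ε) (j : ℕ) (hj : 1 ≤ j) :
    ((j + 1 : ℕ) : ℝ) * Real.exp (-(ε * ((j + 1 : ℕ) : ℝ))) +
      ((j - 1 : ℕ) : ℝ) * Real.exp (-(ε * ((j - 1 : ℕ) : ℝ))) ≤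
      (Real.exp ε + Real.exp (-ε)) * (j * Real.exp (-(ε * j))) := by
  obtain ⟨i, rfl⟩ : ∃ i, j = i + 1 := ⟨j - 1, by omega⟩
  have e1 : Real.exp (-(ε * ((i + 1 + 1 : ℕ) : ℝ))) = Real.exp (-ε) * Real.exp (-(ε * ((i + 1 : ℕ) : ℝ))) := by
    rw [← Real.exp_add]; congr 1; push_cast; ring
  have e2 : Real.exp (-(ε * ((i + 1 - 1 : ℕ) : ℝ))) = Real.exp ε * Real.exp (-(ε * ((i + 1 : ℕ) : ℝ))) := by
    rw [← Real.exp_add]; congr 1; rw [Nat.add_sub_cancel]; push_cast; ring
  rw [e1, e2, Nat.add_sub_cancel]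
  have h3 : Real.exp (-ε) ≤ Real.exp ε := Real.exp_le_exp.2 (by linarith)
  have h4 := Real.exp_pos (-(ε * ((i + 1 : ℕ) : ℝ)))
  push_cast at h4 ⊢
  nlinarith

theorem f_le_src (ht : 0 < t) (hq : t ^ 2 + 2 * t < 1) (hε : 0 < ε) (hl : lam t ≤ Real.exp (-ε))
    (h : FSys t ε L F) : ∀ k ≤ L + 1, ∀ j : ℕ, F k j ≤ j * Real.exp (-(ε * j)) := by
  have ht1 := t_lt_one ht hq
  have hA := A2_eq ht ht1
  have hA4 := A2_gt ht hq
  have hch := ch_gt ht hq
  have hch2 := ch_ge_cosh ht hq
  have hsh := shh_pos ht ht1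
  have hcosh := cosh_le_lam ht hq hε hl
  have hs : ∀ j : ℕ, 0 ≤ (j : ℝ) * Real.exp (-(ε * j)) := fun j => by positivity
  have key := minp_lev (K := L + 1) (D := fun k j => F (L + 1) j - F k j) ?_ ?_
  · intro k hk j
    have := key k hk j
    rw [← h.src j]
    linarith
  · intro k hk
    simpa using (h.dec (L + 1) le_rfl).sub (h.dec k hk)
  · intro M hM k hk j hD hall
    rcases Nat.eq_zero_or_pos j with rfl | hj
    · beta_reduce at hD
      rw [h.zero k hk, h.zero (L + 1) le_rfl] at hD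
      linarith
    have hc := src_conv hε j hj
    rw [← h.src, ← h.src, ← h.src] at hc
    have hs' := hs j
    rw [← h.src] at hs'
    rcases Nat.eq_zero_or_pos k with rfl | hk0
    · have hb := h.bot j hj
      have a1 := hall 0 (by omega) (j + 1)
      have a2 := hall 0 (by omega) (j - 1)
      have a3 := hall 1 (by omega) j
      beta_reduce at hD a1 a2 a3
      have b1 : shh t / 2 * (F (L + 1) (j + 1) + F (L + 1) (j - 1)) + t * F (L + 1) j ≤
          chh t * F (L + 1) j := by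
        have c1 : shh t / 2 * (F (L + 1) (j + 1) + F (L + 1) (j - 1)) ≤
            shh t / 2 * ((lam t + 1 / lam t) * F (L + 1) j) := by
          apply mul_le_mul_of_nonneg_left _ (by positivity)
          exact hc.trans (mul_le_mul_of_nonneg_right hcosh hs')
        have c2 := mul_le_mul_of_nonneg_right hch2 hs'
        linarith
      have b2 : shh t / 2 * (-M + -M) + t * (-M) ≤ shh t / 2 * ((F (L + 1) (j + 1) - F 0 (j + 1)) +
          (F (L + 1) (j - 1) - F 0 (j - 1))) + t * (F (L + 1) j - F 1 j) :=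
        add_le_add (mul_le_mul_of_nonneg_left (add_le_add a1 a2) (by positivity))
          (mul_le_mul_of_nonneg_left a3 ht.le)
      have b3 : chh t * (F (L + 1) j - F 0 j) = chh t * (-M) := by rw [hD]
      have b4 := mul_lt_mul_of_pos_right hch hM
      linarith
    · obtain ⟨i, rfl⟩ : ∃ i, k = i + 1 := ⟨k - 1, by omega⟩
      rcases Nat.lt_or_ge i L with hi | hi
      · have hb := h.bulk i j hi hj
        have a1 := hall (i + 2) (by omega) j
        have a2 := hall i (by omega) j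
        have a3 := hall (i + 1) hk (j + 1)
        have a4 := hall (i + 1) hk (j - 1)
        beta_reduce at hD a1 a2 a3 a4
        have c1 : F (L + 1) (j + 1) + F (L + 1) (j - 1) ≤ (lam t + 1 / lam t) * F (L + 1) j :=
          hc.trans (mul_le_mul_of_nonneg_right hcosh hs')
        have c2 : A2 t * F (L + 1) j = (lam t + 1 / lam t) * F (L + 1) j + 2 * F (L + 1) j := by
          rw [hA]; ring
        have b3 : A2 t * (F (L + 1) j - F (i + 1) j) = A2 t * (-M) := by rw [hD]
        have b4 := mul_lt_mul_of_pos_right hA4 hM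
        linarith
      · have : i = L := by omega
        subst this
        beta_reduce at hD
        linarith

theorem f_mono (ht : 0 < t) (hq : t ^ 2 + 2 * t < 1) (hε : 0 < ε) (hl : lam t ≤ Real.exp (-ε))
    (h : FSys t ε L F) : ∀ k ≤ L, ∀ j, F k j ≤ F (k + 1) j := by
  have ht1 := t_lt_one ht hq
  have hA := A2_eq ht ht1
  have hA4 := A2_gt ht hq
  have hch := ch_gt ht hq
  have hch2 := ch_ge_cosh ht hq
  have hsh := shh_pos ht ht1
  have key := minp_lev (K := L) (D := fun k j => F (k + 1) j - F k j) ?_ ?_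
  · intro k hk j
    have := key k hk j
    linarith
  · intro k hk
    simpa using (h.dec (k + 1) (by omega)).sub (h.dec k (by omega))
  · intro M hM k hk j hD hall
    rcases Nat.eq_zero_or_pos j with rfl | hj
    · simp only [h.zero k (by omega), h.zero (k + 1) (by omega)] at hD
      linarith
    rcases Nat.lt_or_ge k L with hkL | hkL
    · rcases Nat.eq_zero_or_pos k with rfl | hk0
      · have hb := h.bot j hj
        have hb2 := h.bulk 0 j hkL hj
        have a1 := hall 0 (by omega) (j + 1)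
        have a2 := hall 0 (by omega) (j - 1)
        have a3 := hall 1 (by omega) j
        have hn := f_nonneg ht hq hε h 1 (by omega) j
        simp only [zero_add] at hD a1 a2 a3 hb2
        have id1 : (chh t + shh t / 2) * (F 1 j - F 0 j) =
            shh t / 2 * ((F 1 (j + 1) - F 0 (j + 1)) + (F 1 (j - 1) - F 0 (j - 1)) + (F 2 j - F 1 j)) +
            (chh t + shh t - t - shh t * A2 t / 2) * F 1 j := by
          linear_combination -hb + shh t / 2 * hb2
        have hc : 0 ≤ chh t + shh t - t - shh t * A2 t / 2 := by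
          rw [hA]; linarith
        have h1 := mul_nonneg hc hn
        have h2 : shh t / 2 * (-M + -M + -M) ≤ shh t / 2 * ((F 1 (j + 1) - F 0 (j + 1)) +
            (F 1 (j - 1) - F 0 (j - 1)) + (F 2 j - F 1 j)) :=
          mul_le_mul_of_nonneg_left (add_le_add (add_le_add a1 a2) a3) (by positivity)
        rw [hD] at id1
        have b4 := mul_lt_mul_of_pos_right hch hM
        have b5 := mul_pos ht hM
        linarith
      · obtain ⟨i, rfl⟩ : ∃ i, k = i + 1 := ⟨k - 1, by omega⟩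
        have hb := h.bulk i j (by omega) hj
        have hb2 := h.bulk (i + 1) j hkL hj
        have a1 := hall (i + 2) (by omega) j
        have a2 := hall i (by omega) j
        have a3 := hall (i + 1) hk (j + 1)
        have a4 := hall (i + 1) hk (j - 1)
        beta_reduce at hD a1 a2 a3 a4
        have b3 : A2 t * (F (i + 1 + 1) j - F (i + 1) j) = A2 t * (-M) := by rw [hD]
        have b4 := mul_lt_mul_of_pos_right hA4 hM
        simp only [show i + 1 + 1 = i + 2 from rfl, show i + 1 + 2 = i + 3 from rfl,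
          show i + 2 + 1 = i + 3 from rfl] at *
        linarith
    · have : k = L := by omega
      subst this
      have h1 := f_le_src ht hq hε hl h k (by omega) j
      rw [← h.src] at h1
      beta_reduce at hD
      linarith

theorem f_step (ht : 0 < t) (hq : t ^ 2 + 2 * t < 1) (hε : 0 < ε) (h : FSys t ε L F) :
    ∀ k ≤ L + 1, ∀ j, Real.exp (-ε) * F k j ≤ F k (j + 1) := by
  have ht1 := t_lt_one ht hq
  have hA4 := A2_gt ht hq
  have hch := ch_gt ht hq
  have hsh := shh_pos ht ht1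
  have key := minp_lev (K := L + 1) (D := fun k j => F k (j + 1) - Real.exp (-ε) * F k j) ?_ ?_
  · intro k hk j
    have := key k hk j
    linarith
  · intro k hk
    have h1 := (h.dec k hk).comp (Filter.tendsto_add_atTop_nat 1)
    simpa using h1.sub ((h.dec k hk).const_mul (Real.exp (-ε)))
  · intro M hM k hk j hD hall
    rcases Nat.eq_zero_or_pos j with rfl | hj
    · have hn := f_nonneg ht hq hε h k hk 1
      simp only [h.zero k hk, zero_add] at hD
      linarith
    obtain ⟨j, rfl⟩ : ∃ i, j = i + 1 := ⟨j - 1, by omega⟩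
    rcases Nat.eq_zero_or_pos k with rfl | hk0
    · have hb := h.bot (j + 1) hj
      have hb2 := h.bot (j + 1 + 1) (by omega)
      have a1 := hall 0 (by omega) (j + 1 + 1)
      have a2 := hall 0 (by omega) j
      have a3 := hall 1 (by omega) (j + 1)
      simp only [Nat.add_sub_cancel] at hD a1 a2 a3 hb hb2
      have id1 : chh t * (F 0 (j + 1 + 1) - Real.exp (-ε) * F 0 (j + 1)) =
          shh t / 2 * ((F 0 (j + 1 + 1 + 1) - Real.exp (-ε) * F 0 (j + 1 + 1)) +
            (F 0 (j + 1) - Real.exp (-ε) * F 0 j)) +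
          t * (F 1 (j + 1 + 1) - Real.exp (-ε) * F 1 (j + 1)) := by
        linear_combination hb2 - Real.exp (-ε) * hb
      have b2 := add_le_add (mul_le_mul_of_nonneg_left (add_le_add a1 a2) (show 0 ≤ shh t / 2 by positivity))
          (mul_le_mul_of_nonneg_left a3 ht.le)
      rw [hD] at id1
      have b4 := mul_lt_mul_of_pos_right hch hM
      linarith
    · obtain ⟨i, rfl⟩ : ∃ i, k = i + 1 := ⟨k - 1, by omega⟩
      rcases Nat.lt_or_ge i L with hi | hi
      · have hb := h.bulk i (j + 1) hi hj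
        have hb2 := h.bulk i (j + 1 + 1) hi (by omega)
        have a1 := hall (i + 2) (by omega) (j + 1)
        have a2 := hall i (by omega) (j + 1)
        have a3 := hall (i + 1) hk (j + 1 + 1)
        have a4 := hall (i + 1) hk j
        simp only [Nat.add_sub_cancel] at hD a1 a2 a3 a4 hb hb2
        have id1 : A2 t * (F (i + 1) (j + 1 + 1) - Real.exp (-ε) * F (i + 1) (j + 1)) =
            (F (i + 2) (j + 1 + 1) - Real.exp (-ε) * F (i + 2) (j + 1)) +
            (F i (j + 1 + 1) - Real.exp (-ε) * F i (j + 1)) +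
            (F (i + 1) (j + 1 + 1 + 1) - Real.exp (-ε) * F (i + 1) (j + 1 + 1)) +
            (F (i + 1) (j + 1) - Real.exp (-ε) * F (i + 1) j) := by
          linear_combination hb2 - Real.exp (-ε) * hb
        rw [hD] at id1
        have b4 := mul_lt_mul_of_pos_right hA4 hM
        linarith
      · have : i = L := by omega
        subst this
        simp only [h.src] at hD
        have e1 : Real.exp (-(ε * ((j + 1 + 1 : ℕ) : ℝ))) =
            Real.exp (-ε) * Real.exp (-(ε * ((j + 1 : ℕ) : ℝ))) := by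
          rw [← Real.exp_add]; congr 1; push_cast; ring
        rw [e1] at hD
        have h5 : 0 < Real.exp (-ε) * Real.exp (-(ε * ((j + 1 : ℕ) : ℝ))) := by positivity
        have h6 : ((j + 1 + 1 : ℕ) : ℝ) * (Real.exp (-ε) * Real.exp (-(ε * ((j + 1 : ℕ) : ℝ)))) -
            Real.exp (-ε) * (((j + 1 : ℕ) : ℝ) * Real.exp (-(ε * ((j + 1 : ℕ) : ℝ)))) =
            Real.exp (-ε) * Real.exp (-(ε * ((j + 1 : ℕ) : ℝ))) := by
          push_cast; ring
        linarith

end

end Pool.Agent.Helper49.DX
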