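import Pool.Agent.Helper49.DX.FouDef

/-!
Block DX-FB: Riemann-Lebesgue lemma for sine coefficients (analysis, self-contained).

Paper proof. From `Real.tendsto_integral_exp_smul_cocompact` (apply it to `Set.indicator (Set.Ioc 0 π) f`
with frequency `j / (2 π)`, imaginary part), or from Bessel's inequality, or by uniform approximation of
`f` by trigonometric polynomials / step functions.
-/

open Finset

namespace Pool.Agent.Helper49.DX

open Pool.Agent.Helper49.DL

theorem sin_coeff_tendsto {f : ℝ → ℝ} (hf : Continuous f) :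
    Filter.Tendsto (fun j : ℕ => ∫ θ in (0 : ℝ)..Real.pi, Real.sin (j * θ) * f θ) Filter.atTop
      (nhds 0) := by
  have h := Real.tendsto_integral_exp_smul_cocompact
    (fun v => Set.indicator (Set.Ioc 0 Real.pi) (fun θ => (f θ : ℂ)) v)
  have hw : Filter.Tendsto (fun j : ℕ => (j : ℝ) / (2 * Real.pi)) Filter.atTop
      (Filter.cocompact ℝ) :=
    ((tendsto_natCast_atTop_atTop (R := ℝ)).atTop_div_const (by positivity)).mono_right
      atTop_le_cocompact
  have h1 := (Complex.continuous_im.tendsto 0).comp (h.comp hw)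
  have h2 := h1.neg
  rw [Complex.zero_im, neg_zero] at h2
  refine h2.congr fun j => ?_
  simp only [Function.comp_apply]
  have e1 : (fun v : ℝ => Real.fourierChar (-(v * ((j : ℝ) / (2 * Real.pi)))) •
      Set.indicator (Set.Ioc 0 Real.pi) (fun θ => (f θ : ℂ)) v)
      = Set.indicator (Set.Ioc 0 Real.pi)
        (fun v => Complex.exp (((-(j * v) : ℝ) : ℂ) * Complex.I) * (f v : ℂ)) := by
    funext v
    by_cases hv : v ∈ Set.Ioc 0 Real.pi
    · rw [Set.indicator_of_mem hv, Set.indicator_of_mem hv, Circle.smul_def, smul_eq_mul,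
        Real.fourierChar_apply]
      congr 2
      push_cast
      have : (Real.pi : ℂ) ≠ 0 := by exact_mod_cast Real.pi_ne_zero
      field_simp
    · rw [Set.indicator_of_notMem hv, Set.indicator_of_notMem hv, smul_zero]
  rw [e1, MeasureTheory.integral_indicator measurableSet_Ioc]
  have hint : MeasureTheory.IntegrableOn
      (fun v : ℝ => Complex.exp (((-(j * v) : ℝ) : ℂ) * Complex.I) * (f v : ℂ))
      (Set.Ioc 0 Real.pi) := by
    apply Continuous.integrableOn_Ioc
    fun_prop
  have e2 : (∫ v in Set.Ioc 0 Real.pi,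
      Complex.exp (((-(j * v) : ℝ) : ℂ) * Complex.I) * (f v : ℂ)).im
      = ∫ v in Set.Ioc 0 Real.pi,
        (Complex.exp (((-(j * v) : ℝ) : ℂ) * Complex.I) * (f v : ℂ)).im :=
    (Complex.imCLM.integral_comp_comm hint).symm
  rw [e2, intervalIntegral.integral_of_le Real.pi_pos.le, ← MeasureTheory.integral_neg]
  refine MeasureTheory.setIntegral_congr_fun measurableSet_Ioc fun v _ => ?_
  rw [Complex.exp_mul_I]
  rw [← Complex.ofReal_cos, ← Complex.ofReal_sin]
  simp only [Complex.mul_im, Complex.add_im, Complex.add_re, Complex.mul_re, Complex.ofReal_re,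
    Complex.ofReal_im, Complex.I_re, Complex.I_im, Real.cos_neg, Real.sin_neg]
  ring

end Pool.Agent.Helper49.DX
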