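import Pool.Agent.Helper49.DX.FouDef

/-!
Block DX-FC: the size of the Fourier integral (analysis).

Paper proof. `λ = lam t`. `|sin (j θ)| ≤ j θ` on `[0, π]`, `0 ≤ Sf ε θ ≤ C θ` (`0 ≤ sin θ ≤ θ`,
`cosh ε - cos θ ≥ cosh ε - 1 > 0`), `Hh t θ 0 = t`, `Hh t θ (L + 1) ≥ t (1/λ)^(L + 1) (1 + 2 λ (1 - cos θ))^(L + 1)`
(`hh_low_pow`), `1 - cos θ ≥ 2 θ² / π²` on `[0, π]` (`1 - cos θ = 2 sin² (θ/2)`, `sin (θ/2) ≥ θ / π`, `Real.mul_le_sin`),
`1 + u ≥ exp (u / (1 + B))` for `0 ≤ u ≤ B` (`log (1 + u) ≥ u / (1 + u)`, `Real.one_sub_inv_le_log_of_pos`), so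
`(1 + 2 λ (1 - cos θ))^(L + 1) ≥ exp (a L θ²)` with `a = a (t) > 0` and
`FF t ε L 0 j ≤ C j λ^(L + 1) ∫_0^π θ² e^{-a L θ²} dθ ≤ C j λ^L ∫_0^∞ θ² e^{-a L θ²} dθ = C' j λ^L L^(-3/2)`
(`integral_rpow_mul_exp_neg_mul_rpow` / `integral_gaussian`-type lemmas, `MeasureTheory.setIntegral_mono_set`).
-/

open Finset

namespace Pool.Agent.Helper49.DX

open Pool.Agent.Helper49.DL

private lemma cos_low1 {θ : ℝ} (h0 : 0 ≤ θ) (h1 : θ ≤ Real.pi) :
    2 * θ ^ 2 / Real.pi ^ 2 ≤ 1 - Real.cos θ := by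
  have hp := Real.pi_pos
  have e1 : 1 - Real.cos θ = 2 * Real.sin (θ / 2) ^ 2 := by
    have h2 := Real.cos_sq_add_sin_sq (θ / 2)
    have h3 : Real.cos θ = 2 * Real.cos (θ / 2) ^ 2 - 1 := by
      rw [← Real.cos_two_mul]; congr 1; ring
    rw [h3]; linarith
  have h2 := Real.mul_le_sin (x := θ / 2) (by linarith) (by linarith)
  have h3 : 2 / Real.pi * (θ / 2) = θ / Real.pi := by field_simp
  rw [h3] at h2
  have h4 : 0 ≤ θ / Real.pi := by positivity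
  have h5 : (θ / Real.pi) ^ 2 ≤ Real.sin (θ / 2) ^ 2 := pow_le_pow_left₀ h4 h2 2
  rw [e1]
  calc 2 * θ ^ 2 / Real.pi ^ 2 = 2 * (θ / Real.pi) ^ 2 := by rw [div_pow]; ring
    _ ≤ 2 * Real.sin (θ / 2) ^ 2 := by linarith

private lemma exp_low1 {u B : ℝ} (hu : 0 ≤ u) (hB : u ≤ B) :
    Real.exp (u / (1 + B)) ≤ 1 + u := by
  have h1 : 0 < 1 + u := by linarith
  rw [← Real.le_log_iff_exp_le h1]
  have h2 := Real.one_sub_inv_le_log_of_pos h1
  refine le_trans ?_ h2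
  have h3 : 1 - (1 + u)⁻¹ = u / (1 + u) := by field_simp; ring
  rw [h3]
  exact div_le_div_of_nonneg_left hu h1 (by linarith)

private lemma gauss_int1 {c : ℝ} (hc : 0 < c) :
    ∫ θ in (0 : ℝ)..Real.pi, θ ^ 2 * Real.exp (-c * θ ^ 2) ≤
      c ^ (-(3 / 2) : ℝ) * (1 / 2) * Real.Gamma (3 / 2) := by
  have h1 := integral_rpow_mul_exp_neg_mul_rpow (p := 2) (q := 2) (b := c) two_pos (by norm_num) hc
  have h2 := integrableOn_rpow_mul_exp_neg_mul_rpow (p := 2) (s := 2) (b := c) (by norm_num) two_pos hc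
  have e1 : (-((2 : ℝ) + 1) / 2) = (-(3 / 2) : ℝ) := by norm_num
  have e2 : (((2 : ℝ) + 1) / 2) = (3 / 2 : ℝ) := by norm_num
  rw [e1, e2] at h1
  simp only [Real.rpow_two] at h1 h2
  rw [← h1, intervalIntegral.integral_of_le Real.pi_pos.le]
  refine MeasureTheory.setIntegral_mono_set h2 ?_ ?_
  · exact Filter.Eventually.of_forall fun x => by
      show 0 ≤ x ^ 2 * Real.exp (-c * x ^ 2)
      positivity
  · exact (Set.Ioc_subset_Ioi_self).eventuallyLE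

private lemma sf_nonneg1 {ε θ : ℝ} (hε : 0 < ε) (h0 : 0 ≤ θ) (h1 : θ ≤ Real.pi) :
    0 ≤ Sf ε θ := by
  unfold Sf
  have h2 := Real.sinh_pos_iff.2 hε
  have h3 := Real.sin_nonneg_of_nonneg_of_le_pi h0 h1
  positivity

private lemma sf_le1 {ε θ : ℝ} (hε : 0 < ε) (h0 : 0 ≤ θ) :
    Sf ε θ ≤ Real.sinh ε / (2 * (Real.cosh ε - 1) ^ 2) * θ := by
  unfold Sf
  have h2 := Real.sinh_pos_iff.2 hε
  have h3 : 1 < Real.cosh ε := Real.one_lt_cosh.2 hε.ne'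
  have h4 := Real.cos_le_one θ
  have h5 : Real.sin θ ≤ θ := Real.sin_le h0
  have h6 : 0 < Real.cosh ε - 1 := by linarith
  have h7 : (Real.cosh ε - 1) ^ 2 ≤ (Real.cosh ε - Real.cos θ) ^ 2 :=
    pow_le_pow_left₀ h6.le (by linarith) 2
  have h8 : 0 < (Real.cosh ε - 1) ^ 2 := by positivity
  rw [div_mul_eq_mul_div]
  exact div_le_div₀ (by positivity) (mul_le_mul_of_nonneg_left h5 h2.le) (by positivity)
    (by linarith)

private lemma ratio_le1 {t : ℝ} (ht : 0 < t) (hq : t ^ 2 + 2 * t < 1) (L : ℕ) {θ : ℝ}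
    (h0 : 0 ≤ θ) (h1 : θ ≤ Real.pi) :
    Hh t θ 0 / Hh t θ (L + 1) ≤ lam t ^ (L + 1) *
      Real.exp (-(4 * lam t / (Real.pi ^ 2 * (1 + 4 * lam t)) * L) * θ ^ 2) := by
  have hp := Real.pi_pos
  have hl := lam_pos ht (t_lt_one ht hq)
  have h2 := hh_low_pow ht hq θ (L + 1)
  have h3 : Hh t θ 0 = t := rfl
  have h4 := cos_low1 h0 h1
  set l := lam t with hldef
  set w : ℝ := 4 * l * θ ^ 2 / Real.pi ^ 2 with hw
  have hw0 : 0 ≤ w := by positivity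
  have hw1 : w ≤ 4 * l := by
    rw [hw, div_le_iff₀ (by positivity)]
    have : θ ^ 2 ≤ Real.pi ^ 2 := pow_le_pow_left₀ h0 h1 2
    exact mul_le_mul_of_nonneg_left this (by positivity)
  have h5 : 1 / l * (1 + w) ≤ 1 / l + 2 * (1 - Real.cos θ) := by
    have e1 : 1 / l * (1 + w) = 1 / l + 2 * (2 * θ ^ 2 / Real.pi ^ 2) := by
      rw [hw]; field_simp; ring
    rw [e1]; linarith
  have h6 : Real.exp (w / (1 + 4 * l)) ≤ 1 + w := exp_low1 hw0 hw1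
  have h7 : 1 / l * Real.exp (w / (1 + 4 * l)) ≤ 1 / l + 2 * (1 - Real.cos θ) :=
    (mul_le_mul_of_nonneg_left h6 (by positivity)).trans h5
  have h8 : (1 / l * Real.exp (w / (1 + 4 * l))) ^ (L + 1) ≤
      (1 / l + 2 * (1 - Real.cos θ)) ^ (L + 1) :=
    pow_le_pow_left₀ (by positivity) h7 (L + 1)
  have h9 : 0 < Hh t θ (L + 1) := (hh_low ht hq θ (L + 1)).1
  have h10 : Real.exp (4 * l / (Real.pi ^ 2 * (1 + 4 * l)) * L * θ ^ 2) ≤
      Real.exp (w / (1 + 4 * l)) ^ (L + 1) := by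
    rw [← Real.exp_nat_mul]
    refine Real.exp_le_exp.2 ?_
    have e2 : 4 * l / (Real.pi ^ 2 * (1 + 4 * l)) * L * θ ^ 2 = L * (w / (1 + 4 * l)) := by
      rw [hw]; field_simp
    rw [e2]
    refine mul_le_mul_of_nonneg_right ?_ (by positivity)
    push_cast; linarith
  have h11 : t * ((1 / l) ^ (L + 1) *
      Real.exp (4 * l / (Real.pi ^ 2 * (1 + 4 * l)) * L * θ ^ 2)) ≤ Hh t θ (L + 1) := by
    refine le_trans (mul_le_mul_of_nonneg_left ?_ ht.le) h2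
    refine le_trans ?_ h8
    rw [mul_pow]
    exact mul_le_mul_of_nonneg_left h10 (by positivity)
  rw [h3, div_le_iff₀ h9]
  refine le_trans (le_of_eq ?_) (mul_le_mul_of_nonneg_left h11 (by positivity))
  have e3 : Real.exp (-(4 * l / (Real.pi ^ 2 * (1 + 4 * l)) * L) * θ ^ 2) *
      Real.exp (4 * l / (Real.pi ^ 2 * (1 + 4 * l)) * L * θ ^ 2) = 1 := by
    rw [← Real.exp_add, ← Real.exp_zero]
    congr 1
    ring
  have e4 : l ^ (L + 1) * (1 / l) ^ (L + 1) = 1 := by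
    rw [← mul_pow, mul_one_div_cancel hl.ne', one_pow]
  calc t = t * 1 * 1 := by ring
    _ = t * (l ^ (L + 1) * (1 / l) ^ (L + 1)) *
        (Real.exp (-(4 * l / (Real.pi ^ 2 * (1 + 4 * l)) * L) * θ ^ 2) *
          Real.exp (4 * l / (Real.pi ^ 2 * (1 + 4 * l)) * L * θ ^ 2)) := by rw [e3, e4]
    _ = _ := by ring

theorem ff_bound {t ε : ℝ} (ht : 0 < t) (hq : t ^ 2 + 2 * t < 1) (hε : 0 < ε) :
    ∃ C : ℝ, 0 < C ∧ ∀ L : ℕ, 1 ≤ L → ∀ j : ℕ,
      FF t ε L 0 j ≤ C * j * lam t ^ L / (L : ℝ) ^ (3 / 2 : ℝ) := by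
  have hp := Real.pi_pos
  have hl := lam_pos ht (t_lt_one ht hq)
  have hsh := Real.sinh_pos_iff.2 hε
  have hch : 1 < Real.cosh ε := Real.one_lt_cosh.2 hε.ne'
  have hch' : 0 < Real.cosh ε - 1 := by linarith
  set D : ℝ := Real.sinh ε / (2 * (Real.cosh ε - 1) ^ 2) with hD
  have hDp : 0 < D := by positivity
  set a : ℝ := 4 * lam t / (Real.pi ^ 2 * (1 + 4 * lam t)) with ha
  have hap : 0 < a := by positivity
  have hG : 0 < Real.Gamma (3 / 2) := Real.Gamma_pos_of_pos (by norm_num)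
  refine ⟨2 / Real.pi * (D * lam t * (a ^ (-(3 / 2) : ℝ) * (1 / 2) * Real.Gamma (3 / 2))),
    by positivity, fun L hL j => ?_⟩
  have hL0 : (0 : ℝ) < L := by exact_mod_cast hL
  unfold FF
  have h1 : ∫ θ in (0 : ℝ)..Real.pi, Real.sin (j * θ) * (Sf ε θ * (Hh t θ 0 / Hh t θ (L + 1))) ≤
      ∫ θ in (0 : ℝ)..Real.pi, (j * D * lam t ^ (L + 1)) *
        (θ ^ 2 * Real.exp (-(a * L) * θ ^ 2)) := by
    refine intervalIntegral.integral_mono_on hp.le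
      ((FF_cont ht hq hε L 0 j).intervalIntegrable _ _) ?_ ?_
    · exact Continuous.intervalIntegrable (by fun_prop) _ _
    · intro θ hθ
      have hθ0 : 0 ≤ θ := hθ.1
      have hθ1 : θ ≤ Real.pi := hθ.2
      have h2 := sf_nonneg1 hε hθ0 hθ1
      have h3 := sf_le1 hε hθ0
      have h4 := ratio_le1 ht hq L hθ0 hθ1
      have h5 : 0 ≤ Hh t θ 0 / Hh t θ (L + 1) :=
        (div_pos (hh_low ht hq θ 0).1 (hh_low ht hq θ (L + 1)).1).le
      have h6 : Real.sin (j * θ) ≤ j * θ := Real.sin_le (by positivity)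
      rw [← hD] at h3
      rw [← ha] at h4
      have h7 : Sf ε θ * (Hh t θ 0 / Hh t θ (L + 1)) ≤
          (D * θ) * (lam t ^ (L + 1) * Real.exp (-(a * L) * θ ^ 2)) :=
        mul_le_mul h3 h4 h5 (by positivity)
      calc Real.sin (j * θ) * (Sf ε θ * (Hh t θ 0 / Hh t θ (L + 1)))
          ≤ (j * θ) * (Sf ε θ * (Hh t θ 0 / Hh t θ (L + 1))) :=
            mul_le_mul_of_nonneg_right h6 (mul_nonneg h2 h5)
        _ ≤ (j * θ) * ((D * θ) * (lam t ^ (L + 1) * Real.exp (-(a * L) * θ ^ 2))) :=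
            mul_le_mul_of_nonneg_left h7 (by positivity)
        _ = _ := by ring
  rw [intervalIntegral.integral_const_mul] at h1
  have h2 := gauss_int1 (c := a * L) (by positivity)
  have h3 : (a * L) ^ (-(3 / 2) : ℝ) = a ^ (-(3 / 2) : ℝ) / (L : ℝ) ^ (3 / 2 : ℝ) := by
    rw [Real.mul_rpow hap.le hL0.le, Real.rpow_neg hL0.le]
    exact (div_eq_mul_inv _ _).symm
  rw [h3] at h2
  have h4 := h1.trans (mul_le_mul_of_nonneg_left h2 (by positivity))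
  have h5 := mul_le_mul_of_nonneg_left h4 (show (0 : ℝ) ≤ 2 / Real.pi by positivity)
  refine h5.trans (le_of_eq ?_)
  rw [pow_succ]
  ring

end Pool.Agent.Helper49.DX
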