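import Pool.Agent.Helper49.DX.FouA
import Pool.Agent.Helper49.DX.FouB
import Pool.Agent.Helper49.DX.FouC

/-!
The solution on the half line.
-/

open Finset

namespace Pool.Agent.Helper49.DX

open Pool.Agent.Helper49.DL

/-- A linear relation between the multipliers gives the relation between the integrals. -/
private lemma FF_lin {t ε : ℝ} (ht : 0 < t) (hq : t ^ 2 + 2 * t < 1) (hε : 0 < ε) {L : ℕ} {j : ℕ}
    (hj : 1 ≤ j) (k : ℕ) :
    FF t ε L k (j + 1) + FF t ε L k (j - 1) =
      2 / Real.pi * ∫ θ in (0 : ℝ)..Real.pi,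
        Real.sin (j * θ) * (Sf ε θ * (2 * Real.cos θ * Hh t θ k / Hh t θ (L + 1))) := by
  have h1 := (FF_cont ht hq hε L k (j + 1)).intervalIntegrable (μ := MeasureTheory.volume) 0 Real.pi
  have h2 := (FF_cont ht hq hε L k (j - 1)).intervalIntegrable (μ := MeasureTheory.volume) 0 Real.pi
  unfold FF
  rw [← mul_add, ← intervalIntegral.integral_add h1 h2]
  congr 1
  refine intervalIntegral.integral_congr fun θ _ => ?_
  have e : ((j - 1 : ℕ) : ℝ) = j - 1 := by
    rw [Nat.cast_sub hj]; simp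
  rw [e]
  have e2 : Real.sin (((j + 1 : ℕ) : ℝ) * θ) + Real.sin (((j : ℝ) - 1) * θ) =
      2 * Real.cos θ * Real.sin (j * θ) := by
    push_cast
    rw [add_mul, sub_mul, one_mul, Real.sin_add, Real.sin_sub]
    ring
  calc _ = (Real.sin (((j + 1 : ℕ) : ℝ) * θ) + Real.sin (((j : ℝ) - 1) * θ)) *
        (Sf ε θ * (Hh t θ k / Hh t θ (L + 1))) := by ring
    _ = _ := by rw [e2]; ring

theorem fsys_exists {t ε : ℝ} (ht : 0 < t) (hq : t ^ 2 + 2 * t < 1) (hε : 0 < ε) :
    ∃ C : ℝ, 0 < C ∧ ∀ L : ℕ, 1 ≤ L → ∃ F : ℕ → ℕ → ℝ, FSys t ε L F ∧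
      ∀ j : ℕ, F 0 j ≤ C * j * lam t ^ L / (L : ℝ) ^ (3 / 2 : ℝ) := by
  obtain ⟨C, hC, hb⟩ := ff_bound ht hq hε
  refine ⟨C, hC, fun L hL => ⟨FF t ε L, ⟨?_, ?_, ?_, ?_, ?_⟩, hb L hL⟩⟩
  · intro j
    rw [← sf_coeff hε j]
    unfold FF
    congr 1
    refine intervalIntegral.integral_congr fun θ _ => ?_
    rw [div_self (hh_low ht hq θ (L + 1)).1.ne', mul_one]
  · intro k _
    unfold FF
    simp
  · intro k j _ hj
    rw [FF_lin ht hq hε hj (k + 1)]
    have hc : ∀ k, IntervalIntegrable (fun θ => Real.sin (j * θ) *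
        (Sf ε θ * (Hh t θ k / Hh t θ (L + 1)))) MeasureTheory.volume 0 Real.pi := fun k =>
      (FF_cont ht hq hε L k j).intervalIntegrable 0 Real.pi
    have hc2 : IntervalIntegrable (fun θ => Real.sin (j * θ) *
        (Sf ε θ * (2 * Real.cos θ * Hh t θ (k + 1) / Hh t θ (L + 1)))) MeasureTheory.volume 0
          Real.pi := by
      have h1 := (Continuous.mul (g := fun θ => Real.sin (j * θ) *
        (Sf ε θ * (Hh t θ (k + 1) / Hh t θ (L + 1)))) (show Continuous fun θ => 2 * Real.cos θ by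
          fun_prop) (FF_cont ht hq hε L (k + 1) j)).intervalIntegrable
            (μ := MeasureTheory.volume) 0 Real.pi
      refine h1.congr_ae (Filter.Eventually.of_forall fun θ => ?_)
      simp only [Pi.mul_apply]
      ring
    unfold FF
    rw [← mul_add, ← mul_add, ← intervalIntegral.integral_add (hc (k + 2)) (hc k),
      ← intervalIntegral.integral_add ((hc (k + 2)).add (hc k)) hc2, ← mul_assoc, mul_comm (A2 t),
      mul_assoc, ← intervalIntegral.integral_const_mul]
    congr 1
    refine intervalIntegral.integral_congr fun θ _ => ?_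
    have e : Hh t θ (k + 2) = (A2 t - 2 * Real.cos θ) * Hh t θ (k + 1) - Hh t θ k := rfl
    rw [e]
    ring
  · intro j hj
    rw [FF_lin ht hq hε hj 0]
    have hc : ∀ k, IntervalIntegrable (fun θ => Real.sin (j * θ) *
        (Sf ε θ * (Hh t θ k / Hh t θ (L + 1)))) MeasureTheory.volume 0 Real.pi := fun k =>
      (FF_cont ht hq hε L k j).intervalIntegrable 0 Real.pi
    have hc2 : IntervalIntegrable (fun θ => Real.sin (j * θ) *
        (Sf ε θ * (2 * Real.cos θ * Hh t θ 0 / Hh t θ (L + 1)))) MeasureTheory.volume 0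
          Real.pi := by
      have h1 := (Continuous.mul (g := fun θ => Real.sin (j * θ) *
        (Sf ε θ * (Hh t θ 0 / Hh t θ (L + 1)))) (show Continuous fun θ => 2 * Real.cos θ by
          fun_prop) (FF_cont ht hq hε L 0 j)).intervalIntegrable
            (μ := MeasureTheory.volume) 0 Real.pi
      refine h1.congr_ae (Filter.Eventually.of_forall fun θ => ?_)
      simp only [Pi.mul_apply]
      ring
    have key : chh t * (∫ θ in (0 : ℝ)..Real.pi, Real.sin (j * θ) *
        (Sf ε θ * (Hh t θ 0 / Hh t θ (L + 1)))) = shh t / 2 * (∫ θ in (0 : ℝ)..Real.pi,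
          Real.sin (j * θ) * (Sf ε θ * (2 * Real.cos θ * Hh t θ 0 / Hh t θ (L + 1)))) +
        t * ∫ θ in (0 : ℝ)..Real.pi, Real.sin (j * θ) *
        (Sf ε θ * (Hh t θ 1 / Hh t θ (L + 1))) := by
      rw [← intervalIntegral.integral_const_mul, ← intervalIntegral.integral_const_mul,
        ← intervalIntegral.integral_const_mul, ← intervalIntegral.integral_add
          (hc2.const_mul _) ((hc 1).const_mul _)]
      refine intervalIntegral.integral_congr fun θ _ => ?_
      have e : Hh t θ 1 = chh t - shh t * Real.cos θ := rfl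
      have e' : Hh t θ 0 = t := rfl
      rw [e, e']
      ring
    unfold FF
    linear_combination (2 / Real.pi) * key
  · intro k _
    have h1 := (sin_coeff_tendsto (f := fun θ => Sf ε θ * (Hh t θ k / Hh t θ (L + 1)))
      ((Sf_cont hε).mul (Continuous.div (hh_cont t k) (hh_cont t (L + 1))
        fun θ => (hh_low ht hq θ (L + 1)).1.ne'))).const_mul (2 / Real.pi)
    rw [mul_zero] at h1
    exact h1

end Pool.Agent.Helper49.DX
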