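import Pool.Agent.Helper49.DX.FouDef

/-!
Block DX-FA: the Fourier series of `Sf` (analysis, self-contained).

Paper proof. For `z = e^{-ε + i θ}`, `|z| < 1`, `∑_{j ≥ 0} j z ^ j = z / (1 - z)²`
(`hasSum_coe_mul_geometric_of_norm_lt_one`), take imaginary parts:
`∑ j e^{-ε j} sin (j θ) = sinh ε sin θ / (2 (cosh ε - cos θ)²)`, because
`z / (1 - z)² = 1 / (z⁻¹ + z - 2) = 1 / (2 (cosh ε cos θ - 1 - i sinh ε sin θ))` and
`(cosh ε cos θ - 1)² + sinh² ε sin² θ = (cosh ε - cos θ)²`.
`sf_coeff`: multiply by `sin (j θ)`, integrate term by term (`intervalIntegral.hasSum_integral_of_summable_norm`,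
the terms are bounded by `i e^{-ε i}`), and use `∫_0^π sin (j θ) sin (i θ) dθ = if i = j then π / 2 else 0` for
`i, j ≥ 1` (product to sum; `integral_cos`); `j = 0` is trivial.
-/

open Finset

namespace Pool.Agent.Helper49.DX

open Pool.Agent.Helper49.DL

private lemma foua_alg (r c s : ℝ) (hr : r ≠ 0) (_ : 1 - 2 * r * c + r ^ 2 ≠ 0) (hcs : c ^ 2 + s ^ 2 = 1)
    (z : ℂ) (hzr : z.re = r * c) (hzi : z.im = r * s) :
    (z / (1 - z) ^ 2).im = (r⁻¹ - r) / 2 * s / (2 * ((r⁻¹ + r) / 2 - c) ^ 2) := by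
  have hw1 : ((1 - z) ^ 2).re = (1 - r * c) ^ 2 - (r * s) ^ 2 := by
    rw [pow_two, Complex.mul_re, Complex.sub_re, Complex.sub_im, Complex.one_re, Complex.one_im, hzr, hzi]
    ring
  have hw2 : ((1 - z) ^ 2).im = -(2 * (1 - r * c) * (r * s)) := by
    rw [pow_two, Complex.mul_im, Complex.sub_re, Complex.sub_im, Complex.one_re, Complex.one_im, hzr, hzi]
    ring
  have hN : Complex.normSq ((1 - z) ^ 2) = (1 - 2 * r * c + r ^ 2) ^ 2 := by
    have h1 : (1 - r * c) ^ 2 + (r * s) ^ 2 = 1 - 2 * r * c + r ^ 2 := by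
      linear_combination r ^ 2 * hcs
    rw [Complex.normSq_apply, hw1, hw2, ← h1]
    ring
  rw [Complex.div_im, hN, hw1, hw2, hzr, hzi]
  have hnum : r * s * ((1 - r * c) ^ 2 - (r * s) ^ 2) - r * c * (-(2 * (1 - r * c) * (r * s))) =
      r * s * (1 - r ^ 2) := by
    linear_combination (-r ^ 3 * s) * hcs
  have hden : 2 * ((r⁻¹ + r) / 2 - c) ^ 2 = (1 - 2 * r * c + r ^ 2) ^ 2 / (2 * r ^ 2) := by
    field_simp
    ring
  rw [← sub_div, hnum, hden]
  field_simp

theorem sf_hasSum {ε : ℝ} (hε : 0 < ε) (θ : ℝ) :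
    HasSum (fun i : ℕ => (i : ℝ) * Real.exp (-(ε * i)) * Real.sin (i * θ)) (Sf ε θ) := by
  let z : ℂ := Complex.exp (((-ε : ℝ) : ℂ) + (θ : ℂ) * Complex.I)
  have hz : ‖z‖ < 1 := by
    change ‖Complex.exp _‖ < 1
    rw [Complex.norm_exp]
    simp only [Complex.add_re, Complex.ofReal_re, Complex.mul_re, Complex.I_re, mul_zero, Complex.ofReal_im,
      Complex.I_im, mul_one, sub_zero, add_zero]
    exact Real.exp_lt_one_iff.2 (by linarith)
  have h1 := hasSum_coe_mul_geometric_of_norm_lt_one hz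
  have h2 := Complex.hasSum_im h1
  have hzr : z.re = Real.exp (-ε) * Real.cos θ := by
    change (Complex.exp _).re = _
    rw [Complex.exp_re]
    simp
  have hzi : z.im = Real.exp (-ε) * Real.sin θ := by
    change (Complex.exp _).im = _
    rw [Complex.exp_im]
    simp
  have hr : Real.exp (-ε) ≠ 0 := (Real.exp_pos _).ne'
  have hr1 : Real.exp (-ε) < 1 := Real.exp_lt_one_iff.2 (by linarith)
  have hr0 := Real.exp_pos (-ε)
  have hQ : 1 - 2 * Real.exp (-ε) * Real.cos θ + Real.exp (-ε) ^ 2 ≠ 0 := by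
    have h3 := Real.cos_le_one θ
    have h4 : 0 < (1 - Real.exp (-ε)) ^ 2 := by
      have : 0 < 1 - Real.exp (-ε) := by linarith
      positivity
    have h5 : Real.exp (-ε) * Real.cos θ ≤ Real.exp (-ε) * 1 := mul_le_mul_of_nonneg_left h3 hr0.le
    have h6 : 0 < 1 - 2 * Real.exp (-ε) * Real.cos θ + Real.exp (-ε) ^ 2 := by nlinarith
    exact h6.ne'
  have h3 := foua_alg (Real.exp (-ε)) (Real.cos θ) (Real.sin θ) hr hQ (Real.cos_sq_add_sin_sq θ) z hzr hzi
  have hinv : (Real.exp (-ε))⁻¹ = Real.exp ε := by rw [Real.exp_neg, inv_inv]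
  rw [hinv, ← Real.sinh_eq, ← Real.cosh_eq] at h3
  rw [h3] at h2
  have h4 : (fun i : ℕ => (((i : ℂ) * z ^ i).im : ℝ)) =
      fun i : ℕ => (i : ℝ) * Real.exp (-(ε * i)) * Real.sin (i * θ) := by
    funext i
    have h5 : z ^ i = Complex.exp (((-(ε * i) : ℝ) : ℂ) + ((i * θ : ℝ) : ℂ) * Complex.I) := by
      change Complex.exp _ ^ i = _
      rw [← Complex.exp_nat_mul]
      congr 1
      push_cast
      ring
    have h6 : (z ^ i).im = Real.exp (-(ε * i)) * Real.sin (i * θ) := by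
      rw [h5, Complex.exp_im]
      simp
    have h7 : ((i : ℂ) * z ^ i).im = (i : ℝ) * (z ^ i).im := by
      have : (i : ℂ) = ((i : ℝ) : ℂ) := by push_cast; rfl
      rw [this, Complex.im_ofReal_mul]
    rw [h7, h6, mul_assoc]
  rw [h4] at h2
  exact h2

private lemma foua_cos (k : ℤ) (hk : k ≠ 0) : ∫ θ in (0 : ℝ)..Real.pi, Real.cos (k * θ) = 0 := by
  have hk' : (k : ℝ) ≠ 0 := by exact_mod_cast hk
  rw [intervalIntegral.integral_comp_mul_left (fun x => Real.cos x) hk', integral_cos, mul_zero, Real.sin_zero,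
    Real.sin_int_mul_pi]
  simp

private lemma foua_orth (i j : ℕ) (hj : 1 ≤ j) : ∫ θ in (0 : ℝ)..Real.pi, Real.sin (j * θ) * Real.sin (i * θ) =
    if i = j then Real.pi / 2 else 0 := by
  have h1 : ∀ θ : ℝ, Real.sin (j * θ) * Real.sin (i * θ) =
      1 / 2 * (Real.cos (((j : ℤ) - (i : ℤ) : ℤ) * θ) - Real.cos (((j : ℤ) + (i : ℤ) : ℤ) * θ)) := by
    intro θ
    push_cast
    rw [sub_mul, add_mul, Real.cos_sub, Real.cos_add]
    ring
  simp only [h1]
  rw [intervalIntegral.integral_const_mul, intervalIntegral.integral_sub]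
  · rw [foua_cos ((j : ℤ) + (i : ℤ)) (by omega)]
    split_ifs with hij
    · subst hij
      simp
      ring
    · rw [foua_cos ((j : ℤ) - (i : ℤ)) (by omega)]
      simp
  · exact (by fun_prop : Continuous _).intervalIntegrable _ _
  · exact (by fun_prop : Continuous _).intervalIntegrable _ _

theorem sf_coeff {ε : ℝ} (hε : 0 < ε) (j : ℕ) :
    2 / Real.pi * ∫ θ in (0 : ℝ)..Real.pi, Real.sin (j * θ) * Sf ε θ =
      j * Real.exp (-(ε * j)) := by
  rcases Nat.eq_zero_or_pos j with rfl | hj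
  · simp
  have hs : Summable (fun i : ℕ => (i : ℝ) * Real.exp (-(ε * i))) := by
    have h1 : ‖Real.exp (-ε)‖ < 1 := by
      rw [Real.norm_eq_abs, abs_of_pos (Real.exp_pos _)]
      exact Real.exp_lt_one_iff.2 (by linarith)
    refine (hasSum_coe_mul_geometric_of_norm_lt_one h1).summable.congr (fun i => ?_)
    rw [← Real.exp_nat_mul]
    congr 2
    ring
  have h1 : HasSum (fun i : ℕ => ∫ θ in (0 : ℝ)..Real.pi,
      Real.sin (j * θ) * ((i : ℝ) * Real.exp (-(ε * i)) * Real.sin (i * θ)))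
      (∫ θ in (0 : ℝ)..Real.pi, Real.sin (j * θ) * Sf ε θ) := by
    refine intervalIntegral.hasSum_integral_of_dominated_convergence
      (fun i _ => (i : ℝ) * Real.exp (-(ε * i))) ?_ ?_ ?_ ?_ ?_
    · intro i
      exact (by fun_prop : Continuous _).aestronglyMeasurable
    · intro i
      refine Filter.Eventually.of_forall (fun θ _ => ?_)
      rw [Real.norm_eq_abs, abs_mul, abs_mul, abs_of_nonneg (by positivity : 0 ≤ (i : ℝ) * Real.exp (-(ε * i)))]
      have h2 := Real.abs_sin_le_one (j * θ)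
      have h3 := Real.abs_sin_le_one (i * θ)
      have h4 : 0 ≤ (i : ℝ) * Real.exp (-(ε * i)) := by positivity
      calc |Real.sin (j * θ)| * ((i : ℝ) * Real.exp (-(ε * i)) * |Real.sin (i * θ)|)
          ≤ 1 * ((i : ℝ) * Real.exp (-(ε * i)) * 1) := by gcongr
        _ = _ := by ring
    · exact Filter.Eventually.of_forall (fun θ _ => hs)
    · exact intervalIntegrable_const
    · refine Filter.Eventually.of_forall (fun θ _ => ?_)
      exact (sf_hasSum hε θ).mul_left _
  have h2 : (fun i : ℕ => ∫ θ in (0 : ℝ)..Real.pi,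
      Real.sin (j * θ) * ((i : ℝ) * Real.exp (-(ε * i)) * Real.sin (i * θ))) =
      fun i => if i = j then (j : ℝ) * Real.exp (-(ε * j)) * (Real.pi / 2) else 0 := by
    funext i
    have h3 : ∀ θ : ℝ, Real.sin (j * θ) * ((i : ℝ) * Real.exp (-(ε * i)) * Real.sin (i * θ)) =
        (i : ℝ) * Real.exp (-(ε * i)) * (Real.sin (j * θ) * Real.sin (i * θ)) := fun θ => by ring
    simp only [h3]
    rw [intervalIntegral.integral_const_mul, foua_orth i j hj]
    split_ifs with hij
    · rw [hij]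
    · rw [mul_zero]
  rw [h2] at h1
  have h3 := h1.unique (hasSum_ite_eq j _)
  rw [h3]
  have := Real.pi_pos
  field_simp

end Pool.Agent.Helper49.DX
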