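import Pool.Agent.Helper49.DX.Hb

/-!
Definition of the solution on the half line by Fourier integrals.
-/

open Finset

namespace Pool.Agent.Helper49.DX

open Pool.Agent.Helper49.DL

/-- `S θ = ∑_{j ≥ 1} j e^{-ε j} sin (j θ)`. -/
noncomputable def Sf (ε θ : ℝ) : ℝ :=
  Real.sinh ε * Real.sin θ / (2 * (Real.cosh ε - Real.cos θ) ^ 2)

/-- Fourier integrals. -/
noncomputable def FF (t ε : ℝ) (L k j : ℕ) : ℝ :=
  2 / Real.pi * ∫ θ in (0 : ℝ)..Real.pi,
    Real.sin (j * θ) * (Sf ε θ * (Hh t θ k / Hh t θ (L + 1)))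

lemma Sf_cont {ε : ℝ} (hε : 0 < ε) : Continuous (Sf ε) := by
  unfold Sf
  refine Continuous.div (by fun_prop) (by fun_prop) fun θ => ?_
  have h1 : 1 < Real.cosh ε := Real.one_lt_cosh.2 hε.ne'
  have h2 := Real.cos_le_one θ
  have : 0 < Real.cosh ε - Real.cos θ := by linarith
  positivity

lemma FF_cont {t ε : ℝ} (ht : 0 < t) (hq : t ^ 2 + 2 * t < 1) (hε : 0 < ε) (L k j : ℕ) :
    Continuous fun θ => Real.sin (j * θ) * (Sf ε θ * (Hh t θ k / Hh t θ (L + 1))) := by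
  refine Continuous.mul (by fun_prop) ((Sf_cont hε).mul
    (Continuous.div (hh_cont t k) (hh_cont t (L + 1)) fun θ => ?_))
  exact (hh_low ht hq θ (L + 1)).1.ne'

/-- Solutions of the homogeneous system on the half line with source `j e^{-ε j}`. -/
structure FSys (t ε : ℝ) (L : ℕ) (F : ℕ → ℕ → ℝ) : Prop where
  src : ∀ j : ℕ, F (L + 1) j = j * Real.exp (-(ε * j))
  zero : ∀ k ≤ L + 1, F k 0 = 0
  bulk : ∀ k j, k < L → 1 ≤ j →
    A2 t * F (k + 1) j = F (k + 2) j + F k j + (F (k + 1) (j + 1) + F (k + 1) (j - 1))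
  bot : ∀ j, 1 ≤ j → chh t * F 0 j = shh t / 2 * (F 0 (j + 1) + F 0 (j - 1)) + t * F 1 j
  dec : ∀ k ≤ L + 1, Filter.Tendsto (F k) Filter.atTop (nhds 0)

end Pool.Agent.Helper49.DX
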