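import Pool.Agent.Helper49.DX.Strip

/-!
Block DX-RP: symmetry, reflection positivity and reversal of the boundary correlation matrix (finite
sums only).

Paper proof.
* It is convenient to prove first `Xm t x (L + 1) Φ = Xm t x L (Vm x (Wm t Φ))` (induction on `L`) and that
  `Wm t`, `Vm x` are symmetric: `ip Ψ (Wm t Φ) = ip (Wm t Ψ) Φ`, `ip Ψ (Vm x Φ) = ip (Vm x Ψ) Φ` (the kernel
  of `Vm` is symmetric). Hence `ip Ψ (Xm L Φ) = ip (Xm L Ψ) Φ` by induction.
* `GS_symm`: from the symmetry of `Xm`.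
* `GS_rp`: `Xm t x (2 N + 1) Φ = Y (Vm x (Y Φ))` with `Y = Xm t x N` (induction), `Y` symmetric, and the
  kernel `∏_j (1 + x_j s_j s'_j) = ∑_B ∏_{j ∈ B} x_j s_j s'_j` of `Vm` is positive semidefinite
  (`Finset.prod_one_add`): `ip Ψ (Vm x Ψ) = ∑_B (∏_{j ∈ B} x_j) (∑_c (∏_{j ∈ B} s_j) Ψ c)² ≥ 0`. With
  `Φ = ∑ c u • sp (c u)` (`Xm` is linear) the double sum is `ip (Y Φ) (Vm x (Y Φ)) / ip 1 (X 1) ≥ 0`
  (the denominator is positive, all weights being positive).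
* `GS_rev`: the substitution `c ↦ c ∘ Fin.rev` preserves the weights `wc t` (the bond `(j, j + 1)` goes to
  the bond `(n - 2 - j, n - 1 - j)`) and the kernel of `Vm x`.
-/

open Finset

namespace Pool.Agent.Helper49.DX

open Pool.Agent.Helper49.DL

variable {n : ℕ}

private theorem ip_comm82 (Φ Ψ : Col n → ℝ) : ip Φ Ψ = ip Ψ Φ := by
  unfold ip
  exact Finset.sum_congr rfl fun c _ => mul_comm _ _

private theorem ip_Wm82 (t : ℝ) (Φ Ψ : Col n → ℝ) : ip Ψ (Wm t Φ) = ip (Wm t Ψ) Φ := by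
  unfold ip Wm
  exact Finset.sum_congr rfl fun c _ => by ring

private theorem ker_symm82 (x : Fin n → ℝ) (c c' : Col n) :
    (∏ j, (1 + x j * (sp (c j) * sp (c' j)))) = ∏ j, (1 + x j * (sp (c' j) * sp (c j))) :=
  Finset.prod_congr rfl fun j _ => by ring

private theorem ip_Vm82 (x : Fin n → ℝ) (Φ Ψ : Col n → ℝ) : ip Ψ (Vm x Φ) = ip (Vm x Ψ) Φ := by
  unfold ip Vm
  simp only [Finset.mul_sum, Finset.sum_mul]
  rw [Finset.sum_comm]
  refine Finset.sum_congr rfl fun c _ => Finset.sum_congr rfl fun c' _ => ?_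
  rw [ker_symm82 x c' c]
  ring

private theorem Xm_succ82 (t : ℝ) (x : Fin n → ℝ) (L : ℕ) (Φ : Col n → ℝ) :
    Xm t x (L + 1) Φ = Xm t x L (Vm x (Wm t Φ)) := by
  induction L with
  | zero => rfl
  | succ L ih =>
    change Wm t (Vm x (Xm t x (L + 1) Φ)) = Wm t (Vm x (Xm t x L (Vm x (Wm t Φ))))
    rw [ih]

private theorem ip_Xm82 (t : ℝ) (x : Fin n → ℝ) (L : ℕ) : ∀ Φ Ψ : Col n → ℝ,
    ip Ψ (Xm t x L Φ) = ip (Xm t x L Ψ) Φ := by
  induction L with
  | zero => exact fun Φ Ψ => ip_Wm82 t Φ Ψ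
  | succ L ih =>
    intro Φ Ψ
    change ip Ψ (Wm t (Vm x (Xm t x L Φ))) = _
    rw [ip_Wm82, ip_Vm82, ih, Xm_succ82]

private theorem Xm_add82 (t : ℝ) (x : Fin n → ℝ) (N : ℕ) (Φ : Col n → ℝ) (M : ℕ) :
    Xm t x (M + 1 + N) Φ = Xm t x M (Vm x (Xm t x N Φ)) := by
  induction M with
  | zero =>
    rw [show 0 + 1 + N = N + 1 by omega]
    rfl
  | succ M ih =>
    rw [show M + 1 + 1 + N = M + 1 + N + 1 by omega]
    change Wm t (Vm x (Xm t x (M + 1 + N) Φ)) = Wm t (Vm x (Xm t x M (Vm x (Xm t x N Φ))))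
    rw [ih]

private theorem Wm_sum82 (t : ℝ) {ι : Type*} [Fintype ι] (a : ι → ℝ) (Φ : ι → Col n → ℝ) :
    Wm t (fun c => ∑ u, a u * Φ u c) = fun c => ∑ u, a u * Wm t (Φ u) c := by
  funext c
  unfold Wm
  rw [Finset.mul_sum]
  exact Finset.sum_congr rfl fun u _ => by ring

private theorem Vm_sum82 (x : Fin n → ℝ) {ι : Type*} [Fintype ι] (a : ι → ℝ) (Φ : ι → Col n → ℝ) :
    Vm x (fun c => ∑ u, a u * Φ u c) = fun c => ∑ u, a u * Vm x (Φ u) c := by
  funext c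
  unfold Vm
  simp only [Finset.mul_sum]
  rw [Finset.sum_comm]
  exact Finset.sum_congr rfl fun u _ => Finset.sum_congr rfl fun c' _ => by ring

private theorem Xm_sum82 (t : ℝ) (x : Fin n → ℝ) {ι : Type*} [Fintype ι] (a : ι → ℝ) (L : ℕ) (Φ : ι → Col n → ℝ) :
    Xm t x L (fun c => ∑ u, a u * Φ u c) = fun c => ∑ u, a u * Xm t x L (Φ u) c := by
  induction L with
  | zero => exact Wm_sum82 t a Φ
  | succ L ih =>
    change Wm t (Vm x (Xm t x L (fun c => ∑ u, a u * Φ u c))) = _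
    rw [ih, Vm_sum82, Wm_sum82]
    rfl

private theorem wc_pos82 {t : ℝ} (ht : 0 < t) (ht1 : t < 1) (c : Col n) : 0 < wc t c := by
  unfold wc
  refine Finset.prod_pos fun j _ => ?_
  split_ifs with h
  · rcases hb : c j <;> rcases hb' : c ⟨(j : ℕ) + 1, h⟩ <;> simp <;> linarith
  · exact one_pos

private theorem ker_pos82 {x : Fin n → ℝ} (hx : ∀ j, 0 < x j) (hx1 : ∀ j, x j < 1) (c c' : Col n) :
    0 < ∏ j, (1 + x j * (sp (c j) * sp (c' j))) := by
  refine Finset.prod_pos fun j _ => ?_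
  have h1 := hx j
  have h2 := hx1 j
  rcases hb : c j <;> rcases hb' : c' j <;> simp <;> linarith

private theorem Xm_pos82 {t : ℝ} (ht : 0 < t) (ht1 : t < 1) {x : Fin n → ℝ} (hx : ∀ j, 0 < x j)
    (hx1 : ∀ j, x j < 1) (L : ℕ) (c : Col n) : 0 < Xm t x L (fun _ => 1) c := by
  induction L generalizing c with
  | zero => exact mul_pos (wc_pos82 ht ht1 c) one_pos
  | succ L ih =>
    change 0 < wc t c * ∑ c' : Col n, (∏ j, (1 + x j * (sp (c j) * sp (c' j)))) * Xm t x L (fun _ => 1) c'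
    refine mul_pos (wc_pos82 ht ht1 c) (Finset.sum_pos (fun c' _ => ?_) Finset.univ_nonempty)
    exact mul_pos (ker_pos82 hx hx1 c c') (ih c')

private theorem den_pos82 {t : ℝ} (ht : 0 < t) (ht1 : t < 1) {x : Fin n → ℝ} (hx : ∀ j, 0 < x j)
    (hx1 : ∀ j, x j < 1) (L : ℕ) : 0 < ip (fun _ => 1) (Xm t x L (fun _ => 1)) := by
  unfold ip
  refine Finset.sum_pos (fun c _ => ?_) Finset.univ_nonempty
  exact mul_pos one_pos (Xm_pos82 ht ht1 hx hx1 L c)

/-- The kernel is positive semidefinite. -/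
private theorem psd82 {x : Fin n → ℝ} (hx : ∀ j, 0 < x j) (Ψ : Col n → ℝ) : 0 ≤ ip Ψ (Vm x Ψ) := by
  have e : ip Ψ (Vm x Ψ) = ∑ A ∈ (Finset.univ : Finset (Fin n)).powerset,
      (∏ j ∈ A, x j) * (∑ c : Col n, (∏ j ∈ A, sp (c j)) * Ψ c) ^ 2 := by
    unfold ip Vm
    simp only [Finset.prod_one_add]
    simp only [Finset.mul_sum, Finset.sum_mul, sq]
    have h1 : ∀ c : Col n, ∑ c' : Col n, ∑ A ∈ (Finset.univ : Finset (Fin n)).powerset,
        Ψ c * ((∏ j ∈ A, x j * (sp (c j) * sp (c' j))) * Ψ c') =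
        ∑ A ∈ (Finset.univ : Finset (Fin n)).powerset, ∑ c' : Col n,
          Ψ c * ((∏ j ∈ A, x j * (sp (c j) * sp (c' j))) * Ψ c') := fun c => Finset.sum_comm
    rw [Finset.sum_congr rfl fun c _ => h1 c, Finset.sum_comm]
    refine Finset.sum_congr rfl fun A _ => ?_
    rw [Finset.sum_comm]
    refine Finset.sum_congr rfl fun c _ => Finset.sum_congr rfl fun c' _ => ?_
    rw [Finset.prod_mul_distrib, Finset.prod_mul_distrib]
    ring
  rw [e]
  refine Finset.sum_nonneg fun A _ => mul_nonneg (Finset.prod_nonneg fun j _ => (hx j).le) (sq_nonneg _)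

theorem GS_symm (t : ℝ) (x : Fin n → ℝ) (L : ℕ) (u v : Fin n) :
    GS t x L u v = GS t x L v u := by
  unfold GS
  rw [ip_Xm82, ip_comm82]

theorem GS_rp {t : ℝ} (ht : 0 < t) (ht1 : t < 1) {x : Fin n → ℝ} (hx : ∀ j, 0 < x j)
    (hx1 : ∀ j, x j < 1) (N : ℕ) (c : Fin n → ℝ) :
    0 ≤ ∑ u, ∑ v, c u * c v * GS t x (2 * N + 1) u v := by
  obtain ⟨Φ, hΦ⟩ : ∃ Φ : Col n → ℝ, Φ = fun c' => ∑ u, c u * sp (c' u) := ⟨_, rfl⟩
  have hX : Xm t x (2 * N + 1) Φ = fun c' => ∑ u, c u * Xm t x (2 * N + 1) (fun c => sp (c u)) c' := by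
    rw [hΦ]
    exact Xm_sum82 t x c (2 * N + 1) (fun u c => sp (c u))
  have e1 : ip Φ (Xm t x (2 * N + 1) Φ) = ∑ u, ∑ v, c u * c v *
      ip (fun c => sp (c v)) (Xm t x (2 * N + 1) (fun c => sp (c u))) := by
    rw [hX, hΦ]
    unfold ip
    simp only [Finset.mul_sum, Finset.sum_mul]
    rw [Finset.sum_comm]
    refine Finset.sum_congr rfl fun u _ => ?_
    rw [Finset.sum_comm]
    refine Finset.sum_congr rfl fun v _ => Finset.sum_congr rfl fun c' _ => ?_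
    ring
  have e2 : ip Φ (Xm t x (2 * N + 1) Φ) = ip (Xm t x N Φ) (Vm x (Xm t x N Φ)) := by
    rw [show 2 * N + 1 = N + 1 + N by omega, Xm_add82, ip_Xm82]
  have e3 : ∑ u, ∑ v, c u * c v * GS t x (2 * N + 1) u v =
      ip Φ (Xm t x (2 * N + 1) Φ) / ip (fun _ => 1) (Xm t x (2 * N + 1) (fun _ => 1)) := by
    rw [e1, Finset.sum_div]
    refine Finset.sum_congr rfl fun u _ => ?_
    rw [Finset.sum_div]
    refine Finset.sum_congr rfl fun v _ => ?_
    unfold GS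
    ring
  rw [e3, e2]
  exact div_nonneg (psd82 hx _) (den_pos82 ht ht1 hx hx1 _).le

private theorem wc_succ82 {m : ℕ} (t : ℝ) (c : Col (m + 1)) :
    wc t c = ∏ i : Fin m, (1 + t * (sp (c i.castSucc) * sp (c i.succ))) := by
  unfold wc
  rw [Fin.prod_univ_castSucc]
  have h1 : (if h : ((Fin.last m : Fin (m + 1)) : ℕ) + 1 < m + 1 then
      1 + t * (sp (c (Fin.last m)) * sp (c ⟨((Fin.last m : Fin (m + 1)) : ℕ) + 1, h⟩)) else 1) = 1 := by
    rw [dif_neg]
    rw [Fin.val_last]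
    omega
  rw [h1, mul_one]
  refine Finset.prod_congr rfl fun i _ => ?_
  have h2 : ((i.castSucc : Fin (m + 1)) : ℕ) + 1 < m + 1 := by
    rw [Fin.val_castSucc]
    omega
  rw [dif_pos h2]
  rfl

private theorem wc_rev82 (t : ℝ) (c : Col n) : wc t (fun j => c (Fin.rev j)) = wc t c := by
  cases n with
  | zero => rfl
  | succ m =>
    rw [wc_succ82, wc_succ82, ← Equiv.prod_comp Fin.revPerm]
    refine Finset.prod_congr rfl fun i _ => ?_
    rw [Fin.revPerm_apply, Fin.rev_castSucc, Fin.rev_succ, Fin.rev_rev, mul_comm (sp _)]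

private theorem ker_rev82 {x : Fin n → ℝ} (hx : ∀ j, x (Fin.rev j) = x j) (c c' : Col n) :
    (∏ j, (1 + x j * (sp (c j) * sp (c' (Fin.rev j))))) =
      ∏ j, (1 + x j * (sp (c (Fin.rev j)) * sp (c' j))) := by
  rw [← Equiv.prod_comp Fin.revPerm]
  refine Finset.prod_congr rfl fun j _ => ?_
  rw [Fin.revPerm_apply, Fin.rev_rev, hx]

/-- The reversal of the rows. -/
private def revE82 (n : ℕ) : Col n ≃ Col n where
  toFun c := fun j => c (Fin.rev j)
  invFun c := fun j => c (Fin.rev j)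
  left_inv c := by
    funext j
    change c (Fin.rev (Fin.rev j)) = c j
    rw [Fin.rev_rev]
  right_inv c := by
    funext j
    change c (Fin.rev (Fin.rev j)) = c j
    rw [Fin.rev_rev]

private theorem Wm_rev82 (t : ℝ) (Φ : Col n → ℝ) :
    Wm t (fun c => Φ (revE82 n c)) = fun c => Wm t Φ (revE82 n c) := by
  funext c
  change wc t c * Φ (revE82 n c) = wc t (fun j => c (Fin.rev j)) * Φ (revE82 n c)
  rw [wc_rev82]

private theorem Vm_rev82 {x : Fin n → ℝ} (hx : ∀ j, x (Fin.rev j) = x j) (Φ : Col n → ℝ) :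
    Vm x (fun c => Φ (revE82 n c)) = fun c => Vm x Φ (revE82 n c) := by
  funext c
  unfold Vm
  rw [← Equiv.sum_comp (revE82 n)]
  refine Finset.sum_congr rfl fun c' _ => ?_
  have h1 : revE82 n (revE82 n c') = c' := (revE82 n).left_inv c'
  change (∏ j, (1 + x j * (sp (c j) * sp (c' (Fin.rev j))))) * Φ (revE82 n (revE82 n c')) =
    (∏ j, (1 + x j * (sp (c (Fin.rev j)) * sp (c' j)))) * Φ c'
  rw [h1, ker_rev82 hx c c']

private theorem Xm_rev82 (t : ℝ) {x : Fin n → ℝ} (hx : ∀ j, x (Fin.rev j) = x j) (L : ℕ) (Φ : Col n → ℝ) :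
    Xm t x L (fun c => Φ (revE82 n c)) = fun c => Xm t x L Φ (revE82 n c) := by
  induction L with
  | zero => exact Wm_rev82 t Φ
  | succ L ih =>
    change Wm t (Vm x (Xm t x L (fun c => Φ (revE82 n c)))) = _
    rw [ih, Vm_rev82 hx, Wm_rev82]
    rfl

/-- Invariance under the reversal of the rows. -/
theorem GS_rev {t : ℝ} {x : Fin n → ℝ} (hx : ∀ j, x (Fin.rev j) = x j) (L : ℕ) (u v : Fin n) :
    GS t x L (Fin.rev u) (Fin.rev v) = GS t x L u v := by
  unfold GS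
  congr 1
  have h1 : Xm t x L (fun c => sp (c (Fin.rev u))) = fun c => Xm t x L (fun c => sp (c u)) (revE82 n c) :=
    Xm_rev82 t hx L (fun c => sp (c u))
  rw [h1]
  unfold ip
  exact Equiv.sum_comp (revE82 n) (fun c => sp (c v) * Xm t x L (fun c => sp (c u)) c)

end Pool.Agent.Helper49.DX
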