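import Pool.Agent.Helper49.DX.Strip

/-!
The linear system for the profiles of the planar Ising strip with a weak row in the middle: constants,
super solutions and solutions. No proofs here.

The strip has `2 m + 1` rows, the row at distance `y` from the middle row has weight `t` (`y ≠ 0`) or `td`
(`y = 0`). For profiles symmetric under reversal of the rows, `g y` is the profile before the first
column, `p (k + 1) y` the creation coefficient after `k + 1` columns, `p 0 y` is `g y` times the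
weight of the row.
-/

open Finset

namespace Pool.Agent.Helper49.DX

open Pool.Agent.Helper49.DL

/-- `e^τ + e^{-τ} + 2`. -/
noncomputable def A2 (t : ℝ) : ℝ := (1 + t ^ 2) ^ 2 / (t * (1 - t ^ 2))

/-- `e^{-τ}`, the decay rate of the two-point function along the axis. -/
noncomputable def lam (t : ℝ) : ℝ := t * (1 + t) / (1 - t)

/-- Strength of the defect. -/
noncomputable def mu (t td : ℝ) : ℝ := 1 / td - 1 / t

/-- Ratio of the weights. -/
noncomputable def zet (t td : ℝ) : ℝ := t / td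

/-- Coefficient of the defect row. -/
noncomputable def the (t td : ℝ) : ℝ := 1 + mu t td * shh t / 2

/-- Super solutions of the linear system (`L + 1` columns, levels `0, ..., L + 1`). -/
structure Sup (t td : ℝ) (m L : ℕ) (g : ℕ → ℝ) (p : ℕ → ℕ → ℝ) : Prop where
  lev : ∀ y ≤ m, p 0 y = (if y = 0 then td else t) * g y
  bulk : ∀ k y, k < L → 2 ≤ y → y < m →
    p (k + 2) y + p k y + (p (k + 1) (y + 1) + p (k + 1) (y - 1)) ≤ A2 t * p (k + 1) y
  one : ∀ k, k < L →
    p (k + 2) 1 + p k 1 + (p (k + 1) 2 + the t td * p (k + 1) 0) ≤ A2 t * p (k + 1) 1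
  zero : ∀ k, k < L →
    p (k + 2) 0 + zet t td * p k 0 + 2 * p (k + 1) 1 ≤ (A2 t + mu t td * chh t) * p (k + 1) 0
  top : ∀ k, k < L →
    p (k + 2) m + p k m + p (k + 1) (m - 1) +
      2 * t * (∑ i ∈ Finset.range k, t ^ (i + 1) * p (k - i) m) +
      t ^ (k + 1) * (chh t - 1) * g m ≤ (A2 t - t) * p (k + 1) m
  gbulk : ∀ y, 1 ≤ y → y < m → shh t / 2 * (g (y + 1) + g (y - 1)) + p 1 y ≤ chh t * g y
  gzero : shh t * g 1 + p 1 0 ≤ chh t * g 0
  gtop : shh t / 2 * g (m - 1) + p 1 m ≤ (1 + chh t) / 2 * g m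

/-- Solutions of the linear system with source `E` after the last column. -/
structure Sol (t td : ℝ) (m L : ℕ) (E : ℕ → ℝ) (g : ℕ → ℝ) (p : ℕ → ℕ → ℝ) : Prop where
  src : ∀ y ≤ m, p (L + 1) y = E y
  lev : ∀ y ≤ m, p 0 y = (if y = 0 then td else t) * g y
  bulk : ∀ k y, k < L → 2 ≤ y → y < m →
    p (k + 2) y + p k y + (p (k + 1) (y + 1) + p (k + 1) (y - 1)) = A2 t * p (k + 1) y
  one : ∀ k, k < L →
    p (k + 2) 1 + p k 1 + (p (k + 1) 2 + the t td * p (k + 1) 0) = A2 t * p (k + 1) 1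
  zero : ∀ k, k < L →
    p (k + 2) 0 + zet t td * p k 0 + 2 * p (k + 1) 1 = (A2 t + mu t td * chh t) * p (k + 1) 0
  top : ∀ k, k < L →
    p (k + 2) m + p k m + p (k + 1) (m - 1) +
      2 * t * (∑ i ∈ Finset.range k, t ^ (i + 1) * p (k - i) m) +
      t ^ (k + 1) * (chh t - 1) * g m = (A2 t - t) * p (k + 1) m
  gbulk : ∀ y, 1 ≤ y → y < m → shh t / 2 * (g (y + 1) + g (y - 1)) + p 1 y = chh t * g y
  gzero : shh t * g 1 + p 1 0 = chh t * g 0
  gtop : shh t / 2 * g (m - 1) + p 1 m = (1 + chh t) / 2 * g m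

/-- Weights of the rows. -/
noncomputable def xs (t td : ℝ) (m : ℕ) : Fin (2 * m + 1) → ℝ :=
  fun j => if (j : ℕ) = m then td else t

/-- Distance to the middle row. -/
def ds (m : ℕ) (j : Fin (2 * m + 1)) : ℕ := Int.natAbs ((j : ℤ) - m)

/-- Symmetric sums of the boundary correlation at distance `y` from the middle row. -/
noncomputable def gsum (t td : ℝ) (m L : ℕ) (E : ℕ → ℝ) (y : ℕ) : ℝ :=
  if h : m + y < 2 * m + 1 then ∑ v : Fin (2 * m + 1), E (ds m v) * GS t (xs t td m) L v ⟨m + y, h⟩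
  else 0

/-- The Fourier multipliers of the homogeneous system. -/
noncomputable def Hh (t θ : ℝ) : ℕ → ℝ
  | 0 => t
  | 1 => chh t - shh t * Real.cos θ
  | k + 2 => (A2 t - 2 * Real.cos θ) * Hh t θ (k + 1) - Hh t θ k

end Pool.Agent.Helper49.DX
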