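import Pool.Agent.Helper49.DX.Prof
import Pool.Agent.Helper49.DX.Sys
import Pool.Agent.Helper49.DX.Rp

/-!
Block DX-PE: the profile equations (checked numerically).

Paper proof. Put `n = 2 m + 1`, `x = xs t td m`, `c w = ∑ v, E (ds m v) * GS t x L v w` (all `w`),
`(P k, Q k) = pqs t x c k`. By `profile` `P L = fun v => E (ds m v)`. `c` is symmetric under `Fin.rev` (`GS_rev`
in Rp.lean, `ds m (Fin.rev v) = ds m v`), so are all `P k`, and all `Q k` are antisymmetric (induction on
`k` from the formulas of `wp`, `wq`); in particular `Q k` vanishes in the middle row. Take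
`p 0 y = x * c`, `p (k + 1) y = P k (m + y)` and `g y = c (m + y) = gsum t td m L E y`.
* `gbulk`, `gzero`, `gtop`: `P 0 = wp t c 0` (in the middle row use the symmetry, in the last row
  `lo = 1`, `up = 0`, `nx = 0`).
* The recursion: the column map `w = (wp, wq)` is inverted by changing `sh` into `-sh`
  (`ch² - sh² = 1`), so `P⁻ (P k) + R⁻ (Q k) = P (k - 1) / x` (and `= c` for `k = 0`), where
  `P⁻ c = (1 + (lo + up)/2 (ch - 1)) c + sh/2 (nx c + pv c)`,
  `R⁻ d = (lo - up)/2 (ch - 1) d + sh/2 nx d - sh/2 pv d`; and since `x_j Q k j = t Q k j` for all `j`,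
  `P (k + 1) = wp t (P k / x) (t Q k) = P⁺ (P k / x) + t R⁺ (Q k)`,
  `R⁺ d = (lo - up)/2 (ch - 1) d - sh/2 nx d + sh/2 pv d`. As `R⁺ + R⁻ = (lo - up) (ch - 1)`,
  `P (k + 1) = P⁺ (P k / x) + t P⁻ (P k) - t P (k - 1) / x + t (lo - up) (ch - 1) Q k`.
* interior rows (`lo = up = 1`): write this out; `(1/t + t) ch = A2`, `(1/t - t) sh/2 = 1`,
  `(1/td - t) sh/2 = θ`, `ch (1/td + t) = A2 + μ ch`, `t / td = ζ`.
* last row (`up = 0`): `Q k` in the last row follows from the last row of the recursion: there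
  `P⁻ c = (1 + ch)/2 c + sh/2 pv c` etc., eliminate `pv (P k)`, `pv (Q k)` between the rows of
  `P (k) = ...` and `Q (k) = ...`: for `w`: `wp + wq` in the last row is
  `(ch)(c + d) + ((1 + ch)/2 - (ch - 1)/2 ...)`; explicitly in the last row
  `wp c d - wq c d = c - d`-type relation: `wp = (1 + ch)/2 c - sh/2 pv c + (ch - 1)/2 d + sh/2 pv d`,
  `wq = (ch - 1)/2 c - sh/2 pv c + (1 + ch)/2 d + sh/2 pv d`, so `wp - wq = c - d`. Hence
  `Q k = P k - P (k - 1) / t + t Q (k - 1)` in the last row (`Q 0 = P 0 - c`), and by induction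
  `Q k = P k - (1/t - t) ∑_{i = 1}^{k} t ^ (i - 1) P (k - i) - t ^ k c`, (last row). Insert this in the
  formula for `P (k + 1)`: `t (ch - 1) (1/t - t) = 2 t²`, `A2 = (1/t + t) ch` and collect (this gives `top`).
-/

open Finset

namespace Pool.Agent.Helper49.DX

open Pool.Agent.Helper49.DL

/-- The system on the upper half of the strip, with the annihilation part `V`. -/
private structure Half63 (t r td rd ch sh : ℝ) (m : ℕ) (g : ℕ → ℝ) (p V : ℕ → ℕ → ℝ) : Prop where
  lev : ∀ y ≤ m, p 0 y = (if y = 0 then td else t) * g y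
  v0 : ∀ y, V 0 y = 0
  vz : ∀ k, V k 0 = 0
  rp : ∀ k j, 1 ≤ j → j ≤ m → p (k + 1) j + V (k + 1) j * r = ch * (p k j * r + V k j) -
    sh * (p k (j - 1) * (if j - 1 = 0 then rd else r) - V k (j - 1))
  rm : ∀ k j, j < m → p (k + 1) j - V (k + 1) j * r = ch * (p k j * (if j = 0 then rd else r) - V k j) -
    sh * (p k (j + 1) * r + V k (j + 1))
  rt : ∀ k, p (k + 1) m - V (k + 1) m * r = p k m * r - V k m

section

variable {t r td rd ch sh : ℝ} {m : ℕ} {g : ℕ → ℝ} {p V : ℕ → ℕ → ℝ}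

private theorem h_bulk63 (h : Half63 t r td rd ch sh m g p V) (tr : t * r = 1) (cs : ch ^ 2 - sh ^ 2 = 1)
    (s1 : sh * (r - t) = 2) (k y : ℕ) (hy : 2 ≤ y) (hy' : y < m) :
    p (k + 2) y + p k y + (p (k + 1) (y + 1) + p (k + 1) (y - 1)) = ch * (r + t) * p (k + 1) y := by
  have e1 := h.rp (k + 1) y (by omega) hy'.le
  have e2 := h.rm (k + 1) y hy'
  have e3 := h.rp k (y + 1) (by omega) (by omega)
  have e4 := h.rm k (y - 1) (by omega)
  have e5 := h.rp k y (by omega) hy'.le
  have e6 := h.rm k y hy'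
  rw [if_neg (by omega)] at e1 e2 e3 e4 e5 e6
  rw [show y - 1 + 1 = y by omega] at e4
  rw [show y + 1 - 1 = y by omega] at e3
  linear_combination (1 / 2) * (e1 + e2) - (sh * t / 2) * (e3 + e4) - (t * ch / 2) * (e5 + e6) -
    ((p (k + 1) (y + 1) + p (k + 1) (y - 1)) / 2) * s1 - t * r * p k y * cs +
    (sh / 2 * (V (k + 1) (y + 1) - V (k + 1) (y - 1)) - p k y) * tr

private theorem h_one63 (h : Half63 t r td rd ch sh m g p V) (tr : t * r = 1) (cs : ch ^ 2 - sh ^ 2 = 1)
    (s1 : sh * (r - t) = 2) (hm : 2 ≤ m) (k : ℕ) :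
    p (k + 2) 1 + p k 1 + (p (k + 1) 2 + (1 + (rd - r) * sh / 2) * p (k + 1) 0) =
      ch * (r + t) * p (k + 1) 1 := by
  have e1 := h.rp (k + 1) 1 le_rfl (by omega)
  have e2 := h.rm (k + 1) 1 (by omega)
  have e3 := h.rp k 2 (by omega) hm
  have e4 := h.rm k 0 (by omega)
  have e5 := h.rp k 1 le_rfl (by omega)
  have e6 := h.rm k 1 (by omega)
  rw [if_pos (by omega)] at e1 e4 e5
  rw [if_neg (by omega)] at e2 e3 e6
  simp only [Nat.sub_self, zero_add, show 2 - 1 = 1 from rfl, show 1 + 1 = 2 from rfl] at e1 e2 e3 e4 e5 e6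
  linear_combination (1 / 2) * (e1 + e2) - (sh * t / 2) * (e3 + e4) - (t * ch / 2) * (e5 + e6) -
    ((p (k + 1) 2 + p (k + 1) 0) / 2) * s1 - t * r * p k 1 * cs +
    (sh / 2 * (V (k + 1) 2 - V (k + 1) 0) - p k 1) * tr

private theorem h_zero63 (h : Half63 t r td rd ch sh m g p V) (tr : t * r = 1) (cs : ch ^ 2 - sh ^ 2 = 1)
    (s1 : sh * (r - t) = 2) (hm : 2 ≤ m) (k : ℕ) :
    p (k + 2) 0 + t * rd * p k 0 + 2 * p (k + 1) 1 = (ch * (r + t) + (rd - r) * ch) * p (k + 1) 0 := by
  have e2 := h.rm (k + 1) 0 (by omega)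
  have e3 := h.rp k 1 le_rfl (by omega)
  have e6 := h.rm k 0 (by omega)
  rw [if_pos (by omega)] at e2 e3 e6
  simp only [Nat.sub_self, zero_add, h.vz] at e2 e3 e6
  linear_combination e2 - sh * t * e3 - t * ch * e6 - p (k + 1) 1 * s1 - t * rd * p k 0 * cs +
    sh * V (k + 1) 1 * tr

private theorem h_vs63 (h : Half63 t r td rd ch sh m g p V) (tr : t * r = 1) (hm : 2 ≤ m) (k : ℕ) :
    t * V k m = p k m - t ^ (k + 1) * g m - (1 - t ^ 2) * ∑ i ∈ Finset.range k, t ^ i * p (k - i) m := by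
  induction k with
  | zero =>
    have e := h.lev m le_rfl
    rw [if_neg (by omega)] at e
    rw [h.v0, Finset.range_zero, Finset.sum_empty, e]
    ring
  | succ k ih =>
    have e := h.rt k
    rw [Finset.sum_range_succ']
    simp only [Nat.add_sub_add_right, pow_zero, one_mul, Nat.sub_zero]
    have h1 : ∑ i ∈ Finset.range k, t ^ (i + 1) * p (k - i) m =
        t * ∑ i ∈ Finset.range k, t ^ i * p (k - i) m := by
      rw [Finset.mul_sum]
      exact Finset.sum_congr rfl fun i _ => by ring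
    rw [h1]
    linear_combination t * ih - t ^ 2 * e - (t * (V (k + 1) m + p k m)) * tr

private theorem h_top63 (h : Half63 t r td rd ch sh m g p V) (tr : t * r = 1) (cs : ch ^ 2 - sh ^ 2 = 1)
    (s1 : sh * (r - t) = 2) (c1 : (ch - 1) * (1 - t ^ 2) = 2 * t ^ 2) (c2 : ch * (r - t) = r + t)
    (hm : 2 ≤ m) (k : ℕ) :
    p (k + 2) m + p k m + p (k + 1) (m - 1) +
      2 * t * (∑ i ∈ Finset.range k, t ^ (i + 1) * p (k - i) m) +
      t ^ (k + 1) * (ch - 1) * g m = (ch * (r + t) - t) * p (k + 1) m := by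
  have e1 := h.rp (k + 1) m (by omega) le_rfl
  have e2 := h.rt (k + 1)
  have e3 := h.rt k
  have e4 := h.rm k (m - 1) (by omega)
  have e5 := h.rp k m (by omega) le_rfl
  have vs := h_vs63 h tr hm k
  rw [if_neg (by omega)] at e1 e4 e5
  rw [show m - 1 + 1 = m by omega] at e4
  have h1 : ∑ i ∈ Finset.range k, t ^ (i + 1) * p (k - i) m =
      t * ∑ i ∈ Finset.range k, t ^ i * p (k - i) m := by
    rw [Finset.mul_sum]
    exact Finset.sum_congr rfl fun i _ => by ring
  rw [h1]
  linear_combination (1 / 2) * (e1 + e2) - ((ch - 1) / 2 * t) * e3 - (sh / 2 * t) * e4 -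
    (t * ch / 2) * (e3 + e5) + (-(ch - 1) / 2 * (V (k + 1) m + p k m) -
      (sh / 2) * (V (k + 1) (m - 1) - sh * p k m) - ch * (ch + 1) / 2 * p k m) * tr -
    (p k m / 2 + t * V k m / 2) * cs - (p (k + 1) (m - 1) / 2) * s1 - (p (k + 1) m / 2) * c2 +
    (ch - 1) * vs - (∑ i ∈ Finset.range k, t ^ i * p (k - i) m) * c1

private theorem h_gbulk63 (h : Half63 t r td rd ch sh m g p V) (tr : t * r = 1) (trd : td * rd = 1)
    (y : ℕ) (hy : 1 ≤ y) (hy' : y < m) : sh / 2 * (g (y + 1) + g (y - 1)) + p 1 y = ch * g y := by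
  have e1 := h.rp 0 y hy hy'.le
  have e2 := h.rm 0 y hy'
  have l0 := h.lev y hy'.le
  have l1 := h.lev (y + 1) (by omega)
  have l2 := h.lev (y - 1) (by omega)
  have hz : p 0 (y - 1) * (if y - 1 = 0 then rd else r) = g (y - 1) := by
    rw [l2]
    split_ifs with hh
    · linear_combination g (y - 1) * trd
    · linear_combination g (y - 1) * tr
  rw [if_neg (by omega)] at e2 l0 l1
  rw [hz, l0, h.v0, h.v0] at e1
  rw [l0, l1, h.v0, h.v0] at e2
  simp only [zero_add] at e1 e2
  linear_combination (1 / 2) * (e1 + e2) + (ch * g y - sh / 2 * g (y + 1)) * tr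

private theorem h_gzero63 (h : Half63 t r td rd ch sh m g p V) (tr : t * r = 1) (trd : td * rd = 1)
    (hm : 2 ≤ m) : sh * g 1 + p 1 0 = ch * g 0 := by
  have e2 := h.rm 0 0 (by omega)
  have l0 := h.lev 0 (by omega)
  have l1 := h.lev 1 (by omega)
  rw [if_pos rfl] at e2 l0
  rw [if_neg one_ne_zero] at l1
  simp only [zero_add] at e2
  rw [l0, l1, h.v0, h.v0, h.vz] at e2
  linear_combination e2 + ch * g 0 * trd - sh * g 1 * tr

private theorem h_gtop63 (h : Half63 t r td rd ch sh m g p V) (tr : t * r = 1)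
    (hm : 2 ≤ m) : sh / 2 * g (m - 1) + p 1 m = (1 + ch) / 2 * g m := by
  have e1 := h.rp 0 m (by omega) le_rfl
  have e2 := h.rt 0
  have l0 := h.lev m le_rfl
  have l1 := h.lev (m - 1) (by omega)
  rw [if_neg (by omega)] at e1 l0 l1
  simp only [zero_add] at e1 e2
  rw [l0, l1, h.v0, h.v0] at e1
  rw [l0, h.v0] at e2
  linear_combination (1 / 2) * (e1 + e2) + ((ch + 1) / 2 * g m - sh / 2 * g (m - 1)) * tr

end

/-! ### Symmetry -/

private theorem wpq_add63 {n : ℕ} (t : ℝ) (c d : Fin n → ℝ) (j : Fin n) :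
    wp t c d j + wq t c d j = (1 + lo j * (chh t - 1)) * (c j + d j) - shh t * (pv c j - pv d j) := by
  unfold wp wq
  ring

private theorem wpq_sub63 {n : ℕ} (t : ℝ) (c d : Fin n → ℝ) (j : Fin n) :
    wp t c d j - wq t c d j = (1 + up j * (chh t - 1)) * (c j - d j) - shh t * (nx c j + nx d j) := by
  unfold wp wq
  ring

private theorem nx_rev63 {n : ℕ} (c : Fin n → ℝ) (j : Fin n) :
    nx c (Fin.rev j) = pv (fun i => c (Fin.rev i)) j := by
  have hj := j.2
  unfold nx pv
  by_cases h : 0 < (j : ℕ)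
  · rw [dif_pos (by rw [Fin.val_rev]; omega), if_pos h]
    congr 1
    apply Fin.ext
    simp only [Fin.val_rev]
    omega
  · rw [dif_neg (by rw [Fin.val_rev]; omega), if_neg h]

private theorem pv_rev63 {n : ℕ} (c : Fin n → ℝ) (j : Fin n) :
    pv c (Fin.rev j) = nx (fun i => c (Fin.rev i)) j := by
  have hj := j.2
  unfold nx pv
  by_cases h : (j : ℕ) + 1 < n
  · rw [dif_pos h, if_pos (by rw [Fin.val_rev]; omega)]
    refine congrArg c (Fin.ext ?_)
    simp only [Fin.val_rev]
    first | done | omega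
  · rw [dif_neg h, if_neg (by rw [Fin.val_rev]; omega)]

private theorem lo_rev63 {n : ℕ} (j : Fin n) : lo (Fin.rev j) = up j := by
  have hj := j.2
  unfold lo up
  by_cases h : (j : ℕ) + 1 < n
  · rw [if_pos h, if_pos (by rw [Fin.val_rev]; omega)]
  · rw [if_neg h, if_neg (by rw [Fin.val_rev]; omega)]

private theorem up_rev63 {n : ℕ} (j : Fin n) : up (Fin.rev j) = lo j := by
  rw [← lo_rev63, Fin.rev_rev]

private theorem nx_neg63 {n : ℕ} (c : Fin n → ℝ) (j : Fin n) : nx (fun i => -c i) j = -nx c j := by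
  unfold nx
  split_ifs
  · rfl
  · rw [neg_zero]

private theorem pv_neg63 {n : ℕ} (c : Fin n → ℝ) (j : Fin n) : pv (fun i => -c i) j = -pv c j := by
  unfold pv
  split_ifs
  · rfl
  · rw [neg_zero]

private theorem w_sym63 {n : ℕ} (t : ℝ) {c d : Fin n → ℝ} (hc : ∀ j, c (Fin.rev j) = c j)
    (hd : ∀ j, d (Fin.rev j) = -d j) (j : Fin n) :
    wp t c d (Fin.rev j) = wp t c d j ∧ wq t c d (Fin.rev j) = -wq t c d j := by
  have hc' : (fun i => c (Fin.rev i)) = c := funext hc
  have hd' : (fun i => d (Fin.rev i)) = fun i => -d i := funext hd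
  constructor
  · unfold wp
    rw [nx_rev63, pv_rev63, nx_rev63, pv_rev63, lo_rev63, up_rev63, hc', hd', nx_neg63, pv_neg63, hc, hd]
    ring
  · unfold wq
    rw [nx_rev63, pv_rev63, nx_rev63, pv_rev63, lo_rev63, up_rev63, hc', hd', nx_neg63, pv_neg63, hc, hd]
    ring

private theorem pq_sym63 {n : ℕ} (t : ℝ) {x c : Fin n → ℝ} (hx : ∀ j, x (Fin.rev j) = x j)
    (hc : ∀ j, c (Fin.rev j) = c j) (k : ℕ) (j : Fin n) :
    (pqs t x c k).1 (Fin.rev j) = (pqs t x c k).1 j ∧ (pqs t x c k).2 (Fin.rev j) = -(pqs t x c k).2 j := by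
  induction k generalizing j with
  | zero => exact w_sym63 t hc (fun _ => by rw [neg_zero]) j
  | succ k ih =>
    refine w_sym63 t (c := fun j => (pqs t x c k).1 j / x j) (d := fun j => x j * (pqs t x c k).2 j)
      (fun j => ?_) (fun j => ?_) j
    · rw [hx, (ih j).1]
    · rw [hx, (ih j).2, mul_neg]

private theorem xs_rev63 (t td : ℝ) (m : ℕ) (j : Fin (2 * m + 1)) : xs t td m (Fin.rev j) = xs t td m j := by
  have hj := j.2
  unfold xs
  by_cases h : (j : ℕ) = m
  · rw [if_pos h, if_pos (by rw [Fin.val_rev]; omega)]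
  · rw [if_neg h, if_neg (by rw [Fin.val_rev]; omega)]

private theorem ds_rev63 (m : ℕ) (j : Fin (2 * m + 1)) : ds m (Fin.rev j) = ds m j := by
  have hj := j.2
  unfold ds
  rw [Fin.val_rev]
  omega

theorem prof_sys {t td : ℝ} (ht : 0 < t) (ht1 : t < 1) (htd : 0 < td) (htd1 : td < 1) {m : ℕ}
    (hm : 2 ≤ m) (L : ℕ) (E : ℕ → ℝ) :
    ∃ p : ℕ → ℕ → ℝ, Sol t td m L E (gsum t td m L E) p := by
  have ht2 : 0 < 1 - t ^ 2 := by nlinarith
  have tr : t * (1 / t) = 1 := by field_simp
  have trd : td * (1 / td) = 1 := by field_simp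
  have cs : chh t ^ 2 - shh t ^ 2 = 1 := by
    unfold chh shh
    field_simp
    ring
  have s1 : shh t * (1 / t - t) = 2 := by
    unfold shh
    field_simp
  have c1 : (chh t - 1) * (1 - t ^ 2) = 2 * t ^ 2 := by
    unfold chh
    field_simp
    ring
  have c2 : chh t * (1 / t - t) = 1 / t + t := by
    unfold chh
    field_simp
  have hA : A2 t = chh t * (1 / t + t) := by
    unfold A2 chh
    field_simp
  set x := xs t td m with hx
  have hxp : ∀ j, 0 < x j := fun j => by
    rw [hx]; unfold xs; split_ifs <;> assumption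
  have hx1 : ∀ j, x j < 1 := fun j => by
    rw [hx]; unfold xs; split_ifs <;> assumption
  set c : Fin (2 * m + 1) → ℝ := fun w => ∑ v, E (ds m v) * GS t x L v w with hc
  have hcs : ∀ j, c (Fin.rev j) = c j := by
    intro j
    rw [hc]
    simp only
    rw [← Equiv.sum_comp Fin.revPerm]
    refine Finset.sum_congr rfl fun v _ => ?_
    rw [Fin.revPerm_apply, ds_rev63, GS_rev (x := x) (fun j => by rw [hx]; exact xs_rev63 t td m j)]
  have hprof : (pqs t x c L).1 = fun v => E (ds m v) := profile ht ht1 hxp hx1 L (fun v => E (ds m v))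
  have hmid : ∀ k, (pqs t x c k).2 ⟨m + 0, by omega⟩ = 0 := by
    intro k
    have h1 := (pq_sym63 t (x := x) (fun j => by rw [hx]; exact xs_rev63 t td m j) hcs k ⟨m + 0, by omega⟩).2
    have h2 : Fin.rev (⟨m + 0, by omega⟩ : Fin (2 * m + 1)) = ⟨m + 0, by omega⟩ := by
      apply Fin.ext
      rw [Fin.val_rev]
      simp only
      omega
    rw [h2] at h1
    linarith
  -- the sequences
  let p : ℕ → ℕ → ℝ := fun k y => match k with
    | 0 => (if y = 0 then td else t) * gsum t td m L E y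
    | k + 1 => if h : m + y < 2 * m + 1 then (pqs t x c k).1 ⟨m + y, h⟩ else 0
  let V : ℕ → ℕ → ℝ := fun k y => match k with
    | 0 => 0
    | k + 1 => if h : m + y < 2 * m + 1 then t * (pqs t x c k).2 ⟨m + y, h⟩ else 0
  let Uf : ℕ → Fin (2 * m + 1) → ℝ := fun k => match k with
    | 0 => c
    | k + 1 => fun j => (pqs t x c k).1 j / x j
  let Vf : ℕ → Fin (2 * m + 1) → ℝ := fun k => match k with
    | 0 => fun _ => 0
    | k + 1 => fun j => x j * (pqs t x c k).2 j
  have hstep : ∀ k, pqs t x c k = (wp t (Uf k) (Vf k), wq t (Uf k) (Vf k)) := by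
    intro k
    cases k <;> rfl
  have hxy : ∀ (y : ℕ) (h : m + y < 2 * m + 1), x ⟨m + y, h⟩ = if y = 0 then td else t := by
    intro y h
    rw [hx]
    unfold xs
    by_cases hy : y = 0
    · rw [if_pos hy, if_pos (by simp only; omega)]
    · rw [if_neg hy, if_neg (by simp only; omega)]
  have hxi : ∀ y : ℕ, (if y = 0 then td else t) * (if y = 0 then 1 / td else 1 / t) = 1 := by
    intro y
    split_ifs
    · exact trd
    · exact tr
  have hU : ∀ (k y : ℕ) (h : m + y < 2 * m + 1),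
      Uf k ⟨m + y, h⟩ = p k y * (if y = 0 then 1 / td else 1 / t) := by
    intro k y h
    cases k with
    | zero =>
      change c ⟨m + y, h⟩ = (if y = 0 then td else t) * gsum t td m L E y * (if y = 0 then 1 / td else 1 / t)
      have h1 : gsum t td m L E y = c ⟨m + y, h⟩ := by
        unfold gsum
        rw [dif_pos h]
      rw [h1]
      linear_combination -(c ⟨m + y, h⟩) * hxi y
    | succ k =>
      change (pqs t x c k).1 ⟨m + y, h⟩ / x ⟨m + y, h⟩ =
        (if h : m + y < 2 * m + 1 then (pqs t x c k).1 ⟨m + y, h⟩ else 0) * _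
      rw [dif_pos h, hxy]
      split_ifs
      · rw [div_eq_mul_one_div]
      · rw [div_eq_mul_one_div]
  have hV : ∀ (k y : ℕ) (h : m + y < 2 * m + 1), Vf k ⟨m + y, h⟩ = V k y := by
    intro k y h
    cases k with
    | zero => rfl
    | succ k =>
      change x ⟨m + y, h⟩ * (pqs t x c k).2 ⟨m + y, h⟩ =
        if h : m + y < 2 * m + 1 then t * (pqs t x c k).2 ⟨m + y, h⟩ else 0
      rw [dif_pos h, hxy]
      by_cases hy : y = 0
      · subst hy
        rw [hmid, mul_zero, mul_zero]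
      · rw [if_neg hy]
  have hp1 : ∀ (k y : ℕ) (h : m + y < 2 * m + 1), p (k + 1) y = (pqs t x c k).1 ⟨m + y, h⟩ := by
    intro k y h
    change (if h : m + y < 2 * m + 1 then (pqs t x c k).1 ⟨m + y, h⟩ else 0) = _
    rw [dif_pos h]
  have hV1 : ∀ (k y : ℕ) (h : m + y < 2 * m + 1), V (k + 1) y * (1 / t) = (pqs t x c k).2 ⟨m + y, h⟩ := by
    intro k y h
    change (if h : m + y < 2 * m + 1 then t * (pqs t x c k).2 ⟨m + y, h⟩ else 0) * (1 / t) = _
    rw [dif_pos h]
    linear_combination (pqs t x c k).2 ⟨m + y, h⟩ * tr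
  have half : Half63 t (1 / t) td (1 / td) (chh t) (shh t) m (gsum t td m L E) p V := by
    refine ⟨fun y _ => rfl, fun y => rfl, fun k => ?_, fun k j hj hj' => ?_, fun k j hj => ?_, fun k => ?_⟩
    · rw [← hV k 0 (by omega)]
      cases k with
      | zero => rfl
      | succ k =>
        change x _ * (pqs t x c k).2 _ = 0
        rw [hmid, mul_zero]
    · have hb : m + j < 2 * m + 1 := by omega
      have hb' : m + (j - 1) < 2 * m + 1 := by omega
      rw [hp1 k j hb, hV1 k j hb, hstep k]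
      simp only
      rw [wpq_add63]
      have h1 : lo (⟨m + j, hb⟩ : Fin (2 * m + 1)) = 1 := by
        unfold lo
        rw [if_pos (by simp only; omega)]
      have h2 : ∀ f : Fin (2 * m + 1) → ℝ, pv f ⟨m + j, hb⟩ = f ⟨m + (j - 1), hb'⟩ := by
        intro f
        unfold pv
        rw [if_pos (by simp only; omega)]
        congr 1
        apply Fin.ext
        simp only
        omega
      rw [h1, h2, h2, hU k j hb, hV k j hb, hU k (j - 1) hb', hV k (j - 1) hb',
        if_neg (show ¬ (j = 0) by omega)]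
      ring
    · have hb : m + j < 2 * m + 1 := by omega
      have hb' : m + (j + 1) < 2 * m + 1 := by omega
      rw [hp1 k j hb, hV1 k j hb, hstep k]
      simp only
      rw [wpq_sub63]
      have h1 : up (⟨m + j, hb⟩ : Fin (2 * m + 1)) = 1 := by
        unfold up
        rw [if_pos (by simp only; omega)]
      have h2 : ∀ f : Fin (2 * m + 1) → ℝ, nx f ⟨m + j, hb⟩ = f ⟨m + (j + 1), hb'⟩ := by
        intro f
        unfold nx
        rw [dif_pos (by simp only; omega)]
        rfl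
      rw [h1, h2, h2, hU k j hb, hV k j hb, hU k (j + 1) hb', hV k (j + 1) hb',
        if_neg (show ¬ (j + 1 = 0) by omega)]
      ring
    · have hb : m + m < 2 * m + 1 := by omega
      rw [hp1 k m hb, hV1 k m hb, hstep k]
      simp only
      rw [wpq_sub63]
      have h1 : up (⟨m + m, hb⟩ : Fin (2 * m + 1)) = 0 := by
        unfold up
        rw [if_neg (by simp only; omega)]
      have h2 : ∀ f : Fin (2 * m + 1) → ℝ, nx f ⟨m + m, hb⟩ = 0 := by
        intro f
        unfold nx
        rw [dif_neg (by simp only; omega)]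
      rw [h1, h2, h2, hU k m hb, hV k m hb, if_neg (show ¬ (m = 0) by omega)]
      ring
  refine ⟨p, ?_, ?_, ?_, ?_, ?_, ?_, ?_, ?_, ?_⟩
  · intro y hy
    have hb : m + y < 2 * m + 1 := by omega
    rw [hp1 L y hb, hprof]
    simp only
    congr 1
    unfold ds
    simp only
    omega
  · exact half.lev
  · intro k y _ hy hy'
    rw [hA]
    exact h_bulk63 half tr cs s1 k y hy hy'
  · intro k _
    rw [hA]
    unfold the mu
    exact h_one63 half tr cs s1 hm k
  · intro k _
    rw [hA]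
    unfold zet mu
    have h1 := h_zero63 half tr cs s1 hm k
    rw [show t / td = t * (1 / td) by ring]
    exact h1
  · intro k _
    rw [hA]
    exact h_top63 half tr cs s1 c1 c2 hm k
  · intro y hy hy'
    exact h_gbulk63 half tr trd y hy hy'
  · exact h_gzero63 half tr trd hm
  · exact h_gtop63 half tr hm

end Pool.Agent.Helper49.DX
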