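import Pool.Agent.Helper49.DX.Minp
import Pool.Agent.Helper49.DX.Pe
import Pool.Agent.Helper49.DX.Rp

/-!
Block DX-ROW: the row sums of the boundary correlation matrix, and the comparison of solutions with
super- and subsolutions.

Paper proof.
* `gsum_le`: `Sup` is linear: if `p'` is the solution (`prof_sys`) then `w - p'`, `wg - gsum` is a super
  solution with nonnegative values on the level `L + 1`; `sup_nonneg`.
* `le_gsum`: the same with `p' - w`, `gsum - wg`.
* `gs_row`: `gsum_le` with `E = 1`, `λ = lam t`, `θ = the t td`,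
  `w k y = θ * λ ^ (L + 1 - k)` (`y ≠ 0`), `w k 0 = λ ^ (L + 1 - k)`, `wg y = w 0 y / t` (`y ≠ 0`),
  `wg 0 = w 0 0 / td`. `A2 = 1/λ + λ + 2`, so `bulk` and `one` are equalities. `zero`:
  `A2 + μ ch ≥ 1/λ + ζ λ + 2 θ`, i.e. `ch ≥ t λ + sh`, true as `ch - sh = t / λ`, `λ < 1`. `top`:
  `1 - t ≥ 2 t ∑_{i < k} (t λ) ^ (i + 1) + (t λ) ^ k * (ch - 1) * λ`; the right side is at most
  `2 t (t + ... + t ^ k) + t ^ k (ch - 1) ≤ 2 t² / (1 - t)` and `t + 2 t² / (1 - t) = λ ≤ 1`. `gbulk`: `ch - sh =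
  t / λ` (equality for `2 ≤ y`, and `g 0 ≤ g 1` since `ζ ≤ θ`). `gzero`: `ch ζ ≥ sh θ + t / λ`, i.e.
  `ch t μ ≥ sh² μ / 2`. `gtop`: `(1 + ch - sh)/2 ≥ t / λ = ch - sh`, true as `ch - sh ≤ 1`.
  Then `gsum 1 y ≤ wg y ≤ (θ / t) λ ^ (L + 1)`; `gsum (fun _ => 1) y` is the row sum in the rows
  `m + y` and (by `GS_rev`, reindex `v` by `Fin.rev`) `m - y`; `GS_symm` to exchange the arguments.
-/

open Finset

namespace Pool.Agent.Helper49.DX

open Pool.Agent.Helper49.DL

variable {t td : ℝ}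

private lemma sup_add71 {m L : ℕ} {E : ℕ → ℝ} {g g' : ℕ → ℝ} {p p' : ℕ → ℕ → ℝ} (c : ℝ)
    (h : Sup t td m L g p) (s : Sol t td m L E g' p') :
    Sup t td m L (fun y => g y + c * g' y) (fun k y => p k y + c * p' k y) where
  lev := by
    intro y hy
    have h1 := h.lev y hy
    have h2 := s.lev y hy
    rw [h1, h2]
    ring
  bulk := by
    intro k y hk hy hym
    have h1 := h.bulk k y hk hy hym
    have h2 := s.bulk k y hk hy hym
    linear_combination h1 + c * h2
  one := by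
    intro k hk
    have h1 := h.one k hk
    have h2 := s.one k hk
    linear_combination h1 + c * h2
  zero := by
    intro k hk
    have h1 := h.zero k hk
    have h2 := s.zero k hk
    linear_combination h1 + c * h2
  top := by
    intro k hk
    have h1 := h.top k hk
    have h2 := s.top k hk
    have h3 : ∑ i ∈ Finset.range k, t ^ (i + 1) * (p (k - i) m + c * p' (k - i) m) =
        ∑ i ∈ Finset.range k, t ^ (i + 1) * p (k - i) m +
          c * ∑ i ∈ Finset.range k, t ^ (i + 1) * p' (k - i) m := by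
      rw [Finset.mul_sum, ← Finset.sum_add_distrib]
      exact Finset.sum_congr rfl fun i _ => by ring
    rw [h3]
    linear_combination h1 + c * h2
  gbulk := by
    intro y hy hym
    have h1 := h.gbulk y hy hym
    have h2 := s.gbulk y hy hym
    linear_combination h1 + c * h2
  gzero := by
    have h1 := h.gzero
    have h2 := s.gzero
    linear_combination h1 + c * h2
  gtop := by
    have h1 := h.gtop
    have h2 := s.gtop
    linear_combination h1 + c * h2

theorem gsum_le {t td : ℝ} (ht : 0 < t) (hq : t ^ 2 + 2 * t < 1) (htd : 0 < td) (htt : td ≤ t)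
    {m L : ℕ} (hm : 2 ≤ m) {E : ℕ → ℝ} {g : ℕ → ℝ} {p : ℕ → ℕ → ℝ} (h : Sup t td m L g p)
    (h0 : ∀ y ≤ m, E y ≤ p (L + 1) y) : ∀ y ≤ m, gsum t td m L E y ≤ g y := by
  have ht1 := t_lt_one ht hq
  obtain ⟨p', hs⟩ := prof_sys ht ht1 htd (htt.trans_lt ht1) hm L E
  have h1 := sup_nonneg ht hq htd htt hm (sup_add71 (-1) h hs) (fun y hy => by
    have h2 := h0 y hy
    have h3 := hs.src y hy
    rw [h3]
    linarith)
  intro y hy
  have h2 := h1 y hy
  linarith

theorem le_gsum {t td : ℝ} (ht : 0 < t) (hq : t ^ 2 + 2 * t < 1) (htd : 0 < td) (htt : td ≤ t)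
    {m L : ℕ} (hm : 2 ≤ m) {E : ℕ → ℝ} {g : ℕ → ℝ} {p : ℕ → ℕ → ℝ}
    (h : Sup t td m L (fun y => -g y) (fun k y => -p k y))
    (h0 : ∀ y ≤ m, p (L + 1) y ≤ E y) : ∀ y ≤ m, g y ≤ gsum t td m L E y := by
  have ht1 := t_lt_one ht hq
  obtain ⟨p', hs⟩ := prof_sys ht ht1 htd (htt.trans_lt ht1) hm L E
  have h1 := sup_nonneg ht hq htd htt hm (sup_add71 1 h hs) (fun y hy => by
    have h2 := h0 y hy
    have h3 := hs.src y hy
    rw [h3]
    linarith)
  intro y hy
  have h2 := h1 y hy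
  linarith

/-- The explicit super solution. -/
private noncomputable def ww71 (t td : ℝ) (L k y : ℕ) : ℝ :=
  if y = 0 then lam t ^ (L + 1 - k) else the t td * lam t ^ (L + 1 - k)

/-- Its values before the first column. -/
private noncomputable def wg71 (t td : ℝ) (L y : ℕ) : ℝ :=
  if y = 0 then lam t ^ (L + 1) / td else the t td * lam t ^ (L + 1) / t

private lemma geo71 (ht : 0 < t) (hq : t ^ 2 + 2 * t < 1) (k : ℕ) :
    2 * t * ∑ i ∈ Finset.range k, t ^ (i + 1) * lam t ^ (i + 1) + t ^ k * (chh t - 1) * lam t ^ (k + 1)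
      ≤ 1 - t := by
  have ht1 := t_lt_one ht hq
  have hl0 := lam_pos ht ht1
  have hl1 := lam_lt_one ht hq
  have hch : 0 ≤ chh t - 1 := by
    rw [ch_sub_one ht ht1]
    exact mul_nonneg ht.le (shh_pos ht ht1).le
  have h1t : 0 < 1 - t := by linarith
  have e1 : ∑ i ∈ Finset.range k, t ^ (i + 1) * lam t ^ (i + 1) ≤ ∑ i ∈ Finset.range k, t ^ (i + 1) := by
    refine Finset.sum_le_sum fun i _ => ?_
    have : lam t ^ (i + 1) ≤ 1 := pow_le_one₀ hl0.le hl1.le
    have h2 : 0 ≤ t ^ (i + 1) := by positivity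
    nlinarith
  have e2 : (∑ i ∈ Finset.range k, t ^ (i + 1)) * (1 - t) = t * (1 - t ^ k) := by
    clear e1
    induction k with
    | zero => simp
    | succ k ih => rw [Finset.sum_range_succ, add_mul, ih]; ring
  have e3 : ∑ i ∈ Finset.range k, t ^ (i + 1) = t * (1 - t ^ k) / (1 - t) := by
    rw [eq_div_iff h1t.ne', e2]
  have e4 : t ^ k * (chh t - 1) * lam t ^ (k + 1) ≤ t ^ k * (2 * t ^ 2 / (1 - t)) := by
    have a1 : lam t ^ (k + 1) ≤ 1 := pow_le_one₀ hl0.le hl1.le
    have a2 : 0 ≤ t ^ k * (chh t - 1) := by positivity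
    calc t ^ k * (chh t - 1) * lam t ^ (k + 1) ≤ t ^ k * (chh t - 1) * 1 :=
          mul_le_mul_of_nonneg_left a1 a2
      _ ≤ t ^ k * (2 * t ^ 2 / (1 - t)) := by
          rw [mul_one]
          exact mul_le_mul_of_nonneg_left (ch_sub_one_le ht ht1) (by positivity)
  have e5 : 2 * t * (t * (1 - t ^ k) / (1 - t)) + t ^ k * (2 * t ^ 2 / (1 - t)) = 2 * t ^ 2 / (1 - t) := by
    field_simp
    ring
  have e6 := lam_eq ht1
  have e7 : 2 * t * ∑ i ∈ Finset.range k, t ^ (i + 1) * lam t ^ (i + 1) ≤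
      2 * t * (t * (1 - t ^ k) / (1 - t)) := by
    rw [← e3]
    exact mul_le_mul_of_nonneg_left e1 (by positivity)
  linarith

private lemma sup71 (ht : 0 < t) (hq : t ^ 2 + 2 * t < 1) (htd : 0 < td) (htt : td ≤ t)
    {m L : ℕ} (hm : 2 ≤ m) : Sup t td m L (wg71 t td L) (ww71 t td L) := by
  have ht1 := t_lt_one ht hq
  have hl0 := lam_pos ht ht1
  have hl1 := lam_lt_one ht hq
  have hth := the_ge_one ht ht1 htd htt
  have hzt := zet_le_the ht ht1 htd htt
  have hmu := mu_nonneg htd htt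
  have hsh := shh_pos ht ht1
  have hch0 := chh_pos ht ht1
  have hA : A2 t * lam t = 1 + lam t ^ 2 + 2 * lam t := by
    rw [A2_eq ht ht1]
    field_simp
  have hcs : (chh t - shh t) * lam t = t := by
    rw [ch_sub_sh' ht ht1]
    field_simp
  have hz := zet_eq (td := td) ht
  have hzd : 1 / td = zet t td / t := by
    unfold zet
    field_simp
  have hthd : the t td = 1 + mu t td * shh t / 2 := rfl
  obtain ⟨θ, hθ⟩ : ∃ θ, the t td = θ := ⟨_, rfl⟩
  obtain ⟨ζ, hζ⟩ : ∃ ζ, zet t td = ζ := ⟨_, rfl⟩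
  obtain ⟨μ, hμ⟩ : ∃ μ, mu t td = μ := ⟨_, rfl⟩
  obtain ⟨l, hl⟩ : ∃ l, lam t = l := ⟨_, rfl⟩
  obtain ⟨sh, hsh'⟩ : ∃ sh, shh t = sh := ⟨_, rfl⟩
  obtain ⟨ch, hch'⟩ : ∃ ch, chh t = ch := ⟨_, rfl⟩
  have hgeo := geo71 ht hq
  have hct := ch_t_gt ht hq
  have hcs1 := ch_sub_sh ht ht1
  unfold ww71 wg71
  simp only [hθ, hζ, hμ, hl, hsh', hch'] at hl0 hl1 hth hzt hmu hsh hch0 hA hcs hz hzd hthd hgeo hct hcs1 ⊢
  have hq0 : 0 < l ^ (L + 1) / t := by positivity
  have hLL : l ^ (L + 1 - (0 + 1)) = (ch - sh) * (l ^ (L + 1) / t) := by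
    have e1 : l ^ (L + 1 - (0 + 1)) = l ^ L := by congr 1
    rw [e1, pow_succ, eq_comm]
    calc (ch - sh) * (l ^ L * l / t) = ((ch - sh) * l) * l ^ L / t := by ring
      _ = l ^ L := by rw [hcs]; field_simp
  have hd0 : l ^ (L + 1) / td = ζ * (l ^ (L + 1) / t) := by
    calc l ^ (L + 1) / td = l ^ (L + 1) * (1 / td) := by ring
      _ = ζ * (l ^ (L + 1) / t) := by rw [hzd]; ring
  have hcsp : t * l ≤ ch - sh := by
    have a1 : 0 < ch - sh := by
      have : 0 < (ch - sh) * l := by rw [hcs]; exact ht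
      exact (mul_pos_iff_of_pos_right hl0).1 this
    have a2 : t ≤ ch - sh := by rw [← hcs]; nlinarith
    nlinarith
  have hpow : ∀ k, k < L → l ^ (L + 1 - (k + 1)) = l ^ (L + 1 - (k + 2)) * l ∧
      l ^ (L + 1 - k) = l ^ (L + 1 - (k + 2)) * l ^ 2 := by
    intro k hk
    constructor
    · rw [← pow_succ]; congr 1; omega
    · rw [← pow_add]; congr 1; omega
  constructor
  all_goals try simp only [hθ, hζ, hμ, hsh', hch']
  · intro y _
    by_cases hy : y = 0
    · simp only [if_pos hy, Nat.sub_zero]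
      field_simp
    · simp only [if_neg hy, Nat.sub_zero]
      field_simp
  · intro k y hk hy hym
    obtain ⟨p1, p2⟩ := hpow k hk
    rw [if_neg (by omega), if_neg (by omega), if_neg (by omega), if_neg (by omega), if_neg (by omega),
      p1, p2]
    linear_combination (-(θ * l ^ (L + 1 - (k + 2)))) * hA
  · intro k hk
    obtain ⟨p1, p2⟩ := hpow k hk
    rw [if_neg one_ne_zero, if_neg one_ne_zero, if_neg two_ne_zero, if_pos trivial, if_neg one_ne_zero,
      p1, p2]
    linear_combination (-(θ * l ^ (L + 1 - (k + 2)))) * hA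
  · intro k hk
    obtain ⟨p1, p2⟩ := hpow k hk
    rw [if_pos trivial, if_pos trivial, if_neg one_ne_zero, if_pos trivial, p1, p2]
    have h1 : 0 ≤ l ^ (L + 1 - (k + 2)) * l * μ * (ch - sh - t * l) :=
      mul_nonneg (by positivity) (by linarith)
    linear_combination h1 - l ^ (L + 1 - (k + 2)) * hA + l ^ (L + 1 - (k + 2)) * l ^ 2 * hz +
      2 * l ^ (L + 1 - (k + 2)) * l * hthd
  · intro k hk
    obtain ⟨p1, p2⟩ := hpow k hk
    have hs : ∑ i ∈ Finset.range k, t ^ (i + 1) * (if m = 0 then l ^ (L + 1 - (k - i)) else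
        θ * l ^ (L + 1 - (k - i))) =
        θ * l ^ (L + 1 - (k + 2)) * l * ∑ i ∈ Finset.range k, t ^ (i + 1) * l ^ (i + 1) := by
      rw [Finset.mul_sum]
      refine Finset.sum_congr rfl fun i hi => ?_
      have hi' := Finset.mem_range.mp hi
      have e : l ^ (L + 1 - (k - i)) = l ^ (L + 1 - (k + 2)) * l ^ (i + 2) := by
        rw [← pow_add]; congr 1; omega
      rw [if_neg (by omega), e]
      ring
    have hg : t ^ (k + 1) * (ch - 1) * (θ * l ^ (L + 1) / t) =
        θ * l ^ (L + 1 - (k + 2)) * l * (t ^ k * (ch - 1) * l ^ (k + 1)) := by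
      have e : l ^ (L + 1) = l ^ (L + 1 - (k + 2)) * l ^ (k + 2) := by
        rw [← pow_add]; congr 1; omega
      rw [e]
      field_simp
      ring
    rw [hs, if_neg (by omega), if_neg (by omega), if_neg (by omega), if_neg (by omega), if_neg (by omega),
      hg, p1, p2]
    have h2 : 0 ≤ θ * l ^ (L + 1 - (k + 2)) * l := by positivity
    have h3 := mul_le_mul_of_nonneg_left (hgeo k) h2
    linear_combination h3 - θ * l ^ (L + 1 - (k + 2)) * hA
  · intro y hy hym
    have h1 : (if y - 1 = 0 then l ^ (L + 1) / td else θ * l ^ (L + 1) / t) ≤ θ * (l ^ (L + 1) / t) := by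
      split_ifs
      · rw [hd0]
        exact mul_le_mul_of_nonneg_right hzt hq0.le
      · rw [mul_div_assoc]
    have hy0 : y ≠ 0 := by omega
    rw [if_neg (Nat.succ_ne_zero y), if_neg hy0, if_neg hy0, mul_div_assoc θ]
    rw [mul_div_assoc θ] at h1
    have h2 : l ^ (L + 1 - 1) = (ch - sh) * (l ^ (L + 1) / t) := hLL
    rw [h2]
    have h3 := mul_le_mul_of_nonneg_left h1 hsh.le
    linear_combination h3 / 2
  · rw [if_neg one_ne_zero, if_pos trivial, if_pos trivial, mul_div_assoc, hd0]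
    have h2 : l ^ (L + 1 - 1) = (ch - sh) * (l ^ (L + 1) / t) := hLL
    rw [h2, hz, hthd]
    have h3 : 0 ≤ μ * (ch * t - sh ^ 2 / 2) * (l ^ (L + 1) / t) :=
      mul_nonneg (mul_nonneg hmu (by linarith)) hq0.le
    linear_combination h3
  · rw [if_neg (by omega), if_neg (by omega), if_neg (by omega), mul_div_assoc]
    have h2 : l ^ (L + 1 - 1) = (ch - sh) * (l ^ (L + 1) / t) := hLL
    rw [h2]
    have h3 : ch - sh ≤ 1 := by
      rw [hcs1, div_le_one (by linarith)]
      linarith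
    have h4 : 0 ≤ (1 - (ch - sh)) * (θ * (l ^ (L + 1) / t)) := mul_nonneg (by linarith) (by positivity)
    linear_combination h4 / 2

private lemma gsum_one71 (ht : 0 < t) (hq : t ^ 2 + 2 * t < 1) (htd : 0 < td) (htt : td ≤ t)
    {m L : ℕ} (hm : 2 ≤ m) (y : ℕ) (hy : y ≤ m) :
    gsum t td m L (fun _ => 1) y ≤ the t td / t * lam t ^ (L + 1) := by
  have ht1 := t_lt_one ht hq
  have hl0 := lam_pos ht ht1
  have hth := the_ge_one ht ht1 htd htt
  have hzt := zet_le_the ht ht1 htd htt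
  have h1 := gsum_le ht hq htd htt hm (E := fun _ => 1) (sup71 (L := L) ht hq htd htt hm) (fun y _ => by
    unfold ww71
    rw [Nat.sub_self, pow_zero]
    split_ifs
    · exact le_rfl
    · linarith) y hy
  refine h1.trans ?_
  unfold wg71
  split_ifs
  · calc lam t ^ (L + 1) / td = zet t td / t * lam t ^ (L + 1) := by
          unfold zet
          field_simp
      _ ≤ the t td / t * lam t ^ (L + 1) := by gcongr
  · apply le_of_eq
    ring


theorem gs_row {t td : ℝ} (ht : 0 < t) (hq : t ^ 2 + 2 * t < 1) (htd : 0 < td) (htt : td ≤ t)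
    {m L : ℕ} (hm : 2 ≤ m) (u : Fin (2 * m + 1)) :
    ∑ v, GS t (xs t td m) L u v ≤ the t td / t * lam t ^ (L + 1) := by
  have key : ∀ u : Fin (2 * m + 1), m ≤ (u : ℕ) →
      ∑ v, GS t (xs t td m) L u v ≤ the t td / t * lam t ^ (L + 1) := by
    intro u hu
    have h1 := gsum_one71 ht hq htd htt (L := L) hm ((u : ℕ) - m) (by omega)
    unfold gsum at h1
    rw [dif_pos (by omega)] at h1
    have h2 : (⟨m + ((u : ℕ) - m), by omega⟩ : Fin (2 * m + 1)) = u := Fin.ext (by simp only; omega)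
    rw [h2] at h1
    refine le_trans (le_of_eq ?_) h1
    refine Finset.sum_congr rfl fun v _ => ?_
    rw [one_mul, GS_symm]
  rcases Nat.le_total m (u : ℕ) with hu | hu
  · exact key u hu
  · have hx : ∀ j, xs t td m (Fin.rev j) = xs t td m j := by
      intro j
      unfold xs
      rw [Fin.val_rev]
      have := j.isLt
      by_cases hj : (j : ℕ) = m
      · rw [if_pos (by omega), if_pos hj]
      · rw [if_neg (by omega), if_neg hj]
    have h1 := key (Fin.rev u) (by rw [Fin.val_rev]; omega)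
    refine le_trans (le_of_eq ?_) h1
    rw [← Equiv.sum_comp Fin.revPerm]
    refine Finset.sum_congr rfl fun v _ => ?_
    rw [Fin.revPerm_apply]
    have h2 := GS_rev (t := t) hx L (Fin.rev u) v
    rw [Fin.rev_rev] at h2
    exact h2

end Pool.Agent.Helper49.DX
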