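import Pool.Agent.Helper49.DX.Fmp
import Pool.Agent.Helper49.DX.Fou
import Pool.Agent.Helper49.DX.Row
import Pool.Agent.Helper49.DX.Gn

/-!
Block DX-UP: the upper bound in the strip with a weak row in the middle.

Paper proof. Let `μ = mu t td > 0`, `θ = the t td = 1 + μ sh / 2`, `ζ = zet t td = 1 + t μ`, and `d ≥ 1` a natural number
with `d ≥ (μ sh + 2) / (μ (ch - sh - t))` and `d ≥ (μ sh² / 2 + sh) / (μ (ch t - sh² / 2))`
(`ch - sh - t = t / λ - t > 0`, `ch t - sh² / 2 = t (1 - 2 t - t⁴) / (1 - t²)² > 0`). `F` from `fsys_exists`,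
`w k y = F k (y + d)` for `y ≠ 0`, `w k 0 = F k d / θ`, `wg y = w 0 y / t` (`y ≠ 0`), `wg 0 = w 0 0 / td =
(ζ / θ) F 0 d / t`. This is a super solution:
* `bulk`, `one`: equalities (`θ * w k 0 = F k d`).
* `zero`: `(A2 + μ ch) F_k(d) / θ ≥ (F_{k+1}(d) + ζ F_{k-1}(d)) / θ + 2 F_k(d + 1)`. Insert
  `A2 F_k(d) = F_{k+1}(d) + F_{k-1}(d) + F_k(d+1) + F_k(d-1)`, multiply by `θ`; what remains is
  `μ (ch F_k(d) - t F_{k-1}(d) - sh F_k(d+1)) ≥ F_k(d+1) - F_k(d-1)`. By `f_mono` `F_{k-1}(d) ≤ F_k(d)`, by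
  `f_ratio` `F_k(d+1) ≤ (1 + 1/d) F_k(d)`, `F_k(d-1) ≥ (1 - 1/d) F_k(d)`; so
  `μ (ch - t - sh (1 + 1/d)) ≥ 2/d` suffices: the first condition on `d`.
* `top`: `j = m + d`: insert the equation for `A2 F_k(j)`; what remains is
  `F_k(j+1) - t F_k(j) ≥ 2 t ∑ t^(i+1) F_{k-1-i}(j) + t^(k-1) (ch - 1) F_0(j)` (`t^k (ch-1) wg m =
  t^(k-1) (ch - 1) F_0(j)`), which follows from `f_mono`, `f_step`, `e^{-ε} ≥ λ = t + 2 t² / (1 - t)`.
* `gbulk`: `bot` and `ζ ≤ θ` (for `y = 1`). `gzero`: `ch ζ F_0(d)/t ≥ sh θ F_0(d+1)/t + F_1(d)`; insert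
  `t F_1(d) = ch F_0(d) - sh/2 (F_0(d+1) + F_0(d-1))`; what remains is
  `ch t μ F_0(d) ≥ (μ sh²/2) F_0(d+1) + (sh/2) (F_0(d+1) - F_0(d-1))`, second condition on `d`.
  `gtop`: `(sh/2) F_0(j+1) ≥ ((ch-1)/2) F_0(j)`, `(ch - 1)/sh = t ≤ e^{-ε}`.
For a row `v` at distance `y₀ = ds m v` take `E y = if y = y₀ then 1 else 0` and the super solution
`w / w (L + 1) y₀`; `w (L + 1) y₀ ≥ (1/θ) (y₀ + d) e^{-ε (y₀ + d)}`. `gsum_le` at `y = 0`:
`gsum E 0 = ∑_{v' : ds m v' = y₀} GS v' (middle) ≥ GS v (middle)` (nonnegativity: `GS_nonneg`), and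
`wg 0 ≤ (ζ/θ) (1/t) C d λ^L L^(-3/2)`; `GS_symm`.
-/

open Finset

namespace Pool.Agent.Helper49.DX

open Pool.Agent.Helper49.DL

private noncomputable def w67 (θ : ℝ) (d : ℕ) (F : ℕ → ℕ → ℝ) (k y : ℕ) : ℝ :=
  if y = 0 then F k d / θ else F k (y + d)

private noncomputable def wg67 (t td θ : ℝ) (d : ℕ) (F : ℕ → ℕ → ℝ) (y : ℕ) : ℝ :=
  if y = 0 then F 0 d / θ / td else F 0 (y + d) / t

/-- The inequality for `zero`, multiplied by `θ`. -/
private lemma alg_zero67 {t μ sh ch A D φ b c e f : ℝ} (hD : 0 < D) (ht : 0 ≤ t) (hμ : 0 ≤ μ)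
    (hsh : 0 ≤ sh) (h1 : A * φ = f + e + (b + c)) (h2 : e ≤ φ) (h3 : D * b ≤ (D + 1) * φ)
    (h4 : (D - 1) * φ ≤ D * c) (h5 : 0 ≤ φ) (hd : μ * sh + 2 ≤ D * (μ * (ch - sh - t))) :
    f + (1 + t * μ) * e + 2 * (1 + μ * sh / 2) * b ≤ (A + μ * ch) * φ := by
  have k1 := mul_le_mul_of_nonneg_left h2 (show 0 ≤ t * μ * D by positivity)
  have k2 := mul_le_mul_of_nonneg_left h3 (show 0 ≤ 1 + μ * sh by positivity)
  have k3 := mul_le_mul_of_nonneg_right hd h5
  have k4 : 0 ≤ D * (c + μ * ch * φ - t * μ * e - (1 + μ * sh) * b) := by linarith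
  have k5 := (mul_nonneg_iff_of_pos_left hD).1 k4
  linarith

/-- The inequality for `gzero`, multiplied by `θ t`. -/
private lemma alg_gzero67 {t μ sh ch D φ b c f : ℝ} (hD : 0 < D) (hμ : 0 ≤ μ)
    (hsh : 0 ≤ sh) (h1 : ch * φ = sh / 2 * (b + c) + t * f) (h3 : D * b ≤ (D + 1) * φ)
    (h4 : (D - 1) * φ ≤ D * c) (h5 : 0 ≤ φ)
    (hd : μ * sh ^ 2 / 2 + sh ≤ D * (μ * (ch * t - sh ^ 2 / 2))) :
    sh * (1 + μ * sh / 2) * b + t * f ≤ ch * (1 + t * μ) * φ := by
  have k2 := mul_le_mul_of_nonneg_left h3 (show 0 ≤ μ * sh ^ 2 / 2 + sh / 2 by positivity)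
  have k1 := mul_le_mul_of_nonneg_left h4 (show 0 ≤ sh / 2 by positivity)
  have k3 := mul_le_mul_of_nonneg_right hd h5
  have k4 : 0 ≤ D * (ch * (1 + t * μ) * φ - t * f - sh * (1 + μ * sh / 2) * b) := by
    have e1 : D * (ch * (1 + t * μ) * φ - t * f - sh * (1 + μ * sh / 2) * b) =
        D * (ch * t * μ * φ) + D * (sh / 2 * (b + c)) - D * (sh * (1 + μ * sh / 2) * b) := by
      linear_combination D * h1
    rw [e1]
    linarith
  have k5 := (mul_nonneg_iff_of_pos_left hD).1 k4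
  linarith

private lemma geo67 {t q : ℝ} (hq : q * (1 - t) = 2 * t ^ 2) (k : ℕ) :
    2 * t * ∑ i ∈ Finset.range k, t ^ (i + 1) = q * (1 - t ^ k) := by
  induction k with
  | zero => simp
  | succ k ih =>
    rw [Finset.sum_range_succ, mul_add, ih]
    linear_combination -(t ^ k) * hq

private lemma sup67 {t td ε : ℝ} (ht : 0 < t) (hq : t ^ 2 + 2 * t < 1) (htd : 0 < td)
    (htt : td < t) (hε : 0 < ε) (hl : lam t ≤ Real.exp (-ε)) {e : ℕ} (he : 1 ≤ e)
    (h1 : mu t td * shh t + 2 ≤ ((e : ℝ) + 1) * (mu t td * (chh t - shh t - t)))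
    (h2 : mu t td * shh t ^ 2 / 2 + shh t ≤
      ((e : ℝ) + 1) * (mu t td * (chh t * t - shh t ^ 2 / 2)))
    {m L : ℕ} (hm : 2 ≤ m) {F : ℕ → ℕ → ℝ} (hF : FSys t ε L F) :
    Sup t td m L (wg67 t td (the t td) (e + 1) F) (w67 (the t td) (e + 1) F) := by
  have ht1 := t_lt_one ht hq
  have hθ1 := the_ge_one ht ht1 htd htt.le
  have hθ : 0 < the t td := lt_of_lt_of_le one_pos hθ1
  have hn := f_nonneg ht hq hε hF
  have hr := f_ratio ht hq hε hF
  have hmo := f_mono ht hq hε hl hF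
  have hst := f_step ht hq hε hF
  have hμ : 0 ≤ mu t td := mu_nonneg htd htt.le
  have hsh := shh_pos ht ht1
  have hζ : zet t td = 1 + t * mu t td := zet_eq ht
  have hlt := lam_eq ht1
  have h1t : 0 < 1 - t := by linarith
  have hqq : (2 * t ^ 2 / (1 - t)) * (1 - t) = 2 * t ^ 2 := by field_simp
  have hq0 : 0 ≤ 2 * t ^ 2 / (1 - t) := by positivity
  have hchq := ch_sub_one_le ht ht1
  have hch1 : 0 ≤ chh t - 1 := by rw [ch_sub_one ht ht1]; positivity
  -- monotonicity in the level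
  have hmono : ∀ j a b : ℕ, a ≤ b → b ≤ L + 1 → F a j ≤ F b j := by
    intro j a b hab
    induction b, hab using Nat.le_induction with
    | base => intro _; exact le_rfl
    | succ b _ ih =>
      intro hb
      exact (ih (by omega)).trans (hmo b (by omega) j)
  have hr1 : ∀ k, k ≤ L + 1 → ((e : ℝ) + 1) * F k (e + 1 + 1) ≤ ((e : ℝ) + 1 + 1) * F k (e + 1) := by
    intro k hk
    have := hr k hk (e + 1) (by omega)
    push_cast at this
    exact this
  have hr2 : ∀ k, k ≤ L + 1 → ((e : ℝ) + 1 - 1) * F k (e + 1) ≤ ((e : ℝ) + 1) * F k e := by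
    intro k hk
    have := hr k hk e he
    rw [add_sub_cancel_right]
    exact this
  have hD : 0 < (e : ℝ) + 1 := by positivity
  have hw : ∀ k y, y ≠ 0 → w67 (the t td) (e + 1) F k y = F k (y + (e + 1)) :=
    fun k y hy => if_neg hy
  have hw0 : ∀ k, w67 (the t td) (e + 1) F k 0 = F k (e + 1) / the t td := fun k => if_pos rfl
  have hg : ∀ y, y ≠ 0 → wg67 t td (the t td) (e + 1) F y = F 0 (y + (e + 1)) / t :=
    fun y hy => if_neg hy
  have hg0 : wg67 t td (the t td) (e + 1) F 0 = F 0 (e + 1) / the t td / td := if_pos rfl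
  have htg0 : t * (F 0 (e + 1) / the t td / td) = zet t td * (F 0 (e + 1) / the t td) := by
    unfold zet
    field_simp
  refine ⟨?_, ?_, ?_, ?_, ?_, ?_, ?_, ?_⟩
  · -- lev
    intro y _
    by_cases hy : y = 0
    · rw [hy, hw0, hg0, if_pos rfl]
      field_simp
    · rw [hw 0 y hy, hg y hy, if_neg hy]
      field_simp
  · -- bulk
    intro k y hk hy1 hy2
    have e0 := hF.bulk k (y + (e + 1)) hk (by omega)
    rw [show y + (e + 1) + 1 = y + 1 + (e + 1) by omega,
      show y + (e + 1) - 1 = y - 1 + (e + 1) by omega] at e0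
    rw [hw (k + 2) y (by omega), hw k y (by omega), hw (k + 1) (y + 1) (by omega),
      hw (k + 1) (y - 1) (by omega), hw (k + 1) y (by omega)]
    exact e0.symm.le
  · -- one
    intro k hk
    have e0 := hF.bulk k (1 + (e + 1)) hk (by omega)
    rw [show 1 + (e + 1) + 1 = 2 + (e + 1) by omega,
      show 1 + (e + 1) - 1 = e + 1 by omega] at e0
    have e1 : the t td * (F (k + 1) (e + 1) / the t td) = F (k + 1) (e + 1) := by field_simp
    rw [hw (k + 2) 1 (by omega), hw k 1 (by omega), hw (k + 1) 2 (by omega), hw0,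
      hw (k + 1) 1 (by omega), e1]
    exact e0.symm.le
  · -- zero
    intro k hk
    have e0 := hF.bulk k (e + 1) hk (by omega)
    rw [show e + 1 - 1 = e by omega] at e0
    have e1 := alg_zero67 (c := F (k + 1) e) (b := F (k + 1) (e + 1 + 1)) (f := F (k + 2) (e + 1))
      hD ht.le hμ hsh.le e0 (hmo k (by omega) (e + 1)) (hr1 (k + 1) (by omega))
      (hr2 (k + 1) (by omega)) (hn (k + 1) (by omega) _) h1
    rw [hw0, hw0, hw0, hw (k + 1) 1 (by omega), show 1 + (e + 1) = e + 1 + 1 by omega, hζ]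
    have e2 : F (k + 2) (e + 1) / the t td + (1 + t * mu t td) * (F k (e + 1) / the t td) +
        2 * F (k + 1) (e + 1 + 1) = (F (k + 2) (e + 1) + (1 + t * mu t td) * F k (e + 1) +
          2 * the t td * F (k + 1) (e + 1 + 1)) / the t td := by
      field_simp
    rw [e2, ← mul_div_assoc]
    exact div_le_div_of_nonneg_right e1 hθ.le
  · -- top
    intro k hk
    have e0 := hF.bulk k (m + (e + 1)) hk (by omega)
    rw [show m + (e + 1) - 1 = m - 1 + (e + 1) by omega] at e0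
    have e1 : ∑ i ∈ Finset.range k, t ^ (i + 1) * w67 (the t td) (e + 1) F (k - i) m ≤
        (∑ i ∈ Finset.range k, t ^ (i + 1)) * F (k + 1) (m + (e + 1)) := by
      rw [Finset.sum_mul]
      apply Finset.sum_le_sum
      intro i _
      rw [hw (k - i) m (by omega)]
      exact mul_le_mul_of_nonneg_left (hmono _ _ _ (by omega) (by omega)) (by positivity)
    have e2 := mul_le_mul_of_nonneg_left e1 (show 0 ≤ 2 * t by positivity)
    rw [← mul_assoc, geo67 hqq k] at e2
    have e3 : t ^ (k + 1) * (chh t - 1) * (F 0 (m + (e + 1)) / t) =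
        t ^ k * (chh t - 1) * F 0 (m + (e + 1)) := by
      rw [pow_succ]
      field_simp
    have e4 : t ^ k * (chh t - 1) * F 0 (m + (e + 1)) ≤
        t ^ k * (2 * t ^ 2 / (1 - t)) * F (k + 1) (m + (e + 1)) := by
      apply mul_le_mul (mul_le_mul_of_nonneg_left hchq (by positivity))
        (hmono _ _ _ (by omega) (by omega)) (hn 0 (by omega) _) (by positivity)
    have e5 := hst (k + 1) (by omega) (m + (e + 1))
    have e6 : (t + 2 * t ^ 2 / (1 - t)) * F (k + 1) (m + (e + 1)) ≤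
        F (k + 1) (m + (e + 1) + 1) := by
      rw [← hlt]
      exact (mul_le_mul_of_nonneg_right hl (hn (k + 1) (by omega) _)).trans e5
    rw [hw (k + 2) m (by omega), hw k m (by omega), hw (k + 1) (m - 1) (by omega),
      hw (k + 1) m (by omega), hg m (by omega), e3]
    linarith
  · -- gbulk
    intro y hy1 hy2
    have e0 := hF.bot (y + (e + 1)) (by omega)
    rw [show y + (e + 1) + 1 = y + 1 + (e + 1) by omega,
      show y + (e + 1) - 1 = y - 1 + (e + 1) by omega] at e0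
    have e1 : wg67 t td (the t td) (e + 1) F (y - 1) ≤ F 0 (y - 1 + (e + 1)) / t := by
      by_cases hy : y - 1 = 0
      · rw [hy, hg0, Nat.zero_add, div_div, div_le_div_iff₀ (by positivity) ht]
        have hz : t ≤ the t td * td := by
          have := zet_le_the ht ht1 htd htt.le
          unfold zet at this
          rwa [div_le_iff₀ htd] at this
        exact mul_le_mul_of_nonneg_left hz (hn 0 (by omega) _)
      · rw [hg (y - 1) hy]
    rw [hg (y + 1) (by omega), hg y (by omega), hw 1 y (by omega)]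
    have e2 := mul_le_mul_of_nonneg_left e1 (show 0 ≤ shh t / 2 by positivity)
    have e3 : chh t * (F 0 (y + (e + 1)) / t) = shh t / 2 * (F 0 (y + 1 + (e + 1)) / t) +
        shh t / 2 * (F 0 (y - 1 + (e + 1)) / t) + F 1 (y + (e + 1)) := by
      field_simp
      linear_combination 2 * e0
    rw [e3]
    linarith
  · -- gzero
    have e0 := hF.bot (e + 1) (by omega)
    rw [show e + 1 - 1 = e by omega] at e0
    have e1 := alg_gzero67 hD hμ hsh.le e0 (hr1 0 (by omega)) (hr2 0 (by omega))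
      (hn 0 (by omega) _) h2
    rw [hg 1 (by omega), hw0, hg0, show 1 + (e + 1) = e + 1 + 1 by omega]
    have e2 : chh t * (F 0 (e + 1) / the t td / td) =
        chh t * (1 + t * mu t td) * F 0 (e + 1) / (the t td * t) := by
      have := htg0
      rw [hζ] at this
      rw [eq_div_iff (by positivity)]
      have h3 : F 0 (e + 1) / the t td / td * t * the t td =
          (1 + t * mu t td) * F 0 (e + 1) := by
        rw [mul_comm _ t, this]
        field_simp
      linear_combination chh t * h3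
    have e3 : shh t * (F 0 (e + 1 + 1) / t) + F 1 (e + 1) / the t td =
        (shh t * (1 + mu t td * shh t / 2) * F 0 (e + 1 + 1) + t * F 1 (e + 1)) /
          (the t td * t) := by
      have h3 : 1 + mu t td * shh t / 2 = the t td := rfl
      rw [h3]
      field_simp
    rw [e2, e3]
    exact div_le_div_of_nonneg_right e1 (by positivity)
  · -- gtop
    have e0 := hF.bot (m + (e + 1)) (by omega)
    rw [show m + (e + 1) - 1 = m - 1 + (e + 1) by omega] at e0
    have e5 := hst 0 (by omega) (m + (e + 1))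
    have e6 : t * F 0 (m + (e + 1)) ≤ F 0 (m + (e + 1) + 1) := by
      refine le_trans (mul_le_mul_of_nonneg_right ?_ (hn 0 (by omega) _)) e5
      exact le_trans (by linarith) hl
    have e7 := mul_le_mul_of_nonneg_left e6 (show 0 ≤ shh t / 2 by positivity)
    have e8 : t * shh t = chh t - 1 := (ch_sub_one ht ht1).symm
    rw [hg (m - 1) (by omega), hg m (by omega), hw 1 m (by omega)]
    have e9 : shh t / 2 * (F 0 (m - 1 + (e + 1)) / t) + F 1 (m + (e + 1)) =
        (shh t / 2 * F 0 (m - 1 + (e + 1)) + t * F 1 (m + (e + 1))) / t := by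
      field_simp
    rw [e9, ← mul_div_assoc]
    apply div_le_div_of_nonneg_right _ ht.le
    have e10 : (1 + chh t) / 2 * F 0 (m + (e + 1)) -
        (shh t / 2 * F 0 (m - 1 + (e + 1)) + t * F 1 (m + (e + 1))) =
        shh t / 2 * F 0 (m + (e + 1) + 1) - shh t / 2 * (t * F 0 (m + (e + 1))) := by
      linear_combination e0 + (F 0 (m + (e + 1))) / 2 * e8
    linarith

theorem gs_up {t td ε : ℝ} (ht : 0 < t) (hq : t ^ 2 + 2 * t < 1) (htd : 0 < td) (htt : td < t)
    (hε : 0 < ε) (hl : lam t ≤ Real.exp (-ε)) : ∃ C : ℝ, 0 < C ∧ ∀ m L : ℕ, 2 ≤ m → 1 ≤ L →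
      ∀ v : Fin (2 * m + 1), GS t (xs t td m) L ⟨m, by omega⟩ v ≤
        C * Real.exp (ε * ds m v) * lam t ^ L / (L : ℝ) ^ (3 / 2 : ℝ) := by
  have ht1 := t_lt_one ht hq
  have hμ : 0 < mu t td := by
    unfold mu
    have := one_div_lt_one_div_of_lt htd htt
    linarith
  have hch := ch_gt ht hq
  have hct := ch_t_gt ht hq
  have hθ1 := the_ge_one ht ht1 htd htt.le
  have hθ : 0 < the t td := lt_of_lt_of_le one_pos hθ1
  obtain ⟨C, hC, hFC⟩ := fsys_exists ht hq hε
  obtain ⟨e, he1, he2, he3⟩ : ∃ e : ℕ, 1 ≤ e ∧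
      (mu t td * shh t + 2 ≤ ((e : ℝ) + 1) * (mu t td * (chh t - shh t - t))) ∧
      (mu t td * shh t ^ 2 / 2 + shh t ≤
        ((e : ℝ) + 1) * (mu t td * (chh t * t - shh t ^ 2 / 2))) := by
    have a1 : 0 < mu t td * (chh t - shh t - t) := mul_pos hμ (by linarith)
    have a2 : 0 < mu t td * (chh t * t - shh t ^ 2 / 2) := mul_pos hμ (by linarith)
    obtain ⟨e, he⟩ := exists_nat_ge (max 1
      (max ((mu t td * shh t + 2) / (mu t td * (chh t - shh t - t)))
        ((mu t td * shh t ^ 2 / 2 + shh t) / (mu t td * (chh t * t - shh t ^ 2 / 2)))))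
    refine ⟨e, ?_, ?_, ?_⟩
    · exact_mod_cast (le_max_left _ _).trans he
    · have := ((le_max_left _ _).trans (le_max_right _ _)).trans he
      rw [div_le_iff₀ a1] at this
      exact this.trans (mul_le_mul_of_nonneg_right (by linarith) a1.le)
    · have := ((le_max_right _ _).trans (le_max_right _ _)).trans he
      rw [div_le_iff₀ a2] at this
      exact this.trans (mul_le_mul_of_nonneg_right (by linarith) a2.le)
  refine ⟨C * ((e : ℝ) + 1) * Real.exp (ε * ((e : ℝ) + 1)) / td, by positivity,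
    fun m L hm hL v => ?_⟩
  obtain ⟨F, hF, hF0⟩ := hFC L hL
  have hs := sup67 ht hq htd htt hε hl he1 he2 he3 hm hF
  have hn := f_nonneg ht hq hε hF
  have hwn : ∀ y, 0 ≤ w67 (the t td) (e + 1) F (L + 1) y := by
    intro y
    unfold w67
    split_ifs with h
    · exact div_nonneg (hn _ le_rfl _) hθ.le
    · exact hn _ le_rfl _
  obtain ⟨W, hW⟩ : ∃ W, W = w67 (the t td) (e + 1) F (L + 1) (ds m v) := ⟨_, rfl⟩
  have hW0 : 0 ≤ W := by rw [hW]; exact hwn _
  have hE := gsum_le ht hq htd htt.le hm hs (E := fun y => if y = ds m v then W else 0)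
    (fun y _ => by
      show (if y = ds m v then W else 0) ≤ w67 (the t td) (e + 1) F (L + 1) y
      split_ifs with h
      · rw [h, hW]
      · exact hwn y) 0 (Nat.zero_le m)
  have hxs : ∀ j, 0 ≤ xs t td m j := by
    intro j
    unfold xs
    split_ifs
    · exact htd.le
    · exact ht.le
  have hG0 : 0 ≤ GS t (xs t td m) L v ⟨m, by omega⟩ := GS_nonneg ht.le hxs L _ _
  have hg : W * GS t (xs t td m) L v ⟨m, by omega⟩ ≤
      gsum t td m L (fun y => if y = ds m v then W else 0) 0 := by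
    unfold gsum
    rw [dif_pos (show m + 0 < 2 * m + 1 by omega)]
    have h3 := Finset.single_le_sum (s := Finset.univ)
      (f := fun v' : Fin (2 * m + 1) => (if ds m v' = ds m v then W else 0) *
        GS t (xs t td m) L v' ⟨m + 0, by omega⟩) (fun v' _ => by
        apply mul_nonneg _ (GS_nonneg ht.le hxs L _ _)
        split_ifs
        · exact hW0
        · exact le_rfl) (Finset.mem_univ v)
    refine le_trans (le_of_eq ?_) h3
    show _ = (if ds m v = ds m v then W else 0) * GS t (xs t td m) L v ⟨m + 0, by omega⟩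
    rw [if_pos rfl]
    rfl
  have hgg : wg67 t td (the t td) (e + 1) F 0 = F 0 (e + 1) / the t td / td := if_pos rfl
  have hWX : 1 ≤ the t td * W * Real.exp (ε * ((ds m v : ℝ) + ((e : ℝ) + 1))) := by
    rw [hW]
    unfold w67
    split_ifs with h
    · rw [h, hF.src (e + 1)]
      push_cast
      have e1 : the t td * (((e : ℝ) + 1) * Real.exp (-(ε * ((e : ℝ) + 1))) / the t td) *
          Real.exp (ε * (0 + ((e : ℝ) + 1))) = (e : ℝ) + 1 := by
        rw [zero_add, Real.exp_neg]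
        field_simp
      rw [e1]
      have := Nat.cast_nonneg (α := ℝ) e
      linarith
    · rw [hF.src (ds m v + (e + 1))]
      push_cast
      have e1 : the t td * (((ds m v : ℝ) + ((e : ℝ) + 1)) *
          Real.exp (-(ε * ((ds m v : ℝ) + ((e : ℝ) + 1))))) *
          Real.exp (ε * ((ds m v : ℝ) + ((e : ℝ) + 1))) =
          the t td * ((ds m v : ℝ) + ((e : ℝ) + 1)) := by
        rw [Real.exp_neg]
        field_simp
      rw [e1]
      have h3 := Nat.cast_nonneg (α := ℝ) e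
      have h4 := Nat.cast_nonneg (α := ℝ) (ds m v)
      exact one_le_mul_of_one_le_of_one_le hθ1 (by linarith)
  have hX0 := Real.exp_pos (ε * ((ds m v : ℝ) + ((e : ℝ) + 1)))
  have h5 := hF0 (e + 1)
  have h6 : W * GS t (xs t td m) L v ⟨m, by omega⟩ ≤ F 0 (e + 1) / the t td / td := by
    rw [← hgg]
    exact hg.trans hE
  rw [GS_symm]
  have h7 : GS t (xs t td m) L v ⟨m, by omega⟩ ≤
      (the t td * W * Real.exp (ε * ((ds m v : ℝ) + ((e : ℝ) + 1)))) *
        GS t (xs t td m) L v ⟨m, by omega⟩ := le_mul_of_one_le_left hG0 hWX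
  have h8 : (the t td * W * Real.exp (ε * ((ds m v : ℝ) + ((e : ℝ) + 1)))) *
        GS t (xs t td m) L v ⟨m, by omega⟩ =
      (the t td * Real.exp (ε * ((ds m v : ℝ) + ((e : ℝ) + 1)))) *
        (W * GS t (xs t td m) L v ⟨m, by omega⟩) := by ring
  have h9 := mul_le_mul_of_nonneg_left h6
    (show 0 ≤ the t td * Real.exp (ε * ((ds m v : ℝ) + ((e : ℝ) + 1))) by positivity)
  have h10 : (the t td * Real.exp (ε * ((ds m v : ℝ) + ((e : ℝ) + 1)))) *
      (F 0 (e + 1) / the t td / td) =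
      Real.exp (ε * ((ds m v : ℝ) + ((e : ℝ) + 1))) / td * F 0 (e + 1) := by
    field_simp
  have h11 := mul_le_mul_of_nonneg_left h5
    (show 0 ≤ Real.exp (ε * ((ds m v : ℝ) + ((e : ℝ) + 1))) / td by positivity)
  have h12 : Real.exp (ε * ((ds m v : ℝ) + ((e : ℝ) + 1))) / td *
      (C * ((e + 1 : ℕ) : ℝ) * lam t ^ L / (L : ℝ) ^ (3 / 2 : ℝ)) =
      C * ((e : ℝ) + 1) * Real.exp (ε * ((e : ℝ) + 1)) / td * Real.exp (ε * ds m v) *
        lam t ^ L / (L : ℝ) ^ (3 / 2 : ℝ) := by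
    push_cast
    rw [mul_add, Real.exp_add]
    ring
  calc GS t (xs t td m) L v ⟨m, by omega⟩ ≤ _ := h7
    _ = _ := h8
    _ ≤ _ := h9
    _ = _ := h10
    _ ≤ _ := h11
    _ = _ := h12

end Pool.Agent.Helper49.DX
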