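import Pool.Agent.Helper49.DX.Sd
import Pool.Agent.Helper49.DX.Up

/-!
Block DX-GU: upper bounds for the two-point function.

Paper proof. `t = exp (-β)`, `td = exp (-(β * J))`, `λ = lam t ∈ (0, 1)`, `c = (β - β₁) * mag β₁ ^ 2 > 0`.
* `g2_row`: for `p.1.1 = -N - 1` the exponent is `0` and `G2 ≤ 1` (`G2_le_one`). Otherwise `g2_left` with
  `L = (p.1.1 + N).toNat`, `G2 (q v) p ≤ 1`, and `gs_row` (`J ≥ 1`, `td ≤ t`): `∑ v GS ≤ (θ/t) λ ^ (L + 1)`, `L + 1` is the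
  exponent. The second statement: `p.1.1 = N`: exponent `0`; otherwise `g2_right`,
  `L + 1 = (N - p.1.1).toNat`.
* `g2_zero`: take `ε > 0` with `ε ≤ c / 2` and `exp (-ε) ≥ λ`. `L = (p.1.1 + N).toNat`; if `L = 0`, `G2 ≤ 1` and the right
  side is `C λ` (`C ≥ 1/λ`). If `L ≥ 1`: `g2_left`, `gs_up`, `G2_decay`: `G2 (q v) p ≤ exp (-c |v - m|)` as
  `p.1.2 = 0`, `∑_v exp (ε |v - m|) exp (-c |v - m|) ≤ 2 ∑_k exp (-(c - ε) k)` is bounded, and
  `(L + 1)^(3/2) ≤ 2^(3/2) L^(3/2)`. Right side: the same, `L = (N - 1 - p.1.1).toNat`.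
-/

open Finset
open scoped Classical

namespace Pool.Agent.Helper49.DX

open Pool.Agent.Helper49.DL

private lemma lam_pos_gu {t : ℝ} (ht : 0 < t) (hq : t ^ 2 + 2 * t < 1) : 0 < lam t := by
  unfold lam
  have h1 : 0 < 1 - t := by nlinarith
  positivity

private lemma lam_lt_gu {t : ℝ} (ht : 0 < t) (hq : t ^ 2 + 2 * t < 1) : lam t < 1 := by
  unfold lam
  have h1 : 0 < 1 - t := by nlinarith
  rw [div_lt_one h1]
  nlinarith

private lemma the_ge_gu {t td : ℝ} (ht : 0 < t) (hq : t ^ 2 + 2 * t < 1) (htd : 0 < td)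
    (htt : td ≤ t) : 1 ≤ the t td := by
  unfold the mu shh
  have h1 : 0 < 1 - t ^ 2 := by nlinarith
  have h2 : 1 / t ≤ 1 / td := one_div_le_one_div_of_le htd htt
  have h3 : 0 ≤ (1 / td - 1 / t) * (2 * t / (1 - t ^ 2)) / 2 := by
    have : 0 ≤ 1 / td - 1 / t := by linarith
    positivity
  linarith

private lemma xs_nonneg_gu {t td : ℝ} (ht : 0 < t) (htd : 0 < td) (m : ℕ) (j : Fin (2 * m + 1)) :
    0 ≤ xs t td m j := by
  unfold xs
  split_ifs
  · exact htd.le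
  · exact ht.le

/-- the plaquettes of the column of `p` -/
private noncomputable def col_gu {N : ℤ} {m : ℕ} (hN : 0 ≤ N) (hm : 1 ≤ m) (p : PV (box N m))
    (v : Fin (2 * m + 1)) : PV (box N m) :=
  ⟨(p.1.1, (v : ℤ) - m), by
    have h1 := (mem_PL_box hN (show (1 : ℤ) ≤ (m : ℤ) by exact_mod_cast hm)).1 p.2
    rw [mem_PL_box hN (show (1 : ℤ) ≤ (m : ℤ) by exact_mod_cast hm)]
    have h2 : ((v : ℕ) : ℤ) < 2 * m + 1 := by exact_mod_cast v.2
    refine ⟨h1.1, h1.2.1, ?_, ?_⟩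
    · change -(m : ℤ) ≤ (v : ℤ) - m
      omega
    · change (v : ℤ) - m ≤ (m : ℤ)
      omega⟩

private lemma td_le_gu {β J : ℝ} (hβ : 0 < β) (hJ : 1 ≤ J) : Real.exp (-(β * J)) ≤ Real.exp (-β) := by
  apply Real.exp_le_exp.2
  nlinarith

theorem g2_row {β J : ℝ} (hβ : 0 < β) (hJ : 1 ≤ J)
    (hq : Real.exp (-β) ^ 2 + 2 * Real.exp (-β) < 1) : ∃ C : ℝ, 0 < C ∧
      ∀ (N : ℤ) (m : ℕ), 1 ≤ N → 2 ≤ m → ∀ a b p : PV (box N m), a.1 = (-N - 1, 0) → b.1 = (N, 0) →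
        G2 β J N m a p ≤ C * lam (Real.exp (-β)) ^ (p.1.1 + N + 1).toNat ∧
        G2 β J N m b p ≤ C * lam (Real.exp (-β)) ^ (N - p.1.1).toNat := by
  set t := Real.exp (-β) with ht
  set td := Real.exp (-(β * J)) with htd
  have ht0 : 0 < t := Real.exp_pos _
  have htd0 : 0 < td := Real.exp_pos _
  have htt : td ≤ t := td_le_gu hβ hJ
  have hθ := the_ge_gu ht0 hq htd0 htt
  have hl0 := lam_pos_gu ht0 hq
  have hθt : 0 ≤ the t td / t := div_nonneg (by linarith) ht0.le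
  refine ⟨the t td / t + 1, by linarith, ?_⟩
  intro N m hN hm a b p ha hb
  have hN0 : 0 ≤ N := by omega
  have hm1 : 1 ≤ m := by omega
  have hM : (1 : ℤ) ≤ (m : ℤ) := by exact_mod_cast hm1
  have hp := (mem_PL_box hN0 hM).1 p.2
  have hle : ∀ a : PV (box N m), G2 β J N m a p ≤ 1 := fun a => G2_le_one hβ.le hJ hN0 hM a p
  have hsum : ∀ L : ℕ, ∑ v : Fin (2 * m + 1), GS t (xs t td m) L ⟨m, by omega⟩ v *
      G2 β J N m (col_gu hN0 hm1 p v) p ≤ (the t td / t + 1) * lam t ^ (L + 1) := by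
    intro L
    have h1 : ∑ v : Fin (2 * m + 1), GS t (xs t td m) L ⟨m, by omega⟩ v *
        G2 β J N m (col_gu hN0 hm1 p v) p ≤
        ∑ v : Fin (2 * m + 1), GS t (xs t td m) L ⟨m, by omega⟩ v := by
      refine Finset.sum_le_sum fun v _ => ?_
      have h2 := GS_nonneg ht0.le (xs_nonneg_gu ht0 htd0 m) L ⟨m, by omega⟩ v
      have h3 := hle (col_gu hN0 hm1 p v)
      calc _ ≤ GS t (xs t td m) L ⟨m, by omega⟩ v * 1 := mul_le_mul_of_nonneg_left h3 h2
        _ = _ := mul_one _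
    have h4 := gs_row ht0 hq htd0 htt (L := L) hm ⟨m, by omega⟩
    have h5 : 0 < lam t ^ (L + 1) := by positivity
    nlinarith
  constructor
  · by_cases hx : p.1.1 = -N - 1
    · have h1 : (p.1.1 + N + 1).toNat = 0 := by omega
      rw [h1, pow_zero, mul_one]
      linarith [hle a]
    · obtain ⟨L, hL⟩ : ∃ L : ℕ, (L : ℤ) = p.1.1 + N := ⟨(p.1.1 + N).toNat, by omega⟩
      have h1 : (p.1.1 + N + 1).toNat = L + 1 := by omega
      rw [h1]
      exact (g2_left hN0 hm1 hβ (by linarith) ha p hL (col_gu hN0 hm1 p) (fun v => rfl)).trans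
        (hsum L)
  · by_cases hx : p.1.1 = N
    · have h1 : (N - p.1.1).toNat = 0 := by omega
      rw [h1, pow_zero, mul_one]
      linarith [hle b]
    · obtain ⟨L, hL⟩ : ∃ L : ℕ, (L : ℤ) + 1 = N - p.1.1 := ⟨(N - p.1.1 - 1).toNat, by omega⟩
      have h1 : (N - p.1.1).toNat = L + 1 := by omega
      rw [h1]
      exact (g2_right hN0 hm1 hβ (by linarith) hb p hL (col_gu hN0 hm1 p) (fun v => rfl)).trans
        (hsum L)

private lemma geo_gu {r : ℝ} (hr0 : 0 ≤ r) (hr1 : r < 1) (n : ℕ) :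
    ∑ i ∈ Finset.range n, r ^ i ≤ 1 / (1 - r) := by
  have h1 : 0 < 1 - r := by linarith
  rw [le_div_iff₀ h1]
  have h2 : (∑ i ∈ Finset.range n, r ^ i) * (1 - r) = 1 - r ^ n := geom_sum_mul_neg r n
  rw [h2]
  have : 0 ≤ r ^ n := by positivity
  linarith

private lemma dsum_gu {r : ℝ} (hr0 : 0 ≤ r) (hr1 : r < 1) (m : ℕ) :
    ∑ v : Fin (2 * m + 1), r ^ ds m v ≤ 2 / (1 - r) := by
  have h1 : ∑ v : Fin (2 * m + 1), r ^ ds m v =
      ∑ i ∈ Finset.range (2 * m + 1), r ^ (Int.natAbs ((i : ℤ) - m)) :=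
    Fin.sum_univ_eq_sum_range (fun i : ℕ => r ^ (Int.natAbs ((i : ℤ) - m))) (2 * m + 1)
  have h2 : 2 * m + 1 = m + (m + 1) := by ring
  rw [h1, h2, Finset.sum_range_add]
  have h3 : ∑ i ∈ Finset.range m, r ^ (Int.natAbs ((i : ℤ) - m)) ≤ ∑ i ∈ Finset.range m, r ^ i := by
    rw [← Finset.sum_range_reflect (fun i => r ^ i) m]
    refine Finset.sum_le_sum fun i hi => ?_
    rw [Finset.mem_range] at hi
    exact pow_le_pow_of_le_one hr0 hr1.le (by omega)
  have h4 : ∑ i ∈ Finset.range (m + 1), r ^ (Int.natAbs (((m + i : ℕ) : ℤ) - m)) =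
      ∑ i ∈ Finset.range (m + 1), r ^ i := by
    refine Finset.sum_congr rfl fun i _ => ?_
    congr 1
    omega
  rw [h4]
  have h5 := geo_gu hr0 hr1 m
  have h6 := geo_gu hr0 hr1 (m + 1)
  have h7 : 2 / (1 - r) = 1 / (1 - r) + 1 / (1 - r) := by ring
  linarith

theorem g2_zero {β₁ β J : ℝ} (h0 : 0 ≤ β₁) (h : β₁ < β) (hm : 0 < mag β₁) (hJ : 1 < J)
    (hq : Real.exp (-β) ^ 2 + 2 * Real.exp (-β) < 1) : ∃ C : ℝ, 0 < C ∧
      ∀ (N : ℤ) (m : ℕ), 1 ≤ N → 2 ≤ m → ∀ a b p : PV (box N m), a.1 = (-N - 1, 0) → b.1 = (N, 0) →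
        p.1.2 = 0 →
        (-N ≤ p.1.1 → G2 β J N m a p ≤ C * lam (Real.exp (-β)) ^ (p.1.1 + N + 1).toNat /
          ((p.1.1 : ℝ) + N + 1) ^ (3 / 2 : ℝ)) ∧
        (p.1.1 ≤ N - 1 → G2 β J N m b p ≤ C * lam (Real.exp (-β)) ^ (N - p.1.1).toNat /
          ((N : ℝ) - p.1.1) ^ (3 / 2 : ℝ)) := by
  have hβ : 0 < β := by linarith
  have hJ1 : 1 ≤ J := hJ.le
  set t := Real.exp (-β) with ht
  set td := Real.exp (-(β * J)) with htd
  have ht0 : 0 < t := Real.exp_pos _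
  have htd0 : 0 < td := Real.exp_pos _
  have htt : td < t := by
    apply Real.exp_lt_exp.2
    nlinarith
  have hl0 := lam_pos_gu ht0 hq
  have hl1 := lam_lt_gu ht0 hq
  set l := lam t with hl
  set c := (β - β₁) * mag β₁ ^ 2 with hc
  have hc0 : 0 < c := by
    have : 0 < β - β₁ := by linarith
    positivity
  set ε := min (c / 2) (-Real.log l) with hε
  have hε0 : 0 < ε := by
    rw [hε, lt_min_iff]
    exact ⟨by linarith, by linarith [Real.log_neg hl0 hl1]⟩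
  have hεc : ε ≤ c / 2 := min_le_left _ _
  have hεl : l ≤ Real.exp (-ε) := by
    have h1 : ε ≤ -Real.log l := min_le_right _ _
    calc l = Real.exp (Real.log l) := (Real.exp_log hl0).symm
      _ ≤ _ := Real.exp_le_exp.2 (by linarith)
  obtain ⟨C, hC, hup⟩ := gs_up ht0 hq htd0 htt hε0 hεl
  set r := Real.exp (-(c / 2)) with hr
  have hr0 : 0 < r := Real.exp_pos _
  have hr1 : r < 1 := by
    rw [hr, Real.exp_lt_one_iff]
    linarith
  have h1r : 0 < 1 - r := by linarith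
  set W : ℝ := (2 : ℝ) ^ (3 / 2 : ℝ) with hW
  have hW0 : 0 < W := Real.rpow_pos_of_pos (by norm_num) _
  set K : ℝ := 1 / l + C * (2 / (1 - r)) * W / l with hK
  have hK1 : 1 / l ≤ K := by
    rw [hK]
    have : 0 ≤ C * (2 / (1 - r)) * W / l := by positivity
    linarith
  have hK2 : C * (2 / (1 - r)) * W / l ≤ K := by
    rw [hK]
    have : 0 ≤ 1 / l := by positivity
    linarith
  have hK0 : 0 < K := lt_of_lt_of_le (by positivity) hK1
  refine ⟨K, hK0, ?_⟩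
  intro N m hN hm2 a b p ha hb hp0
  have hN0 : 0 ≤ N := by omega
  have hm1 : 1 ≤ m := by omega
  have hM : (1 : ℤ) ≤ (m : ℤ) := by exact_mod_cast hm1
  have hp := (mem_PL_box hN0 hM).1 p.2
  have hle : ∀ a : PV (box N m), G2 β J N m a p ≤ 1 := fun a => G2_le_one hβ.le hJ1 hN0 hM a p
  have hdec : ∀ v : Fin (2 * m + 1),
      G2 β J N m (col_gu hN0 hm1 p v) p ≤ Real.exp (-(c * (ds m v : ℝ))) := by
    intro v
    refine (G2_decay h0 h.le hJ1 hN0 hM (col_gu hN0 hm1 p v) p).trans (le_of_eq ?_)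
    have e1 : (max |(col_gu hN0 hm1 p v).1.1 - p.1.1| |(col_gu hN0 hm1 p v).1.2 - p.1.2| : ℤ) =
        (ds m v : ℤ) := by
      change max |p.1.1 - p.1.1| |((v : ℤ) - m) - p.1.2| = _
      rw [hp0, sub_self, abs_zero, sub_zero, max_eq_right (abs_nonneg _)]
      unfold ds
      exact Int.abs_eq_natAbs _
    rw [e1, ← hc]
    norm_num
  -- the main estimate
  have hmain : ∀ (x : PV (box N m)) (L : ℕ),
      (G2 β J N m x p ≤ ∑ v : Fin (2 * m + 1), GS t (xs t td m) L ⟨m, by omega⟩ v *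
        G2 β J N m (col_gu hN0 hm1 p v) p) →
      G2 β J N m x p ≤ K * l ^ (L + 1) / ((L : ℝ) + 1) ^ (3 / 2 : ℝ) := by
    intro x L hx
    by_cases hL : L = 0
    · subst hL
      rw [Nat.cast_zero, zero_add, zero_add, pow_one, Real.one_rpow, div_one]
      refine (hle x).trans ?_
      have : 1 / l * l ≤ K * l := mul_le_mul_of_nonneg_right hK1 hl0.le
      rwa [one_div, inv_mul_cancel₀ hl0.ne'] at this
    · have hL1 : 1 ≤ L := by omega
      have hLr : (1 : ℝ) ≤ (L : ℝ) := by exact_mod_cast hL1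
      have hLp : 0 < (L : ℝ) ^ (3 / 2 : ℝ) := Real.rpow_pos_of_pos (by linarith) _
      have hterm : ∀ v : Fin (2 * m + 1), GS t (xs t td m) L ⟨m, by omega⟩ v *
          G2 β J N m (col_gu hN0 hm1 p v) p ≤ C * l ^ L / (L : ℝ) ^ (3 / 2 : ℝ) * r ^ ds m v := by
        intro v
        have e1 := hup m L hm2 hL1 v
        have e2 := hdec v
        have e3 := GS_nonneg ht0.le (xs_nonneg_gu ht0 htd0 m) L ⟨m, by omega⟩ v
        have e4 : Real.exp (ε * ds m v) * Real.exp (-(c * (ds m v : ℝ))) ≤ r ^ ds m v := by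
          rw [hr, ← Real.exp_nat_mul, ← Real.exp_add]
          apply Real.exp_le_exp.2
          have : (0 : ℝ) ≤ (ds m v : ℝ) := Nat.cast_nonneg _
          nlinarith
        calc _ ≤ (C * Real.exp (ε * ds m v) * l ^ L / (L : ℝ) ^ (3 / 2 : ℝ)) *
              Real.exp (-(c * (ds m v : ℝ))) :=
              mul_le_mul e1 e2 (G2_nonneg _ _) (by positivity)
          _ = C * l ^ L / (L : ℝ) ^ (3 / 2 : ℝ) *
              (Real.exp (ε * ds m v) * Real.exp (-(c * (ds m v : ℝ)))) := by ring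
          _ ≤ _ := mul_le_mul_of_nonneg_left e4 (by positivity)
      have hs := Finset.sum_le_sum fun v (_ : v ∈ Finset.univ) => hterm v
      rw [← Finset.mul_sum] at hs
      have hs2 : C * l ^ L / (L : ℝ) ^ (3 / 2 : ℝ) * ∑ v : Fin (2 * m + 1), r ^ ds m v ≤
          C * l ^ L / (L : ℝ) ^ (3 / 2 : ℝ) * (2 / (1 - r)) :=
        mul_le_mul_of_nonneg_left (dsum_gu hr0.le hr1 m) (by positivity)
      have hL1p : 0 < ((L : ℝ) + 1) ^ (3 / 2 : ℝ) := Real.rpow_pos_of_pos (by linarith) _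
      have h5 : ((L : ℝ) + 1) ^ (3 / 2 : ℝ) ≤ W * (L : ℝ) ^ (3 / 2 : ℝ) := by
        rw [hW, ← Real.mul_rpow (by norm_num) (by linarith)]
        exact Real.rpow_le_rpow (by linarith) (by linarith) (by norm_num)
      refine hx.trans (hs.trans (hs2.trans ?_))
      have h6 : C * l ^ L / (L : ℝ) ^ (3 / 2 : ℝ) * (2 / (1 - r)) ≤
          C * (2 / (1 - r)) * W / l * l ^ (L + 1) / ((L : ℝ) + 1) ^ (3 / 2 : ℝ) := by
        have e1 : C * (2 / (1 - r)) * W / l * l ^ (L + 1) = C * (2 / (1 - r)) * W * l ^ L := by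
          rw [pow_succ]
          field_simp
        rw [e1, le_div_iff₀ hL1p]
        have e2 : C * l ^ L / (L : ℝ) ^ (3 / 2 : ℝ) * (2 / (1 - r)) * ((L : ℝ) + 1) ^ (3 / 2 : ℝ) ≤
            C * l ^ L / (L : ℝ) ^ (3 / 2 : ℝ) * (2 / (1 - r)) * (W * (L : ℝ) ^ (3 / 2 : ℝ)) :=
          mul_le_mul_of_nonneg_left h5 (by positivity)
        refine e2.trans (le_of_eq ?_)
        field_simp
      refine h6.trans ?_
      apply div_le_div_of_nonneg_right _ hL1p.le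
      exact mul_le_mul_of_nonneg_right hK2 (by positivity)
  constructor
  · intro hx
    obtain ⟨L, hL⟩ : ∃ L : ℕ, (L : ℤ) = p.1.1 + N := ⟨(p.1.1 + N).toNat, by omega⟩
    have h1 : (p.1.1 + N + 1).toNat = L + 1 := by omega
    have h2 : (p.1.1 : ℝ) + N + 1 = (L : ℝ) + 1 := by
      have : ((L : ℤ) : ℝ) = ((p.1.1 + N : ℤ) : ℝ) := by rw [hL]
      push_cast at this
      linarith
    rw [h1, h2]
    exact hmain a L (g2_left hN0 hm1 hβ (by linarith) ha p hL (col_gu hN0 hm1 p) (fun v => rfl))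
  · intro hx
    obtain ⟨L, hL⟩ : ∃ L : ℕ, (L : ℤ) + 1 = N - p.1.1 := ⟨(N - p.1.1 - 1).toNat, by omega⟩
    have h1 : (N - p.1.1).toNat = L + 1 := by omega
    have h2 : (N : ℝ) - p.1.1 = (L : ℝ) + 1 := by
      have : (((L : ℤ) + 1 : ℤ) : ℝ) = ((N - p.1.1 : ℤ) : ℝ) := by rw [hL]
      push_cast at this
      linarith
    rw [h1, h2]
    exact hmain b L (g2_right hN0 hm1 hβ (by linarith) hb p hL (col_gu hN0 hm1 p) (fun v => rfl))

end Pool.Agent.Helper49.DX
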