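import Pool.Agent.Helper49.DL.Conn

/-!
High temperature sums on a finite graph. A graph is a map `A : ι → Finset V` from edges to pairs of
vertices, `gbd A F` the set of vertices of odd degree of `F`, `Cn A F a b` connection in `F`.
-/

open Finset

namespace Pool.Agent.Helper49.DX

open Pool.Agent.Helper49.DL

section

variable {V ι : Type*} [Fintype V] [DecidableEq V] [Fintype ι] [DecidableEq ι]

/-- High temperature sum with the set of sources `S`. -/
noncomputable def ZG (A : ι → Finset V) (x : ι → ℝ) (S : Finset V) : ℝ :=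
  ∑ F ∈ Finset.univ.filter (fun F : Finset ι => gbd A F = S), ∏ e ∈ F, x e

/-- The pair of sources `a`, `b` (empty if `a = b`). -/
def pr (a b : V) : Finset V := symmDiff {a} {b}

/-- Weights restricted to the edges inside `S`. -/
def xr (A : ι → Finset V) (x : ι → ℝ) (S : Finset V) : ι → ℝ := fun e => if A e ⊆ S then x e else 0

omit [Fintype V] in
lemma pr_self (a : V) : pr a a = ∅ := by simp [pr]

omit [Fintype V] in
lemma pr_comm (a b : V) : pr a b = pr b a := by simp [pr, symmDiff_comm]

omit [Fintype V] in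
lemma pr_ne {a b : V} (h : a ≠ b) : pr a b = {a, b} := by
  ext v
  simp only [pr, Finset.mem_symmDiff, Finset.mem_singleton, Finset.mem_insert]
  constructor
  · rintro (⟨h1, _⟩ | ⟨h1, _⟩)
    · exact Or.inl h1
    · exact Or.inr h1
  · rintro (h1 | h1)
    · exact Or.inl ⟨h1, fun h2 => h (h1.symm.trans h2)⟩
    · exact Or.inr ⟨h1, fun h2 => h (h2.symm.trans h1)⟩

omit [Fintype V] in
lemma pr_trans (a b c : V) : symmDiff (pr a b) (pr b c) = pr a c := by
  unfold pr
  rw [symmDiff_assoc, symmDiff_symmDiff_cancel_left]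

lemma gbd_empty (A : ι → Finset V) : gbd A ∅ = ∅ := by
  ext v; simp [gbd]

lemma ZG_nonneg {A : ι → Finset V} {x : ι → ℝ} (hx : ∀ e, 0 ≤ x e) (S : Finset V) :
    0 ≤ ZG A x S :=
  Finset.sum_nonneg fun F _ => Finset.prod_nonneg fun e _ => hx e

lemma ZG_pos {A : ι → Finset V} {x : ι → ℝ} (hx : ∀ e, 0 ≤ x e) : 0 < ZG A x ∅ := by
  unfold ZG
  have h1 : (∅ : Finset ι) ∈ Finset.univ.filter (fun F : Finset ι => gbd A F = ∅) := by
    rw [Finset.mem_filter]; exact ⟨Finset.mem_univ _, gbd_empty A⟩
  have h2 := Finset.single_le_sum (f := fun F : Finset ι => ∏ e ∈ F, x e)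
    (fun F _ => Finset.prod_nonneg fun e _ => hx e) h1
  simp only [Finset.prod_empty] at h2
  linarith

end

end Pool.Agent.Helper49.DX
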