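import Pool.Agent.Helper49.DX.Exc

/-!
Definitions and small lemmas for the two-sided comparison.
-/

open Finset
open scoped Classical

namespace Pool.Agent.Helper49.DX

open Pool.Agent.Helper49.DL

/-- For some `W ∈ 𝒲` the interface crosses the column `x` at height at least `K + s + 1/2` for all
`(x, K) ∈ W`. -/
def Hs (n s : ℤ) (𝒲 : Finset (Finset (ℤ × ℤ))) (ω : Cfg) : Prop :=
  ∃ W ∈ 𝒲, ∀ p ∈ W, Above n p.1 (p.2 + s) ω

/-- All crossings of the column `x` by the interface have height at least `K + 1/2`. -/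
def AllAbove (n x K : ℤ) (ω : Cfg) : Prop := ∀ y, Interface n ω ((x, y), false) → K ≤ y

/-- For some `W ∈ 𝒲` all crossings of the column `x` have height at least `K + 1/2` for all
`(x, K) ∈ W`. -/
def HsL (n : ℤ) (𝒲 : Finset (Finset (ℤ × ℤ))) (ω : Cfg) : Prop :=
  ∃ W ∈ 𝒲, ∀ p ∈ W, AllAbove n p.1 p.2 ω

/-- Raise all heights by `s`. -/
noncomputable def shf (s : ℤ) (𝒲 : Finset (Finset (ℤ × ℤ))) : Finset (Finset (ℤ × ℤ)) :=
  𝒲.image (fun W => W.image (fun p => (p.1, p.2 + s)))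

theorem hs_zero (n : ℤ) (𝒲 : Finset (Finset (ℤ × ℤ))) (ω : Cfg) : Hs n 0 𝒲 ω ↔ Hts n 𝒲 ω := by
  simp [Hs, Hts]

theorem hs_shf (n s : ℤ) (𝒲 : Finset (Finset (ℤ × ℤ))) (ω : Cfg) :
    Hts n (shf s 𝒲) ω ↔ Hs n s 𝒲 ω := by
  simp [Hs, Hts, shf]

theorem above_mono {n x K K' : ℤ} (h : K ≤ K') {ω : Cfg} (hA : Above n x K' ω) : Above n x K ω := by
  obtain ⟨y, hy, h1⟩ := hA
  exact ⟨y, h.trans hy, h1⟩

theorem hs_mono {n s s' : ℤ} (h : s ≤ s') {𝒲 : Finset (Finset (ℤ × ℤ))} {ω : Cfg}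
    (hA : Hs n s' 𝒲 ω) : Hs n s 𝒲 ω := by
  obtain ⟨W, hW, h1⟩ := hA
  exact ⟨W, hW, fun p hp => above_mono (by omega) (h1 p hp)⟩

theorem PJ_mono {β J : ℝ} {n : ℤ} {E F : Cfg → Prop} (h : ∀ ω, E ω → F ω) :
    PJ β J n E ≤ PJ β J n F := by
  unfold PJ
  refine avg_mono fun ω _ => ?_
  by_cases hE : E ω
  · rw [if_pos hE, if_pos (h ω hE)]
  · rw [if_neg hE]
    split_ifs
    · exact zero_le_one
    · exact le_rfl

theorem PW_mono {β : ℝ} {n : ℤ} {E F : Cfg → Prop} (h : ∀ ω, E ω → F ω) :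
    PW β n E ≤ PW β n F := by
  unfold PW
  refine avg_mono fun ω _ => ?_
  by_cases hE : E ω
  · rw [if_pos hE, if_pos (h ω hE)]
  · rw [if_neg hE]
    split_ifs
    · exact zero_le_one
    · exact le_rfl

theorem PJ_or {β J : ℝ} {n : ℤ} {E F G : Cfg → Prop} (h : ∀ ω, E ω → F ω ∨ G ω) :
    PJ β J n E ≤ PJ β J n F + PJ β J n G := by
  unfold PJ
  rw [← avg_add]
  refine avg_mono fun ω _ => ?_
  by_cases hE : E ω
  · rw [if_pos hE]
    rcases h ω hE with h1 | h1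
    · rw [if_pos h1]
      split_ifs <;> norm_num
    · rw [if_pos h1]
      split_ifs <;> norm_num
  · rw [if_neg hE]
    split_ifs <;> norm_num

theorem PW_or {β : ℝ} {n : ℤ} {E F G : Cfg → Prop} (h : ∀ ω, E ω → F ω ∨ G ω) :
    PW β n E ≤ PW β n F + PW β n G := by
  unfold PW
  rw [← avg_add]
  refine avg_mono fun ω _ => ?_
  by_cases hE : E ω
  · rw [if_pos hE]
    rcases h ω hE with h1 | h1
    · rw [if_pos h1]
      split_ifs <;> norm_num
    · rw [if_pos h1]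
      split_ifs <;> norm_num
  · rw [if_neg hE]
    split_ifs <;> norm_num

theorem PW_nonneg (β : ℝ) (n : ℤ) (E : Cfg → Prop) : 0 ≤ PW β n E := by
  unfold PW
  refine avg_nonneg fun ω _ => ?_
  split_ifs
  · exact zero_le_one
  · exact le_rfl

theorem PW_le_one (β : ℝ) (n : ℤ) (E : Cfg → Prop) : PW β n E ≤ 1 := by
  unfold PW
  refine le_trans (avg_mono (G := fun _ => 1) fun ω _ => ?_) (le_of_eq (avg_const 1))
  split_ifs
  · exact le_rfl
  · exact zero_le_one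

end Pool.Agent.Helper49.DX
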