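import Pool.Agent.Helper49.DX.Wl2b
import Pool.Agent.Helper49.DX.Fkg2
import Pool.Agent.Helper49.DL.Half

/-!
Block DX-W3: lower bound for the heights of the interface by the interface along a wall.

Paper proof. Put `U = ubox n M`, `ζ = zt n M`, `κ = kap J`, `E = avg β κ (box N M) (eta 0)`, `q = avg β (kap 1) U (eta 0) (1 - 1_D')`, where
`D' ω = ∃ W ∈ 𝒲, ∀ p ∈ W, ∃ y ≥ p.2, Low n M ω (p.1, y)` (by `above_iff` this is `Hts n 𝒲 ω` for
`ω ∈ confs U (eta 0) ⊆ confs (box n M) (eta 0)`), and `D ω` the same with `N`, for `ω ∈ confs (box N M) (eta 0)` equal to `Hts N 𝒲 ω`.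
`A ω = ∀ x, |x| ≤ n → ¬ Up N M ω (x, 1)`. `1_A`, `1_D`, `1_D'` are antitone functions on `Cfg` (`up_mono`, `low_anti`).
For every `V` put `Λ = Wr n M V`. By `dlr` with `G = 1 {Vb = V}` (`vb_congr`)
`Zg (1 {Vb = V} 1_A (1 - 1_D)) = Zg (1 {Vb = V} avg β κ Λ ω (1_A (1 - 1_D)))`. Fix `ω` with `Vb ω = V`. For `ξ ∈ confs Λ ω`
also `Vb ξ = V` and `ξ ∈ confs (box N M) (eta 0)`, so by `above_flip`
`1_A ξ (1 - 1_D ξ) ≤ 1_A ξ (1 - 1_D' (glue Λ ξ ζ)) =: 1_A ξ * f ξ`, `f` monotone and `Loc Λ`. By `avg_fkg` (for `-1_A` and `f`)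
`avg Λ ω (1_A f) ≤ avg Λ ω 1_A * avg Λ ω f`. `kap J = kap 1` on `vb Λ` (`Λ` is in the rows `≥ 2`, `avg_kap_congr`). By `avg_bdry`
`avg Λ ω f ≤ avg Λ ζ f` (the sites adjacent to `Λ`: in `U` both are `false` by `wr_bdry`; off `U`: height `≥ 1` and
`eta 0 = true`), `f ξ = 1 - 1_D' ξ` for `ξ ∈ confs Λ ζ` (`glue Λ ξ ζ = ξ`), and by `avg_fixed`
`avg Λ ζ (1 - 1_D') ≤ avg U ζ (1 - 1_D') = avg U (eta 0) (1 - 1_D') = q` (`avg_bc`, `ζ ∈ confs U (eta 0)`). So
`Zg (1 {Vb = V} 1_A (1 - 1_D)) ≤ q * Zg (1 {Vb = V} avg Λ ω 1_A) = q * Zg (1 {Vb = V} 1_A)` (`dlr`). Sum over `V` and divide: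
`E (1_A (1 - 1_D)) ≤ q * E 1_A`, so `E 1_D ≥ E (1_A 1_D) ≥ (1 - q) E 1_A`.
-/

open Finset
open scoped Classical

namespace Pool.Agent.Helper49.DX

open Pool.Agent.Helper49.DL

/-- Increasing events for the heights of the interface: for some `W ∈ 𝒲` the interface crosses the column
`x` at height at least `K + 1/2` for all `(x, K) ∈ W`. -/
def Hts (N : ℤ) (𝒲 : Finset (Finset (ℤ × ℤ))) (ω : Cfg) : Prop :=
  ∃ W ∈ 𝒲, ∀ p ∈ W, Above N p.1 p.2 ω

private theorem ite_anti97 {P Q : Prop} (h : Q → P) :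
    (if Q then (1 : ℝ) else 0) ≤ if P then 1 else 0 := by
  by_cases hq : Q
  · rw [if_pos hq, if_pos (h hq)]
  · rw [if_neg hq]
    split_ifs
    · exact zero_le_one
    · exact le_rfl

private theorem glue_mono97 (Λ : Finset Site) {ω ω' : Cfg} (ζ : Cfg) (h : ω ≤ ω') :
    glue Λ ω ζ ≤ glue Λ ω' ζ := by
  intro i
  by_cases hi : i ∈ Λ
  · rw [glue_in _ _ hi, glue_in _ _ hi]
    exact h i
  · rw [glue_out _ _ hi, glue_out _ _ hi]

/-- the event in terms of `Low` -/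
private def DD97 (n M : ℤ) (𝒲 : Finset (Finset (ℤ × ℤ))) (ω : Cfg) : Prop :=
  ∃ W ∈ 𝒲, ∀ p ∈ W, ∃ y, p.2 ≤ y ∧ Low n M ω (p.1, y)

private theorem dd_anti97 {n M : ℤ} {𝒲 : Finset (Finset (ℤ × ℤ))} {ω ω' : Cfg} (h : ω ≤ ω')
    (hD : DD97 n M 𝒲 ω') : DD97 n M 𝒲 ω := by
  obtain ⟨W, hW, h1⟩ := hD
  refine ⟨W, hW, fun p hp => ?_⟩
  obtain ⟨y, hy, h2⟩ := h1 p hp
  exact ⟨y, hy, low_anti h h2⟩

private theorem hts_iff97 {n M : ℤ} (hn : 0 ≤ n) (hM : 1 ≤ M) (𝒲 : Finset (Finset (ℤ × ℤ))) {ω : Cfg}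
    (h : ω ∈ confs (box n M) (eta 0)) : Hts n 𝒲 ω ↔ DD97 n M 𝒲 ω := by
  unfold Hts DD97
  constructor
  · rintro ⟨W, hW, h1⟩
    exact ⟨W, hW, fun p hp => (above_iff h hn hM).1 (h1 p hp)⟩
  · rintro ⟨W, hW, h1⟩
    exact ⟨W, hW, fun p hp => (above_iff h hn hM).2 (h1 p hp)⟩

private theorem ubox_sub97 {n N M : ℤ} (hnN : n ≤ N) : ubox n M ⊆ box N M := by
  intro i hi
  rw [mem_ubox] at hi
  rw [mem_box]
  omega

/-- The key estimate for one value of the exploration. -/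
private theorem key97 {β J : ℝ} (hβ : 0 ≤ β) (hJ : 0 ≤ J) {N M n : ℤ} (hn : 0 ≤ n) (hnN : n ≤ N)
    (hM : 1 ≤ M) (𝒲 : Finset (Finset (ℤ × ℤ))) (h𝒲 : ∀ W ∈ 𝒲, ∀ p ∈ W, |p.1| ≤ n ∧ 1 ≤ p.2)
    {V : Finset Site} {ω : Cfg} (hω : ω ∈ confs (box N M) (eta 0)) (hV : Vb n M ω = V) :
    avg β (kap J) (Wr n M V) ω (fun ξ => (if ∀ x : ℤ, |x| ≤ n → ¬ Up N M ξ (x, 1) then (1 : ℝ) else 0) *
      (1 - if DD97 N M 𝒲 ξ then 1 else 0)) ≤
    avg β (kap 1) (ubox n M) (eta 0) (fun ξ => 1 - if DD97 n M 𝒲 ξ then 1 else 0) *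
      avg β (kap J) (Wr n M V) ω (fun ξ => if ∀ x : ℤ, |x| ≤ n → ¬ Up N M ξ (x, 1) then (1 : ℝ) else 0) := by
  set Λ := Wr n M V with hΛ
  set a : Cfg → ℝ := fun ξ => if ∀ x : ℤ, |x| ≤ n → ¬ Up N M ξ (x, 1) then (1 : ℝ) else 0 with ha
  set f : Cfg → ℝ := fun ξ => 1 - if DD97 n M 𝒲 (glue Λ ξ (zt n M)) then 1 else 0 with hf
  have hΛU : Λ ⊆ ubox n M := Finset.filter_subset _ _
  have hΛB : Λ ⊆ box N M := hΛU.trans (ubox_sub97 hnN)
  have hrow : ∀ i ∈ Λ, 2 ≤ i.2 := fun i hi => (Finset.mem_filter.1 hi).2.1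
  have ha0 : ∀ ξ, 0 ≤ a ξ := fun ξ => by
    rw [ha]
    simp only
    split_ifs
    · exact zero_le_one
    · exact le_rfl
  -- (i)
  have s1 : avg β (kap J) Λ ω (fun ξ => a ξ * (1 - if DD97 N M 𝒲 ξ then 1 else 0)) ≤
      avg β (kap J) Λ ω (fun ξ => a ξ * f ξ) := by
    refine avg_mono fun ξ hξ => ?_
    by_cases hA : ∀ x : ℤ, |x| ≤ n → ¬ Up N M ξ (x, 1)
    · refine mul_le_mul_of_nonneg_left ?_ (ha0 ξ)
      have hVξ : Vb n M ξ = V := (vb_congr hξ).2 hV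
      have hξB : ξ ∈ confs (box N M) (eta 0) := by
        rw [mem_confs] at hω hξ ⊢
        intro i hi
        rw [hξ i (fun h => hi (hΛB h)), hω i hi]
      have himp : DD97 n M 𝒲 (glue Λ ξ (zt n M)) → DD97 N M 𝒲 ξ := by
        rintro ⟨W, hW, h1⟩
        refine ⟨W, hW, fun p hp => ?_⟩
        have h2 := h𝒲 W hW p hp
        exact above_flip hξB hn hnN hM hVξ hA h2.1 h2.2 (h1 p hp)
      have := ite_anti97 himp
      rw [hf]
      simp only
      linarith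
    · have : a ξ = 0 := by
        rw [ha]
        exact if_neg hA
      rw [this, zero_mul, zero_mul]
  -- (ii)
  have hfm : Monotone f := by
    intro ξ ξ' h
    have := ite_anti97 (dd_anti97 (𝒲 := 𝒲) (M := M) (n := n) (glue_mono97 Λ (zt n M) h))
    rw [hf]
    simp only
    linarith
  have ham : Monotone (fun ξ => -a ξ) := by
    intro ξ ξ' h
    have h1 : (∀ x : ℤ, |x| ≤ n → ¬ Up N M ξ' (x, 1)) → ∀ x : ℤ, |x| ≤ n → ¬ Up N M ξ (x, 1) :=
      fun h2 x hx h3 => h2 x hx (up_mono h h3)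
    have := ite_anti97 h1
    rw [ha]
    simp only
    linarith
  have s2 : avg β (kap J) Λ ω (fun ξ => a ξ * f ξ) ≤ avg β (kap J) Λ ω a * avg β (kap J) Λ ω f := by
    have h1 := avg_fkg (Λ := Λ) (η := ω) hβ (kap_nonneg hJ) ham hfm
    have h2 : avg β (kap J) Λ ω (fun ξ => -a ξ) = -avg β (kap J) Λ ω a := by
      have h3 := avg_smul (β := β) (κ := kap J) (Λ := Λ) (η := ω) (-1) a
      rw [neg_one_mul] at h3
      rw [← h3]
      exact avg_congr fun ξ _ => by ring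
    have h4 : avg β (kap J) Λ ω (fun ξ => -a ξ * f ξ) = -avg β (kap J) Λ ω (fun ξ => a ξ * f ξ) := by
      have h3 := avg_smul (β := β) (κ := kap J) (Λ := Λ) (η := ω) (-1) (fun ξ => a ξ * f ξ)
      rw [neg_one_mul] at h3
      rw [← h3]
      exact avg_congr fun ξ _ => by ring
    rw [h2, h4] at h1
    linarith
  -- (iii)
  have s3 : avg β (kap J) Λ ω f = avg β (kap 1) Λ ω f := by
    refine avg_kap_congr (fun i hi => ?_) _ _
    rw [mem_vb] at hi
    have hi2 : i.2 ≠ 0 := by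
      rcases hi with hi | hi
      · have := hrow i hi
        omega
      · have := hrow _ hi
        have e : (i + e2).2 = i.2 + 1 := rfl
        rw [e] at this
        omega
    unfold kap
    rw [if_neg hi2, if_neg hi2]
  -- (iv)
  have hloc : Loc Λ f := by
    intro ξ ξ' h
    have h1 : glue Λ ξ (zt n M) = glue Λ ξ' (zt n M) := by
      funext i
      by_cases hi : i ∈ Λ
      · rw [glue_in _ _ hi, glue_in _ _ hi, h i hi]
      · rw [glue_out _ _ hi, glue_out _ _ hi]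
    rw [hf]
    simp only
    rw [h1]
  have s4 : avg β (kap 1) Λ ω f ≤ avg β (kap 1) Λ (zt n M) f := by
    refine avg_bdry hβ (kap_nonneg zero_le_one) (fun i hi hadj => ?_) hfm hloc
    obtain ⟨j, hj, hji, hj2⟩ : ∃ j, j ∈ Λ ∧ Nb j i ∧ i.2 + 1 ≥ j.2 := by
      rcases hadj with h | h | h | h
      · refine ⟨_, h, Or.inr (Or.inl (by simp)), ?_⟩
        have e : (i + e1).2 = i.2 + 0 := rfl
        rw [e]
        omega
      · refine ⟨_, h, Or.inl (by simp), ?_⟩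
        have e : (i - e1).2 = i.2 - 0 := rfl
        rw [e]
        omega
      · refine ⟨_, h, Or.inr (Or.inr (Or.inr (by simp))), ?_⟩
        have e : (i + e2).2 = i.2 + 1 := rfl
        rw [e]
      · refine ⟨_, h, Or.inr (Or.inr (Or.inl (by simp))), ?_⟩
        have e : (i - e2).2 = i.2 - 1 := rfl
        rw [e]
        omega
    by_cases hiU : i ∈ ubox n M
    · rw [wr_bdry hV hj hi hji hiU]
      exact Bool.false_le _
    · have h1 := hrow j hj
      have h2 : zt n M i = true := by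
        unfold zt
        rw [if_neg hiU]
        unfold eta
        rw [decide_eq_true_eq]
        omega
      rw [h2]
      exact Bool.le_true _
  -- (v)
  have s5 : avg β (kap 1) Λ (zt n M) f =
      avg β (kap 1) Λ (zt n M) (fun ξ => 1 - if DD97 n M 𝒲 ξ then 1 else 0) := by
    refine avg_congr fun ξ hξ => ?_
    have h1 : glue Λ ξ (zt n M) = ξ := by
      rw [mem_confs] at hξ
      funext i
      by_cases hi : i ∈ Λ
      · rw [glue_in _ _ hi]
      · rw [glue_out _ _ hi, hξ i hi]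
    rw [hf]
    simp only
    rw [h1]
  -- (vi)
  have hdm : Monotone (fun ξ : Cfg => (1 : ℝ) - if DD97 n M 𝒲 ξ then 1 else 0) := by
    intro ξ ξ' h
    have := ite_anti97 (dd_anti97 (𝒲 := 𝒲) (M := M) (n := n) h)
    simp only
    linarith
  have s6 : avg β (kap 1) Λ (zt n M) (fun ξ => 1 - if DD97 n M 𝒲 ξ then 1 else 0) ≤
      avg β (kap 1) (ubox n M) (zt n M) (fun ξ => 1 - if DD97 n M 𝒲 ξ then 1 else 0) := by
    refine avg_fixed hβ (kap_nonneg zero_le_one) hΛU (fun i hi _ => ?_) hdm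
    unfold zt
    rw [if_pos hi]
  -- (vii)
  have hzt : zt n M ∈ confs (ubox n M) (eta 0) := by
    rw [mem_confs]
    intro i hi
    unfold zt
    rw [if_neg hi]
  rw [avg_bc hzt] at s6
  have hav : 0 ≤ avg β (kap J) Λ ω a := avg_nonneg fun ξ _ => ha0 ξ
  have hfin : avg β (kap J) Λ ω f ≤
      avg β (kap 1) (ubox n M) (eta 0) (fun ξ => 1 - if DD97 n M 𝒲 ξ then 1 else 0) := by
    rw [s3]
    exact s4.trans ((le_of_eq s5).trans s6)
  refine s1.trans (s2.trans ?_)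
  rw [mul_comm]
  exact mul_le_mul_of_nonneg_right hfin hav

theorem wall_lower {β J : ℝ} (hβ : 0 ≤ β) (hJ : 0 ≤ J) {N M n : ℤ} (hn : 0 ≤ n) (hnN : n ≤ N)
    (hM : 1 ≤ M) (𝒲 : Finset (Finset (ℤ × ℤ))) (h𝒲 : ∀ W ∈ 𝒲, ∀ p ∈ W, |p.1| ≤ n ∧ 1 ≤ p.2) :
    avg β (kap J) (box N M) (eta 0)
        (fun ω => if ∀ x : ℤ, |x| ≤ n → ¬ Up N M ω (x, 1) then 1 else 0) *
      avg β (kap 1) (ubox n M) (eta 0) (fun ω => if Hts n 𝒲 ω then 1 else 0) ≤
      avg β (kap J) (box N M) (eta 0) (fun ω => if Hts N 𝒲 ω then 1 else 0) := by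
  have hN : 0 ≤ N := hn.trans hnN
  set B := box N M with hB
  set a : Cfg → ℝ := fun ω => if ∀ x : ℤ, |x| ≤ n → ¬ Up N M ω (x, 1) then (1 : ℝ) else 0 with ha
  set d : Cfg → ℝ := fun ω => if DD97 N M 𝒲 ω then (1 : ℝ) else 0 with hd
  set d' : Cfg → ℝ := fun ω => if DD97 n M 𝒲 ω then (1 : ℝ) else 0 with hd'
  have ha0 : ∀ ξ, 0 ≤ a ξ := fun ξ => by
    rw [ha]
    simp only
    split_ifs
    · exact zero_le_one
    · exact le_rfl
  have ha1 : ∀ ξ, a ξ ≤ 1 := fun ξ => by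
    rw [ha]
    simp only
    split_ifs
    · exact le_rfl
    · exact zero_le_one
  have hd0 : ∀ ξ, 0 ≤ d ξ := fun ξ => by
    rw [hd]
    simp only
    split_ifs
    · exact zero_le_one
    · exact le_rfl
  have e1 : avg β (kap J) B (eta 0) (fun ω => if Hts N 𝒲 ω then 1 else 0) = avg β (kap J) B (eta 0) d := by
    refine avg_congr fun ω hω => ?_
    rw [hd]
    simp only
    by_cases h : Hts N 𝒲 ω
    · rw [if_pos h, if_pos ((hts_iff97 hN hM 𝒲 hω).1 h)]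
    · rw [if_neg h, if_neg (fun h' => h ((hts_iff97 hN hM 𝒲 hω).2 h'))]
  have e2' : avg β (kap 1) (ubox n M) (eta 0) (fun ω => if Hts n 𝒲 ω then 1 else 0) =
      avg β (kap 1) (ubox n M) (eta 0) d' := by
    refine avg_congr fun ω hω => ?_
    have hω' : ω ∈ confs (box n M) (eta 0) := by
      rw [mem_confs] at hω ⊢
      intro i hi
      exact hω i (fun h => hi (ubox_sub97 le_rfl h))
    rw [hd']
    simp only
    by_cases h : Hts n 𝒲 ω
    · rw [if_pos h, if_pos ((hts_iff97 hn hM 𝒲 hω').1 h)]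
    · rw [if_neg h, if_neg (fun h' => h ((hts_iff97 hn hM 𝒲 hω').2 h'))]
  rw [e1, e2']
  set q := avg β (kap 1) (ubox n M) (eta 0) (fun ξ => 1 - if DD97 n M 𝒲 ξ then (1 : ℝ) else 0) with hq
  have hq' : avg β (kap 1) (ubox n M) (eta 0) d' = 1 - q := by
    rw [hq, avg_sub, avg_const]
    ring
  -- one value of the exploration
  have step : ∀ V : Finset Site, Zg β (kap J) B (eta 0)
      (fun ω => (if Vb n M ω = V then (1 : ℝ) else 0) * (a ω * (1 - d ω))) ≤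
      Zg β (kap J) B (eta 0) (fun ω => q * ((if Vb n M ω = V then (1 : ℝ) else 0) * a ω)) := by
    intro V
    have hG : ∀ ω ξ : Cfg, ξ ∈ confs (Wr n M V) ω →
        (if Vb n M ξ = V then (1 : ℝ) else 0) = if Vb n M ω = V then 1 else 0 := by
      intro ω ξ h
      by_cases hV : Vb n M ω = V
      · rw [if_pos hV, if_pos ((vb_congr h).2 hV)]
      · rw [if_neg hV, if_neg (fun h' => hV ((vb_congr h).1 h'))]
    have hΛB : Wr n M V ⊆ B := (Finset.filter_subset _ _).trans (ubox_sub97 hnN)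
    rw [Zg_smul, dlr hΛB _ _ hG, dlr hΛB _ a hG, ← Zg_smul]
    refine Zg_mono fun ω hω => ?_
    by_cases hV : Vb n M ω = V
    · rw [if_pos hV, one_mul, one_mul]
      exact key97 hβ hJ hn hnN hM 𝒲 h𝒲 hω hV
    · rw [if_neg hV, zero_mul, zero_mul, mul_zero]
  have hone : ∀ (F : Cfg → ℝ) (ω : Cfg), ∑ V ∈ (ubox n M).powerset,
      (if Vb n M ω = V then (1 : ℝ) else 0) * F ω = F ω := by
    intro F ω
    rw [← Finset.sum_mul, Finset.sum_ite_eq, if_pos, one_mul]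
    exact Finset.mem_powerset.2 (Finset.filter_subset _ _)
  have htot : Zg β (kap J) B (eta 0) (fun ω => a ω * (1 - d ω)) ≤
      q * Zg β (kap J) B (eta 0) a := by
    have t1 : Zg β (kap J) B (eta 0) (fun ω => a ω * (1 - d ω)) =
        ∑ V ∈ (ubox n M).powerset, Zg β (kap J) B (eta 0)
          (fun ω => (if Vb n M ω = V then (1 : ℝ) else 0) * (a ω * (1 - d ω))) := by
      rw [← Zg_sum]
      exact Zg_congr fun ω _ => (hone (fun ω => a ω * (1 - d ω)) ω).symm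
    have t2 : q * Zg β (kap J) B (eta 0) a =
        ∑ V ∈ (ubox n M).powerset, Zg β (kap J) B (eta 0)
          (fun ω => q * ((if Vb n M ω = V then (1 : ℝ) else 0) * a ω)) := by
      rw [← Zg_sum, ← Zg_smul]
      refine Zg_congr fun ω _ => ?_
      rw [← Finset.mul_sum, hone a ω]
    rw [t1, t2]
    exact Finset.sum_le_sum fun V _ => step V
  have hav : avg β (kap J) B (eta 0) (fun ω => a ω * (1 - d ω)) ≤ q * avg β (kap J) B (eta 0) a := by
    unfold avg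
    rw [mul_div_assoc']
    exact div_le_div_of_nonneg_right htot Zg_one_pos.le
  have hsub : avg β (kap J) B (eta 0) (fun ω => a ω * (1 - d ω)) =
      avg β (kap J) B (eta 0) a - avg β (kap J) B (eta 0) (fun ω => a ω * d ω) := by
    rw [← avg_sub]
    exact avg_congr fun ω _ => by ring
  have hle : avg β (kap J) B (eta 0) (fun ω => a ω * d ω) ≤ avg β (kap J) B (eta 0) d :=
    avg_mono fun ω _ => mul_le_of_le_one_left (hd0 ω) (ha1 ω)
  rw [hq']
  linarith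

end Pool.Agent.Helper49.DX
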