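import Pool.Agent.Helper49.DX.Fkg2
import Pool.Agent.Helper49.DX.Wl3

/-!
Block DX-MN: monotonicity in the domain with `true` outside, and of the interface along the wall in the
height of the box.

Paper proofs.
* `avg_fixed_tt`: as `avg_fixed` (Fkg2.lean) with `D = 1 {ω = true on Λ \ Λ'}` (monotone): `avg Λ' η f = avg Λ η (D f) / avg Λ η D`
  (`Zg Λ η (D F) = const * Zg Λ' η F`, `wg_swap`, `confs Λ' η ⊆ confs Λ η`), and `avg_fkg` for `f` and `D` gives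
  `avg (D f) ≥ avg D * avg f`. (Copy the proof of `avg_fixed`; or use the flip `ω ↦ !ω` of all spins.)
* `wall_mono`: `confs (ubox n M) (eta 0) ⊆ confs (ubox n M') (eta 0) ⊆ confs (box n M') (eta 0)`; for `ω` in the last set
  `Hts n 𝒲 ω` is `∃ W ∈ 𝒲, ∀ p ∈ W, ∃ y ≥ p.2, Low n M' ω (p.1, y)` (`above_iff` with `M'`; compare `hts_iff97` in Wl3.lean), which is
  antitone (`low_anti`), so `f = 1 - 1_D` is monotone and `avg (ubox n M') (eta 0) f ≤ avg (ubox n M) (eta 0) f` by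
  `avg_fixed_tt` (`eta 0 = true` on `ubox n M' \ ubox n M`: height `≥ 1`).
-/

open Finset
open scoped Classical

namespace Pool.Agent.Helper49.DX

open Pool.Agent.Helper49.DL

private noncomputable def ind26 (Λ Λ' : Finset Site) (ω : Cfg) : ℝ :=
  if ∀ i ∈ Λ, i ∉ Λ' → ω i = true then 1 else 0

private lemma ind_mono26 {Λ Λ' : Finset Site} : Monotone (ind26 Λ Λ') := by
  intro ω ω' h
  unfold ind26
  by_cases h1 : ∀ i ∈ Λ, i ∉ Λ' → ω i = true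
  · have h2 : ∀ i ∈ Λ, i ∉ Λ' → ω' i = true := by
      intro i hi hi'
      have h3 : ω i ≤ ω' i := h i
      rw [h1 i hi hi'] at h3
      exact Bool.eq_true_of_true_le h3
    rw [if_pos h1, if_pos h2]
  · rw [if_neg h1]
    split_ifs <;> norm_num

private lemma Zg_ind26 {β : ℝ} {κ : Site → ℝ} {Λ Λ' : Finset Site} {η : Cfg} (hΛ : Λ' ⊆ Λ)
    (h : ∀ i ∈ Λ, i ∉ Λ' → η i = true) (F : Cfg → ℝ) :
    Zg β κ Λ η (fun ω => F ω * ind26 Λ Λ' ω) =
      wg β κ Λ η / wg β κ Λ' η * Zg β κ Λ' η F := by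
  have hsub : confs Λ' η ⊆ confs Λ η := by
    intro ω hω
    rw [mem_confs] at *
    exact fun i hi => hω i (fun hh => hi (hΛ hh))
  have h1 : Zg β κ Λ η (fun ω => F ω * ind26 Λ Λ' ω) = ∑ ω ∈ confs Λ' η, wg β κ Λ ω * F ω := by
    unfold Zg
    symm
    have h2 : ∀ ω ∈ confs Λ' η, wg β κ Λ ω * F ω = wg β κ Λ ω * (F ω * ind26 Λ Λ' ω) := by
      intro ω hω
      rw [mem_confs] at hω
      unfold ind26
      rw [if_pos, mul_one]
      intro i hi hi'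
      rw [hω i hi', h i hi hi']
    rw [Finset.sum_congr rfl h2]
    refine Finset.sum_subset hsub ?_
    intro ω hω hω'
    unfold ind26
    rw [if_neg, mul_zero, mul_zero]
    intro hall
    apply hω'
    rw [mem_confs] at *
    intro i hi
    by_cases hiΛ : i ∈ Λ
    · rw [hall i hiΛ hi, h i hiΛ hi]
    · exact hω i hiΛ
  rw [h1]
  unfold Zg
  rw [Finset.mul_sum]
  refine Finset.sum_congr rfl fun ξ hξ => ?_
  have h3 := wg_swap (β := β) (κ := κ) hΛ hξ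
  have h4 := wg_pos β κ Λ' η
  rw [div_mul_eq_mul_div, eq_div_iff h4.ne']
  linear_combination (-F ξ) * h3

theorem avg_fixed_tt {β : ℝ} {κ : Site → ℝ} {Λ Λ' : Finset Site} {η : Cfg} (hβ : 0 ≤ β)
    (hκ : ∀ i, 0 ≤ κ i) (hΛ : Λ' ⊆ Λ) (h : ∀ i ∈ Λ, i ∉ Λ' → η i = true) {f : Cfg → ℝ}
    (hf : Monotone f) : avg β κ Λ η f ≤ avg β κ Λ' η f := by
  have key := avg_fkg (Λ := Λ) (η := η) hβ hκ hf (ind_mono26 (Λ := Λ) (Λ' := Λ'))
  have hpos : 0 < Zg β κ Λ η (fun _ => 1) := Zg_one_pos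
  have hpos' : 0 < Zg β κ Λ' η (fun _ => 1) := Zg_one_pos
  set q : ℝ := wg β κ Λ η / wg β κ Λ' η with hq
  have hqpos : 0 < q := div_pos (wg_pos _ _ _ _) (wg_pos _ _ _ _)
  have hD : avg β κ Λ η (ind26 Λ Λ') = q * Zg β κ Λ' η (fun _ => 1) / Zg β κ Λ η (fun _ => 1) := by
    have := Zg_ind26 (β := β) (κ := κ) hΛ h (fun _ => 1)
    simp only [one_mul] at this
    unfold avg
    rw [show (Zg β κ Λ η (ind26 Λ Λ')) = Zg β κ Λ η (fun ω => ind26 Λ Λ' ω) from rfl, this]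
  have hfD : avg β κ Λ η (fun ω => f ω * ind26 Λ Λ' ω) =
      q * Zg β κ Λ' η f / Zg β κ Λ η (fun _ => 1) := by
    unfold avg
    rw [Zg_ind26 hΛ h f]
  have hDpos : 0 < avg β κ Λ η (ind26 Λ Λ') := by
    rw [hD]; positivity
  have h4 : avg β κ Λ η (fun ω => f ω * ind26 Λ Λ' ω) =
      avg β κ Λ' η f * avg β κ Λ η (ind26 Λ Λ') := by
    rw [hfD, hD]
    unfold avg
    field_simp
  rw [h4] at key
  exact le_of_mul_le_mul_right key hDpos

/-- the event in terms of `Low` -/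
private def DD26 (n M : ℤ) (𝒲 : Finset (Finset (ℤ × ℤ))) (ω : Cfg) : Prop :=
  ∃ W ∈ 𝒲, ∀ p ∈ W, ∃ y, p.2 ≤ y ∧ Low n M ω (p.1, y)

private theorem dd_anti26 {n M : ℤ} {𝒲 : Finset (Finset (ℤ × ℤ))} {ω ω' : Cfg} (h : ω ≤ ω')
    (hD : DD26 n M 𝒲 ω') : DD26 n M 𝒲 ω := by
  obtain ⟨W, hW, h1⟩ := hD
  refine ⟨W, hW, fun p hp => ?_⟩
  obtain ⟨y, hy, h2⟩ := h1 p hp
  exact ⟨y, hy, low_anti h h2⟩

private theorem hts_iff26 {n M : ℤ} (hn : 0 ≤ n) (hM : 1 ≤ M) (𝒲 : Finset (Finset (ℤ × ℤ))) {ω : Cfg}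
    (h : ω ∈ confs (box n M) (eta 0)) : Hts n 𝒲 ω ↔ DD26 n M 𝒲 ω := by
  unfold Hts DD26
  constructor
  · rintro ⟨W, hW, h1⟩
    exact ⟨W, hW, fun p hp => (above_iff h hn hM).1 (h1 p hp)⟩
  · rintro ⟨W, hW, h1⟩
    exact ⟨W, hW, fun p hp => (above_iff h hn hM).2 (h1 p hp)⟩

private theorem avg_hts26 {β : ℝ} {n M M' : ℤ} (hn : 0 ≤ n) (hM' : 1 ≤ M') (hMM : M ≤ M')
    (𝒲 : Finset (Finset (ℤ × ℤ))) :
    avg β (kap 1) (ubox n M) (eta 0) (fun ω => if Hts n 𝒲 ω then 1 else 0) =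
      avg β (kap 1) (ubox n M) (eta 0) (fun ω => if DD26 n M' 𝒲 ω then 1 else 0) := by
  refine avg_congr fun ω hω => ?_
  have hω' : ω ∈ confs (box n M') (eta 0) := by
    rw [mem_confs] at hω ⊢
    intro i hi
    refine hω i fun h => hi ?_
    rw [mem_ubox] at h
    rw [mem_box]
    omega
  by_cases h : Hts n 𝒲 ω
  · rw [if_pos h, if_pos ((hts_iff26 hn hM' 𝒲 hω').1 h)]
  · rw [if_neg h, if_neg (fun h' => h ((hts_iff26 hn hM' 𝒲 hω').2 h'))]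

theorem wall_mono {β : ℝ} (hβ : 0 ≤ β) {n M M' : ℤ} (hn : 0 ≤ n) (hM : 1 ≤ M) (hMM : M ≤ M')
    (𝒲 : Finset (Finset (ℤ × ℤ))) :
    avg β (kap 1) (ubox n M) (eta 0) (fun ω => if Hts n 𝒲 ω then 1 else 0) ≤
      avg β (kap 1) (ubox n M') (eta 0) (fun ω => if Hts n 𝒲 ω then 1 else 0) := by
  have hM' : 1 ≤ M' := hM.trans hMM
  rw [avg_hts26 hn hM' hMM, avg_hts26 hn hM' le_rfl]
  have hdm : Monotone (fun ξ : Cfg => (1 : ℝ) - if DD26 n M' 𝒲 ξ then 1 else 0) := by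
    intro ξ ξ' h
    change (1 : ℝ) - (if DD26 n M' 𝒲 ξ then 1 else 0) ≤ 1 - if DD26 n M' 𝒲 ξ' then 1 else 0
    by_cases h1 : DD26 n M' 𝒲 ξ'
    · rw [if_pos h1, if_pos (dd_anti26 h h1)]
    · rw [if_neg h1]
      split_ifs <;> norm_num
  have hsub : ubox n M ⊆ ubox n M' := by
    intro i hi
    rw [mem_ubox] at hi ⊢
    omega
  have h1 := avg_fixed_tt (Λ := ubox n M') (Λ' := ubox n M) (η := eta 0) hβ
    (kap_nonneg zero_le_one) hsub (by
      intro i hi _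
      rw [mem_ubox] at hi
      unfold eta
      rw [decide_eq_true_eq]
      omega) hdm
  rw [avg_sub, avg_sub, avg_const, avg_const] at h1
  linarith

end Pool.Agent.Helper49.DX
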