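import Pool.Agent.Helper49.DX.Gu
import Pool.Agent.Helper49.DX.Gl
import Pool.Agent.Helper49.DX.Al

/-!
Block DX-NC: no contact of the interface with the defect line away from the ends.

Paper proof. `hq` from `t_small`. Union bound over `x`, `|x| ≤ N - R`, `p = (x, 0)`, `m = M.toNat`: `contact_le`, `g2_zero`
and `g2_low` (`M ≥ N ≥ 25` implies `2 sqrt N + 5 ≤ M`): with `λ = lam (exp (-β))`
`G2 a p * G2 p b / G2 a b ≤ (C² / c) λ^((x+N+1) + (N-x) - (2N+1)) * (2N+1)^(3/2) / ((x+N+1)^(3/2) (N-x)^(3/2))` and the power of `λ`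
is `λ^0 = 1`. One of `x+N+1`, `N-x` is at least `(2N+1)/2`, so this is at most
`C' (1/(x+N+1)^(3/2) + 1/(N-x)^(3/2))`; the sum over `|x| ≤ N - R` is at most `2 C' ∑_{k ≥ R} k^(-3/2)`, which is small
for large `R` (`Real.summable_nat_rpow_inv`, tails of a summable series).
-/

open Finset
open scoped Classical

namespace Pool.Agent.Helper49.DX

open Pool.Agent.Helper49.DL

private lemma pos_rpow89 {u : ℝ} (hu : 0 < u) : 0 < u ^ (3 / 2 : ℝ) := Real.rpow_pos_of_pos hu _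

private lemma half89 {u v : ℝ} (hu : 0 < u) (hv : 0 < v) (h : u ≤ v) :
    (u + v) ^ (3 / 2 : ℝ) / (u ^ (3 / 2 : ℝ) * v ^ (3 / 2 : ℝ)) ≤ 4 * (1 / u ^ (3 / 2 : ℝ)) := by
  have h1 : (u + v) ^ (3 / 2 : ℝ) ≤ (2 * v) ^ (3 / 2 : ℝ) :=
    Real.rpow_le_rpow (by positivity) (by linarith) (by norm_num)
  have h2 : (2 * v) ^ (3 / 2 : ℝ) = 2 ^ (3 / 2 : ℝ) * v ^ (3 / 2 : ℝ) :=
    Real.mul_rpow (by norm_num) hv.le
  have h3 : (2 : ℝ) ^ (3 / 2 : ℝ) ≤ 4 := by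
    calc (2 : ℝ) ^ (3 / 2 : ℝ) ≤ 2 ^ (2 : ℝ) :=
          Real.rpow_le_rpow_of_exponent_le (by norm_num) (by norm_num)
      _ = 4 := by norm_num
  have hv' := pos_rpow89 hv
  have hu' := pos_rpow89 hu
  rw [div_le_iff₀ (mul_pos hu' hv')]
  have h4 : 4 * (1 / u ^ (3 / 2 : ℝ)) * (u ^ (3 / 2 : ℝ) * v ^ (3 / 2 : ℝ)) =
      4 * v ^ (3 / 2 : ℝ) := by
    field_simp
  rw [h4]
  calc (u + v) ^ (3 / 2 : ℝ) ≤ 2 ^ (3 / 2 : ℝ) * v ^ (3 / 2 : ℝ) := by rw [← h2]; exact h1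
    _ ≤ 4 * v ^ (3 / 2 : ℝ) := mul_le_mul_of_nonneg_right h3 hv'.le

private lemma both89 {u v : ℝ} (hu : 0 < u) (hv : 0 < v) :
    (u + v) ^ (3 / 2 : ℝ) / (u ^ (3 / 2 : ℝ) * v ^ (3 / 2 : ℝ)) ≤
      4 * (1 / u ^ (3 / 2 : ℝ) + 1 / v ^ (3 / 2 : ℝ)) := by
  have hv' := pos_rpow89 hv
  have hu' := pos_rpow89 hu
  have a1 : 0 ≤ 1 / u ^ (3 / 2 : ℝ) := by positivity
  have a2 : 0 ≤ 1 / v ^ (3 / 2 : ℝ) := by positivity
  rcases le_total u v with h | h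
  · have := half89 hu hv h
    linarith
  · have := half89 hv hu h
    rw [add_comm v u, mul_comm (v ^ (3 / 2 : ℝ))] at this
    linarith

private lemma tail89 {ε : ℝ} (hε : 0 < ε) : ∃ R : ℕ, 1 ≤ R ∧ ∀ s : Finset ℕ, (∀ k ∈ s, R ≤ k) →
    ∑ k ∈ s, 1 / (k : ℝ) ^ (3 / 2 : ℝ) ≤ ε := by
  have hs : Summable (fun k : ℕ => 1 / (k : ℝ) ^ (3 / 2 : ℝ)) :=
    Real.summable_one_div_nat_rpow.2 (by norm_num)
  obtain ⟨s0, hs0⟩ := summable_iff_vanishing_norm.1 hs ε hε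
  refine ⟨s0.sup id + 1, by omega, fun s hk => ?_⟩
  have hd : Disjoint s s0 := by
    rw [Finset.disjoint_left]
    intro k h1 h2
    have h3 := hk k h1
    have h4 : k ≤ s0.sup id := Finset.le_sup (f := id) h2
    omega
  exact (Real.le_norm_self _).trans (hs0 s hd).le

private lemma sum_tail89 {ε : ℝ} {R : ℕ} (hR : ∀ s : Finset ℕ, (∀ k ∈ s, R ≤ k) →
    ∑ k ∈ s, 1 / (k : ℝ) ^ (3 / 2 : ℝ) ≤ ε) (I : Finset ℤ) (f : ℤ → ℤ)
    (hf : ∀ x ∈ I, (R : ℤ) ≤ f x) (hinj : Set.InjOn f I) :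
    ∑ x ∈ I, 1 / ((f x : ℤ) : ℝ) ^ (3 / 2 : ℝ) ≤ ε := by
  have h1 : ∑ x ∈ I, 1 / ((f x : ℤ) : ℝ) ^ (3 / 2 : ℝ) =
      ∑ k ∈ I.image (fun x => (f x).toNat), 1 / (k : ℝ) ^ (3 / 2 : ℝ) := by
    rw [Finset.sum_image]
    · refine Finset.sum_congr rfl fun x hx => ?_
      have h2 := hf x hx
      have h3 : (((f x).toNat : ℕ) : ℤ) = f x := Int.toNat_of_nonneg (by omega)
      have h4 : (((f x).toNat : ℕ) : ℝ) = ((f x : ℤ) : ℝ) := by
        have h5 : ((((f x).toNat : ℕ) : ℤ) : ℝ) = ((f x : ℤ) : ℝ) := by rw [h3]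
        rwa [Int.cast_natCast] at h5
      rw [h4]
    · intro x hx y hy hxy
      have h2 := hf x hx
      have h3 := hf y hy
      have hxy' : (f x).toNat = (f y).toNat := hxy
      exact hinj hx hy (by omega)
  rw [h1]
  refine hR _ fun k hk => ?_
  obtain ⟨x, hx, rfl⟩ := Finset.mem_image.1 hk
  have h2 := hf x hx
  show R ≤ (f x).toNat
  omega

private lemma sqrt89 {n : ℕ} (hn : 25 ≤ n) : 2 * Nat.sqrt n + 5 ≤ n := by
  have h := Nat.sqrt_le n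
  rcases Nat.lt_or_ge (Nat.sqrt n) 11 with h1 | h1
  · omega
  · nlinarith

theorem no_contact {β₁ β J : ℝ} (h0 : 0 ≤ β₁) (h : β₁ < β) (hm : 0 < mag β₁) (hJ : 1 < J) {t : ℝ}
    (ht : 0 < t) : ∃ R n : ℤ, 0 ≤ R ∧ ∀ N M : ℤ, n ≤ N → N ≤ M →
      avg β (kap J) (box N M) (eta 0)
        (fun ω => if ∃ x : ℤ, |x| ≤ N - R ∧ On N ω (x, 0) then 1 else 0) ≤ t := by
  have hβ : 0 < β := by linarith
  have hq := t_small h0 h hm
  obtain ⟨C, hC, hup⟩ := g2_zero h0 h hm hJ hq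
  obtain ⟨c, hc, hlow⟩ := g2_low hβ (by linarith : 0 < J) hq
  have ht0 : 0 < Real.exp (-β) := Real.exp_pos _
  have hl0 : 0 < lam (Real.exp (-β)) := lam_pos ht0 (t_lt_one ht0 hq)
  set l := lam (Real.exp (-β)) with hl
  have hε : 0 < t / (8 * (C ^ 2 / c)) := by positivity
  obtain ⟨R, hR1, hR⟩ := tail89 hε
  refine ⟨R, 25, by omega, fun N M hN hNM => ?_⟩
  obtain ⟨m, rfl⟩ := Int.eq_ofNat_of_zero_le (show 0 ≤ M by omega)
  obtain ⟨n, rfl⟩ := Int.eq_ofNat_of_zero_le (show 0 ≤ N by omega)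
  have hN0 : (0 : ℤ) ≤ (n : ℤ) := by omega
  have hM1 : (1 : ℤ) ≤ (m : ℤ) := by omega
  have hmem : ∀ x : ℤ, -(n : ℤ) - 1 ≤ x → x ≤ n → (x, (0 : ℤ)) ∈ PL (box n m) := by
    intro x h1 h2
    refine (mem_PL_box hN0 hM1).2 ⟨h1, h2, ?_, ?_⟩
    · show -(m : ℤ) ≤ 0
      omega
    · show (0 : ℤ) ≤ m
      omega
  set a : PV (box n m) := ⟨(-(n : ℤ) - 1, 0), hmem _ le_rfl (by omega)⟩ with ha
  set b : PV (box n m) := ⟨((n : ℤ), 0), hmem _ (by omega) le_rfl⟩ with hb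
  have hab := hlow n m (by omega) (by
    have := sqrt89 (n := n) (by omega)
    rw [Int.toNat_natCast]
    omega) a b rfl rfl
  set I : Finset ℤ := Finset.Icc (-((n : ℤ) - R)) ((n : ℤ) - R) with hI
  -- each term
  have hterm : ∀ x ∈ I, avg β (kap J) (box n m) (eta 0) (fun ω => if On n ω (x, 0) then 1 else 0) ≤
      4 * (C ^ 2 / c) * (1 / (((x + n + 1 : ℤ)) : ℝ) ^ (3 / 2 : ℝ) +
        1 / (((n - x : ℤ)) : ℝ) ^ (3 / 2 : ℝ)) := by
    intro x hx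
    rw [hI, Finset.mem_Icc] at hx
    set p : PV (box n m) := ⟨(x, 0), hmem x (by omega) (by omega)⟩ with hp
    have h1 := contact_le hN0 hM1 hβ.le (by linarith : 0 ≤ J) (a := a) (b := b) rfl rfl p
    refine h1.trans ?_
    obtain ⟨h2, h3⟩ := hup n m (by omega) (by omega) a b p rfl rfl rfl
    have h2' := h2 (by show -(n : ℤ) ≤ x; omega)
    have h3' := h3 (by show x ≤ (n : ℤ) - 1; omega)
    rw [G2_comm b p] at h3'
    have hu : (0 : ℝ) < ((x + n + 1 : ℤ) : ℝ) := by exact_mod_cast (by omega : 0 < x + n + 1)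
    have hv : (0 : ℝ) < ((n - x : ℤ) : ℝ) := by exact_mod_cast (by omega : 0 < (n : ℤ) - x)
    have e1 : ((p.1.1 : ℤ) : ℝ) + ((n : ℤ) : ℝ) + 1 = ((x + n + 1 : ℤ) : ℝ) := by
      rw [hp]; push_cast; ring
    have e2 : ((n : ℤ) : ℝ) - ((p.1.1 : ℤ) : ℝ) = ((n - x : ℤ) : ℝ) := by
      rw [hp]; push_cast; ring
    rw [e1] at h2'
    rw [e2] at h3'
    have e3 : 2 * (((n : ℤ) : ℝ)) + 1 = ((x + n + 1 : ℤ) : ℝ) + ((n - x : ℤ) : ℝ) := by
      push_cast; ring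
    rw [e3] at hab
    have e4 : (p.1.1 + (n : ℤ) + 1).toNat + ((n : ℤ) - p.1.1).toNat = (2 * (n : ℤ) + 1).toNat := by
      rw [hp]
      show (x + (n : ℤ) + 1).toNat + ((n : ℤ) - x).toNat = (2 * (n : ℤ) + 1).toNat
      omega
    set u := ((x + n + 1 : ℤ) : ℝ) with hudef
    set v := ((n - x : ℤ) : ℝ) with hvdef
    have hu' := pos_rpow89 hu
    have hv' := pos_rpow89 hv
    have huv' := pos_rpow89 (add_pos hu hv)
    have hlow0 : 0 < c * l ^ (2 * (n : ℤ) + 1).toNat / (u + v) ^ (3 / 2 : ℝ) := by positivity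
    have h5 : G2 β J n m a p * G2 β J n m p b ≤
        (C * l ^ (p.1.1 + (n : ℤ) + 1).toNat / u ^ (3 / 2 : ℝ)) *
          (C * l ^ ((n : ℤ) - p.1.1).toNat / v ^ (3 / 2 : ℝ)) :=
      mul_le_mul h2' h3' (G2_nonneg _ _) (by positivity)
    have h6 : G2 β J n m a p * G2 β J n m p b / G2 β J n m a b ≤
        (C * l ^ (p.1.1 + (n : ℤ) + 1).toNat / u ^ (3 / 2 : ℝ)) *
          (C * l ^ ((n : ℤ) - p.1.1).toNat / v ^ (3 / 2 : ℝ)) /
          (c * l ^ (2 * (n : ℤ) + 1).toNat / (u + v) ^ (3 / 2 : ℝ)) :=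
      div_le_div₀ (by positivity) h5 hlow0 hab
    refine h6.trans ?_
    have h7 : (C * l ^ (p.1.1 + (n : ℤ) + 1).toNat / u ^ (3 / 2 : ℝ)) *
          (C * l ^ ((n : ℤ) - p.1.1).toNat / v ^ (3 / 2 : ℝ)) /
          (c * l ^ (2 * (n : ℤ) + 1).toNat / (u + v) ^ (3 / 2 : ℝ)) =
        C ^ 2 / c * ((u + v) ^ (3 / 2 : ℝ) / (u ^ (3 / 2 : ℝ) * v ^ (3 / 2 : ℝ))) := by
      rw [← e4, pow_add]
      have hlp1 : l ^ (p.1.1 + (n : ℤ) + 1).toNat ≠ 0 := (pow_pos hl0 _).ne'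
      have hlp2 : l ^ ((n : ℤ) - p.1.1).toNat ≠ 0 := (pow_pos hl0 _).ne'
      field_simp
    rw [h7]
    have h8 := mul_le_mul_of_nonneg_left (both89 hu hv) (by positivity : 0 ≤ C ^ 2 / c)
    refine h8.trans (le_of_eq ?_)
    ring
  -- the union bound
  have hunion : avg β (kap J) (box n m) (eta 0)
      (fun ω => if ∃ x : ℤ, |x| ≤ (n : ℤ) - R ∧ On n ω (x, 0) then 1 else 0) ≤
      ∑ x ∈ I, avg β (kap J) (box n m) (eta 0) (fun ω => if On n ω (x, 0) then 1 else 0) := by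
    rw [← avg_sum]
    refine avg_mono fun ω _ => ?_
    by_cases hex : ∃ x : ℤ, |x| ≤ (n : ℤ) - R ∧ On n ω (x, 0)
    · rw [if_pos hex]
      obtain ⟨x, hx, hon⟩ := hex
      have hxI : x ∈ I := by
        rw [hI, Finset.mem_Icc]
        exact abs_le.1 hx
      have h1 := Finset.single_le_sum (f := fun x : ℤ => if On n ω (x, 0) then (1 : ℝ) else 0)
        (fun y _ => by positivity) hxI
      have h2 : (if On n ω (x, 0) then (1 : ℝ) else 0) = 1 := if_pos hon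
      have h1' : (if On n ω (x, 0) then (1 : ℝ) else 0) ≤
        ∑ x ∈ I, (if On n ω (x, 0) then (1 : ℝ) else 0) := h1
      rw [h2] at h1'
      exact h1'
    · rw [if_neg hex]
      exact Finset.sum_nonneg fun x _ => by positivity
  refine hunion.trans ?_
  refine (Finset.sum_le_sum hterm).trans ?_
  rw [← Finset.mul_sum, Finset.sum_add_distrib]
  have s1 := sum_tail89 hR I (fun x => x + n + 1) (fun x hx => by
    rw [hI, Finset.mem_Icc] at hx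
    omega) (fun x _ y _ hxy => by
      have : x + (n : ℤ) + 1 = y + n + 1 := hxy
      omega)
  have s2 := sum_tail89 hR I (fun x => n - x) (fun x hx => by
    rw [hI, Finset.mem_Icc] at hx
    omega) (fun x _ y _ hxy => by
      have : (n : ℤ) - x = n - y := hxy
      omega)
  have h9 : 4 * (C ^ 2 / c) * (t / (8 * (C ^ 2 / c)) + t / (8 * (C ^ 2 / c))) = t := by
    field_simp
    ring
  rw [← h9]
  exact mul_le_mul_of_nonneg_left (add_le_add s1 s2) (by positivity)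

end Pool.Agent.Helper49.DX
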