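import Pool.Agent.Helper49.DX.Cl1
import Pool.Agent.Helper49.DX.Cl2

/-!
Block DX-PROF: the inverse of the boundary correlation matrix.

Paper proof.
* (1) `opp c 0 (Xm t x L Φ) = Xm t x L (opp p q Φ)` with `(p, q) = pqs t x c L`: induction on `L` (`Xm` is
  `W (V W)^L`; it is convenient to prove first `Xm t x (L + 1) Φ = Xm t x L (Vm x (Wm t Φ))`), `opp_Wm`,
  `opp_Vm`.
* (2) vacuum: `an j (fun _ => 1) = 0`, `cr j (fun _ => 1) = fun c => sp (c j)`.
* (3) `ip 1 (cr j Φ) = 0`, `ip 1 (an j Φ) = ip (sp (c j)) Φ` (substitute `c → flt j c`, `c → fle j c`).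
* (4) anticommutation: `an w (cr j Φ) + cr j (an w Φ) = (if w = j then 1 else 0) • Φ`; hence
  `ip 1 (an w (cr j Φ)) = if w = j then ip 1 Φ else 0` by (3). (Only the last formula is needed. It can also
  be checked directly from the definitions.)
* (5) `ip (sp (c w)) (X (opp p q 1)) = ip 1 (an w (X (opp p q 1))) = ip 1 (an w (opp c 0 (X 1))) =
  c w * ip 1 (X 1)`, and the left side is `∑ u, p u * ip (sp (c w)) (X (sp (c u)))` by (2) (`X` is linear).
  So `∑ u, GS u w * p u = c w` (`ip 1 (X 1) > 0` since all weights are positive): this is `gs_mul`.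
* (6) `profile`: the map `c ↦ p = (pqs t x c L).1` is linear, given by a matrix `H`; (5) says `Gᵀ H = 1`
  with `Gᵀ w u = GS u w`, so `H Gᵀ = 1` (`Matrix.mul_eq_one_comm`); the column `v` of `Gᵀ` is
  `w ↦ GS v w`.
-/

open Finset

namespace Pool.Agent.Helper49.DX

open Pool.Agent.Helper49.DL

variable {n : ℕ}

private lemma prof_Xm_succ (t : ℝ) (x : Fin n → ℝ) (L : ℕ) (Φ : Col n → ℝ) :
    Xm t x (L + 1) Φ = Xm t x L (Vm x (Wm t Φ)) := by
  induction L with
  | zero => rfl
  | succ L ih =>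
    change Wm t (Vm x (Xm t x (L + 1) Φ)) = Wm t (Vm x (Xm t x L (Vm x (Wm t Φ))))
    rw [ih]

private lemma prof_comm {t : ℝ} (ht : 0 < t) (ht1 : t < 1) {x : Fin n → ℝ} (hx : ∀ j, 0 < x j)
    (L : ℕ) (c : Fin n → ℝ) (Φ : Col n → ℝ) :
    opp c (fun _ => 0) (Xm t x L Φ) = Xm t x L (opp (pqs t x c L).1 (pqs t x c L).2 Φ) := by
  induction L generalizing Φ with
  | zero =>
    change opp c (fun _ => 0) (Wm t Φ) = Wm t _
    rw [opp_Wm ht ht1]
    rfl
  | succ L ih =>
    rw [prof_Xm_succ, ih, prof_Xm_succ, opp_Vm (fun j => (hx j).ne'), opp_Wm ht ht1]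
    rfl

private lemma prof_flt_flt (j : Fin n) (c : Col n) : flt j (flt j c) = c := by
  funext i
  unfold flt
  by_cases h : i < j
  · simp [h]
  · simp [h]

private lemma prof_fle_fle (j : Fin n) (c : Col n) : fle j (fle j c) = c := by
  funext i
  unfold fle
  by_cases h : i ≤ j
  · simp [h]
  · simp [h]

private lemma prof_sum_flt (j : Fin n) (f : Col n → ℝ) : ∑ s, f (flt j s) = ∑ s, f s :=
  Equiv.sum_comp (Function.Involutive.toPerm (flt j) (prof_flt_flt j)) f

private lemma prof_sum_fle (j : Fin n) (f : Col n → ℝ) : ∑ s, f (fle j s) = ∑ s, f s :=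
  Equiv.sum_comp (Function.Involutive.toPerm (fle j) (prof_fle_fle j)) f

private lemma prof_flt_ne {w j : Fin n} (h : w ≠ j) (s : Col n) : flt j s w = fle j s w := by
  unfold flt fle
  by_cases h1 : w < j
  · rw [if_pos h1, if_pos h1.le]
  · rw [if_neg h1, if_neg]
    intro h2
    exact h1 (lt_of_le_of_ne h2 h)

private lemma prof_flt_self (j : Fin n) (s : Col n) : flt j s j = s j := by
  unfold flt
  rw [if_neg (lt_irrefl _)]

private lemma prof_fle_self (j : Fin n) (s : Col n) : fle j s j = !(s j) := by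
  unfold fle
  rw [if_pos le_rfl]

private lemma prof_cr (w j : Fin n) (Ψ : Col n → ℝ) :
    ∑ s, sp (s w) * cr j Ψ s = if w = j then ∑ s, Ψ s else 0 := by
  have h1 : ∑ s, sp (s w) * (sp (s j) * Ψ (flt j s)) = ∑ s, sp (flt j s w) * (sp (s j) * Ψ s) := by
    rw [← prof_sum_flt j (fun s => sp (flt j s w) * (sp (s j) * Ψ s))]
    apply Finset.sum_congr rfl
    intro s _
    rw [prof_flt_flt, prof_flt_self]
  have h2 : ∑ s, sp (s w) * (sp (s j) * Ψ (fle j s)) =
      ∑ s, -(sp (fle j s w) * (sp (s j) * Ψ s)) := by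
    rw [← prof_sum_fle j (fun s => -(sp (fle j s w) * (sp (s j) * Ψ s)))]
    apply Finset.sum_congr rfl
    intro s _
    rw [prof_fle_fle, prof_fle_self, sp_not]
    ring
  have h3 : ∑ s, sp (s w) * cr j Ψ s =
      (∑ s, sp (flt j s w) * (sp (s j) * Ψ s) + ∑ s, -(sp (fle j s w) * (sp (s j) * Ψ s))) / 2 := by
    rw [← h1, ← h2, ← Finset.sum_add_distrib, Finset.sum_div]
    apply Finset.sum_congr rfl
    intro s _
    unfold cr xi ze
    ring
  rw [h3, ← Finset.sum_add_distrib]
  by_cases h : w = j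
  · subst h
    rw [if_pos rfl, Finset.sum_div]
    apply Finset.sum_congr rfl
    intro s _
    rw [prof_flt_self, prof_fle_self, sp_not]
    have := sp_mul_self (s w)
    linear_combination (Ψ s) * this
  · rw [if_neg h]
    rw [Finset.sum_eq_zero, zero_div]
    intro s _
    rw [prof_flt_ne h]
    ring

private lemma prof_ip (w : Fin n) (c : Fin n → ℝ) (Ψ : Col n → ℝ) :
    ip (fun s => sp (s w)) (opp c (fun _ => 0) Ψ) = c w * ip (fun _ => 1) Ψ := by
  unfold ip opp
  have h1 : ∀ s : Col n, sp (s w) * ∑ j, (c j * cr j Ψ s + 0 * an j Ψ s) =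
      ∑ j, c j * (sp (s w) * cr j Ψ s) := by
    intro s
    rw [Finset.mul_sum]
    apply Finset.sum_congr rfl
    intro j _
    ring
  simp only [h1]
  rw [Finset.sum_comm]
  simp only [← Finset.mul_sum, prof_cr, one_mul]
  simp

private lemma prof_one (p q : Fin n → ℝ) :
    opp p q (fun _ => 1) = fun s => ∑ j, p j * sp (s j) := by
  funext s
  unfold opp cr an xi ze
  apply Finset.sum_congr rfl
  intro j _
  ring

private lemma prof_lin (t : ℝ) (x : Fin n → ℝ) (L : ℕ) (p : Fin n → ℝ) (F : Fin n → Col n → ℝ) :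
    Xm t x L (fun s => ∑ u, p u * F u s) = fun s => ∑ u, p u * Xm t x L (F u) s := by
  have hW : ∀ F : Fin n → Col n → ℝ,
      Wm t (fun s => ∑ u, p u * F u s) = fun s => ∑ u, p u * Wm t (F u) s := by
    intro F
    funext s
    unfold Wm
    rw [Finset.mul_sum]
    apply Finset.sum_congr rfl
    intro u _
    ring
  have hV : ∀ F : Fin n → Col n → ℝ,
      Vm x (fun s => ∑ u, p u * F u s) = fun s => ∑ u, p u * Vm x (F u) s := by
    intro F
    funext s
    unfold Vm
    simp only [Finset.mul_sum]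
    rw [Finset.sum_comm]
    apply Finset.sum_congr rfl
    intro u _
    apply Finset.sum_congr rfl
    intro s' _
    ring
  induction L with
  | zero => exact hW F
  | succ L ih =>
    change Wm t (Vm x (Xm t x L (fun s => ∑ u, p u * F u s))) = _
    rw [ih, hV, hW]
    rfl

private lemma prof_factor {y : ℝ} (h0 : 0 < y) (h1 : y < 1) (a b : Bool) :
    0 < 1 + y * (sp a * sp b) := by
  cases a <;> cases b <;> simp only [sp_true, sp_false] <;> linarith

private lemma prof_pos {t : ℝ} (ht : 0 < t) (ht1 : t < 1) {x : Fin n → ℝ} (hx : ∀ j, 0 < x j)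
    (hx1 : ∀ j, x j < 1) (L : ℕ) (s : Col n) : 0 < Xm t x L (fun _ => 1) s := by
  have hw : ∀ s : Col n, 0 < wc t s := by
    intro s
    unfold wc
    apply Finset.prod_pos
    intro j _
    split_ifs with h
    · exact prof_factor ht ht1 _ _
    · exact one_pos
  induction L generalizing s with
  | zero =>
    change 0 < wc t s * 1
    rw [mul_one]
    exact hw s
  | succ L ih =>
    change 0 < wc t s * ∑ c' : Col n, (∏ j, (1 + x j * (sp (s j) * sp (c' j)))) *
      Xm t x L (fun _ => 1) c'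
    apply mul_pos (hw s)
    apply Finset.sum_pos
    · intro c' _
      apply mul_pos _ (ih c')
      apply Finset.prod_pos
      intro j _
      exact prof_factor (hx j) (hx1 j) _ _
    · exact Finset.univ_nonempty

theorem gs_mul {t : ℝ} (ht : 0 < t) (ht1 : t < 1) {x : Fin n → ℝ} (hx : ∀ j, 0 < x j)
    (hx1 : ∀ j, x j < 1) (L : ℕ) (c : Fin n → ℝ) (w : Fin n) :
    ∑ u, GS t x L u w * (pqs t x c L).1 u = c w := by
  have hZ : 0 < ip (fun _ => 1) (Xm t x L (fun _ => 1)) := by
    unfold ip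
    apply Finset.sum_pos
    · intro s _
      rw [one_mul]
      exact prof_pos ht ht1 hx hx1 L s
    · exact Finset.univ_nonempty
  have h1 := prof_ip w c (Xm t x L (fun _ => 1))
  rw [prof_comm ht ht1 hx, prof_one, prof_lin t x L _ (fun u s => sp (s u))] at h1
  have h2 : ip (fun s => sp (s w))
      (fun s => ∑ u, (pqs t x c L).1 u * Xm t x L (fun s => sp (s u)) s) =
      ∑ u, (pqs t x c L).1 u * ip (fun s => sp (s w)) (Xm t x L (fun s => sp (s u))) := by
    unfold ip
    simp only [Finset.mul_sum]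
    rw [Finset.sum_comm]
    apply Finset.sum_congr rfl
    intro u _
    apply Finset.sum_congr rfl
    intro s _
    ring
  rw [h2] at h1
  have h3 : ∑ u, GS t x L u w * (pqs t x c L).1 u =
      (∑ u, (pqs t x c L).1 u * ip (fun s => sp (s w)) (Xm t x L (fun s => sp (s u)))) /
        ip (fun _ => 1) (Xm t x L (fun _ => 1)) := by
    rw [Finset.sum_div]
    apply Finset.sum_congr rfl
    intro u _
    unfold GS
    ring
  rw [h3, h1]
  exact mul_div_cancel_right₀ _ hZ.ne'

theorem profile {t : ℝ} (ht : 0 < t) (ht1 : t < 1) {x : Fin n → ℝ} (hx : ∀ j, 0 < x j)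
    (hx1 : ∀ j, x j < 1) (L : ℕ) (e : Fin n → ℝ) :
    (pqs t x (fun w => ∑ v, e v * GS t x L v w) L).1 = e := by
  let G : (Fin n → ℝ) →ₗ[ℝ] (Fin n → ℝ) := Matrix.mulVecLin (Matrix.of fun w u => GS t x L u w)
  have hG : ∀ (p : Fin n → ℝ) (w : Fin n), G p w = ∑ u, GS t x L u w * p u := by
    intro p w
    simp [G, Matrix.mulVec, dotProduct]
  have hsurj : Function.Surjective G := by
    intro c
    refine ⟨(pqs t x c L).1, ?_⟩
    funext w
    rw [hG]
    exact gs_mul ht ht1 hx hx1 L c w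
  have hinj : Function.Injective G := LinearMap.injective_iff_surjective.mpr hsurj
  apply hinj
  funext w
  rw [hG, hG, gs_mul ht ht1 hx hx1 L]
  apply Finset.sum_congr rfl
  intro u _
  ring

end Pool.Agent.Helper49.DX
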