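import Pool.Agent.Helper49.DX.Dbl

/-!
Block DX-SL (finite combinatorics): the Simon-Lieb inequality.

Paper proof. Write `F = G ∪ R`, `G` the edges of `F` inside `S`, `R` the others:
`Z (pr a p) = ∑_R w(R) Z_S (pr a p ∆ gbd R)`, `Z_S = ZG A (xr A x S)` (`R` over the sets of edges
not inside `S`; `Z_S T` only contains sets of edges inside `S` with nonzero weight). Fix `R` and put
`T = pr a p ∆ gbd R`. Claim:
`Z_S T * Z_S ∅ ≤ ∑_{e ∈ R} ∑_{u ∈ A e ∩ S, A e ⊄ S} Z_S (pr a u) * Z_S (T ∆ pr a u)`.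
If `T` is not contained in `S` the left side is `0`. Otherwise `T = {a} ∆ (gbd R ∩ S)` (`p ∉ S`).
If `a ∈ gbd R` some `e ∈ R` has `a ∈ A e` and the term `u = a` equals the left side. Otherwise
`a ∈ T`; by `dbl` (for the weights `xr`), in `ω ⊇ D`, `gbd D = T`, `a` is connected to another vertex
`b ∈ T`, `b ∈ gbd R ∩ S`, so `b ∈ A e` for some `e ∈ R`, and `cnt ω T = cnt ω (T ∆ pr a b)`
(`comp_parity`, `path_of_cn`, `cnt_shift`); sum over the possible `b`. (`ω` may be restricted to sets of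
edges inside `S`, for the others the weight vanishes or is harmless.)
Multiply by `w(R)` and sum over `R`: for `e` and `u` fixed, `A e = {u, v}` with `v ∉ S`, and
`T ∆ pr a u = pr v p ∆ gbd (R \ {e})`, so the sum over `R ∋ e` is at most
`x e * Z_S (pr a u) * ∑_{R'} w(R') Z_S (pr v p ∆ gbd R') = x e * Z_S (pr a u) * Z (pr v p)`.
-/

set_option linter.unusedSectionVars false

open Finset

namespace Pool.Agent.Helper49.DX

open Pool.Agent.Helper49.DL

section

variable {V ι : Type*} [Fintype V] [DecidableEq V] [Fintype ι] [DecidableEq ι]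

omit [Fintype ι] [DecidableEq ι] in
private theorem mem_gbd52 (A : ι → Finset V) (F : Finset ι) (v : V) :
    v ∈ gbd A F ↔ Odd (F.filter (fun e => v ∈ A e)).card := by
  unfold gbd
  rw [Finset.mem_filter]
  exact ⟨fun h => h.2, fun h => ⟨Finset.mem_univ _, h⟩⟩

omit [Fintype ι] [DecidableEq ι] in
private theorem exists_edge52 (A : ι → Finset V) {F : Finset ι} {v : V} (h : v ∈ gbd A F) :
    ∃ e ∈ F, v ∈ A e := by
  rw [mem_gbd52] at h
  have h1 : (F.filter (fun e => v ∈ A e)).Nonempty := by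
    rw [← Finset.card_pos]
    exact h.pos
  obtain ⟨e, he⟩ := h1
  rw [Finset.mem_filter] at he
  exact ⟨e, he.1, he.2⟩

omit [Fintype ι] in
private theorem gbd_single52 (A : ι → Finset V) (e : ι) : gbd A {e} = A e := by
  ext v
  rw [mem_gbd52]
  by_cases h : v ∈ A e
  · have : ({e} : Finset ι).filter (fun e => v ∈ A e) = {e} := by
      ext f
      rw [Finset.mem_filter, Finset.mem_singleton]
      constructor
      · exact fun h1 => h1.1
      · rintro rfl
        exact ⟨rfl, h⟩
    rw [this, Finset.card_singleton]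
    simp [h]
  · have : ({e} : Finset ι).filter (fun e => v ∈ A e) = ∅ := by
      ext f
      rw [Finset.mem_filter, Finset.mem_singleton]
      constructor
      · rintro ⟨rfl, h1⟩
        exact absurd h1 h
      · intro h1
        simp at h1
    rw [this, Finset.card_empty]
    simp [h]

private theorem gbd_union52 (A : ι → Finset V) {G R : Finset ι} (h : Disjoint G R) :
    gbd A (G ∪ R) = symmDiff (gbd A G) (gbd A R) := by
  rw [← gbd_symmDiff, h.symmDiff_eq_sup, Finset.sup_eq_union]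

omit [Fintype V] in
private theorem split52 (A : ι → Finset V) (S : Finset V) (f : Finset ι → ℝ) :
    ∑ F : Finset ι, f F = ∑ R ∈ (univ.filter (fun e => ¬ A e ⊆ S)).powerset,
      ∑ G ∈ (univ.filter (fun e => A e ⊆ S)).powerset, f (R ∪ G) := by
  rw [← Finset.sum_product']
  refine Finset.sum_nbij' (fun F => (F.filter (fun e => ¬ A e ⊆ S), F.filter (fun e => A e ⊆ S)))
    (fun q => q.1 ∪ q.2) ?_ ?_ ?_ ?_ ?_
  · intro F _
    rw [Finset.mem_product, Finset.mem_powerset, Finset.mem_powerset]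
    exact ⟨Finset.filter_subset_filter _ (Finset.subset_univ _),
      Finset.filter_subset_filter _ (Finset.subset_univ _)⟩
  · intro q _
    exact Finset.mem_univ _
  · intro F _
    ext e
    simp only [Finset.mem_union, Finset.mem_filter]
    tauto
  · intro q hq
    rw [Finset.mem_product, Finset.mem_powerset, Finset.mem_powerset] at hq
    have h1 : ∀ e ∈ q.1, ¬ A e ⊆ S := fun e he => (Finset.mem_filter.1 (hq.1 he)).2
    have h2 : ∀ e ∈ q.2, A e ⊆ S := fun e he => (Finset.mem_filter.1 (hq.2 he)).2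
    refine Prod.ext ?_ ?_
    · ext e
      simp only [Finset.mem_union, Finset.mem_filter]
      constructor
      · rintro ⟨h3 | h3, h4⟩
        · exact h3
        · exact absurd (h2 e h3) h4
      · exact fun h3 => ⟨Or.inl h3, h1 e h3⟩
    · ext e
      simp only [Finset.mem_union, Finset.mem_filter]
      constructor
      · rintro ⟨h3 | h3, h4⟩
        · exact absurd h4 (h1 e h3)
        · exact h3
      · exact fun h3 => ⟨Or.inr h3, h2 e h3⟩
  · intro F _
    congr 1
    ext e
    simp only [Finset.mem_union, Finset.mem_filter]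
    tauto

private theorem zs52 (A : ι → Finset V) (x : ι → ℝ) (S T : Finset V) :
    ZG A (xr A x S) T = ∑ G ∈ (univ.filter (fun e => A e ⊆ S)).powerset,
      if gbd A G = T then ∏ e ∈ G, x e else 0 := by
  unfold ZG
  rw [Finset.sum_filter]
  symm
  have h1 : ∀ G ∈ (univ.filter (fun e => A e ⊆ S)).powerset,
      (if gbd A G = T then ∏ e ∈ G, x e else 0) =
        if gbd A G = T then ∏ e ∈ G, xr A x S e else 0 := by
    intro G hG
    rw [Finset.mem_powerset] at hG
    split_ifs
    · refine Finset.prod_congr rfl fun e he => ?_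
      unfold xr
      rw [if_pos (Finset.mem_filter.1 (hG he)).2]
    · rfl
  rw [Finset.sum_congr rfl h1]
  refine Finset.sum_subset (Finset.subset_univ _) fun G _ hG => ?_
  split_ifs
  · rw [Finset.mem_powerset, Finset.not_subset] at hG
    obtain ⟨e, he, hne⟩ := hG
    refine Finset.prod_eq_zero he ?_
    unfold xr
    rw [if_neg]
    intro h
    exact hne (Finset.mem_filter.2 ⟨Finset.mem_univ _, h⟩)
  · rfl

/-- the decomposition along the edges not inside `S` -/
private theorem decomp52 (A : ι → Finset V) (x : ι → ℝ) (S T : Finset V) :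
    ZG A x T = ∑ R ∈ (univ.filter (fun e => ¬ A e ⊆ S)).powerset,
      (∏ e ∈ R, x e) * ZG A (xr A x S) (symmDiff T (gbd A R)) := by
  have h0 : ZG A x T = ∑ F : Finset ι, if gbd A F = T then ∏ e ∈ F, x e else 0 := by
    unfold ZG
    rw [Finset.sum_filter]
  rw [h0, split52 A S]
  refine Finset.sum_congr rfl fun R hR => ?_
  rw [zs52, Finset.mul_sum]
  refine Finset.sum_congr rfl fun G hG => ?_
  rw [Finset.mem_powerset] at hR hG
  have hd : Disjoint R G := by
    rw [Finset.disjoint_left]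
    intro e h1 h2
    exact (Finset.mem_filter.1 (hR h1)).2 (Finset.mem_filter.1 (hG h2)).2
  rw [gbd_union52 A hd, Finset.prod_union hd]
  have hiff : symmDiff (gbd A R) (gbd A G) = T ↔ gbd A G = symmDiff T (gbd A R) := by
    constructor
    · intro h
      rw [← h, symmDiff_comm (gbd A R) (gbd A G), symmDiff_symmDiff_cancel_right]
    · intro h
      rw [h, symmDiff_comm T, symmDiff_symmDiff_cancel_left]
  by_cases h : gbd A G = symmDiff T (gbd A R)
  · rw [if_pos h, if_pos (hiff.2 h)]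
  · rw [if_neg h, if_neg fun h' => h (hiff.1 h'), mul_zero]

private theorem xr_nonneg52 (A : ι → Finset V) {x : ι → ℝ} (hx : ∀ e, 0 ≤ x e) (S : Finset V) (e : ι) :
    0 ≤ xr A x S e := by
  unfold xr
  split_ifs
  · exact hx e
  · exact le_rfl

private theorem xr_le52 (A : ι → Finset V) {x : ι → ℝ} (hx1 : ∀ e, x e ≤ 1) (S : Finset V) (e : ι) :
    xr A x S e ≤ 1 := by
  unfold xr
  split_ifs
  · exact hx1 e
  · exact zero_le_one

private theorem zs_zero52 (A : ι → Finset V) (x : ι → ℝ) {S T : Finset V} (h : ¬ T ⊆ S) :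
    ZG A (xr A x S) T = 0 := by
  rw [zs52]
  refine Finset.sum_eq_zero fun G hG => ?_
  rw [if_neg]
  intro h1
  apply h
  intro v hv
  rw [← h1] at hv
  obtain ⟨e, he, hve⟩ := exists_edge52 A hv
  exact (Finset.mem_filter.1 ((Finset.mem_powerset.1 hG) he)).2 hve

/-- the switching inequality for a fixed set of edges not inside `S` -/
private theorem switch52 (A : ι → Finset V) (hA : ∀ e, (A e).card = 2) {x : ι → ℝ}
    (hx : ∀ e, 0 ≤ x e) (hx1 : ∀ e, x e ≤ 1) (S : Finset V) {a p : V} (ha : a ∈ S) (hp : p ∉ S)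
    (R : Finset ι) :
    ZG A (xr A x S) (symmDiff (pr a p) (gbd A R)) * ZG A (xr A x S) ∅ ≤
      ∑ e ∈ R, ∑ u ∈ A e ∩ S, ZG A (xr A x S) (pr a u) *
        ZG A (xr A x S) (symmDiff (symmDiff (pr a p) (gbd A R)) (pr a u)) := by
  set T : Finset V := symmDiff (pr a p) (gbd A R) with hT
  set X : ι → ℝ := xr A x S with hX
  have hX0 : ∀ e, 0 ≤ X e := xr_nonneg52 A hx S
  have hX1 : ∀ e, X e ≤ 1 := xr_le52 A hx1 S
  have hnn : ∀ (_ : ι) (u : V), 0 ≤ ZG A X (pr a u) * ZG A X (symmDiff T (pr a u)) := fun _ u =>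
    mul_nonneg (ZG_nonneg hX0 _) (ZG_nonneg hX0 _)
  have hap : a ≠ p := fun h => hp (h ▸ ha)
  by_cases hTS : T ⊆ S
  swap
  · rw [hX, zs_zero52 A x hTS, zero_mul]
    exact Finset.sum_nonneg fun e _ => Finset.sum_nonneg fun u _ => hnn e u
  by_cases haR : a ∈ gbd A R
  · obtain ⟨e, he, hae⟩ := exists_edge52 A haR
    have h1 : ZG A X (pr a a) * ZG A X (symmDiff T (pr a a)) = ZG A X T * ZG A X ∅ := by
      have hb : (∅ : Finset V) = ⊥ := rfl
      rw [pr_self, hb, symmDiff_bot, mul_comm]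
    rw [← h1]
    refine (Finset.single_le_sum (f := fun u => ZG A X (pr a u) * ZG A X (symmDiff T (pr a u)))
      (fun u _ => hnn e u) (Finset.mem_inter.2 ⟨hae, ha⟩)).trans ?_
    exact Finset.single_le_sum
      (f := fun e => ∑ u ∈ A e ∩ S, ZG A X (pr a u) * ZG A X (symmDiff T (pr a u)))
      (fun e _ => Finset.sum_nonneg fun u _ => hnn e u) he
  -- the main case
  have haT : a ∈ T := by
    rw [hT, Finset.mem_symmDiff]
    left
    refine ⟨?_, haR⟩
    rw [pr_ne hap]
    exact Finset.mem_insert_self _ _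
  have hstep : ∀ ω : Finset ι, ∀ D ∈ ω.powerset.filter (fun D => gbd A D = T),
      ww X ω D * cnt A ω T ≤
        ∑ e ∈ R, ∑ u ∈ A e ∩ S, ww X ω D * cnt A ω (symmDiff T (pr a u)) := by
    intro ω D hD
    rw [Finset.mem_filter, Finset.mem_powerset] at hD
    obtain ⟨hDω, hgD⟩ := hD
    have haD : a ∈ gbd A D := by rw [hgD]; exact haT
    obtain ⟨b, hb, hba, hcn⟩ := comp_parity A hA haD
    rw [hgD] at hb
    have hbS : b ∈ S := hTS hb
    have hbp : b ≠ p := fun h => hp (h ▸ hbS)
    have hbR : b ∈ gbd A R := by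
      rw [hT, Finset.mem_symmDiff] at hb
      rcases hb with ⟨h1, -⟩ | ⟨h1, -⟩
      · rw [pr_ne hap, Finset.mem_insert, Finset.mem_singleton] at h1
        rcases h1 with h1 | h1
        · exact absurd h1 hba
        · exact absurd h1 hbp
      · exact h1
    obtain ⟨e, he, hbe⟩ := exists_edge52 A hbR
    obtain ⟨γ, hγ, hgγ⟩ := path_of_cn A hA hcn
    have hcnt : cnt A ω T = cnt A ω (symmDiff T (pr a b)) := by
      rw [cnt_shift A (hγ.trans hDω) T, hgγ]
    have hw : 0 ≤ ww X ω D := ww_nonneg hX0 hX1 ω D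
    have hn : ∀ u, 0 ≤ ww X ω D * cnt A ω (symmDiff T (pr a u)) := fun u =>
      mul_nonneg hw (Nat.cast_nonneg _)
    rw [hcnt]
    refine (Finset.single_le_sum (f := fun u => ww X ω D * cnt A ω (symmDiff T (pr a u)))
      (fun u _ => hn u) (Finset.mem_inter.2 ⟨hbe, hbS⟩)).trans ?_
    exact Finset.single_le_sum
      (f := fun e => ∑ u ∈ A e ∩ S, ww X ω D * cnt A ω (symmDiff T (pr a u)))
      (fun e _ => Finset.sum_nonneg fun u _ => hn u) he
  have hb0 : (∅ : Finset V) = ⊥ := rfl
  have hL : ZG A X T * ZG A X ∅ = ∑ ω : Finset ι, ∑ D ∈ ω.powerset.filter (fun D => gbd A D = T),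
      ww X ω D * cnt A ω T := by
    rw [dbl A X T ∅, hb0, symmDiff_bot]
  have hRr : ∀ u, ZG A X (pr a u) * ZG A X (symmDiff T (pr a u)) =
      ∑ ω : Finset ι, ∑ D ∈ ω.powerset.filter (fun D => gbd A D = T),
        ww X ω D * cnt A ω (symmDiff T (pr a u)) := by
    intro u
    rw [mul_comm, dbl A X (symmDiff T (pr a u)) (pr a u), symmDiff_symmDiff_cancel_right]
  rw [hL]
  have hR2 : ∑ e ∈ R, ∑ u ∈ A e ∩ S, ZG A X (pr a u) * ZG A X (symmDiff T (pr a u)) =
      ∑ ω : Finset ι, ∑ D ∈ ω.powerset.filter (fun D => gbd A D = T),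
        ∑ e ∈ R, ∑ u ∈ A e ∩ S, ww X ω D * cnt A ω (symmDiff T (pr a u)) := by
    have e1 : ∀ e ∈ R, ∑ u ∈ A e ∩ S, ZG A X (pr a u) * ZG A X (symmDiff T (pr a u)) =
        ∑ ω : Finset ι, ∑ D ∈ ω.powerset.filter (fun D => gbd A D = T),
          ∑ u ∈ A e ∩ S, ww X ω D * cnt A ω (symmDiff T (pr a u)) := by
      intro e _
      rw [Finset.sum_congr rfl fun u _ => hRr u, Finset.sum_comm]
      refine Finset.sum_congr rfl fun ω _ => ?_
      rw [Finset.sum_comm]
    rw [Finset.sum_congr rfl e1, Finset.sum_comm]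
    refine Finset.sum_congr rfl fun ω _ => ?_
    rw [Finset.sum_comm]
  rw [hR2]
  exact Finset.sum_le_sum fun ω _ => Finset.sum_le_sum fun D hD => hstep ω D hD

theorem simon_lieb (A : ι → Finset V) (hA : ∀ e, (A e).card = 2) {x : ι → ℝ} (hx : ∀ e, 0 ≤ x e)
    (hx1 : ∀ e, x e ≤ 1) (S : Finset V) {a p : V} (ha : a ∈ S) (hp : p ∉ S) :
    ZG A x (pr a p) * ZG A (xr A x S) ∅ ≤
      ∑ e, ∑ u ∈ A e ∩ S, ∑ v ∈ A e \ S, x e * (ZG A (xr A x S) (pr a u) * ZG A x (pr v p)) := by
  set X : ι → ℝ := xr A x S with hX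
  set out : Finset ι := univ.filter (fun e => ¬ A e ⊆ S) with hout
  have hX0 : ∀ e, 0 ≤ X e := xr_nonneg52 A hx S
  have hw : ∀ R : Finset ι, 0 ≤ ∏ e ∈ R, x e := fun R => Finset.prod_nonneg fun e _ => hx e
  -- the value of a term
  have hterm : ∀ R ∈ out.powerset, ∀ e ∈ R, ∀ u ∈ A e ∩ S,
      (∏ f ∈ R, x f) * (ZG A X (pr a u) * ZG A X (symmDiff (symmDiff (pr a p) (gbd A R)) (pr a u))) =
        ∑ v ∈ A e \ S, x e * (ZG A X (pr a u) *
          ((∏ f ∈ R.erase e, x f) * ZG A X (symmDiff (pr v p) (gbd A (R.erase e))))) := by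
    intro R hR e he u hu
    rw [Finset.mem_powerset] at hR
    have hne : ¬ A e ⊆ S := (Finset.mem_filter.1 (hR he)).2
    rw [Finset.mem_inter] at hu
    obtain ⟨v, hv, hvS⟩ := Finset.not_subset.1 hne
    have huv : u ≠ v := fun h => hvS (h ▸ hu.2)
    have hAe : A e = {u, v} := by
      symm
      apply Finset.eq_of_subset_of_card_le
      · intro w hw
        rw [Finset.mem_insert, Finset.mem_singleton] at hw
        rcases hw with rfl | rfl
        · exact hu.1
        · exact hv
      · rw [hA e, Finset.card_pair huv]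
    have hsd : A e \ S = {v} := by
      ext w
      rw [Finset.mem_sdiff, hAe, Finset.mem_insert, Finset.mem_singleton]
      constructor
      · rintro ⟨rfl | rfl, h2⟩
        · exact absurd hu.2 h2
        · rfl
      · rintro rfl
        exact ⟨Or.inr rfl, hvS⟩
    rw [hsd, Finset.sum_singleton]
    have hpr : (∏ f ∈ R, x f) = x e * ∏ f ∈ R.erase e, x f := (Finset.mul_prod_erase R x he).symm
    have hgb : gbd A R = symmDiff (pr u v) (gbd A (R.erase e)) := by
      have h1 : ({e} : Finset ι) ∪ R.erase e = R := by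
        rw [← Finset.insert_eq, Finset.insert_erase he]
      have h2 : Disjoint ({e} : Finset ι) (R.erase e) := by
        rw [Finset.disjoint_singleton_left]
        exact Finset.notMem_erase e R
      conv_lhs => rw [← h1]
      rw [gbd_union52 A h2, gbd_single52, pr_ne huv, hAe]
    have hsym : symmDiff (symmDiff (pr a p) (gbd A R)) (pr a u) =
        symmDiff (pr v p) (gbd A (R.erase e)) := by
      rw [hgb]
      have h1 : symmDiff (pr a u) (symmDiff (pr a p) (pr u v)) = pr v p := by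
        rw [← symmDiff_assoc, pr_comm a u, pr_trans, symmDiff_comm, pr_comm u v, pr_trans]
      calc symmDiff (symmDiff (pr a p) (symmDiff (pr u v) (gbd A (R.erase e)))) (pr a u)
          = symmDiff (symmDiff (pr a u) (symmDiff (pr a p) (pr u v))) (gbd A (R.erase e)) := by
            rw [symmDiff_comm _ (pr a u), ← symmDiff_assoc (pr a p), ← symmDiff_assoc (pr a u)]
        _ = _ := by rw [h1]
    rw [hsym, hpr]
    ring
  have hLHS : ZG A x (pr a p) * ZG A X ∅ ≤ ∑ R ∈ out.powerset, ∑ e ∈ R, ∑ u ∈ A e ∩ S,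
      ∑ v ∈ A e \ S, x e * (ZG A X (pr a u) *
        ((∏ f ∈ R.erase e, x f) * ZG A X (symmDiff (pr v p) (gbd A (R.erase e))))) := by
    rw [decomp52 A x S (pr a p), Finset.sum_mul]
    refine Finset.sum_le_sum fun R hR => ?_
    rw [mul_assoc]
    refine (mul_le_mul_of_nonneg_left (switch52 A hA hx hx1 S ha hp R) (hw R)).trans ?_
    rw [Finset.mul_sum]
    refine (Finset.sum_congr rfl fun e he => ?_).le
    rw [Finset.mul_sum]
    exact Finset.sum_congr rfl fun u hu => hterm R hR e he u hu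
  refine hLHS.trans ?_
  -- exchange the sums
  have hswap : ∑ R ∈ out.powerset, ∑ e ∈ R, ∑ u ∈ A e ∩ S,
      ∑ v ∈ A e \ S, x e * (ZG A X (pr a u) *
        ((∏ f ∈ R.erase e, x f) * ZG A X (symmDiff (pr v p) (gbd A (R.erase e))))) =
      ∑ e : ι, ∑ R ∈ out.powerset.filter (fun R => e ∈ R), ∑ u ∈ A e ∩ S,
      ∑ v ∈ A e \ S, x e * (ZG A X (pr a u) *
        ((∏ f ∈ R.erase e, x f) * ZG A X (symmDiff (pr v p) (gbd A (R.erase e))))) := by
    have e1 : ∀ R ∈ out.powerset, ∑ e ∈ R, ∑ u ∈ A e ∩ S,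
        ∑ v ∈ A e \ S, x e * (ZG A X (pr a u) *
          ((∏ f ∈ R.erase e, x f) * ZG A X (symmDiff (pr v p) (gbd A (R.erase e))))) =
        ∑ e : ι, if e ∈ R then ∑ u ∈ A e ∩ S,
          ∑ v ∈ A e \ S, x e * (ZG A X (pr a u) *
            ((∏ f ∈ R.erase e, x f) * ZG A X (symmDiff (pr v p) (gbd A (R.erase e))))) else 0 := by
      intro R _
      rw [← Finset.sum_filter]
      congr 1
      ext e
      simp
    rw [Finset.sum_congr rfl e1, Finset.sum_comm]
    refine Finset.sum_congr rfl fun e _ => ?_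
    rw [Finset.sum_filter]
  rw [hswap]
  refine Finset.sum_le_sum fun e _ => ?_
  rw [Finset.sum_comm]
  refine Finset.sum_le_sum fun u _ => ?_
  rw [Finset.sum_comm]
  refine Finset.sum_le_sum fun v _ => ?_
  rw [← Finset.mul_sum, ← Finset.mul_sum]
  refine mul_le_mul_of_nonneg_left (mul_le_mul_of_nonneg_left ?_ (ZG_nonneg hX0 _)) (hx e)
  rw [decomp52 A x S (pr v p)]
  -- the sum over the sets containing `e`
  have hinj : Set.InjOn (fun R : Finset ι => R.erase e)
      (out.powerset.filter (fun R => e ∈ R) : Finset (Finset ι)) := by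
    intro R hR R' hR' h
    rw [Finset.mem_coe, Finset.mem_filter] at hR hR'
    have h' : R.erase e = R'.erase e := h
    rw [← Finset.insert_erase hR.2, ← Finset.insert_erase hR'.2, h']
  rw [← Finset.sum_image (f := fun R' : Finset ι => (∏ f ∈ R', x f) *
    ZG A X (symmDiff (pr v p) (gbd A R'))) hinj]
  refine Finset.sum_le_sum_of_subset_of_nonneg ?_ fun R _ _ => mul_nonneg (hw R) (ZG_nonneg hX0 _)
  intro R' hR'
  rw [Finset.mem_image] at hR'
  obtain ⟨R, hR, rfl⟩ := hR'
  rw [Finset.mem_filter, Finset.mem_powerset] at hR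
  rw [Finset.mem_powerset]
  exact (Finset.erase_subset e R).trans hR.1

end

end Pool.Agent.Helper49.DX
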