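import Pool.Agent.Helper49.DX.Tg2
import Pool.Agent.Helper49.DX.Sl
import Pool.Agent.Helper49.DX.Rp

/-!
Block DX-SD: decomposition of the two-point function at a column.

Paper proof. `m : ℕ`, the box `box N m`, all rows `-m, ..., m`, `n = 2 m + 1`, `r0 = -m`, `rw0_eq`.
* `g2_left`: `S = Rect N m (-N - 1) L (-m) (2 m + 1)` are the columns `-N - 1, ..., x - 1` where `x = p.1.1 = L - N`. `p ∉ S`,
  `a ∈ S`. `simon_lieb`: the edges with one endpoint in `S` and one not in `S` are the horizontal edges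
  `Sum.inr (x, y)`, `-m ≤ y ≤ m`, between `u = (x - 1, y)` and `v = (x, y)`, of weight at most `1`; the inner sums
  have one term. `ZG (xr ...) (pr a u) = ZG (xr ...) ∅ * GS t (xs ...) L ⟨m⟩ v` by `rect_GS`. Divide by
  `ZG (xr ...) ∅ * ZG ∅ > 0`.
* `g2_right`: the same with `S = Rect N m (x + 1) L (-m) (2 m + 1)`, `x + 1 + L = N`; in `rect_GS` the first column is
  `x + 1` and the last one is `N`: `GS L v ⟨m⟩ = GS L ⟨m⟩ v` by `GS_symm`, `pr_comm`.
-/

open Finset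
open scoped Classical

namespace Pool.Agent.Helper49.DX

open Pool.Agent.Helper49.DL

private theorem sum_cut74 {V ι : Type*} [DecidableEq V] [Fintype ι] [DecidableEq ι] (A : ι → Finset V)
    (S : Finset V) {n : ℕ} (E : Fin n → ι) (U W : Fin n → V) (hE : Function.Injective E)
    (hA : ∀ j, A (E j) = {U j, W j}) (hU : ∀ j, U j ∈ S) (hW : ∀ j, W j ∉ S)
    (hoff : ∀ e, (∀ j, E j ≠ e) → A e ⊆ S ∨ A e ∩ S = ∅) (g : ι → V → V → ℝ) :
    ∑ e, ∑ u ∈ A e ∩ S, ∑ v ∈ A e \ S, g e u v = ∑ j, g (E j) (U j) (W j) := by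
  have h1 : ∑ e, ∑ u ∈ A e ∩ S, ∑ v ∈ A e \ S, g e u v =
      ∑ e ∈ Finset.univ.image E, ∑ u ∈ A e ∩ S, ∑ v ∈ A e \ S, g e u v := by
    symm
    refine Finset.sum_subset (Finset.subset_univ _) fun e _ he => ?_
    have h2 : ∀ j, E j ≠ e := fun j hj => he (Finset.mem_image.2 ⟨j, Finset.mem_univ _, hj⟩)
    rcases hoff e h2 with h3 | h3
    · refine Finset.sum_eq_zero fun u _ => ?_
      rw [Finset.sdiff_eq_empty_iff_subset.2 h3, Finset.sum_empty]
    · rw [h3, Finset.sum_empty]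
  rw [h1, Finset.sum_image fun i _ j _ h => hE h]
  refine Finset.sum_congr rfl fun j _ => ?_
  have h2 : A (E j) ∩ S = {U j} := by
    ext w
    rw [Finset.mem_inter, hA, Finset.mem_insert, Finset.mem_singleton, Finset.mem_singleton]
    constructor
    · rintro ⟨rfl | rfl, h⟩
      · rfl
      · exact absurd h (hW j)
    · rintro rfl
      exact ⟨Or.inl rfl, hU j⟩
  have h3 : A (E j) \ S = {W j} := by
    ext w
    rw [Finset.mem_sdiff, hA, Finset.mem_insert, Finset.mem_singleton]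
    constructor
    · rintro ⟨rfl | rfl, h⟩
      · exact absurd (hU j) h
      · rfl
    · rintro rfl
      exact ⟨Or.inr rfl, hW j⟩
  rw [h2, h3, Finset.sum_singleton, Finset.sum_singleton]

private theorem cut_main74 {N : ℤ} {m : ℕ} {β J : ℝ} (hβ : 0 < β) (hJ : 0 < J) (S : Finset (PV (box N m)))
    {a p : PV (box N m)} (ha : a ∈ S) (hp : p ∉ S) (E : Fin (2 * m + 1) → LB (box N m))
    (U W : Fin (2 * m + 1) → PV (box N m)) (hE : Function.Injective E)
    (hA : ∀ j, dA (E j) = {U j, W j}) (hU : ∀ j, U j ∈ S) (hW : ∀ j, W j ∉ S)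
    (hoff : ∀ e, (∀ j, E j ≠ e) → dA e ⊆ S ∨ dA e ∩ S = ∅) (G : Fin (2 * m + 1) → ℝ)
    (hG : ∀ j, ZG dA (xr dA (xe β (kap J)) S) (pr a (U j)) = ZG dA (xr dA (xe β (kap J)) S) ∅ * G j) :
    G2 β J N m a p ≤ ∑ j, G j * G2 β J N m (W j) p := by
  have hx : ∀ e : LB (box N m), 0 ≤ xe β (kap J) e := fun e => (xe_pos (kap J) e).le
  have hX : ∀ e : LB (box N m), 0 ≤ xr dA (xe β (kap J)) S e := fun e => by
    unfold xr
    split_ifs
    · exact hx e
    · exact le_rfl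
  have h1 := simon_lieb (dA (Λ := box N m)) (fun e => WI2.dA_card e) hx (fun e => xe_le_one hβ.le hJ.le e) S ha hp
  rw [sum_cut74 (dA (Λ := box N m)) S E U W hE hA hU hW hoff (fun e u v => xe β (kap J) e *
    (ZG dA (xr dA (xe β (kap J)) S) (pr a u) * ZG dA (xe β (kap J)) (pr v p)))] at h1
  have h2 : ∑ j, xe β (kap J) (E j) * (ZG dA (xr dA (xe β (kap J)) S) (pr a (U j)) *
      ZG dA (xe β (kap J)) (pr (W j) p)) ≤
      (∑ j, G j * ZG dA (xe β (kap J)) (pr (W j) p)) * ZG dA (xr dA (xe β (kap J)) S) ∅ := by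
    rw [Finset.sum_mul]
    refine Finset.sum_le_sum fun j _ => ?_
    calc _ ≤ 1 * (ZG dA (xr dA (xe β (kap J)) S) (pr a (U j)) * ZG dA (xe β (kap J)) (pr (W j) p)) :=
          mul_le_mul_of_nonneg_right (xe_le_one hβ.le hJ.le _) (mul_nonneg (ZG_nonneg hX _) (ZG_nonneg hx _))
      _ = _ := by
          rw [hG]
          ring
  have h3 : ZG dA (xe β (kap J)) (pr a p) ≤ ∑ j, G j * ZG dA (xe β (kap J)) (pr (W j) p) :=
    le_of_mul_le_mul_right (h1.trans h2) (ZG_pos hX)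
  have h4 : ∑ j, G j * G2 β J N m (W j) p =
      (∑ j, G j * ZG dA (xe β (kap J)) (pr (W j) p)) / ZG (dA (Λ := box N m)) (xe β (kap J)) ∅ := by
    rw [Finset.sum_div]
    refine Finset.sum_congr rfl fun j _ => ?_
    unfold G2
    rw [mul_div_assoc]
  rw [h4]
  unfold G2
  exact div_le_div_of_nonneg_right h3 (ZG_nonneg hx _)

private theorem off_aux74 {N : ℤ} {m : ℕ} (c : ℤ) (e : LB (box N m))
    (he : ∀ y (h : (c, y) ∈ vb (box N m)), (Sum.inr ⟨(c, y), h⟩ : LB (box N m)) ≠ e) :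
    (∀ p ∈ dA e, p.1.1 < c) ∨ (∀ p ∈ dA e, c ≤ p.1.1) := by
  have hm : ∀ p : PV (box N m), p ∈ dA e → p.1 = dp e ∨ p.1 = dq e := fun p hp => by
    unfold dA at hp
    exact (Finset.mem_filter.1 hp).2
  rcases e with ⟨⟨x, y⟩, hi⟩ | ⟨⟨x, y⟩, hi⟩
  · have h1 : ∀ p : PV (box N m), p ∈ dA (Sum.inl ⟨(x, y), hi⟩ : LB (box N m)) → p.1.1 = x := fun p hp => by
      rcases hm p hp with h | h
      · rw [h]
        rfl
      · rw [h]
        show x - 0 = x
        ring
    rcases lt_or_ge x c with h | h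
    · left
      intro p hp
      rw [h1 p hp]
      exact h
    · right
      intro p hp
      rw [h1 p hp]
      exact h
  · have h1 : ∀ p : PV (box N m), p ∈ dA (Sum.inr ⟨(x, y), hi⟩ : LB (box N m)) →
        p.1.1 = x ∨ p.1.1 = x - 1 := fun p hp => by
      rcases hm p hp with h | h
      · left
        rw [h]
        rfl
      · right
        rw [h]
        rfl
    rcases lt_trichotomy x c with h | h | h
    · left
      intro p hp
      rcases h1 p hp with h2 | h2 <;> omega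
    · subst h
      exact absurd rfl (he y hi)
    · right
      intro p hp
      rcases h1 p hp with h2 | h2 <;> omega

private theorem off_fin74 {N : ℤ} {m : ℕ} (hm : 1 ≤ m) {c : ℤ}
    (hvb : ∀ j : Fin (2 * m + 1), (c, (j : ℤ) - m) ∈ vb (box N m)) (e : LB (box N m))
    (he : ∀ j : Fin (2 * m + 1), (Sum.inr ⟨(c, (j : ℤ) - m), hvb j⟩ : LB (box N m)) ≠ e) :
    (∀ p ∈ dA e, p.1.1 < c) ∨ (∀ p ∈ dA e, c ≤ p.1.1) := by
  refine off_aux74 c e fun y hy => ?_
  have h1 := (mem_vb_box (by omega)).1 hy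
  have h2 : ((y + m).toNat : ℤ) = y + m := Int.toNat_of_nonneg (by omega)
  have h3 : (y + m).toNat < 2 * m + 1 := by omega
  have h4 := he ⟨(y + m).toNat, h3⟩
  have h5 : ((((⟨(y + m).toNat, h3⟩ : Fin (2 * m + 1)) : ℕ) : ℤ) - m) = y := by
    show (((y + m).toNat : ℕ) : ℤ) - m = y
    omega
  intro h6
  apply h4
  rw [← h6]
  congr 1
  exact Subtype.ext (Prod.ext rfl h5)

private theorem inj_E74 {N : ℤ} {m : ℕ} {c : ℤ}
    (hvb : ∀ j : Fin (2 * m + 1), (c, (j : ℤ) - m) ∈ vb (box N m)) :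
    Function.Injective fun j : Fin (2 * m + 1) => (Sum.inr ⟨(c, (j : ℤ) - m), hvb j⟩ : LB (box N m)) := by
  intro i j h
  have h1 := congrArg (fun z : Site => z.2) (congrArg Subtype.val (Sum.inr.inj h))
  have h2 : (i : ℤ) - m = (j : ℤ) - m := h1
  exact Fin.ext (by omega)

private theorem dA_E74 {N : ℤ} {m : ℕ} {c y : ℤ} (h : (c, y) ∈ vb (box N m)) {u w : PV (box N m)}
    (hu : u.1 = (c, y)) (hw : w.1 = (c - 1, y)) :
    dA (Sum.inr ⟨(c, y), h⟩ : LB (box N m)) = {u, w} := by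
  rw [WI2.dA_pair]
  have h1 : (⟨dp (Sum.inr ⟨(c, y), h⟩ : LB (box N m)), WI2.dp_mem_PL _⟩ : PV (box N m)) = u :=
    Subtype.ext hu.symm
  have h2 : (⟨dq (Sum.inr ⟨(c, y), h⟩ : LB (box N m)), WI2.dq_mem_PL _⟩ : PV (box N m)) = w := by
    apply Subtype.ext
    rw [hw]
    refine Prod.ext rfl ?_
    show y - 0 = y
    ring
  rw [h1, h2]

theorem g2_left {N : ℤ} {m : ℕ} (hN : 0 ≤ N) (hm : 1 ≤ m) {β J : ℝ} (hβ : 0 < β) (hJ : 0 < J)
    {a : PV (box N m)} (ha : a.1 = (-N - 1, 0)) (p : PV (box N m)) {L : ℕ}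
    (hL : (L : ℤ) = p.1.1 + N) (q : Fin (2 * m + 1) → PV (box N m))
    (hq : ∀ v, (q v).1 = (p.1.1, (v : ℤ) - m)) :
    G2 β J N m a p ≤ ∑ v : Fin (2 * m + 1),
      GS (Real.exp (-β)) (xs (Real.exp (-β)) (Real.exp (-(β * J))) m) L ⟨m, by omega⟩ v *
        G2 β J N m (q v) p := by
  have hp0 := (mem_PL_box hN (by omega)).1 p.2
  have hvb : ∀ j : Fin (2 * m + 1), (p.1.1, (j : ℤ) - m) ∈ vb (box N m) := fun j =>
    (mem_vb_box (by omega)).2 (by have := j.2; omega)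
  have hPL : ∀ j : Fin (2 * m + 1), (p.1.1 - 1, (j : ℤ) - m) ∈ PL (box N m) := fun j =>
    (mem_PL_box hN (by omega)).2 (by have := j.2; dsimp only; omega)
  have hS : ∀ z : PV (box N m), z ∈ Rect N m (-N - 1) L (-(m : ℤ)) (2 * m + 1) ↔ z.1.1 < p.1.1 := fun z => by
    have hz := (mem_PL_box hN (by omega)).1 z.2
    unfold Rect
    rw [Finset.mem_filter]
    constructor
    · rintro ⟨-, h1, h2⟩
      omega
    · intro h
      refine ⟨Finset.mem_univ _, ⟨by omega, by omega⟩, ⟨by omega, ?_⟩⟩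
      push_cast
      omega
  refine cut_main74 hβ hJ (Rect N m (-N - 1) L (-(m : ℤ)) (2 * m + 1)) (a := a) (p := p) ?_ ?_
    (fun j => Sum.inr ⟨(p.1.1, (j : ℤ) - m), hvb j⟩) (fun j => ⟨(p.1.1 - 1, (j : ℤ) - m), hPL j⟩) q
    (inj_E74 hvb) ?_ ?_ ?_ ?_ _ ?_
  · rw [hS, ha]
    show -N - 1 < p.1.1
    omega
  · rw [hS]
    omega
  · intro j
    rw [Finset.pair_comm]
    exact dA_E74 (hvb j) (hq j) rfl
  · intro j
    rw [hS]
    show p.1.1 - 1 < p.1.1
    omega
  · intro j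
    rw [hS, hq]
    show ¬ p.1.1 < p.1.1
    omega
  · intro e he
    rcases off_fin74 hm hvb e he with h | h
    · left
      intro z hz
      rw [hS]
      exact h z hz
    · right
      rw [Finset.eq_empty_iff_forall_notMem]
      intro z hz
      rw [Finset.mem_inter, hS] at hz
      have := h z hz.1
      omega
  · intro j
    have h := rect_GS (N := N) (M := m) hN (by omega) hβ hJ (c0 := -N - 1) (r0 := -(m : ℤ)) (L := L)
      (n := 2 * m + 1) le_rfl (by omega) le_rfl (by push_cast; omega) ⟨m, by omega⟩ j (a := a)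
      (b := ⟨(p.1.1 - 1, (j : ℤ) - m), hPL j⟩) (by
        rw [ha]
        refine Prod.ext rfl ?_
        show (0 : ℤ) = -(m : ℤ) + (m : ℤ)
        omega) (by
        refine Prod.ext ?_ ?_
        · show p.1.1 - 1 = -N - 1 + L
          omega
        · show (j : ℤ) - m = -(m : ℤ) + j
          omega)
    rw [rw0_eq] at h
    exact h

theorem g2_right {N : ℤ} {m : ℕ} (hN : 0 ≤ N) (hm : 1 ≤ m) {β J : ℝ} (hβ : 0 < β) (hJ : 0 < J)
    {b : PV (box N m)} (hb : b.1 = (N, 0)) (p : PV (box N m)) {L : ℕ}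
    (hL : (L : ℤ) + 1 = N - p.1.1) (q : Fin (2 * m + 1) → PV (box N m))
    (hq : ∀ v, (q v).1 = (p.1.1, (v : ℤ) - m)) :
    G2 β J N m b p ≤ ∑ v : Fin (2 * m + 1),
      GS (Real.exp (-β)) (xs (Real.exp (-β)) (Real.exp (-(β * J))) m) L ⟨m, by omega⟩ v *
        G2 β J N m (q v) p := by
  have hp0 := (mem_PL_box hN (by omega)).1 p.2
  have hvb : ∀ j : Fin (2 * m + 1), (p.1.1 + 1, (j : ℤ) - m) ∈ vb (box N m) := fun j =>
    (mem_vb_box (by omega)).2 (by have := j.2; omega)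
  have hPL : ∀ j : Fin (2 * m + 1), (p.1.1 + 1, (j : ℤ) - m) ∈ PL (box N m) := fun j =>
    (mem_PL_box hN (by omega)).2 (by have := j.2; dsimp only; omega)
  have hS : ∀ z : PV (box N m), z ∈ Rect N m (p.1.1 + 1) L (-(m : ℤ)) (2 * m + 1) ↔ p.1.1 + 1 ≤ z.1.1 := fun z => by
    have hz := (mem_PL_box hN (by omega)).1 z.2
    unfold Rect
    rw [Finset.mem_filter]
    constructor
    · rintro ⟨-, h1, h2⟩
      omega
    · intro h
      refine ⟨Finset.mem_univ _, ⟨by omega, by omega⟩, ⟨by omega, ?_⟩⟩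
      push_cast
      omega
  refine cut_main74 hβ hJ (Rect N m (p.1.1 + 1) L (-(m : ℤ)) (2 * m + 1)) (a := b) (p := p) ?_ ?_
    (fun j => Sum.inr ⟨(p.1.1 + 1, (j : ℤ) - m), hvb j⟩) (fun j => ⟨(p.1.1 + 1, (j : ℤ) - m), hPL j⟩) q
    (inj_E74 hvb) ?_ ?_ ?_ ?_ _ ?_
  · rw [hS, hb]
    show p.1.1 + 1 ≤ N
    omega
  · rw [hS]
    omega
  · intro j
    refine dA_E74 (hvb j) rfl ?_
    rw [hq]
    refine Prod.ext ?_ rfl
    show p.1.1 = p.1.1 + 1 - 1
    omega
  · intro j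
    rw [hS]
  · intro j
    rw [hS, hq]
    show ¬ p.1.1 + 1 ≤ p.1.1
    omega
  · intro e he
    rcases off_fin74 hm hvb e he with h | h
    · right
      rw [Finset.eq_empty_iff_forall_notMem]
      intro z hz
      rw [Finset.mem_inter, hS] at hz
      have := h z hz.1
      omega
    · left
      intro z hz
      rw [hS]
      exact h z hz
  · intro j
    have h := rect_GS (N := N) (M := m) hN (by omega) hβ hJ (c0 := p.1.1 + 1) (r0 := -(m : ℤ)) (L := L)
      (n := 2 * m + 1) (by omega) (by omega) le_rfl (by push_cast; omega) j ⟨m, by omega⟩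
      (a := ⟨(p.1.1 + 1, (j : ℤ) - m), hPL j⟩) (b := b) (by
        refine Prod.ext rfl ?_
        show (j : ℤ) - m = -(m : ℤ) + j
        omega) (by
        rw [hb]
        refine Prod.ext ?_ ?_
        · show N = p.1.1 + 1 + L
          omega
        · show (0 : ℤ) = -(m : ℤ) + (m : ℤ)
          omega)
    rw [rw0_eq, pr_comm, GS_symm] at h
    exact h

end Pool.Agent.Helper49.DX
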