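import Pool.Agent.Helper49.DX.Hs

/-!
Block DX-SH: averaging over shifts, and the upper bound of `excursion` for shifted families.

Paper proofs.
* `shift_sum`: `∑_{s < S} (f (k + s - L) - f (k + s))` telescopes: it is `∑_{j < L} f (k - L + j) - ∑_{j < L} f (k + S - L + j)`
  (induct on `S`, or on `L`: for `L = 1` it telescopes, and `f (k + s - (L + 1)) - f (k + s)` is the sum of the terms for `L` and for `1`), at most `L`
  as `0 ≤ f ≤ 1`. (In the induction on `L`: `f (k+s-L-1) - f (k+s) = (f (k+s-L-1) - f (k+s-L)) + (f (k+s-L) - f (k+s))`, the first part telescopes to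
  `f (k-L-1) - f (k+S-L-1) ≤ 1`.)
* `shift_choice`: sum `shift_sum` over `i ∈ T`: `∑_{s < S} ∑_{i ∈ T} (..) ≤ T.card * L`; some `s` has at most the average
  (`Finset.exists_le_of_sum_le` or by contradiction).
* `upper_hs`: the second clause of `excursion` for the family `shf s 𝒲` (`hs_shf`); `∅ ∉ shf s 𝒲`; `(shf s 𝒲).biUnion id` is the image of `𝒲.biUnion id` under the
  injective map `p ↦ (p.1, p.2 + s)` (`Finset.sum_image`).
-/

open Finset
open scoped Classical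

namespace Pool.Agent.Helper49.DX

open Pool.Agent.Helper49.DL

theorem shift_sum {f : ℤ → ℝ} (hf0 : ∀ k, 0 ≤ f k) (hf1 : ∀ k, f k ≤ 1) (k : ℤ) (L S : ℕ) :
    ∑ s ∈ Finset.range S, (f (k + s - L) - f (k + s)) ≤ L := by
  induction L with
  | zero => simp
  | succ L ih =>
    have h1 : ∑ s ∈ Finset.range S, (f (k + s - ((L + 1 : ℕ) : ℤ)) - f (k + s)) =
        ∑ s ∈ Finset.range S, (f (k + s - L - 1) - f (k + ((s + 1 : ℕ) : ℤ) - L - 1)) +
          ∑ s ∈ Finset.range S, (f (k + s - L) - f (k + s)) := by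
      rw [← Finset.sum_add_distrib]
      refine Finset.sum_congr rfl fun s _ => ?_
      have e1 : k + (s : ℤ) - ((L + 1 : ℕ) : ℤ) = k + s - L - 1 := by push_cast; ring
      have e2 : k + ((s + 1 : ℕ) : ℤ) - L - 1 = k + s - L := by push_cast; ring
      rw [e1, e2]
      ring
    have h2 : ∑ s ∈ Finset.range S, (f (k + s - L - 1) - f (k + ((s + 1 : ℕ) : ℤ) - L - 1)) ≤ 1 := by
      rw [Finset.sum_range_sub' (fun s : ℕ => f (k + (s : ℤ) - L - 1)) S]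
      have := hf1 (k + ((0 : ℕ) : ℤ) - L - 1)
      have := hf0 (k + (S : ℤ) - L - 1)
      linarith
    have h3 : ((L + 1 : ℕ) : ℝ) = L + 1 := by push_cast; ring
    rw [h1, h3]
    linarith

theorem shift_choice {ι : Type*} (T : Finset ι) {f : ι → ℤ → ℝ} (hf0 : ∀ i k, 0 ≤ f i k)
    (hf1 : ∀ i k, f i k ≤ 1) (k : ι → ℤ) (L : ℕ) {S : ℕ} (hS : 1 ≤ S) :
    ∃ s : ℕ, s < S ∧ ∑ i ∈ T, (f i (k i + s - L) - f i (k i + s)) ≤ T.card * L / S := by
  by_contra hcon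
  push Not at hcon
  have hS0 : (0 : ℝ) < S := by exact_mod_cast hS
  have h1 : ∑ s ∈ Finset.range S, ∑ i ∈ T, (f i (k i + s - L) - f i (k i + s)) ≤ T.card * L := by
    rw [Finset.sum_comm]
    calc ∑ i ∈ T, ∑ s ∈ Finset.range S, (f i (k i + s - L) - f i (k i + s)) ≤ ∑ _i ∈ T, (L : ℝ) :=
          Finset.sum_le_sum fun i _ => shift_sum (hf0 i) (hf1 i) (k i) L S
      _ = T.card * L := by rw [Finset.sum_const, nsmul_eq_mul]
  have h2 : ∑ _s ∈ Finset.range S, ((T.card : ℝ) * L / S) <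
      ∑ s ∈ Finset.range S, ∑ i ∈ T, (f i (k i + s - L) - f i (k i + s)) := by
    refine Finset.sum_lt_sum_of_nonempty ⟨0, Finset.mem_range.2 (by omega)⟩ fun s hs => ?_
    exact hcon s (Finset.mem_range.1 hs)
  rw [Finset.sum_const, Finset.card_range, nsmul_eq_mul, mul_div_cancel₀ _ hS0.ne'] at h2
  linarith

theorem upper_hs {β₁ β J : ℝ} (h0 : 0 ≤ β₁) (h : β₁ < β) (hm : 0 < mag β₁) (hJ : 1 < J) :
    ∃ C : ℝ, 0 < C ∧ ∀ t : ℝ, 0 < t → ∃ R n₀ : ℤ, 0 ≤ R ∧ R < n₀ ∧ ∀ n : ℤ, n₀ ≤ n →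
      ∀ (𝒲 : Finset (Finset (ℤ × ℤ))) (s L : ℤ), ∅ ∉ 𝒲 → C * Real.log n ≤ L →
        (∀ W ∈ 𝒲, ∀ p ∈ W, |p.1| ≤ n - R ∧ R + L ≤ p.2 + s ∧ p.2 + s ≤ n - R) →
        PJ β J n (Hs n s 𝒲) ≤ 1 / 2 * PW β (n - R) (Hs (n - R) s 𝒲) +
          ∑ p ∈ 𝒲.biUnion id, (1 / 2 * PW β n (Above n p.1 (p.2 + s - L)) -
            1 / 2 * PW β (n - R) (Above (n - R) p.1 (p.2 + s)) + t) := by
  obtain ⟨C, hC, hex⟩ := excursion h0 h hm hJ
  refine ⟨C, hC, fun t ht => ?_⟩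
  obtain ⟨R, n₀, hR, hRn, hn⟩ := hex t ht
  refine ⟨R, n₀, hR, hRn, fun n hn0 𝒲 s L hemp hL hW => ?_⟩
  obtain ⟨-, h2, -, -⟩ := hn n hn0
  have h3 := h2 (shf s 𝒲) L ?_ hL ?_
  · have e1 : PJ β J n (Hts n (shf s 𝒲)) = PJ β J n (Hs n s 𝒲) := by
      congr 1
      funext ω
      exact propext (hs_shf n s 𝒲 ω)
    have e2 : PW β (n - R) (Hts (n - R) (shf s 𝒲)) = PW β (n - R) (Hs (n - R) s 𝒲) := by
      congr 1
      funext ω
      exact propext (hs_shf (n - R) s 𝒲 ω)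
    have e3 : (shf s 𝒲).biUnion id =
        (𝒲.biUnion id).image (fun p : ℤ × ℤ => (p.1, p.2 + s)) := by
      ext q
      simp only [shf, Finset.mem_biUnion, Finset.mem_image, id]
      constructor
      · rintro ⟨V, ⟨W, hW1, rfl⟩, hq⟩
        obtain ⟨p, hp, rfl⟩ := Finset.mem_image.1 hq
        exact ⟨p, ⟨W, hW1, hp⟩, rfl⟩
      · rintro ⟨p, ⟨W, hW1, hp⟩, rfl⟩
        exact ⟨_, ⟨W, hW1, rfl⟩, Finset.mem_image.2 ⟨p, hp, rfl⟩⟩
    rw [e1, e2, e3, Finset.sum_image] at h3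
    · exact h3
    · rintro ⟨a, b⟩ _ ⟨c, d⟩ _ hh
      simp only [Prod.mk.injEq] at hh
      obtain ⟨h4, h5⟩ := hh
      rw [Prod.mk.injEq]
      exact ⟨h4, by omega⟩
  · intro hm
    rw [shf, Finset.mem_image] at hm
    obtain ⟨W, hW1, hW2⟩ := hm
    rw [Finset.image_eq_empty] at hW2
    exact hemp (hW2 ▸ hW1)
  · intro V hV q hq
    rw [shf, Finset.mem_image] at hV
    obtain ⟨W, hW1, rfl⟩ := hV
    obtain ⟨p, hp, rfl⟩ := Finset.mem_image.1 hq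
    exact hW W hW1 p hp

end Pool.Agent.Helper49.DX
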