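import Pool.Agent.Helper49.DL.Cone

/-!
Transfer operators of the planar Ising model (high temperature form) on a strip with `n` rows.
A column configuration is `c : Fin n → Bool`; `wc t` is the weight of the vertical edges of a column
(all with `tanh = t`), `Vm x` the transfer to the next column (`tanh` of the horizontal edge in row `j`
is `x j`), `Xm t x L` the transfer through `L + 1` columns, `GS t x L u v` the correlation of the spin
in row `u` of the first column with the spin in row `v` of the last column.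
-/

open Finset

namespace Pool.Agent.Helper49.DX

open Pool.Agent.Helper49.DL

variable {n : ℕ}

/-- Configurations of a column. -/
abbrev Col (n : ℕ) := Fin n → Bool

/-- Weight of the vertical edges of a column. -/
noncomputable def wc (t : ℝ) (c : Col n) : ℝ :=
  ∏ j : Fin n, if h : (j : ℕ) + 1 < n then 1 + t * (sp (c j) * sp (c ⟨(j : ℕ) + 1, h⟩)) else 1

/-- Multiplication by the column weight. -/
noncomputable def Wm (t : ℝ) (Φ : Col n → ℝ) : Col n → ℝ := fun c => wc t c * Φ c

/-- Transfer through the horizontal edges. -/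
noncomputable def Vm (x : Fin n → ℝ) (Φ : Col n → ℝ) : Col n → ℝ :=
  fun c => ∑ c' : Col n, (∏ j, (1 + x j * (sp (c j) * sp (c' j)))) * Φ c'

/-- Transfer through `L + 1` columns. -/
noncomputable def Xm (t : ℝ) (x : Fin n → ℝ) : ℕ → (Col n → ℝ) → Col n → ℝ
  | 0 => Wm t
  | L + 1 => fun Φ => Wm t (Vm x (Xm t x L Φ))

/-- Scalar product. -/
noncomputable def ip (Φ Ψ : Col n → ℝ) : ℝ := ∑ c, Φ c * Ψ c

/-- Correlation of the first and the last column. -/
noncomputable def GS (t : ℝ) (x : Fin n → ℝ) (L : ℕ) (u v : Fin n) : ℝ :=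
  ip (fun c => sp (c v)) (Xm t x L (fun c => sp (c u))) / ip (fun _ => 1) (Xm t x L (fun _ => 1))

/-- Flip the rows below `j`. -/
def flt (j : Fin n) (c : Col n) : Col n := fun i => if i < j then !(c i) else c i

/-- Flip the rows up to `j`. -/
def fle (j : Fin n) (c : Col n) : Col n := fun i => if i ≤ j then !(c i) else c i

/-- First Majorana operator. -/
noncomputable def xi (j : Fin n) (Φ : Col n → ℝ) : Col n → ℝ := fun c => sp (c j) * Φ (flt j c)

/-- Second Majorana operator. -/
noncomputable def ze (j : Fin n) (Φ : Col n → ℝ) : Col n → ℝ := fun c => sp (c j) * Φ (fle j c)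

/-- Creation operator. -/
noncomputable def cr (j : Fin n) (Φ : Col n → ℝ) : Col n → ℝ := fun c => (xi j Φ c + ze j Φ c) / 2

/-- Annihilation operator. -/
noncomputable def an (j : Fin n) (Φ : Col n → ℝ) : Col n → ℝ := fun c => (xi j Φ c - ze j Φ c) / 2

/-- Linear combination of creation and annihilation operators. -/
noncomputable def opp (p q : Fin n → ℝ) (Φ : Col n → ℝ) : Col n → ℝ :=
  fun c => ∑ j, (p j * cr j Φ c + q j * an j Φ c)

/-- `cosh (2 K)` for `t = tanh K`. -/
noncomputable def chh (t : ℝ) : ℝ := (1 + t ^ 2) / (1 - t ^ 2)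

/-- `sinh (2 K)` for `t = tanh K`. -/
noncomputable def shh (t : ℝ) : ℝ := 2 * t / (1 - t ^ 2)

/-- Value in the next row, `0` in the last row. -/
def nx (c : Fin n → ℝ) (j : Fin n) : ℝ := if h : (j : ℕ) + 1 < n then c ⟨(j : ℕ) + 1, h⟩ else 0

/-- Value in the previous row, `0` in the first row. -/
def pv (c : Fin n → ℝ) (j : Fin n) : ℝ := if 0 < (j : ℕ) then c ⟨(j : ℕ) - 1, by omega⟩ else 0

/-- `1` if there is a row below. -/
def lo (j : Fin n) : ℝ := if 0 < (j : ℕ) then 1 else 0

/-- `1` if there is a row above. -/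
def up (j : Fin n) : ℝ := if (j : ℕ) + 1 < n then 1 else 0

/-- Action of a column on the coefficients, creation part. -/
noncomputable def wp (t : ℝ) (c d : Fin n → ℝ) : Fin n → ℝ := fun j =>
  (1 + (lo j + up j) / 2 * (chh t - 1)) * c j - shh t / 2 * (nx c j + pv c j) +
    (lo j - up j) / 2 * (chh t - 1) * d j - shh t / 2 * nx d j + shh t / 2 * pv d j

/-- Action of a column on the coefficients, annihilation part. -/
noncomputable def wq (t : ℝ) (c d : Fin n → ℝ) : Fin n → ℝ := fun j =>
  (lo j - up j) / 2 * (chh t - 1) * c j + shh t / 2 * nx c j - shh t / 2 * pv c j +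
    (1 + (lo j + up j) / 2 * (chh t - 1)) * d j + shh t / 2 * (nx d j + pv d j)

/-- Coefficients after `k + 1` columns. -/
noncomputable def pqs (t : ℝ) (x : Fin n → ℝ) (c : Fin n → ℝ) : ℕ → (Fin n → ℝ) × (Fin n → ℝ)
  | 0 => (wp t c (fun _ => 0), wq t c (fun _ => 0))
  | k + 1 => (wp t (fun j => (pqs t x c k).1 j / x j) (fun j => x j * (pqs t x c k).2 j),
      wq t (fun j => (pqs t x c k).1 j / x j) (fun j => x j * (pqs t x c k).2 j))

end Pool.Agent.Helper49.DX
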