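import Pool.Agent.Helper49.DL.Fold3
import Pool.Agent.Helper49.DL.Mono2

/-!
Block DX-TA: the Dobrushin state and the state with `true` spins in the rows `0` and `1`.

`ctt ω = 1` if `ω` is `true` on the rows `0` and `1` of the box. Paper proof of `wall_core`. In the folded
description (Fold2.lean, Fold3.lean): `R = {v : VV N M | v.1.2 = 1}`; `ctt (dec S c) = 1` iff `S ∩ R = ∅` and `c = true` on `R`
(`dec_up`, `dec_bar`), i.e. `ctt (dec S c) = (if Disjoint S R then frc R c / 2 ^ R.card else 0)`.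
* As in `na_mul_na` (Joint.lean): if `Disjoint S R`, `B ⊆ S` then
  `na A J ∅ B S * na A L R ∅ Sᶜ = 2 ^ card V * ∑ c, chi B c * (wt A (res A J S) c * wt A (res A L Sᶜ) c * frc R c)`
  (`R ⊆ Sᶜ`). So, as in `Zg_fold_one`, `Zg_fold_y`, with the constant `K = exp (β card BB) / 2 ^ R.card / 2 ^ card VV`:
  `Zg (ctt) = K * TL bA (fun _ => β) (bL β) ρ' ∅ ∅`, `Zg (ctt * yv v) = K * TL bA (fun _ => β) (bL β) ρ' ∅ {v}` where
  `ρ' S = if Disjoint S R then rho β J S * (na bA (bL β) R ∅ Sᶜ / na bA (bL β) ∅ ∅ Sᶜ) else 0` (`na_empty_pos`;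
  for `v ∉ S` both sides vanish: `na_eq_zero`, `yv_dec`).
* `Zg (1)`, `Zg (yv v)` are `TL ... (rho β J)`: `Zg_fold_one`, `Zg_fold_y` with `g = 1`, `F = ∅` (`prior β J 1 ∅ = rho β J`).
* `core` (Layers.lean) with its `ρ := ρ'`, its `ρ' := rho β J`, `J = J' = β`: the hypothesis is
  `rho S * ρ' T ≤ ρ' (S ∩ T) * rho (S ∪ T)`. If `T` meets `R` the left side is `0`. If `Disjoint T R` then `S ∩ T` is disjoint
  from `R`, `rho (S ∪ T) = rho S`, `rho T = rho (S ∩ T)` (`rho` depends on `S ∩ R` only), so it remains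
  `na L R ∅ Tᶜ / na L ∅ ∅ Tᶜ ≤ na L R ∅ (S ∩ T)ᶜ / na L ∅ ∅ (S ∩ T)ᶜ`: this is monotonicity in the set (`Tᶜ ⊆ (S ∩ T)ᶜ`) of
  `∑ B ⊆ R, na L ∅ B S' / na L ∅ ∅ S'` (`frc R c = ∑ B ∈ R.powerset, chi B c`), and each term is monotone by `na_compare`
  (`na A L ∅ ∅ S * na A L ∅ B T ≤ na A L ∅ ∅ (S ∩ T) * na A L ∅ B (S ∪ T)` for `T ⊆ S`).
-/

open Finset
open scoped Classical

namespace Pool.Agent.Helper49.DX

open Pool.Agent.Helper49.DL

/-- Indicator of `true` spins in the rows `0` and `1` of the box. -/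
noncomputable def ctt (N : ℤ) (ω : Cfg) : ℝ :=
  if ∀ x : ℤ, |x| ≤ N → ω (x, 0) = true ∧ ω (x, 1) = true then 1 else 0

section joint93

variable {V ι : Type*} [Fintype V] [DecidableEq V] [Fintype ι]

private theorem na_mul_na93 (A : ι → Finset V) (J L : ι → ℝ) {R B S : Finset V} (hR : Disjoint S R)
    (hB : B ⊆ S) :
    na A J ∅ B S * na A L R ∅ Sᶜ = (2 : ℝ) ^ (Fintype.card V) *
      ∑ c : V → Bool, chi B c * (wt A (res A J S) c * wt A (res A L Sᶜ) c * frc R c) := by
  unfold na NN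
  rw [sum_mul_sum_dep S]
  · congr 1
    refine Finset.sum_congr rfl fun c _ => ?_
    simp only [chi_empty, frc, Finset.prod_empty]
    ring
  · intro σ σ' hs
    beta_reduce
    rw [chi_dep hB σ σ' hs, wt_res_dep A J S σ σ' hs]
    simp [frc]
  · intro σ σ' hs
    beta_reduce
    have hR' : R ⊆ Sᶜ := by
      intro v hv
      rw [Finset.mem_compl]
      exact fun h => Finset.disjoint_left.1 hR h hv
    rw [wt_res_dep A L Sᶜ σ σ' hs, frc_dep hR' σ σ' hs]
    simp [chi_empty]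

end joint93

section

variable {N M : ℤ}

/-- the row `1` -/
private noncomputable def R93 (N M : ℤ) : Finset (VV N M) := Finset.univ.filter fun v => v.1.2 = 1

private theorem mem_R93 {v : VV N M} : v ∈ R93 N M ↔ v.1.2 = 1 := by
  unfold R93
  simp

private theorem ctt_dec93 (hM : 1 ≤ M) (S : Finset (VV N M)) (c : VV N M → Bool) :
    ctt N (dec S c) = if Disjoint S (R93 N M) then frc (R93 N M) c / 2 ^ (R93 N M).card else 0 := by
  have hup : ∀ x : ℤ, |x| ≤ N → ((x, 1) : Site) ∈ ubox N M := by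
    intro x hx
    rw [mem_ubox]
    rw [abs_le] at hx
    exact ⟨hx, le_rfl, hM⟩
  have hiff : (∀ x : ℤ, |x| ≤ N → dec S c (x, 0) = true ∧ dec S c (x, 1) = true) ↔
      Disjoint S (R93 N M) ∧ ∀ v ∈ R93 N M, c v = true := by
    constructor
    · intro h
      have h1 : ∀ v ∈ R93 N M, v ∉ S ∧ c v = true := by
        rintro ⟨⟨x, y⟩, hv⟩ hvR
        rw [mem_R93] at hvR
        simp only at hvR
        subst hvR
        have hx : |x| ≤ N := by
          rw [mem_ubox] at hv
          rw [abs_le]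
          exact hv.1
        obtain ⟨h0, h1⟩ := h x hx
        have e1 := dec_up S c ⟨(x, 1), hv⟩
        have e2 := dec_bar S c ⟨(x, 1), hv⟩
        simp only at e1 e2
        have e3 : bar (x, 1) = (x, 0) := by simp [bar]
        rw [e3, h0] at e2
        rw [h1] at e1
        refine ⟨fun hS => ?_, e1.symm⟩
        rw [if_pos hS, ← e1] at e2
        exact absurd e2 (by simp)
      refine ⟨Finset.disjoint_right.2 fun v hv => (h1 v hv).1, fun v hv => (h1 v hv).2⟩
    · rintro ⟨hd, hc⟩ x hx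
      have hm := hup x hx
      have hR : (⟨(x, 1), hm⟩ : VV N M) ∈ R93 N M := by rw [mem_R93]
      have e1 := dec_up S c ⟨(x, 1), hm⟩
      have e2 := dec_bar S c ⟨(x, 1), hm⟩
      simp only at e1 e2
      have e3 : bar (x, 1) = (x, 0) := by simp [bar]
      rw [e3, if_neg (Finset.disjoint_right.1 hd hR), hc _ hR] at e2
      rw [hc _ hR] at e1
      exact ⟨e2, e1⟩
  unfold ctt
  by_cases hd : Disjoint S (R93 N M)
  · rw [if_pos hd]
    by_cases hc : ∀ v ∈ R93 N M, c v = true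
    · rw [if_pos (hiff.2 ⟨hd, hc⟩), frc]
      have : ∀ w ∈ R93 N M, (1 + sp (c w) : ℝ) = 2 := by
        intro w hw; rw [hc w hw, sp_true]; norm_num
      rw [Finset.prod_congr rfl this, Finset.prod_const, div_self]
      positivity
    · rw [if_neg (fun h => hc (hiff.1 h).2), frc]
      push Not at hc
      obtain ⟨w, hw, hcw⟩ := hc
      rw [Finset.prod_eq_zero hw, zero_div]
      have : c w = false := by simpa using hcw
      rw [this, sp_false]; norm_num
  · rw [if_neg hd, if_neg (fun h => hd (hiff.1 h).1)]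

/-- the prior of the constrained state -/
private noncomputable def rp93 (β J : ℝ) (S : Finset (VV N M)) : ℝ :=
  if Disjoint S (R93 N M) then
    rho β J S * (na bA (bL β) (R93 N M) ∅ Sᶜ / na bA (bL β) ∅ ∅ Sᶜ) else 0

private theorem rp_nonneg93 {β : ℝ} (hβ : 0 ≤ β) (J : ℝ) (S : Finset (VV N M)) : 0 ≤ rp93 β J S := by
  unfold rp93
  split_ifs
  · exact mul_nonneg (rho_pos _ _ _).le (div_nonneg (na_nonneg bA (bL_nonneg hβ) _ _ _)
      (na_nonneg bA (bL_nonneg hβ) _ _ _))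
  · exact le_rfl

private theorem Zg_ctt93 (hM : 1 ≤ M) (β J : ℝ) :
    Zg β (kap J) (box N M) (eta 0) (fun ω => ctt N ω) =
      KF β (R93 N M) * TL bA (fun _ => β) (bL β) (rp93 β J) ∅ (∅ : Finset (VV N M)) := by
  unfold Zg TL
  rw [sum_dec, Finset.mul_sum]
  refine Finset.sum_congr rfl fun S _ => ?_
  unfold rp93
  by_cases hd : Disjoint S (R93 N M)
  · rw [if_pos hd]
    have hpos := na_empty_pos (bA (N := N) (M := M)) (bL β) ∅ Sᶜ
    have e0 : rho β J S * (na bA (bL β) (R93 N M) ∅ Sᶜ / na bA (bL β) ∅ ∅ Sᶜ) *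
        (na bA (fun _ => β) ∅ ∅ S * na bA (bL β) ∅ ∅ Sᶜ) =
        rho β J S * (na bA (fun _ => β) ∅ ∅ S * na bA (bL β) (R93 N M) ∅ Sᶜ) := by
      field_simp
    rw [e0, na_mul_na93 bA (fun _ => β) (bL β) hd (Finset.empty_subset S)]
    have h1 : ∀ c : VV N M → Bool, wg β (kap J) (box N M) (dec S c) * ctt N (dec S c) =
        (Real.exp (β * (Fintype.card (BB N M) : ℝ)) / 2 ^ (R93 N M).card * rho β J S) *
        (chi ∅ c * (wt bA (res bA (fun _ => β) S) c * wt bA (res bA (bL β) Sᶜ) c * frc (R93 N M) c)) := by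
      intro c
      rw [wg_dec S c hM, ctt_dec93 hM, if_pos hd, chi_empty]
      ring
    simp_rw [h1]
    rw [← Finset.mul_sum]
    unfold KF
    have h2 : (2 : ℝ) ^ (Fintype.card (VV N M)) ≠ 0 := by positivity
    field_simp
  · rw [if_neg hd]
    have h1 : ∀ c : VV N M → Bool, wg β (kap J) (box N M) (dec S c) * ctt N (dec S c) = 0 := by
      intro c
      rw [ctt_dec93 hM, if_neg hd]; ring
    simp_rw [h1]
    simp

private theorem Zg_ctt_y93 (hM : 1 ≤ M) (β J : ℝ) (v : VV N M) :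
    Zg β (kap J) (box N M) (eta 0) (fun ω => ctt N ω * yv v.1 ω) =
      KF β (R93 N M) * TL bA (fun _ => β) (bL β) (rp93 β J) ∅ {v} := by
  unfold Zg TL
  rw [sum_dec, Finset.mul_sum]
  refine Finset.sum_congr rfl fun S _ => ?_
  unfold rp93
  by_cases hd : Disjoint S (R93 N M)
  · rw [if_pos hd]
    by_cases hv : v ∈ S
    · have hpos := na_empty_pos (bA (N := N) (M := M)) (bL β) ∅ Sᶜ
      have e0 : rho β J S * (na bA (bL β) (R93 N M) ∅ Sᶜ / na bA (bL β) ∅ ∅ Sᶜ) *
          (na bA (fun _ => β) ∅ {v} S * na bA (bL β) ∅ ∅ Sᶜ) =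
          rho β J S * (na bA (fun _ => β) ∅ {v} S * na bA (bL β) (R93 N M) ∅ Sᶜ) := by
        field_simp
      rw [e0, na_mul_na93 bA (fun _ => β) (bL β) hd (Finset.singleton_subset_iff.2 hv)]
      have h1 : ∀ c : VV N M → Bool, wg β (kap J) (box N M) (dec S c) * (ctt N (dec S c) * yv v.1 (dec S c)) =
          (Real.exp (β * (Fintype.card (BB N M) : ℝ)) / 2 ^ (R93 N M).card * rho β J S) *
          (chi {v} c * (wt bA (res bA (fun _ => β) S) c * wt bA (res bA (bL β) Sᶜ) c * frc (R93 N M) c)) := by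
        intro c
        rw [wg_dec S c hM, ctt_dec93 hM, if_pos hd, yv_dec, if_pos hv, chi_singleton]
        ring
      simp_rw [h1]
      rw [← Finset.mul_sum]
      unfold KF
      have h2 : (2 : ℝ) ^ (Fintype.card (VV N M)) ≠ 0 := by positivity
      field_simp
    · rw [na_eq_zero bA (fun _ => β) (Finset.empty_subset S) (by rwa [Finset.singleton_subset_iff])]
      have h1 : ∀ c : VV N M → Bool, wg β (kap J) (box N M) (dec S c) * (ctt N (dec S c) * yv v.1 (dec S c)) = 0 := by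
        intro c
        rw [yv_dec, if_neg hv]; ring
      simp_rw [h1]
      simp
  · rw [if_neg hd]
    have h1 : ∀ c : VV N M → Bool, wg β (kap J) (box N M) (dec S c) * (ctt N (dec S c) * yv v.1 (dec S c)) = 0 := by
      intro c
      rw [ctt_dec93 hM, if_neg hd]; ring
    simp_rw [h1]
    simp

private theorem rho_congr93 (β J : ℝ) {S T : Finset (VV N M)} (h : ∀ v ∈ R93 N M, v ∈ S ↔ v ∈ T) :
    rho β J S = rho β J T := by
  unfold rho
  congr 3
  refine Finset.sum_congr rfl fun v _ => ?_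
  by_cases hv : v.1.2 = 1
  · have := h v (mem_R93.2 hv)
    by_cases hS : v ∈ S
    · have hT := this.1 hS
      simp [hS, hT]
    · have hT : v ∉ T := fun h' => hS (this.2 h')
      simp [hS, hT]
  · simp [hv]

private theorem holley93 {β : ℝ} (hβ : 0 ≤ β) (J : ℝ) (S T : Finset (VV N M)) :
    rho β J S * rp93 β J T ≤ rp93 β J (S ∩ T) * rho β J (S ∪ T) := by
  by_cases hd : Disjoint T (R93 N M)
  · have hd' : Disjoint (S ∩ T) (R93 N M) := hd.mono_left Finset.inter_subset_right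
    unfold rp93
    rw [if_pos hd, if_pos hd']
    have e1 : rho β J (S ∪ T) = rho β J S := rho_congr93 β J fun v hv => by
      have : v ∉ T := Finset.disjoint_right.1 hd hv
      simp [this]
    have e2 : rho β J (S ∩ T) = rho β J T := rho_congr93 β J fun v hv => by
      have : v ∉ T := Finset.disjoint_right.1 hd hv
      simp [this]
    rw [e1, e2]
    have h1 := na_compare (bA (N := N) (M := M)) (bL_nonneg hβ) (fun i => le_refl (bL β i))
      (Finset.empty_subset (R93 N M)) ∅ Tᶜ (S ∩ T)ᶜ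
    have hsub : Tᶜ ⊆ (S ∩ T)ᶜ := Finset.compl_subset_compl.2 Finset.inter_subset_right
    rw [Finset.inter_eq_left.2 hsub, Finset.union_eq_right.2 hsub] at h1
    have p1 := na_empty_pos (bA (N := N) (M := M)) (bL β) ∅ Tᶜ
    have p2 := na_empty_pos (bA (N := N) (M := M)) (bL β) ∅ (S ∩ T)ᶜ
    have h2 : na bA (bL β) (R93 N M) ∅ Tᶜ / na bA (bL β) ∅ ∅ Tᶜ ≤
        na bA (bL β) (R93 N M) ∅ (S ∩ T)ᶜ / na bA (bL β) ∅ ∅ (S ∩ T)ᶜ := by
      rw [div_le_div_iff₀ p1 p2]
      linarith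
    have q1 := rho_pos S β J
    have q2 := rho_pos T β J
    calc rho β J S * (rho β J T * (na bA (bL β) (R93 N M) ∅ Tᶜ / na bA (bL β) ∅ ∅ Tᶜ)) =
        (rho β J S * rho β J T) * (na bA (bL β) (R93 N M) ∅ Tᶜ / na bA (bL β) ∅ ∅ Tᶜ) := by ring
      _ ≤ (rho β J S * rho β J T) * (na bA (bL β) (R93 N M) ∅ (S ∩ T)ᶜ / na bA (bL β) ∅ ∅ (S ∩ T)ᶜ) :=
        mul_le_mul_of_nonneg_left h2 (mul_pos q1 q2).le
      _ = _ := by ring
  · have e : rp93 β J T = 0 := by
      unfold rp93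
      rw [if_neg hd]
    rw [e, mul_zero]
    exact mul_nonneg (rp_nonneg93 hβ _ _) (rho_pos _ _ _).le

end

theorem wall_core {N M : ℤ} (hM : 1 ≤ M) {β J : ℝ} (hβ : 0 ≤ β) (v : VV N M) :
    Zg β (kap J) (box N M) (eta 0) (fun _ => 1) *
        Zg β (kap J) (box N M) (eta 0) (fun ω => ctt N ω * yv v.1 ω) ≤
      Zg β (kap J) (box N M) (eta 0) (fun ω => ctt N ω) *
        Zg β (kap J) (box N M) (eta 0) (fun ω => yv v.1 ω) := by
  have hpr : ∀ S : Finset (VV N M), prior β J (fun _ => 1) ∅ S = rho β J S := by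
    intro S
    unfold prior
    rw [if_pos (Finset.empty_subset S), mul_one]
  have z1 := Zg_fold_one (N := N) (M := M) hM β J (fun _ => 1) ∅
  have z2 := Zg_fold_y (N := N) (M := M) hM β J (fun _ => 1) ∅ v
  simp only [one_mul, indF_empty] at z1 z2
  rw [z1, z2, Zg_ctt93 hM, Zg_ctt_y93 hM]
  unfold TT
  rw [funext hpr]
  have h := core (bA (N := N) (M := M)) (J := fun _ => β) (J' := fun _ => β) (L := bL β)
    (fun _ => hβ) (fun _ => le_rfl) (bL_nonneg hβ) (ρ := rp93 β J) (ρ' := rho β J)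
    (rp_nonneg93 hβ J) (fun S => (rho_pos S β J).le) (holley93 hβ J) (Finset.empty_subset ∅) {v}
  have k1 := KF_pos β (R93 N M)
  have k2 := KF_pos β (∅ : Finset (VV N M))
  have h' := mul_le_mul_of_nonneg_left h (mul_pos k2 k1).le
  calc _ = (KF β (∅ : Finset (VV N M)) * KF β (R93 N M)) *
        (TL bA (fun _ => β) (bL β) (rho β J) ∅ (∅ : Finset (VV N M)) *
        TL bA (fun _ => β) (bL β) (rp93 β J) ∅ {v}) := by ring
    _ ≤ _ := h'
    _ = _ := by ring

end Pool.Agent.Helper49.DX
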