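import Pool.Agent.Helper49.DX.Ta
import Pool.Agent.Helper49.DL.Refl
import Pool.Agent.Helper49.DL.Half

/-!
Block DX-TB: lower bound for the magnetisation of the Dobrushin state by that of the wall state.

Paper proof. `v = (x, y)`, `|x| ≤ N`, `2 ≤ y ≤ M`, `E = avg β (kap J) (box N M) (eta 0)`. `E (sp v) = E (yv v)` (`avg_sp_eq`,
DL/Deloc.lean). By `wall_core` `E (yv v) ≥ Zg (ctt * yv v) / Zg ctt` (`Zg ctt > 0`: the configuration that is `true` on the
rows `0`, `1` of the box and `eta 0` elsewhere). Let `Λ⁺` be the sites of the box in the rows `≥ 2`, `Λ⁻` those in the rows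
`≤ -1`. By `dlr` (with `G = ctt`, `Λ' = Λ⁺` resp. `Λ⁻`) `Zg (ctt * sp v) = Zg (ctt * avg Λ⁺ ω (sp v))` and
`Zg (ctt * sp (bar v)) = Zg (ctt * avg Λ⁻ ω (sp (bar v)))`, `bar v = (x, 1 - y) ∈ Λ⁻`. For `ω ∈ confs (box N M) (eta 0)` with
`ctt ω = 1`:
* all sites off `Λ⁺` adjacent to `Λ⁺` are `true`, so `avg Λ⁺ ω (sp v) = avg Λ⁺ tt (sp v)` (`avg_sameBdry`, `kap J` on `vb Λ⁺` is
  `kap 1`: `avg_kap_congr`) `≥ mag β` (`mag_le`, with `J = 1`).
* the sites off `Λ⁻` adjacent to `Λ⁻` are `true` in the row `0` and `false` in the rows `≤ -1`. The map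
  `ω ↦ fun (x, y) => !(ω (x, -y))` maps `confs Λ⁻ ω` to configurations on `ubox N (M - 1)`, preserves the weights
  (vertical bond `((x, y), (x, y + 1))` to `((x, -y - 1), (x, -y))`, couplings `1`), and the boundary condition becomes
  `false` in the row `0`, `true` for the sites of height `≥ 1`; so `avg Λ⁻ ω (sp (bar v)) =
  - avg β (kap 1) (ubox N (M - 1)) (eta 0) (sp (x, y - 1))` (`avg_sameBdry`).
Hence `Zg (ctt * yv v) = Zg (ctt * (avg Λ⁺ .. - avg Λ⁻ ..)/2) ≥ Zg ctt * (mag β + wall) / 2`.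
-/

open Finset
open scoped Classical

namespace Pool.Agent.Helper49.DX

open Pool.Agent.Helper49.DL

/-- the sites of the box in the rows `≥ 2` -/
private noncomputable def lp80 (N M : ℤ) : Finset Site := Finset.Icc (-N) N ×ˢ Finset.Icc 2 M

/-- the sites of the box in the rows `≤ -1` -/
private noncomputable def lm80 (N M : ℤ) : Finset Site := Finset.Icc (-N) N ×ˢ Finset.Icc (-M + 1) (-1)

private lemma mem_lp80 {N M : ℤ} {i : Site} :
    i ∈ lp80 N M ↔ (-N ≤ i.1 ∧ i.1 ≤ N) ∧ (2 ≤ i.2 ∧ i.2 ≤ M) := by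
  simp [lp80, Finset.mem_product]

private lemma mem_lm80 {N M : ℤ} {i : Site} :
    i ∈ lm80 N M ↔ (-N ≤ i.1 ∧ i.1 ≤ N) ∧ (-M + 1 ≤ i.2 ∧ i.2 ≤ -1) := by
  simp [lm80, Finset.mem_product]

private lemma add_e1_80 (i : Site) : (i + e1).1 = i.1 + 1 ∧ (i + e1).2 = i.2 :=
  ⟨rfl, add_zero _⟩

private lemma sub_e1_80 (i : Site) : (i - e1).1 = i.1 - 1 ∧ (i - e1).2 = i.2 :=
  ⟨rfl, sub_zero _⟩

private lemma add_e2_80 (i : Site) : (i + e2).1 = i.1 ∧ (i + e2).2 = i.2 + 1 :=
  ⟨add_zero _, rfl⟩

private lemma sub_e2_80 (i : Site) : (i - e2).1 = i.1 ∧ (i - e2).2 = i.2 - 1 :=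
  ⟨sub_zero _, rfl⟩

/-- the boundary condition of the lower part -/
private def em80 : Cfg := fun i => decide (0 ≤ i.2)

/-- reflection and flip -/
private def rr80 (ω : Cfg) : Cfg := fun i => !(ω (i.1, -i.2))

private lemma rr80_rr (ω : Cfg) : rr80 (rr80 ω) = ω := by
  funext i
  simp [rr80]

private lemma rr80_mem {N M : ℤ} {ω : Cfg} (h : ω ∈ confs (lm80 N M) em80) :
    rr80 ω ∈ confs (ubox N (M - 1)) (eta 0) := by
  rw [mem_confs] at h ⊢
  intro i hi
  have h1 : ((i.1, -i.2) : Site) ∉ lm80 N M := by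
    intro h2
    apply hi
    rw [mem_lm80] at h2
    rw [mem_ubox]
    simp only at h2
    omega
  have h2 := h _ h1
  simp only [rr80, h2, em80, eta]
  rcases le_or_gt 1 i.2 with h3 | h3
  · have h4 : ¬ (0 ≤ -i.2) := by omega
    have h5 : 0 + 1 ≤ i.2 := by omega
    simp only [h4, h5, decide_true, decide_false, Bool.not_false]
  · have h4 : 0 ≤ -i.2 := by omega
    have h5 : ¬ (0 + 1 ≤ i.2) := by omega
    simp only [h4, h5, decide_true, decide_false, Bool.not_true]

private lemma rr80_mem' {N M : ℤ} {ω : Cfg} (h : ω ∈ confs (ubox N (M - 1)) (eta 0)) :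
    rr80 ω ∈ confs (lm80 N M) em80 := by
  rw [mem_confs] at h ⊢
  intro i hi
  have h1 : ((i.1, -i.2) : Site) ∉ ubox N (M - 1) := by
    intro h2
    apply hi
    rw [mem_ubox] at h2
    rw [mem_lm80]
    simp only at h2
    omega
  have h2 := h _ h1
  simp only [rr80, h2, em80, eta]
  rcases le_or_gt 0 i.2 with h3 | h3
  · have h4 : ¬ (0 + 1 ≤ -i.2) := by omega
    simp only [h4, h3, decide_true, decide_false, Bool.not_false]
  · have h4 : 0 + 1 ≤ -i.2 := by omega
    have h5 : ¬ (0 ≤ i.2) := by omega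
    simp only [h4, h5, decide_true, decide_false, Bool.not_true]

private lemma kap_one80 (i : Site) : kap 1 i = 1 := by
  unfold kap
  split_ifs <;> rfl

private lemma en_rr80 {N M : ℤ} (ω : Cfg) :
    en (kap 1) (ubox N (M - 1)) (rr80 ω) = en (kap 1) (lm80 N M) ω := by
  unfold en
  congr 1
  · refine Finset.sum_bij' (fun i _ => ((i.1, -i.2) : Site)) (fun i _ => ((i.1, -i.2) : Site))
      ?_ ?_ ?_ ?_ ?_
    · intro i hi
      rw [mem_hb, mem_ubox, mem_ubox] at hi
      rw [mem_hb, mem_lm80, mem_lm80]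
      have h1 := add_e1_80 i
      have h2 := add_e1_80 ((i.1, -i.2) : Site)
      simp only [h1.1, h1.2] at hi
      simp only [h2.1, h2.2]
      omega
    · intro i hi
      rw [mem_hb, mem_lm80, mem_lm80] at hi
      rw [mem_hb, mem_ubox, mem_ubox]
      have h1 := add_e1_80 i
      have h2 := add_e1_80 ((i.1, -i.2) : Site)
      simp only [h1.1, h1.2] at hi
      simp only [h2.1, h2.2]
      omega
    · intro i _
      simp
    · intro i _
      simp
    · intro i _
      have h1 : rr80 ω (i + e1) = !(ω (((i.1, -i.2) : Site) + e1)) := by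
        unfold rr80
        congr 2
        refine Prod.ext ?_ ?_
        · rfl
        · simp [e1]
      rw [h1]
      show agr (!(ω (i.1, -i.2))) (!(ω (((i.1, -i.2) : Site) + e1))) = _
      rw [agr_not]
  · refine Finset.sum_bij' (fun i _ => ((i.1, -i.2 - 1) : Site)) (fun i _ => ((i.1, -i.2 - 1) : Site))
      ?_ ?_ ?_ ?_ ?_
    · intro i hi
      rw [mem_vb, mem_ubox, mem_ubox] at hi
      rw [mem_vb, mem_lm80, mem_lm80]
      have h1 := add_e2_80 i
      have h2 := add_e2_80 ((i.1, -i.2 - 1) : Site)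
      simp only [h1.1, h1.2] at hi
      simp only [h2.1, h2.2]
      omega
    · intro i hi
      rw [mem_vb, mem_lm80, mem_lm80] at hi
      rw [mem_vb, mem_ubox, mem_ubox]
      have h1 := add_e2_80 i
      have h2 := add_e2_80 ((i.1, -i.2 - 1) : Site)
      simp only [h1.1, h1.2] at hi
      simp only [h2.1, h2.2]
      omega
    · intro i _
      refine Prod.ext rfl ?_
      simp only
      ring
    · intro i _
      refine Prod.ext rfl ?_
      simp only
      ring
    · intro i _
      rw [kap_one80, kap_one80, one_mul, one_mul]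
      have h1 : rr80 ω (i + e2) = !(ω ((i.1, -i.2 - 1) : Site)) := by
        unfold rr80
        congr 2
        refine Prod.ext ?_ ?_
        · exact add_zero _
        · show -(i.2 + 1) = -i.2 - 1
          ring
      have h2 : rr80 ω i = !(ω (((i.1, -i.2 - 1) : Site) + e2)) := by
        unfold rr80
        congr 2
        refine Prod.ext ?_ ?_
        · exact (add_zero _).symm
        · show -i.2 = -i.2 - 1 + 1
          ring
      rw [h1, h2, agr_not]
      unfold agr
      by_cases h3 : ω (((i.1, -i.2 - 1) : Site) + e2) = ω ((i.1, -i.2 - 1) : Site)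
      · rw [if_pos h3, if_pos h3.symm]
      · rw [if_neg h3, if_neg (fun h => h3 h.symm)]

private lemma Zg_rr80 {β : ℝ} {N M : ℤ} (F : Cfg → ℝ) :
    Zg β (kap 1) (lm80 N M) em80 (fun ω => F (rr80 ω)) = Zg β (kap 1) (ubox N (M - 1)) (eta 0) F := by
  unfold Zg
  refine Finset.sum_bij' (fun ω _ => rr80 ω) (fun ω _ => rr80 ω) (fun ω h => rr80_mem h)
    (fun ω h => rr80_mem' h) (fun ω _ => rr80_rr ω) (fun ω _ => rr80_rr ω) ?_
  intro ω _
  unfold wg
  rw [en_rr80]

private lemma avg_rr80 {β : ℝ} {N M : ℤ} (F : Cfg → ℝ) :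
    avg β (kap 1) (lm80 N M) em80 (fun ω => F (rr80 ω)) =
      avg β (kap 1) (ubox N (M - 1)) (eta 0) F := by
  unfold avg
  rw [Zg_rr80 F, ← Zg_rr80 (N := N) (M := M) (fun _ => 1)]

private lemma ctt_nonneg80 (N : ℤ) (ω : Cfg) : 0 ≤ ctt N ω := by
  unfold ctt
  split_ifs <;> norm_num

private lemma ctt_spec80 {N : ℤ} {ω : Cfg} (h : ctt N ω ≠ 0) :
    ∀ x : ℤ, |x| ≤ N → ω (x, 0) = true ∧ ω (x, 1) = true := by
  by_contra hc
  exact h (if_neg hc)

private lemma ctt_congr80 {N : ℤ} {ω ξ : Cfg} (h : ∀ x : ℤ, |x| ≤ N → ξ (x, 0) = ω (x, 0) ∧ ξ (x, 1) = ω (x, 1)) :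
    ctt N ξ = ctt N ω := by
  unfold ctt
  by_cases h1 : ∀ x : ℤ, |x| ≤ N → ω (x, 0) = true ∧ ω (x, 1) = true
  · rw [if_pos h1, if_pos]
    intro x hx
    rw [(h x hx).1, (h x hx).2]
    exact h1 x hx
  · rw [if_neg h1, if_neg]
    intro h2
    apply h1
    intro x hx
    rw [← (h x hx).1, ← (h x hx).2]
    exact h2 x hx

private lemma Zg_ctt_pos80 {β J : ℝ} {N M : ℤ} (hM : 1 ≤ M) :
    0 < Zg β (kap J) (box N M) (eta 0) (fun ω => ctt N ω) := by
  unfold Zg
  obtain ⟨ω₀, hω₀⟩ : ∃ ω₀ : Cfg, ω₀ = fun i => if i ∈ box N M ∧ (i.2 = 0 ∨ i.2 = 1) then true else eta 0 i :=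
    ⟨_, rfl⟩
  have hmem : ω₀ ∈ confs (box N M) (eta 0) := by
    rw [mem_confs]
    intro i hi
    rw [hω₀]
    simp only [hi, false_and, if_false]
  have hct : ctt N ω₀ = 1 := by
    unfold ctt
    rw [if_pos]
    intro x hx
    have h1 := abs_le.1 hx
    rw [hω₀]
    constructor
    · have h2 : ((x, 0) : Site) ∈ box N M := by
        rw [mem_box]
        simp only
        omega
      simp only [h2, true_and, true_or, if_true]
    · have h2 : ((x, 1) : Site) ∈ box N M := by
        rw [mem_box]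
        simp only
        omega
      simp only [h2, true_and, or_true, if_true]
  refine Finset.sum_pos' (fun ω _ => mul_nonneg (wg_pos _ _ _ _).le (ctt_nonneg80 N ω)) ⟨ω₀, hmem, ?_⟩
  show 0 < wg β (kap J) (box N M) ω₀ * ctt N ω₀
  rw [hct, mul_one]
  exact wg_pos _ _ _ _

theorem mag_wall {β J : ℝ} (hβ : 0 ≤ β) {N M x y : ℤ} (hx : |x| ≤ N) (hy : 2 ≤ y) (hyM : y ≤ M) :
    (mag β + avg β (kap 1) (ubox N (M - 1)) (eta 0) (fun ω => sp (ω (x, y - 1)))) / 2 ≤
      avg β (kap J) (box N M) (eta 0) (fun ω => sp (ω (x, y))) := by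
  have hM : 1 ≤ M := by omega
  have hx' := abs_le.1 hx
  have hvu : ((x, y) : Site) ∈ ubox N M := by
    rw [mem_ubox]
    simp only
    omega
  have hcore := wall_core (N := N) hM (β := β) (J := J) hβ ⟨(x, y), hvu⟩
  simp only at hcore
  have hZc := Zg_ctt_pos80 (β := β) (J := J) (N := N) hM
  set Zc := Zg β (kap J) (box N M) (eta 0) (fun ω => ctt N ω) with hZcdef
  have hZ1 : 0 < Zg β (kap J) (box N M) (eta 0) (fun _ => 1) := Zg_one_pos
  -- the upper part
  have hup : mag β * Zc ≤ Zg β (kap J) (box N M) (eta 0) (fun ω => ctt N ω * sp (ω (x, y))) := by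
    have hsub : lp80 N M ⊆ box N M := by
      intro i hi
      rw [mem_lp80] at hi
      rw [mem_box]
      omega
    rw [dlr hsub (ctt N) (fun ω => sp (ω (x, y))) ?_, hZcdef, ← Zg_smul]
    · refine Zg_mono fun ω hω => ?_
      by_cases h0 : ctt N ω = 0
      · rw [h0, mul_zero, zero_mul]
      · rw [mul_comm (mag β)]
        refine mul_le_mul_of_nonneg_left ?_ (ctt_nonneg80 N ω)
        have hs := ctt_spec80 h0
        have hbd : SameBdry (lp80 N M) tt ω := by
          intro i hi hadj
          symm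
          show ω i = true
          rw [mem_lp80] at hi
          rw [mem_lp80, mem_lp80, mem_lp80, mem_lp80, (add_e1_80 i).1, (add_e1_80 i).2, (sub_e1_80 i).1,
            (sub_e1_80 i).2, (add_e2_80 i).1, (add_e2_80 i).2, (sub_e2_80 i).1, (sub_e2_80 i).2] at hadj
          by_cases hb : i ∈ box N M
          · rw [mem_box] at hb
            have h1 : i.2 = 1 := by omega
            have h2 := (hs i.1 (abs_le.2 (by omega))).2
            rw [← h1] at h2
            exact h2
          · rw [mem_confs] at hω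
            rw [hω i hb]
            have h1 : 0 + 1 ≤ i.2 := by omega
            simp only [eta, h1, decide_true]
        have hvl : ((x, y) : Site) ∈ lp80 N M := by
          rw [mem_lp80]
          simp only
          omega
        rw [avg_sameBdry hbd (F := fun ω => sp (ω (x, y))) (fun ω ω' h => by
          have := h _ hvl
          simp only [this])]
        have hk : ∀ i ∈ vb (lp80 N M), kap J i = kap 1 i := by
          intro i hi
          rw [mem_vb, mem_lp80, mem_lp80, (add_e2_80 i).1, (add_e2_80 i).2] at hi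
          unfold kap
          rw [if_neg (by omega), if_neg (by omega)]
        rw [avg_kap_congr hk]
        exact mag_le hβ le_rfl hvl
    · intro ω ξ hξ
      rw [mem_confs] at hξ
      refine ctt_congr80 fun z _ => ⟨hξ _ ?_, hξ _ ?_⟩ <;>
      · rw [mem_lp80]
        simp only
        omega
  -- the lower part
  have hdown : Zg β (kap J) (box N M) (eta 0) (fun ω => ctt N ω * sp (ω (bar (x, y)))) =
      (-avg β (kap 1) (ubox N (M - 1)) (eta 0) (fun ω => sp (ω (x, y - 1)))) * Zc := by
    have hsub : lm80 N M ⊆ box N M := by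
      intro i hi
      rw [mem_lm80] at hi
      rw [mem_box]
      omega
    refine Zg_cond hsub (ctt N) (fun ω => sp (ω (bar (x, y)))) ?_ _ ?_
    · intro ω ξ hξ
      rw [mem_confs] at hξ
      refine ctt_congr80 fun z _ => ⟨hξ _ ?_, hξ _ ?_⟩ <;>
      · rw [mem_lm80]
        simp only
        omega
    · intro ω hω h0
      have hs := ctt_spec80 h0
      have hbd : SameBdry (lm80 N M) em80 ω := by
        intro i hi hadj
        rw [mem_lm80] at hi
        rw [mem_lm80, mem_lm80, mem_lm80, mem_lm80, (add_e1_80 i).1, (add_e1_80 i).2, (sub_e1_80 i).1,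
          (sub_e1_80 i).2, (add_e2_80 i).1, (add_e2_80 i).2, (sub_e2_80 i).1, (sub_e2_80 i).2] at hadj
        by_cases hb : i ∈ box N M
        · rw [mem_box] at hb
          have h1 : i.2 = 0 := by omega
          have h2 := (hs i.1 (abs_le.2 (by omega))).1
          rw [← h1] at h2
          have h3 : ω i = true := h2
          have h4 : 0 ≤ i.2 := by omega
          rw [h3]
          simp only [em80, h4, decide_true]
        · rw [mem_confs] at hω
          rw [hω i hb]
          rw [mem_box] at hb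
          have h1 : ¬ (0 + 1 ≤ i.2) := by omega
          have h2 : ¬ (0 ≤ i.2) := by omega
          simp only [em80, eta, h1, h2, decide_false]
      have hvl : bar (x, y) ∈ lm80 N M := by
        rw [mem_lm80]
        simp only [bar]
        omega
      rw [avg_sameBdry hbd (F := fun ω => sp (ω (bar (x, y)))) (fun ω ω' h => by
        have := h _ hvl
        simp only [this])]
      have hk : ∀ i ∈ vb (lm80 N M), kap J i = kap 1 i := by
        intro i hi
        rw [mem_vb, mem_lm80, mem_lm80, (add_e2_80 i).1, (add_e2_80 i).2] at hi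
        unfold kap
        rw [if_neg (by omega), if_neg (by omega)]
      rw [avg_kap_congr hk]
      have h1 := avg_rr80 (β := β) (N := N) (M := M) (fun ω => (-1) * sp (ω (x, y - 1)))
      have h2 : (fun ω : Cfg => (-1) * sp (rr80 ω (x, y - 1))) = fun ω => sp (ω (bar (x, y))) := by
        funext ω
        have h3 : rr80 ω (x, y - 1) = !(ω (bar (x, y))) := by
          unfold rr80 bar
          congr 2
          refine Prod.ext rfl ?_
          show -(y - 1) = 1 - y
          ring
        rw [h3, sp_not]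
        ring
      rw [h2, avg_smul] at h1
      rw [h1]
      ring
  -- combination
  have hy2 : Zg β (kap J) (box N M) (eta 0) (fun ω => ctt N ω * yv (x, y) ω) =
      2⁻¹ * (Zg β (kap J) (box N M) (eta 0) (fun ω => ctt N ω * sp (ω (x, y))) -
        Zg β (kap J) (box N M) (eta 0) (fun ω => ctt N ω * sp (ω (bar (x, y))))) := by
    rw [← Zg_sub, ← Zg_smul]
    refine Zg_congr fun ω _ => ?_
    unfold yv
    ring
  rw [avg_sp_eq hM β J (x, y)]
  unfold avg at hdown ⊢
  set W := Zg β (kap 1) (ubox N (M - 1)) (eta 0) (fun ω => sp (ω (x, y - 1))) /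
    Zg β (kap 1) (ubox N (M - 1)) (eta 0) (fun _ => 1) with hW
  rw [le_div_iff₀ hZ1]
  refine le_of_mul_le_mul_left ?_ hZc
  calc Zc * ((mag β + W) / 2 * Zg β (kap J) (box N M) (eta 0) (fun _ => 1))
      = Zg β (kap J) (box N M) (eta 0) (fun _ => 1) * (2⁻¹ * (mag β * Zc - (-W) * Zc)) := by ring
    _ ≤ Zg β (kap J) (box N M) (eta 0) (fun _ => 1) *
        Zg β (kap J) (box N M) (eta 0) (fun ω => ctt N ω * yv (x, y) ω) := by
        refine mul_le_mul_of_nonneg_left ?_ hZ1.le
        rw [hy2, hdown]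
        linarith
    _ ≤ _ := hcore

end Pool.Agent.Helper49.DX
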