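import Pool.Agent.Helper49.DX.Hs

/-!
Block DX-WMN: monotonicity of the wall interface in the size of the box.

Paper proof. By `wall_mono` `avg (ubox n' n') ≤ avg (ubox n' n)` for `Hts n' 𝒲`. Let `ω ∈ confs (ubox n' n) (eta 0)`. Then
`Hts n' 𝒲 ω → Hts n 𝒲 ω`: by `above_iff` (for `box n' n` and for `box n n`; `confs (ubox n' n) (eta 0)` is contained in both `confs (box _ n) (eta 0)`)
it suffices that `Low n' n ω i → Low n n ω i`: first, every site with height `≤ 0` is `Low n n ω` (if it is outside `box n n` trivially;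
inside it is `false` (`ω = eta 0` off `ubox n' n`) and it is joined vertically to `(x, -n)`, which is outside the box, through `false` sites). The path for
`Low n' n ω i` starts at a site of height `≤ 0` and its steps are in `box n' n ⊆ box n n` (`low_step`).
So `avg (ubox n' n) (1 {Hts n'}) ≤ avg (ubox n' n) (1 {Hts n})`, and `avg (ubox n' n) (1 {Hts n}) ≤ avg (ubox n n) (1 {Hts n})` by `avg_fixed_tt` for the
monotone function `1 - 1 {DD}` with `DD ω = ∃ W ∈ 𝒲, ∀ p ∈ W, ∃ y ≥ p.2, Low n n ω (p.1, y)` (antitone by `low_anti`; equal to `Hts n 𝒲 ω` on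
`confs (box n n) (eta 0)`), `eta 0 = true` on `ubox n n \ ubox n' n`. Pattern: the proof of `wall_mono` (Mn.lean).
-/

open Finset
open scoped Classical

namespace Pool.Agent.Helper49.DX

open Pool.Agent.Helper49.DL

/-- the event in terms of `Low` -/
private def DD98 (n M : ℤ) (𝒲 : Finset (Finset (ℤ × ℤ))) (ω : Cfg) : Prop :=
  ∃ W ∈ 𝒲, ∀ p ∈ W, ∃ y, p.2 ≤ y ∧ Low n M ω (p.1, y)

private theorem dd_anti98 {n M : ℤ} {𝒲 : Finset (Finset (ℤ × ℤ))} {ω ω' : Cfg} (h : ω ≤ ω')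
    (hD : DD98 n M 𝒲 ω') : DD98 n M 𝒲 ω := by
  obtain ⟨W, hW, h1⟩ := hD
  refine ⟨W, hW, fun p hp => ?_⟩
  obtain ⟨y, hy, h2⟩ := h1 p hp
  exact ⟨y, hy, low_anti h h2⟩

private theorem hts_iff98 {n M : ℤ} (hn : 0 ≤ n) (hM : 1 ≤ M) (𝒲 : Finset (Finset (ℤ × ℤ))) {ω : Cfg}
    (h : ω ∈ confs (box n M) (eta 0)) : Hts n 𝒲 ω ↔ DD98 n M 𝒲 ω := by
  unfold Hts DD98
  constructor
  · rintro ⟨W, hW, h1⟩
    exact ⟨W, hW, fun p hp => (above_iff h hn hM).1 (h1 p hp)⟩
  · rintro ⟨W, hW, h1⟩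
    exact ⟨W, hW, fun p hp => (above_iff h hn hM).2 (h1 p hp)⟩

/-- sites of height at most `0` are `Low` -/
private theorem low_base98 {n : ℤ} {ω : Cfg} (h : ω ∈ confs (ubox n n) (eta 0)) (hn : 1 ≤ n) (x : ℤ) (k : ℕ) :
    Low n n ω (x, -n - 1 + k) ∨ 0 < -n - 1 + (k : ℤ) := by
  induction k with
  | zero =>
    left
    refine ⟨(x, -n - 1 + ((0 : ℕ) : ℤ)), ?_, ?_, Relation.ReflTransGen.refl⟩
    · rw [mem_box]
      push_cast
      omega
    · push_cast
      change -n - 1 + 0 ≤ 0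
      omega
  | succ k ih =>
    rcases ih with ih | ih
    · by_cases h0 : 0 < -n - 1 + ((k + 1 : ℕ) : ℤ)
      · exact Or.inr h0
      left
      by_cases hb : ((x, -n - 1 + ((k + 1 : ℕ) : ℤ)) : Site) ∈ box n n
      · obtain ⟨r, hr, hr0, hp⟩ := ih
        refine ⟨r, hr, hr0, hp.tail ⟨?_, ?_, hb⟩⟩
        · refine ⟨?_, ?_⟩
          · change |x - x| ≤ 1
            simp
          · change |(-n - 1 + (k : ℤ)) - (-n - 1 + ((k + 1 : ℕ) : ℤ))| ≤ 1
            rw [abs_le]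
            push_cast
            constructor <;> omega
        · rw [mem_confs] at h
          rw [h _ (fun hh => ?_)]
          · unfold eta
            rw [decide_eq_false_iff_not]
            simpa using h0
          · rw [mem_ubox] at hh
            simp only at hh
            omega
      · refine ⟨_, hb, ?_, Relation.ReflTransGen.refl⟩
        simpa using h0
    · right
      push_cast
      omega

private theorem low_incl98 {n' n : ℤ} {ω : Cfg} (h : ω ∈ confs (ubox n' n) (eta 0)) (h1 : 1 ≤ n') (hn : n' ≤ n)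
    {i : Site} (hL : Low n' n ω i) : Low n n ω i := by
  have hsub : ω ∈ confs (ubox n n) (eta 0) := by
    rw [mem_confs] at h ⊢
    intro j hj
    refine h j fun hh => hj ?_
    rw [mem_ubox] at hh ⊢
    omega
  obtain ⟨r, hr, hr0, hp⟩ := hL
  have hbase : Low n n ω r := by
    by_cases hb : r ∈ box n n
    · rw [mem_box] at hb
      have h2 := low_base98 hsub (h1.trans hn) r.1 (r.2 + n + 1).toNat
      have h3 : ((r.2 + n + 1).toNat : ℤ) = r.2 + n + 1 := Int.toNat_of_nonneg (by omega)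
      rw [h3] at h2
      have h4 : -n - 1 + (r.2 + n + 1) = r.2 := by ring
      rw [h4] at h2
      rcases h2 with h2 | h2
      · exact h2
      · omega
    · exact ⟨r, hb, hr0, Relation.ReflTransGen.refl⟩
  induction hp with
  | refl => exact hbase
  | @tail a b _ hab ih =>
    obtain ⟨r', hr', hr0', hp'⟩ := ih
    refine ⟨r', hr', hr0', hp'.tail ⟨hab.1, hab.2.1, ?_⟩⟩
    have h2 := hab.2.2
    rw [mem_box] at h2 ⊢
    omega

theorem wall_mono_n {β : ℝ} (hβ : 0 ≤ β) {n' n : ℤ} (h1 : 1 ≤ n') (hn : n' ≤ n)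
    (𝒲 : Finset (Finset (ℤ × ℤ))) :
    PW β n' (Hts n' 𝒲) ≤ PW β n (Hts n 𝒲) := by
  have hn1 : 1 ≤ n := h1.trans hn
  have hbox : ∀ {m : ℤ} {ω : Cfg}, m ≤ n → ω ∈ confs (ubox m n) (eta 0) → ω ∈ confs (box m n) (eta 0) := by
    intro m ω _ hω
    rw [mem_confs] at hω ⊢
    intro i hi
    refine hω i fun h => hi ?_
    rw [mem_ubox] at h
    rw [mem_box]
    omega
  have hup : ∀ {ω : Cfg}, ω ∈ confs (ubox n' n) (eta 0) → ω ∈ confs (ubox n n) (eta 0) := by
    intro ω hω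
    rw [mem_confs] at hω ⊢
    intro i hi
    refine hω i fun h => hi ?_
    rw [mem_ubox] at h ⊢
    omega
  have hdm : Monotone (fun ξ : Cfg => (1 : ℝ) - if DD98 n n 𝒲 ξ then 1 else 0) := by
    intro ξ ξ' h
    change (1 : ℝ) - (if DD98 n n 𝒲 ξ then 1 else 0) ≤ 1 - if DD98 n n 𝒲 ξ' then 1 else 0
    by_cases h1 : DD98 n n 𝒲 ξ'
    · rw [if_pos h1, if_pos (dd_anti98 h h1)]
    · rw [if_neg h1]
      split_ifs <;> norm_num
  have hsub : ubox n' n ⊆ ubox n n := by
    intro i hi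
    rw [mem_ubox] at hi ⊢
    omega
  have key := avg_fixed_tt (Λ := ubox n n) (Λ' := ubox n' n) (η := eta 0) hβ
    (kap_nonneg zero_le_one) hsub (by
      intro i hi _
      rw [mem_ubox] at hi
      unfold eta
      rw [decide_eq_true_eq]
      omega) hdm
  rw [avg_sub, avg_sub, avg_const, avg_const] at key
  have e1 : avg β (kap 1) (ubox n' n) (eta 0) (fun ω => if Hts n' 𝒲 ω then (1 : ℝ) else 0) ≤
      avg β (kap 1) (ubox n' n) (eta 0) (fun ω => if DD98 n n 𝒲 ω then 1 else 0) := by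
    have e2 : avg β (kap 1) (ubox n' n) (eta 0) (fun ω => if Hts n' 𝒲 ω then (1 : ℝ) else 0) =
        avg β (kap 1) (ubox n' n) (eta 0)
          (fun ω => if (Hts n' 𝒲 ω ∧ ω ∈ confs (ubox n' n) (eta 0)) then 1 else 0) := by
      refine avg_congr fun ω hω => ?_
      by_cases h : Hts n' 𝒲 ω
      · rw [if_pos h, if_pos ⟨h, hω⟩]
      · rw [if_neg h, if_neg (fun h' => h h'.1)]
    rw [e2]
    refine avg_mono fun ω _ => ?_
    by_cases h : Hts n' 𝒲 ω ∧ ω ∈ confs (ubox n' n) (eta 0)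
    · obtain ⟨hH, hω⟩ := h
      rw [if_pos ⟨hH, hω⟩, if_pos]
      obtain ⟨W, hW, h2⟩ := (hts_iff98 (by omega) hn1 𝒲 (hbox hn hω)).1 hH
      refine ⟨W, hW, fun p hp => ?_⟩
      obtain ⟨y, hy, h3⟩ := h2 p hp
      exact ⟨y, hy, low_incl98 hω h1 hn h3⟩
    · rw [if_neg h]
      split_ifs
      · exact zero_le_one
      · exact le_rfl
  have e3 : avg β (kap 1) (ubox n n) (eta 0) (fun ω => if DD98 n n 𝒲 ω then (1 : ℝ) else 0) =
      avg β (kap 1) (ubox n n) (eta 0) (fun ω => if Hts n 𝒲 ω then 1 else 0) := by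
    refine avg_congr fun ω hω => ?_
    have h := hts_iff98 (by omega) hn1 𝒲 (hbox le_rfl hω)
    by_cases h' : Hts n 𝒲 ω
    · rw [if_pos h', if_pos (h.1 h')]
    · rw [if_neg h', if_neg (fun h2 => h' (h.2 h2))]
  have e4 := wall_mono hβ (n := n') (M := n') (M' := n) (by omega) h1 hn 𝒲
  unfold PW
  linarith

end Pool.Agent.Helper49.DX
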