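import Pool.Agent.Helper49.DX.Ww
import Pool.Agent.Helper49.DX.Wmn
import Pool.Agent.Helper49.DX.Sh

/-!
Block DX-TS: the two-sided comparison.

Paper proofs.
* `thin_lower`: if `Above n x (K + L) ω` (bond at `y' ≥ K + L`) and a bond `((x, y), false)` of the interface has `y < K`, then `Wide n ω L` (`y + L ≤ y'`). So
  `Hs n L 𝒲 ω → HsL n 𝒲 ω ∨ Wide n ω L`, and `PJ_or`.
* `lower_log`: `C_e, R_e` from `excursion` for `t / 4` (clauses 1 and 4), `C_w` from `wall_width` (`R = R_e`, `t / 2`). `L = ⌈C_e log n⌉`, `H = ⌈C_w log n⌉` (both `≥ 1` for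
  `n ≥ 2`.. take `max 1`), `C = C_e + C_w + 4`: for large `n` `L + H ≤ S`. Then with `hs_shf` (the family `shf L 𝒲`) and `hs_mono`
  `PJ (HsL n 𝒲) ≥ PJ (Hs n L 𝒲) - t/4 ≥ 1/2 PW (n-R) (Hts (n-R) (shf L 𝒲)) - t/2 ≥ 1/2 (PW n (Hs n H (shf L 𝒲)) - t/2) - t/2 ≥ 1/2 PW n (Hs n S 𝒲) - t`.
* `upper_log`: `C_u` from `upper_hs`, `C_w` from `wall_width`. With `t' = t / (4 (m + 1))`: `R` from `upper_hs` for `t'`; `wall_width` for `R`, `t'`. For large `n`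
  `L = ⌈C_u log n⌉₊`, `H = ⌈C_w log n⌉₊` (naturals). Let `C = 4 (m + 1) (C_u + C_w + 4) / t + 4 (C_u + C_w + 4) + 4`; `S ≥ C log n`, put `s₀ = S / 2` (floor), `S₁ = S - s₀` (natural, `≥ S / 2`); for large `n`
  `R + L + H ≤ s₀`. `shift_choice` for `T = 𝒲.biUnion id`, `f p k = PW β (n - R) (Above (n - R) p.1 k)`, `k p = p.2 + s₀`, the number `L + H` and `S₁`: some `s < S₁` with
  `∑_p (f p (p.2 + s₀ + s - (L + H)) - f p (p.2 + s₀ + s)) ≤ m (L + H) / S₁ ≤ t / 2` (as `S₁ ≥ C log n / 2`). Then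
  `PJ (Hs n S 𝒲) ≤ PJ (Hs n (s₀ + s) 𝒲)` (`hs_mono`, `s₀ + s ≤ S`) `≤ 1/2 PW (n-R) (Hs (n-R) (s₀+s) 𝒲) + ∑_p (1/2 PW n (Above n p.1 (p.2+s₀+s-L)) - 1/2 f p (p.2+s₀+s) + t')`
  (`upper_hs`); `PW n (Above n p.1 (p.2+s₀+s-L)) ≤ f p (p.2+s₀+s-L-H) + t'` by `wall_width` for `𝒲 = {{(p.1, p.2+s₀+s-L-H)}}` (`hts_single`, the height is `≥ 1`);
  `PW (n-R) (Hs (n-R) (s₀+s) 𝒲) ≤ PW (n-R) (Hts (n-R) 𝒲) ≤ PW n (Hts n 𝒲)` (`hs_mono`, `wall_mono_n`). Total: `1/2 PW n (Hts n 𝒲) + t/4 + m t' * 3/2 ≤ 1/2 PW n (Hts n 𝒲) + t`.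
-/

open Finset
open scoped Classical

namespace Pool.Agent.Helper49.DX

open Pool.Agent.Helper49.DL

private theorem log_ge6 {n : ℤ} (hn : (3 : ℤ) ≤ n) : (1 : ℝ) ≤ Real.log n := by
  have h1 : Real.exp 1 ≤ n := by
    have h2 : (3 : ℝ) ≤ n := by exact_mod_cast hn
    have h3 := Real.exp_one_lt_d9
    linarith
  have h4 := Real.log_le_log (Real.exp_pos 1) h1
  rwa [Real.log_exp] at h4

theorem thin_lower {β J : ℝ} {n L : ℤ} (𝒲 : Finset (Finset (ℤ × ℤ))) :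
    PJ β J n (Hs n L 𝒲) ≤ PJ β J n (HsL n 𝒲) + PJ β J n (fun ω => Wide n ω L) := by
  refine PJ_or fun ω hω => ?_
  by_cases hw : Wide n ω L
  · exact Or.inr hw
  · left
    obtain ⟨W, hW, hA⟩ := hω
    refine ⟨W, hW, fun p hp y hy => ?_⟩
    by_contra hlt
    obtain ⟨y', hy', hI⟩ := hA p hp
    exact hw ⟨((p.1, y), false), ((p.1, y'), false), hy, hI, rfl, by
      simp only
      omega⟩

theorem lower_log {β₁ β J : ℝ} (h0 : 0 ≤ β₁) (h : β₁ < β) (hm : 0 < mag β₁) (hJ : 1 < J) :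
    ∃ C : ℝ, 0 < C ∧ ∀ t : ℝ, 0 < t → ∃ R n₀ : ℤ, 0 ≤ R ∧ R < n₀ ∧ ∀ n : ℤ, n₀ ≤ n →
      ∀ (𝒲 : Finset (Finset (ℤ × ℤ))) (S : ℤ), C * Real.log n ≤ S →
        (∀ W ∈ 𝒲, ∀ p ∈ W, |p.1| ≤ n - R ∧ 1 ≤ p.2) →
        1 / 2 * PW β n (Hs n S 𝒲) - t ≤ PJ β J n (HsL n 𝒲) := by
  obtain ⟨C1, hC1, hex⟩ := excursion h0 h hm hJ
  obtain ⟨C2, hC2, hww⟩ := wall_width h0 h hm
  refine ⟨C1 + C2 + 2, by linarith, fun t ht => ?_⟩
  obtain ⟨R, n1, hR, hRn, hex⟩ := hex (t / 4) (by linarith)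
  obtain ⟨n2, hww⟩ := hww R (t / 2) hR (by linarith)
  refine ⟨R, max (max n1 n2) 3, hR, lt_of_lt_of_le hRn ((le_max_left _ _).trans (le_max_left _ _)),
    fun n hn 𝒲 S hS h𝒲 => ?_⟩
  have hn1 : n1 ≤ n := ((le_max_left _ _).trans (le_max_left _ _)).trans hn
  have hn2 : n2 ≤ n := ((le_max_right _ _).trans (le_max_left _ _)).trans hn
  have hn3 : (3 : ℤ) ≤ n := (le_max_right _ _).trans hn
  have hlog : (1 : ℝ) ≤ Real.log n := log_ge6 hn3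
  obtain ⟨hlow, -, -, hwide⟩ := hex n hn1
  obtain ⟨L, hL⟩ : ∃ L : ℤ, L = ⌈C1 * Real.log n⌉ := ⟨_, rfl⟩
  obtain ⟨H, hH⟩ : ∃ H : ℤ, H = ⌈C2 * Real.log n⌉ := ⟨_, rfl⟩
  have hL1 : C1 * Real.log n ≤ L := by rw [hL]; exact Int.le_ceil _
  have hH1 : C2 * Real.log n ≤ H := by rw [hH]; exact Int.le_ceil _
  have hL2 : (L : ℝ) ≤ C1 * Real.log n + 1 := by rw [hL]; exact (Int.ceil_lt_add_one _).le
  have hH2 : (H : ℝ) ≤ C2 * Real.log n + 1 := by rw [hH]; exact (Int.ceil_lt_add_one _).le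
  have hLpos : (0 : ℤ) < L := by
    have : (0 : ℝ) < L := lt_of_lt_of_le (by positivity) hL1
    exact_mod_cast this
  have hLH : L + H ≤ S := by
    have : (L : ℝ) + H ≤ S := by
      have : (C1 + C2 + 2) * Real.log n = C1 * Real.log n + C2 * Real.log n + 2 * Real.log n := by ring
      linarith
    exact_mod_cast this
  have hshf : ∀ V ∈ shf L 𝒲, ∀ q ∈ V, |q.1| ≤ n - R ∧ 1 ≤ q.2 := by
    intro V hV q hq
    rw [shf, Finset.mem_image] at hV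
    obtain ⟨W, hW1, rfl⟩ := hV
    obtain ⟨p, hp, rfl⟩ := Finset.mem_image.1 hq
    obtain ⟨g1, g2⟩ := h𝒲 W hW1 p hp
    exact ⟨g1, by simp only; omega⟩
  have a1 := thin_lower (β := β) (J := J) (n := n) (L := L) 𝒲
  have a2 := hwide L (by omega) hL1
  have a3 := hlow (shf L 𝒲) hshf
  have a4 := hww n hn2 H (shf L 𝒲) hH1 hshf
  have a5 : PJ β J n (Hts n (shf L 𝒲)) ≤ PJ β J n (Hs n L 𝒲) :=
    PJ_mono fun ω hω => (hs_shf n L 𝒲 ω).1 hω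
  have a6 : PW β n (Hs n S 𝒲) ≤ PW β n (Hs n H (shf L 𝒲)) := by
    refine PW_mono fun ω hω => ?_
    obtain ⟨W, hW, hA⟩ := hω
    refine ⟨W.image (fun p => (p.1, p.2 + L)), Finset.mem_image_of_mem _ hW, fun q hq => ?_⟩
    obtain ⟨p, hp, rfl⟩ := Finset.mem_image.1 hq
    exact above_mono (by simp only; omega) (hA p hp)
  linarith

theorem upper_log {β₁ β J : ℝ} (h0 : 0 ≤ β₁) (h : β₁ < β) (hm : 0 < mag β₁) (hJ : 1 < J) (m : ℕ)
    {t : ℝ} (ht : 0 < t) : ∃ (C : ℝ) (R n₀ : ℤ), 0 < C ∧ 0 ≤ R ∧ R < n₀ ∧ ∀ n : ℤ, n₀ ≤ n →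
      ∀ (𝒲 : Finset (Finset (ℤ × ℤ))) (S : ℤ), ∅ ∉ 𝒲 → (𝒲.biUnion id).card ≤ m →
        C * Real.log n ≤ S → (∀ W ∈ 𝒲, ∀ p ∈ W, |p.1| ≤ n - R ∧ 1 ≤ p.2 ∧ p.2 + S ≤ n - R) →
        PJ β J n (Hs n S 𝒲) ≤ 1 / 2 * PW β n (Hts n 𝒲) + t := by
  obtain ⟨C1, hC1, hup⟩ := upper_hs h0 h hm hJ
  obtain ⟨C2, hC2, hww⟩ := wall_width h0 h hm
  have hβ : 0 ≤ β := h0.trans h.le
  have hm1 : (0 : ℝ) < (m : ℝ) + 1 := by positivity
  obtain ⟨t', ht'⟩ : ∃ t' : ℝ, t' = t / (4 * ((m : ℝ) + 1)) := ⟨_, rfl⟩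
  have ht'0 : 0 < t' := by rw [ht']; positivity
  have hmt : (m : ℝ) * t' ≤ t / 4 := by
    have : ((m : ℝ) + 1) * t' = t / 4 := by
      rw [ht']
      field_simp
    linarith
  obtain ⟨R, n1, hR, hRn, hup⟩ := hup t' ht'0
  obtain ⟨n2, hww⟩ := hww R t' hR ht'0
  obtain ⟨D, hD⟩ : ∃ D : ℝ, D = C1 + C2 + 2 := ⟨_, rfl⟩
  have hD0 : 0 < D := by linarith
  obtain ⟨n3, hn3⟩ : ∃ n3 : ℤ, Real.exp ((R : ℝ) + 1) ≤ n3 := ⟨⌈Real.exp ((R : ℝ) + 1)⌉, Int.le_ceil _⟩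
  refine ⟨4 * (m : ℝ) * D / t + 2 * (D + 1), R, max (max n1 n2) n3, by positivity, hR,
    lt_of_lt_of_le hRn ((le_max_left _ _).trans (le_max_left _ _)), fun n hn 𝒲 S hemp hcard hS h𝒲 => ?_⟩
  have hn1 : n1 ≤ n := ((le_max_left _ _).trans (le_max_left _ _)).trans hn
  have hn2 : n2 ≤ n := ((le_max_right _ _).trans (le_max_left _ _)).trans hn
  have hn3' : n3 ≤ n := (le_max_right _ _).trans hn
  have hlogR : (R : ℝ) + 1 ≤ Real.log n := by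
    have h1 : Real.exp ((R : ℝ) + 1) ≤ n := hn3.trans (by exact_mod_cast hn3')
    have h2 := Real.log_le_log (Real.exp_pos _) h1
    rwa [Real.log_exp] at h2
  have hR0 : (0 : ℝ) ≤ R := by exact_mod_cast hR
  have hlog : (1 : ℝ) ≤ Real.log n := by linarith
  obtain ⟨L, hL⟩ : ∃ L : ℕ, L = ⌈C1 * Real.log n⌉₊ := ⟨_, rfl⟩
  obtain ⟨H, hH⟩ : ∃ H : ℕ, H = ⌈C2 * Real.log n⌉₊ := ⟨_, rfl⟩
  have hL1 : C1 * Real.log n ≤ L := by rw [hL]; exact Nat.le_ceil _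
  have hH1 : C2 * Real.log n ≤ H := by rw [hH]; exact Nat.le_ceil _
  have hL2 : (L : ℝ) ≤ C1 * Real.log n + 1 := by
    rw [hL]; exact (Nat.ceil_lt_add_one (by positivity)).le
  have hH2 : (H : ℝ) ≤ C2 * Real.log n + 1 := by
    rw [hH]; exact (Nat.ceil_lt_add_one (by positivity)).le
  have hLH : (L : ℝ) + H ≤ D * Real.log n := by
    have : D * Real.log n = C1 * Real.log n + C2 * Real.log n + 2 * Real.log n := by rw [hD]; ring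
    linarith
  have hSb : 2 * (D + 1) * Real.log n ≤ S := by
    refine le_trans (mul_le_mul_of_nonneg_right ?_ (by linarith)) hS
    have : 0 ≤ 4 * (m : ℝ) * D / t := by positivity
    linarith
  have hSm : 4 * (m : ℝ) * D / t * Real.log n ≤ S := by
    refine le_trans (mul_le_mul_of_nonneg_right ?_ (by linarith)) hS
    linarith
  have hSbig : 2 * ((L : ℤ) + H + R + 1) ≤ S := by
    have : 2 * ((L : ℝ) + H + R + 1) ≤ S := by
      have e : 2 * (D + 1) * Real.log n = 2 * (D * Real.log n) + 2 * Real.log n := by ring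
      linarith
    exact_mod_cast this
  obtain ⟨s₀, S₁, hs0, hsum⟩ : ∃ s₀ S₁ : ℕ, ((s₀ : ℤ) = S / 2) ∧ (S₁ : ℤ) = S - s₀ := by
    refine ⟨(S / 2).toNat, (S - S / 2).toNat, ?_, ?_⟩
    · rw [Int.toNat_of_nonneg (by omega)]
    · rw [Int.toNat_of_nonneg (by omega), Int.toNat_of_nonneg (by omega)]
  have hS1 : 1 ≤ S₁ := by omega
  have hs0L : (L : ℤ) + H + R ≤ s₀ := by omega
  have hS1S : (S : ℝ) ≤ 2 * S₁ := by
    have : S ≤ 2 * (S₁ : ℤ) := by omega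
    exact_mod_cast this
  obtain ⟨s, hs, hsh⟩ := shift_choice (𝒲.biUnion id)
    (f := fun p k => PW β (n - R) (Above (n - R) p.1 k)) (fun p k => PW_nonneg _ _ _)
    (fun p k => PW_le_one _ _ _) (fun p => p.2 + s₀) (L + H) hS1
  have hpW : ∀ p ∈ 𝒲.biUnion id, |p.1| ≤ n - R ∧ 1 ≤ p.2 ∧ p.2 + S ≤ n - R := by
    intro p hp
    obtain ⟨W, hW, hp'⟩ := Finset.mem_biUnion.1 hp
    exact h𝒲 W hW p hp'
  have b1 : PJ β J n (Hs n S 𝒲) ≤ PJ β J n (Hs n (s₀ + s) 𝒲) :=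
    PJ_mono fun ω hω => hs_mono (by omega) hω
  have b2 := hup n hn1 𝒲 (s₀ + s) L hemp hL1 (by
    intro W hW p hp
    obtain ⟨g1, g2, g3⟩ := h𝒲 W hW p hp
    exact ⟨g1, by omega, by omega⟩)
  have b3 : PW β (n - R) (Hs (n - R) (s₀ + s) 𝒲) ≤ PW β n (Hts n 𝒲) := by
    refine le_trans (PW_mono fun ω hω => ?_) (wall_mono_n hβ (n' := n - R) (n := n) (by omega) (by omega) 𝒲)
    exact (hs_zero _ _ _).1 (hs_mono (by omega) hω)
  have b4 : ∑ p ∈ 𝒲.biUnion id, (1 / 2 * PW β n (Above n p.1 (p.2 + ((s₀ : ℤ) + s) - L)) -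
      1 / 2 * PW β (n - R) (Above (n - R) p.1 (p.2 + ((s₀ : ℤ) + s))) + t') ≤
      ∑ p ∈ 𝒲.biUnion id, (1 / 2 * (PW β (n - R) (Above (n - R) p.1 (p.2 + s₀ + s - ((L + H : ℕ) : ℤ))) -
        PW β (n - R) (Above (n - R) p.1 (p.2 + s₀ + s))) + 3 / 2 * t') := by
    refine Finset.sum_le_sum fun p hp => ?_
    obtain ⟨g1, g2, g3⟩ := hpW p hp
    have c1 := hww n hn2 H {{(p.1, p.2 + s₀ + s - ((L + H : ℕ) : ℤ))}} hH1 (by
      intro W hW q hq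
      rw [Finset.mem_singleton] at hW
      rw [hW, Finset.mem_singleton] at hq
      rw [hq]
      refine ⟨g1, ?_⟩
      simp only
      push_cast
      omega)
    have c2 : PW β n (Above n p.1 (p.2 + ((s₀ : ℤ) + s) - L)) ≤
        PW β n (Hs n H {{(p.1, p.2 + s₀ + s - ((L + H : ℕ) : ℤ))}}) := by
      refine PW_mono fun ω hω => ?_
      refine ⟨_, Finset.mem_singleton_self _, fun q hq => ?_⟩
      rw [Finset.mem_singleton] at hq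
      rw [hq]
      exact above_mono (by simp only; push_cast; omega) hω
    have c3 : PW β (n - R) (Hts (n - R) {{(p.1, p.2 + s₀ + s - ((L + H : ℕ) : ℤ))}}) ≤
        PW β (n - R) (Above (n - R) p.1 (p.2 + s₀ + s - ((L + H : ℕ) : ℤ))) :=
      PW_mono fun ω hω => (hts_single _ _ _ _).1 hω
    have c4 : p.2 + ((s₀ : ℤ) + s) = p.2 + s₀ + s := by ring
    rw [c4] at c2 ⊢
    linarith
  have b5 : ∑ p ∈ 𝒲.biUnion id, (1 / 2 * (PW β (n - R) (Above (n - R) p.1 (p.2 + s₀ + s - ((L + H : ℕ) : ℤ))) -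
        PW β (n - R) (Above (n - R) p.1 (p.2 + s₀ + s))) + 3 / 2 * t') ≤ t := by
    rw [Finset.sum_add_distrib, ← Finset.mul_sum, Finset.sum_const, nsmul_eq_mul]
    have hc : ((𝒲.biUnion id).card : ℝ) ≤ m := by exact_mod_cast hcard
    have d1 : ((𝒲.biUnion id).card : ℝ) * (3 / 2 * t') ≤ m * (3 / 2 * t') :=
      mul_le_mul_of_nonneg_right hc (by linarith)
    have hS1' : (0 : ℝ) < S₁ := by exact_mod_cast hS1
    have d2 : ((𝒲.biUnion id).card : ℝ) * ((L + H : ℕ) : ℝ) / S₁ ≤ t / 2 := by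
      rw [div_le_iff₀ hS1']
      have e1 : ((𝒲.biUnion id).card : ℝ) * ((L + H : ℕ) : ℝ) ≤ m * (D * Real.log n) := by
        refine mul_le_mul hc ?_ (by positivity) (by positivity)
        push_cast
        exact hLH
      have e2 : 4 * ((m : ℝ) * (D * Real.log n)) ≤ t * S := by
        have e3 : 4 * (m : ℝ) * D / t * Real.log n = 4 * ((m : ℝ) * (D * Real.log n)) / t := by
          field_simp
        rw [e3, div_le_iff₀ ht] at hSm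
        linarith
      have e4 : t * S ≤ t * (2 * S₁) := mul_le_mul_of_nonneg_left hS1S ht.le
      linarith
    have d3 : ∑ p ∈ 𝒲.biUnion id, (PW β (n - R) (Above (n - R) p.1 (p.2 + s₀ + s - ((L + H : ℕ) : ℤ))) -
        PW β (n - R) (Above (n - R) p.1 (p.2 + s₀ + s))) ≤ t / 2 := hsh.trans d2
    have d4 : (m : ℝ) * (3 / 2 * t') = 3 / 2 * (m * t') := by ring
    linarith
  linarith

end Pool.Agent.Helper49.DX
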