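import Pool.Agent.Helper49.DL.Explore

/-!
Block DX-W1A: the interface in terms of the sites star-connected to the lower boundary, and the region
`Up` above.

Paper proofs.
* `gam_low`: by induction along the chain from `b` to `((N + 1, 0), false)` (`Relation.ReflTransGen.head_induction_on`):
  the `false` endpoint of every bond of the chain is `Low`. The bond `((N + 1, 0), false)`: the endpoint `(N + 1, 0)` is
  outside the box, of height `0`. Step: `a` touches `c` (both broken) at the plaquette `p`; the `false` endpoints of `a`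
  and `c` are corners of `p`, so star-adjacent; if that of `c` is `Low` so is that of `a`: if it is in the box by
  `low_step`, if it is outside it has height `≤ 0` (for height `≥ 1` the spin is `true`) and it is `Low` by definition.
* `above_iff`: `⇐` `low_below`; `⇒` `gam_low` for the bond `((x, y), false)`: `(x, y)` or `(x, y + 1)` is `Low`.
* `low_anti`: the path of `ω'` is a path of `ω`. `up_mono`: by `low_anti`.
* `up_not_low`: the last site of the path is `¬ Low`, or it is `r` itself, outside the box with height `≥ 1`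
  (`Low` for a site outside the box means height `≤ 0`: the path is trivial, see `low_iff`).
* `col_low`: induct upwards: if no `(x, y')`, `y ≤ y' ≤ M`, is `Low` then `(x, M + 1), (x, M), ..., (x, y)` is a path of
  non-`Low` sites from outside (height `M + 1 ≥ 1`), so `(x, y)` is `Up`.
-/

open Finset
open scoped Classical

namespace Pool.Agent.Helper49.DX

open Pool.Agent.Helper49.DL

section

variable {N M : ℤ} {ω ω' : Cfg}

/-- Sites star-connected to the upper boundary by sites that are not `Low`. -/
def Up (N M : ℤ) (ω : Cfg) (i : Site) : Prop :=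
  ∃ r, r ∉ box N M ∧ 1 ≤ r.2 ∧
    Relation.ReflTransGen (fun a b => StarAdj a b ∧ ¬ Low N M ω b ∧ b ∈ box N M) r i

private lemma corner_h12 {p i : Site} {a : Bond} (ha : Side p a) (hi : i = a.1 ∨ i = bend a) :
    (p.1 ≤ i.1 ∧ i.1 ≤ p.1 + 1) ∧ (p.2 ≤ i.2 ∧ i.2 ≤ p.2 + 1) := by
  rcases ha with rfl | rfl | rfl | rfl <;> rcases hi with rfl | rfl <;>
    simp [bend, e1, e2]

private lemma star_h12 {p i j : Site} (hi : (p.1 ≤ i.1 ∧ i.1 ≤ p.1 + 1) ∧ (p.2 ≤ i.2 ∧ i.2 ≤ p.2 + 1))
    (hj : (p.1 ≤ j.1 ∧ j.1 ≤ p.1 + 1) ∧ (p.2 ≤ j.2 ∧ j.2 ≤ p.2 + 1)) : StarAdj i j := by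
  unfold StarAdj
  rw [abs_le, abs_le]
  omega

private lemma step_h12 (h : ω ∈ confs (box N M) (eta 0)) {i j : Site} (hi : Low N M ω i)
    (hij : StarAdj i j) (hj : ω j = false) : Low N M ω j := by
  by_cases hb : j ∈ box N M
  · exact low_step hi hij hj hb
  · refine ⟨j, hb, ?_, Relation.ReflTransGen.refl⟩
    by_contra hc
    rw [mem_confs] at h
    rw [h j hb] at hj
    simp only [eta, decide_eq_false_iff_not] at hj
    omega

theorem gam_low (h : ω ∈ confs (box N M) (eta 0)) (hN : 0 ≤ N) (hM : 1 ≤ M) {b : Bond}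
    (hb : Interface N ω b) : Low N M ω b.1 ∨ Low N M ω (bend b) := by
  have key : ∀ i : Site, (i = b.1 ∨ i = bend b) → ω i = false → Low N M ω i := by
    obtain ⟨-, hc⟩ := hb
    refine Relation.ReflTransGen.head_induction_on
      (motive := fun a _ => ∀ i : Site, (i = a.1 ∨ i = bend a) → ω i = false → Low N M ω i) hc ?_ ?_
    · intro i hi hω
      rcases hi with rfl | rfl
      · refine ⟨_, ?_, le_rfl, Relation.ReflTransGen.refl⟩
        rw [mem_box]
        simp only
        omega
      · exfalso
        have hout : bend (((N + 1, 0) : Site), false) ∉ box N M := by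
          rw [mem_box]
          simp [bend, e2]
        rw [mem_confs] at h
        rw [h _ hout] at hω
        simp [eta, bend, e2] at hω
    · intro a c hac _ ih i hi hω
      obtain ⟨_, hbc, p, hpa, hpc⟩ := hac
      obtain ⟨j, hj, hjω⟩ : ∃ j : Site, (j = c.1 ∨ j = bend c) ∧ ω j = false := by
        unfold Broken at hbc
        cases h1 : ω c.1
        · exact ⟨_, Or.inl rfl, h1⟩
        · cases h2 : ω (bend c)
          · exact ⟨_, Or.inr rfl, h2⟩
          · rw [h1, h2] at hbc
            exact absurd rfl hbc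
      exact step_h12 h (ih j hj hjω) (star_h12 (corner_h12 hpc hj) (corner_h12 hpa hi)) hω
  have hbr := hb.1
  unfold Broken at hbr
  cases h1 : ω b.1
  · exact Or.inl (key _ (Or.inl rfl) h1)
  · cases h2 : ω (bend b)
    · exact Or.inr (key _ (Or.inr rfl) h2)
    · rw [h1, h2] at hbr
      exact absurd rfl hbr

/-- `Above` in terms of `Low`. -/
theorem above_iff (h : ω ∈ confs (box N M) (eta 0)) (hN : 0 ≤ N) (hM : 1 ≤ M) {x K : ℤ} :
    Above N x K ω ↔ ∃ y, K ≤ y ∧ Low N M ω (x, y) := by
  constructor
  · rintro ⟨y, hy, hI⟩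
    rcases gam_low h hN hM hI with h1 | h1
    · exact ⟨y, hy, h1⟩
    · refine ⟨y + 1, by omega, ?_⟩
      have e : bend (((x, y) : Site), false) = (x, y + 1) := by
        simp [bend, e2]
      rw [e] at h1
      exact h1
  · rintro ⟨y, hy, hL⟩
    obtain ⟨y', hy', hI⟩ := low_below h hN hM hL
    exact ⟨y', hy.trans hy', hI⟩

theorem low_anti (hωω : ω ≤ ω') {i : Site} (h : Low N M ω' i) : Low N M ω i := by
  obtain ⟨r, hr, hr0, hp⟩ := h
  refine ⟨r, hr, hr0, ?_⟩
  induction hp with
  | refl => exact Relation.ReflTransGen.refl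
  | @tail a b _ hab ih =>
    refine ih.tail ⟨hab.1, ?_, hab.2.2⟩
    have h1 : ω b ≤ ω' b := hωω b
    rw [hab.2.1] at h1
    exact le_bot_iff.1 h1

theorem up_mono (hωω : ω ≤ ω') {i : Site} (h : Up N M ω i) : Up N M ω' i := by
  obtain ⟨r, hr, hr0, hp⟩ := h
  refine ⟨r, hr, hr0, ?_⟩
  induction hp with
  | refl => exact Relation.ReflTransGen.refl
  | tail _ hab ih => exact ih.tail ⟨hab.1, fun hL => hab.2.1 (low_anti hωω hL), hab.2.2⟩

theorem up_not_low {i : Site} (h : Up N M ω i) : ¬ Low N M ω i := by
  obtain ⟨r, hr, hr0, hp⟩ := h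
  cases hp with
  | refl =>
    intro hL
    rcases low_iff.1 hL with h1 | h1
    · exact hr (Finset.mem_filter.1 h1).1
    · omega
  | tail _ hb => exact hb.2.1

/-- One step. -/
theorem up_step {i j : Site} (hi : Up N M ω i) (hij : StarAdj i j) (hj : ¬ Low N M ω j)
    (hb : j ∈ box N M) : Up N M ω j := by
  obtain ⟨r, hr, hr0, hp⟩ := hi
  exact ⟨r, hr, hr0, hp.tail ⟨hij, hj, hb⟩⟩

theorem col_low (hM : 1 ≤ M) {x y : ℤ} (hb : (x, y) ∈ box N M) (h : ¬ Up N M ω (x, y)) :
    ∃ y', y ≤ y' ∧ Low N M ω (x, y') := by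
  by_contra hcon
  push Not at hcon
  apply h
  rw [mem_box] at hb
  simp only at hb
  have key : ∀ n : ℕ, y ≤ M + 1 - n → Up N M ω (x, M + 1 - n) := by
    intro n
    induction n with
    | zero =>
      intro _
      refine ⟨_, ?_, ?_, Relation.ReflTransGen.refl⟩
      · rw [mem_box]
        simp
      · simp only [Nat.cast_zero, sub_zero]
        omega
    | succ n ih =>
      intro hn
      push_cast at hn ⊢
      refine up_step (ih (by omega)) ?_ (hcon _ (by omega)) ?_
      · unfold StarAdj
        rw [abs_le, abs_le]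
        simp only
        omega
      · rw [mem_box]
        simp only
        omega
  have h1 := key (M + 1 - y).toNat
  rw [Int.toNat_of_nonneg (by omega)] at h1
  have e : M + 1 - (M + 1 - y) = y := by ring
  rw [e] at h1
  exact h1 le_rfl

end

end Pool.Agent.Helper49.DX
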