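import Pool.Agent.Helper49.DX.Wl1

/-!
Block DX-W1B: the region `Up` lies above the interface.

Paper proof.
* `up_gg`: by induction along the path, `gg = 0`. Start: `r` outside the box with `1 ≤ r.2`: if `r.2 > M` the sum in `gg`
  is empty; otherwise `|r.1| > N` and the column of `r` above height `1` has no broken bond (spins `true`), so
  `ig_unbroken`. Step `i → j`, `StarAdj i j`, both `¬ Low` (for `i`: `up_not_low`), `gg i = 0`. If `i`, `j` are nearest
  neighbours with `gg i ≠ gg j` then the bond is in the interface (`gg_vert`, `gg_hor`), so by `gam_low` one endpoint is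
  `Low`, contradiction. If `j = i + (±1, ±1)`, let `a`, `b` be the two other corners of the plaquette. If `a` is not
  `Low`, use two nearest neighbour steps; the same for `b`. If both are `Low` they are `false`; `i` is a neighbour of
  `a`, so `i` is `true` (if `false` and in the box it would be `Low` by `low_step`; if `false` and outside the box it has
  height `≤ 0` and is `Low`), the same for `j`. So all four bonds of the plaquette are broken, hence they have the same
  `ig` (`ig_side`), and `gg i = gg a + ig = gg j + ig + ig = gg j`.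
-/

open Finset
open scoped Classical

namespace Pool.Agent.Helper49.DX

open Pool.Agent.Helper49.DL

section

variable {N M : ℤ} {ω : Cfg}

private lemma low_of_false14 (h : ω ∈ confs (box N M) (eta 0)) {a b : Site} (ha : Low N M ω a)
    (hab : StarAdj a b) (hb : ω b = false) : Low N M ω b := by
  by_cases hbox : b ∈ box N M
  · obtain ⟨r, hr, hr0, hp⟩ := ha
    exact ⟨r, hr, hr0, hp.tail ⟨hab, hb, hbox⟩⟩
  · refine ⟨b, hbox, ?_, Relation.ReflTransGen.refl⟩
    by_contra hc
    have h1 : ω b = eta 0 b := (mem_confs.1 h) b hbox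
    rw [hb] at h1
    simp only [eta] at h1
    have h2 : decide (0 + 1 ≤ b.2) = true := by
      rw [decide_eq_true_eq]
      omega
    rw [h2] at h1
    exact absurd h1 (by decide)

private lemma ig_zero14 (h : ω ∈ confs (box N M) (eta 0)) (hN : 0 ≤ N) (hM : 1 ≤ M) {b : Bond}
    (h1 : ¬ Low N M ω b.1) (h2 : ¬ Low N M ω (bend b)) : ig N ω b = 0 := by
  unfold ig
  rw [if_neg]
  intro hb
  rcases gam_low h hN hM hb with h3 | h3
  · exact h1 h3
  · exact h2 h3

private lemma star_step14 (h : ω ∈ confs (box N M) (eta 0)) (hN : 0 ≤ N) (hM : 1 ≤ M) {i j : Site}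
    (hij : StarAdj i j) (hi : ¬ Low N M ω i) (hj : ¬ Low N M ω j) : gg N M ω i = gg N M ω j := by
  have hM0 : 0 ≤ M := by omega
  have hh : ∀ x y : ℤ, ¬ Low N M ω (x, y) → ¬ Low N M ω (x + 1, y) →
      gg N M ω (x, y) = gg N M ω (x + 1, y) := by
    intro x y h1 h2
    apply zeq
    rw [gg_hor h hM0, ig_zero14 h hN hM (b := ((x, y), true)) h1]
    have : bend ((x, y), true) = (x + 1, y) := by simp [bend, e1]
    rw [this]
    exact h2
  have hv : ∀ x y : ℤ, ¬ Low N M ω (x, y) → ¬ Low N M ω (x, y + 1) →
      gg N M ω (x, y) = gg N M ω (x, y + 1) := by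
    intro x y h1 h2
    rw [gg_vert h hM0, ig_zero14 h hN hM (b := ((x, y), false)) h1, zero_add]
    have : bend ((x, y), false) = (x, y + 1) := by simp [bend, e2]
    rw [this]
    exact h2
  have hT : ∀ a b : Site, Low N M ω a → StarAdj a b → ¬ Low N M ω b → ω b = true := by
    intro a b ha hab hb
    by_contra hc
    rw [Bool.not_eq_true] at hc
    exact hb (low_of_false14 h ha hab hc)
  have hd1 : ∀ x y : ℤ, ¬ Low N M ω (x, y) → ¬ Low N M ω (x + 1, y + 1) →
      gg N M ω (x, y) = gg N M ω (x + 1, y + 1) := by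
    intro x y h1 h2
    by_cases hl : Low N M ω (x + 1, y)
    · have hk := low_false h hl
      have t1 := hT _ (x, y) hl (by simp [StarAdj]) h1
      have t2 := hT _ (x + 1, y + 1) hl (by simp [StarAdj]) h2
      have e1' := gg_hor h hM0 x y
      have e2' := gg_vert h hM0 (x + 1) y
      have s := ig_side (N := N) (ω := ω) (p := (x, y)) (a := ((x, y), true))
        (b := ((x + 1, y), false)) (Or.inl rfl) (Or.inr (Or.inr (Or.inl (by simp [e1]))))
        (by unfold Broken bend; simp [e1, t1, hk]) (by unfold Broken bend; simp [e2, t2, hk])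
      rw [← s] at e2'
      rw [e2'] at e1'
      have : ∀ a b c : ZMod 2, a + (c + b) = c → a = b := by decide
      exact this _ _ _ e1'
    · rw [hh x y h1 hl, hv (x + 1) y hl h2]
  have hd2 : ∀ x y : ℤ, ¬ Low N M ω (x, y + 1) → ¬ Low N M ω (x + 1, y) →
      gg N M ω (x, y + 1) = gg N M ω (x + 1, y) := by
    intro x y h1 h2
    by_cases hl : Low N M ω (x, y)
    · have hk := low_false h hl
      have t1 := hT _ (x, y + 1) hl (by simp [StarAdj]) h1
      have t2 := hT _ (x + 1, y) hl (by simp [StarAdj]) h2
      have e1' := gg_hor h hM0 x y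
      have e2' := gg_vert h hM0 x y
      have s := ig_side (N := N) (ω := ω) (p := (x, y)) (a := ((x, y), true))
        (b := ((x, y), false)) (Or.inl rfl) (Or.inr (Or.inl rfl))
        (by unfold Broken bend; simp [e1, t2, hk]) (by unfold Broken bend; simp [e2, t1, hk])
      rw [← s] at e2'
      rw [e2'] at e1'
      have : ∀ a b c : ZMod 2, c + a + b = c → a = b := by decide
      exact this _ _ _ e1'
    · rw [← hv x y hl h1, hh x y hl h2]
  obtain ⟨x, y⟩ := i
  obtain ⟨x', y'⟩ := j
  unfold StarAdj at hij
  simp only at hij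
  have h1 := abs_le.1 hij.1
  have h2 := abs_le.1 hij.2
  have hx : x' = x - 1 ∨ x' = x ∨ x' = x + 1 := by omega
  have hy : y' = y - 1 ∨ y' = y ∨ y' = y + 1 := by omega
  rcases hx with rfl | rfl | rfl <;> rcases hy with rfl | rfl | rfl
  · have := hd1 (x - 1) (y - 1)
    simp only [sub_add_cancel] at this
    exact (this hj hi).symm
  · have := hh (x - 1) y'
    simp only [sub_add_cancel] at this
    exact (this hj hi).symm
  · have := hd2 (x - 1) y
    simp only [sub_add_cancel] at this
    exact (this hj hi).symm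
  · have := hv x' (y - 1)
    simp only [sub_add_cancel] at this
    exact (this hj hi).symm
  · rfl
  · exact hv x' y hi hj
  · have := hd2 x (y - 1)
    simp only [sub_add_cancel] at this
    exact this hi hj
  · exact hh x y' hi hj
  · exact hd1 x y hi hj

private lemma gg_start14 (h : ω ∈ confs (box N M) (eta 0)) {r : Site} (hr : r ∉ box N M) (hr1 : 1 ≤ r.2) :
    gg N M ω r = 0 := by
  have ht : ∀ y : ℤ, 1 ≤ y → ((r.1, y) : Site) ∉ box N M → ω (r.1, y) = true := by
    intro y hy hb
    rw [(mem_confs.1 h) _ hb]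
    simp only [eta, decide_eq_true_eq]
    omega
  unfold gg
  refine Finset.sum_eq_zero fun y hy => ?_
  rw [Finset.mem_Icc] at hy
  have hout : ∀ z : ℤ, ((r.1, z) : Site) ∉ box N M := by
    intro z hz
    rw [mem_box] at hr hz
    simp only at hr hz
    omega
  apply ig_unbroken
  unfold Broken bend
  simp only [Bool.false_eq_true, if_false, e2, Prod.mk_add_mk, add_zero, ne_eq, not_not]
  rw [ht y (by omega) (hout y), ht (y + 1) (by omega) (hout _)]

theorem up_gg (h : ω ∈ confs (box N M) (eta 0)) (hN : 0 ≤ N) (hM : 1 ≤ M) {i : Site}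
    (hi : Up N M ω i) : gg N M ω i = 0 := by
  obtain ⟨r, hr, hr1, hp⟩ := hi
  induction hp with
  | refl => exact gg_start14 h hr hr1
  | @tail b c hab hb ih =>
    rw [← ih]
    exact (star_step14 h hN hM hb.1 (up_not_low ⟨r, hr, hr1, hab⟩) hb.2.1).symm

end

end Pool.Agent.Helper49.DX
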