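import Pool.Agent.Helper49.DX.Wl1

/-!
Block DX-W2A: exploration of the `true` clusters of the row `1` inside the upper box of half-width `n`.

`n ≤ N`, `U = ubox n M` (the sites `|x| ≤ n`, `1 ≤ y ≤ M`). `Vb` is the set of sites of `U` joined to the row `1` by
nearest neighbour paths of `true` sites in `U`. `Wr V` are the sites of `U` in the rows `≥ 2` that are neither in `V` nor
adjacent to `V`.

Paper proofs.
* `vb_congr`: if `ξ = ω` off `Wr V` then `Vb ξ = V ↔ Vb ω = V`. By symmetry assume `Vb ω = V`. Sites of `V`, their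
  neighbours and the row `1` are not in `Wr V`, so `ξ = ω` there. `V ⊆ Vb ξ`: the paths of `ω` consist of sites of `V`.
  `Vb ξ ⊆ V`: induction along a path of `ξ`.
* `wr_bdry`: `Vb ω = V`, `j ∈ Wr V`, `i ∉ Wr V` adjacent to `j`: if `i ∈ U` then `i ∉ V` (a site of `Wr V` is not adjacent to `V`), and
  `i ∉ Wr V` means `i.2 = 1` or `i` is adjacent to a site of `V`; in both cases `ω i = true` would put `i` in `Vb ω = V`.
-/

open Finset
open scoped Classical

namespace Pool.Agent.Helper49.DX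

open Pool.Agent.Helper49.DL

/-- Nearest neighbours. -/
def Nb (i j : Site) : Prop := j = i + e1 ∨ j = i - e1 ∨ j = i + e2 ∨ j = i - e2

/-- Joined to the row `1` by `true` sites. -/
def Vc (n M : ℤ) (ω : Cfg) (i : Site) : Prop :=
  ∃ r, r ∈ ubox n M ∧ r.2 = 1 ∧ ω r = true ∧
    Relation.ReflTransGen (fun a b => Nb a b ∧ ω b = true ∧ b ∈ ubox n M) r i

/-- The `true` clusters of the row `1`. -/
noncomputable def Vb (n M : ℤ) (ω : Cfg) : Finset Site := (ubox n M).filter (Vc n M ω)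

/-- The unexplored region. -/
noncomputable def Wr (n M : ℤ) (V : Finset Site) : Finset Site :=
  (ubox n M).filter (fun i => 2 ≤ i.2 ∧ i ∉ V ∧ ∀ j, Nb i j → j ∉ V)

/-- The lower boundary condition of the upper box. -/
noncomputable def zt (n M : ℤ) : Cfg := fun i => if i ∈ ubox n M then false else eta 0 i

section

variable {N M n : ℤ} {ω ξ : Cfg} {V : Finset Site}

private theorem nb_symm61 {i j : Site} (h : Nb i j) : Nb j i := by
  rcases h with h | h | h | h
  · exact Or.inr (Or.inl (by rw [h]; abel))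
  · exact Or.inl (by rw [h]; abel)
  · exact Or.inr (Or.inr (Or.inr (by rw [h]; abel)))
  · exact Or.inr (Or.inr (Or.inl (by rw [h]; abel)))

private theorem not_wr61 {i : Site} (h : i ∈ V) : i ∉ Wr n M V := fun h' =>
  (Finset.mem_filter.1 h').2.2.1 h

private theorem not_wr_adj61 {i j : Site} (hij : Nb i j) (h : j ∈ V) : i ∉ Wr n M V := fun h' =>
  (Finset.mem_filter.1 h').2.2.2 j hij h

private theorem not_wr_row61 {i : Site} (h : i.2 = 1) : i ∉ Wr n M V := fun h' => by
  have := (Finset.mem_filter.1 h').2.1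
  omega

private theorem vb_eq61 (hV : Vb n M ω = V) (h : ∀ i, i ∉ Wr n M V → ξ i = ω i) : Vb n M ξ = V := by
  have hmem : ∀ i, i ∈ ubox n M → Vc n M ω i → i ∈ V := fun i hi hc => by
    rw [← hV]
    exact Finset.mem_filter.2 ⟨hi, hc⟩
  ext i
  constructor
  · intro hi
    obtain ⟨hiu, r, hr, hr1, hrt, hp⟩ := Finset.mem_filter.1 hi
    have hr2 : ω r = true := by rw [← h r (not_wr_row61 hr1)]; exact hrt
    have key : Vc n M ω i ∧ i ∈ ubox n M := by
      clear hi hiu
      induction hp with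
      | refl => exact ⟨⟨r, hr, hr1, hr2, Relation.ReflTransGen.refl⟩, hr⟩
      | @tail b c _ hbc ih =>
        obtain ⟨⟨r', hr', hr1', hr2', hp'⟩, hb⟩ := ih
        have hbV : b ∈ V := hmem b hb ⟨r', hr', hr1', hr2', hp'⟩
        have hc : ω c = true := by
          rw [← h c (not_wr_adj61 (nb_symm61 hbc.1) hbV)]
          exact hbc.2.1
        exact ⟨⟨r', hr', hr1', hr2', hp'.tail ⟨hbc.1, hc, hbc.2.2⟩⟩, hbc.2.2⟩
    exact hmem i hiu key.1
  · intro hi
    rw [← hV] at hi
    obtain ⟨hiu, r, hr, hr1, hrt, hp⟩ := Finset.mem_filter.1 hi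
    refine Finset.mem_filter.2 ⟨hiu, r, hr, hr1, by rw [h r (not_wr_row61 hr1)]; exact hrt, ?_⟩
    clear hi hiu
    induction hp with
    | refl => exact Relation.ReflTransGen.refl
    | @tail b c hab hbc ih =>
      have hcV : c ∈ V := hmem c hbc.2.2 ⟨r, hr, hr1, hrt, hab.tail hbc⟩
      exact ih.tail ⟨hbc.1, by rw [h c (not_wr61 hcV)]; exact hbc.2.1, hbc.2.2⟩

theorem vb_congr (h : ξ ∈ confs (Wr n M V) ω) : Vb n M ξ = V ↔ Vb n M ω = V := by
  rw [mem_confs] at h
  exact ⟨fun hV => vb_eq61 hV fun i hi => (h i hi).symm, fun hV => vb_eq61 hV h⟩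

theorem wr_bdry (hV : Vb n M ω = V) {i j : Site} (hj : j ∈ Wr n M V) (hi : i ∉ Wr n M V)
    (hij : Nb j i) (hiu : i ∈ ubox n M) : ω i = false := by
  by_contra hne
  have ht : ω i = true := by simpa using hne
  have hmem : ∀ i, i ∈ ubox n M → Vc n M ω i → i ∈ V := fun i hi hc => by
    rw [← hV]
    exact Finset.mem_filter.2 ⟨hi, hc⟩
  have hiV : i ∉ V := (Finset.mem_filter.1 hj).2.2.2 i hij
  apply hi
  refine Finset.mem_filter.2 ⟨hiu, ?_, hiV, fun k hk hkV => ?_⟩
  · by_contra h2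
    have h3 : 1 ≤ i.2 := by
      unfold ubox at hiu
      rw [Finset.mem_product, Finset.mem_Icc, Finset.mem_Icc] at hiu
      exact hiu.2.1
    exact hiV (hmem i hiu ⟨i, hiu, by omega, ht, Relation.ReflTransGen.refl⟩)
  · have hkV' := hkV
    rw [← hV] at hkV'
    obtain ⟨-, r, hr, hr1, hrt, hp⟩ := Finset.mem_filter.1 hkV'
    exact hiV (hmem i hiu ⟨r, hr, hr1, hrt, hp.tail ⟨nb_symm61 hk, ht, hiu⟩⟩)

end

end Pool.Agent.Helper49.DX
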