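import Pool.Agent.Helper49.DX.Wl2

/-!
Block DX-W2B: the interface of the explored configuration (definitions in Wl2.lean).

Paper proofs.
* `flip_low` (the key inclusion): `ω̃ = glue (Wr V) ω ζ`, `ζ i = if i ∈ U then false else eta 0 i`. Suppose `Vb ω = V`,
  `ω ∈ confs (box N M) (eta 0)` and no site `(x, 1)`, `|x| ≤ n`, is `Up N M ω`. Claim: every site `i ∈ U` with
  `Low n M ω̃ i` is not `Up N M ω`. Induction along the path of `ω̃` (from `r ∉ box n M`, `r.2 ≤ 0`; all sites with
  `y ≤ 0` do not matter; the first site in `U` after a site not in `U` is in the row `1`, because the sites of the path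
  off `U` have height `≤ 0`: a `false` site of `ω̃` in `box n M` off `U` has height `≤ 0`): for a site `j ∈ U` of the path:
  - `j.2 = 1`: hypothesis.
  - `j ∈ V`: `j` is joined to the row `1` by `true` sites of `U`, which are not `Low` (`low_false`), so if `j` were `Up` then
    by `up_step` the site in the row `1` would be `Up`.
  - `j ∉ V`, `j.2 ≥ 2`: then `ω j = false`: if `j ∈ Wr V`, `ω j = ω̃ j = false`; otherwise `j` is adjacent to `V` and `ω j = true`
    would put it in `V`. The previous site `i` of the path is in `U` (as `j.2 ≥ 2`), not `Up` by induction. If `j` were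
    `Up` it is not `Low` (`up_not_low`); if `i` is not `Low` then `i` is `Up` by `up_step` (from `j`), contradiction; if `i` is `Low`
    then `j` is `Low` by `low_step` (`ω j = false`), contradiction.
* `above_flip`: `K ≥ 1`, `|x| ≤ n`, `y ≥ K`, `Low n M ω̃ (x, y)`: then `(x, y) ∈ U` (`y ≤ M`: above the box `ω̃` is `true`,
  `low_false`), so `(x, y)` is not `Up N M ω`, and `col_low` gives `y' ≥ y` with `Low N M ω (x, y')`.
-/

open Finset
open scoped Classical

namespace Pool.Agent.Helper49.DX

open Pool.Agent.Helper49.DL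

section

variable {N M n : ℤ} {ω ξ : Cfg} {V : Finset Site}

private lemma ubox_box24 (hnN : n ≤ N) {i : Site} (h : i ∈ ubox n M) : i ∈ box N M := by
  rw [mem_ubox] at h
  rw [mem_box]
  omega

private lemma nb_star24 {i j : Site} (h : Nb i j) : StarAdj j i := by
  unfold StarAdj
  rcases h with h | h | h | h <;> subst h <;>
    simp only [e1, e2, Prod.fst_add, Prod.snd_add, Prod.fst_sub, Prod.snd_sub] <;>
    constructor <;> rw [abs_le] <;> omega

private lemma nb_symm24 {i j : Site} (h : Nb i j) : Nb j i := by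
  rcases h with h | h | h | h
  · exact Or.inr (Or.inl (by rw [h, add_sub_cancel_right]))
  · exact Or.inl (by rw [h, sub_add_cancel])
  · exact Or.inr (Or.inr (Or.inr (by rw [h, add_sub_cancel_right])))
  · exact Or.inr (Or.inr (Or.inl (by rw [h, sub_add_cancel])))

private lemma path24 (h : ω ∈ confs (box N M) (eta 0)) (hnN : n ≤ N) {r j : Site}
    (hr : r ∈ ubox n M) (hr1 : ω r = true)
    (hp : Relation.ReflTransGen (fun a b => Nb a b ∧ ω b = true ∧ b ∈ ubox n M) r j) :
    (ω j = true ∧ j ∈ ubox n M) ∧ (Up N M ω j → Up N M ω r) := by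
  induction hp with
  | refl => exact ⟨⟨hr1, hr⟩, fun h => h⟩
  | @tail b c _ hbc ih =>
    refine ⟨hbc.2, fun hc => ih.2 ?_⟩
    refine up_step hc (nb_star24 hbc.1) (fun hl => ?_) (ubox_box24 hnN ih.1.2)
    have h1 := low_false h hl
    rw [ih.1.1] at h1
    exact Bool.noConfusion h1

theorem flip_low (h : ω ∈ confs (box N M) (eta 0)) (hn : 0 ≤ n) (hnN : n ≤ N) (hM : 1 ≤ M)
    (hV : Vb n M ω = V) (h1 : ∀ x : ℤ, |x| ≤ n → ¬ Up N M ω (x, 1)) {i : Site}
    (hi : i ∈ ubox n M) (hlow : Low n M (glue (Wr n M V) ω (zt n M)) i) : ¬ Up N M ω i := by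
  obtain ⟨r, hr, hr0, hp⟩ := hlow
  have key : (i ∈ ubox n M → ¬ Up N M ω i) ∧ (i ∉ ubox n M → i.2 ≤ 0) := by
    clear hi
    induction hp with
    | refl =>
      refine ⟨fun hu => ?_, fun _ => hr0⟩
      rw [mem_ubox] at hu
      omega
    | @tail b c _ hbc ih =>
      obtain ⟨hst, hcf, hcb⟩ := hbc
      refine ⟨fun hcu => ?_, fun hcu => ?_⟩
      swap
      · rw [mem_ubox] at hcu
        rw [mem_box] at hcb
        omega
      have hcu' := mem_ubox.1 hcu
      by_cases hc1 : c.2 = 1
      · have e : c = (c.1, 1) := Prod.ext rfl hc1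
        rw [e]
        exact h1 c.1 (abs_le.2 hcu'.1)
      · have hc2 : 2 ≤ c.2 := by omega
        have hbu : b ∈ ubox n M := by
          by_contra hb
          have h2 := ih.2 hb
          unfold StarAdj at hst
          have h3 := abs_le.1 hst.2
          omega
        have hbup := ih.1 hbu
        by_cases hcV : c ∈ V
        · intro hup
          rw [← hV] at hcV
          obtain ⟨r0, hr0u, hr01, hr0t, hp0⟩ := (Finset.mem_filter.1 hcV).2
          have h2 := (path24 h hnN hr0u hr0t hp0).2 hup
          have e : r0 = (r0.1, 1) := Prod.ext rfl hr01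
          rw [e] at h2
          exact h1 r0.1 (abs_le.2 (mem_ubox.1 hr0u).1) h2
        · have hcω : ω c = false := by
            by_cases hcW : c ∈ Wr n M V
            · unfold glue at hcf
              rw [if_pos hcW] at hcf
              exact hcf
            · by_contra hne
              have ht : ω c = true := by simpa using hne
              have hex : ∃ j, Nb c j ∧ j ∈ V := by
                by_contra hno
                push Not at hno
                exact hcW (Finset.mem_filter.2 ⟨hcu, hc2, hcV, hno⟩)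
              obtain ⟨j, hj, hjV⟩ := hex
              apply hcV
              rw [← hV] at hjV ⊢
              obtain ⟨r0, hr0u, hr01, hr0t, hp0⟩ := (Finset.mem_filter.1 hjV).2
              exact Finset.mem_filter.2 ⟨hcu, r0, hr0u, hr01, hr0t,
                hp0.tail ⟨nb_symm24 hj, ht, hcu⟩⟩
          intro hup
          by_cases hbl : Low N M ω b
          · exact up_not_low hup (low_step hbl hst hcω (ubox_box24 hnN hcu))
          · exact hbup (up_step hup (star_symm hst) hbl (ubox_box24 hnN hbu))
  exact key.1 hi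

theorem above_flip (h : ω ∈ confs (box N M) (eta 0)) (hn : 0 ≤ n) (hnN : n ≤ N) (hM : 1 ≤ M)
    (hV : Vb n M ω = V) (h1 : ∀ x : ℤ, |x| ≤ n → ¬ Up N M ω (x, 1)) {x K : ℤ} (hx : |x| ≤ n)
    (hK : 1 ≤ K) (hlow : ∃ y, K ≤ y ∧ Low n M (glue (Wr n M V) ω (zt n M)) (x, y)) :
    ∃ y, K ≤ y ∧ Low N M ω (x, y) := by
  obtain ⟨y, hy, hl⟩ := hlow
  have hb : (x, y) ∈ box n M := by
    rcases low_iff.1 hl with h2 | h2
    · exact (Finset.mem_filter.1 h2).1
    · have h3 : y ≤ 0 := h2.2
      omega
  have hb' := mem_box.1 hb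
  have hu : (x, y) ∈ ubox n M := by
    rw [mem_ubox]
    simp only at hb' ⊢
    omega
  obtain ⟨y', hy', hl'⟩ := col_low hM (ubox_box24 hnN hu) (flip_low h hn hnN hM hV h1 hu hl)
  exact ⟨y', hy.trans hy', hl'⟩

end

end Pool.Agent.Helper49.DX
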