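import Pool.Agent.Helper49.DX.Wl3
import Pool.Agent.Helper49.DX.Wl1b
import Pool.Agent.Helper49.DX.Nc
import Pool.Agent.Helper49.DL.Refl

/-!
Block DX-W4: lower bound for the heights of the interface, `J > 1`.

Paper proof. `no_contact` with `t / 2` gives `R`, `n₀`. Put `n = N - R`, `C ω = ∃ x, |x| ≤ n ∧ On N ω (x, 0)`, so
`P C ≤ t / 2`. If `¬ C ω` and `gg N M ω (0, 1) = 1` then `gg N M ω (x, 1) = 1` for all `|x| ≤ n`: `gg_hor` with `y = 1`, the bond
`((x, 1), true)` is a side of the plaquette `(x, 0)`, so `ig = 0` (induction on `|x|`); hence `¬ Up N M ω (x, 1)` by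
`up_gg`. So `P (∀ x, |x| ≤ n → ¬ Up N M ω (x, 1)) ≥ P (gg (0, 1) = 1) - P C ≥ 1/2 - P (Interface ((0, 0), false)) - P C ≥
1/2 - t` by `side_half` (`Interface N ω ((0, 0), false)` implies `On N ω (0, 0)`; `n ≥ 0`). `wall_lower`, and the wall probability
is in `[0, 1]`.
-/

open Finset
open scoped Classical

namespace Pool.Agent.Helper49.DX

open Pool.Agent.Helper49.DL

private theorem gg_step26 {N M : ℤ} {ω : Cfg} (h : ω ∈ confs (box N M) (eta 0)) (hM : 0 ≤ M) {x : ℤ}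
    (hc : ¬ On N ω (x, 0)) : gg N M ω (x, 1) = gg N M ω (x + 1, 1) := by
  have h1 := gg_hor h hM x 1
  have h2 : ig N ω ((x, 1), true) = 0 := by
    unfold ig
    rw [if_neg]
    intro h3
    refine hc ⟨((x, 1), true), Or.inr (Or.inr (Or.inr ?_)), h3⟩
    simp [e2]
  rw [h2] at h1
  exact CharTwo.add_eq_zero.1 h1

private theorem gg_row26 {N M n : ℤ} {ω : Cfg} (h : ω ∈ confs (box N M) (eta 0)) (hM : 0 ≤ M)
    (h1 : gg N M ω (0, 1) = 1) (hc : ¬ ∃ x : ℤ, |x| ≤ n ∧ On N ω (x, 0)) (x : ℤ) (hx : |x| ≤ n) :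
    gg N M ω (x, 1) = 1 := by
  have hc' : ∀ y : ℤ, |y| ≤ n → ¬ On N ω (y, 0) := fun y hy ho => hc ⟨y, hy, ho⟩
  have hpos : ∀ k : ℕ, (k : ℤ) ≤ n → gg N M ω ((k : ℤ), 1) = 1 := by
    intro k
    induction k with
    | zero => intro _; exact h1
    | succ k ih =>
      intro hk
      push_cast at hk ⊢
      rw [← gg_step26 h hM (hc' k (by rw [Nat.abs_cast]; omega))]
      exact ih (by omega)
  have hneg : ∀ k : ℕ, (k : ℤ) ≤ n → gg N M ω (-(k : ℤ), 1) = 1 := by
    intro k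
    induction k with
    | zero => intro _; exact h1
    | succ k ih =>
      intro hk
      push_cast at hk ⊢
      have h2 : |(-((k : ℤ) + 1))| ≤ n := by
        rw [abs_neg, abs_of_nonneg (by omega)]
        exact hk
      rw [gg_step26 h hM (hc' _ h2)]
      have h3 : -((k : ℤ) + 1) + 1 = -(k : ℤ) := by ring
      rw [h3]
      exact ih (by omega)
  rcases Int.eq_nat_or_neg x with ⟨k, rfl | rfl⟩
  · exact hpos k (by rwa [Nat.abs_cast] at hx)
  · exact hneg k (by rwa [abs_neg, Nat.abs_cast] at hx)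

theorem lower_final {β₁ β J : ℝ} (h0 : 0 ≤ β₁) (h : β₁ < β) (hm : 0 < mag β₁) (hJ : 1 < J) {t : ℝ}
    (ht : 0 < t) : ∃ R₀ : ℤ, 0 ≤ R₀ ∧ ∀ R : ℤ, R₀ ≤ R → ∃ n : ℤ, R ≤ n ∧ ∀ N M : ℤ, n ≤ N → N ≤ M →
      ∀ 𝒲 : Finset (Finset (ℤ × ℤ)), (∀ W ∈ 𝒲, ∀ p ∈ W, |p.1| ≤ N - R ∧ 1 ≤ p.2) →
        1 / 2 * avg β (kap 1) (ubox (N - R) M) (eta 0)
          (fun ω => if Hts (N - R) 𝒲 ω then 1 else 0) - t ≤
          avg β (kap J) (box N M) (eta 0) (fun ω => if Hts N 𝒲 ω then 1 else 0) := by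
  obtain ⟨R₀, n0, hR₀, hnc⟩ := no_contact h0 h hm hJ (half_pos ht)
  refine ⟨R₀, hR₀, fun R hRR => ?_⟩
  have hR : 0 ≤ R := hR₀.trans hRR
  refine ⟨max (max n0 R) 1, (le_max_right _ _).trans (le_max_left _ _), ?_⟩
  intro N M hN hNM 𝒲 h𝒲
  have hN0 : n0 ≤ N := ((le_max_left _ _).trans (le_max_left _ _)).trans hN
  have hNR : R ≤ N := ((le_max_right _ _).trans (le_max_left _ _)).trans hN
  have hN1 : 1 ≤ N := (le_max_right _ _).trans hN
  have hM1 : 1 ≤ M := hN1.trans hNM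
  have hNn : 0 ≤ N := by omega
  have hnR : 0 ≤ N - R := sub_nonneg.2 hNR
  have hnN : N - R ≤ N := sub_le_self N hR
  have hβ : 0 ≤ β := h0.trans h.le
  have hJ0 : 0 ≤ J := zero_le_one.trans hJ.le
  have hwall := wall_lower (β := β) (J := J) (N := N) (M := M) (n := N - R) hβ hJ0 hnR hnN hM1 𝒲 h𝒲
  have hc : avg β (kap J) (box N M) (eta 0)
      (fun ω => if ∃ x : ℤ, |x| ≤ N - R ∧ On N ω (x, 0) then 1 else 0) ≤ t / 2 := by
    refine le_trans (avg_mono fun ω _ => ?_) (hnc N M hN0 hNM)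
    by_cases h2 : ∃ x : ℤ, |x| ≤ N - R ∧ On N ω (x, 0)
    · obtain ⟨x, hx, hx2⟩ := h2
      have h3 : ∃ x : ℤ, |x| ≤ N - R₀ ∧ On N ω (x, 0) := ⟨x, hx.trans (by omega), hx2⟩
      rw [if_pos ⟨x, hx, hx2⟩, if_pos h3]
    · rw [if_neg h2]
      split_ifs
      · exact zero_le_one
      · exact le_rfl
  have hs := side_half hNn hM1 β J 0
  set a : ℝ := avg β (kap J) (box N M) (eta 0) (fun ω => if gg N M ω (0, 1) = 1 then 1 else 0) with ha
  set i0 : ℝ := avg β (kap J) (box N M) (eta 0)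
    (fun ω => if Interface N ω ((0, 0), false) then 1 else 0) with hi0
  set c : ℝ := avg β (kap J) (box N M) (eta 0)
    (fun ω => if ∃ x : ℤ, |x| ≤ N - R ∧ On N ω (x, 0) then 1 else 0) with hcdef
  set A : ℝ := avg β (kap J) (box N M) (eta 0)
    (fun ω => if ∀ x : ℤ, |x| ≤ N - R → ¬ Up N M ω (x, 1) then 1 else 0) with hA
  set w : ℝ := avg β (kap 1) (ubox (N - R) M) (eta 0)
    (fun ω => if Hts (N - R) 𝒲 ω then 1 else 0) with hw
  have h1 : i0 ≤ c := by
    refine avg_mono fun ω _ => ?_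
    by_cases h2 : Interface N ω ((0, 0), false)
    · have h3 : ∃ x : ℤ, |x| ≤ N - R ∧ On N ω (x, 0) := by
        refine ⟨0, ?_, ((0, 0), false), Or.inr (Or.inl rfl), h2⟩
        rw [abs_zero]
        omega
      rw [if_pos h2, if_pos h3]
    · rw [if_neg h2]
      split_ifs
      · exact zero_le_one
      · exact le_rfl
  have h2 : a ≤ A + c := by
    rw [hA, hcdef, ← avg_add]
    refine avg_mono fun ω hω => ?_
    by_cases h3 : gg N M ω (0, 1) = 1
    · by_cases h4 : ∃ x : ℤ, |x| ≤ N - R ∧ On N ω (x, 0)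
      · rw [if_pos h3, if_pos h4]
        split_ifs <;> norm_num
      · have h5 : ∀ x : ℤ, |x| ≤ N - R → ¬ Up N M ω (x, 1) := by
          intro x hx hup
          have h6 := up_gg hω hNn hM1 hup
          have h7 := gg_row26 hω (by omega) h3 h4 x hx
          rw [h6] at h7
          exact absurd h7 (by decide)
        rw [if_pos h3, if_neg h4, if_pos h5]
        norm_num
    · rw [if_neg h3]
      split_ifs <;> norm_num
  have h3 : 1 / 2 - i0 ≤ a := by
    have := (abs_le.1 hs).1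
    linarith
  have hw0 : 0 ≤ w := by
    refine avg_nonneg fun ω _ => ?_
    split_ifs
    · exact zero_le_one
    · exact le_rfl
  have hw1 : w ≤ 1 := by
    rw [← avg_const (β := β) (κ := kap 1) (Λ := ubox (N - R) M) (η := eta 0) 1]
    refine avg_mono fun ω _ => ?_
    split_ifs
    · exact le_rfl
    · exact zero_le_one
  have h4 : 1 / 2 - t ≤ A := by linarith
  refine le_trans ?_ hwall
  have h5 : (1 / 2 - t) * w ≤ A * w := mul_le_mul_of_nonneg_right h4 hw0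
  have h6 : t * w ≤ t := by
    have := mul_le_mul_of_nonneg_left hw1 ht.le
    rwa [mul_one] at this
  linarith

end Pool.Agent.Helper49.DX
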