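import Pool.Agent.Helper49.DX.End
import Pool.Agent.Helper49.DX.Bk4

/-!
Block DX-WW: the interfaces along walls of half-widths `n` and `n - R` are close.

Paper proof. If `R = 0` then `Hs n H 𝒲 ω → Hts n 𝒲 ω` for `H ≥ 0` (`hs_mono`, `hs_zero`). Let `R ≥ 1`, `l = n - R`. Use `J = 2`.
* (ends) for `x` with `|x| = l + 1 = n - (R - 1)` and `K ≥ C log n`: `PW β n (Above n x K) ≤ t / 2` for large `n`: `lower_final` (Wl4.lean) with `J = 2`, `t / 8`
  gives `R₀`; take `R' = R₀` there and `N = M = n + R'`, `𝒲 = {{(x, K)}}` (`hts_single`, `|x| ≤ N - R' = n`, `K ≥ 1`):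
  `1/2 * avg (ubox n (n + R')) (Above n x K) - t / 8 ≤ PJ β 2 (n + R') (Above (n + R') x K)`, and
  `PW β n (Above n x K) ≤ avg (ubox n (n + R')) (Above n x K)` by `wall_mono`. `end_tight` (`J = 2`) with `r = R' + R - 1`, `t / 8`:
  `|x| = N - r`, `K ≥ C₁ log N` as `log N ≤ 2 log n` for `n ≥ max R' 2`; take `C = 2 C₁`. So `PW ≤ 2 (t/8 + t/8)`.
* (middle) put `H' = H + 1`. If `H' ≤ n`: `block_wall` with `N = n`, `H'`: as `Hs n H 𝒲 ω` implies `Above n (-l-1) H' ω ∨ Above n (l+1) H' ω ∨ (the event of block_wall)`: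
  `PW β n (Hs n H 𝒲) ≤ t/2 + t/2 + avg (ubox l (n - H' + 1)) (Hts l 𝒲)` and by `wall_mono` (`1 ≤ n - H = n - H' + 1 ≤ l = n - R` as `H ≥ C log n ≥ R` for large `n`)
  the last term is at most `PW β l (Hts l 𝒲)`.
  If `H' > n`, i.e. `H ≥ n`: for nonempty `W` the event `∀ p ∈ W, Above n p.1 (p.2 + H)` does not happen on `confs (ubox n n) (eta 0)`: a bond `((x, y), false)` with
  `y ≥ n + 1` has both ends above the box, both `true`, so it is not `Broken`. If `∅ ∈ 𝒲` then `Hts l 𝒲` holds always and the right side is `≥ 1`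
  (`PW_le_one`, `avg_const`); otherwise the left side is `0`.
-/

open Finset
open scoped Classical

namespace Pool.Agent.Helper49.DX

open Pool.Agent.Helper49.DL

private theorem ends47 {β₁ β : ℝ} (h0 : 0 ≤ β₁) (h : β₁ < β) (hm : 0 < mag β₁) :
    ∃ C : ℝ, 0 < C ∧ ∀ (R : ℤ) (t : ℝ), 1 ≤ R → 0 < t → ∃ n₀ : ℤ, 1 ≤ n₀ ∧ ∀ n : ℤ, n₀ ≤ n →
      ∀ x K : ℤ, |x| = n - R + 1 → 1 ≤ K → C * Real.log n ≤ K → PW β n (Above n x K) ≤ t / 2 := by
  have hβ : 0 ≤ β := h0.trans h.le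
  obtain ⟨C₁, hC₁, hend⟩ := end_tight (J := 2) h0 h hm (by norm_num)
  refine ⟨2 * C₁, by linarith, fun R t hR ht => ?_⟩
  obtain ⟨R', hR', hlow⟩ := lower_final (J := 2) (t := t / 8) h0 h hm (by norm_num) (by linarith)
  obtain ⟨n₁, hn₁, hlow⟩ := hlow R' le_rfl
  obtain ⟨n₂, hend⟩ := hend (R' + R - 1) (t / 8) (by omega) (by linarith)
  refine ⟨max (max n₁ n₂) (max R' 2), by omega, fun n hn x K hx hK hCK => ?_⟩
  have e1 : n₁ ≤ n := by omega
  have e2 : n₂ ≤ n := by omega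
  have e3 : R' ≤ n := by omega
  have e4 : 2 ≤ n := by omega
  have hlog : Real.log ((n + R' : ℤ) : ℝ) ≤ 2 * Real.log n := by
    have f1 : (2 : ℝ) ≤ n := by exact_mod_cast e4
    have f2 : ((n + R' : ℤ) : ℝ) ≤ (n : ℝ) ^ 2 := by
      have f3 : ((R' : ℤ) : ℝ) ≤ n := by exact_mod_cast e3
      push_cast
      nlinarith
    have f4 : (0 : ℝ) < ((n + R' : ℤ) : ℝ) := by
      have : (0 : ℤ) < n + R' := by omega
      exact_mod_cast this
    calc Real.log ((n + R' : ℤ) : ℝ) ≤ Real.log ((n : ℝ) ^ 2) := Real.log_le_log f4 f2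
      _ = 2 * Real.log n := by rw [Real.log_pow]; norm_num
  have g1 : PJ β 2 (n + R') (Above (n + R') x K) ≤ t / 8 := by
    refine hend (n + R') (by omega) x K (by rw [hx]; ring) ?_
    refine le_trans ?_ hCK
    have := mul_le_mul_of_nonneg_left hlog hC₁.le
    linarith
  have g2 := hlow (n + R') (n + R') (by omega) le_rfl {{(x, K)}} (by
    intro W hW p hp
    rw [Finset.mem_singleton] at hW
    subst hW
    rw [Finset.mem_singleton] at hp
    subst hp
    simp only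
    exact ⟨by rw [hx]; omega, hK⟩)
  have hn' : n + R' - R' = n := by ring
  rw [hn'] at g2
  simp only [hts_single] at g2
  have g3 := wall_mono (β := β) hβ (n := n) (M := n) (M' := n + R') (by omega) (by omega) (by omega)
    {{(x, K)}}
  simp only [hts_single] at g3
  unfold PJ at g1
  unfold PW
  linarith

private theorem empty47 {β : ℝ} {n H : ℤ} (hn : 1 ≤ n) (hH : n ≤ H)
    (𝒲 : Finset (Finset (ℤ × ℤ))) (h𝒲 : ∀ W ∈ 𝒲, ∀ p ∈ W, 1 ≤ p.2) (he : ∅ ∉ 𝒲) :
    PW β n (Hs n H 𝒲) ≤ 0 := by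
  unfold PW
  refine le_trans (avg_mono (G := fun _ => 0) fun ω hω => ?_) (le_of_eq (avg_const 0))
  rw [if_neg]
  rintro ⟨W, hW, hA⟩
  have hne : W.Nonempty := by
    rw [Finset.nonempty_iff_ne_empty]
    rintro rfl
    exact he hW
  obtain ⟨p, hp⟩ := hne
  have hp2 := h𝒲 W hW p hp
  obtain ⟨y, hy, hI⟩ := hA p hp
  rw [mem_confs] at hω
  apply hI.1
  have f1 : ((p.1, y) : Site) ∉ ubox n n := by
    rw [mem_ubox]
    simp only
    omega
  have f2 : bend ((p.1, y), false) ∉ ubox n n := by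
    rw [mem_ubox]
    simp only [bend, e2, Bool.false_eq_true, if_false, Prod.mk_add_mk, add_zero]
    omega
  change ω (p.1, y) = ω (bend ((p.1, y), false))
  rw [hω _ f1, hω _ f2]
  simp only [bend, e2, Bool.false_eq_true, if_false, Prod.mk_add_mk, add_zero, eta,
    decide_eq_decide]
  omega

theorem wall_width {β₁ β : ℝ} (h0 : 0 ≤ β₁) (h : β₁ < β) (hm : 0 < mag β₁) :
    ∃ C : ℝ, 0 < C ∧ ∀ (R : ℤ) (t : ℝ), 0 ≤ R → 0 < t → ∃ n₀ : ℤ, ∀ n : ℤ, n₀ ≤ n →
      ∀ (H : ℤ) (𝒲 : Finset (Finset (ℤ × ℤ))), C * Real.log n ≤ H →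
      (∀ W ∈ 𝒲, ∀ p ∈ W, |p.1| ≤ n - R ∧ 1 ≤ p.2) →
      PW β n (Hs n H 𝒲) ≤ PW β (n - R) (Hts (n - R) 𝒲) + t := by
  have hβ : 0 ≤ β := h0.trans h.le
  obtain ⟨C, hC, hends⟩ := ends47 h0 h hm
  refine ⟨C, hC, fun R t hR ht => ?_⟩
  rcases hR.eq_or_lt with hR0 | hR1
  · subst hR0
    refine ⟨1, fun n hn H 𝒲 hH _ => ?_⟩
    have hn1 : (1 : ℝ) ≤ n := by exact_mod_cast hn
    have hH0 : 0 ≤ H := by
      have : (0 : ℝ) ≤ H := le_trans (mul_nonneg hC.le (Real.log_nonneg hn1)) hH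
      exact_mod_cast this
    rw [sub_zero]
    have h1 : PW β n (Hs n H 𝒲) ≤ PW β n (Hts n 𝒲) :=
      PW_mono fun ω hω => (hs_zero n 𝒲 ω).1 (hs_mono hH0 hω)
    linarith
  · obtain ⟨n₀, hn₀, hE⟩ := hends R t (by omega) ht
    obtain ⟨n₃, hn₃⟩ : ∃ n₃ : ℤ, ∀ n : ℤ, n₃ ≤ n → (R : ℝ) ≤ C * Real.log n := by
      refine ⟨⌈Real.exp (R / C)⌉, fun n hn => ?_⟩
      have f1 : Real.exp (R / C) ≤ n := (Int.le_ceil _).trans (by exact_mod_cast hn)
      have f2 := (Real.le_log_iff_exp_le ((Real.exp_pos _).trans_le f1)).2 f1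
      rw [div_le_iff₀ hC] at f2
      linarith
    refine ⟨max (max n₀ n₃) (max R 1), fun n hn H 𝒲 hH h𝒲 => ?_⟩
    have e1 : n₀ ≤ n := by omega
    have e2 : n₃ ≤ n := by omega
    have e3 : R ≤ n := by omega
    have e4 : 1 ≤ n := by omega
    have hRH : R ≤ H := by
      have := (hn₃ n e2).trans hH
      exact_mod_cast this
    by_cases hHn : H + 1 ≤ n
    · have hC' : C * Real.log n ≤ ((H + 1 : ℤ) : ℝ) := by
        push_cast
        linarith
      have a1 := hE n e1 (-(n - R) - 1) (H + 1) (by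
        rw [show -(n - R) - 1 = -(n - R + 1) by ring, abs_neg, abs_of_nonneg (by omega)])
        (by omega) hC'
      have a2 := hE n e1 (n - R + 1) (H + 1) (abs_of_nonneg (by omega)) (by omega) hC'
      have a3 := block_wall hβ (N := n) (l := n - R) (H := H + 1) (by omega) (by omega) (by omega)
        hHn 𝒲 h𝒲
      have a4 := wall_mono (β := β) hβ (n := n - R) (M := n - (H + 1) + 1) (M' := n - R)
        (by omega) (by omega) (by omega) 𝒲
      have a5 : PW β n (Hs n H 𝒲) ≤ PW β n (Above n (-(n - R) - 1) (H + 1)) +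
          PW β n (fun ω => Above n (n - R + 1) (H + 1) ω ∨
            (¬ Above n (-(n - R) - 1) (H + 1) ω ∧ ¬ Above n (n - R + 1) (H + 1) ω ∧
              Hs n (H + 1 - 1) 𝒲 ω)) := by
        refine PW_or fun ω hω => ?_
        rw [show H + 1 - 1 = H by ring]
        tauto
      have a6 : PW β n (fun ω => Above n (n - R + 1) (H + 1) ω ∨
            (¬ Above n (-(n - R) - 1) (H + 1) ω ∧ ¬ Above n (n - R + 1) (H + 1) ω ∧
              Hs n (H + 1 - 1) 𝒲 ω)) ≤ PW β n (Above n (n - R + 1) (H + 1)) +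
          PW β n (fun ω => ¬ Above n (-(n - R) - 1) (H + 1) ω ∧
            ¬ Above n (n - R + 1) (H + 1) ω ∧ Hs n (H + 1 - 1) 𝒲 ω) :=
        PW_or fun ω hω => hω
      have a7 : avg β (kap 1) (ubox (n - R) (n - R)) (eta 0)
          (fun ω => if Hts (n - R) 𝒲 ω then 1 else 0) = PW β (n - R) (Hts (n - R) 𝒲) := rfl
      rw [a7] at a4
      linarith
    · by_cases he : ∅ ∈ 𝒲
      · have b1 : PW β (n - R) (Hts (n - R) 𝒲) = 1 := by
          unfold PW
          refine (avg_congr (G := fun _ => 1) fun ω _ => ?_).trans (avg_const 1)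
          rw [if_pos]
          exact ⟨∅, he, by simp⟩
        have b2 := PW_le_one β n (Hs n H 𝒲)
        linarith
      · have b1 := empty47 (β := β) e4 (by omega : n ≤ H) 𝒲
          (fun W hW p hp => (h𝒲 W hW p hp).2) he
        have b2 := PW_nonneg β (n - R) (Hts (n - R) 𝒲)
        linarith

end Pool.Agent.Helper49.DX
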